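import Pool.Agent.Lib.MP_ad84ff_co.Defs

/-!
# MP_ad84ff: monotone increments, definitions

See `PaperM.md` in this folder.

A state is a list of packets `(level, size, leaves)`; `leaves` counts the letters of the packet that
were appended and never hit.  The chain with parameter `c = 1` counts leaves, the chain with `c = 0`
forgets them (all the numbers of leaves are `0`).
-/

set_option autoImplicit false

namespace Pool.ADM

open Finset

/-- states: packets `(level, size, leaves)`, first packet first -/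
abbrev S3 := List (ℕ × ℕ × ℕ)

/-- histories: `(level of the hit packet (0 : append), new state)`, LATEST first -/
abbrev Pth := List (ℕ × S3)

/-- put `F` in front; merge with the first packet if that one has just jumped to level `F.1 + 1` -/
def glue3 (F : ℕ × ℕ × ℕ) : S3 → S3
  | [] => [F]
  | G :: ρ => if G.1 = F.1 + 1 then (G.1, F.2.1 + G.2.1, F.2.2 + G.2.2) :: ρ else F :: G :: ρ

/-- successors: (multiplicity, level of the hit packet (0 : append), new state) -/
def suc (c : ℕ) : S3 → List (ℕ × ℕ × S3)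
  | [] => [(1, 0, [(1, 1, c)])]
  | F :: τ => (F.2.2, F.1, (F.1 + 1, F.2.1 + 1, F.2.2 - 1) :: τ) ::
      (F.2.1 - F.2.2, F.1, (F.1 + 1, F.2.1 + 1, F.2.2) :: τ) ::
      (suc c τ).map fun x => (x.1, x.2.1, glue3 F x.2.2)

/-- weighted sum over successors -/
noncomputable def wsum (l : List (ℕ × ℕ × S3)) (f : ℕ → S3 → ℝ) : ℝ :=
  (l.map fun x => (x.1 : ℝ) * f x.2.1 x.2.2).sum

/-- latest state of a history -/
def hd : Pth → S3
  | [] => []
  | x :: _ => x.2

/-- sum over all histories of length `n`, with multiplicities -/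
noncomputable def PS (c : ℕ) : ℕ → (Pth → ℝ) → ℝ
  | 0, f => f []
  | n + 1, f => PS c n fun p => wsum (suc c (hd p)) fun h σ => f ((h, σ) :: p)

/-- mean over the states of `n` letters, with leaves -/
noncomputable def EM (n : ℕ) (f : S3 → ℝ) : ℝ := PS 1 n (fun p => f (hd p)) / (n.factorial : ℝ)

def top3 : S3 → ℕ
  | [] => 0
  | F :: _ => F.1

/-- level, size, leaves of the last packet -/
def last3 (σ : S3) : ℕ := (σ.getLastD (0, 0, 0)).1
def lsz (σ : S3) : ℕ := (σ.getLastD (0, 0, 0)).2.1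
def llf (σ : S3) : ℕ := (σ.getLastD (0, 0, 0)).2.2

/-- total size, total number of leaves -/
def sz (σ : S3) : ℕ := (σ.map fun q => q.2.1).sum
def lf (σ : S3) : ℕ := (σ.map fun q => q.2.2).sum

/-- levels of the first packet; hit levels (latest first) -/
def tps (p : Pth) : List ℕ := p.map fun x => top3 x.2
def hts (p : Pth) : List ℕ := p.map Prod.fst

/-- forget the leaves -/
def zp (σ : S3) : S3 := σ.map fun q => (q.1, q.2.1, 0)
def zpp (p : Pth) : Pth := p.map fun x => (x.1, zp x.2)

/-- the states of `n` letters of the chain with parameter `c`. -/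
structure Vs (c n : ℕ) (σ : S3) : Prop where
  sum : sz σ = n
  anti : σ.Pairwise fun F G => G.1 ≤ F.1
  pos : ∀ F ∈ σ, 1 ≤ F.1 ∧ F.1 ≤ F.2.1
  one : ∀ F ∈ σ, F.1 = 1 → F = (1, 1, c)
  big : ∀ F ∈ σ, 2 ≤ F.1 → F.2.2 < F.2.1
  zero : c = 0 → ∀ F ∈ σ, F.2.2 = 0

/-- histories of length `n`. -/
inductive VP (c : ℕ) : ℕ → Pth → Prop
  | nil : VP c 0 []
  | cons {n : ℕ} {p : Pth} {w h : ℕ} {σ : S3} (hp : VP c n p) (hw : w ≠ 0)
      (hs : (w, h, σ) ∈ suc c (hd p)) : VP c (n + 1) ((h, σ) :: p)

/-- erase a leaf: (number of leaves of the packet, new state) -/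
def er : S3 → List (ℕ × S3)
  | [] => []
  | F :: τ => (F.2.2, if F.1 = 1 then τ else (F.1, F.2.1 - 1, F.2.2 - 1) :: τ) ::
      (er τ).map fun x => (x.1, F :: x.2)

/-- sum over the erased leaves -/
noncomputable def Er (f : S3 → ℝ) (σ : S3) : ℝ := ((er σ).map fun x => (x.1 : ℝ) * f x.2).sum

/-- sum over all the ways to cut a state in two -/
noncomputable def cutS : S3 → (S3 → S3 → ℝ) → ℝ
  | [], G => G [] []
  | a :: σ, G => G [] (a :: σ) + cutS σ fun B O => G (a :: B) O

/-- all the ways to interleave a history `pB` of the first part and a history `pO` of the second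
part; each one is given by the list (latest first) of the levels of the first packet. -/
def VW : Pth → Pth → List (List ℕ)
  | [], [] => [[]]
  | x :: p, [] => (VW p []).map fun ts => top3 x.2 :: ts
  | [], _ :: _ => []
  | x :: p, y :: q =>
      (if x.1 = 0 then [] else (VW p (y :: q)).map fun ts => top3 x.2 :: ts) ++
      (if top3 y.2 ≤ last3 x.2 then (VW (x :: p) q).map fun ts => top3 x.2 :: ts else [])
termination_by p q => p.length + q.length

/-- number of ways to interleave a history `pF` with letters whose tops are `ts` (latest first) -/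
def N2 : Pth → List ℕ → ℕ
  | [], [] => 1
  | [], _ :: _ => 0
  | _ :: p, [] => N2 p []
  | x :: p, t :: ts => (if x.1 = 0 then 0 else N2 p (t :: ts)) +
      (if t ≤ last3 x.2 then N2 (x :: p) ts else 0)
termination_by p ts => p.length + ts.length

/-- number of words in letters `X` (hit levels `hs`), `P` (`D` of them) and `V` (tops `ts`); an `X`
with hit level `h` needs at most `h` letters `P` before it, a `V` with top `t` at least `t`.  All
lists latest first. -/
def K3 : List ℕ → ℕ → List ℕ → ℕ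
  | [], 0, [] => 1
  | [], 0, _ :: _ => 0
  | _ :: hs, 0, [] => K3 hs 0 []
  | _ :: _, 0, _ :: _ => 0
  | [], D + 1, [] => K3 [] D []
  | [], D + 1, t :: ts => K3 [] D (t :: ts) + (if t ≤ D + 1 then K3 [] (D + 1) ts else 0)
  | h :: hs, D + 1, [] => (if D + 1 ≤ h then K3 hs (D + 1) [] else 0) + K3 (h :: hs) D []
  | h :: hs, D + 1, t :: ts => (if D + 1 ≤ h then K3 hs (D + 1) (t :: ts) else 0) +
      K3 (h :: hs) D (t :: ts) + (if t ≤ D + 1 then K3 (h :: hs) (D + 1) ts else 0)
termination_by hs D ts => hs.length + D + ts.length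

/-- number of words in letters `F` (levels `ls` after each letter) and `V` (tops `ts`). -/
def N2l : List ℕ → List ℕ → ℕ
  | [], [] => 1
  | [], _ :: _ => 0
  | _ :: ls, [] => N2l ls []
  | l :: ls, t :: ts => N2l ls (t :: ts) + (if t ≤ l then N2l (l :: ls) ts else 0)
termination_by ls ts => ls.length + ts.length

/-- the words in `X` (hit levels `hs`) and `P` (`D` of them), each one given by the list (latest
first) of the numbers of letters `P`. -/
def XP : List ℕ → ℕ → List (List ℕ)
  | [], 0 => [[]]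
  | [], D + 1 => (XP [] D).map fun l => (D + 1) :: l
  | _ :: hs, 0 => (XP hs 0).map fun l => 0 :: l
  | h :: hs, D + 1 => (if D + 1 ≤ h then (XP hs (D + 1)).map fun l => (D + 1) :: l else []) ++
      (XP (h :: hs) D).map fun l => (D + 1) :: l
termination_by hs D => hs.length + D

/-- number of words in three types of letters. -/
def Jc (ls : List ℕ) (pB pO : Pth) : ℕ := ((VW pB pO).map (N2l ls)).sum

/-- `D, D-1, ..., 1`. -/
def dn : ℕ → List ℕ
  | 0 => []
  | D + 1 => (D + 1) :: dn D

/-- number of letters below level `q` -/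
def below (q : ℕ) (σ : S3) : ℕ := ((σ.filter fun p => p.1 < q).map fun p => p.2.1).sum

/-- weight of the letters `P` -/
def WtD (σ : S3) (D : ℕ) : ℕ := ∏ q ∈ Ico 1 D, (q + below q σ)

/-- the state with a last packet of level `q` that has absorbed everything below level `q` -/
def join (σ : S3) (q : ℕ) : S3 := (σ.filter fun p => q ≤ p.1) ++ [(q, q + below q σ, 0)]

/-- nonempty, all packets of level `D` -/
def AL (D : ℕ) (σ : S3) : Prop := σ ≠ [] ∧ ∀ q ∈ σ, q.1 = D

instance (D : ℕ) (σ : S3) : Decidable (AL D σ) := by unfold AL; infer_instance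

/-- class functional: cuts `F | B | O`, `F` on level `D` with `a` letters, `B` on level `D'` with
`b` letters, `O` with `x` letters. -/
noncomputable def cls (D D' a b x : ℕ) (g : S3 → S3 → S3 → ℝ) (σ : S3) : ℝ :=
  cutS σ fun F V => cutS V fun B O =>
    if AL D F ∧ sz F = a ∧ AL D' B ∧ sz B = b ∧ sz O = x then g F B O else 0

/-- number of marks `m₁` (a letter of the last packet of `B`), `m₂` (a letter of `B` or the extra
slot) with exactly `r` unmarked leaves in `B`; `sl, ul` : size and leaves of the last packet, `b, u`: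
size and leaves of `B`. -/
def yk (sl ul b u r : ℕ) : ℕ :=
  (if r = u then (sl - ul) * (b - u + 1) else 0) +
  (if r + 1 = u then ul * (b - u + 2) + (sl - ul) * u else 0) +
  (if r + 2 = u then ul * (u - 1) else 0)

def ym (B : S3) (r : ℕ) : ℕ := yk (lsz B) (llf B) (sz B) (lf B) r

/-- core functionals (the number of unmarked leaves is `n - (a + b + x)` on states of `n` letters) -/
noncomputable def c0 (D a b x : ℕ) (σ : S3) : ℝ :=
  cutS σ fun F V => cutS V fun B O =>
    if AL D F ∧ sz F = a + lf F ∧ AL (D - 1) B ∧ b ≤ sz B ∧ sz O = x + lf O then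
      (ym B (sz B - b) : ℝ) else 0

noncomputable def c1 (D a b x : ℕ) (σ : S3) : ℝ :=
  cutS σ fun F V => cutS V fun B O =>
    if AL D F ∧ sz F + 1 = a + lf F ∧ AL (D - 1) B ∧ b ≤ sz B ∧ sz O = x + lf O then
      (lf F : ℝ) * (ym B (sz B - b) : ℝ) else 0

noncomputable def cp (D b x : ℕ) (σ : S3) : ℝ :=
  cutS σ fun F V => cutS V fun B O =>
    if F = [(D, D, 0)] ∧ AL (D - 1) B ∧ b ≤ sz B ∧ sz O = x + lf O then
      (ym B (sz B - b) : ℝ) else 0

/-- pure core masses -/
noncomputable def zz (D w x : ℕ) : ℝ := EM (2 * D - 1 + w + x) (cp D (D - 1 + w) x)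

/-- core masses -/
noncomputable def z0 (D a b x : ℕ) : ℝ := EM (a + b + x) (c0 D a b x)
noncomputable def z1 (D a b x : ℕ) : ℝ := EM (a + b + x) (c1 D a b x)

/-- core masses, all numbers of leaves in `F` -/
noncomputable def zall (D a b x : ℕ) : ℝ :=
  EM (a + b + x) (cls D (D - 1) a b x fun _ B O => if lf O = 0 then (ym B 0 : ℝ) else 0)

/-- tie masses, near-tie masses -/
noncomputable def Xm (D a b x : ℕ) : ℝ :=
  EM (a + b + x) (cls D D a b x fun F B _ => (lsz F : ℝ) * (lsz B : ℝ))
noncomputable def Vm (D a b x : ℕ) : ℝ :=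
  EM (a + b + x) (cls D (D - 1) a b x fun _ B _ => (lsz B : ℝ) * ((b : ℝ) + 1))

/-- total size of the top level -/
def topN (σ : S3) : ℕ := ((σ.filter fun q => q.1 = top3 σ).map fun q => q.2.1).sum

/-- ties -/
noncomputable def Cf (σ : S3) : ℝ :=
  cutS σ fun F V => cutS V fun B _ =>
    if AL (top3 σ) F ∧ AL (top3 σ) B then (lsz F : ℝ) * (lsz B : ℝ) else 0

/-- near ties -/
noncomputable def Vf (σ : S3) : ℝ :=
  if top3 σ ≤ 1 then 1 else
  cutS σ fun F V => cutS V fun B _ =>
    if AL (top3 σ) F ∧ AL (top3 σ - 1) B then (lsz B : ℝ) * ((sz B : ℝ) + 1) else 0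

/-- `1/j!`, `1/(j-1)!` -/
noncomputable def fi (j : ℕ) : ℝ := 1 / (j.factorial : ℝ)
noncomputable def fm (j : ℕ) : ℝ := if j = 0 then 0 else 1 / ((j - 1).factorial : ℝ)

/-- the carry factor -/
noncomputable def rho (a b : ℕ) : ℝ :=
  ((b : ℝ) + 1) * (2 * a + b + 1) / (((a : ℝ) + 1) * (a + b + 1))

/-- `∏_{i=1}^{β-1} (a-i)/(m-i)` -/
noncomputable def psi (β a m : ℕ) : ℝ := ∏ i ∈ Ico 1 β, ((a : ℝ) - i) / ((m : ℝ) - i)

/-- no-append generator of the chain without leaves -/
noncomputable def gna (G : S3 → ℝ) (σ : S3) : ℝ := wsum (suc 0 σ) fun h ρ => if h = 0 then 0 else G ρ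

/-- histories whose last append is letter number `β`, `k` letters later -/
noncomputable def Qn (β k : ℕ) (G : S3 → ℝ) : ℝ :=
  PS 0 (β - 1) fun p => (gna^[k] G) (hd p ++ [(1, 1, 0)])

/-- probabilities of full states, given the last append `β` -/
noncomputable def q1 (β a D : ℕ) : ℝ :=
  if a < β then 0 else Qn β (a - β) (fun σ => if AL D σ then 1 else 0) / ((a - 1).factorial : ℝ)
noncomputable def q2 (β a D : ℕ) : ℝ :=
  if a < β then 0 else
    Qn β (a - β) (fun σ => if AL D σ then (lsz σ : ℝ) else 0) / (a.factorial : ℝ)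

/-- the bound for `P(top ≤ D)` with `a` letters -/
noncomputable def Rd (D : ℕ) : ℕ → ℝ
  | a => if a ≤ D then 1 else (∑ i : Fin D, Rd D (a - (i + 1))) / ((a : ℝ) - 1)
termination_by a => a
decreasing_by omega

/-- the contributions of the cores at time `N` -/
noncomputable def S1 (N : ℕ) : ℝ :=
  ∑ D ∈ Icc 2 N, ∑ a ∈ Icc 1 N, ∑ b ∈ Icc 1 N, ∑ x ∈ range (N + 1),
    if a + b + x ≤ N then
      z0 D a b x * (((a : ℝ) + b - 1) * fi (N - (a + b + x)) - a * fm (N - (a + b + x))) +
        z1 D a b x * (fi (N - (a + b + x)) - fm (N - (a + b + x)))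
    else 0

/-- the loss by the ties at time `n` -/
noncomputable def S2 (n : ℕ) : ℝ :=
  ∑ D ∈ Icc 2 n, ∑ a ∈ Icc 1 n, ∑ b ∈ Icc 1 n, ∑ x ∈ range (n + 1),
    if a + b + x = n then ((x : ℝ) + 1) * max 0 (1 - rho a b) * Xm D a b x else 0

noncomputable def tiny (n : ℕ) : ℝ := ((n : ℝ) + (n : ℝ) ^ 3) / (n.factorial : ℝ)

/-! ## The numerical functions -/

noncomputable def P2 (D e : ℕ) : ℝ :=
  if e + 1 ≤ D then 1 / (2 * (e : ℝ) * (2 * e - 1)) else
  if D = e then 1 / ((e : ℝ) * (2 * e - 1)) else 0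

noncomputable def P2s (D e : ℕ) : ℝ := if e ≤ D then 1 / (2 * (e : ℝ) * (2 * e - 1)) else 0

/-- the negative part of the coefficient of a class with `j` leaves (`a` letters on the top level,
`M = a + b`) -/
noncomputable def dev (a M j : ℕ) : ℝ :=
  if j = 0 then 0 else max (max ((j : ℝ) * a - (M - 1)) (j - 1)) 0 * fi j

/-- `∑_{β ≥ 3} ψ_β(a, m)` -/
noncomputable def Ps (a m : ℕ) : ℝ :=
  ((a : ℝ) - 1) * (a - 2) / (((m : ℝ) - a + 1) * (m - 1))

noncomputable def Tc (D w j : ℕ) : ℝ :=
  ((2 * (D : ℝ) - 2 + w) * fi j - D * fm j) / ((D : ℝ) + 1 + w)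

noncomputable def Ec (D w x j : ℕ) : ℝ :=
  if j = 0 then 0 else
    (((2 * (D : ℝ) - 1 + w) * fi (j - 1) - (D + 1) * fm (j - 1)) * (D - 2) / (2 * (2 * D + w + x)) +
      (fi (j - 1) - fm (j - 1)) / (2 * D + w + x)) / ((D : ℝ) + 1 + w)

noncomputable def Gev (D w x j k : ℕ) : ℝ :=
  dev (D + k) (2 * D - 1 + w) j * ((2 * (D : ℝ) - 1 + w + x) - 2 * k) / (2 * (D : ℝ) - 1 + w + x) /
    ((D : ℝ) - k + 1 + w)

noncomputable def God (D w x j k : ℕ) : ℝ :=
  dev (D + k + 1) (2 * D + w) (j - 1) * ((2 * (D : ℝ) - 1 + w + x) - 2 * k) /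
    (2 * (D : ℝ) + w + x) / ((D : ℝ) - k + 1 + w)

/-- running maximum -/
noncomputable def Gh (D w x j : ℕ) : ℕ → ℝ
  | 0 => 0
  | k + 1 => max (Gh D w x j k) (max (Gev D w x j (k + 1)) (God D w x j (k + 1)))

/-- bound of the defect of the classes with excess `≥ 2` -/
noncomputable def Dc (D w x j : ℕ) : ℝ :=
  ∑ k ∈ Icc 1 (D - 2),
    (Gev D w x j k * P2 (D - k) (2 * k) * (((D : ℝ) + k - 1) / (2 * D - 2 + w + x)) +
     God D w x j k * P2 (D - k) (2 * k + 1) * (((D : ℝ) + k) / (2 * D - 1 + w + x)) +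
     (Gh D w x j k * Ps (D + k + 1) (2 * D + w + x) -
        Gh D w x j (k - 1) * Ps (D + k) (2 * D + w + x)) * Rd (D - k) (D + k))

/-- coefficient of the ties of level `d`, excess `e`; `J` leaves, `n` letters. -/
noncomputable def Hw (w x J n d e : ℕ) : ℝ :=
  ((x : ℝ) + J + 1) * max 0 (1 - rho (d + e) (d + w)) / rho d (d + w) * (((d : ℝ) + e) / d) *
    (((n : ℝ) - e) / n) / ((d : ℝ) + 2 + w)

/-- running maximum; `d = D - 1 - k`, `e = 2 k + par`. -/
noncomputable def Hh (D w x J n par : ℕ) : ℕ → ℝ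
  | 0 => Hw w x J n (D - 1) par
  | k + 1 => max (Hh D w x J n par k) (Hw w x J n (D - 1 - (k + 1)) (2 * (k + 1) + par))

/-- bound of the loss by the ties, one parity -/
noncomputable def Hp (D w x J n par : ℕ) : ℝ :=
  ∑ k ∈ range (D - 2),
    (Hw w x J n (D - 1 - k) (2 * k + par) * P2s (D - 1 - k) (2 * k + par) *
        (((D : ℝ) - 2 + k + par) / ((n : ℝ) - 1)) +
     (Hh D w x J n par k * Ps (D - 1 + k + par) n -
        (if k = 0 then 0 else Hh D w x J n par (k - 1) * Ps (D - 2 + k + par) n)) *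
       Rd (D - 1 - k) (D - 1 + k + par))

noncomputable def Hc (D w x j : ℕ) : ℝ :=
  fi j * Hp D w x j (2 * D - 2 + w + x + j) 0 +
    (if j = 0 then 0 else fi (j - 1) * Hp D w x (j - 1) (2 * D - 2 + w + x + j) 1)

/-- the coefficients of the chain. -/
noncomputable def cc (D w x j : ℕ) : ℝ := Tc D w j + Ec D w x j - Dc D w x j - Hc D w x j

end Pool.ADM
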