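import Pool.Agent.Lib.MP_ad84ff_coM.M00
import Pool.Agent.Lib.MP_ad84ff_co.Nu2

section

/-! job ADM-25a: the level of the top is at least the size of every tree.

Every append starts a tree; a letter which hits a letter belongs to the tree of that letter.  All
the letters of a tree are in the same packet, whose level is at least the size of the tree.  With
last append `β ≥ 2` (no append later) and `a` letters, the size of the first tree is uniform on
`1, …, a-1`, and given this size the other trees are distributed as a mixture (over `β' ≥ 1`) of the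
same model with `a - i` letters:
`(a-2)! = ∑_{β'} C(β-2, β'-1) C(a-β, a-i-β') (i-1)! (a-i-1)!`.
Therefore `P(all trees ≤ D) ≤ Rd D a`. -/

set_option autoImplicit false

namespace Pool.ADM

open Finset

theorem Rd_le (D a : ℕ) (h : a ≤ D) : Rd D a = 1 := by
  rw [Rd, if_pos h]

theorem Rd_rec (D a : ℕ) (h : D < a) :
    Rd D a = (∑ i ∈ range D, Rd D (a - (i + 1))) / ((a : ℝ) - 1) := by
  rw [Rd, if_neg (by omega)]
  congr 1
  exact Fin.sum_univ_eq_sum_range (fun i => Rd D (a - (i + 1))) D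

theorem Rd_nonneg (D a : ℕ) : 0 ≤ Rd D a := by
  induction a using Nat.strong_induction_on with
  | _ a ih =>
    by_cases h : a ≤ D
    · rw [Rd_le D a h]; exact zero_le_one
    · rw [Rd_rec D a (by omega)]
      have h1 : (1 : ℝ) ≤ (a : ℝ) := by exact_mod_cast (by omega : 1 ≤ a)
      exact div_nonneg (Finset.sum_nonneg fun i _ => ih _ (by omega)) (by linarith)

theorem Rd_le_one (D a : ℕ) : Rd D a ≤ 1 := by
  induction a using Nat.strong_induction_on with
  | _ a ih =>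
    by_cases h : a ≤ D
    · rw [Rd_le D a h]
    · rw [Rd_rec D a (by omega)]
      have h1 : (D : ℝ) + 1 ≤ (a : ℝ) := by exact_mod_cast (by omega : D + 1 ≤ a)
      have h2 : (0 : ℝ) ≤ (D : ℝ) := Nat.cast_nonneg D
      refine div_le_one_of_le₀ ?_ (by linarith)
      calc (∑ i ∈ range D, Rd D (a - (i + 1))) ≤ ∑ _i ∈ range D, (1 : ℝ) :=
            Finset.sum_le_sum fun i _ => ih _ (by omega)
        _ = (D : ℝ) := by simp
        _ ≤ (a : ℝ) - 1 := by linarith

private theorem M25a_succ (D a : ℕ) : Rd D (a + 1) ≤ Rd D a := by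
  induction a using Nat.strong_induction_on with
  | _ a ih =>
    by_cases h : a ≤ D
    · rw [Rd_le D a h]; exact Rd_le_one D _
    · rcases Nat.eq_zero_or_pos D with hD | hD
      · subst hD
        rw [Rd_rec 0 a (by omega), Rd_rec 0 (a + 1) (by omega)]
        simp
      · rw [Rd_rec D a (by omega), Rd_rec D (a + 1) (by omega)]
        have h1 : (2 : ℝ) ≤ (a : ℝ) := by exact_mod_cast (by omega : 2 ≤ a)
        apply div_le_div₀ (Finset.sum_nonneg fun i _ => Rd_nonneg _ _)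
        · refine Finset.sum_le_sum fun i hi => ?_
          have hi' : i < D := Finset.mem_range.mp hi
          have e : a + 1 - (i + 1) = (a - (i + 1)) + 1 := by omega
          rw [e]
          exact ih _ (by omega)
        · linarith
        · push_cast; linarith

theorem Rd_anti (D a a' : ℕ) (h : a ≤ a') : Rd D a' ≤ Rd D a :=
  antitone_nat_of_succ_le (f := Rd D) (M25a_succ D) h

theorem Rd_mono (D D' a : ℕ) (h : D ≤ D') : Rd D a ≤ Rd D' a := by
  induction a using Nat.strong_induction_on with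
  | _ a ih =>
    by_cases h' : a ≤ D'
    · rw [Rd_le D' a h']; exact Rd_le_one D a
    · rw [Rd_rec D a (by omega), Rd_rec D' a (by omega)]
      have h1 : (1 : ℝ) ≤ (a : ℝ) := by exact_mod_cast (by omega : 1 ≤ a)
      refine div_le_div_of_nonneg_right ?_ (by linarith)
      calc (∑ i ∈ range D, Rd D (a - (i + 1))) ≤ ∑ i ∈ range D, Rd D' (a - (i + 1)) :=
            Finset.sum_le_sum fun i _ => ih _ (by omega)
        _ ≤ ∑ i ∈ range D', Rd D' (a - (i + 1)) :=
            Finset.sum_le_sum_of_subset_of_nonneg (Finset.range_mono h)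
              fun i _ _ => Rd_nonneg _ _

end Pool.ADM
end

section

/-!
# Numerics: definitions

`cc Δ w x j0 = Am - Hc` for `j0 ≤ 1`, `cc D w x j ≥ -Lo D w x j` for `j ≥ 2`, `Lo ≥ 0`.  See `PaperN.md`.
-/

set_option autoImplicit false

namespace Pool.ADM

open Finset

noncomputable def LT (D w j : ℕ) : ℝ := ((D : ℝ) * ((j : ℝ) - 2) + 2) * fi j / ((D : ℝ) + 1 + w)

noncomputable def LE (D w x j : ℕ) : ℝ :=
  if j ≤ 2 then 0 else
  fi (j - 1) * ((((j : ℝ) - 3) * D + j) * ((D : ℝ) - 2) / 2 + ((j : ℝ) - 2)) /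
    ((2 * (D : ℝ) + w + x) * ((D : ℝ) + 1 + w))

/-- the loss of level `D`, `j ≥ 2` -/
noncomputable def Lo (D w x j : ℕ) : ℝ := LT D w j + LE D w x j + Dc D w x j + Hc D w x j

/-- the main term, `j0 ≤ 1` -/
noncomputable def Am (D w x j0 : ℕ) : ℝ :=
  if j0 = 0 then (2 * (D : ℝ) - 2 + w) / ((D : ℝ) + 1 + w) else
  (((D : ℝ) - 2 + w) + ((2 * (D : ℝ) - 1 + w) * ((D : ℝ) - 2) / 2 + 1) / (2 * (D : ℝ) + w + x)) /
    ((D : ℝ) + 1 + w)

noncomputable def Ft (Δ w x j0 I : ℕ) : ℝ :=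
  Am Δ w x j0 - Hc Δ w x j0 - ∑ i ∈ Icc 1 I, Lo (Δ - i) w x (j0 + 2 * i)

end Pool.ADM
end

section

/-!
# Numerics: fixed-point upper bounds (natural numbers, unit `1/SC`)

`x1 ≤ x ≤ x2`; if `inf = true` there is no upper bound of `x` (then `x2` is not used).
All the functions with suffix `N` are upper bounds, in units `1/SC`, except `amN` (lower bound).
-/

set_option autoImplicit false

namespace Pool.ADM

/-- the unit -/
def SC : ℕ := 10000000000

/-- `⌈p / q⌉` -/
def cd (p q : ℕ) : ℕ := (p + q - 1) / q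

/-- upper bound of `Rd δ (n + 1)`; `δ ≥ 1` -/
def rbN : ℕ → ℕ → ℕ → ℕ
  | 0, _, _ => SC
  | f + 1, δ, n =>
      if n ≤ δ then SC else
      if n ≤ 2 * δ then cd (SC * (3 * δ + 1 - n)) (n + δ + 1) else
      cd ((δ + 1) * rbN f δ (n - δ)) (2 * n + 1 - δ)

/-- `(m - e) / m` for `m = m2`, or `1` -/
def frA (inf : Bool) (m2 e : ℕ) : ℕ := if inf then 1 else m2 - e
def frB (inf : Bool) (m2 : ℕ) : ℕ := if inf then 1 else m2

/-- numerator of `dev`: `max (j a - (M - 1)) (j - 1)` -/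
def dvN (a M j : ℕ) : ℕ := if j = 0 then 0 else max (j * a + 1 - M) (j - 1)

def p2N (D e : ℕ) : ℕ := if e + 1 ≤ D then 1 else if D = e then 2 else 0

/-- state of the loop: (running maximum of `G`, previous `φ`, sum) -/
def dcStep (D w x1 x2 : ℕ) (inf : Bool) (j k : ℕ) (s : ℕ × ℕ × ℕ) : ℕ × ℕ × ℕ :=
  let m1 := 2 * D - 1 + w + x1
  let m2 := 2 * D - 1 + w + x2
  let ge := cd (SC * dvN (D + k) (2 * D - 1 + w) j * frA inf m2 (2 * k))
    (j.factorial * frB inf m2 * (D - k + 1 + w))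
  let go := cd (SC * dvN (D + k + 1) (2 * D + w) (j - 1) * frA inf m2 (2 * k))
    ((j - 1).factorial * frB inf (m2 + 1) * (D - k + 1 + w))
  let g := max s.1 (max ge go)
  let ph := max s.2.1 (cd (g * ((D + k) * (D + k - 1))) ((D - k + w + x1) * m1))
  (g, ph, s.2.2 +
    cd (ge * p2N (D - k) (2 * k) * (D + k - 1)) ((m1 - 1) * (2 * (2 * k) * (2 * (2 * k) - 1))) +
    cd (go * p2N (D - k) (2 * k + 1) * (D + k)) (m1 * (2 * (2 * k + 1) * (2 * (2 * k + 1) - 1))) +
    cd ((ph - s.2.1) * rbN 400 (D - k) (D + k - 1)) SC)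

/-- the loop `k = 1, …, n` -/
def dcLoop (D w x1 x2 : ℕ) (inf : Bool) (j : ℕ) : ℕ → ℕ × ℕ × ℕ
  | 0 => (0, 0, 0)
  | k + 1 => dcStep D w x1 x2 inf j (k + 1) (dcLoop D w x1 x2 inf j k)

def dcN (D w x1 x2 : ℕ) (inf : Bool) (j : ℕ) : ℕ := (dcLoop D w x1 x2 inf j (D - 2)).2.2

def hpStep (D w x1 x2 : ℕ) (inf : Bool) (J par k : ℕ) (s : ℕ × ℕ × ℕ) : ℕ × ℕ × ℕ :=
  let n1 := 2 * D - 2 + w + x1 + J + par
  let n2 := 2 * D - 2 + w + x2 + J + par
  let d := D - 1 - k
  let e := 2 * k + par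
  let a := d + e
  let b := d + w
  let hw := cd (SC * ((a + 1) * (a + b + 1) - (b + 1) * (2 * a + b + 1)) *
      ((d + 1) * (d + b + 1)) * a * frA inf n2 e)
    ((a + 1) * (a + b + 1) * ((b + 1) * (2 * d + b + 1)) * d * frB inf n2 * (d + 2 + w))
  let g := max s.1 hw
  let ph := max s.2.1 (cd (g * ((a - 1) * (a - 2)) * (if inf then 1 else x2 + J + 1))
    ((n1 - 1) * (if inf then 1 else n2 + 1 - a)))
  (g, ph, s.2.2 +
    (if e = 0 then 0 else if e ≤ d then cd (hw * (a - 1) * (if inf then 1 else x2 + J + 1))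
      ((if inf then 1 else n2 - 1) * (2 * e * (2 * e - 1))) else 0) +
    cd ((ph - s.2.1) * rbN 400 d (a - 1)) SC)

/-- the loop `k = 0, …, n - 1` -/
def hpLoop (D w x1 x2 : ℕ) (inf : Bool) (J par : ℕ) : ℕ → ℕ × ℕ × ℕ
  | 0 => (0, 0, 0)
  | k + 1 => hpStep D w x1 x2 inf J par k (hpLoop D w x1 x2 inf J par k)

def hpN (D w x1 x2 : ℕ) (inf : Bool) (J par : ℕ) : ℕ := (hpLoop D w x1 x2 inf J par (D - 2)).2.2

def hcN (D w x1 x2 : ℕ) (inf : Bool) (j : ℕ) : ℕ :=
  cd (hpN D w x1 x2 inf j 0) j.factorial +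
    (if j = 0 then 0 else cd (hpN D w x1 x2 inf (j - 1) 1) (j - 1).factorial)

/-- `LT` and `LE` -/
def ltN (D w j : ℕ) : ℕ := cd (SC * (D * (j - 2) + 2)) (j.factorial * (D + 1 + w))

def leN (D w x1 j : ℕ) : ℕ :=
  if j ≤ 2 then 0 else
  cd (SC * (((j - 3) * D + j) * (D - 2) + 2 * (j - 2)))
    (2 * (j - 1).factorial * ((2 * D + w + x1) * (D + 1 + w)))

def loN (D w x1 x2 : ℕ) (inf : Bool) (j : ℕ) : ℕ :=
  ltN D w j + leN D w x1 j + dcN D w x1 x2 inf j + hcN D w x1 x2 inf j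

/-- lower bound of the main term -/
def amN (D w x2 : ℕ) (inf : Bool) (j0 : ℕ) : ℕ :=
  if j0 = 0 then SC * (2 * D - 2 + w) / (D + 1 + w) else
  if inf then SC * (D - 2 + w) / (D + 1 + w) else
  SC * (2 * (D - 2 + w) * (2 * D + w + x2) + (2 * D - 1 + w) * (D - 2) + 2) /
    (2 * (2 * D + w + x2) * (D + 1 + w))

/-- sum of the losses `i = 1, …, I` -/
def sumN (Δ w x1 x2 : ℕ) (inf : Bool) (j0 : ℕ) : ℕ → ℕ
  | 0 => 0
  | i + 1 => sumN Δ w x1 x2 inf j0 i + loN (Δ - (i + 1)) w x1 x2 inf (j0 + 2 * (i + 1))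

/-- the check: `SC / 500` is the margin. -/
def chk (Δ w x1 x2 : ℕ) (inf : Bool) (j0 : ℕ) : Bool :=
  Nat.ble (hcN Δ w x1 x2 inf j0 + sumN Δ w x1 x2 inf j0 (min (Δ - 2) 6) + SC / 500)
    (amN Δ w x2 inf j0)

/-- list of cells from `x1` on: `l` = the right ends, then an infinite cell. -/
def chkL (Δ w j0 : ℕ) : ℕ → List ℕ → Bool
  | x1, [] => chk Δ w x1 0 true j0
  | x1, x2 :: l => chk Δ w x1 x2 false j0 && chkL Δ w j0 (x2 + 1) l

end Pool.ADM
end

section

/-! job ADM-01a: successors, path sums. -/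

set_option autoImplicit false

namespace Pool.ADM

open Finset

theorem wsum_nil (f : ℕ → S3 → ℝ) : wsum [] f = 0 := rfl

theorem wsum_cons (x : ℕ × ℕ × S3) (l : List (ℕ × ℕ × S3)) (f : ℕ → S3 → ℝ) :
    wsum (x :: l) f = (x.1 : ℝ) * f x.2.1 x.2.2 + wsum l f := by
  simp [wsum]

theorem wsum_add (l : List (ℕ × ℕ × S3)) (f g : ℕ → S3 → ℝ) :
    wsum l (fun h σ => f h σ + g h σ) = wsum l f + wsum l g := by
  induction l with
  | nil => simp [wsum]
  | cons x l ih =>
    rw [wsum_cons, wsum_cons, wsum_cons, ih]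
    ring

theorem wsum_mul (l : List (ℕ × ℕ × S3)) (c : ℝ) (f : ℕ → S3 → ℝ) :
    wsum l (fun h σ => c * f h σ) = c * wsum l f := by
  induction l with
  | nil => simp [wsum]
  | cons x l ih =>
    rw [wsum_cons, wsum_cons, ih]
    ring

theorem wsum_congr (l : List (ℕ × ℕ × S3)) (f g : ℕ → S3 → ℝ)
    (h : ∀ x ∈ l, x.1 ≠ 0 → f x.2.1 x.2.2 = g x.2.1 x.2.2) : wsum l f = wsum l g := by
  induction l with
  | nil => rfl
  | cons x l ih =>
    rw [wsum_cons, wsum_cons, ih fun y hy => h y (List.mem_cons_of_mem _ hy)]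
    congr 1
    by_cases hx : x.1 = 0
    · rw [hx, Nat.cast_zero, zero_mul, zero_mul]
    · rw [h x List.mem_cons_self hx]

theorem wsum_mono (l : List (ℕ × ℕ × S3)) (f g : ℕ → S3 → ℝ)
    (h : ∀ x ∈ l, x.1 ≠ 0 → f x.2.1 x.2.2 ≤ g x.2.1 x.2.2) : wsum l f ≤ wsum l g := by
  induction l with
  | nil => exact le_rfl
  | cons x l ih =>
    rw [wsum_cons, wsum_cons]
    refine add_le_add ?_ (ih fun y hy => h y (List.mem_cons_of_mem _ hy))
    by_cases hx : x.1 = 0
    · rw [hx, Nat.cast_zero, zero_mul, zero_mul]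
    · exact mul_le_mul_of_nonneg_left (h x List.mem_cons_self hx) (Nat.cast_nonneg _)

/-- `wsum` over the list of successors behind a packet `F`. -/
theorem wsum_glue (F : ℕ × ℕ × ℕ) (l : List (ℕ × ℕ × S3)) (f : ℕ → S3 → ℝ) :
    wsum (l.map fun x => (x.1, x.2.1, glue3 F x.2.2)) f = wsum l fun h σ => f h (glue3 F σ) := by
  unfold wsum
  rw [List.map_map]
  rfl

theorem wsum_suc_cons (c : ℕ) (F : ℕ × ℕ × ℕ) (τ : S3) (f : ℕ → S3 → ℝ) :
    wsum (suc c (F :: τ)) f = (F.2.2 : ℝ) * f F.1 ((F.1 + 1, F.2.1 + 1, F.2.2 - 1) :: τ) +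
      ((F.2.1 - F.2.2 : ℕ) : ℝ) * f F.1 ((F.1 + 1, F.2.1 + 1, F.2.2) :: τ) +
      wsum (suc c τ) fun h σ => f h (glue3 F σ) := by
  have h1 : suc c (F :: τ) = (F.2.2, F.1, (F.1 + 1, F.2.1 + 1, F.2.2 - 1) :: τ) ::
      (F.2.1 - F.2.2, F.1, (F.1 + 1, F.2.1 + 1, F.2.2) :: τ) ::
      (suc c τ).map fun x => (x.1, x.2.1, glue3 F x.2.2) := rfl
  rw [h1, wsum_cons, wsum_cons, wsum_glue, add_assoc]

theorem vs_nil (c : ℕ) : Vs c 0 [] := by
  constructor <;> simp [sz]

private theorem M01a_sz_cons (F : ℕ × ℕ × ℕ) (τ : S3) : sz (F :: τ) = F.2.1 + sz τ := by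
  simp [sz]

private theorem M01a_lf_cons (F : ℕ × ℕ × ℕ) (τ : S3) : lf (F :: τ) = F.2.2 + lf τ := by
  simp [lf]

private theorem M01a_sz_append (σ τ : S3) : sz (σ ++ τ) = sz σ + sz τ := by
  simp [sz]

private theorem M01a_tail {c n : ℕ} {F : ℕ × ℕ × ℕ} {τ : S3} (h : Vs c n (F :: τ)) :
    Vs c (sz τ) τ where
  sum := rfl
  anti := (List.pairwise_cons.1 h.anti).2
  pos G hG := h.pos G (List.mem_cons_of_mem _ hG)
  one G hG := h.one G (List.mem_cons_of_mem _ hG)
  big G hG := h.big G (List.mem_cons_of_mem _ hG)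
  zero hc G hG := h.zero hc G (List.mem_cons_of_mem _ hG)

private theorem M01a_le {c n : ℕ} (hc : c ≤ 1) {σ : S3} (h : Vs c n σ) {F : ℕ × ℕ × ℕ}
    (hF : F ∈ σ) : F.2.2 ≤ F.2.1 := by
  obtain ⟨h1, -⟩ := h.pos F hF
  rcases h1.lt_or_eq with h2 | h2
  · exact (h.big F hF h2).le
  · rw [h.one F hF h2.symm]
    exact hc

private theorem M01a_lf_le {τ : S3} (h : ∀ F ∈ τ, F.2.2 ≤ F.2.1) : lf τ ≤ sz τ := by
  induction τ with
  | nil => exact le_rfl
  | cons F τ ih =>
    rw [M01a_lf_cons, M01a_sz_cons]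
    exact add_le_add (h F List.mem_cons_self) (ih fun G hG => h G (List.mem_cons_of_mem _ hG))

private theorem M01a_lf_zero {τ : S3} (h : ∀ F ∈ τ, F.2.2 = 0) : lf τ = 0 := by
  induction τ with
  | nil => rfl
  | cons F τ ih =>
    rw [M01a_lf_cons, h F List.mem_cons_self, ih fun G hG => h G (List.mem_cons_of_mem _ hG)]

/-- structure of the successors: `σ = α ++ β ++ q :: τ` where `q` is the hit packet, `β` the
preceding packets of the same level; or an append. -/
theorem suc_cases (c n : ℕ) (σ : S3) (hσ : Vs c n σ) (w h : ℕ) (ρ : S3) (hs : (w, h, ρ) ∈ suc c σ)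
    (hw : w ≠ 0) :
    (h = 0 ∧ w = 1 ∧ ρ = σ ++ [(1, 1, c)]) ∨
    (1 ≤ h ∧ ∃ (α β : S3) (q : ℕ × ℕ × ℕ) (τ : S3) (u : ℕ), σ = α ++ β ++ q :: τ ∧ q.1 = h ∧
      (∀ r ∈ α, h < r.1) ∧ (∀ r ∈ β, r.1 = h) ∧ (∀ r ∈ τ, r.1 ≤ h) ∧
      ρ = α ++ (h + 1, sz β + q.2.1 + 1, lf β + u) :: τ ∧
      ((u + 1 = q.2.2 ∧ w = q.2.2) ∨ (u = q.2.2 ∧ w = q.2.1 - q.2.2))) := by
  induction σ generalizing n w h ρ with
  | nil =>
    left
    simp only [suc, List.mem_singleton, Prod.mk.injEq] at hs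
    exact ⟨hs.2.1, hs.1, hs.2.2⟩
  | cons F τ ih =>
    have hanti := (List.pairwise_cons.1 hσ.anti).1
    have hF := hσ.pos F List.mem_cons_self
    simp only [suc, List.mem_cons, List.mem_map] at hs
    rcases hs with hs | hs | ⟨x, hx, hs⟩
    · simp only [Prod.mk.injEq] at hs
      obtain ⟨h1, h2, h3⟩ := hs
      right
      refine ⟨by rw [h2]; exact hF.1, [], [], F, τ, F.2.2 - 1, rfl, h2.symm, by simp, by simp, ?_,
        ?_, ?_⟩
      · intro r hr
        rw [h2]
        exact hanti r hr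
      · rw [h3, h2]
        simp [sz, lf]
      · left
        exact ⟨by omega, h1⟩
    · simp only [Prod.mk.injEq] at hs
      obtain ⟨h1, h2, h3⟩ := hs
      right
      refine ⟨by rw [h2]; exact hF.1, [], [], F, τ, F.2.2, rfl, h2.symm, by simp, by simp, ?_,
        ?_, ?_⟩
      · intro r hr
        rw [h2]
        exact hanti r hr
      · rw [h3, h2]
        simp [sz, lf]
      · right
        exact ⟨rfl, h1⟩
    · obtain ⟨w', h', ρ'⟩ := x
      simp only [Prod.mk.injEq] at hs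
      obtain ⟨e1, e2, e3⟩ := hs
      subst e1
      subst e2
      rcases ih (sz τ) (M01a_tail hσ) w' h' ρ' hx hw with ⟨a1, a2, a3⟩ | ⟨a1, α, β, q, τ', u, b1,
        b2, b3, b4, b5, b6, b7⟩
      · left
        refine ⟨a1, a2, ?_⟩
        rw [← e3, a3]
        cases τ with
        | nil =>
          have h1 : ¬ (1 = F.1 + 1) := by omega
          change (if 1 = F.1 + 1 then _ else F :: [(1, 1, c)]) = _
          rw [if_neg h1]
          rfl
        | cons G τ' =>
          have h1 := hanti G List.mem_cons_self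
          have h2 : ¬ (G.1 = F.1 + 1) := by omega
          simp [glue3, h2]
      · right
        refine ⟨a1, ?_⟩
        have hq : q ∈ τ := by rw [b1]; simp
        have hqF := hanti q hq
        cases α with
        | nil =>
          by_cases hFh : F.1 = h'
          · refine ⟨[], F :: β, q, τ', u, ?_, b2, by simp, ?_, b5, ?_, b7⟩
            · rw [b1]; simp
            · intro r hr
              rcases List.mem_cons.1 hr with rfl | hr
              · exact hFh
              · exact b4 r hr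
            · rw [← e3, b6, M01a_sz_cons, M01a_lf_cons]
              simp only [List.nil_append, glue3, hFh, if_true]
              congr 2
              rw [Prod.mk.injEq]
              constructor <;> ring
          · refine ⟨[F], β, q, τ', u, ?_, b2, ?_, b4, b5, ?_, b7⟩
            · rw [b1]; simp
            · intro r hr
              rw [List.mem_singleton.1 hr]
              omega
            · rw [← e3, b6]
              have h1 : ¬ (h' + 1 = F.1 + 1) := by omega
              change (if h' + 1 = F.1 + 1 then _ else _) = _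
              rw [if_neg h1]
              rfl
        | cons G α' =>
          have hG : G ∈ τ := by rw [b1]; simp
          have h1 := hanti G hG
          refine ⟨F :: G :: α', β, q, τ', u, ?_, b2, ?_, b4, b5, ?_, b7⟩
          · rw [b1]; simp
          · intro r hr
            rcases List.mem_cons.1 hr with rfl | hr
            · exact (b3 G List.mem_cons_self).trans_le h1
            · exact b3 r hr
          · rw [← e3, b6]
            have h2 : ¬ (G.1 = F.1 + 1) := by omega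
            simp [glue3, h2]

theorem suc_vs (c n : ℕ) (hc : c ≤ 1) (σ : S3) (hσ : Vs c n σ) :
    ∀ x ∈ suc c σ, x.1 ≠ 0 → Vs c (n + 1) x.2.2 := by
  rintro ⟨w, h, ρ⟩ hx hw
  change Vs c (n + 1) ρ
  rcases suc_cases c n σ hσ w h ρ hx hw with ⟨-, -, a3⟩ | ⟨a1, α, β, q, τ, u, b1, b2, b3, b4, b5,
    b6, b7⟩
  · subst a3
    refine ⟨?_, ?_, ?_, ?_, ?_, ?_⟩
    · rw [M01a_sz_append, hσ.sum]
      simp [sz]
    · rw [List.pairwise_append]
      refine ⟨hσ.anti, List.pairwise_singleton _ _, fun F hF G hG => ?_⟩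
      rw [List.mem_singleton.1 hG]
      exact (hσ.pos F hF).1
    · intro F hF
      rcases List.mem_append.1 hF with hF | hF
      · exact hσ.pos F hF
      · rw [List.mem_singleton.1 hF]
        exact ⟨le_rfl, le_rfl⟩
    · intro F hF h1
      rcases List.mem_append.1 hF with hF | hF
      · exact hσ.one F hF h1
      · exact List.mem_singleton.1 hF
    · intro F hF h1
      rcases List.mem_append.1 hF with hF | hF
      · exact hσ.big F hF h1
      · rw [List.mem_singleton.1 hF] at h1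
        exact absurd h1 (by norm_num)
    · intro h0 F hF
      rcases List.mem_append.1 hF with hF | hF
      · exact hσ.zero h0 F hF
      · rw [List.mem_singleton.1 hF]
        exact h0
  · subst b6
    have hle : ∀ F ∈ σ, F.2.2 ≤ F.2.1 := fun F hF => M01a_le hc hσ hF
    have hmα : ∀ F ∈ α, F ∈ σ := fun F hF => by rw [b1]; simp [hF]
    have hmβ : ∀ F ∈ β, F ∈ σ := fun F hF => by rw [b1]; simp [hF]
    have hmτ : ∀ F ∈ τ, F ∈ σ := fun F hF => by rw [b1]; simp [hF]
    have hmq : q ∈ σ := by rw [b1]; simp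
    have hq := hσ.pos q hmq
    have hlβ : lf β ≤ sz β := M01a_lf_le fun F hF => hle F (hmβ F hF)
    have hlq := hle q hmq
    have hanti := hσ.anti
    rw [b1, List.append_assoc, List.pairwise_append] at hanti
    obtain ⟨c1, c2, c3⟩ := hanti
    rw [List.pairwise_append, List.pairwise_cons] at c2
    refine ⟨?_, ?_, ?_, ?_, ?_, ?_⟩
    · have h1 := hσ.sum
      rw [b1, M01a_sz_append, M01a_sz_append, M01a_sz_cons] at h1
      rw [M01a_sz_append, M01a_sz_cons]
      change sz α + (sz β + q.2.1 + 1 + sz τ) = n + 1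
      omega
    · rw [List.pairwise_append, List.pairwise_cons]
      refine ⟨c1, ⟨fun r hr => ?_, c2.2.1.2⟩, fun F hF G hG => ?_⟩
      · exact (b5 r hr).trans (Nat.le_succ _)
      · rcases List.mem_cons.1 hG with rfl | hG
        · exact b3 F hF
        · exact c3 F hF G (by simp [hG])
    · intro F hF
      rcases List.mem_append.1 hF with hF | hF
      · exact hσ.pos F (hmα F hF)
      · rcases List.mem_cons.1 hF with rfl | hF
        · change 1 ≤ h + 1 ∧ h + 1 ≤ sz β + q.2.1 + 1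
          omega
        · exact hσ.pos F (hmτ F hF)
    · intro F hF h1
      rcases List.mem_append.1 hF with hF | hF
      · exact hσ.one F (hmα F hF) h1
      · rcases List.mem_cons.1 hF with rfl | hF
        · change h + 1 = 1 at h1
          omega
        · exact hσ.one F (hmτ F hF) h1
    · intro F hF h1
      rcases List.mem_append.1 hF with hF | hF
      · exact hσ.big F (hmα F hF) h1
      · rcases List.mem_cons.1 hF with rfl | hF
        · change lf β + u < sz β + q.2.1 + 1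
          omega
        · exact hσ.big F (hmτ F hF) h1
    · intro h0 F hF
      rcases List.mem_append.1 hF with hF | hF
      · exact hσ.zero h0 F (hmα F hF)
      · rcases List.mem_cons.1 hF with rfl | hF
        · change lf β + u = 0
          have h1 : lf β = 0 := M01a_lf_zero fun G hG => hσ.zero h0 G (hmβ G hG)
          have h2 := hσ.zero h0 q hmq
          omega
        · exact hσ.zero h0 F (hmτ F hF)

theorem wsum_suc_one (c n : ℕ) (hc : c ≤ 1) (σ : S3) (hσ : Vs c n σ) :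
    wsum (suc c σ) (fun _ _ => 1) = (n : ℝ) + 1 := by
  induction σ generalizing n with
  | nil =>
    have h1 : n = 0 := by rw [← hσ.sum]; rfl
    subst h1
    simp [suc, wsum]
  | cons F τ ih =>
    have h1 := ih (sz τ) (M01a_tail hσ)
    have h2 := M01a_le hc hσ (F := F) List.mem_cons_self
    have h3 := hσ.sum
    rw [M01a_sz_cons] at h3
    rw [wsum_suc_cons, h1, Nat.cast_sub h2, ← h3]
    push_cast
    ring

theorem suc_top (c n : ℕ) (σ : S3) (hσ : Vs c n σ) :
    ∀ x ∈ suc c σ, x.1 ≠ 0 → top3 σ ≤ top3 x.2.2 ∧ top3 x.2.2 ≤ top3 σ + 1 ∧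
      x.2.1 + 1 ≤ top3 x.2.2 ∧ x.2.2 ≠ [] := by
  rintro ⟨w, h, ρ⟩ hx hw
  change top3 σ ≤ top3 ρ ∧ top3 ρ ≤ top3 σ + 1 ∧ h + 1 ≤ top3 ρ ∧ ρ ≠ []
  rcases suc_cases c n σ hσ w h ρ hx hw with ⟨a1, -, a3⟩ | ⟨a1, α, β, q, τ, u, b1, b2, b3, b4, b5,
    b6, b7⟩
  · subst a3
    subst a1
    cases σ with
    | nil => exact ⟨Nat.zero_le _, le_rfl, le_rfl, by simp⟩
    | cons F σ' =>
      have h1 := (hσ.pos F List.mem_cons_self).1
      exact ⟨le_rfl, Nat.le_succ _, h1, by simp⟩
  · subst b6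
    cases α with
    | nil =>
      have h1 : top3 σ = h := by
        rw [b1]
        cases β with
        | nil => exact b2
        | cons G β' => exact b4 G List.mem_cons_self
      rw [h1]
      exact ⟨Nat.le_succ _, le_rfl, le_rfl, by simp⟩
    | cons G α' =>
      have h1 : top3 σ = G.1 := by rw [b1]; rfl
      rw [h1]
      exact ⟨le_rfl, Nat.le_succ _, b3 G List.mem_cons_self, by simp⟩

end Pool.ADM
end

section

/-! job ADM-01b: successors, path sums. -/

set_option autoImplicit false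

namespace Pool.ADM

open Finset

theorem VP.vs {c n : ℕ} (hc : c ≤ 1) {p : Pth} (h : VP c n p) : Vs c n (hd p) := by
  induction h with
  | nil => exact vs_nil c
  | cons hp hw hs ih => exact suc_vs c _ hc _ ih _ hs hw

theorem VP.length {c n : ℕ} {p : Pth} (h : VP c n p) : p.length = n := by
  induction h with
  | nil => rfl
  | cons hp hw hs ih => rw [List.length_cons, ih]

/-- the levels of the first packet are positive and nonincreasing in the list (latest first);
the hit levels are below the latest top. -/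
theorem VP.tps {c n : ℕ} (hc : c ≤ 1) {p : Pth} (h : VP c n p) :
    (tps p).Pairwise (fun s t => t ≤ s) ∧ (∀ t ∈ tps p, 1 ≤ t ∧ t ≤ top3 (hd p)) ∧
      (∀ k ∈ hts p, k + 1 ≤ top3 (hd p)) := by
  induction h with
  | nil => exact ⟨List.Pairwise.nil, fun t ht => (by cases ht), fun t ht => (by cases ht)⟩
  | @cons n p w h σ hp hw hs ih =>
    obtain ⟨h1, h2, h3⟩ := ih
    obtain ⟨g1, _, g3, _⟩ := suc_top c n (hd p) (hp.vs hc) _ hs hw
    dsimp only at g1 g3
    have e1 : Pool.ADM.tps ((h, σ) :: p) = top3 σ :: Pool.ADM.tps p := rfl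
    have e2 : hts ((h, σ) :: p) = h :: hts p := rfl
    have e3 : hd ((h, σ) :: p) = σ := rfl
    rw [e1, e2, e3]
    refine ⟨List.pairwise_cons.2 ⟨fun t ht => ((h2 t ht).2).trans g1, h1⟩, ?_, ?_⟩
    · intro t ht
      rcases List.mem_cons.1 ht with rfl | ht
      · exact ⟨by omega, le_rfl⟩
      · exact ⟨(h2 t ht).1, ((h2 t ht).2).trans g1⟩
    · intro k hk
      rcases List.mem_cons.1 hk with rfl | hk
      · exact g3
      · exact (h3 k hk).trans g1

theorem PS_zero (c : ℕ) (f : Pth → ℝ) : PS c 0 f = f [] := rfl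

theorem PS_succ (c n : ℕ) (f : Pth → ℝ) :
    PS c (n + 1) f = PS c n fun p => wsum (suc c (hd p)) fun h σ => f ((h, σ) :: p) := rfl

theorem PS_congr (c n : ℕ) (f g : Pth → ℝ) (h : ∀ p, VP c n p → f p = g p) :
    PS c n f = PS c n g := by
  induction n generalizing f g with
  | zero => exact h [] VP.nil
  | succ n ih =>
    rw [PS_succ, PS_succ]
    refine ih _ _ fun p hp => ?_
    refine wsum_congr _ _ _ fun x hx hx0 => ?_
    exact h _ (VP.cons (w := x.1) hp hx0 hx)

theorem PS_mono (c n : ℕ) (f g : Pth → ℝ) (h : ∀ p, VP c n p → f p ≤ g p) :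
    PS c n f ≤ PS c n g := by
  induction n generalizing f g with
  | zero => exact h [] VP.nil
  | succ n ih =>
    rw [PS_succ, PS_succ]
    refine ih _ _ fun p hp => ?_
    refine wsum_mono _ _ _ fun x hx hx0 => ?_
    exact h _ (VP.cons (w := x.1) hp hx0 hx)

theorem PS_add (c n : ℕ) (f g : Pth → ℝ) : PS c n (fun p => f p + g p) = PS c n f + PS c n g := by
  induction n generalizing f g with
  | zero => rfl
  | succ n ih =>
    rw [PS_succ, PS_succ, PS_succ, ← ih]
    congr 1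
    funext p
    exact wsum_add _ _ _

theorem PS_mul (c n : ℕ) (a : ℝ) (f : Pth → ℝ) : PS c n (fun p => a * f p) = a * PS c n f := by
  induction n generalizing f with
  | zero => rfl
  | succ n ih =>
    rw [PS_succ, PS_succ, ← ih]
    congr 1
    funext p
    exact wsum_mul _ _ _

private theorem m01b_PS_zero_fun (c n : ℕ) : PS c n (fun _ => (0 : ℝ)) = 0 := by
  have h := PS_mul c n 0 (fun _ => (0 : ℝ))
  simpa using h

theorem PS_nonneg (c n : ℕ) (f : Pth → ℝ) (h : ∀ p, VP c n p → 0 ≤ f p) : 0 ≤ PS c n f := by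
  have h1 := PS_mono c n (fun _ => 0) f h
  rwa [m01b_PS_zero_fun] at h1

theorem PS_sum {ι : Type*} (c n : ℕ) (s : Finset ι) (f : ι → Pth → ℝ) :
    PS c n (fun p => ∑ i ∈ s, f i p) = ∑ i ∈ s, PS c n (f i) := by
  classical
  induction s using Finset.induction_on with
  | empty => simpa using m01b_PS_zero_fun c n
  | insert a s ha ih =>
    rw [Finset.sum_insert ha, ← ih, ← PS_add]
    exact congrArg (PS c n) (funext fun p => Finset.sum_insert ha)

theorem PS_wsum (c n : ℕ) (l : List (ℕ × ℕ × S3)) (f : ℕ → S3 → Pth → ℝ) :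
    PS c n (fun p => wsum l fun h σ => f h σ p) = wsum l fun h σ => PS c n (f h σ) := by
  induction l with
  | nil => simpa [wsum_nil] using m01b_PS_zero_fun c n
  | cons x l ih =>
    rw [wsum_cons, ← ih, ← PS_mul, ← PS_add]
    exact congrArg (PS c n) (funext fun p => wsum_cons _ _ _)

/-- two path sums commute. -/
theorem PS_comm (c n c' n' : ℕ) (f : Pth → Pth → ℝ) :
    PS c n (fun p => PS c' n' fun q => f p q) = PS c' n' fun q => PS c n fun p => f p q := by
  induction n generalizing f with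
  | zero => rfl
  | succ n ih =>
    rw [PS_succ]
    have h1 : (fun p => wsum (suc c (hd p)) fun h σ => PS c' n' fun q => f ((h, σ) :: p) q) =
        fun p => PS c' n' fun q => wsum (suc c (hd p)) fun h σ => f ((h, σ) :: p) q := by
      funext p
      exact (PS_wsum c' n' (suc c (hd p)) fun h σ q => f ((h, σ) :: p) q).symm
    rw [h1, ih]
    rfl

theorem PS_one (c n : ℕ) (hc : c ≤ 1) : PS c n (fun _ => 1) = (n.factorial : ℝ) := by
  induction n with
  | zero => simp [PS_zero]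
  | succ n ih =>
    rw [PS_succ]
    have h1 : PS c n (fun p => wsum (suc c (hd p)) fun _ _ => 1) =
        PS c n (fun _ => ((n : ℝ) + 1) * 1) :=
      PS_congr c n _ _ fun p hp => by
        rw [wsum_suc_one c n hc (hd p) (hp.vs hc), mul_one]
    rw [h1, PS_mul, ih, Nat.factorial_succ]
    push_cast
    ring

end Pool.ADM
end

section

/-! job ADM-01c: successors, path sums. -/

set_option autoImplicit false

namespace Pool.ADM

open Finset

private theorem m01c_leaf_le {c n : ℕ} {σ : S3} (hσ : Vs c n σ) (hc : c ≤ 1) :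
    ∀ F ∈ σ, F.2.2 ≤ F.2.1 := by
  intro F hF
  obtain ⟨h1, h2⟩ := hσ.pos F hF
  rcases Nat.lt_or_ge F.1 2 with h | h
  · have h3 : F.1 = 1 := by omega
    have h4 := hσ.one F hF h3
    rw [h4]
    exact hc
  · exact (hσ.big F hF h).le

private theorem m01c_zp_glue (F : ℕ × ℕ × ℕ) (σ : S3) :
    zp (glue3 F σ) = glue3 (F.1, F.2.1, 0) (zp σ) := by
  cases σ with
  | nil => rfl
  | cons G ρ =>
    show zp (if G.1 = F.1 + 1 then (G.1, F.2.1 + G.2.1, F.2.2 + G.2.2) :: ρ else F :: G :: ρ) =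
      if G.1 = F.1 + 1 then (G.1, F.2.1 + G.2.1, 0 + 0) :: zp ρ
      else (F.1, F.2.1, 0) :: (G.1, G.2.1, 0) :: zp ρ
    by_cases h : G.1 = F.1 + 1
    · rw [if_pos h, if_pos h]
      rfl
    · rw [if_neg h, if_neg h]
      rfl

private theorem m01c_wsum_zp (σ : S3) (hσ : ∀ F ∈ σ, F.2.2 ≤ F.2.1) (f : ℕ → S3 → ℝ) :
    wsum (suc 1 σ) (fun h ρ => f h (zp ρ)) = wsum (suc 0 (zp σ)) f := by
  induction σ generalizing f with
  | nil => rfl
  | cons F τ ih =>
    have e1 : zp (F :: τ) = (F.1, F.2.1, 0) :: zp τ := rfl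
    have h1 := ih (fun G hG => hσ G (List.mem_cons_of_mem _ hG))
      (fun h ρ => f h (glue3 (F.1, F.2.1, 0) ρ))
    have h2 : F.2.2 ≤ F.2.1 := hσ F List.mem_cons_self
    have h3 : (fun (h : ℕ) (ρ : S3) => f h (zp (glue3 F ρ))) =
        fun (h : ℕ) (ρ : S3) => f h (glue3 (F.1, F.2.1, 0) (zp ρ)) := by
      funext h ρ
      rw [m01c_zp_glue]
    rw [e1, wsum_suc_cons, wsum_suc_cons, h3, h1]
    have e2 : zp ((F.1 + 1, F.2.1 + 1, F.2.2 - 1) :: τ) = (F.1 + 1, F.2.1 + 1, 0) :: zp τ := rfl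
    have e3 : zp ((F.1 + 1, F.2.1 + 1, F.2.2) :: τ) = (F.1 + 1, F.2.1 + 1, 0) :: zp τ := rfl
    rw [e2, e3, Nat.cast_sub h2]
    simp only [Nat.cast_zero, Nat.sub_zero]
    ring

/-- `wsum` of the chain without leaves. -/
theorem wsum_zp (n : ℕ) (σ : S3) (hσ : Vs 1 n σ) (f : ℕ → S3 → ℝ) :
    wsum (suc 1 σ) (fun h ρ => f h (zp ρ)) = wsum (suc 0 (zp σ)) f :=
  m01c_wsum_zp σ (m01c_leaf_le hσ le_rfl) f

theorem hd_zpp (p : Pth) : hd (zpp p) = zp (hd p) := by
  cases p <;> rfl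

/-- forgetting the leaves. -/
theorem PS_zpp (n : ℕ) (f : Pth → ℝ) : PS 1 n (fun p => f (zpp p)) = PS 0 n f := by
  induction n generalizing f with
  | zero => rfl
  | succ n ih =>
    rw [PS_succ, PS_succ, ← ih]
    refine PS_congr 1 n _ _ fun p hp => ?_
    have h1 := wsum_zp n (hd p) (hp.vs le_rfl) (fun h σ => f ((h, σ) :: zpp p))
    rw [hd_zpp, ← h1]
    rfl

theorem zp_vs (n : ℕ) (σ : S3) (hσ : Vs 1 n σ) : Vs 0 n (zp σ) := by
  refine ⟨?_, ?_, ?_, ?_, ?_, ?_⟩
  · rw [← hσ.sum]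
    unfold sz zp
    rw [List.map_map]
    rfl
  · unfold zp
    exact List.pairwise_map.2 hσ.anti
  · intro F hF
    obtain ⟨q, hq, rfl⟩ := List.mem_map.1 hF
    exact hσ.pos q hq
  · intro F hF h1
    obtain ⟨q, hq, rfl⟩ := List.mem_map.1 hF
    have h2 := hσ.one q hq h1
    rw [h2]
  · intro F hF h1
    obtain ⟨q, hq, rfl⟩ := List.mem_map.1 hF
    have h2 := hσ.pos q hq
    show 0 < q.2.1
    omega
  · intro _ F hF
    obtain ⟨q, hq, rfl⟩ := List.mem_map.1 hF
    rfl

private theorem m01c_map_glue (F : ℕ × ℕ × ℕ) (σ : S3) :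
    (glue3 F σ).map (fun q => (q.1, q.2.1)) =
      Pool.Agent.Lib.MP_ad84ff_co.glue (F.1, F.2.1) (σ.map fun q => (q.1, q.2.1)) := by
  cases σ with
  | nil => rfl
  | cons G ρ =>
    show (if G.1 = F.1 + 1 then (G.1, F.2.1 + G.2.1, F.2.2 + G.2.2) :: ρ
        else F :: G :: ρ).map (fun q => (q.1, q.2.1)) =
      if G.1 = F.1 + 1 then (G.1, F.2.1 + G.2.1) :: ρ.map (fun q => (q.1, q.2.1))
      else (F.1, F.2.1) :: (G.1, G.2.1) :: ρ.map (fun q => (q.1, q.2.1))
    by_cases h : G.1 = F.1 + 1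
    · rw [if_pos h, if_pos h]
      rfl
    · rw [if_neg h, if_neg h]
      rfl

private theorem m01c_W_glue (F : ℕ × ℕ) (l : List (ℕ × Pool.Agent.Lib.MP_ad84ff_co.St))
    (f : Pool.Agent.Lib.MP_ad84ff_co.St → ℝ) :
    Pool.Agent.Lib.MP_ad84ff_co.W
        (l.map fun x => (x.1, Pool.Agent.Lib.MP_ad84ff_co.glue F x.2)) f =
      Pool.Agent.Lib.MP_ad84ff_co.W l fun σ => f (Pool.Agent.Lib.MP_ad84ff_co.glue F σ) := by
  induction l with
  | nil => rfl
  | cons x l ih =>
    rw [List.map_cons, Pool.Agent.Lib.MP_ad84ff_co.W_cons, ih,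
      Pool.Agent.Lib.MP_ad84ff_co.W_cons]

private theorem m01c_W_succ (σ : S3) (hσ : ∀ F ∈ σ, F.2.2 ≤ F.2.1)
    (f : Pool.Agent.Lib.MP_ad84ff_co.St → ℝ) :
    wsum (suc 1 σ) (fun _ ρ => f (ρ.map fun q => (q.1, q.2.1))) =
      Pool.Agent.Lib.MP_ad84ff_co.W
        (Pool.Agent.Lib.MP_ad84ff_co.succ (σ.map fun q => (q.1, q.2.1))) f := by
  induction σ generalizing f with
  | nil => rfl
  | cons F τ ih =>
    have h1 := ih (fun G hG => hσ G (List.mem_cons_of_mem _ hG))
      (fun ρ => f (Pool.Agent.Lib.MP_ad84ff_co.glue (F.1, F.2.1) ρ))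
    have h2 : F.2.2 ≤ F.2.1 := hσ F List.mem_cons_self
    have h3 : (fun (_ : ℕ) (ρ : S3) => f ((glue3 F ρ).map fun q => (q.1, q.2.1))) =
        fun (_ : ℕ) (ρ : S3) => f (Pool.Agent.Lib.MP_ad84ff_co.glue (F.1, F.2.1)
          (ρ.map fun q => (q.1, q.2.1))) := by
      funext h ρ
      rw [m01c_map_glue]
    have e1 : Pool.Agent.Lib.MP_ad84ff_co.succ ((F :: τ).map fun q => (q.1, q.2.1)) =
        (F.2.1, (F.1 + 1, F.2.1 + 1) :: τ.map fun q => (q.1, q.2.1)) ::
          (Pool.Agent.Lib.MP_ad84ff_co.succ (τ.map fun q => (q.1, q.2.1))).map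
            fun x => (x.1, Pool.Agent.Lib.MP_ad84ff_co.glue (F.1, F.2.1) x.2) := rfl
    rw [e1, wsum_suc_cons, Pool.Agent.Lib.MP_ad84ff_co.W_cons, m01c_W_glue, h3, h1,
      Nat.cast_sub h2]
    simp only [List.map_cons]
    ring

private theorem m01c_PS_M (n : ℕ) (f : Pool.Agent.Lib.MP_ad84ff_co.St → ℝ) :
    PS 1 n (fun p => f ((hd p).map fun q => (q.1, q.2.1))) =
      (n.factorial : ℝ) * Pool.Agent.Lib.MP_ad84ff_co.M n f := by
  induction n generalizing f with
  | zero =>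
    rw [PS_zero, Pool.Agent.Lib.MP_ad84ff_co.M_zero, Nat.factorial_zero, Nat.cast_one, one_mul]
    rfl
  | succ n ih =>
    rw [PS_succ, Pool.Agent.Lib.MP_ad84ff_co.M_succ]
    have h1 : PS 1 n (fun p => wsum (suc 1 (hd p)) fun h σ =>
        f ((hd ((h, σ) :: p)).map fun q => (q.1, q.2.1))) =
        PS 1 n (fun p => (fun ρ => Pool.Agent.Lib.MP_ad84ff_co.W
          (Pool.Agent.Lib.MP_ad84ff_co.succ ρ) f) ((hd p).map fun q => (q.1, q.2.1))) := by
      refine PS_congr 1 n _ _ fun p hp => ?_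
      exact m01c_W_succ (hd p) (m01c_leaf_le (hp.vs le_rfl) le_rfl) f
    have h2 : (fun σ => Pool.Agent.Lib.MP_ad84ff_co.W (Pool.Agent.Lib.MP_ad84ff_co.succ σ) f /
        ((n : ℝ) + 1)) = fun σ => ((n : ℝ) + 1)⁻¹ *
        Pool.Agent.Lib.MP_ad84ff_co.W (Pool.Agent.Lib.MP_ad84ff_co.succ σ) f := by
      funext σ
      rw [div_eq_mul_inv, mul_comm]
    have h4 := ih (fun ρ => Pool.Agent.Lib.MP_ad84ff_co.W (Pool.Agent.Lib.MP_ad84ff_co.succ ρ) f)
    rw [h1, h4, h2, Pool.Agent.Lib.MP_ad84ff_co.M_mul, Nat.factorial_succ]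
    have h3 : ((n : ℝ) + 1) ≠ 0 := by positivity
    push_cast
    field_simp

/-- relation with the chain of the library `MP_ad84ff_co`. -/
theorem M_eq_EM (n : ℕ) (f : Pool.Agent.Lib.MP_ad84ff_co.St → ℝ) :
    Pool.Agent.Lib.MP_ad84ff_co.M n f = EM n fun σ => f (σ.map fun q => (q.1, q.2.1)) := by
  unfold EM
  rw [m01c_PS_M, mul_div_cancel_left₀]
  exact_mod_cast Nat.factorial_ne_zero n

theorem EM_congr (n : ℕ) (f g : S3 → ℝ) (h : ∀ σ, Vs 1 n σ → f σ = g σ) : EM n f = EM n g := by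
  unfold EM
  rw [PS_congr 1 n (fun p => f (hd p)) (fun p => g (hd p)) fun p hp => h _ (hp.vs le_rfl)]

theorem EM_mono (n : ℕ) (f g : S3 → ℝ) (h : ∀ σ, Vs 1 n σ → f σ ≤ g σ) : EM n f ≤ EM n g := by
  unfold EM
  exact div_le_div_of_nonneg_right (PS_mono 1 n (fun p => f (hd p)) (fun p => g (hd p))
    fun p hp => h _ (hp.vs le_rfl)) (Nat.cast_nonneg _)

theorem EM_nonneg (n : ℕ) (f : S3 → ℝ) (h : ∀ σ, Vs 1 n σ → 0 ≤ f σ) : 0 ≤ EM n f := by
  unfold EM
  exact div_nonneg (PS_nonneg 1 n (fun p => f (hd p)) fun p hp => h _ (hp.vs le_rfl))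
    (Nat.cast_nonneg _)

theorem EM_add (n : ℕ) (f g : S3 → ℝ) : EM n (fun σ => f σ + g σ) = EM n f + EM n g := by
  unfold EM
  rw [PS_add 1 n (fun p => f (hd p)) (fun p => g (hd p)), add_div]

theorem EM_mul (n : ℕ) (a : ℝ) (f : S3 → ℝ) : EM n (fun σ => a * f σ) = a * EM n f := by
  unfold EM
  rw [PS_mul 1 n a (fun p => f (hd p)), mul_div_assoc]

theorem EM_sum {ι : Type*} (n : ℕ) (s : Finset ι) (f : ι → S3 → ℝ) :
    EM n (fun σ => ∑ i ∈ s, f i σ) = ∑ i ∈ s, EM n (f i) := by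
  unfold EM
  rw [PS_sum 1 n s (fun i p => f i (hd p)), Finset.sum_div]

theorem EM_const (n : ℕ) (a : ℝ) : EM n (fun _ => a) = a := by
  unfold EM
  have h1 := PS_mul 1 n a (fun _ => 1)
  simp only [mul_one] at h1
  rw [h1, PS_one 1 n le_rfl, mul_div_assoc, div_self, mul_one]
  exact_mod_cast Nat.factorial_ne_zero n

theorem EM_succ (n : ℕ) (f : S3 → ℝ) :
    EM (n + 1) f = EM n (fun σ => wsum (suc 1 σ) fun _ ρ => f ρ) / ((n : ℝ) + 1) := by
  unfold EM
  rw [PS_succ, Nat.factorial_succ, div_div]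
  push_cast
  rw [mul_comm ((n : ℝ) + 1)]
  rfl

end Pool.ADM
end

section

end
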