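import Pool.Agent.Lib.MP_ad84ff_coM.M01

section

/-! job ADM-02: the generator on a sum over cuts. -/

set_option autoImplicit false

namespace Pool.ADM

open Finset

private theorem m02_cutS_add (σ : S3) (G H : S3 → S3 → ℝ) :
    cutS σ (fun B O => G B O + H B O) = cutS σ G + cutS σ H := by
  induction σ generalizing G H with
  | nil => rfl
  | cons a σ ih =>
    simp only [cutS]
    rw [ih]
    ring

private theorem m02_cutS_congr (σ : S3) (G H : S3 → S3 → ℝ)
    (h : ∀ B O, B ++ O = σ → G B O = H B O) : cutS σ G = cutS σ H := by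
  induction σ generalizing G H with
  | nil => exact h [] [] rfl
  | cons a σ ih =>
    simp only [cutS]
    rw [h [] (a :: σ) rfl, ih _ _ fun B O hBO => h (a :: B) O (by rw [List.cons_append, hBO])]

private theorem m02_cutS_zero (σ : S3) : cutS σ (fun _ _ => (0 : ℝ)) = 0 := by
  induction σ with
  | nil => rfl
  | cons a σ ih =>
    simp only [cutS]
    rw [ih, add_zero]

private theorem m02_cutS_nil (σ : S3) (f : S3 → ℝ) :
    cutS σ (fun B O => if B = [] then f O else 0) = f σ := by
  cases σ with
  | nil => simp [cutS]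
  | cons a σ =>
    simp only [cutS, if_true]
    have h : cutS σ (fun B O => if a :: B = [] then f O else 0) = cutS σ (fun _ _ => (0 : ℝ)) :=
      m02_cutS_congr _ _ _ fun B O _ => if_neg (List.cons_ne_nil a B)
    rw [h, m02_cutS_zero, add_zero]

private theorem m02_suc (c : ℕ) (σ : S3) :
    ∀ x ∈ suc c σ, x.2.2 ≠ [] ∧ top3 x.2.2 ≤ top3 σ + 1 := by
  intro x hx
  cases σ with
  | nil =>
    rw [suc, List.mem_singleton] at hx
    subst hx
    exact ⟨List.cons_ne_nil _ _, le_rfl⟩
  | cons F τ =>
    rw [suc] at hx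
    rcases List.mem_cons.1 hx with rfl | hx
    · exact ⟨List.cons_ne_nil _ _, le_rfl⟩
    rcases List.mem_cons.1 hx with rfl | hx
    · exact ⟨List.cons_ne_nil _ _, le_rfl⟩
    obtain ⟨y, _, rfl⟩ := List.mem_map.1 hx
    dsimp only
    rcases y.2.2 with _ | ⟨K, ρ⟩
    · exact ⟨List.cons_ne_nil _ _, Nat.le_succ _⟩
    · by_cases hK : K.1 = F.1 + 1
      · rw [glue3, if_pos hK]
        exact ⟨List.cons_ne_nil _ _, hK.le⟩
      · rw [glue3, if_neg hK]
        exact ⟨List.cons_ne_nil _ _, Nat.le_succ _⟩

/-- cuts of `glue3 F ρ`. -/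
private theorem m02_glue (F : ℕ × ℕ × ℕ) (ρ : S3) (hρ : ρ ≠ []) (ht : top3 ρ ≤ F.1 + 1)
    (G : S3 → S3 → ℝ) (hG : ∀ O, O ≠ [] → G [] O = 0) :
    cutS (glue3 F ρ) G =
      cutS ρ (fun B O => if B = [] then 0 else G (glue3 F B) O) +
        (if top3 ρ ≤ F.1 then G [F] ρ else 0) := by
  rcases ρ with _ | ⟨K, ρ⟩
  · exact absurd rfl hρ
  have e1 : cutS (K :: ρ) (fun B O => if B = [] then 0 else G (glue3 F B) O) =
      cutS ρ (fun B O => G (glue3 F (K :: B)) O) := by
    simp only [cutS, if_true, zero_add]
    exact m02_cutS_congr _ _ _ fun B O _ => if_neg (List.cons_ne_nil K B)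
  rw [e1]
  change K.1 ≤ F.1 + 1 at ht
  by_cases hK : K.1 = F.1 + 1
  · have h2 : ¬ top3 (K :: ρ) ≤ F.1 := by
      change ¬ K.1 ≤ F.1
      omega
    rw [if_neg h2, add_zero, glue3, if_pos hK]
    simp only [cutS]
    rw [hG _ (List.cons_ne_nil _ _), zero_add]
    refine m02_cutS_congr _ _ _ fun B O _ => ?_
    rw [glue3, if_pos hK]
  · have h2 : top3 (K :: ρ) ≤ F.1 := by
      change K.1 ≤ F.1
      omega
    rw [if_pos h2, glue3, if_neg hK]
    simp only [cutS]
    rw [hG _ (List.cons_ne_nil _ _), zero_add, add_comm]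
    congr 1
    refine m02_cutS_congr _ _ _ fun B O _ => ?_
    rw [glue3, if_neg hK]

private theorem m02_last (F : ℕ × ℕ × ℕ) (B : S3) (hB : B ≠ []) : last3 (F :: B) = last3 B := by
  rcases B with _ | ⟨K, B⟩
  · exact absurd rfl hB
  · simp [last3, List.getLastD]

private theorem m02_aux (c : ℕ) (σ : S3) (ha : σ.Pairwise fun F G => G.1 ≤ F.1)
    (hp : ∀ F ∈ σ, 1 ≤ F.1) (G : S3 → S3 → ℝ) (hG : ∀ O, O ≠ [] → G [] O = 0) :
    wsum (suc c σ) (fun _ ρ => cutS ρ G) = cutS σ fun B O =>
      wsum (suc c B) (fun h B' => if h = 0 ∧ O ≠ [] then 0 else G B' O) +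
      wsum (suc c O) (fun _ O' => if top3 O' ≤ last3 B then G B O' else 0) := by
  induction σ generalizing G with
  | nil =>
    have h1 : suc c [] = [(1, 0, [(1, 1, c)])] := rfl
    simp only [cutS, h1, wsum_cons, wsum_nil, top3, last3]
    rw [hG _ (List.cons_ne_nil _ _)]
    simp
  | cons F τ ih =>
    obtain ⟨haF, haτ⟩ := List.pairwise_cons.1 ha
    have hF : 1 ≤ F.1 := hp F List.mem_cons_self
    have ihτ := ih haτ (fun K hK => hp K (List.mem_cons_of_mem _ hK))
      (fun B O => if B = [] then 0 else G (glue3 F B) O) (fun O _ => if_pos rfl)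
    -- left side
    have hL : wsum (suc c τ) (fun _ ρ => cutS (glue3 F ρ) G) =
        wsum (suc c τ) (fun _ ρ => cutS ρ (fun B O => if B = [] then 0 else G (glue3 F B) O)) +
          wsum (suc c τ) (fun _ ρ => if top3 ρ ≤ F.1 then G [F] ρ else 0) := by
      rw [← wsum_add]
      refine wsum_congr _ _ _ fun x hx _ => ?_
      obtain ⟨h1, h2⟩ := m02_suc c τ x hx
      refine m02_glue F x.2.2 h1 (h2.trans (Nat.succ_le_succ ?_)) G hG
      rcases τ with _ | ⟨K, τ⟩
      · exact Nat.zero_le _
      · exact haF K List.mem_cons_self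
    rw [wsum_suc_cons, hL, ihτ]
    have hc : ∀ a : ℕ × ℕ × ℕ, cutS (a :: τ) G = cutS τ (fun B O => G (a :: B) O) := by
      intro a
      simp only [cutS]
      rw [hG _ (List.cons_ne_nil _ _), zero_add]
    rw [hc, hc]
    -- right side
    have h0 : wsum (suc c []) (fun h B' => if h = 0 ∧ (F :: τ : S3) ≠ [] then 0 else G B' (F :: τ)) +
        wsum (suc c (F :: τ)) (fun _ O' => if top3 O' ≤ last3 [] then G [] O' else 0) = 0 := by
      have h1 : suc c [] = [(1, 0, [(1, 1, c)])] := rfl
      have h2 : wsum (suc c (F :: τ)) (fun _ O' => if top3 O' ≤ last3 [] then G [] O' else 0) =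
          wsum (suc c (F :: τ)) (fun _ _ => (0 : ℝ)) := by
        refine wsum_congr _ _ _ fun x hx _ => ?_
        rw [hG _ (m02_suc c _ x hx).1, ite_self]
      have h3 : wsum (suc c (F :: τ)) (fun _ _ => (0 : ℝ)) = 0 := by
        simp [wsum]
      rw [h2, h3, h1, wsum_cons, wsum_nil]
      simp
    have hR : cutS (F :: τ) (fun B O =>
        wsum (suc c B) (fun h B' => if h = 0 ∧ O ≠ [] then 0 else G B' O) +
        wsum (suc c O) (fun _ O' => if top3 O' ≤ last3 B then G B O' else 0)) =
        cutS τ (fun B O =>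
          wsum (suc c (F :: B)) (fun h B' => if h = 0 ∧ O ≠ [] then 0 else G B' O) +
          wsum (suc c O) (fun _ O' => if top3 O' ≤ last3 (F :: B) then G (F :: B) O' else 0)) := by
      simp only [cutS]
      rw [h0, zero_add]
    rw [hR]
    have hT : cutS τ (fun B O => if B = [] then
          wsum (suc c O) (fun _ ρ => if top3 ρ ≤ F.1 then G [F] ρ else 0) else 0) =
        wsum (suc c τ) (fun _ ρ => if top3 ρ ≤ F.1 then G [F] ρ else 0) :=
      m02_cutS_nil τ fun O => wsum (suc c O) (fun _ ρ => if top3 ρ ≤ F.1 then G [F] ρ else 0)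
    rw [← hT]
    have hm : ∀ (r : ℝ) (K : S3 → S3 → ℝ), r * cutS τ K = cutS τ fun B O => r * K B O := by
      intro r
      generalize τ = ω
      intro K
      induction ω generalizing K with
      | nil => rfl
      | cons a ω ih2 =>
        simp only [cutS]
        rw [mul_add, ih2]
    rw [hm, hm, ← m02_cutS_add, ← m02_cutS_add, ← m02_cutS_add]
    refine m02_cutS_congr _ _ _ fun B O hBO => ?_
    rw [wsum_suc_cons]
    have hF0 : ¬ (F.1 = 0 ∧ O ≠ []) := fun h => by omega
    rw [if_neg hF0, if_neg hF0]
    have hA : wsum (suc c B) (fun h B' => if h = 0 ∧ O ≠ [] then 0 else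
          (if B' = [] then 0 else G (glue3 F B') O)) =
        wsum (suc c B) (fun h B' => if h = 0 ∧ O ≠ [] then 0 else G (glue3 F B') O) := by
      refine wsum_congr _ _ _ fun x hx _ => ?_
      rw [if_neg (m02_suc c B x hx).1]
    rw [hA]
    by_cases hB : B = []
    · subst hB
      have hl : last3 [F] = F.1 := by simp [last3, List.getLastD]
      have hZ : wsum (suc c O) (fun _ O' => if top3 O' ≤ last3 [] then
          (if ([] : S3) = [] then 0 else G (glue3 F []) O') else 0) = 0 := by
        have : wsum (suc c O) (fun _ O' => if top3 O' ≤ last3 [] then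
          (if ([] : S3) = [] then (0 : ℝ) else G (glue3 F []) O') else 0) =
            wsum (suc c O) (fun _ _ => (0 : ℝ)) := by
          refine wsum_congr _ _ _ fun x hx _ => ?_
          rw [if_pos rfl, ite_self]
        rw [this]
        simp [wsum]
      rw [hZ, hl, if_pos rfl]
      ring
    · have hg : glue3 F B = F :: B := by
        rcases B with _ | ⟨K, B⟩
        · exact absurd rfl hB
        · have hK : K.1 ≤ F.1 := haF K (by rw [← hBO]; exact List.mem_cons_self)
          rw [glue3, if_neg (by omega)]
      have hZ : wsum (suc c O) (fun _ O' => if top3 O' ≤ last3 B then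
          (if B = [] then 0 else G (glue3 F B) O') else 0) =
          wsum (suc c O) (fun _ O' => if top3 O' ≤ last3 (F :: B) then G (F :: B) O' else 0) := by
        refine wsum_congr _ _ _ fun x hx _ => ?_
        rw [if_neg hB, hg, m02_last F B hB]
      rw [hZ, if_neg hB]
      ring

/-- The successors of `B ++ O`: a step in `B` (an append in `B` only if `O` is empty) or a step in
`O` which does not merge with `B`.  Induction over `σ` generalizing `G`: for `F :: τ` the successors
are the two hits of `F` and `glue3 F ρ` for the successors `ρ` of `τ`; compare with the successors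
of `F :: B`.  A merge of `F` with a packet that has just jumped corresponds to the cuts after that
packet. -/
theorem cutS_suc (c n : ℕ) (σ : S3) (hσ : Vs c n σ) (G : S3 → S3 → ℝ)
    (hG : ∀ O, O ≠ [] → G [] O = 0) :
    wsum (suc c σ) (fun _ ρ => cutS ρ G) = cutS σ fun B O =>
      wsum (suc c B) (fun h B' => if h = 0 ∧ O ≠ [] then 0 else G B' O) +
      wsum (suc c O) (fun _ O' => if top3 O' ≤ last3 B then G B O' else 0) :=
  m02_aux c σ hσ.anti (fun F hF => (hσ.pos F hF).1) G hG

end Pool.ADM
end

section

/-! job ADM-03a: histories of cut states. -/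

set_option autoImplicit false

namespace Pool.ADM

open Finset

theorem cutS_congr (σ : S3) (G H : S3 → S3 → ℝ) (h : ∀ B O, B ++ O = σ → G B O = H B O) :
    cutS σ G = cutS σ H := by
  induction σ generalizing G H with
  | nil => exact h [] [] rfl
  | cons a σ ih =>
    show G [] (a :: σ) + cutS σ (fun B O => G (a :: B) O) =
      H [] (a :: σ) + cutS σ (fun B O => H (a :: B) O)
    rw [h [] (a :: σ) rfl, ih (fun B O => G (a :: B) O) (fun B O => H (a :: B) O)
      (fun B O hBO => h (a :: B) O (by rw [List.cons_append, hBO]))]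

theorem cutS_add (σ : S3) (G H : S3 → S3 → ℝ) :
    cutS σ (fun B O => G B O + H B O) = cutS σ G + cutS σ H := by
  induction σ generalizing G H with
  | nil => rfl
  | cons a σ ih =>
    show G [] (a :: σ) + H [] (a :: σ) + cutS σ (fun B O => G (a :: B) O + H (a :: B) O) =
      (G [] (a :: σ) + cutS σ (fun B O => G (a :: B) O)) +
        (H [] (a :: σ) + cutS σ (fun B O => H (a :: B) O))
    rw [ih (fun B O => G (a :: B) O) (fun B O => H (a :: B) O)]
    ring

theorem cutS_mul (σ : S3) (a : ℝ) (G : S3 → S3 → ℝ) :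
    cutS σ (fun B O => a * G B O) = a * cutS σ G := by
  induction σ generalizing G with
  | nil => rfl
  | cons b σ ih =>
    show a * G [] (b :: σ) + cutS σ (fun B O => a * G (b :: B) O) =
      a * (G [] (b :: σ) + cutS σ (fun B O => G (b :: B) O))
    rw [ih (fun B O => G (b :: B) O)]
    ring

theorem cutS_mono (σ : S3) (G H : S3 → S3 → ℝ) (h : ∀ B O, B ++ O = σ → G B O ≤ H B O) :
    cutS σ G ≤ cutS σ H := by
  induction σ generalizing G H with
  | nil => exact h [] [] rfl
  | cons a σ ih =>
    show G [] (a :: σ) + cutS σ (fun B O => G (a :: B) O) ≤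
      H [] (a :: σ) + cutS σ (fun B O => H (a :: B) O)
    exact add_le_add (h [] (a :: σ) rfl) (ih (fun B O => G (a :: B) O) (fun B O => H (a :: B) O)
      (fun B O hBO => h (a :: B) O (by rw [List.cons_append, hBO])))

private theorem m03a_cutS_zero (σ : S3) : cutS σ (fun _ _ => (0 : ℝ)) = 0 := by
  have h := cutS_mul σ 0 (fun _ _ => (0 : ℝ))
  simpa using h

theorem cutS_sum {ι : Type*} (σ : S3) (s : Finset ι) (G : ι → S3 → S3 → ℝ) :
    cutS σ (fun B O => ∑ i ∈ s, G i B O) = ∑ i ∈ s, cutS σ (G i) := by
  classical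
  induction s using Finset.induction_on with
  | empty => simpa using m03a_cutS_zero σ
  | insert a s ha ih =>
    rw [Finset.sum_insert ha, ← ih, ← cutS_add]
    exact congrArg (cutS σ) (funext fun B => funext fun O => Finset.sum_insert ha)

theorem cutS_nonneg (σ : S3) (G : S3 → S3 → ℝ) (h : ∀ B O, B ++ O = σ → 0 ≤ G B O) :
    0 ≤ cutS σ G := by
  have h1 := cutS_mono σ (fun _ _ => 0) G h
  rwa [m03a_cutS_zero] at h1

private theorem m03a_cons {c b : ℕ} (hc : c ≤ 1) {x : ℕ × S3} {p : Pth} (h : VP c b (x :: p)) :
    ∃ n, b = n + 1 ∧ VP c n p ∧ 1 ≤ top3 x.2 ∧ top3 (hd p) ≤ top3 x.2 := by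
  have ht := (h.tps hc).2.1
  have ht1 := ht (top3 x.2) (List.mem_cons_self)
  cases h with
  | @cons n _ w k σ hp hw hs =>
    refine ⟨n, rfl, hp, ht1.1, ?_⟩
    cases p with
    | nil => exact Nat.zero_le _
    | cons z p' =>
      exact (ht (top3 z.2) (List.mem_cons_of_mem _ (List.mem_cons_self))).2

private theorem m03a_nil {c b : ℕ} (h : VP c b []) : b = 0 := by
  cases h
  rfl

/-- every list in `VW` has the right length and entries which are tops of `pB`. -/
theorem VW_mem {c b x : ℕ} (hc : c ≤ 1) {pB pO : Pth} (hB : VP c b pB) (hO : VP c x pO) :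
    ∀ ts ∈ VW pB pO, ts.length = b + x ∧ ∀ t ∈ ts, 1 ≤ t ∧ t ≤ top3 (hd pB) := by
  induction pB generalizing b pO x with
  | nil =>
    intro ts hts
    cases pO with
    | nil =>
      rw [VW, List.mem_singleton] at hts
      subst hts
      rw [m03a_nil hB, m03a_nil hO]
      exact ⟨rfl, fun t ht => by cases ht⟩
    | cons y q =>
      rw [VW] at hts
      cases hts
  | cons z p ihB =>
    obtain ⟨n, rfl, hp, h1, h2⟩ := m03a_cons hc hB
    have key : ∀ (m : ℕ) (ts : List ℕ), (ts.length = m ∧ ∀ t ∈ ts, 1 ≤ t ∧ t ≤ top3 z.2) →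
        (top3 z.2 :: ts).length = m + 1 ∧ ∀ t ∈ top3 z.2 :: ts, 1 ≤ t ∧ t ≤ top3 (hd (z :: p)) := by
      rintro m ts ⟨h3, h4⟩
      refine ⟨by rw [List.length_cons, h3], fun t ht => ?_⟩
      rcases List.mem_cons.1 ht with rfl | ht
      · exact ⟨h1, le_rfl⟩
      · exact h4 t ht
    have up : ∀ (m : ℕ) (ts : List ℕ), (ts.length = m ∧ ∀ t ∈ ts, 1 ≤ t ∧ t ≤ top3 (hd p)) →
        (ts.length = m ∧ ∀ t ∈ ts, 1 ≤ t ∧ t ≤ top3 z.2) :=
      fun m ts h3 => ⟨h3.1, fun t ht => ⟨(h3.2 t ht).1, ((h3.2 t ht).2).trans h2⟩⟩
    induction pO generalizing x with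
    | nil =>
      intro ts hts
      rw [VW, List.mem_map] at hts
      obtain ⟨ts', hts', rfl⟩ := hts
      have h3 := key _ _ (up _ _ (ihB hp hO ts' hts'))
      refine ⟨?_, h3.2⟩
      rw [h3.1]
      ring
    | cons y q ihO =>
      intro ts hts
      rw [VW, List.mem_append] at hts
      rcases hts with hts | hts
      · by_cases hz : z.1 = 0
        · rw [if_pos hz] at hts
          cases hts
        · rw [if_neg hz, List.mem_map] at hts
          obtain ⟨ts', hts', rfl⟩ := hts
          have h3 := key _ _ (up _ _ (ihB hp hO ts' hts'))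
          refine ⟨?_, h3.2⟩
          rw [h3.1]
          ring
      · by_cases hz : top3 y.2 ≤ last3 z.2
        · rw [if_pos hz, List.mem_map] at hts
          obtain ⟨ts', hts', rfl⟩ := hts
          obtain ⟨m, rfl, hq, -, -⟩ := m03a_cons hc hO
          have h3 := key _ _ (ihO hq ts' hts')
          refine ⟨?_, h3.2⟩
          rw [h3.1]
          ring
        · rw [if_neg hz] at hts
          cases hts

end Pool.ADM
end

section

/-! job ADM-03b: histories of cut states. -/

set_option autoImplicit false

namespace Pool.ADM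

open Finset

private theorem m03b_wsum_zero (l : List (ℕ × ℕ × S3)) : wsum l (fun _ _ => 0) = 0 := by
  simp [wsum]

private theorem m03b_wsum_list {α : Type*} (l : List (ℕ × ℕ × S3)) (L : List α)
    (f : α → ℕ → S3 → ℝ) :
    wsum l (fun h σ => (L.map fun a => f a h σ).sum) = (L.map fun a => wsum l (f a)).sum := by
  induction L with
  | nil => simpa using m03b_wsum_zero l
  | cons a L ih =>
    simp only [List.map_cons, List.sum_cons]
    rw [← ih, ← wsum_add]

private theorem m03b_suc_ne (c : ℕ) (σ : S3) : ∀ x ∈ suc c σ, x.2.2 ≠ [] := by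
  cases σ with
  | nil =>
    intro x hx
    simp only [suc, List.mem_singleton] at hx
    subst hx
    simp
  | cons F τ =>
    intro x hx
    simp only [suc, List.mem_cons, List.mem_map] at hx
    rcases hx with rfl | rfl | ⟨y, _, rfl⟩
    · simp
    · simp
    · show glue3 F y.2.2 ≠ []
      cases y.2.2 with
      | nil => simp [glue3]
      | cons G ρ =>
        simp only [glue3]
        split <;> simp

private theorem m03b_hd_ne {c n : ℕ} {p : Pth} (hp : VP c n p) (hne : p ≠ []) : hd p ≠ [] := by
  cases hp with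
  | nil => exact absurd rfl hne
  | cons hp hw hs => exact m03b_suc_ne c _ _ hs

/-- last letter in the first part -/
private noncomputable def m03bSA (G : List ℕ → S3 → S3 → ℝ) : Pth → Pth → ℝ
  | [], _ => 0
  | x :: p, pO => if x.1 = 0 ∧ pO ≠ [] then 0 else
      ((VW p pO).map fun ts => G (top3 x.2 :: ts) x.2 (hd pO)).sum

/-- last letter in the second part -/
private noncomputable def m03bSB (G : List ℕ → S3 → S3 → ℝ) : Pth → Pth → ℝ
  | _, [] => 0
  | pB, y :: q => if top3 y.2 ≤ last3 (hd pB) then
      ((VW pB q).map fun ts => G (top3 (hd pB) :: ts) (hd pB) y.2).sum else 0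

private theorem m03b_split (G : List ℕ → S3 → S3 → ℝ)
    (hG : ∀ ts O, O ≠ [] → G ts [] O = 0) (pB pO : Pth) (hne : pB ≠ [] ∨ pO ≠ [])
    (hO : pO ≠ [] → hd pO ≠ []) :
    ((VW pB pO).map fun ts => G ts (hd pB) (hd pO)).sum = m03bSA G pB pO + m03bSB G pB pO := by
  cases pB with
  | nil =>
    cases pO with
    | nil => simp at hne
    | cons y q =>
      have hy : y.2 ≠ [] := hO (by simp)
      have h0 : ∀ ts, G (top3 (hd []) :: ts) (hd []) y.2 = 0 := fun ts => hG _ _ hy
      simp only [VW, m03bSA, m03bSB, h0]
      simp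
  | cons x p =>
    cases pO with
    | nil =>
      simp only [VW, m03bSA, m03bSB, List.map_map, ne_eq, not_true_eq_false, and_false,
        if_false, add_zero]
      rfl
    | cons y q =>
      simp only [VW, m03bSA, m03bSB, List.map_append, List.sum_append]
      congr 1
      · by_cases h : x.1 = 0
        · simp [h]
        · simp only [h, if_false, false_and, List.map_map]
          rfl
      · show _ = if top3 y.2 ≤ last3 x.2 then _ else _
        by_cases h : top3 y.2 ≤ last3 x.2
        · simp only [h, if_true, List.map_map]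
          rfl
        · simp [h]

private noncomputable def m03bG (c : ℕ) (G : List ℕ → S3 → S3 → ℝ) (ts : List ℕ) (B O : S3) : ℝ :=
  wsum (suc c B) (fun h B' => if h = 0 ∧ O ≠ [] then 0 else G (top3 B' :: ts) B' O) +
    wsum (suc c O) (fun _ O' => if top3 O' ≤ last3 B then G (top3 B :: ts) B O' else 0)

private theorem m03b_hG (c : ℕ) (G : List ℕ → S3 → S3 → ℝ)
    (hG : ∀ ts O, O ≠ [] → G ts [] O = 0) (ts : List ℕ) (O : S3) (hO : O ≠ []) :
    m03bG c G ts [] O = 0 := by
  unfold m03bG
  have h1 : wsum (suc c []) (fun h B' => if h = 0 ∧ O ≠ [] then 0 else G (top3 B' :: ts) B' O) = 0 := by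
    simp [suc, wsum, hO]
  have h2 : wsum (suc c O) (fun _ O' => if top3 O' ≤ last3 [] then G (top3 [] :: ts) [] O' else 0)
      = 0 := by
    refine (wsum_congr _ _ (fun _ _ => 0) ?_).trans (m03b_wsum_zero (suc c O))
    intro x hx _
    have := m03b_suc_ne c O x hx
    show (if top3 x.2.2 ≤ last3 [] then G (top3 [] :: ts) [] x.2.2 else 0) = 0
    rw [hG _ _ this]
    simp
  rw [h1, h2, add_zero]

private theorem m03b_step (c n : ℕ) (hc : c ≤ 1) (G : List ℕ → S3 → S3 → ℝ)
    (hG : ∀ ts O, O ≠ [] → G ts [] O = 0) :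
    PS c (n + 1) (fun p => cutS (hd p) (G (tps p))) =
      PS c n (fun p => cutS (hd p) (m03bG c G (tps p))) := by
  rw [PS_succ]
  apply PS_congr
  intro p hp
  have hvs := VP.vs hc hp
  have h1 : wsum (suc c (hd p)) (fun h σ => cutS (hd ((h, σ) :: p)) (G (tps ((h, σ) :: p)))) =
      wsum (suc c (hd p)) (fun _ σ => cutS σ (fun B O => G (top3 B :: tps p) B O)) := by
    apply wsum_congr
    intro x hx _
    show cutS x.2.2 (G (top3 x.2.2 :: tps p)) = cutS x.2.2 (fun B O => G (top3 B :: tps p) B O)
    apply cutS_congr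
    intro B O hBO
    cases B with
    | nil =>
      have hne := m03b_suc_ne c _ x hx
      have hO : O ≠ [] := by
        rw [← hBO] at hne
        simpa using hne
      rw [hG _ _ hO]
      show 0 = G (top3 [] :: tps p) [] O
      rw [hG _ _ hO]
    | cons b B =>
      have : top3 x.2.2 = top3 (b :: B) := by
        rw [← hBO]
        rfl
      rw [this]
  rw [h1, cutS_suc c n (hd p) hvs (fun B O => G (top3 B :: tps p) B O)
    (fun O hO => hG _ _ hO)]
  rfl

/-- Induction over `n`: the last letter; `cutS_suc` for `G' B O = G (top3 B :: ts) B O`, where the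
top of the new state is the top of its first part (which is nonempty, `hG`); then the induction
hypothesis for `G'' ts B O` = the right hand side of `cutS_suc`; finally the recursion of `VW` for
the last letter.  The equation of `VW` for nonempty first history and empty second history has no
condition: an append is allowed if `O` is empty. -/
theorem cut_path (c n : ℕ) (hc : c ≤ 1) (G : List ℕ → S3 → S3 → ℝ)
    (hG : ∀ ts O, O ≠ [] → G ts [] O = 0) :
    PS c n (fun p => cutS (hd p) (G (tps p))) =
      ∑ b ∈ range (n + 1), PS c b fun pB => PS c (n - b) fun pO =>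
        ((VW pB pO).map fun ts => G ts (hd pB) (hd pO)).sum := by
  induction n generalizing G with
  | zero =>
    simp [PS_zero, VW, hd, tps, cutS]
  | succ n ih =>
    rw [m03b_step c n hc G hG, ih (m03bG c G) (m03b_hG c G hG)]
    -- split the right hand side
    have hsplit : ∀ b ∈ range (n + 1 + 1), (PS c b fun pB => PS c (n + 1 - b) fun pO =>
        ((VW pB pO).map fun ts => G ts (hd pB) (hd pO)).sum) =
        (PS c b fun pB => PS c (n + 1 - b) fun pO => m03bSA G pB pO) +
        (PS c b fun pB => PS c (n + 1 - b) fun pO => m03bSB G pB pO) := by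
      intro b hb
      rw [← PS_add]
      apply PS_congr
      intro pB hpB
      rw [← PS_add]
      apply PS_congr
      intro pO hpO
      apply m03b_split G hG
      · by_contra hcon
        push Not at hcon
        have h1 := hpB.length
        have h2 := hpO.length
        rw [hcon.1] at h1
        rw [hcon.2] at h2
        simp at h1 h2
        rw [mem_range] at hb
        omega
      · exact m03b_hd_ne hpO
    rw [sum_congr rfl hsplit, sum_add_distrib]
    -- part A
    have hA : ∑ b ∈ range (n + 1 + 1), (PS c b fun pB => PS c (n + 1 - b) fun pO => m03bSA G pB pO) =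
        ∑ b ∈ range (n + 1), PS c b fun pB => PS c (n - b) fun pO =>
          ((VW pB pO).map fun ts => wsum (suc c (hd pB)) (fun h B' =>
            if h = 0 ∧ hd pO ≠ [] then 0 else G (top3 B' :: ts) B' (hd pO))).sum := by
      rw [sum_range_succ']
      have h0 : (PS c 0 fun pB => PS c (n + 1 - 0) fun pO => m03bSA G pB pO) = 0 := by
        rw [PS_zero]
        simp only [m03bSA]
        have := PS_mul c (n + 1 - 0) 0 (fun _ => 0)
        simpa using this
      rw [h0, add_zero]
      apply sum_congr rfl
      intro b hb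
      rw [PS_succ]
      have hnb : n + 1 - (b + 1) = n - b := by omega
      rw [hnb]
      apply PS_congr
      intro p hp
      rw [← PS_wsum]
      apply PS_congr
      intro pO hpO
      rw [← m03b_wsum_list]
      congr 1
      funext h σ
      have hiff : (pO ≠ []) ↔ (hd pO ≠ []) := by
        constructor
        · exact m03b_hd_ne hpO
        · intro h1 h2
          rw [h2] at h1
          exact h1 rfl
      show (if h = 0 ∧ pO ≠ [] then 0 else
        ((VW p pO).map fun ts => G (top3 σ :: ts) σ (hd pO)).sum) = _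
      by_cases hh : h = 0 ∧ pO ≠ []
      · have hh' : h = 0 ∧ hd pO ≠ [] := ⟨hh.1, hiff.1 hh.2⟩
        rw [if_pos hh]
        simp [hh'.1, hh'.2]
      · have hh' : ¬ (h = 0 ∧ hd pO ≠ []) := fun h' => hh ⟨h'.1, hiff.2 h'.2⟩
        rw [if_neg hh]
        simp only [if_neg hh']
    -- part B
    have hB : ∑ b ∈ range (n + 1 + 1), (PS c b fun pB => PS c (n + 1 - b) fun pO => m03bSB G pB pO) =
        ∑ b ∈ range (n + 1), PS c b fun pB => PS c (n - b) fun pO =>
          ((VW pB pO).map fun ts => wsum (suc c (hd pO)) (fun _ O' =>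
            if top3 O' ≤ last3 (hd pB) then G (top3 (hd pB) :: ts) (hd pB) O' else 0)).sum := by
      rw [sum_range_succ]
      have h0 : (PS c (n + 1) fun pB => PS c (n + 1 - (n + 1)) fun pO => m03bSB G pB pO) = 0 := by
        have h1 : n + 1 - (n + 1) = 0 := by omega
        rw [h1]
        simp only [PS_zero, m03bSB]
        have := PS_mul c (n + 1) 0 (fun _ => 0)
        simpa using this
      rw [h0, add_zero]
      apply sum_congr rfl
      intro b hb
      rw [mem_range] at hb
      have hnb : n + 1 - b = (n - b) + 1 := by omega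
      rw [hnb]
      apply PS_congr
      intro pB hpB
      rw [PS_succ]
      apply PS_congr
      intro q hq
      rw [← m03b_wsum_list]
      congr 1
      funext h σ
      show (if top3 σ ≤ last3 (hd pB) then
        ((VW pB q).map fun ts => G (top3 (hd pB) :: ts) (hd pB) σ).sum else 0) = _
      by_cases hh : top3 σ ≤ last3 (hd pB)
      · simp only [if_pos hh]
      · simp [if_neg hh]
    rw [hA, hB, ← sum_add_distrib]
    apply sum_congr rfl
    intro b hb
    rw [← PS_add]
    apply PS_congr
    intro pB hpB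
    rw [← PS_add]
    apply PS_congr
    intro pO hpO
    rw [← List.sum_map_add]
    rfl

private theorem m03b_length (pB pO : Pth) : (VW pB pO).length = N2 pB (tps pO) := by
  induction pB generalizing pO with
  | nil =>
    cases pO with
    | nil => simp [VW, N2, tps]
    | cons y q => simp [VW, N2, tps]
  | cons x p ihp =>
    induction pO with
    | nil =>
      have := ihp []
      simp only [VW, tps, List.map_nil, N2, List.length_map]
      simpa [tps] using this
    | cons y q ihq =>
      have h1 := ihp (y :: q)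
      simp only [tps, List.map_cons] at h1 ihq ⊢
      simp only [VW, N2, List.length_append]
      congr 1
      · by_cases h : x.1 = 0
        · simp [h]
        · simp only [h, if_false, List.length_map]
          exact h1
      · by_cases h : top3 y.2 ≤ last3 x.2
        · simp only [h, if_true, List.length_map]
          exact ihq
        · simp [h]

theorem VW_length {c b x : ℕ} (hc : c ≤ 1) {pB pO : Pth} (hB : VP c b pB) (hO : VP c x pO) :
    (VW pB pO).length = N2 pB (tps pO) := by
  have _ := hc
  have _ := hB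
  have _ := hO
  exact m03b_length pB pO

/-- From `cut_path` and `VW_length`. -/
theorem cut_pathF (c n : ℕ) (hc : c ≤ 1) (G : S3 → S3 → ℝ) (hG : ∀ O, O ≠ [] → G [] O = 0) :
    PS c n (fun p => cutS (hd p) G) =
      ∑ a ∈ range (n + 1), PS c a fun pF => PS c (n - a) fun pV =>
        (N2 pF (tps pV) : ℝ) * G (hd pF) (hd pV) := by
  have h := cut_path c n hc (fun _ => G) (fun _ O hO => hG O hO)
  rw [h]
  apply sum_congr rfl
  intro b _
  apply PS_congr
  intro pB hpB
  apply PS_congr
  intro pO hpO
  rw [List.map_const', List.sum_replicate, m03b_length, nsmul_eq_mul]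

end Pool.ADM
end

section

end

section

/-! Kernel checks, `61 ≤ Δ ≤ 74`. -/

set_option autoImplicit false
set_option maxRecDepth 100000

namespace Pool.ADM

theorem n12_61_0 : chkL 61 0 0 0 [110] = true := by decide +kernel

theorem n12_61_1 : chkL 61 0 1 0 [35, 184] = true := by decide +kernel

theorem n12_62_0 : chkL 62 0 0 0 [112] = true := by decide +kernel

theorem n12_62_1 : chkL 62 0 1 0 [36, 190] = true := by decide +kernel

theorem n12_63_0 : chkL 63 0 0 0 [114] = true := by decide +kernel

theorem n12_63_1 : chkL 63 0 1 0 [36, 189] = true := by decide +kernel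

theorem n12_64_0 : chkL 64 0 0 0 [116] = true := by decide +kernel

theorem n12_64_1 : chkL 64 0 1 0 [37, 194] = true := by decide +kernel

theorem n12_65_0 : chkL 65 0 0 0 [118] = true := by decide +kernel

theorem n12_65_1 : chkL 65 0 1 0 [37, 194] = true := by decide +kernel

theorem n12_66_0 : chkL 66 0 0 0 [120] = true := by decide +kernel

theorem n12_66_1 : chkL 66 0 1 0 [38, 199] = true := by decide +kernel

theorem n12_67_0 : chkL 67 0 0 0 [122] = true := by decide +kernel

theorem n12_67_1 : chkL 67 0 1 0 [39, 204] = true := by decide +kernel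

theorem n12_68_0 : chkL 68 0 0 0 [123] = true := by decide +kernel

theorem n12_68_1 : chkL 68 0 1 0 [39, 204] = true := by decide +kernel

theorem n12_69_0 : chkL 69 0 0 0 [125] = true := by decide +kernel

theorem n12_69_1 : chkL 69 0 1 0 [40, 209] = true := by decide +kernel

theorem n12_70_0 : chkL 70 0 0 0 [127] = true := by decide +kernel

theorem n12_70_1 : chkL 70 0 1 0 [41, 215] = true := by decide +kernel

theorem n12_71_0 : chkL 71 0 0 0 [129] = true := by decide +kernel

theorem n12_71_1 : chkL 71 0 1 0 [41, 214] = true := by decide +kernel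

theorem n12_72_0 : chkL 72 0 0 0 [131] = true := by decide +kernel

theorem n12_72_1 : chkL 72 0 1 0 [42, 219] = true := by decide +kernel

theorem n12_73_0 : chkL 73 0 0 0 [133] = true := by decide +kernel

theorem n12_73_1 : chkL 73 0 1 0 [43, 225] = true := by decide +kernel

theorem n12_74_0 : chkL 74 0 0 0 [135] = true := by decide +kernel

theorem n12_74_1 : chkL 74 0 1 0 [43, 224] = true := by decide +kernel

end Pool.ADM
end
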