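import Pool.Agent.Lib.MP_ad84ff_coM.M01

section

/-! job ADM-05: the last packet of `F`: one step. -/

set_option autoImplicit false

namespace Pool.ADM

open Finset

private theorem M05_below_nil (q : ℕ) : below q [] = 0 := by simp [below]

private theorem M05_below_cons_lt (q : ℕ) (F : ℕ × ℕ × ℕ) (τ : S3) (h : F.1 < q) :
    below q (F :: τ) = F.2.1 + below q τ := by
  simp [below, h]

private theorem M05_below_cons_ge (q : ℕ) (F : ℕ × ℕ × ℕ) (τ : S3) (h : q ≤ F.1) :
    below q (F :: τ) = below q τ := by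
  have : ¬ F.1 < q := by omega
  simp [below, this]

private theorem M05_below_append (q : ℕ) (σ τ : S3) :
    below q (σ ++ τ) = below q σ + below q τ := by
  simp [below, List.filter_append]

private theorem M05_below_zero (q : ℕ) (σ : S3) (h : ∀ F ∈ σ, q ≤ F.1) : below q σ = 0 := by
  induction σ with
  | nil => exact M05_below_nil q
  | cons F τ ih =>
    rw [M05_below_cons_ge q F τ (h F (by simp))]
    exact ih fun G hG => h G (by simp [hG])

private theorem M05_below_all (q : ℕ) (σ : S3) (h : ∀ F ∈ σ, F.1 < q) : below q σ = sz σ := by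
  induction σ with
  | nil => simp [below, sz]
  | cons F τ ih =>
    rw [M05_below_cons_lt q F τ (h F (by simp)), ih fun G hG => h G (by simp [hG])]
    simp [sz]

private theorem M05_join_cons_ge (D : ℕ) (F : ℕ × ℕ × ℕ) (τ : S3) (h : D ≤ F.1) :
    join (F :: τ) D = F :: join τ D := by
  simp [join, M05_below_cons_ge D F τ h, h]

private theorem M05_join_all (D : ℕ) (σ : S3) (h : ∀ F ∈ σ, F.1 < D) :
    join σ D = [(D, D + sz σ, 0)] := by
  have h1 : σ.filter (fun p => D ≤ p.1) = [] := by
    rw [List.filter_eq_nil_iff]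
    intro F hF
    have := h F hF
    simp; omega
  simp [join, h1, M05_below_all D σ h]

private theorem M05_vs_tail {c n : ℕ} {F : ℕ × ℕ × ℕ} {τ : S3} (h : Vs c n (F :: τ)) :
    Vs c (sz τ) τ := by
  refine ⟨rfl, ?_, ?_, ?_, ?_, ?_⟩
  · exact (List.pairwise_cons.1 h.anti).2
  · intro G hG; exact h.pos G (by simp [hG])
  · intro G hG; exact h.one G (by simp [hG])
  · intro G hG; exact h.big G (by simp [hG])
  · intro hc G hG; exact h.zero hc G (by simp [hG])

theorem join_last (σ : S3) (D : ℕ) : last3 (join σ D) = D ∧ lsz (join σ D) = D + below D σ := by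
  simp [join, last3, lsz, List.getLastD_eq_getLast?]

theorem join_sz (σ : S3) (D : ℕ) : sz (join σ D) = D + sz σ := by
  induction σ with
  | nil => simp [join, sz, below]
  | cons F τ ih =>
    by_cases h : D ≤ F.1
    · rw [M05_join_cons_ge D F τ h]
      have : sz (F :: join τ D) = F.2.1 + sz (join τ D) := by simp [sz]
      rw [this, ih]
      simp [sz]; omega
    · have h' : F.1 < D := by omega
      have hb := M05_below_cons_lt D F τ h'
      unfold join at ih ⊢
      rw [hb]
      simp only [List.filter_cons, sz, List.map_append, List.sum_append, List.map_cons,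
        List.sum_cons, List.map_nil, List.sum_nil] at ih ⊢
      simp only [h, decide_false, Bool.false_eq_true, if_false]
      omega

theorem join_vs (n : ℕ) (σ : S3) (hσ : Vs 0 n σ) (D : ℕ) (hD : 1 ≤ D) :
    Vs 0 (n + D) (join σ D) := by
  refine ⟨?_, ?_, ?_, ?_, ?_, ?_⟩
  · rw [join_sz, hσ.sum]; omega
  · unfold join
    rw [List.pairwise_append]
    refine ⟨hσ.anti.filter _, by simp, ?_⟩
    intro a ha b hb
    simp only [List.mem_filter, decide_eq_true_eq] at ha
    simp only [List.mem_singleton] at hb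
    subst hb
    exact ha.2
  · intro F hF
    unfold join at hF
    rw [List.mem_append] at hF
    rcases hF with hF | hF
    · exact hσ.pos F (List.mem_of_mem_filter hF)
    · simp only [List.mem_singleton] at hF
      subst hF
      exact ⟨hD, by simp⟩
  · intro F hF h1
    unfold join at hF
    rw [List.mem_append] at hF
    rcases hF with hF | hF
    · exact hσ.one F (List.mem_of_mem_filter hF) h1
    · simp only [List.mem_singleton] at hF
      subst hF
      simp only at h1
      subst h1
      rw [M05_below_zero 1 σ fun G hG => (hσ.pos G hG).1]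
  · intro F hF h2
    unfold join at hF
    rw [List.mem_append] at hF
    rcases hF with hF | hF
    · exact hσ.big F (List.mem_of_mem_filter hF) h2
    · simp only [List.mem_singleton] at hF
      subst hF
      simp only at h2 ⊢
      omega
  · intro _ F hF
    unfold join at hF
    rw [List.mem_append] at hF
    rcases hF with hF | hF
    · exact hσ.zero rfl F (List.mem_of_mem_filter hF)
    · simp only [List.mem_singleton] at hF
      subst hF
      rfl

theorem join_one (n : ℕ) (σ : S3) (hσ : Vs 0 n σ) : join σ 1 = σ ++ [(1, 1, 0)] := by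
  unfold join
  rw [M05_below_zero 1 σ fun G hG => (hσ.pos G hG).1]
  congr 1
  rw [List.filter_eq_self]
  intro F hF
  simpa using (hσ.pos F hF).1

theorem join_AL (n : ℕ) (σ : S3) (hσ : Vs 0 n σ) (D D' : ℕ) (hD : 1 ≤ D) :
    AL D' (join σ D) ↔ D' = D ∧ top3 σ ≤ D := by
  constructor
  · rintro ⟨_, h⟩
    have h1 : D = D' := by
      have := h (D, D + below D σ, 0) (by unfold join; simp)
      simpa using this
    subst h1
    refine ⟨rfl, ?_⟩
    cases σ with
    | nil => simp [top3]
    | cons F τ =>
      by_contra hc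
      simp only [top3] at hc
      have := h F (by unfold join; simp; omega)
      omega
  · rintro ⟨rfl, h⟩
    refine ⟨by unfold join; simp, ?_⟩
    intro q hq
    unfold join at hq
    rw [List.mem_append] at hq
    rcases hq with hq | hq
    · simp only [List.mem_filter, decide_eq_true_eq] at hq
      cases σ with
      | nil => simp at hq
      | cons F τ =>
        have hle : q.1 ≤ F.1 := by
          rcases List.mem_cons.1 hq.1 with e | e
          · rw [e]
          · exact (List.pairwise_cons.1 hσ.anti).1 q e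
        simp only [top3] at h
        omega
    · simp only [List.mem_singleton] at hq
      subst hq
      rfl

/-- a hit on level `h ≥ D` does not change what is below level `D`. -/
theorem below_suc (n : ℕ) (σ : S3) (hσ : Vs 0 n σ) (D q : ℕ) (hq : q ≤ D) :
    ∀ x ∈ suc 0 σ, x.1 ≠ 0 → D ≤ x.2.1 → below q x.2.2 = below q σ := by
  rintro ⟨w, h, ρ⟩ hx hw hD
  simp only at hw hD ⊢
  rcases suc_cases 0 n σ hσ w h ρ hx hw with ⟨h0, _, _⟩ | ⟨h1, α, β, r, τ, u, hσe, hr, hα, hβ, hτ, hρ, _⟩
  · have : q = 0 := by omega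
    subst this
    rw [M05_below_zero 0 ρ (by simp), M05_below_zero 0 σ (by simp)]
  · subst hρ
    subst hσe
    rw [M05_below_append, M05_below_append, M05_below_append,
      M05_below_cons_ge q _ τ (by simp only; omega), M05_below_cons_ge q r τ (by omega),
      M05_below_zero q β (fun F hF => by have := hβ F hF; omega)]
    omega

private theorem M05_join_glue (D : ℕ) (F : ℕ × ℕ × ℕ) (ρ : S3) (hD : D ≤ F.1)
    (hρ : ρ.Pairwise fun F G => G.1 ≤ F.1) : join (glue3 F ρ) D = glue3 F (join ρ D) := by
  cases ρ with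
  | nil =>
    have h1 : join [] D = [(D, D, 0)] := by simp [join, below]
    have h2 : join [F] D = F :: join [] D := M05_join_cons_ge D F [] hD
    have h3 : D ≠ F.1 + 1 := by omega
    simp only [glue3]
    rw [h2, h1]
    simp [glue3, h3]
  | cons G ρ =>
    by_cases hG : G.1 = F.1 + 1
    · have e1 : glue3 F (G :: ρ) = (G.1, F.2.1 + G.2.1, F.2.2 + G.2.2) :: ρ := by
        simp [glue3, hG]
      rw [e1, M05_join_cons_ge D G ρ (by omega), M05_join_cons_ge D _ ρ (by simp only; omega)]
      simp [glue3, hG]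
    · have e1 : glue3 F (G :: ρ) = F :: G :: ρ := by
        simp [glue3, hG]
      rw [e1, M05_join_cons_ge D F _ hD]
      by_cases hGD : D ≤ G.1
      · rw [M05_join_cons_ge D G ρ hGD]
        simp [glue3, hG]
      · have hall : ∀ H ∈ G :: ρ, H.1 < D := by
          intro H hH
          rcases List.mem_cons.1 hH with e | e
          · rw [e]; omega
          · have := (List.pairwise_cons.1 hρ).1 H e
            omega
        rw [M05_join_all D (G :: ρ) hall]
        have h3 : D ≠ F.1 + 1 := by omega
        simp [glue3, h3]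

private theorem M05_head (D : ℕ) (ρ : S3) : ∃ G ν, join ρ D = G :: ν ∧ (G.1 = D ∨ G ∈ ρ) := by
  induction ρ with
  | nil => exact ⟨_, _, rfl, Or.inl rfl⟩
  | cons F τ ih =>
    by_cases h : D ≤ F.1
    · exact ⟨F, join τ D, M05_join_cons_ge D F τ h, Or.inr (by simp)⟩
    · obtain ⟨G, ν, h1, h2⟩ := ih
      have hj : join (F :: τ) D = τ.filter (fun p => D ≤ p.1) ++ [(D, D + below D (F :: τ), 0)] := by
        simp [join, h]
      cases hf : τ.filter (fun p => D ≤ p.1) with
      | nil =>
        rw [hf] at hj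
        exact ⟨_, _, hj, Or.inl rfl⟩
      | cons G' ν' =>
        rw [hf] at hj
        refine ⟨G', _, hj, Or.inr ?_⟩
        have : G' ∈ τ.filter (fun p => D ≤ p.1) := by rw [hf]; simp
        exact List.mem_cons_of_mem _ (List.mem_of_mem_filter this)

private theorem M05_join_up (n D : ℕ) (F : ℕ × ℕ × ℕ) (τ : S3) (hD : D ≤ F.1)
    (hσ : Vs 0 n (F :: τ)) : join (F :: τ) (D + 1) = glue3 F (join τ (D + 1)) := by
  have hle : ∀ H ∈ τ, H.1 ≤ F.1 := (List.pairwise_cons.1 hσ.anti).1
  by_cases h : D + 1 ≤ F.1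
  · rw [M05_join_cons_ge (D + 1) F τ h]
    obtain ⟨G, ν, h1, h2⟩ := M05_head (D + 1) τ
    rw [h1]
    have h3 : G.1 ≠ F.1 + 1 := by
      rcases h2 with h2 | h2
      · omega
      · have := hle G h2; omega
    simp [glue3, h3]
  · have hF : F.1 = D := by omega
    have hall : ∀ H ∈ F :: τ, H.1 < D + 1 := by
      intro H hH
      rcases List.mem_cons.1 hH with e | e
      · rw [e]; omega
      · have := hle H e; omega
    have hall2 : ∀ H ∈ τ, H.1 < D + 1 := fun H hH => hall H (by simp [hH])
    rw [M05_join_all (D + 1) _ hall, M05_join_all (D + 1) _ hall2]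
    have h0 := hσ.zero rfl F (by simp)
    have hs : sz (F :: τ) = F.2.1 + sz τ := by simp [sz]
    simp only [glue3, hF, if_true, h0, hs]
    congr 2
    simp only [Prod.mk.injEq]
    exact ⟨by omega, trivial⟩

/-- The no-append successors of `join σ D`: hits of the packets of `σ` of level `≥ D`, and hits of
the last packet. -/
theorem join_suc (n : ℕ) (σ : S3) (hσ : Vs 0 n σ) (D : ℕ) (hD : 1 ≤ D) (G : S3 → ℝ) :
    gna G (join σ D) = wsum (suc 0 σ) (fun h ρ => if D ≤ h then G (join ρ D) else 0) +
      ((D : ℝ) + below D σ) * G (join σ (D + 1)) := by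
  induction σ generalizing n G with
  | nil =>
    have h1 : join [] D = [(D, D, 0)] := by simp [join, below]
    have h2 : join [] (D + 1) = [(D + 1, D + 1, 0)] := by simp [join, below]
    have h0 : D ≠ 0 := by omega
    rw [gna, h1, h2, wsum_suc_cons]
    simp [suc, wsum, h0, below]
  | cons F τ ih =>
    have hτ := M05_vs_tail hσ
    by_cases h : D ≤ F.1
    · have hF0 : F.1 ≠ 0 := by omega
      rw [M05_join_cons_ge D F τ h, gna, wsum_suc_cons, wsum_suc_cons]
      have e1 := ih (sz τ) hτ (fun ρ => G (glue3 F ρ))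
      rw [gna] at e1
      rw [e1, M05_below_cons_ge D F τ h, M05_join_up n D F τ h hσ]
      have e2 : wsum (suc 0 τ) (fun h ρ => if D ≤ h then G (glue3 F (join ρ D)) else 0) =
          wsum (suc 0 τ) (fun h ρ => if D ≤ h then G (join (glue3 F ρ) D) else 0) := by
        apply wsum_congr
        intro x hx hx0
        have hv := suc_vs 0 (sz τ) (by omega) τ hτ x hx hx0
        rw [M05_join_glue D F x.2.2 h hv.anti]
      rw [e2]
      have e3 : ∀ a b : ℕ, join ((F.1 + 1, a, b) :: τ) D = (F.1 + 1, a, b) :: join τ D :=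
        fun a b => M05_join_cons_ge D _ τ (by simp only; omega)
      simp only [hF0, if_false, h, if_true, e3]
      ring
    · have hle : ∀ H ∈ τ, H.1 ≤ F.1 := (List.pairwise_cons.1 hσ.anti).1
      have hall : ∀ H ∈ F :: τ, H.1 < D := by
        intro H hH
        rcases List.mem_cons.1 hH with e | e
        · rw [e]; omega
        · have := hle H e; omega
      have hall2 : ∀ H ∈ F :: τ, H.1 < D + 1 := fun H hH => by have := hall H hH; omega
      have h0 : D ≠ 0 := by omega
      have e1 : wsum (suc 0 (F :: τ)) (fun h ρ => if D ≤ h then G (join ρ D) else 0) =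
          wsum (suc 0 (F :: τ)) (fun _ _ => 0) := by
        apply wsum_congr
        rintro ⟨w, k, ρ⟩ hx hx0
        simp only at hx0 ⊢
        have hk : ¬ D ≤ k := by
          rcases suc_cases 0 n _ hσ w k ρ hx hx0 with ⟨h0, _, _⟩ |
            ⟨h1, α, β, r, τ', u, hσe, hr, _⟩
          · omega
          · have := hall r (by rw [hσe]; simp)
            omega
        simp [hk]
      have e2 : wsum (suc 0 (F :: τ)) (fun _ _ => (0 : ℝ)) = 0 := by
        simp [wsum]
      rw [e1, e2, M05_join_all D _ hall, M05_join_all (D + 1) _ hall2, M05_below_all D _ hall, gna,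
        wsum_suc_cons]
      simp [suc, wsum, h0]
      left
      congr 4
      omega

theorem suc_append (c n : ℕ) (σ : S3) (hσ : Vs c n σ) (G : S3 → ℝ) :
    wsum (suc c σ) (fun h ρ => if h = 0 then G ρ else 0) = G (σ ++ [(1, 1, c)]) := by
  induction σ generalizing n G with
  | nil => simp [suc, wsum]
  | cons F τ ih =>
    have hτ := M05_vs_tail hσ
    have hle : ∀ H ∈ τ, H.1 ≤ F.1 := (List.pairwise_cons.1 hσ.anti).1
    have hF1 := (hσ.pos F (by simp)).1
    have hF0 : F.1 ≠ 0 := by omega
    rw [wsum_suc_cons, ih (sz τ) hτ (fun ρ => G (glue3 F ρ))]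
    simp only [hF0, if_false, mul_zero, zero_add]
    congr 1
    cases τ with
    | nil => simp only [List.nil_append, List.cons_append, glue3]; rw [if_neg (by omega)]
    | cons H ν =>
      have := hle H (by simp)
      simp only [List.cons_append, glue3]
      rw [if_neg (by omega)]

theorem WtD_succ (σ : S3) (D : ℕ) (hD : 1 ≤ D) : WtD σ (D + 1) = WtD σ D * (D + below D σ) := by
  unfold WtD
  rw [Finset.prod_Ico_succ_top hD]

end Pool.ADM
end

section

/-! job ADM-12a: FKG on finite sublattices, monotone sequences, the sets of words in coordinates. -/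

set_option autoImplicit false

namespace Pool.ADM

open Finset
open scoped FinsetFamily

/-- nondecreasing sequences with values `≤ m` -/
def mon (k m : ℕ) : Finset (Fin k → ℕ) :=
  (Fintype.piFinset fun _ => range (m + 1)).filter fun g => ∀ i j : Fin k, i ≤ j → g i ≤ g j

/-- entry number `i` (in time order, from `0`) of a list with the latest entry first -/
def et (l : List ℕ) (i : ℕ) : ℕ := l.reverse.getD i 0

/-- value after `i` letters of a list with the latest entry first -/
def lam (ls : List ℕ) (i : ℕ) : ℕ := if i = 0 then 0 else et ls (i - 1)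

/-- Words in `a` letters `F`, `b` letters `B`, `x` letters `O` such that `B_j` comes after `F_i`
whenever `lam i < t j` (indices from `0`; `O` free): `g i` = number of letters `B, O` before `F_i`,
`c j` = number of letters `O` before `B_j`. -/
def UFB (a b x : ℕ) (lam t : ℕ → ℕ) : Finset ((Fin a → ℕ) × (Fin b → ℕ)) :=
  ((mon a (b + x)) ×ˢ (mon b x)).filter fun gc =>
    ∀ (i : Fin a) (j : Fin b), lam i < t j → gc.1 i ≤ (j : ℕ) + gc.2 j

/-- condition for the letters `O` (and the appends of `B`): an append of `B` comes before all the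
`O`; `O_i` comes when the last level of `B` is at least `o i`. -/
def Val (b x : ℕ) (h lst o : ℕ → ℕ) (c : Fin b → ℕ) : Prop :=
  (∀ j : Fin b, h j = 0 → c j = 0) ∧
    ∀ i : Fin x, o i ≤ lst ((univ.filter fun j : Fin b => c j ≤ (i : ℕ)).card)

instance (b x : ℕ) (h lst o : ℕ → ℕ) (c : Fin b → ℕ) : Decidable (Val b x h lst o c) := by
  unfold Val; infer_instance

/-- From `four_functions_theorem` (which is stated for finite subsets `s, t` of a distributive
lattice) with `s = t = U`, functions multiplied by the indicator of `U`. -/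
theorem fkg_fin {α : Type*} [DistribLattice α] [DecidableEq α] (U : Finset α)
    (hinf : ∀ a ∈ U, ∀ b ∈ U, a ⊓ b ∈ U) (hsup : ∀ a ∈ U, ∀ b ∈ U, a ⊔ b ∈ U) (f g : α → ℝ)
    (hf0 : ∀ a ∈ U, 0 ≤ f a) (hg0 : ∀ a ∈ U, 0 ≤ g a)
    (hf : ∀ a ∈ U, ∀ b ∈ U, a ≤ b → f b ≤ f a) (hg : ∀ a ∈ U, ∀ b ∈ U, a ≤ b → g b ≤ g a) :
    (∑ a ∈ U, f a) * ∑ a ∈ U, g a ≤ (U.card : ℝ) * ∑ a ∈ U, f a * g a := by
  classical
  let f₁ : α → ℝ := fun a => if a ∈ U then f a else 0
  let f₂ : α → ℝ := fun a => if a ∈ U then g a else 0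
  let f₃ : α → ℝ := fun a => if a ∈ U then f a * g a else 0
  let f₄ : α → ℝ := fun a => if a ∈ U then 1 else 0
  have h₁ : 0 ≤ f₁ := fun a => by
    simp only [f₁, Pi.zero_apply]
    split_ifs with h
    · exact hf0 a h
    · exact le_rfl
  have h₂ : 0 ≤ f₂ := fun a => by
    simp only [f₂, Pi.zero_apply]
    split_ifs with h
    · exact hg0 a h
    · exact le_rfl
  have h₃ : 0 ≤ f₃ := fun a => by
    simp only [f₃, Pi.zero_apply]
    split_ifs with h
    · exact mul_nonneg (hf0 a h) (hg0 a h)
    · exact le_rfl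
  have h₄ : 0 ≤ f₄ := fun a => by
    simp only [f₄, Pi.zero_apply]
    split_ifs with h
    · exact zero_le_one
    · exact le_rfl
  have key : ∀ a b, f₁ a * f₂ b ≤ f₃ (a ⊓ b) * f₄ (a ⊔ b) := by
    intro a b
    by_cases ha : a ∈ U
    · by_cases hb : b ∈ U
      · simp only [f₁, f₂, f₃, f₄]
        rw [if_pos ha, if_pos hb, if_pos (hinf a ha b hb), if_pos (hsup a ha b hb), mul_one]
        exact mul_le_mul (hf _ (hinf a ha b hb) a ha inf_le_left)
          (hg _ (hinf a ha b hb) b hb inf_le_right) (hg0 b hb) (hf0 _ (hinf a ha b hb))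
      · have e : f₂ b = 0 := if_neg hb
        rw [e, mul_zero]
        exact mul_nonneg (h₃ _) (h₄ _)
    · have e : f₁ a = 0 := if_neg ha
      rw [e, zero_mul]
      exact mul_nonneg (h₃ _) (h₄ _)
  have h5 := four_functions_theorem f₁ f₂ f₃ f₄ h₁ h₂ h₃ h₄ key U U
  have e1 : ∑ a ∈ U, f₁ a = ∑ a ∈ U, f a := Finset.sum_congr rfl fun a ha => if_pos ha
  have e2 : ∑ a ∈ U, f₂ a = ∑ a ∈ U, g a := Finset.sum_congr rfl fun a ha => if_pos ha
  have e3 : ∑ a ∈ U, f₃ a = ∑ a ∈ U, f a * g a := Finset.sum_congr rfl fun a ha => if_pos ha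
  have e4 : ∑ a ∈ U, f₄ a = (U.card : ℝ) := by
    rw [Finset.sum_congr rfl fun a ha => (if_pos ha : f₄ a = 1)]
    simp
  have hsub3 : ∑ a ∈ (U ⊼ U), f₃ a ≤ ∑ a ∈ U, f₃ a := by
    refine Finset.sum_le_sum_of_subset_of_nonneg ?_ fun a _ _ => h₃ a
    intro x hx
    obtain ⟨a, ha, b, hb, rfl⟩ := Finset.mem_infs.1 hx
    exact hinf a ha b hb
  have hsub4 : ∑ a ∈ (U ⊻ U), f₄ a ≤ ∑ a ∈ U, f₄ a := by
    refine Finset.sum_le_sum_of_subset_of_nonneg ?_ fun a _ _ => h₄ a
    intro x hx
    obtain ⟨a, ha, b, hb, rfl⟩ := Finset.mem_sups.1 hx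
    exact hsup a ha b hb
  rw [e1, e2] at h5
  refine h5.trans ?_
  rw [mul_comm (U.card : ℝ), ← e3, ← e4]
  exact mul_le_mul hsub3 hsub4 (Finset.sum_nonneg fun a _ => h₄ a)
    (Finset.sum_nonneg fun a _ => h₃ a)

/-- the same for a down-set `W` of `U`. -/
theorem fkg_down {α : Type*} [DistribLattice α] [DecidableEq α] (U W : Finset α) (hWU : W ⊆ U)
    (hinf : ∀ a ∈ U, ∀ b ∈ U, a ⊓ b ∈ U) (hsup : ∀ a ∈ U, ∀ b ∈ U, a ⊔ b ∈ U) (f : α → ℝ)
    (hf0 : ∀ a ∈ U, 0 ≤ f a) (hf : ∀ a ∈ U, ∀ b ∈ U, a ≤ b → f b ≤ f a)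
    (hW : ∀ a ∈ U, ∀ b ∈ W, a ≤ b → a ∈ W) :
    (∑ a ∈ U, f a) * (W.card : ℝ) ≤ (U.card : ℝ) * ∑ a ∈ W, f a := by
  classical
  have h := fkg_fin U hinf hsup f (fun a => if a ∈ W then 1 else 0) hf0
    (fun a _ => by split_ifs <;> norm_num) hf
    (fun a ha b _ hab => by
      by_cases hb : b ∈ W
      · rw [if_pos hb, if_pos (hW a ha b hb hab)]
      · rw [if_neg hb]
        split_ifs <;> norm_num)
  have e1 : ∑ a ∈ U, (if a ∈ W then (1 : ℝ) else 0) = (W.card : ℝ) := by
    rw [← Finset.sum_filter, Finset.filter_mem_eq_inter, Finset.inter_eq_right.2 hWU]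
    simp
  have e2 : ∑ a ∈ U, f a * (if a ∈ W then (1 : ℝ) else 0) = ∑ a ∈ W, f a := by
    simp only [mul_ite, mul_one, mul_zero]
    rw [← Finset.sum_filter, Finset.filter_mem_eq_inter, Finset.inter_eq_right.2 hWU]
  rw [e1, e2] at h
  exact h

/-- the version with one monotone and one antitone function (negative correlation). -/
theorem fkg_neg {α : Type*} [DistribLattice α] [DecidableEq α] (U W : Finset α) (hWU : W ⊆ U)
    (hinf : ∀ a ∈ U, ∀ b ∈ U, a ⊓ b ∈ U) (hsup : ∀ a ∈ U, ∀ b ∈ U, a ⊔ b ∈ U) (f : α → ℝ)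
    (hf0 : ∀ a ∈ U, 0 ≤ f a) (hf : ∀ a ∈ U, ∀ b ∈ U, a ≤ b → f a ≤ f b)
    (hW : ∀ a ∈ U, ∀ b ∈ W, a ≤ b → a ∈ W) :
    (U.card : ℝ) * ∑ a ∈ W, f a ≤ (∑ a ∈ U, f a) * (W.card : ℝ) := by
  classical
  set C : ℝ := ∑ a ∈ U, f a with hC
  have hle : ∀ a ∈ U, f a ≤ C := fun a ha => Finset.single_le_sum (f := f) hf0 ha
  have h := fkg_down U W hWU hinf hsup (fun a => C - f a) (fun a ha => by
    have := hle a ha
    change 0 ≤ C - f a
    linarith) (fun a ha b hb hab => by
    have := hf a ha b hb hab
    change C - f b ≤ C - f a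
    linarith) hW
  simp only [Finset.sum_sub_distrib, Finset.sum_const, nsmul_eq_mul] at h
  rw [← hC] at h
  nlinarith [h]

end Pool.ADM
end

section

/-! job ADM-12b: FKG on finite sublattices, monotone sequences, the sets of words in coordinates. -/

set_option autoImplicit false

namespace Pool.ADM

open Finset

theorem mem_mon {k m : ℕ} {g : Fin k → ℕ} :
    g ∈ mon k m ↔ (∀ i, g i ≤ m) ∧ ∀ i j : Fin k, i ≤ j → g i ≤ g j := by
  unfold mon
  simp only [Finset.mem_filter, Fintype.mem_piFinset, Finset.mem_range, Nat.lt_succ_iff]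

private theorem M12b_zero (m : ℕ) : (mon 0 m).card = 1 := by
  have : mon 0 m = {fun i => i.elim0} := by
    ext g
    simp only [mem_mon, Finset.mem_singleton]
    constructor
    · intro _
      funext i
      exact i.elim0
    · intro _
      exact ⟨fun i => i.elim0, fun i => i.elim0⟩
  rw [this, Finset.card_singleton]

private theorem M12b_z0 (k : ℕ) : (mon k 0).card = 1 := by
  have : mon k 0 = {fun _ => 0} := by
    ext g
    simp only [mem_mon, Finset.mem_singleton]
    constructor
    · intro h
      funext i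
      exact Nat.le_zero.mp (h.1 i)
    · intro h
      subst h
      exact ⟨fun _ => le_refl _, fun _ _ _ => le_refl _⟩
  rw [this, Finset.card_singleton]

private theorem M12b_step (k m : ℕ) :
    (mon (k + 1) (m + 1)).card = (mon k (m + 1)).card + (mon (k + 1) m).card := by
  have hinj : Function.Injective
      (fun g : Fin k → ℕ => (Fin.snoc g (m + 1) : Fin (k + 1) → ℕ)) := by
    intro g g' h
    funext i
    have := congrFun h i.castSucc
    simpa using this
  have heq : mon (k + 1) (m + 1) =
      (mon k (m + 1)).image (fun g => (Fin.snoc g (m + 1) : Fin (k + 1) → ℕ)) ∪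
        mon (k + 1) m := by
    ext g
    simp only [Finset.mem_union, Finset.mem_image]
    constructor
    · intro hg
      rw [mem_mon] at hg
      by_cases hl : g (Fin.last k) = m + 1
      · left
        refine ⟨fun i => g i.castSucc, ?_, ?_⟩
        · rw [mem_mon]
          exact ⟨fun i => hg.1 _, fun i j hij => hg.2 _ _ (by simpa using hij)⟩
        · funext i
          refine Fin.lastCases ?_ (fun j => ?_) i
          · simp [hl]
          · simp
      · right
        rw [mem_mon]
        refine ⟨fun i => ?_, hg.2⟩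
        have h1 := hg.2 i (Fin.last k) (Fin.le_last i)
        have h2 := hg.1 (Fin.last k)
        omega
    · rintro (⟨g', hg', rfl⟩ | hg)
      · rw [mem_mon] at hg' ⊢
        refine ⟨fun i => ?_, fun i j hij => ?_⟩
        · refine Fin.lastCases ?_ (fun j => ?_) i
          · simp
          · simpa using hg'.1 j
        · revert hij
          refine Fin.lastCases ?_ (fun j' => ?_) j
          · intro _
            refine Fin.lastCases ?_ (fun i' => ?_) i
            · simp
            · simpa using hg'.1 i'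
          · refine Fin.lastCases ?_ (fun i' => ?_) i
            · intro h
              exact absurd h (by simp)
            · intro h
              simpa using hg'.2 i' j' (by simpa using h)
      · rw [mem_mon] at hg ⊢
        exact ⟨fun i => (hg.1 i).trans (Nat.le_succ m), hg.2⟩
  have hdis : Disjoint
      ((mon k (m + 1)).image (fun g => (Fin.snoc g (m + 1) : Fin (k + 1) → ℕ)))
      (mon (k + 1) m) := by
    rw [Finset.disjoint_left]
    intro g hg hg'
    rw [Finset.mem_image] at hg
    obtain ⟨g', _, rfl⟩ := hg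
    rw [mem_mon] at hg'
    have := hg'.1 (Fin.last k)
    simp at this
  rw [heq, Finset.card_union_of_disjoint hdis, Finset.card_image_of_injective _ hinj]

theorem mon_card (k m : ℕ) : (mon k m).card = (k + m).choose k := by
  induction k generalizing m with
  | zero => rw [M12b_zero]; simp
  | succ k ih =>
    induction m with
    | zero => rw [M12b_z0]; simp
    | succ m ihm =>
      rw [M12b_step, ih, ihm]
      have : k + 1 + (m + 1) = (k + (m + 1)) + 1 := by ring
      rw [this, Nat.choose_succ_succ]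
      have h2 : k + 1 + m = k + (m + 1) := by ring
      rw [h2]

theorem UFB_inf (a b x : ℕ) (lam t : ℕ → ℕ) : ∀ p ∈ UFB a b x lam t, ∀ q ∈ UFB a b x lam t,
    p ⊓ q ∈ UFB a b x lam t ∧ p ⊔ q ∈ UFB a b x lam t := by
  intro p hp q hq
  unfold UFB at hp hq ⊢
  simp only [Finset.mem_filter, Finset.mem_product, mem_mon] at hp hq ⊢
  obtain ⟨⟨⟨p1, p2⟩, p3, p4⟩, p5⟩ := hp
  obtain ⟨⟨⟨q1, q2⟩, q3, q4⟩, q5⟩ := hq
  refine ⟨⟨⟨⟨fun i => ?_, fun i j hij => ?_⟩, fun i => ?_, fun i j hij => ?_⟩,
    fun i j hij => ?_⟩, ⟨⟨fun i => ?_, fun i j hij => ?_⟩, fun i => ?_, fun i j hij => ?_⟩,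
    fun i j hij => ?_⟩
  · simp only [Prod.fst_inf, Pi.inf_apply]
    exact inf_le_of_left_le (p1 i)
  · simp only [Prod.fst_inf, Pi.inf_apply]
    exact inf_le_inf (p2 i j hij) (q2 i j hij)
  · simp only [Prod.snd_inf, Pi.inf_apply]
    exact inf_le_of_left_le (p3 i)
  · simp only [Prod.snd_inf, Pi.inf_apply]
    exact inf_le_inf (p4 i j hij) (q4 i j hij)
  · simp only [Prod.fst_inf, Prod.snd_inf, Pi.inf_apply]
    have h1 := p5 i j hij
    have h2 := q5 i j hij
    change min (p.1 i) (q.1 i) ≤ (j : ℕ) + min (p.2 j) (q.2 j)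
    omega
  · simp only [Prod.fst_sup, Pi.sup_apply]
    exact sup_le (p1 i) (q1 i)
  · simp only [Prod.fst_sup, Pi.sup_apply]
    exact sup_le_sup (p2 i j hij) (q2 i j hij)
  · simp only [Prod.snd_sup, Pi.sup_apply]
    exact sup_le (p3 i) (q3 i)
  · simp only [Prod.snd_sup, Pi.sup_apply]
    exact sup_le_sup (p4 i j hij) (q4 i j hij)
  · simp only [Prod.fst_sup, Prod.snd_sup, Pi.sup_apply]
    have h1 := p5 i j hij
    have h2 := q5 i j hij
    change max (p.1 i) (q.1 i) ≤ (j : ℕ) + max (p.2 j) (q.2 j)
    omega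

end Pool.ADM
end

section

end

section

/-! Kernel checks, `75 ≤ Δ ≤ 86`. -/

set_option autoImplicit false
set_option maxRecDepth 100000

namespace Pool.ADM

theorem n12_75_0 : chkL 75 0 0 0 [137] = true := by decide +kernel

theorem n12_75_1 : chkL 75 0 1 0 [44, 230] = true := by decide +kernel

theorem n12_76_0 : chkL 76 0 0 0 [138] = true := by decide +kernel

theorem n12_76_1 : chkL 76 0 1 0 [45, 235] = true := by decide +kernel

theorem n12_77_0 : chkL 77 0 0 0 [140] = true := by decide +kernel

theorem n12_77_1 : chkL 77 0 1 0 [45, 234] = true := by decide +kernel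

theorem n12_78_0 : chkL 78 0 0 0 [142] = true := by decide +kernel

theorem n12_78_1 : chkL 78 0 1 0 [46, 240] = true := by decide +kernel

theorem n12_79_0 : chkL 79 0 0 0 [144] = true := by decide +kernel

theorem n12_79_1 : chkL 79 0 1 0 [47, 245] = true := by decide +kernel

theorem n12_80_0 : chkL 80 0 0 0 [146] = true := by decide +kernel

theorem n12_80_1 : chkL 80 0 1 0 [47, 244] = true := by decide +kernel

theorem n12_81_0 : chkL 81 0 0 0 [148] = true := by decide +kernel

theorem n12_81_1 : chkL 81 0 1 0 [48, 250] = true := by decide +kernel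

theorem n12_82_0 : chkL 82 0 0 0 [150] = true := by decide +kernel

theorem n12_82_1 : chkL 82 0 1 0 [48, 249] = true := by decide +kernel

theorem n12_83_0 : chkL 83 0 0 0 [151] = true := by decide +kernel

theorem n12_83_1 : chkL 83 0 1 0 [49, 255] = true := by decide +kernel

theorem n12_84_0 : chkL 84 0 0 0 [153] = true := by decide +kernel

theorem n12_84_1 : chkL 84 0 1 0 [50, 260] = true := by decide +kernel

theorem n12_85_0 : chkL 85 0 0 0 [155] = true := by decide +kernel

theorem n12_85_1 : chkL 85 0 1 0 [50, 259] = true := by decide +kernel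

theorem n12_86_0 : chkL 86 0 0 0 [157] = true := by decide +kernel

theorem n12_86_1 : chkL 86 0 1 0 [51, 265] = true := by decide +kernel

end Pool.ADM
end
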