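import Pool.Agent.Lib.MP_ad84ff_coM.M01
import Pool.Agent.Lib.MP_ad84ff_coM.N12d
import Pool.Agent.Lib.MP_ad84ff_coM.N12c

section

/-! job ADM-08: erasing leaves. -/

set_option autoImplicit false

namespace Pool.ADM

open Finset

private theorem m08_Er_nil (f : S3 → ℝ) : Er f [] = 0 := by simp [Er, er]

private theorem m08_Er_cons (f : S3 → ℝ) (F : ℕ × ℕ × ℕ) (τ : S3) :
    Er f (F :: τ) = (F.2.2 : ℝ) * f (if F.1 = 1 then τ else (F.1, F.2.1 - 1, F.2.2 - 1) :: τ) +
      Er (fun ρ => f (F :: ρ)) τ := by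
  simp [Er, er, List.map_map, Function.comp_def]

private theorem m08_Er_add (f g : S3 → ℝ) (σ : S3) :
    Er (fun ρ => f ρ + g ρ) σ = Er f σ + Er g σ := by
  induction σ generalizing f g with
  | nil => simp [m08_Er_nil]
  | cons F τ ih => rw [m08_Er_cons, m08_Er_cons, m08_Er_cons, ih]; ring

private theorem m08_Er_mul (a : ℝ) (f : S3 → ℝ) (σ : S3) :
    Er (fun ρ => a * f ρ) σ = a * Er f σ := by
  induction σ generalizing f with
  | nil => simp [m08_Er_nil]
  | cons F τ ih => rw [m08_Er_cons, m08_Er_cons, ih]; ring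

/-- `Er` only sees the erased states. -/
private theorem m08_Er_congr (f g : S3 → ℝ) (σ : S3) (h : ∀ x ∈ er σ, f x.2 = g x.2) :
    Er f σ = Er g σ := by
  unfold Er
  congr 1
  apply List.map_congr_left
  intro x hx
  rw [h x hx]

private theorem m08_tail {n : ℕ} {F : ℕ × ℕ × ℕ} {τ : S3} (h : Vs 1 n (F :: τ)) :
    Vs 1 (sz τ) τ where
  sum := rfl
  anti := (List.pairwise_cons.1 h.anti).2
  pos := fun G hG => h.pos G (List.mem_cons_of_mem _ hG)
  one := fun G hG => h.one G (List.mem_cons_of_mem _ hG)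
  big := fun G hG => h.big G (List.mem_cons_of_mem _ hG)
  zero := fun h0 => absurd h0 one_ne_zero

/-- the level of the first packet of an erased state is the old one, or at most `1`. -/
private theorem m08_er_head {n : ℕ} {σ : S3} (h : Vs 1 n σ) (D : ℕ) (hD : 1 ≤ D)
    (hne : ∀ G ρ, σ = G :: ρ → G.1 ≠ D + 1) :
    ∀ x ∈ er σ, ∀ G ρ, x.2 = G :: ρ → G.1 ≠ D + 1 := by
  intro x hx G ρ hG
  cases σ with
  | nil => simp [er] at hx
  | cons F τ =>
    have hF := hne F τ rfl
    rw [er, List.mem_cons, List.mem_map] at hx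
    rcases hx with rfl | ⟨y, _, rfl⟩
    · dsimp only at hG
      split_ifs at hG with h1
      · subst hG
        have := (List.pairwise_cons.1 h.anti).1 G (by simp)
        omega
      · rw [List.cons.injEq] at hG
        rw [← hG.1]; exact hF
    · dsimp only at hG
      rw [List.cons.injEq] at hG
      rw [← hG.1]; exact hF

private theorem m08_glue_ne (F : ℕ × ℕ × ℕ) (ρ : S3) (h : ∀ G ρ', ρ = G :: ρ' → G.1 ≠ F.1 + 1) :
    glue3 F ρ = F :: ρ := by
  cases ρ with
  | nil => rfl
  | cons G ρ' => simp [glue3, h G ρ' rfl]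

/-- erasing after gluing -/
private theorem m08_point (f : S3 → ℝ) (F : ℕ × ℕ × ℕ) (hD : 1 ≤ F.1) (hl : F.2.2 ≤ F.2.1)
    (h1 : F.1 = 1 → F = (1, 1, 1)) {n : ℕ} (ρ : S3) (hρ : Vs 1 n ρ) :
    Er f (glue3 F ρ) =
      (F.2.2 : ℝ) * f (if F.1 = 1 then ρ else glue3 (F.1, F.2.1 - 1, F.2.2 - 1) ρ) +
      Er (fun x => f (glue3 F x)) ρ := by
  by_cases hne : ∀ G ρ', ρ = G :: ρ' → G.1 ≠ F.1 + 1
  · rw [m08_glue_ne F ρ hne, m08_glue_ne (F.1, F.2.1 - 1, F.2.2 - 1) ρ hne, m08_Er_cons]
    congr 1
    refine m08_Er_congr _ _ _ fun x hx => ?_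
    rw [m08_glue_ne F x.2 (m08_er_head hρ F.1 hD hne x hx)]
  · push Not at hne
    obtain ⟨G, ρ', rfl, hG⟩ := hne
    have hGb : G.2.2 < G.2.1 := hρ.big G (by simp) (by omega)
    have e1 : glue3 F (G :: ρ') = (G.1, F.2.1 + G.2.1, F.2.2 + G.2.2) :: ρ' := by
      simp [glue3, hG]
    have e2 : glue3 (F.1, F.2.1 - 1, F.2.2 - 1) (G :: ρ') =
        (G.1, F.2.1 - 1 + G.2.1, F.2.2 - 1 + G.2.2) :: ρ' := by
      simp [glue3, hG]
    rw [e1, e2, m08_Er_cons, m08_Er_cons]
    have hG1 : ¬ G.1 = 1 := by omega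
    have e3 : glue3 F ((G.1, G.2.1 - 1, G.2.2 - 1) :: ρ') =
        (G.1, F.2.1 + (G.2.1 - 1), F.2.2 + (G.2.2 - 1)) :: ρ' := by
      simp [glue3, hG]
    have e4 : (fun x => f (glue3 F (G :: x))) =
        fun x => f ((G.1, F.2.1 + G.2.1, F.2.2 + G.2.2) :: x) := by
      funext x
      simp [glue3, hG]
    simp only [hG1, if_false, e3, e4]
    have hA : (F.2.2 : ℝ) * f ((G.1, F.2.1 + G.2.1 - 1, F.2.2 + G.2.2 - 1) :: ρ') =
        (F.2.2 : ℝ) * f (if F.1 = 1 then G :: ρ' else
          (G.1, F.2.1 - 1 + G.2.1, F.2.2 - 1 + G.2.2) :: ρ') := by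
      by_cases hl0 : F.2.2 = 0
      · simp [hl0]
      · congr 2
        by_cases hF1 : F.1 = 1
        · have := h1 hF1
          rw [if_pos hF1, this]
          obtain ⟨g1, g2, g3⟩ := G
          simp
        · have a1 : F.2.1 + G.2.1 - 1 = F.2.1 - 1 + G.2.1 := by omega
          have a2 : F.2.2 + G.2.2 - 1 = F.2.2 - 1 + G.2.2 := by omega
          rw [if_neg hF1, a1, a2]
    have hB : (G.2.2 : ℝ) * f ((G.1, F.2.1 + G.2.1 - 1, F.2.2 + G.2.2 - 1) :: ρ') =
        (G.2.2 : ℝ) * f ((G.1, F.2.1 + (G.2.1 - 1), F.2.2 + (G.2.2 - 1)) :: ρ') := by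
      by_cases hl0 : G.2.2 = 0
      · simp [hl0]
      · have a1 : F.2.1 + G.2.1 - 1 = F.2.1 + (G.2.1 - 1) := by omega
        have a2 : F.2.2 + G.2.2 - 1 = F.2.2 + (G.2.2 - 1) := by omega
        rw [a1, a2]
    push_cast
    rw [add_mul, hA, hB]
    ring

private theorem m08_er_mem (σ : S3) : ∀ x ∈ er σ, x.1 ≠ 0 → ∃ (α : S3) (F : ℕ × ℕ × ℕ) (τ : S3),
    σ = α ++ F :: τ ∧ x.2 = α ++ (if F.1 = 1 then τ else (F.1, F.2.1 - 1, F.2.2 - 1) :: τ) ∧
      F.2.2 ≠ 0 := by
  induction σ with
  | nil => intro x hx; simp [er] at hx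
  | cons G τ ih =>
    intro x hx hx0
    rw [er, List.mem_cons, List.mem_map] at hx
    rcases hx with rfl | ⟨y, hy, rfl⟩
    · exact ⟨[], G, τ, rfl, by simp, hx0⟩
    · obtain ⟨α, F, τ', h1, h2, h3⟩ := ih y hy hx0
      exact ⟨G :: α, F, τ', by simp [h1], by simp [h2], h3⟩

/-- `hb` holds for the reachable states; without it the statement is false (`[(2, 2, 1)]`). -/
theorem er_vs (n : ℕ) (σ : S3) (hσ : Vs 1 (n + 1) σ)
    (hb : ∀ F ∈ σ, 2 ≤ F.1 → F.1 + F.2.2 ≤ F.2.1) : ∀ x ∈ er σ, x.1 ≠ 0 → Vs 1 n x.2 := by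
  intro x hx hx0
  obtain ⟨α, F, τ, hs, hxv, hF0⟩ := m08_er_mem σ x hx hx0
  subst hs
  have hFp := hσ.pos F (by simp)
  have hanti := hσ.anti
  rw [List.pairwise_append, List.pairwise_cons] at hanti
  obtain ⟨hα, ⟨hFτ, hτ⟩, hατ⟩ := hanti
  have hsum := hσ.sum
  by_cases h1 : F.1 = 1
  · have hF := hσ.one F (by simp) h1
    rw [if_pos h1] at hxv
    rw [hxv]
    refine ⟨?_, ?_, ?_, ?_, ?_, ?_⟩
    · simp only [sz, List.map_append, List.map_cons, List.sum_append, List.sum_cons] at hsum ⊢
      rw [hF] at hsum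
      dsimp only at hsum
      omega
    · rw [List.pairwise_append]
      exact ⟨hα, hτ, fun a ha b hb' => hατ a ha b (List.mem_cons_of_mem _ hb')⟩
    · intro G hG
      refine hσ.pos G ?_
      rw [List.mem_append] at hG ⊢
      exact hG.imp id (List.mem_cons_of_mem _)
    · intro G hG
      refine hσ.one G ?_
      rw [List.mem_append] at hG ⊢
      exact hG.imp id (List.mem_cons_of_mem _)
    · intro G hG
      refine hσ.big G ?_
      rw [List.mem_append] at hG ⊢
      exact hG.imp id (List.mem_cons_of_mem _)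
    · intro h0
      exact absurd h0 one_ne_zero
  · have hF2 : 2 ≤ F.1 := by omega
    have hFb := hb F (by simp) hF2
    rw [if_neg h1] at hxv
    rw [hxv]
    refine ⟨?_, ?_, ?_, ?_, ?_, ?_⟩
    · simp only [sz, List.map_append, List.map_cons, List.sum_append, List.sum_cons] at hsum ⊢
      omega
    · rw [List.pairwise_append, List.pairwise_cons]
      refine ⟨hα, ⟨hFτ, hτ⟩, fun a ha b hb' => ?_⟩
      rcases List.mem_cons.1 hb' with rfl | hb'
      · exact hατ a ha F (by simp)
      · exact hατ a ha b (List.mem_cons_of_mem _ hb')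
    · intro G hG
      rcases List.mem_append.1 hG with hG | hG
      · exact hσ.pos G (by simp [hG])
      · rcases List.mem_cons.1 hG with rfl | hG
        · dsimp only
          omega
        · exact hσ.pos G (by simp [hG])
    · intro G hG hG1
      rcases List.mem_append.1 hG with hG | hG
      · exact hσ.one G (by simp [hG]) hG1
      · rcases List.mem_cons.1 hG with rfl | hG
        · exact absurd hG1 h1
        · exact hσ.one G (by simp [hG]) hG1
    · intro G hG hG2
      rcases List.mem_append.1 hG with hG | hG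
      · exact hσ.big G (by simp [hG]) hG2
      · rcases List.mem_cons.1 hG with rfl | hG
        · dsimp only
          omega
        · exact hσ.big G (by simp [hG]) hG2
    · intro h0
      exact absurd h0 one_ne_zero

/-- Commutation of the erasure of a leaf with a step.  Both sides are sums over pairs (hit letter or
append, leaf different from the hit letter); if the new letter is an append it is a leaf itself:
this gives `f σ`.  Induction over `σ` generalizing `f`, with `wsum_suc_cons` and the value of `Er f`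
on `F :: τ` and on `glue3 F ρ`. -/
theorem er_suc (n : ℕ) (σ : S3) (hσ : Vs 1 n σ) (f : S3 → ℝ) :
    wsum (suc 1 σ) (fun _ ρ => Er f ρ) =
      Er (fun ρ => wsum (suc 1 ρ) fun _ τ => f τ) σ + f σ := by
  induction σ generalizing n f with
  | nil =>
    simp [suc, wsum_cons, wsum_nil, m08_Er_cons, m08_Er_nil]
  | cons F τ ih =>
    have hτ := m08_tail hσ
    have hFp := hσ.pos F (by simp)
    have hFl : F.2.2 ≤ F.2.1 := by
      rcases Nat.lt_or_ge F.1 2 with h | h
      · have : F = (1, 1, 1) := hσ.one F (by simp) (by omega)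
        rw [this]
      · exact (hσ.big F (by simp) h).le
    have hF1 : F.1 = 1 → F = (1, 1, 1) := fun h => hσ.one F (by simp) h
    have hglue : glue3 F τ = F :: τ := by
      apply m08_glue_ne
      intro G ρ' hG
      have := (List.pairwise_cons.1 hσ.anti).1 G (by simp [hG])
      omega
    have ih' := ih (sz τ) hτ (fun ρ => f (glue3 F ρ))
    rw [hglue] at ih'
    have key : wsum (suc 1 τ) (fun _ ρ => Er f (glue3 F ρ)) =
        (F.2.2 : ℝ) * wsum (suc 1 τ) (fun _ ρ =>
          f (if F.1 = 1 then ρ else glue3 (F.1, F.2.1 - 1, F.2.2 - 1) ρ)) +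
        wsum (suc 1 τ) (fun _ ρ => Er (fun x => f (glue3 F x)) ρ) := by
      rw [← wsum_mul, ← wsum_add]
      refine wsum_congr _ _ _ fun x hx hx0 => ?_
      exact m08_point f F hFp.1 hFl hF1 x.2.2 (suc_vs 1 _ le_rfl τ hτ x hx hx0)
    rw [wsum_suc_cons, key, ih', m08_Er_cons]
    have hE : Er (fun ρ => wsum (suc 1 (F :: ρ)) fun _ τ => f τ) τ =
        (F.2.2 : ℝ) * Er (fun ρ => f ((F.1 + 1, F.2.1 + 1, F.2.2 - 1) :: ρ)) τ +
        ((F.2.1 - F.2.2 : ℕ) : ℝ) * Er (fun ρ => f ((F.1 + 1, F.2.1 + 1, F.2.2) :: ρ)) τ +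
        Er (fun ρ => wsum (suc 1 ρ) fun _ x => f (glue3 F x)) τ := by
      rw [← m08_Er_mul, ← m08_Er_mul, ← m08_Er_add, ← m08_Er_add]
      refine m08_Er_congr _ _ _ fun x _ => ?_
      rw [wsum_suc_cons]
    rw [m08_Er_cons, m08_Er_cons (fun ρ => wsum (suc 1 ρ) fun _ τ => f τ) F τ, hE]
    have hne1 : ¬ F.1 + 1 = 1 := by omega
    simp only [hne1, if_false]
    by_cases hD : F.1 = 1
    · have hF := hF1 hD
      subst hF
      simp
      ring
    · simp only [hD, if_false]
      rw [wsum_suc_cons]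
      dsimp only
      by_cases hl0 : F.2.2 = 0
      · simp [hl0]
        ring
      · have e1 : F.2.1 - 1 + 1 = F.2.1 + 1 - 1 := by omega
        have e2 : F.2.1 - 1 - (F.2.2 - 1) = F.2.1 - F.2.2 := by omega
        rw [e1, e2]
        ring

/-- Induction over `n` with `er_suc` and `EM_succ` (generalizing `f`). -/
theorem EM_Er (n : ℕ) (f : S3 → ℝ) : EM (n + 1) (Er f) = EM n f := by
  induction n generalizing f with
  | zero =>
    rw [EM_succ]
    simp [EM, PS_zero, hd, suc, wsum_cons, wsum_nil, m08_Er_cons, m08_Er_nil]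
  | succ n ih =>
    rw [EM_succ, EM_congr (n + 1) _ _ fun σ hσ => er_suc (n + 1) σ hσ f, EM_add, ih,
      EM_succ n f]
    have h1 : ((n : ℝ) + 1) ≠ 0 := by positivity
    have h2 : (((n + 1 : ℕ) : ℝ) + 1) ≠ 0 := by positivity
    push_cast
    push_cast at h2
    field_simp

/-- From `EM_Er`: `(n + 1 - m) EM (n+1) f = EM n f`. -/
theorem leaf_lemma (f : S3 → ℝ) (m : ℕ)
    (hf : ∀ n σ, m ≤ n → Vs 1 n σ → Er f σ = ((n : ℝ) - m) * f σ) (n : ℕ) (hn : m ≤ n) :
    EM n f = EM m f * fi (n - m) := by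
  induction n, hn using Nat.le_induction with
  | base => simp [fi]
  | succ n hn ih =>
    have h1 : EM (n + 1) (Er f) = (((n + 1 : ℕ) : ℝ) - m) * EM (n + 1) f := by
      rw [EM_congr (n + 1) _ _ fun σ hσ => hf (n + 1) σ (by omega) hσ, EM_mul]
    rw [EM_Er, ih] at h1
    have h2 : n + 1 - m = (n - m) + 1 := by omega
    have h3 : (((n + 1 : ℕ) : ℝ) - m) = ((n - m : ℕ) : ℝ) + 1 := by
      rw [Nat.cast_sub hn]; push_cast; ring
    rw [h3] at h1
    have h4 : (((n - m : ℕ) : ℝ) + 1) ≠ 0 := by positivity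
    rw [h2]
    unfold fi at h1 ⊢
    rw [Nat.factorial_succ]
    have h5 : (((n - m).factorial : ℕ) : ℝ) ≠ 0 := by positivity
    push_cast
    field_simp
    field_simp at h1
    linarith

end Pool.ADM
end

section

/-! job ADM-06: the last packet of `F`: histories. -/

set_option autoImplicit false

namespace Pool.ADM

open Finset

/-- last letter `X` -/
private def M06_X : List ℕ → ℕ → List ℕ → ℕ
  | [], _, _ => 0
  | h :: hs, D, ts => if D ≤ h then K3 hs D ts else 0

/-- last letter `V` -/
private def M06_V (hs : List ℕ) (D : ℕ) : List ℕ → ℕ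
  | [] => 0
  | t :: ts => if t ≤ D then K3 hs D ts else 0

/-- `K3` with no letters `P` -/
private def M06_e : List ℕ → ℕ
  | [] => 1
  | _ :: _ => 0

/-- last letter `V`, histories -/
private def M06_W (p : Pth) : List ℕ → ℕ
  | [] => 0
  | t :: ts => if t ≤ last3 (hd p) then N2 p ts else 0

private theorem M06_K3_zero (hs ts : List ℕ) : K3 hs 0 ts = M06_e ts := by
  induction hs with
  | nil => cases ts <;> simp [K3, M06_e]
  | cons h hs ih =>
    cases ts with
    | nil =>
      rw [K3]
      exact ih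
    | cons t ts => simp [K3, M06_e]

private theorem M06_K3_succ (hs : List ℕ) (D : ℕ) (ts : List ℕ) :
    K3 hs (D + 1) ts = M06_X hs (D + 1) ts + K3 hs D ts + M06_V hs (D + 1) ts := by
  cases hs with
  | nil =>
    cases ts with
    | nil => simp [K3, M06_X, M06_V]
    | cons t ts => rw [K3]; simp [M06_X, M06_V]
  | cons h hs =>
    cases ts with
    | nil => rw [K3]; simp [M06_X, M06_V]
    | cons t ts => rw [K3]; simp [M06_X, M06_V]

private theorem M06_N2_nil (p : Pth) : N2 p [] = 1 := by
  induction p with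
  | nil => simp [N2]
  | cons x p ih => rw [N2]; exact ih

private theorem M06_N2_cons (h : ℕ) (σ : S3) (p : Pth) (ts : List ℕ) :
    N2 ((h, σ) :: p) ts = (if h = 0 then M06_e ts else N2 p ts) + M06_W ((h, σ) :: p) ts := by
  cases ts with
  | nil => simp [M06_N2_nil, M06_e, M06_W]
  | cons t ts =>
    rw [N2]
    simp [M06_e, M06_W, hd]

/-- `WtD` is not changed by a letter `X` -/
private theorem M06_WtD (n : ℕ) (σ : S3) (hσ : Vs 0 n σ) (D : ℕ) (x : ℕ × ℕ × S3)
    (hx : x ∈ suc 0 σ) (hx0 : x.1 ≠ 0) (hD : D ≤ x.2.1) : WtD x.2.2 D = WtD σ D := by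
  unfold WtD
  refine Finset.prod_congr rfl fun q hq => ?_
  rw [Finset.mem_Ico] at hq
  rw [below_suc n σ hσ D q hq.2.le x hx hx0 hD]

private theorem M06_step (m D : ℕ) (hD : 1 ≤ D) (ts : List ℕ) (G : S3 → ℝ) :
    PS 0 m (fun χ => (WtD (hd χ) D : ℝ) * (K3 (hts χ) D ts : ℝ) * gna G (join (hd χ) D)) =
      PS 0 (m + 1) (fun χ => (WtD (hd χ) D : ℝ) * (M06_X (hts χ) D ts : ℝ) *
        G (join (hd χ) D)) +
      PS 0 m (fun χ => (WtD (hd χ) (D + 1) : ℝ) * (K3 (hts χ) D ts : ℝ) *
        G (join (hd χ) (D + 1))) := by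
  rw [PS_succ, ← PS_add]
  refine PS_congr 0 m _ _ fun p hp => ?_
  have hv := hp.vs (by norm_num : 0 ≤ 1)
  rw [join_suc m (hd p) hv D hD G, WtD_succ (hd p) D hD]
  have e1 : (wsum (suc 0 (hd p)) fun h σ => (WtD (hd ((h, σ) :: p)) D : ℝ) *
      (M06_X (hts ((h, σ) :: p)) D ts : ℝ) * G (join (hd ((h, σ) :: p)) D)) =
      wsum (suc 0 (hd p)) fun h σ => ((WtD (hd p) D : ℝ) * (K3 (hts p) D ts : ℝ)) *
        (if D ≤ h then G (join σ D) else 0) := by
    refine wsum_congr _ _ _ fun x hx hx0 => ?_
    have e2 : hts ((x.2.1, x.2.2) :: p) = x.2.1 :: hts p := rfl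
    have e3 : hd ((x.2.1, x.2.2) :: p) = x.2.2 := rfl
    rw [e2, e3]
    by_cases h : D ≤ x.2.1
    · rw [M06_WtD m (hd p) hv D x hx hx0 h]
      simp [M06_X, h]
    · simp [M06_X, h]
  rw [e1, wsum_mul]
  push_cast
  ring

private theorem M06_gna (p : Pth) (n : ℕ) (hv : Vs 0 n (hd p)) (G : S3 → ℝ) (a b : ℝ) :
    (wsum (suc 0 (hd p)) fun h σ => (if h = 0 then b else a) * G σ) =
      a * gna G (hd p) + b * G (hd p ++ [(1, 1, 0)]) := by
  have e1 : (wsum (suc 0 (hd p)) fun h σ => (if h = 0 then b else a) * G σ) =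
      wsum (suc 0 (hd p)) fun h σ => a * (if h = 0 then 0 else G σ) +
        b * (if h = 0 then G σ else 0) := by
    congr 1
    funext h σ
    split_ifs <;> ring
  rw [e1, wsum_add, wsum_mul, wsum_mul, suc_append 0 n (hd p) hv G]
  rfl

private theorem M06_zero (c n : ℕ) (f : Pth → ℝ) (h : ∀ p, f p = 0) : PS c n f = 0 := by
  have e : f = fun _ => (0 : ℝ) := funext h
  have e1 := PS_mul c n 0 (fun _ => (0 : ℝ))
  rw [e]
  simpa using e1

private theorem M06_sum_Icc (n : ℕ) (f : ℕ → ℝ) :
    ∑ D ∈ Icc 1 n, f D = ∑ d ∈ range n, f (d + 1) := by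
  rw [Finset.range_eq_Ico, Finset.sum_Ico_add' f 0 n 1]
  rfl

private theorem M06_main (N : ℕ) : ∀ (ts : List ℕ) (a : ℕ), 1 ≤ a → a + ts.length ≤ N →
    ∀ G : S3 → ℝ, PS 0 a (fun p => (N2 p ts : ℝ) * G (hd p)) =
      ∑ D ∈ Icc 1 a, PS 0 (a - D) fun χ =>
        (WtD (hd χ) D : ℝ) * (K3 (hts χ) D ts : ℝ) * G (join (hd χ) D) := by
  induction N with
  | zero =>
    intro ts a ha hN
    omega
  | succ N ih =>
    intro ts a ha hN G
    obtain ⟨a, rfl⟩ : ∃ b, a = b + 1 := ⟨a - 1, by omega⟩
    -- the last letter of the histories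
    have hL : PS 0 (a + 1) (fun p => (N2 p ts : ℝ) * G (hd p)) =
        PS 0 a (fun p => (N2 p ts : ℝ) * gna G (hd p)) +
        PS 0 a (fun p => (M06_e ts : ℝ) * G (hd p ++ [(1, 1, 0)])) +
        PS 0 (a + 1) (fun p => (M06_W p ts : ℝ) * G (hd p)) := by
      rw [PS_succ, PS_succ, ← PS_add, ← PS_add]
      refine PS_congr 0 a _ _ fun p hp => ?_
      have hv := hp.vs (by norm_num : 0 ≤ 1)
      rw [← M06_gna p a hv G, ← wsum_add]
      congr 1
      funext h σ
      have e3 : hd ((h, σ) :: p) = σ := rfl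
      rw [M06_N2_cons, e3]
      push_cast
      split_ifs <;> ring
    -- the sum over `D`
    have hR : (∑ D ∈ Icc 1 (a + 1), PS 0 (a + 1 - D) fun χ =>
        (WtD (hd χ) D : ℝ) * (K3 (hts χ) D ts : ℝ) * G (join (hd χ) D)) =
        (∑ d ∈ range a, PS 0 (a - (d + 1) + 1) fun χ =>
          (WtD (hd χ) (d + 1) : ℝ) * (M06_X (hts χ) (d + 1) ts : ℝ) *
            G (join (hd χ) (d + 1))) +
        ((∑ d ∈ range a, PS 0 (a - (d + 1)) fun χ =>
          (WtD (hd χ) (d + 1 + 1) : ℝ) * (K3 (hts χ) (d + 1) ts : ℝ) *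
            G (join (hd χ) (d + 1 + 1))) +
          PS 0 a (fun p => (M06_e ts : ℝ) * G (hd p ++ [(1, 1, 0)]))) +
        (∑ D ∈ Icc 1 (a + 1), PS 0 (a + 1 - D) fun χ =>
          (WtD (hd χ) D : ℝ) * (M06_V (hts χ) D ts : ℝ) * G (join (hd χ) D)) := by
      rw [M06_sum_Icc, M06_sum_Icc]
      have h1 : ∀ d ∈ range (a + 1), (PS 0 (a + 1 - (d + 1)) fun χ =>
          (WtD (hd χ) (d + 1) : ℝ) * (K3 (hts χ) (d + 1) ts : ℝ) * G (join (hd χ) (d + 1))) =
          (PS 0 (a - d) fun χ =>
            (WtD (hd χ) (d + 1) : ℝ) * (M06_X (hts χ) (d + 1) ts : ℝ) *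
              G (join (hd χ) (d + 1))) +
          (PS 0 (a - d) fun χ =>
            (WtD (hd χ) (d + 1) : ℝ) * (K3 (hts χ) d ts : ℝ) * G (join (hd χ) (d + 1))) +
          (PS 0 (a + 1 - (d + 1)) fun χ =>
            (WtD (hd χ) (d + 1) : ℝ) * (M06_V (hts χ) (d + 1) ts : ℝ) *
              G (join (hd χ) (d + 1))) := by
        intro d _
        have e : a + 1 - (d + 1) = a - d := by omega
        rw [e, ← PS_add, ← PS_add]
        congr 1
        funext χ
        rw [M06_K3_succ]
        push_cast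
        ring
      rw [Finset.sum_congr rfl h1, Finset.sum_add_distrib, Finset.sum_add_distrib]
      congr 1
      congr 1
      · rw [Finset.sum_range_succ]
        have h2 : (PS 0 (a - a) fun χ =>
            (WtD (hd χ) (a + 1) : ℝ) * (M06_X (hts χ) (a + 1) ts : ℝ) *
              G (join (hd χ) (a + 1))) = 0 := by
          rw [Nat.sub_self, PS_zero]
          have e : hts [] = [] := rfl
          rw [e]
          simp [M06_X]
        rw [h2, add_zero]
        refine Finset.sum_congr rfl fun d hd => ?_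
        rw [Finset.mem_range] at hd
        have e : a - (d + 1) + 1 = a - d := by omega
        rw [e]
      · rw [Finset.sum_range_succ']
        congr 1
        rw [Nat.sub_zero]
        refine PS_congr 0 a _ _ fun p hp => ?_
        have hv := hp.vs (by norm_num : 0 ≤ 1)
        rw [M06_K3_zero, zero_add, join_one a (hd p) hv]
        have e : WtD (hd p) 1 = 1 := by simp [WtD]
        rw [e]
        push_cast
        ring
    -- letters which are no append
    have h1 : PS 0 a (fun p => (N2 p ts : ℝ) * gna G (hd p)) =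
        (∑ d ∈ range a, PS 0 (a - (d + 1) + 1) fun χ =>
          (WtD (hd χ) (d + 1) : ℝ) * (M06_X (hts χ) (d + 1) ts : ℝ) *
            G (join (hd χ) (d + 1))) +
        (∑ d ∈ range a, PS 0 (a - (d + 1)) fun χ =>
          (WtD (hd χ) (d + 1 + 1) : ℝ) * (K3 (hts χ) (d + 1) ts : ℝ) *
            G (join (hd χ) (d + 1 + 1))) := by
      rw [← Finset.sum_add_distrib]
      have e1 : ∀ d ∈ range a, ((PS 0 (a - (d + 1) + 1) fun χ =>
          (WtD (hd χ) (d + 1) : ℝ) * (M06_X (hts χ) (d + 1) ts : ℝ) *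
            G (join (hd χ) (d + 1))) +
          (PS 0 (a - (d + 1)) fun χ =>
          (WtD (hd χ) (d + 1 + 1) : ℝ) * (K3 (hts χ) (d + 1) ts : ℝ) *
            G (join (hd χ) (d + 1 + 1)))) = (PS 0 (a - (d + 1)) fun χ =>
          (WtD (hd χ) (d + 1) : ℝ) * (K3 (hts χ) (d + 1) ts : ℝ) *
            gna G (join (hd χ) (d + 1))) := fun d _ =>
        (M06_step (a - (d + 1)) (d + 1) (by omega) ts G).symm
      rw [Finset.sum_congr rfl e1]
      rcases Nat.eq_zero_or_pos a with rfl | ha
      · rw [Finset.range_zero, Finset.sum_empty, PS_zero]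
        have e2 : hd [] = [] := rfl
        rw [e2]
        simp [gna, suc, wsum]
      · rw [ih ts a ha (by omega) (gna G), M06_sum_Icc]
    -- last letter `V`
    have h2 : PS 0 (a + 1) (fun p => (M06_W p ts : ℝ) * G (hd p)) =
        (∑ D ∈ Icc 1 (a + 1), PS 0 (a + 1 - D) fun χ =>
          (WtD (hd χ) D : ℝ) * (M06_V (hts χ) D ts : ℝ) * G (join (hd χ) D)) := by
      cases ts with
      | nil =>
        have e1 : ∀ D ∈ Icc 1 (a + 1), (PS 0 (a + 1 - D) fun χ =>
            (WtD (hd χ) D : ℝ) * (M06_V (hts χ) D [] : ℝ) * G (join (hd χ) D)) = 0 := by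
          intro D _
          refine M06_zero _ _ _ fun p => ?_
          simp [M06_V]
        rw [Finset.sum_congr rfl e1, Finset.sum_const_zero]
        refine M06_zero _ _ _ fun p => ?_
        simp [M06_W]
      | cons t ts =>
        have e1 : (fun p => (M06_W p (t :: ts) : ℝ) * G (hd p)) =
            fun p => (N2 p ts : ℝ) * (fun σ => if t ≤ last3 σ then G σ else 0) (hd p) := by
          funext p
          by_cases h : t ≤ last3 (hd p)
          · simp [M06_W, h]
          · simp [M06_W, h]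
        rw [e1, ih ts (a + 1) (by omega) (by simp only [List.length_cons] at hN; omega)
          (fun σ => if t ≤ last3 σ then G σ else 0)]
        refine Finset.sum_congr rfl fun D _ => ?_
        congr 1
        funext χ
        rw [(join_last (hd χ) D).1]
        by_cases h : t ≤ D
        · simp [M06_V, h]
        · simp [M06_V, h]
    rw [hL, hR, h1, h2]
    ring

/-- Induction over `a + ts.length`.  `N2` by its last letter.
* last letter `F`: if `ts = []` split the successors in hits and appends (`suc_append`), if `ts` is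
  nonempty only the hits count (`gna`); induction hypothesis for `(a-1, ts, gna G)`, then `join_suc`:
  the first part is a last letter `X` (`K3` needs `D ≤ h`; `WtD` does not change, `below_suc`), the
  second part a last letter `P` (`WtD_succ`).  The append is the term `D = 1`, last letter `P`:
  `K3 hs 0 [] = 1`, `join σ 1 = σ ++ [(1,1,0)]` (`join_one`).
* last letter `V` with top `t`: induction hypothesis for
  `(a, ts', fun σ => if t ≤ last3 σ then G σ else 0)`, and `last3 (join σ D) = D`. -/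
theorem fd_path (ts : List ℕ) (h1 : ∀ t ∈ ts, 1 ≤ t) (a : ℕ) (ha : 1 ≤ a) (G : S3 → ℝ) :
    PS 0 a (fun p => (N2 p ts : ℝ) * G (hd p)) =
      ∑ D ∈ Icc 1 a, PS 0 (a - D) fun χ =>
        (WtD (hd χ) D : ℝ) * (K3 (hts χ) D ts : ℝ) * G (join (hd χ) D) :=
  M06_main (a + ts.length) ts a ha le_rfl G

end Pool.ADM
end

section

/-! job ADM-09a: the core functionals count configurations without unmarked leaves.

`c0 D a b x σ` is the number of (cut `F | B | O`, marks `m₁` in the last packet of `B`, `m₂` in `B`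
or the extra slot) such that, after the erasure of the `n - (a + b + x)` unmarked leaves (all the
leaves of `F` and `O`), `F, B, O` have `a, b, x` letters.  Therefore the sum over the erased leaves
multiplies it by that number.  For `D = 2` the packets of `B` and `O` are singles `(1,1,1)`:
compute directly (`V` is a list of `k` singles, the sum over the cuts of `V` of the `ym`-terms is
`2 k` for `b = 1`, `k (k-1) / 2` for `b = 2`, and `0` otherwise, with `x = 0`). -/

set_option autoImplicit false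

namespace Pool.ADM

open Finset

private theorem M09a_Er_nil (f : S3 → ℝ) : Er f [] = 0 := by simp [Er, er]

private theorem M09a_Er_cons (f : S3 → ℝ) (a : ℕ × ℕ × ℕ) (τ : S3) :
    Er f (a :: τ) = (a.2.2 : ℝ) * f (if a.1 = 1 then τ else (a.1, a.2.1 - 1, a.2.2 - 1) :: τ) +
      Er (fun ρ => f (a :: ρ)) τ := by
  simp [Er, er, List.map_map, Function.comp_def]

private theorem M09a_Er_add (f g : S3 → ℝ) (σ : S3) :
    Er (fun ρ => f ρ + g ρ) σ = Er f σ + Er g σ := by
  simp only [Er, mul_add]
  rw [List.sum_map_add]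

private theorem M09a_Er_mul (c : ℝ) (f : S3 → ℝ) (σ : S3) :
    Er (fun ρ => c * f ρ) σ = c * Er f σ := by
  simp only [Er]
  rw [← List.sum_map_mul_left]
  congr 1
  apply List.map_congr_left
  intro x _
  ring

private theorem M09a_cutS_add (σ : S3) (G H : S3 → S3 → ℝ) :
    cutS σ (fun F V => G F V + H F V) = cutS σ G + cutS σ H := by
  induction σ generalizing G H with
  | nil => rfl
  | cons a τ ih =>
    simp only [cutS]
    rw [ih (fun B O => G (a :: B) O) (fun B O => H (a :: B) O)]
    ring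

private theorem M09a_cutS_mul (σ : S3) (c : ℝ) (G : S3 → S3 → ℝ) :
    cutS σ (fun F V => c * G F V) = c * cutS σ G := by
  induction σ generalizing G with
  | nil => rfl
  | cons a τ ih =>
    simp only [cutS]
    rw [ih (fun B O => G (a :: B) O)]
    ring

private theorem M09a_cutS_zero (σ : S3) (G : S3 → S3 → ℝ) (h : ∀ F V, F ++ V = σ → G F V = 0) :
    cutS σ G = 0 := by
  induction σ generalizing G with
  | nil => exact h [] [] rfl
  | cons a τ ih =>
    simp only [cutS]
    rw [h [] (a :: τ) rfl, ih (fun B O => G (a :: B) O) (fun F V hFV => h (a :: F) V (by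
      rw [List.cons_append, hFV])), add_zero]

/-- erasures in `F ++ V` -/
theorem Er_append (f : S3 → ℝ) (F V : S3) :
    Er f (F ++ V) = Er (fun F' => f (F' ++ V)) F + Er (fun V' => f (F ++ V')) V := by
  induction F generalizing f with
  | nil => simp [M09a_Er_nil]
  | cons a F ih =>
    rw [List.cons_append, M09a_Er_cons, M09a_Er_cons, ih (fun ρ => f (a :: ρ))]
    simp only [List.cons_append]
    by_cases h : a.1 = 1
    · simp only [h, if_true]; ring
    · simp only [h, if_false, List.cons_append]; ring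

private theorem M09a_cut_aux (D : ℕ) (hD : 2 ≤ D) (σ : S3) (hσ : σ.Pairwise fun F G => G.1 ≤ F.1)
    (P Q : S3 → ℝ) (hP : ∀ F, ¬ (∀ q ∈ F, q.1 = D) → P F = 0) :
    Er (fun ρ => cutS ρ fun F V => P F * Q V) σ =
      cutS σ fun F V => (if ∀ q ∈ F, q.1 = D then Er P F else 0) * Q V + P F * Er Q V := by
  induction σ generalizing P with
  | nil => simp [M09a_Er_nil, cutS]
  | cons a τ ih =>
    obtain ⟨h1, h2⟩ := List.pairwise_cons.1 hσ
    have key : ∀ ρ, (cutS (a :: ρ) fun F V => P F * Q V) =
        P [] * Q (a :: ρ) + cutS ρ (fun B O => P (a :: B) * Q O) := fun ρ => rfl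
    rw [M09a_Er_cons]
    simp only [key]
    rw [M09a_Er_add, M09a_Er_mul]
    by_cases ha : a.1 = D
    · have ha1 : a.1 ≠ 1 := by omega
      have hP' : ∀ F, ¬ (∀ q ∈ F, q.1 = D) → P (a :: F) = 0 := by
        intro F hF
        apply hP
        intro hc
        exact hF fun q hq => hc q (List.mem_cons_of_mem _ hq)
      rw [ih h2 (fun B => P (a :: B)) hP']
      simp only [ha1, if_false]
      rw [show (cutS ((a.1, a.2.1 - 1, a.2.2 - 1) :: τ) fun F V => P F * Q V) =
        P [] * Q ((a.1, a.2.1 - 1, a.2.2 - 1) :: τ) +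
          cutS τ (fun B O => P ((a.1, a.2.1 - 1, a.2.2 - 1) :: B) * Q O) from rfl]
      rw [show (cutS (a :: τ) fun F V =>
          (if ∀ q ∈ F, q.1 = D then Er P F else 0) * Q V + P F * Er Q V) =
          ((if ∀ q ∈ ([] : S3), q.1 = D then Er P [] else 0) * Q (a :: τ) + P [] * Er Q (a :: τ)) +
          cutS τ (fun B O => (if ∀ q ∈ a :: B, q.1 = D then Er P (a :: B) else 0) * Q O +
            P (a :: B) * Er Q O) from rfl]
      rw [M09a_Er_nil, M09a_Er_cons Q a τ]
      simp only [ha1, if_false]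
      have h3 : (fun B O : S3 => (if ∀ q ∈ a :: B, q.1 = D then Er P (a :: B) else 0) * Q O +
          P (a :: B) * Er Q O) = fun B O =>
          ((a.2.2 : ℝ) * (P ((a.1, a.2.1 - 1, a.2.2 - 1) :: B) * Q O)) +
          ((if ∀ q ∈ B, q.1 = D then Er (fun B => P (a :: B)) B else 0) * Q O +
            P (a :: B) * Er Q O) := by
        funext B O
        by_cases hB : ∀ q ∈ B, q.1 = D
        · have hB' : ∀ q ∈ a :: B, q.1 = D := by
            intro q hq
            rcases List.mem_cons.1 hq with h | h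
            · rw [h]; exact ha
            · exact hB q h
          rw [if_pos hB', if_pos hB, M09a_Er_cons]
          simp only [ha1, if_false]
          ring
        · have hB' : ¬ ∀ q ∈ a :: B, q.1 = D := fun h => hB fun q hq =>
            h q (List.mem_cons_of_mem _ hq)
          have hB'' : ¬ ∀ q ∈ (a.1, a.2.1 - 1, a.2.2 - 1) :: B, q.1 = D := fun h => hB fun q hq =>
            h q (List.mem_cons_of_mem _ hq)
          rw [if_neg hB', if_neg hB, hP _ hB'']
          ring
      have h4 : cutS τ (fun B O => (if ∀ q ∈ a :: B, q.1 = D then Er P (a :: B) else 0) * Q O +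
          P (a :: B) * Er Q O) = (a.2.2 : ℝ) *
            cutS τ (fun B O => P ((a.1, a.2.1 - 1, a.2.2 - 1) :: B) * Q O) +
          cutS τ (fun B O => (if ∀ q ∈ B, q.1 = D then Er (fun B => P (a :: B)) B else 0) * Q O +
            P (a :: B) * Er Q O) := by
        rw [h3, M09a_cutS_add, M09a_cutS_mul]
      rw [h4]
      have h5 : (if ∀ q ∈ ([] : S3), q.1 = D then (0 : ℝ) else 0) = 0 := by simp
      rw [h5]
      ring
    · have hP0 : ∀ B, P (a :: B) = 0 := fun B => hP _ fun h => ha (h a List.mem_cons_self)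
      have hP1 : ∀ B, P ((a.1, a.2.1 - 1, a.2.2 - 1) :: B) = 0 := fun B =>
        hP _ fun h => ha (h (a.1, a.2.1 - 1, a.2.2 - 1) List.mem_cons_self)
      have e1 : ∀ ρ, cutS ρ (fun B O => P (a :: B) * Q O) = 0 := fun ρ =>
        M09a_cutS_zero _ _ fun F V _ => by rw [hP0, zero_mul]
      have e2 : cutS τ (fun B O => (if ∀ q ∈ a :: B, q.1 = D then Er P (a :: B) else 0) * Q O +
            P (a :: B) * Er Q O) = 0 := by
        apply M09a_cutS_zero
        intro F V _
        rw [hP0, if_neg (fun h => ha (h a List.mem_cons_self))]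
        ring
      have e3 : Er (fun ρ => cutS ρ (fun B O => P (a :: B) * Q O)) τ = 0 := by
        rw [show (fun ρ => cutS ρ (fun B O => P (a :: B) * Q O)) = fun _ => (0 : ℝ) from
          funext e1]
        simp [Er]
      rw [e3]
      rw [show (cutS (a :: τ) fun F V =>
          (if ∀ q ∈ F, q.1 = D then Er P F else 0) * Q V + P F * Er Q V) =
          ((if ∀ q ∈ ([] : S3), q.1 = D then Er P [] else 0) * Q (a :: τ) + P [] * Er Q (a :: τ)) +
          cutS τ (fun B O => (if ∀ q ∈ a :: B, q.1 = D then Er P (a :: B) else 0) * Q O +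
            P (a :: B) * Er Q O) from rfl]
      rw [e2, M09a_Er_nil, M09a_Er_cons Q a τ]
      by_cases ha1 : a.1 = 1
      · simp only [ha1, if_true]
        have e4 : (cutS τ fun F V => P F * Q V) = P [] * Q τ := by
          cases τ with
          | nil => rfl
          | cons b υ =>
            rw [show (cutS (b :: υ) fun F V => P F * Q V) = P [] * Q (b :: υ) +
              cutS υ (fun B O => P (b :: B) * Q O) from rfl]
            rw [M09a_cutS_zero, add_zero]
            intro F V _
            rw [hP, zero_mul]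
            intro h
            have h4 := h b List.mem_cons_self
            have h5 := h1 b List.mem_cons_self
            omega
        rw [e4]
        simp
        ring
      · simp only [ha1, if_false]
        rw [show (cutS ((a.1, a.2.1 - 1, a.2.2 - 1) :: τ) fun F V => P F * Q V) =
          P [] * Q ((a.1, a.2.1 - 1, a.2.2 - 1) :: τ) +
            cutS τ (fun B O => P ((a.1, a.2.1 - 1, a.2.2 - 1) :: B) * Q O) from rfl]
        rw [M09a_cutS_zero τ _ (fun F V _ => by rw [hP1, zero_mul])]
        simp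
        ring

/-- Leibniz rule for a sum over cuts in `F` (all packets of level `D ≥ 2`, so no packet vanishes)
and `V`.  (`F` must have all its packets on level `D`: if the last packet of `F` is a single, then
its erasure may give a list of level `D`.) -/
theorem Er_cut (n : ℕ) (σ : S3) (hσ : Vs 1 n σ) (D : ℕ) (hD : 2 ≤ D) (P Q : S3 → ℝ)
    (hP : ∀ F, ¬ AL D F → P F = 0) :
    Er (fun ρ => cutS ρ fun F V => P F * Q V) σ =
      cutS σ fun F V => (if AL D F then Er P F else 0) * Q V + P F * Er Q V := by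
  rw [M09a_cut_aux D hD σ hσ.anti P Q (fun F hF => hP F fun h => hF h.2)]
  congr 1
  funext F V
  by_cases hF : F = []
  · subst hF
    simp [M09a_Er_nil, AL]
  · have hAL : AL D F ↔ ∀ q ∈ F, q.1 = D := ⟨fun h => h.2, fun h => ⟨hF, h⟩⟩
    simp only [hAL]

end Pool.ADM
end

section

/-! job ADM-09b: the core functionals count configurations without unmarked leaves.

`c0 D a b x σ` is the number of (cut `F | B | O`, marks `m₁` in the last packet of `B`, `m₂` in `B`
or the extra slot) such that, after the erasure of the `n - (a + b + x)` unmarked leaves (all the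
leaves of `F` and `O`), `F, B, O` have `a, b, x` letters.  Therefore the sum over the erased leaves
multiplies it by that number.  For `D = 2` the packets of `B` and `O` are singles `(1,1,1)`:
compute directly (`V` is a list of `k` singles, the sum over the cuts of `V` of the `ym`-terms is
`2 k` for `b = 1`, `k (k-1) / 2` for `b = 2`, and `0` otherwise, with `x = 0`). -/

set_option autoImplicit false

namespace Pool.ADM

open Finset

/-- the `B | O` part -/
noncomputable def ups (D' b x : ℕ) (V : S3) : ℝ :=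
  cutS V fun B O => if AL D' B ∧ b ≤ sz B ∧ sz O = x + lf O then (ym B (sz B - b) : ℝ) else 0

private theorem M09b_Er_nil (f : S3 → ℝ) : Er f [] = 0 := by simp [Er, er]

private theorem M09b_Er_cons (f : S3 → ℝ) (a : ℕ × ℕ × ℕ) (τ : S3) :
    Er f (a :: τ) = (a.2.2 : ℝ) * f (if a.1 = 1 then τ else (a.1, a.2.1 - 1, a.2.2 - 1) :: τ) +
      Er (fun ρ => f (a :: ρ)) τ := by
  simp [Er, er, List.map_map, Function.comp_def]

private theorem M09b_cutS_congr (σ : S3) (G H : S3 → S3 → ℝ)
    (h : ∀ B O, B ++ O = σ → G B O = H B O) : cutS σ G = cutS σ H := by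
  induction σ generalizing G H with
  | nil => exact h [] [] rfl
  | cons a τ ih =>
    simp only [cutS]
    rw [h [] (a :: τ) rfl, ih (fun B O => G (a :: B) O) (fun B O => H (a :: B) O)
      (fun B O hBO => h (a :: B) O (by rw [List.cons_append, hBO]))]

private theorem M09b_cutS_mul (σ : S3) (c : ℝ) (G : S3 → S3 → ℝ) :
    cutS σ (fun F V => c * G F V) = c * cutS σ G := by
  induction σ generalizing G with
  | nil => rfl
  | cons a τ ih =>
    simp only [cutS]
    rw [ih (fun B O => G (a :: B) O)]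
    ring

private theorem M09b_cutS_zero (σ : S3) (G : S3 → S3 → ℝ) (h : ∀ F V, F ++ V = σ → G F V = 0) :
    cutS σ G = 0 := by
  induction σ generalizing G with
  | nil => exact h [] [] rfl
  | cons a τ ih =>
    simp only [cutS]
    rw [h [] (a :: τ) rfl, ih (fun B O => G (a :: B) O) (fun F V hFV => h (a :: F) V (by
      rw [List.cons_append, hFV])), add_zero]

private theorem M09b_sz_append (B O : S3) : sz (B ++ O) = sz B + sz O := by simp [sz]

private theorem M09b_lf_append (B O : S3) : lf (B ++ O) = lf B + lf O := by simp [lf]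

private theorem M09b_sz_cons (a : ℕ × ℕ × ℕ) (O : S3) : sz (a :: O) = a.2.1 + sz O := by simp [sz]

private theorem M09b_lf_cons (a : ℕ × ℕ × ℕ) (O : S3) : lf (a :: O) = a.2.2 + lf O := by simp [lf]

/-- admissible packets -/
private def M09b_ok (σ : S3) : Prop := ∀ q ∈ σ, q.2.2 ≤ q.2.1 ∧ (q.1 = 1 → q = (1, 1, 1))

private theorem M09b_ok_cons {a : ℕ × ℕ × ℕ} {τ : S3} (h : M09b_ok (a :: τ)) :
    (a.2.2 ≤ a.2.1 ∧ (a.1 = 1 → a = (1, 1, 1))) ∧ M09b_ok τ :=
  ⟨h a List.mem_cons_self, fun q hq => h q (List.mem_cons_of_mem _ hq)⟩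

private theorem M09b_er_mem (σ : S3) (hσ : M09b_ok σ) : ∀ x ∈ er σ, x.1 ≠ 0 →
    sz x.2 + 1 = sz σ ∧ lf x.2 + 1 = lf σ ∧
      (∀ D, 2 ≤ D → (∀ q ∈ σ, q.1 = D) → ∀ q ∈ x.2, q.1 = D) := by
  induction σ with
  | nil => intro x hx; simp [er] at hx
  | cons a τ ih =>
    obtain ⟨⟨h1, h2⟩, h3⟩ := M09b_ok_cons hσ
    intro x hx hx0
    rw [er, List.mem_cons, List.mem_map] at hx
    rcases hx with rfl | ⟨y, hy, rfl⟩
    · dsimp only at hx0 ⊢
      by_cases ha : a.1 = 1
      · rw [if_pos ha]
        have ha' := h2 ha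
        refine ⟨?_, ?_, ?_⟩
        · rw [M09b_sz_cons, ha']; simp only []; omega
        · rw [M09b_lf_cons, ha']; simp only []; omega
        · intro D _ hall q hq
          exact hall q (List.mem_cons_of_mem _ hq)
      · rw [if_neg ha]
        refine ⟨?_, ?_, ?_⟩
        · rw [M09b_sz_cons, M09b_sz_cons]; dsimp only; omega
        · rw [M09b_lf_cons, M09b_lf_cons]; dsimp only; omega
        · intro D _ hall q hq
          rcases List.mem_cons.1 hq with h | h
          · rw [h]; exact hall a List.mem_cons_self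
          · exact hall q (List.mem_cons_of_mem _ h)
    · obtain ⟨e1, e2, e3⟩ := ih h3 y hy hx0
      dsimp only
      refine ⟨?_, ?_, ?_⟩
      · rw [M09b_sz_cons, M09b_sz_cons]; omega
      · rw [M09b_lf_cons, M09b_lf_cons]; omega
      · intro D hD hall q hq
        rcases List.mem_cons.1 hq with h | h
        · rw [h]; exact hall a List.mem_cons_self
        · exact e3 D hD (fun r hr => hall r (List.mem_cons_of_mem _ hr)) q h

private theorem M09b_Er_const (σ : S3) (f : S3 → ℝ) (K : ℝ)
    (h : ∀ x ∈ er σ, x.1 ≠ 0 → f x.2 = K) : Er f σ = (lf σ : ℝ) * K := by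
  induction σ generalizing f with
  | nil => simp [M09b_Er_nil, lf]
  | cons a τ ih =>
    rw [M09b_Er_cons, M09b_lf_cons, ih (fun ρ => f (a :: ρ)) (fun x hx hx0 => by
      have := h (x.1, a :: x.2) (by
        rw [er, List.mem_cons, List.mem_map]; exact Or.inr ⟨x, hx, rfl⟩) hx0
      exact this)]
    by_cases ha : a.2.2 = 0
    · rw [ha]; push_cast; ring
    · rw [h (a.2.2, if a.1 = 1 then τ else (a.1, a.2.1 - 1, a.2.2 - 1) :: τ) (by
        rw [er]; exact List.mem_cons_self) ha]
      push_cast; ring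

private theorem M09b_ErO (τ : S3) (hτ : M09b_ok τ) (x : ℕ) :
    Er (fun O => if sz O = x + lf O then (1 : ℝ) else 0) τ =
      (lf τ : ℝ) * if sz τ = x + lf τ then (1 : ℝ) else 0 := by
  apply M09b_Er_const
  intro y hy hy0
  obtain ⟨e1, e2, _⟩ := M09b_er_mem τ hτ y hy hy0
  have : (sz y.2 = x + lf y.2) ↔ (sz τ = x + lf τ) := by omega
  simp only [this]

private theorem M09b_ykx (l p u d r : ℕ) : yk (l + p) l (u + d) u r =
    (if r = u then p * (d + 1) else 0) + (if r + 1 = u then l * (d + 2) + p * u else 0) +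
      (if r + 2 = u then l * (u - 1) else 0) := by
  simp only [yk, Nat.add_sub_cancel_left]

private theorem M09b_yky (l p u d r : ℕ) :
    (l : ℝ) * (yk (l - 1 + p) (l - 1) (u + d) u r : ℝ) +
      ((u : ℝ) + 1 - l) * (yk (l + p) l (u + d) u r : ℝ) =
      ((r : ℝ) + 1) * (yk (l + p) l (u + 1 + d) (u + 1) (r + 1) : ℝ) := by
  rw [M09b_ykx, M09b_ykx, M09b_ykx]
  by_cases c1 : r = u
  · subst c1
    have c2 : ¬ (r + 1 = r) := by omega
    have c3 : ¬ (r + 2 = r) := by omega
    have c4 : ¬ (r + 1 + 1 = r + 1) := by omega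
    have c5 : ¬ (r + 1 + 2 = r + 1) := by omega
    simp only [c2, c3, c4, c5, if_true, if_false]
    push_cast
    ring
  · by_cases c2 : r + 1 = u
    · subst c2
      have c3 : ¬ (r + 2 = r + 1) := by omega
      have c5 : ¬ (r + 1 + 2 = r + 1 + 1) := by omega
      have c6 : ¬ (r + 1 = r + 1 + 1) := by omega
      have c7 : ¬ (r = r + 1) := by omega
      simp only [c3, c5, c6, c7, if_true, if_false]
      rcases l with _ | l
      · push_cast
        ring
      · rw [Nat.add_sub_cancel]
        push_cast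
        ring
    · by_cases c3 : r + 2 = u
      · subst c3
        have d1 : ¬ (r = r + 2) := by omega
        have d2 : ¬ (r + 1 = r + 2) := by omega
        have d3 : ¬ (r + 1 = r + 2 + 1) := by omega
        have d4 : ¬ (r + 1 + 1 = r + 2 + 1) := by omega
        have d5 : r + 1 + 2 = r + 2 + 1 := by omega
        have d6 : r + 2 - 1 = r + 1 := by omega
        have d7 : r + 2 + 1 - 1 = r + 2 := by omega
        simp only [d1, d2, d3, d4, d5, d6, d7, if_true, if_false]
        rcases l with _ | l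
        · push_cast
          ring
        · rw [Nat.add_sub_cancel]
          push_cast
          ring
      · have d1 : ¬ (r + 1 = u + 1) := by omega
        have d2 : ¬ (r + 1 + 1 = u + 1) := by omega
        have d3 : ¬ (r + 1 + 2 = u + 1) := by omega
        simp only [c1, c2, c3, d1, d2, d3, if_false]
        simp

private theorem M09b_yk (sl ul s u r : ℕ) (hul : ul ≤ sl) (hu : ul ≤ u) (hs : u ≤ s) (hr : 1 ≤ r) :
    (ul : ℝ) * (yk (sl - 1) (ul - 1) (s - 1) (u - 1) (r - 1) : ℝ) +
      ((u : ℝ) - ul) * (yk sl ul (s - 1) (u - 1) (r - 1) : ℝ) = (r : ℝ) * (yk sl ul s u r : ℝ) := by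
  obtain ⟨r, rfl⟩ : ∃ r', r = r' + 1 := ⟨r - 1, by omega⟩
  rcases Nat.eq_zero_or_pos u with hu0 | hu0
  · have h0 : ul = 0 := by omega
    subst hu0 h0
    simp [yk]
  obtain ⟨u, rfl⟩ : ∃ u', u = u' + 1 := ⟨u - 1, by omega⟩
  obtain ⟨p, rfl⟩ : ∃ p, sl = ul + p := ⟨sl - ul, by omega⟩
  obtain ⟨d, rfl⟩ : ∃ d, s = u + 1 + d := ⟨s - (u + 1), by omega⟩
  have key := M09b_yky ul p u d r
  have e1 : u + 1 + d - 1 = u + d := by omega
  rw [e1, Nat.add_sub_cancel, Nat.add_sub_cancel]
  push_cast
  rw [← key]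
  congr 1
  rcases Nat.eq_zero_or_pos ul with h | h
  · subst h; simp
  · have e2 : ul + p - 1 = ul - 1 + p := by omega
    rw [e2]

/-- the `B` part -/
private theorem M09b_ErB (D' b : ℕ) (hD' : 2 ≤ D') (B : S3) (hB : M09b_ok B) (hAL : AL D' B) :
    Er (fun B => if AL D' B ∧ b ≤ sz B then (ym B (sz B - b) : ℝ) else 0) B =
      ((sz B : ℝ) - b) * (if AL D' B ∧ b ≤ sz B then (ym B (sz B - b) : ℝ) else 0) := by
  obtain ⟨hne, hall⟩ := hAL
  obtain ⟨B', q, rfl⟩ : ∃ B' q, B = B' ++ [q] :=
    ⟨B.dropLast, B.getLast hne, (List.dropLast_append_getLast hne).symm⟩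
  have hB' : M09b_ok B' := fun r hr => hB r (List.mem_append_left _ hr)
  have hq := hB q (by simp)
  have hallB' : ∀ r ∈ B', r.1 = D' := fun r hr => hall r (List.mem_append_left _ hr)
  have hqD : q.1 = D' := hall q (by simp)
  have hlast : ∀ (C : S3) (r : ℕ × ℕ × ℕ), lsz (C ++ [r]) = r.2.1 ∧ llf (C ++ [r]) = r.2.2 := by
    intro C r
    constructor
    · simp [lsz, List.getLastD_concat]
    · simp [llf, List.getLastD_concat]
  have hq1 : ¬ q.1 = 1 := by omega
  rw [Er_append]
  have hlfB' : lf B' ≤ sz B' := by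
    have : ∀ C : S3, M09b_ok C → lf C ≤ sz C := by
      intro C
      induction C with
      | nil => intro _; simp [lf, sz]
      | cons a τ ih =>
        intro h
        obtain ⟨⟨h1, _⟩, h3⟩ := M09b_ok_cons h
        have := ih h3
        rw [M09b_lf_cons, M09b_sz_cons]; omega
    exact this B' hB'
  have hszq : ∀ r : ℕ × ℕ × ℕ, sz [r] = r.2.1 := fun r => by simp [sz]
  have hlfq : ∀ r : ℕ × ℕ × ℕ, lf [r] = r.2.2 := fun r => by simp [lf]
  have hcond : ∀ (C : S3) (r : ℕ × ℕ × ℕ), (∀ t ∈ C, t.1 = D') → r.1 = D' → AL D' (C ++ [r]) := by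
    intro C r hC hr
    refine ⟨by simp, ?_⟩
    intro t ht
    rcases List.mem_append.1 ht with h | h
    · exact hC t h
    · rw [List.mem_singleton.1 h]; exact hr
  -- the part of B'
  have p1 : Er (fun F' => if AL D' (F' ++ [q]) ∧ b ≤ sz (F' ++ [q]) then
        (ym (F' ++ [q]) (sz (F' ++ [q]) - b) : ℝ) else 0) B' =
      (lf B' : ℝ) * (if b + 1 ≤ sz (B' ++ [q]) then
        (yk q.2.1 q.2.2 (sz (B' ++ [q]) - 1) (lf (B' ++ [q]) - 1) (sz (B' ++ [q]) - b - 1) : ℝ)
        else 0) := by
    apply M09b_Er_const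
    intro y hy hy0
    obtain ⟨e1, e2, e3⟩ := M09b_er_mem B' hB' y hy hy0
    have e4 := e3 D' hD' hallB'
    have a1 : AL D' (y.2 ++ [q]) := hcond y.2 q e4 hqD
    have s1 : sz (y.2 ++ [q]) = sz (B' ++ [q]) - 1 := by
      rw [M09b_sz_append, M09b_sz_append]; omega
    have s2 : lf (y.2 ++ [q]) = lf (B' ++ [q]) - 1 := by
      rw [M09b_lf_append, M09b_lf_append]; omega
    have s3 : (b ≤ sz (B' ++ [q]) - 1) ↔ (b + 1 ≤ sz (B' ++ [q])) := by
      have : 1 ≤ sz (B' ++ [q]) := by rw [M09b_sz_append]; omega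
      omega
    have s4 : sz (B' ++ [q]) - 1 - b = sz (B' ++ [q]) - b - 1 := by omega
    simp only [a1, true_and, ym, (hlast y.2 q).1, (hlast y.2 q).2, s1, s2, s3, s4]
  have p2 : Er (fun V' => if AL D' (B' ++ V') ∧ b ≤ sz (B' ++ V') then
        (ym (B' ++ V') (sz (B' ++ V') - b) : ℝ) else 0) [q] =
      (q.2.2 : ℝ) * (if b + 1 ≤ sz (B' ++ [q]) then
        (yk (q.2.1 - 1) (q.2.2 - 1) (sz (B' ++ [q]) - 1) (lf (B' ++ [q]) - 1)
          (sz (B' ++ [q]) - b - 1) : ℝ) else 0) := by
    rw [M09b_Er_cons, M09b_Er_nil, add_zero, if_neg hq1]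
    by_cases h0 : q.2.2 = 0
    · rw [h0]; simp
    · congr 1
      have a1 : AL D' (B' ++ [(q.1, q.2.1 - 1, q.2.2 - 1)]) := hcond _ _ hallB' hqD
      have s1 : sz (B' ++ [(q.1, q.2.1 - 1, q.2.2 - 1)]) = sz (B' ++ [q]) - 1 := by
        rw [M09b_sz_append, M09b_sz_append, hszq, hszq]; dsimp only; omega
      have s2 : lf (B' ++ [(q.1, q.2.1 - 1, q.2.2 - 1)]) = lf (B' ++ [q]) - 1 := by
        rw [M09b_lf_append, M09b_lf_append, hlfq, hlfq]; dsimp only; omega
      have s3 : (b ≤ sz (B' ++ [q]) - 1) ↔ (b + 1 ≤ sz (B' ++ [q])) := by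
        have : 1 ≤ sz (B' ++ [q]) := by rw [M09b_sz_append, hszq]; omega
        omega
      have s4 : sz (B' ++ [q]) - 1 - b = sz (B' ++ [q]) - b - 1 := by omega
      simp only [a1, true_and, ym, (hlast _ _).1, (hlast _ _).2, s1, s2, s3, s4]
  rw [p1, p2]
  have hALB : AL D' (B' ++ [q]) := ⟨hne, hall⟩
  simp only [hALB, true_and, ym, (hlast B' q).1, (hlast B' q).2]
  by_cases hb1 : b + 1 ≤ sz (B' ++ [q])
  · have hb2 : b ≤ sz (B' ++ [q]) := by omega
    rw [if_pos hb1, if_pos hb1, if_pos hb2]
    have key := M09b_yk q.2.1 q.2.2 (sz (B' ++ [q])) (lf (B' ++ [q])) (sz (B' ++ [q]) - b) hq.1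
      (by rw [M09b_lf_append, hlfq]; omega)
      (by rw [M09b_lf_append, M09b_sz_append, hlfq, hszq]; omega) (by omega)
    rw [Nat.cast_sub hb2] at key
    rw [← key]
    have : (lf B' : ℝ) = (lf (B' ++ [q]) : ℝ) - q.2.2 := by
      rw [M09b_lf_append, hlfq]; push_cast; ring
    rw [this]
    ring
  · rw [if_neg hb1, if_neg hb1]
    by_cases hb2 : b ≤ sz (B' ++ [q])
    · have : sz (B' ++ [q]) = b := by omega
      rw [this]; simp
    · rw [if_neg hb2]; ring

/-! ### `D' = 1` -/

private theorem M09b_Er_rep (k : ℕ) (f : S3 → ℝ) :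
    Er f (List.replicate k (1, 1, 1)) = (k : ℝ) * f (List.replicate (k - 1) (1, 1, 1)) := by
  induction k generalizing f with
  | zero => simp [M09b_Er_nil]
  | succ k ih =>
    rw [List.replicate_succ, M09b_Er_cons, ih]
    simp only [if_true, Nat.cast_one, one_mul, Nat.add_sub_cancel]
    rcases k with _ | k
    · simp
    · rw [show k + 1 - 1 = k from rfl, ← List.replicate_succ]
      push_cast; ring

private theorem M09b_cut_rep (k : ℕ) (G : S3 → S3 → ℝ) :
    cutS (List.replicate k (1, 1, 1)) G =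
      ∑ i ∈ range (k + 1), G (List.replicate i (1, 1, 1)) (List.replicate (k - i) (1, 1, 1)) := by
  induction k generalizing G with
  | zero => simp [cutS]
  | succ k ih =>
    rw [List.replicate_succ]
    simp only [cutS]
    rw [ih (fun B O => G ((1, 1, 1) :: B) O), Finset.sum_range_succ' _ (k + 1)]
    rw [add_comm]
    congr 1
    apply Finset.sum_congr rfl
    intro i _
    rw [List.replicate_succ, Nat.add_sub_add_right]

private noncomputable def M09b_g (b x i : ℕ) : ℝ :=
  if 1 ≤ i ∧ b ≤ i ∧ x = 0 then (yk 1 1 i i (i - b) : ℝ) else 0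

private theorem M09b_ups_rep (b x k : ℕ) :
    ups 1 b x (List.replicate k (1, 1, 1)) = ∑ i ∈ range (k + 1), M09b_g b x i := by
  rw [ups, M09b_cut_rep]
  apply Finset.sum_congr rfl
  intro i _
  have s1 : ∀ i, sz (List.replicate i (1, 1, 1)) = i := fun i => by simp [sz]
  have s2 : ∀ i, lf (List.replicate i (1, 1, 1)) = i := fun i => by simp [lf]
  rw [s1, s1, s2, M09b_g]
  have h1 : (AL 1 (List.replicate i (1, 1, 1)) ∧ b ≤ i ∧ k - i = x + (k - i)) ↔
      (1 ≤ i ∧ b ≤ i ∧ x = 0) := by
    constructor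
    · rintro ⟨⟨h1, _⟩, h2, h3⟩
      refine ⟨?_, h2, by omega⟩
      rcases i with _ | i
      · exact absurd rfl h1
      · omega
    · rintro ⟨h1, h2, h3⟩
      refine ⟨⟨?_, ?_⟩, h2, by omega⟩
      · rcases i with _ | i
        · omega
        · simp [List.replicate_succ]
      · intro q hq
        rw [List.eq_of_mem_replicate hq]
  by_cases hc : 1 ≤ i ∧ b ≤ i ∧ x = 0
  · rw [if_pos (h1.2 hc), if_pos hc]
    obtain ⟨j, rfl⟩ : ∃ j, i = j + 1 := ⟨i - 1, by omega⟩
    have e1 : lsz (List.replicate (j + 1) (1, 1, 1)) = 1 := by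
      rw [List.replicate_succ']; simp [lsz]
    have e2 : llf (List.replicate (j + 1) (1, 1, 1)) = 1 := by
      rw [List.replicate_succ']; simp [llf]
    rw [ym, e1, e2, s1, s2]
  · rw [if_neg (fun h => hc (h1.1 h)), if_neg hc]

private theorem M09b_g_sum (b x k : ℕ) (hb : 1 ≤ b) :
    ∑ i ∈ range (k + 1), M09b_g b x i =
      if x = 0 then (if b = 1 then 2 * (k : ℝ) else if b = 2 then (k : ℝ) * (k - 1) / 2 else 0)
      else 0 := by
  by_cases hx : x = 0
  · rw [if_pos hx]
    subst hx
    by_cases h1 : b = 1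
    · subst h1
      rw [if_pos rfl]
      induction k with
      | zero => simp [M09b_g]
      | succ k ih =>
        rw [Finset.sum_range_succ, ih, M09b_g, if_pos ⟨by omega, by omega, rfl⟩]
        simp [yk]
        ring
    · rw [if_neg h1]
      by_cases h2 : b = 2
      · subst h2
        rw [if_pos rfl]
        induction k with
        | zero => simp [M09b_g]
        | succ k ih =>
          rw [Finset.sum_range_succ, ih, M09b_g]
          rcases k with _ | k
          · simp
          · rw [if_pos ⟨by omega, by omega, rfl⟩]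
            have e1 : k + 1 + 1 - 2 = k := by omega
            rw [e1]
            have c1 : ¬ (k = k + 1 + 1) := by omega
            have c2 : ¬ (k + 1 = k + 1 + 1) := by omega
            simp only [yk, c1, c2, if_false, if_true]
            push_cast
            have e3 : ((k + 1 + 1 - 1 : ℕ) : ℝ) = (k : ℝ) + 1 := by
              rw [Nat.add_sub_cancel]; push_cast; ring
            simp
            ring
      · rw [if_neg h2]
        apply Finset.sum_eq_zero
        intro i _
        rw [M09b_g]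
        by_cases hc : 1 ≤ i ∧ b ≤ i ∧ (0 : ℕ) = 0
        · rw [if_pos hc]
          have c1 : ¬ (i - b = i) := by omega
          have c2 : ¬ (i - b + 1 = i) := by omega
          have c3 : ¬ (i - b + 2 = i) := by omega
          simp [yk, c1, c2, c3]
        · rw [if_neg hc]
  · rw [if_neg hx]
    apply Finset.sum_eq_zero
    intro i _
    rw [M09b_g, if_neg (fun h => hx h.2.2)]

private theorem M09b_ups_big (b x : ℕ) (V : S3) (h : ∀ a τ, V = a :: τ → a.1 ≠ 1) :
    ups 1 b x V = 0 := by
  rw [ups]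
  apply M09b_cutS_zero
  intro B O hBO
  rw [if_neg]
  rintro ⟨⟨h1, h2⟩, _⟩
  cases B with
  | nil => exact h1 rfl
  | cons a B' => exact h a (B' ++ O) (by rw [← hBO]; rfl) (h2 a List.mem_cons_self)

private theorem M09b_one (n : ℕ) (V : S3) (hV : Vs 1 n V) (b x : ℕ) (hb : 1 ≤ b) :
    Er (ups 1 b x) V = ((n : ℝ) - (b + x)) * ups 1 b x V := by
  by_cases hV1 : ∀ q ∈ V, q.1 = 1
  · -- all singles
    have hrep : V = List.replicate V.length (1, 1, 1) :=
      List.eq_replicate_of_mem fun q hq => hV.one q hq (hV1 q hq)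
    have hn : V.length = n := by
      have := hV.sum
      rw [hrep] at this
      simpa [sz] using this
    rw [hrep, hn, M09b_Er_rep, M09b_ups_rep, M09b_ups_rep, M09b_g_sum b x _ hb,
      M09b_g_sum b x _ hb]
    rcases n with _ | n
    · simp
    · rw [Nat.add_sub_cancel]
      by_cases hx : x = 0
      · rw [if_pos hx, if_pos hx]
        subst hx
        by_cases h1 : b = 1
        · rw [if_pos h1, if_pos h1]
          subst h1
          push_cast
          ring
        · rw [if_neg h1, if_neg h1]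
          by_cases h2 : b = 2
          · rw [if_pos h2, if_pos h2]
            subst h2
            push_cast
            ring
          · rw [if_neg h2, if_neg h2]
            ring
      · rw [if_neg hx, if_neg hx]
        ring
  · -- the first packet has level at least two
    have hfirst : ∀ a τ, V = a :: τ → a.1 ≠ 1 := by
      rintro a τ rfl ha
      apply hV1
      intro q hq
      rcases List.mem_cons.1 hq with h | h
      · rw [h]; exact ha
      · have := (List.pairwise_cons.1 hV.anti).1 q h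
        have := (hV.pos q (List.mem_cons_of_mem _ h)).1
        omega
    rw [M09b_ups_big b x V hfirst, mul_zero]
    cases V with
    | nil => exact M09b_Er_nil _
    | cons a τ =>
      have ha := hfirst a τ rfl
      rw [M09b_Er_cons, if_neg ha, M09b_ups_big b x _ (fun a' τ' h => by
        rw [List.cons.injEq] at h
        rw [← h.1]; exact ha)]
      have : (fun ρ => ups 1 b x (a :: ρ)) = fun _ => (0 : ℝ) := by
        funext ρ
        exact M09b_ups_big b x _ (fun a' τ' h => by
          rw [List.cons.injEq] at h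
          rw [← h.1]; exact ha)
      rw [this]
      simp [Er]

theorem Er_ups (n : ℕ) (V : S3) (hV : Vs 1 n V) (D' b x : ℕ) (hD' : 1 ≤ D') (hb : 1 ≤ b) :
    Er (ups D' b x) V = ((n : ℝ) - (b + x)) * ups D' b x V := by
  rcases Nat.lt_or_ge D' 2 with hlt | hge
  · have : D' = 1 := by omega
    subst this
    exact M09b_one n V hV b x hb
  · have hok : M09b_ok V := by
      intro q hq
      refine ⟨?_, hV.one q hq⟩
      rcases Nat.lt_or_ge q.1 2 with h | h
      · have h1 := (hV.pos q hq).1
        have := hV.one q hq (by omega)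
        rw [this]
      · exact (hV.big q hq h).le
    have hsplit : ∀ W : S3, ups D' b x W = cutS W fun B O =>
        (fun B => if AL D' B ∧ b ≤ sz B then (ym B (sz B - b) : ℝ) else 0) B *
        (fun O => if sz O = x + lf O then (1 : ℝ) else 0) O := by
      intro W
      rw [ups]
      apply M09b_cutS_congr
      intro B O _
      dsimp only
      by_cases h1 : AL D' B ∧ b ≤ sz B
      · by_cases h2 : sz O = x + lf O
        · rw [if_pos ⟨h1.1, h1.2, h2⟩, if_pos h1, if_pos h2, mul_one]
        · rw [if_neg (fun h => h2 h.2.2), if_neg h2, mul_zero]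
      · rw [if_neg (fun h => h1 ⟨h.1, h.2.1⟩), if_neg h1, zero_mul]
    rw [show ups D' b x = fun W => cutS W fun B O =>
        (fun B => if AL D' B ∧ b ≤ sz B then (ym B (sz B - b) : ℝ) else 0) B *
        (fun O => if sz O = x + lf O then (1 : ℝ) else 0) O from funext hsplit]
    rw [Er_cut n V hV D' hge _ _ (fun F hF => if_neg (fun h => hF h.1))]
    dsimp only
    rw [← M09b_cutS_mul]
    apply M09b_cutS_congr
    intro B O hBO
    have hokB : M09b_ok B := fun q hq => hok q (by rw [← hBO]; exact List.mem_append_left _ hq)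
    have hokO : M09b_ok O := fun q hq => hok q (by rw [← hBO]; exact List.mem_append_right _ hq)
    rw [M09b_ErO O hokO]
    by_cases hAL : AL D' B
    · rw [if_pos hAL, M09b_ErB D' b hge B hokB hAL]
      by_cases h2 : sz O = x + lf O
      · rw [if_pos h2]
        have hn : (n : ℝ) = sz B + (x + lf O) := by
          have := hV.sum
          rw [← hBO, M09b_sz_append, h2] at this
          rw [← this]; push_cast; ring
        rw [hn]
        ring
      · rw [if_neg h2]; ring
    · rw [if_neg hAL, if_neg (show ¬ (AL D' B ∧ b ≤ sz B) from fun h => hAL h.1)]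
      ring

end Pool.ADM
end

section

/-! job ADM-09c: the core functionals count configurations without unmarked leaves.

`c0 D a b x σ` is the number of (cut `F | B | O`, marks `m₁` in the last packet of `B`, `m₂` in `B`
or the extra slot) such that, after the erasure of the `n - (a + b + x)` unmarked leaves (all the
leaves of `F` and `O`), `F, B, O` have `a, b, x` letters.  Therefore the sum over the erased leaves
multiplies it by that number.  For `D = 2` the packets of `B` and `O` are singles `(1,1,1)`: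
compute directly (`V` is a list of `k` singles, the sum over the cuts of `V` of the `ym`-terms is
`2 k` for `b = 1`, `k (k-1) / 2` for `b = 2`, and `0` otherwise, with `x = 0`). -/

set_option autoImplicit false

namespace Pool.ADM

open Finset

private theorem m09c_Er_nil (f : S3 → ℝ) : Er f [] = 0 := by simp [Er, er]

private theorem m09c_Er_cons (f : S3 → ℝ) (a : ℕ × ℕ × ℕ) (τ : S3) :
    Er f (a :: τ) = (a.2.2 : ℝ) * f (if a.1 = 1 then τ else (a.1, a.2.1 - 1, a.2.2 - 1) :: τ) +
      Er (fun ρ => f (a :: ρ)) τ := by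
  simp [Er, er, List.map_map, Function.comp_def]

private theorem m09c_cutS_mul (σ : S3) (c : ℝ) (G : S3 → S3 → ℝ) :
    cutS σ (fun F V => c * G F V) = c * cutS σ G := by
  induction σ generalizing G with
  | nil => rfl
  | cons a τ ih =>
    simp only [cutS]
    rw [ih (fun B O => G (a :: B) O)]
    ring

private theorem m09c_sz_append (F V : S3) : sz (F ++ V) = sz F + sz V := by
  simp [sz]

private theorem m09c_lf_cons (a : ℕ × ℕ × ℕ) (τ : S3) : lf (a :: τ) = a.2.2 + lf τ := by
  simp [lf]

private theorem m09c_sz_cons (a : ℕ × ℕ × ℕ) (τ : S3) : sz (a :: τ) = a.2.1 + sz τ := by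
  simp [sz]

private theorem m09c_vs_left {n : ℕ} {F V : S3} (h : Vs 1 n (F ++ V)) : Vs 1 (sz F) F :=
  ⟨rfl, (List.pairwise_append.1 h.anti).1, fun q hq => h.pos q (List.mem_append_left _ hq),
    fun q hq => h.one q (List.mem_append_left _ hq), fun q hq => h.big q (List.mem_append_left _ hq),
    fun hc => absurd hc one_ne_zero⟩

private theorem m09c_vs_right {n : ℕ} {F V : S3} (h : Vs 1 n (F ++ V)) : Vs 1 (sz V) V :=
  ⟨rfl, (List.pairwise_append.1 h.anti).2.1, fun q hq => h.pos q (List.mem_append_right _ hq),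
    fun q hq => h.one q (List.mem_append_right _ hq),
    fun q hq => h.big q (List.mem_append_right _ hq), fun hc => absurd hc one_ne_zero⟩

/-- a function of the level, the size and the number of leaves. -/
private theorem m09c_Er_fun (D : ℕ) (hD : 2 ≤ D) (g : ℕ → ℕ → ℝ) (F : S3)
    (hF : ∀ q ∈ F, q.1 = D) (hl : ∀ q ∈ F, q.2.2 ≤ q.2.1) (s l : ℕ) (f : S3 → ℝ)
    (hf : ∀ G : S3, (∀ q ∈ G, q.1 = D) → G.length = F.length → f G = g (s + sz G) (l + lf G)) :
    Er f F = (lf F : ℝ) * g (s + (sz F - 1)) (l + (lf F - 1)) := by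
  induction F generalizing s l f with
  | nil => simp [m09c_Er_nil, lf]
  | cons a τ ih =>
    have ha : a.1 = D := hF a List.mem_cons_self
    have ha1 : a.1 ≠ 1 := by omega
    have hla : a.2.2 ≤ a.2.1 := hl a List.mem_cons_self
    have hτ : ∀ q ∈ τ, q.1 = D := fun q hq => hF q (List.mem_cons_of_mem _ hq)
    have hlτ : lf τ ≤ sz τ := by
      have : ∀ ρ : S3, (∀ q ∈ ρ, q.2.2 ≤ q.2.1) → lf ρ ≤ sz ρ := by
        intro ρ
        induction ρ with
        | nil => intro _; simp [lf, sz]
        | cons b υ ihb =>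
          intro hb
          rw [m09c_lf_cons, m09c_sz_cons]
          have h1 := hb b List.mem_cons_self
          have h2 := ihb fun q hq => hb q (List.mem_cons_of_mem _ hq)
          omega
      exact this τ fun q hq => hl q (List.mem_cons_of_mem _ hq)
    rw [m09c_Er_cons, if_neg ha1]
    rw [ih hτ (fun q hq => hl q (List.mem_cons_of_mem _ hq)) (s + a.2.1) (l + a.2.2)
      (fun ρ => f (a :: ρ)) (by
        intro G hG hlen
        rw [hf (a :: G) (by
          intro q hq
          rcases List.mem_cons.1 hq with rfl | hq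
          · exact ha
          · exact hG q hq) (by simp [hlen]), m09c_lf_cons, m09c_sz_cons]
        congr 1 <;> omega)]
    rw [hf ((a.1, a.2.1 - 1, a.2.2 - 1) :: τ) (by
      intro q hq
      rcases List.mem_cons.1 hq with rfl | hq
      · exact ha
      · exact hτ q hq) (by simp)]
    rw [m09c_lf_cons, m09c_sz_cons, m09c_lf_cons, m09c_sz_cons]
    dsimp only
    rcases Nat.eq_zero_or_pos a.2.2 with h0 | h0
    · rcases Nat.eq_zero_or_pos (lf τ) with h1 | h1
      · rw [h0, h1]
        simp
      · have e1 : s + a.2.1 + (sz τ - 1) = s + (a.2.1 + sz τ - 1) := by omega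
        have e2 : l + a.2.2 + (lf τ - 1) = l + (a.2.2 + lf τ - 1) := by omega
        rw [e1, e2, h0]
        push_cast
        ring
    · have e3 : s + (a.2.1 - 1 + sz τ) = s + (a.2.1 + sz τ - 1) := by omega
      have e4 : l + (a.2.2 - 1 + lf τ) = l + (a.2.2 + lf τ - 1) := by omega
      rw [e3, e4]
      rcases Nat.eq_zero_or_pos (lf τ) with h1 | h1
      · rw [h1]
        push_cast
        ring
      · have e1 : s + a.2.1 + (sz τ - 1) = s + (a.2.1 + sz τ - 1) := by omega
        have e2 : l + a.2.2 + (lf τ - 1) = l + (a.2.2 + lf τ - 1) := by omega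
        rw [e1, e2]
        push_cast
        ring

private theorem m09c_main (n : ℕ) (σ : S3) (hσ : Vs 1 n σ) (D a b x : ℕ) (hD : 2 ≤ D)
    (hb : 1 ≤ b) (P : S3 → ℝ) (hP : ∀ F, ¬ AL D F → P F = 0)
    (hE : ∀ F, Vs 1 (sz F) F → AL D F → Er P F = ((sz F : ℝ) - a) * P F) :
    Er (fun ρ => cutS ρ fun F V => P F * ups (D - 1) b x V) σ =
      ((n : ℝ) - (a + b + x : ℕ)) * cutS σ fun F V => P F * ups (D - 1) b x V := by
  rw [Er_cut n σ hσ D hD P (ups (D - 1) b x) hP, ← m09c_cutS_mul]
  refine cutS_congr σ _ _ fun F V hFV => ?_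
  subst hFV
  have hn : (n : ℝ) = sz F + sz V := by
    rw [← hσ.sum, m09c_sz_append]
    push_cast
    ring
  rw [Er_ups (sz V) V (m09c_vs_right hσ) (D - 1) b x (by omega) hb, hn]
  by_cases hF : AL D F
  · rw [if_pos hF, hE F (m09c_vs_left hσ) hF]
    push_cast
    ring
  · rw [if_neg hF, hP F hF]
    ring

private theorem m09c_leaves {F : S3} (h : Vs 1 (sz F) F) (D : ℕ) (hD : 2 ≤ D)
    (hF : ∀ q ∈ F, q.1 = D) : ∀ q ∈ F, q.2.2 ≤ q.2.1 := fun q hq =>
  (h.big q hq (by rw [hF q hq]; exact hD)).le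

theorem er_c0 (n : ℕ) (σ : S3) (hσ : Vs 1 n σ) (D a b x : ℕ) (hD : 2 ≤ D) (hb : 1 ≤ b) :
    Er (c0 D a b x) σ = ((n : ℝ) - (a + b + x : ℕ)) * c0 D a b x σ := by
  have key : c0 D a b x = fun ρ => cutS ρ fun F V =>
      (if AL D F ∧ sz F = a + lf F then (1 : ℝ) else 0) * ups (D - 1) b x V := by
    funext ρ
    unfold c0 ups
    congr 1
    funext F V
    rw [← m09c_cutS_mul]
    congr 1
    funext B O
    by_cases h1 : AL D F ∧ sz F = a + lf F
    · rw [if_pos h1, one_mul]
      simp only [h1.1, h1.2, true_and]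
    · rw [if_neg h1, zero_mul, if_neg]
      exact fun h => h1 ⟨h.1, h.2.1⟩
  rw [key]
  refine m09c_main n σ hσ D a b x hD hb _ (fun F hF => if_neg fun h => hF h.1) ?_
  intro F hvs hF
  rw [m09c_Er_fun D hD (fun s l => if s = a + l then (1 : ℝ) else 0) F hF.2
    (m09c_leaves hvs D hD hF.2) 0 0 _ (by
      intro G hG hlen
      have hG' : AL D G := ⟨by
        rintro rfl
        exact hF.1 (List.length_eq_zero_iff.1 (by simpa using hlen.symm)), hG⟩
      simp only [hG', true_and, zero_add])]
  simp only [hF, true_and, zero_add]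
  have hls : lf F ≤ sz F := by
    have : ∀ ρ : S3, (∀ q ∈ ρ, q.2.2 ≤ q.2.1) → lf ρ ≤ sz ρ := by
      intro ρ
      induction ρ with
      | nil => intro _; simp [lf, sz]
      | cons b υ ihb =>
        intro hb
        rw [m09c_lf_cons, m09c_sz_cons]
        have h1 := hb b List.mem_cons_self
        have h2 := ihb fun q hq => hb q (List.mem_cons_of_mem _ hq)
        omega
    exact this F (m09c_leaves hvs D hD hF.2)
  rcases Nat.eq_zero_or_pos (lf F) with h0 | h0
  · rw [h0]
    by_cases h1 : sz F = a + 0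
    · rw [if_pos h1, h1]
      push_cast
      ring
    · rw [if_neg h1]
      push_cast
      ring
  · by_cases h1 : sz F = a + lf F
    · rw [if_pos h1, if_pos (by omega), h1]
      push_cast
      ring
    · rw [if_neg h1, if_neg (by omega)]
      ring

theorem er_c1 (n : ℕ) (σ : S3) (hσ : Vs 1 n σ) (D a b x : ℕ) (hD : 2 ≤ D) (hb : 1 ≤ b) :
    Er (c1 D a b x) σ = ((n : ℝ) - (a + b + x : ℕ)) * c1 D a b x σ := by
  have key : c1 D a b x = fun ρ => cutS ρ fun F V =>
      (if AL D F ∧ sz F + 1 = a + lf F then (lf F : ℝ) else 0) * ups (D - 1) b x V := by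
    funext ρ
    unfold c1 ups
    congr 1
    funext F V
    rw [← m09c_cutS_mul]
    congr 1
    funext B O
    by_cases h1 : AL D F ∧ sz F + 1 = a + lf F
    · rw [if_pos h1]
      simp only [h1.1, h1.2, true_and]
      split_ifs
      · rfl
      · rw [mul_zero]
    · rw [if_neg h1, zero_mul, if_neg]
      exact fun h => h1 ⟨h.1, h.2.1⟩
  rw [key]
  refine m09c_main n σ hσ D a b x hD hb _ (fun F hF => if_neg fun h => hF h.1) ?_
  intro F hvs hF
  rw [m09c_Er_fun D hD (fun s l => if s + 1 = a + l then (l : ℝ) else 0) F hF.2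
    (m09c_leaves hvs D hD hF.2) 0 0 _ (by
      intro G hG hlen
      have hG' : AL D G := ⟨by
        rintro rfl
        exact hF.1 (List.length_eq_zero_iff.1 (by simpa using hlen.symm)), hG⟩
      simp only [hG', true_and, zero_add])]
  simp only [hF, true_and, zero_add]
  have hls : lf F ≤ sz F := by
    have : ∀ ρ : S3, (∀ q ∈ ρ, q.2.2 ≤ q.2.1) → lf ρ ≤ sz ρ := by
      intro ρ
      induction ρ with
      | nil => intro _; simp [lf, sz]
      | cons b υ ihb =>
        intro hb
        rw [m09c_lf_cons, m09c_sz_cons]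
        have h1 := hb b List.mem_cons_self
        have h2 := ihb fun q hq => hb q (List.mem_cons_of_mem _ hq)
        omega
    exact this F (m09c_leaves hvs D hD hF.2)
  rcases Nat.eq_zero_or_pos (lf F) with h0 | h0
  · rw [h0]
    split_ifs <;> simp
  · by_cases h1 : sz F + 1 = a + lf F
    · rw [if_pos h1, if_pos (by omega)]
      have h2 : ((lf F - 1 : ℕ) : ℝ) = (lf F : ℝ) - 1 := by
        rw [Nat.cast_sub h0]
        simp
      have h3 : (sz F : ℝ) + 1 = a + lf F := by exact_mod_cast h1
      rw [h2]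
      have h4 : (lf F : ℝ) - 1 = sz F - a := by linarith
      rw [h4]
      ring
    · rw [if_neg h1, if_neg (by omega)]
      ring

/-- in place of `er_cp` (which is false: the erasure of the leaf of `(D, D + 1, 1)` gives
`(D, D, 0)`): on the states of `D + b + x` letters the functional `cp` is `c0` with `a = D`. -/
theorem c0_pure (D b x : ℕ) (hD : 2 ≤ D) (σ : S3) (hσ : Vs 1 (D + b + x) σ) :
    c0 D D b x σ = cp D b x σ := by
  unfold c0 cp
  refine cutS_congr σ _ _ fun F V hFV => ?_
  subst hFV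
  refine cutS_congr V _ _ fun B O hBO => ?_
  subst hBO
  have hs := hσ.sum
  rw [m09c_sz_append, m09c_sz_append] at hs
  by_cases h : AL (D - 1) B ∧ b ≤ sz B ∧ sz O = x + lf O
  · have e : (AL D F ∧ sz F = D + lf F) ↔ F = [(D, D, 0)] := by
      constructor
      · rintro ⟨h1, h2⟩
        obtain ⟨_, h4, h5⟩ := h
        have h6 : lf F = 0 := by omega
        have h7 : sz F = D := by omega
        cases F with
        | nil => exact absurd rfl h1.1
        | cons q τ =>
          have hq : q.1 = D := h1.2 q List.mem_cons_self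
          have hq2 : D ≤ q.2.1 := by
            have := (hσ.pos q (List.mem_append_left _ List.mem_cons_self)).2
            omega
          rw [m09c_sz_cons] at h7
          rw [m09c_lf_cons] at h6
          cases τ with
          | nil =>
            have h8 : q.2.1 = D := by
              simp only [sz, List.map_nil, List.sum_nil] at h7
              omega
            have h9 : q.2.2 = 0 := by omega
            obtain ⟨q1, q2, q3⟩ := q
            dsimp only at hq h8 h9
            rw [hq, h8, h9]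
          | cons r υ =>
            exfalso
            have hr : r.1 = D := h1.2 r (by simp)
            have hr2 := (hσ.pos r (List.mem_append_left _ (by simp))).2
            rw [m09c_sz_cons] at h7
            omega
      · rintro rfl
        refine ⟨⟨by simp, by simp⟩, by simp [sz, lf]⟩
    by_cases h1 : F = [(D, D, 0)]
    · have h2 := e.2 h1
      rw [if_pos ⟨h2.1, h2.2, h⟩, if_pos ⟨h1, h⟩]
    · rw [if_neg (fun h3 => h1 (e.1 ⟨h3.1, h3.2.1⟩)), if_neg (fun h3 => h1 h3.1)]
  · rw [if_neg (fun h3 => h h3.2.2), if_neg (fun h3 => h h3.2)]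

end Pool.ADM
end

section

end
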