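import Pool.Agent.Lib.MP_ad84ff_coM.N12d
import Pool.Agent.Lib.MP_ad84ff_coM.N12c
import Pool.Agent.Lib.MP_ad84ff_coM.M09

section

/-! job ADM-13a: words in `X, P, V` in coordinates; the count inequality for `K3`.

Word in `e` letters `X` (hit levels `hh` in time order), `D` letters `P`, `L` letters `V` (tops `t`):
`y c` = number of letters `P, V` before `X_c`, `g i` = number of letters `V` before `P_i`.
Conditions: `i < t j → g i ≤ j` (`V_j` after `P_i`), `hh c < D → y c ≤ hh c + g (hh c)` (`X_c` before
`P_{hh c}`), indices from `0`. -/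

set_option autoImplicit false

namespace Pool.ADM

open Finset

/-- the positions of the letters `P` among the `V` -/
def GP (D L : ℕ) (t : ℕ → ℕ) : Finset (Fin D → ℕ) :=
  (mon D L).filter fun g => ∀ (i : Fin D) (j : Fin L), (i : ℕ) < t j → g i ≤ (j : ℕ)

/-- the number of ways to insert the letters `X` -/
def insX (e D L : ℕ) (hh : ℕ → ℕ) (g : Fin D → ℕ) : ℕ :=
  ((mon e (D + L)).filter fun y => ∀ (c : Fin e) (i : Fin D), hh c = (i : ℕ) →
    y c ≤ (i : ℕ) + g i).card

/-! ### auxiliary lemmas -/

private theorem M13a_mem_mon {k m : ℕ} {g : Fin k → ℕ} :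
    g ∈ mon k m ↔ (∀ i, g i ≤ m) ∧ ∀ i j : Fin k, i ≤ j → g i ≤ g j := by
  unfold mon
  rw [mem_filter, Fintype.mem_piFinset]
  simp only [mem_range, Nat.lt_succ_iff]

private theorem M13a_et_cons_lt (h : ℕ) (hs : List ℕ) {i : ℕ} (hi : i < hs.length) :
    et (h :: hs) i = et hs i := by
  unfold et
  rw [List.reverse_cons, List.getD_append _ _ _ _ (by simpa using hi)]

private theorem M13a_et_cons_eq (h : ℕ) (hs : List ℕ) : et (h :: hs) hs.length = h := by
  unfold et
  rw [List.reverse_cons, List.getD_append_right _ _ _ _ (by simp)]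
  simp

private theorem M13a_et_mem (ts : List ℕ) {j : ℕ} (hj : j < ts.length) : et ts j ∈ ts := by
  unfold et
  rw [List.getD_eq_getElem _ _ (by simpa using hj)]
  exact List.mem_reverse.1 (List.getElem_mem _)

private theorem M13a_mem_et (ts : List ℕ) {t : ℕ} (ht : t ∈ ts) : ∃ j < ts.length, et ts j = t := by
  obtain ⟨j, hj, rfl⟩ := List.mem_iff_getElem.1 (List.mem_reverse.2 ht)
  refine ⟨j, by simpa using hj, ?_⟩
  unfold et
  rw [List.getD_eq_getElem _ _ hj]

/-- the count with a free bound -/
private def insB (e D B : ℕ) (hh : ℕ → ℕ) (g : Fin D → ℕ) : ℕ :=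
  ((mon e B).filter fun y => ∀ (c : Fin e) (i : Fin D), hh c = (i : ℕ) →
    y c ≤ (i : ℕ) + g i).card

private theorem M13a_insX_eq (e D L : ℕ) (hh : ℕ → ℕ) (g : Fin D → ℕ) :
    insX e D L hh g = insB e D (D + L) hh g := rfl

private theorem M13a_insB_zero (D B : ℕ) (hh : ℕ → ℕ) (g : Fin D → ℕ) : insB 0 D B hh g = 1 := by
  unfold insB
  have : ((mon 0 B).filter fun y => ∀ (c : Fin 0) (i : Fin D), hh c = (i : ℕ) →
      y c ≤ (i : ℕ) + g i) = {fun i => i.elim0} := by
    ext y
    simp only [mem_filter, M13a_mem_mon, mem_singleton]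
    constructor
    · intro _
      funext i
      exact i.elim0
    · rintro rfl
      exact ⟨⟨fun i => i.elim0, fun i => i.elim0⟩, fun c => c.elim0⟩
  rw [this, card_singleton]

private theorem M13a_insB_congr {e D B : ℕ} {hh hh' : ℕ → ℕ} {g : Fin D → ℕ}
    (h : ∀ c < e, hh c = hh' c) : insB e D B hh g = insB e D B hh' g := by
  unfold insB
  congr 1
  apply filter_congr
  intro y _
  refine forall_congr' fun c => forall_congr' fun i => ?_
  rw [h c c.2]

/-- last letter `X` or not. -/
private theorem M13a_insB_succ (e D B : ℕ) (hh : ℕ → ℕ) (g : Fin D → ℕ) :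
    insB (e + 1) D (B + 1) hh g =
      (if ∀ i : Fin D, hh e = (i : ℕ) → B + 1 ≤ (i : ℕ) + g i then insB e D (B + 1) hh g else 0) +
        insB (e + 1) D B hh g := by
  classical
  unfold insB
  rw [← card_filter_add_card_filter_not (s := (mon (e + 1) (B + 1)).filter fun y =>
    ∀ (c : Fin (e + 1)) (i : Fin D), hh c = (i : ℕ) → y c ≤ (i : ℕ) + g i)
    (fun y => y (Fin.last e) = B + 1)]
  congr 1
  · split_ifs with hc
    · refine card_bij' (fun y _ => fun c : Fin e => y c.castSucc)
        (fun y _ => Fin.snoc (α := fun _ => ℕ) y (B + 1)) ?_ ?_ ?_ ?_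
      · intro y hy
        simp only [mem_filter, M13a_mem_mon] at hy ⊢
        obtain ⟨⟨⟨h1, h2⟩, h3⟩, h4⟩ := hy
        exact ⟨⟨fun i => h1 _, fun i j hij => h2 _ _ (by simpa using hij)⟩,
          fun c i hci => h3 c.castSucc i (by simpa using hci)⟩
      · intro y hy
        simp only [mem_filter, M13a_mem_mon] at hy ⊢
        obtain ⟨⟨h1, h2⟩, h3⟩ := hy
        refine ⟨⟨⟨?_, ?_⟩, ?_⟩, ?_⟩
        · intro i
          induction i using Fin.lastCases with
          | last => simp
          | cast i => simpa using h1 i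
        · intro i j hij
          induction j using Fin.lastCases with
          | last =>
            induction i using Fin.lastCases with
            | last => simp
            | cast i => simpa using h1 i
          | cast j =>
            induction i using Fin.lastCases with
            | last => exact absurd hij (not_le.2 (Fin.castSucc_lt_last j))
            | cast i => simpa using h2 i j (by simpa using hij)
        · intro c i hci
          induction c using Fin.lastCases with
          | last => simpa using hc i (by simpa using hci)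
          | cast c => simpa using h3 c i (by simpa using hci)
        · simp
      · intro y hy
        simp only [mem_filter, M13a_mem_mon] at hy
        funext i
        induction i using Fin.lastCases with
        | last => simpa using hy.2.symm
        | cast i => simp
      · intro y hy
        funext i
        simp
    · rw [card_eq_zero, filter_eq_empty_iff]
      intro y hy hyl
      apply hc
      intro i hi
      rw [mem_filter] at hy
      have := hy.2 (Fin.last e) i (by simpa using hi)
      rwa [hyl] at this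
  · congr 1
    ext y
    simp only [mem_filter, M13a_mem_mon]
    constructor
    · rintro ⟨⟨⟨h1, h2⟩, h3⟩, h4⟩
      refine ⟨⟨fun i => ?_, h2⟩, h3⟩
      have := h2 i (Fin.last e) (Fin.le_last i)
      have h5 := h1 (Fin.last e)
      omega
    · rintro ⟨⟨h1, h2⟩, h3⟩
      refine ⟨⟨⟨fun i => (h1 i).trans (Nat.le_succ _), h2⟩, h3⟩, ?_⟩
      have := h1 (Fin.last e)
      omega

private theorem M13a_mem_GP {D L : ℕ} {t : ℕ → ℕ} {g : Fin D → ℕ} :
    g ∈ GP D L t ↔ ((∀ i, g i ≤ L) ∧ ∀ i j : Fin D, i ≤ j → g i ≤ g j) ∧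
      ∀ (i : Fin D) (j : Fin L), (i : ℕ) < t j → g i ≤ (j : ℕ) := by
  unfold GP
  rw [mem_filter, M13a_mem_mon]

private theorem M13a_GP_congr {D L : ℕ} {t t' : ℕ → ℕ} (h : ∀ j < L, t j = t' j) :
    GP D L t = GP D L t' := by
  ext g
  rw [M13a_mem_GP, M13a_mem_GP]
  refine and_congr_right fun _ => forall_congr' fun i => forall_congr' fun j => ?_
  rw [h j j.2]

/-- last letter `P` (`g D = L`) -/
private theorem M13a_sum_P (e D L : ℕ) (hh t : ℕ → ℕ) (ht : ∀ j < L, t j ≤ D) :
    ∑ g ∈ (GP (D + 1) L t).filter (fun g => g (Fin.last D) = L), insB e (D + 1) (D + L) hh g =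
      ∑ g ∈ GP D L t, insX e D L hh g := by
  classical
  refine sum_bij' (fun g _ => fun i : Fin D => g i.castSucc)
    (fun g _ => Fin.snoc (α := fun _ => ℕ) g L) ?_ ?_ ?_ ?_ ?_
  · intro g hg
    rw [mem_filter, M13a_mem_GP] at hg
    rw [M13a_mem_GP]
    obtain ⟨⟨⟨h1, h2⟩, h3⟩, h4⟩ := hg
    exact ⟨⟨fun i => h1 _, fun i j hij => h2 _ _ (by simpa using hij)⟩,
      fun i j hij => h3 i.castSucc j (by simpa using hij)⟩
  · intro g hg
    rw [mem_filter, M13a_mem_GP]
    rw [M13a_mem_GP] at hg
    obtain ⟨⟨h1, h2⟩, h3⟩ := hg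
    refine ⟨⟨⟨?_, ?_⟩, ?_⟩, ?_⟩
    · intro i
      induction i using Fin.lastCases with
      | last => simp
      | cast i => simpa using h1 i
    · intro i j hij
      induction j using Fin.lastCases with
      | last =>
        induction i using Fin.lastCases with
        | last => simp
        | cast i => simpa using h1 i
      | cast j =>
        induction i using Fin.lastCases with
        | last => exact absurd hij (not_le.2 (Fin.castSucc_lt_last j))
        | cast i => simpa using h2 i j (by simpa using hij)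
    · intro i j hij
      induction i using Fin.lastCases with
      | last =>
        have := ht j j.2
        simp only [Fin.val_last] at hij
        omega
      | cast i => simpa using h3 i j (by simpa using hij)
    · simp
  · intro g hg
    rw [mem_filter] at hg
    funext i
    induction i using Fin.lastCases with
    | last => simpa using hg.2.symm
    | cast i => simp
  · intro g hg
    funext i
    simp
  · intro g hg
    rw [mem_filter, M13a_mem_GP] at hg
    unfold insX insB
    congr 1
    apply filter_congr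
    intro y hy
    rw [M13a_mem_mon] at hy
    constructor
    · intro h c i hci
      exact h c i.castSucc (by simpa using hci)
    · intro h c i hci
      induction i using Fin.lastCases with
      | last =>
        rw [hg.2, Fin.val_last]
        exact hy.1 c
      | cast i => simpa using h c i (by simpa using hci)

private theorem M13a_sum_P_zero (e D L B : ℕ) (hh t : ℕ → ℕ) (ht : ¬ ∀ j < L, t j ≤ D) :
    ∑ g ∈ (GP (D + 1) L t).filter (fun g => g (Fin.last D) = L), insB e (D + 1) B hh g = 0 := by
  push Not at ht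
  obtain ⟨j, hj, hjt⟩ := ht
  have : (GP (D + 1) L t).filter (fun g => g (Fin.last D) = L) = ∅ := by
    rw [filter_eq_empty_iff]
    intro g hg hgl
    rw [M13a_mem_GP] at hg
    have h := hg.2 (Fin.last D) ⟨j, hj⟩ (by simpa using hjt)
    rw [hgl] at h
    simp only at h
    omega
  rw [this, sum_empty]

/-- last letter `V` -/
private theorem M13a_sum_V (e D L : ℕ) (hh t : ℕ → ℕ) :
    ∑ g ∈ (GP (D + 1) (L + 1) t).filter (fun g => ¬ g (Fin.last D) = L + 1),
      insB e (D + 1) (D + (L + 1)) hh g = ∑ g ∈ GP (D + 1) L t, insX e (D + 1) L hh g := by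
  have hset : (GP (D + 1) (L + 1) t).filter (fun g => ¬ g (Fin.last D) = L + 1) =
      GP (D + 1) L t := by
    ext g
    rw [mem_filter, M13a_mem_GP, M13a_mem_GP]
    constructor
    · rintro ⟨⟨⟨h1, h2⟩, h3⟩, h4⟩
      refine ⟨⟨fun i => ?_, h2⟩, fun i j hij => h3 i j.castSucc (by simpa using hij)⟩
      have h5 := h2 i (Fin.last D) (Fin.le_last i)
      have h6 := h1 (Fin.last D)
      omega
    · rintro ⟨⟨h1, h2⟩, h3⟩
      refine ⟨⟨⟨fun i => (h1 i).trans (Nat.le_succ _), h2⟩, fun i j hij => ?_⟩, ?_⟩
      · induction j using Fin.lastCases with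
        | last => simpa using h1 i
        | cast j => simpa using h3 i j (by simpa using hij)
      · have := h1 (Fin.last D)
        omega
  rw [hset]
  refine sum_congr rfl fun g _ => ?_
  rw [M13a_insX_eq]
  congr 1
  omega

private theorem M13a_sum_V_zero (e D B : ℕ) (hh t : ℕ → ℕ) :
    ∑ g ∈ (GP (D + 1) 0 t).filter (fun g => ¬ g (Fin.last D) = 0), insB e (D + 1) B hh g = 0 := by
  have : (GP (D + 1) 0 t).filter (fun g => ¬ g (Fin.last D) = 0) = ∅ := by
    rw [filter_eq_empty_iff]
    intro g hg hgl
    rw [M13a_mem_GP] at hg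
    have := hg.1.1 (Fin.last D)
    omega
  rw [this, sum_empty]

/-- the `X` step. -/
private theorem M13a_step_X (h : ℕ) (hs : List ℕ) (D L : ℕ) (t : ℕ → ℕ) :
    ∑ g ∈ GP (D + 1) L t, insX (hs.length + 1) (D + 1) L (et (h :: hs)) g =
      (if D + 1 ≤ h then ∑ g ∈ GP (D + 1) L t, insX hs.length (D + 1) L (et hs) g else 0) +
        ∑ g ∈ GP (D + 1) L t, insB (hs.length + 1) (D + 1) (D + L) (et (h :: hs)) g := by
  have key : ∀ g ∈ GP (D + 1) L t, insX (hs.length + 1) (D + 1) L (et (h :: hs)) g =
      (if D + 1 ≤ h then insX hs.length (D + 1) L (et hs) g else 0) +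
        insB (hs.length + 1) (D + 1) (D + L) (et (h :: hs)) g := by
    intro g hg
    rw [M13a_mem_GP] at hg
    have e1 : D + 1 + L = (D + L) + 1 := by omega
    rw [M13a_insX_eq, M13a_insX_eq, e1, M13a_insB_succ, M13a_et_cons_eq,
      M13a_insB_congr (hh := et (h :: hs)) (hh' := et hs) fun c hc => M13a_et_cons_lt h hs hc]
    congr 1
    refine if_congr ?_ rfl rfl
    constructor
    · intro hh
      by_contra hlt
      have h1 := hh ⟨h, by omega⟩ rfl
      have h2 := hg.1.1 ⟨h, by omega⟩
      simp only at h1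
      omega
    · intro hh i hi
      have := i.2
      omega
  rw [sum_congr rfl key, sum_add_distrib]
  congr 1
  split_ifs
  · rfl
  · simp

/-- splitting off the last letter `P` or `V`. -/
private theorem M13a_step_PV (e D L : ℕ) (hh t : ℕ → ℕ) :
    ∑ g ∈ GP (D + 1) L t, insB e (D + 1) (D + L) hh g =
      ∑ g ∈ (GP (D + 1) L t).filter (fun g => g (Fin.last D) = L),
        insB e (D + 1) (D + L) hh g +
      ∑ g ∈ (GP (D + 1) L t).filter (fun g => ¬ g (Fin.last D) = L),
        insB e (D + 1) (D + L) hh g :=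
  (sum_filter_add_sum_filter_not _ _ _).symm

private theorem M13a_K3_zero : ∀ (N : ℕ) (hs : List ℕ) (D : ℕ) (ts : List ℕ),
    hs.length + D + ts.length = N → (¬ ∀ t ∈ ts, t ≤ D) → K3 hs D ts = 0 := by
  intro N
  induction N using Nat.strong_induction_on with
  | _ N ih =>
    intro hs D ts hN hD
    cases ts with
    | nil => exact absurd (fun t ht => absurd ht (by simp)) hD
    | cons t ts =>
      cases D with
      | zero => cases hs <;> simp [K3]
      | succ D =>
        have hP : ∀ hs' : List ℕ, hs'.length = hs.length → K3 hs' D (t :: ts) = 0 := by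
          intro hs' hl
          refine ih (hs'.length + D + (t :: ts).length) ?_ hs' D (t :: ts) rfl ?_
          · rw [← hN, hl]; omega
          · intro hall
            exact hD fun t' ht' => (hall t' ht').trans (Nat.le_succ _)
        have hV : ∀ hs' : List ℕ, hs'.length = hs.length → t ≤ D + 1 → K3 hs' (D + 1) ts = 0 := by
          intro hs' hl htD
          refine ih (hs'.length + (D + 1) + ts.length) ?_ hs' (D + 1) ts rfl ?_
          · rw [← hN, hl]; simp
          · intro hall
            apply hD
            intro t' ht'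
            rcases List.mem_cons.1 ht' with rfl | h'
            · exact htD
            · exact hall t' h'
        cases hs with
        | nil =>
          rw [K3, hP [] rfl]
          split_ifs with h
          · rw [hV [] rfl h]
          · rfl
        | cons h hs =>
          have hX : K3 hs (D + 1) (t :: ts) = 0 := by
            refine ih (hs.length + (D + 1) + (t :: ts).length) ?_ hs (D + 1) (t :: ts) rfl hD
            rw [← hN]; simp only [List.length_cons]; omega
          rw [K3, hP (h :: hs) rfl, hX]
          split_ifs with h1 h2 h2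
          · rw [hV (h :: hs) rfl h2]
          · rfl
          · rw [hV (h :: hs) rfl h2]
          · rfl

private theorem M13a_K3_nil : ∀ hs : List ℕ, K3 hs 0 [] = 1
  | [] => by rw [K3]
  | _ :: hs => by rw [K3, M13a_K3_nil hs]

private theorem M13a_sum_zero (e : ℕ) (hh t : ℕ → ℕ) : ∑ g ∈ GP 0 0 t, insX e 0 0 hh g = 1 := by
  have h1 : GP 0 0 t = {fun i => i.elim0} := by
    ext g
    rw [M13a_mem_GP, mem_singleton]
    constructor
    · intro _
      funext i
      exact i.elim0
    · rintro rfl
      exact ⟨⟨fun i => i.elim0, fun i => i.elim0⟩, fun i => i.elim0⟩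
  rw [h1, sum_singleton]
  unfold insX
  have h2 : ((mon e (0 + 0)).filter fun y => ∀ (c : Fin e) (i : Fin 0), hh c = (i : ℕ) →
      y c ≤ (i : ℕ) + (fun i : Fin 0 => (i.elim0 : ℕ)) i) = {fun _ => 0} := by
    ext y
    simp only [mem_filter, M13a_mem_mon, mem_singleton]
    constructor
    · rintro ⟨⟨h1, _⟩, _⟩
      funext i
      have := h1 i
      omega
    · rintro rfl
      exact ⟨⟨fun i => le_refl _, fun i j _ => le_refl _⟩, fun c i => i.elim0⟩
  rw [h2, card_singleton]

/-- the words with last letter `V` -/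
private def M13aV (hs : List ℕ) (D : ℕ) : List ℕ → ℕ
  | [] => 0
  | t :: ts' => if t ≤ D + 1 then K3 hs (D + 1) ts' else 0

private theorem M13a_PV (hs : List ℕ) (D : ℕ) (ts : List ℕ) (hD : ∀ t ∈ ts, t ≤ D + 1)
    (ihP : (∀ t ∈ ts, t ≤ D) →
      K3 hs D ts = ∑ g ∈ GP D ts.length (et ts), insX hs.length D ts.length (et hs) g)
    (ihV : ∀ (t : ℕ) (ts' : List ℕ), ts = t :: ts' → K3 hs (D + 1) ts' =
      ∑ g ∈ GP (D + 1) ts'.length (et ts'), insX hs.length (D + 1) ts'.length (et hs) g) :
    ∑ g ∈ GP (D + 1) ts.length (et ts), insB hs.length (D + 1) (D + ts.length) (et hs) g =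
      K3 hs D ts + M13aV hs D ts := by
  rw [M13a_step_PV]
  congr 1
  · by_cases hall : ∀ t ∈ ts, t ≤ D
    · rw [ihP hall, M13a_sum_P]
      intro j hj
      exact hall _ (M13a_et_mem ts hj)
    · rw [M13a_K3_zero _ hs D ts rfl hall, M13a_sum_P_zero]
      intro hc
      apply hall
      intro t ht
      obtain ⟨j, hj, rfl⟩ := M13a_mem_et ts ht
      exact hc j hj
  · cases ts with
    | nil =>
      simp only [List.length_nil, M13aV]
      exact M13a_sum_V_zero _ _ _ _ _
    | cons t ts' =>
      have ht : t ≤ D + 1 := hD t (by simp)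
      simp only [M13aV, if_pos ht]
      rw [ihV t ts' rfl]
      simp only [List.length_cons]
      rw [M13a_sum_V, M13a_GP_congr (t := et (t :: ts')) (t' := et ts')
        fun j hj => M13a_et_cons_lt t ts' hj]

private theorem M13a_K3_eq : ∀ (N : ℕ) (hs : List ℕ) (D : ℕ) (ts : List ℕ),
    hs.length + D + ts.length = N → (∀ t ∈ ts, 1 ≤ t) → (∀ t ∈ ts, t ≤ D) →
    K3 hs D ts = ∑ g ∈ GP D ts.length (et ts), insX hs.length D ts.length (et hs) g := by
  intro N
  induction N using Nat.strong_induction_on with
  | _ N ih =>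
    intro hs D ts hN h1 hD
    cases D with
    | zero =>
      have hts : ts = [] := by
        cases ts with
        | nil => rfl
        | cons t ts =>
          have a := h1 t (by simp)
          have b := hD t (by simp)
          omega
      subst hts
      rw [M13a_K3_nil, List.length_nil, M13a_sum_zero]
    | succ D =>
      have hPV : ∀ hs' : List ℕ, hs'.length = hs.length →
          ∑ g ∈ GP (D + 1) ts.length (et ts), insB hs'.length (D + 1) (D + ts.length) (et hs') g =
          K3 hs' D ts + M13aV hs' D ts := by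
        intro hs' hl
        refine M13a_PV hs' D ts hD ?_ ?_
        · intro hall
          refine ih (hs'.length + D + ts.length) ?_ hs' D ts rfl h1 hall
          rw [← hN, hl]; omega
        · rintro t ts' rfl
          refine ih (hs'.length + (D + 1) + ts'.length) ?_ hs' (D + 1) ts' rfl
            (fun t' ht' => h1 t' (List.mem_cons_of_mem _ ht'))
            (fun t' ht' => hD t' (List.mem_cons_of_mem _ ht'))
          rw [← hN, hl]; simp
      cases hs with
      | nil =>
        have e0 : ∑ g ∈ GP (D + 1) ts.length (et ts),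
            insX ([] : List ℕ).length (D + 1) ts.length (et []) g =
            ∑ g ∈ GP (D + 1) ts.length (et ts),
              insB ([] : List ℕ).length (D + 1) (D + ts.length) (et []) g := by
          refine sum_congr rfl fun g _ => ?_
          rw [M13a_insX_eq]
          exact (M13a_insB_zero _ _ _ _).trans (M13a_insB_zero _ _ _ _).symm
        rw [e0, hPV [] rfl]
        cases ts with
        | nil => rw [K3, M13aV, add_zero]
        | cons t ts => rw [K3, M13aV]
      | cons h hs =>
        have hX : K3 hs (D + 1) ts = ∑ g ∈ GP (D + 1) ts.length (et ts),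
            insX hs.length (D + 1) ts.length (et hs) g := by
          refine ih (hs.length + (D + 1) + ts.length) ?_ hs (D + 1) ts rfl h1 hD
          rw [← hN]; simp only [List.length_cons]; omega
        rw [List.length_cons, M13a_step_X, ← hX]
        have h2 := hPV (h :: hs) rfl
        rw [List.length_cons] at h2
        rw [h2]
        cases ts with
        | nil => rw [K3, M13aV, add_zero]
        | cons t ts => rw [K3, M13aV, add_assoc]

/-- Induction over `hs.length + D + ts.length` along the recursion of `K3` (last letter): the last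
letter is `X` if `y (e-1) = D + L`, `P` if `y < D + L` and `g (D-1) = L`, `V` otherwise. -/
theorem K3_eq (hs : List ℕ) (D : ℕ) (ts : List ℕ) (h1 : ∀ t ∈ ts, 1 ≤ t) (hD : ∀ t ∈ ts, t ≤ D) :
    K3 hs D ts = ∑ g ∈ GP D ts.length (et ts), insX hs.length D ts.length (et hs) g :=
  M13a_K3_eq _ hs D ts rfl h1 hD

theorem K3_zero (hs : List ℕ) (D : ℕ) (ts : List ℕ) (h1 : ∀ t ∈ ts, 1 ≤ t)
    (hD : ¬ ∀ t ∈ ts, t ≤ D) : K3 hs D ts = 0 :=
  M13a_K3_zero _ hs D ts rfl hD

/-- `insX` is monotone in `g`. -/
theorem insX_mono (e D L : ℕ) (hh : ℕ → ℕ) (g g' : Fin D → ℕ) (h : g ≤ g') :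
    insX e D L hh g ≤ insX e D L hh g' := by
  unfold insX
  apply card_le_card
  intro y hy
  rw [mem_filter] at hy ⊢
  exact ⟨hy.1, fun c i hci => (hy.2 c i hci).trans (Nat.add_le_add_left (h i) _)⟩

/-- Only `V` after the first `P` : `K3 [] D (1^L) = C(L + D - 1, D - 1)`. -/
theorem K3_ones (D L : ℕ) (hD : 1 ≤ D) :
    K3 [] D (List.replicate L 1) = (L + D - 1).choose (D - 1) := by
  obtain ⟨D, rfl⟩ : ∃ D', D = D' + 1 := ⟨D - 1, by omega⟩
  simp only [Nat.add_sub_cancel]
  have key : ∀ N D L : ℕ, D + L = N →
      K3 [] (D + 1) (List.replicate L 1) = (L + D).choose D := by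
    intro N
    induction N using Nat.strong_induction_on with
    | _ N ih =>
      intro D L hN
      cases L with
      | zero =>
        cases D with
        | zero => simp [K3]
        | succ D =>
          rw [List.replicate_zero, K3]
          have := ih (D + 0) (by omega) D 0 rfl
          rw [List.replicate_zero] at this
          rw [this]
          simp
      | succ L =>
        have hV := ih (D + L) (by omega) D L rfl
        rw [List.replicate_succ, K3, if_pos (by omega), hV]
        cases D with
        | zero => simp [K3]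
        | succ D =>
          have hP := ih (D + (L + 1)) (by omega) D (L + 1) rfl
          rw [List.replicate_succ] at hP
          rw [hP, show L + 1 + (D + 1) = (L + 1 + D) + 1 by omega, Nat.choose_succ_succ,
            show L + (D + 1) = L + 1 + D by omega]
  have := key _ D L rfl
  rw [this]
  congr 1

/-- FKG (`fkg_neg`) on the sequences `g` with `g 0 = 0` (if `L ≥ 1`): `insX` is monotone, the
conditions of `ts` are a down-set. -/
theorem K3_T6 (hs : List ℕ) (D : ℕ) (hD : 1 ≤ D) (ts : List ℕ) (h1 : ∀ t ∈ ts, 1 ≤ t) :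
    K3 hs D ts * (ts.length + D - 1).choose (D - 1) ≤
      K3 hs D (List.replicate ts.length 1) * K3 [] D ts := by
  classical
  by_cases hall : ∀ t ∈ ts, t ≤ D
  swap
  · rw [K3_zero hs D ts h1 hall, zero_mul]
    exact Nat.zero_le _
  obtain ⟨L, hL⟩ : ∃ L, L = ts.length := ⟨_, rfl⟩
  have hr1 : ∀ t ∈ List.replicate ts.length 1, 1 ≤ t := by
    intro t ht
    rw [List.eq_of_mem_replicate ht]
  have hrD : ∀ t ∈ List.replicate ts.length 1, t ≤ D := by
    intro t ht
    rw [List.eq_of_mem_replicate ht]
    exact hD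
  have e1 := K3_eq hs D ts h1 hall
  have e2 := K3_eq hs D (List.replicate ts.length 1) hr1 hrD
  have e3 := K3_eq [] D ts h1 hall
  have e4 := K3_eq [] D (List.replicate ts.length 1) hr1 hrD
  rw [List.length_replicate, ← hL] at e2 e4
  rw [← hL] at e1 e3
  have hz : ∀ g : Fin D → ℕ, insX ([] : List ℕ).length D L (et []) g = 1 := fun g =>
    M13a_insB_zero _ _ _ _
  simp only [hz, sum_const, smul_eq_mul, mul_one] at e3 e4
  have e5 := K3_ones D L hD
  rw [e5] at e4
  rw [← hL, e1, e2, e3, e4]
  -- the two sets
  have hmW : ∀ g, g ∈ GP D L (et ts) → g ∈ GP D L (et (List.replicate L 1)) := by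
    intro g hg
    rw [M13a_mem_GP] at hg ⊢
    refine ⟨hg.1, fun i j hij => hg.2 i j (lt_of_lt_of_le hij ?_)⟩
    have ha := M13a_et_mem (List.replicate L 1) (j := j) (by simp)
    rw [List.eq_of_mem_replicate ha]
    exact h1 _ (M13a_et_mem ts (hL ▸ j.2))
  have hF := fkg_neg (GP D L (et (List.replicate L 1))) (GP D L (et ts)) hmW ?_ ?_
    (fun g => (insX hs.length D L (et hs) g : ℝ)) (fun _ _ => Nat.cast_nonneg _)
    (fun a _ b _ hab => by exact_mod_cast insX_mono _ _ _ _ a b hab) ?_
  · have h5 : ((GP D L (et (List.replicate L 1))).card : ℝ) *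
        ∑ a ∈ GP D L (et ts), (insX hs.length D L (et hs) a : ℝ) ≤
        (∑ a ∈ GP D L (et (List.replicate L 1)), (insX hs.length D L (et hs) a : ℝ)) *
          ((GP D L (et ts)).card : ℝ) := hF
    rw [mul_comm]
    exact_mod_cast h5
  · intro a ha b hb
    rw [M13a_mem_GP] at ha hb ⊢
    refine ⟨⟨fun i => (min_le_left _ _).trans (ha.1.1 i), fun i j hij =>
      min_le_min (ha.1.2 i j hij) (hb.1.2 i j hij)⟩, fun i j hij =>
      (min_le_left _ _).trans (ha.2 i j hij)⟩
  · intro a ha b hb
    rw [M13a_mem_GP] at ha hb ⊢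
    refine ⟨⟨fun i => max_le (ha.1.1 i) (hb.1.1 i), fun i j hij =>
      max_le_max (ha.1.2 i j hij) (hb.1.2 i j hij)⟩, fun i j hij =>
      max_le (ha.2 i j hij) (hb.2 i j hij)⟩
  · intro a ha b hb hab
    rw [M13a_mem_GP] at ha hb ⊢
    exact ⟨ha.1, fun i j hij => (hab i).trans (hb.2 i j hij)⟩

end Pool.ADM
end

section

/-! job ADM-13b: words in `X, P, V` in coordinates; the count inequality for `K3`.

Word in `e` letters `X` (hit levels `hh` in time order), `D` letters `P`, `L` letters `V` (tops `t`):
`y c` = number of letters `P, V` before `X_c`, `g i` = number of letters `V` before `P_i`.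
Conditions: `i < t j → g i ≤ j` (`V_j` after `P_i`), `hh c < D → y c ≤ hh c + g (hh c)` (`X_c` before
`P_{hh c}`), indices from `0`. -/

set_option autoImplicit false

namespace Pool.ADM

open Finset

private theorem M13b_K3_zero (hs : List ℕ) (t : ℕ) (ts : List ℕ) : K3 hs 0 (t :: ts) = 0 := by
  cases hs <;> rw [K3]

private theorem M13b_sum_map_cons (L : List (List ℕ)) (d : ℕ) (f : List ℕ → ℕ) :
    ((L.map fun l => d :: l).map f).sum = (L.map fun l => f (d :: l)).sum := by
  rw [List.map_map]
  rfl

private theorem M13b_sum_add (L : List (List ℕ)) (f g : List ℕ → ℕ) :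
    (L.map fun l => f l + g l).sum = (L.map f).sum + (L.map g).sum := by
  induction L with
  | nil => rfl
  | cons a L ih =>
      simp only [List.map_cons, List.sum_cons, ih]
      omega

private theorem M13b_sum_zero (L : List (List ℕ)) :
    (L.map fun _ => (0 : ℕ)).sum = 0 := by
  induction L with
  | nil => rfl
  | cons a L ih => simp only [List.map_cons, List.sum_cons, ih]

private theorem M13b_N2l_nil (d : ℕ) (l : List ℕ) : N2l (d :: l) [] = N2l l [] := by
  rw [N2l]

private theorem M13b_N2l_cons (d : ℕ) (l : List ℕ) (t : ℕ) (ts : List ℕ) :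
    N2l (d :: l) (t :: ts) = N2l l (t :: ts) + (if t ≤ d then N2l (d :: l) ts else 0) := by
  rw [N2l]

private theorem M13b_sum_cons (L : List (List ℕ)) (d t : ℕ) (ts : List ℕ) :
    (L.map fun l => N2l (d :: l) (t :: ts)).sum =
      (L.map fun l => N2l l (t :: ts)).sum +
        (if t ≤ d then (L.map fun l => N2l (d :: l) ts).sum else 0) := by
  have h1 : (fun l => N2l (d :: l) (t :: ts)) =
      fun l => N2l l (t :: ts) + (if t ≤ d then N2l (d :: l) ts else 0) := by
    funext l
    exact M13b_N2l_cons d l t ts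
  rw [h1, M13b_sum_add L (fun l => N2l l (t :: ts)) (fun l => if t ≤ d then N2l (d :: l) ts else 0)]
  by_cases h : t ≤ d
  · simp only [if_pos h]
  · simp only [if_neg h, M13b_sum_zero]

private theorem M13b_main : ∀ (N : ℕ) (hs : List ℕ) (D : ℕ) (ts : List ℕ),
    hs.length + D + ts.length = N → (∀ t ∈ ts, 1 ≤ t) →
      K3 hs D ts = ((XP hs D).map fun ls => N2l ls ts).sum := by
  intro N
  induction N using Nat.strong_induction_on with
  | _ N ih =>
    intro hs D ts hN h1
    cases D with
    | zero =>
      cases hs with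
      | nil =>
        cases ts with
        | nil => simp [K3, XP, N2l]
        | cons t ts => simp [K3, XP, N2l]
      | cons h hs =>
        cases ts with
        | nil =>
          rw [K3, XP, M13b_sum_map_cons, ih (hs.length + 0 + 0) (by simp at hN ⊢; omega) hs 0 []
            (by simp) (by simp)]
          simp only [M13b_N2l_nil]
        | cons t ts =>
          have ht : 1 ≤ t := h1 t (by simp)
          rw [M13b_K3_zero, XP, M13b_sum_map_cons, M13b_sum_cons, if_neg (by omega), add_zero,
            ← ih (hs.length + 0 + (t :: ts).length) (by simp at hN ⊢; omega) hs 0 (t :: ts) rfl h1,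
            M13b_K3_zero]
    | succ D =>
      cases hs with
      | nil =>
        cases ts with
        | nil =>
          rw [K3, XP, M13b_sum_map_cons, ih (([] : List ℕ).length + D + 0)
            (by simp at hN ⊢; omega) [] D [] (by simp) (by simp)]
          simp only [M13b_N2l_nil]
        | cons t ts =>
          have h2 : ∀ s ∈ ts, 1 ≤ s := fun s hs => h1 s (by simp [hs])
          have e1 := ih (([] : List ℕ).length + D + (t :: ts).length)
            (by simp at hN ⊢; omega) [] D (t :: ts) rfl h1
          have e2 := ih (([] : List ℕ).length + (D + 1) + ts.length)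
            (by simp at hN ⊢; omega) [] (D + 1) ts rfl h2
          rw [XP, M13b_sum_map_cons] at e2
          rw [K3, XP, M13b_sum_map_cons, M13b_sum_cons, e1, e2]
      | cons h hs =>
        cases ts with
        | nil =>
          have e1 := ih (hs.length + (D + 1) + 0)
            (by simp at hN ⊢; omega) hs (D + 1) [] (by simp) (by simp)
          have e2 := ih ((h :: hs).length + D + 0)
            (by simp at hN ⊢; omega) (h :: hs) D [] (by simp) (by simp)
          rw [K3, XP, List.map_append, List.sum_append, M13b_sum_map_cons]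
          by_cases hh : D + 1 ≤ h
          · rw [if_pos hh, if_pos hh, M13b_sum_map_cons, e1, e2]
            simp only [M13b_N2l_nil]
          · rw [if_neg hh, if_neg hh, e2]
            simp only [M13b_N2l_nil, List.map_nil, List.sum_nil]
        | cons t ts =>
          have h2 : ∀ s ∈ ts, 1 ≤ s := fun s hs => h1 s (by simp [hs])
          have e1 := ih (hs.length + (D + 1) + (t :: ts).length)
            (by simp at hN ⊢; omega) hs (D + 1) (t :: ts) rfl h1
          have e2 := ih ((h :: hs).length + D + (t :: ts).length)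
            (by simp at hN ⊢; omega) (h :: hs) D (t :: ts) rfl h1
          have e3 := ih ((h :: hs).length + (D + 1) + ts.length)
            (by simp at hN ⊢; omega) (h :: hs) (D + 1) ts rfl h2
          rw [XP, List.map_append, List.sum_append, M13b_sum_map_cons] at e3
          rw [K3, XP, List.map_append, List.sum_append, M13b_sum_map_cons, M13b_sum_cons]
          by_cases hh : D + 1 ≤ h
          · rw [if_pos hh, M13b_sum_map_cons] at e3
            rw [if_pos hh, if_pos hh, M13b_sum_map_cons, M13b_sum_cons, e1, e2]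
            by_cases ht : t ≤ D + 1
            · rw [if_pos ht, if_pos ht, if_pos ht, e3]
              omega
            · rw [if_neg ht, if_neg ht, if_neg ht, add_zero, add_zero, add_zero]
          · rw [if_neg hh] at e3
            rw [if_neg hh, if_neg hh, e2]
            simp only [List.map_nil, List.sum_nil, zero_add] at e3 ⊢
            by_cases ht : t ≤ D + 1
            · rw [if_pos ht, if_pos ht, e3]
            · rw [if_neg ht, if_neg ht]

/-- decomposition in words in `X, P`. -/
theorem K3_XP (hs : List ℕ) (D : ℕ) (ts : List ℕ) (h1 : ∀ t ∈ ts, 1 ≤ t) :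
    K3 hs D ts = ((XP hs D).map fun ls => N2l ls ts).sum :=
  M13b_main _ hs D ts rfl h1

private theorem M13b_XP_nil (D : ℕ) : XP [] D = [dn D] := by
  induction D with
  | zero => rw [XP, dn]
  | succ D ih => rw [XP, ih, dn]; rfl

theorem K3_dn (D : ℕ) (ts : List ℕ) (h1 : ∀ t ∈ ts, 1 ≤ t) : K3 [] D ts = N2l (dn D) ts := by
  rw [K3_XP [] D ts h1, M13b_XP_nil]
  simp only [List.map_cons, List.map_nil, List.sum_cons, List.sum_nil, add_zero]

/-- if all hit levels are below `D` the last letter is a `P`. -/
theorem XP_last (hs : List ℕ) (D : ℕ) (hD : 1 ≤ D) (hh : ∀ h ∈ hs, h < D) :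
    XP hs D = (XP hs (D - 1)).map fun l => D :: l := by
  obtain ⟨E, rfl⟩ : ∃ E, D = E + 1 := ⟨D - 1, by omega⟩
  rw [Nat.add_sub_cancel]
  cases hs with
  | nil => rw [XP]
  | cons h hs =>
    have h2 : h < E + 1 := hh h (by simp)
    rw [XP, if_neg (by omega), List.nil_append]

private theorem M13b_mem : ∀ (N : ℕ) (hs : List ℕ) (D : ℕ), hs.length + D = N →
    ∀ l ∈ XP hs D, l.length = hs.length + D ∧
    l.Pairwise (fun s t => t ≤ s) ∧ (∀ s ∈ l, s ≤ D) := by
  intro N
  induction N using Nat.strong_induction_on with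
  | _ N ih =>
    intro hs D hN l hl
    cases D with
    | zero =>
      cases hs with
      | nil =>
        rw [XP, List.mem_singleton] at hl
        subst hl
        simp
      | cons h hs =>
        rw [XP, List.mem_map] at hl
        obtain ⟨m, hm, rfl⟩ := hl
        obtain ⟨a, b, c⟩ := ih (hs.length + 0) (by simp at hN ⊢; omega) hs 0 rfl m hm
        refine ⟨?_, ?_, ?_⟩
        · simp only [List.length_cons, a]
        · exact List.pairwise_cons.2 ⟨fun s hs => c s hs, b⟩
        · intro s hs
          rcases List.mem_cons.1 hs with rfl | hs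
          · exact le_refl _
          · exact c s hs
    | succ D =>
      have key : ∀ (gs : List ℕ) (E : ℕ), gs.length + E < N → E ≤ D + 1 →
          ∀ m ∈ XP gs E, ((D + 1) :: m).length = gs.length + E + 1 ∧
            ((D + 1) :: m).Pairwise (fun s t => t ≤ s) ∧ (∀ s ∈ ((D + 1) :: m), s ≤ D + 1) := by
        intro gs E hlt hE m hm
        obtain ⟨a, b, c⟩ := ih (gs.length + E) hlt gs E rfl m hm
        refine ⟨?_, ?_, ?_⟩
        · simp only [List.length_cons, a]
        · exact List.pairwise_cons.2 ⟨fun s hs => le_trans (c s hs) hE, b⟩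
        · intro s hs
          rcases List.mem_cons.1 hs with rfl | hs
          · exact le_refl _
          · exact le_trans (c s hs) hE
      cases hs with
      | nil =>
        rw [XP, List.mem_map] at hl
        obtain ⟨m, hm, rfl⟩ := hl
        obtain ⟨a, b, c⟩ := key [] D (by simp at hN ⊢; omega) (by omega) m hm
        refine ⟨?_, b, c⟩
        rw [a]
        omega
      | cons h hs =>
        rw [XP, List.mem_append] at hl
        rcases hl with hl | hl
        · by_cases hh : D + 1 ≤ h
          · rw [if_pos hh, List.mem_map] at hl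
            obtain ⟨m, hm, rfl⟩ := hl
            obtain ⟨a, b, c⟩ := key hs (D + 1) (by simp at hN ⊢; omega) (by omega) m hm
            refine ⟨?_, b, c⟩
            rw [a, List.length_cons]
            omega
          · rw [if_neg hh] at hl
            simp at hl
        · rw [List.mem_map] at hl
          obtain ⟨m, hm, rfl⟩ := hl
          obtain ⟨a, b, c⟩ := key (h :: hs) D (by simp at hN ⊢; omega) (by omega) m hm
          refine ⟨?_, b, c⟩
          rw [a]
          omega

theorem XP_mem (hs : List ℕ) (D : ℕ) : ∀ l ∈ XP hs D, l.length = hs.length + D ∧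
    l.Pairwise (fun s t => t ≤ s) ∧ (∀ s ∈ l, s ≤ D) :=
  M13b_mem _ hs D rfl

end Pool.ADM
end

section

/-! job ADM-07a: class masses as sums over words. -/

set_option autoImplicit false

namespace Pool.ADM

open Finset

theorem mass_clsF_sum_map (l : List (List ℕ)) (f : List ℕ → ℕ) (K : ℝ) :
    (l.map fun ts => (f ts : ℝ) * K).sum = K * ((l.map f).sum : ℕ) := by
  induction l with
  | nil => simp
  | cons t l ih =>
    simp only [List.map_cons, List.sum_cons, Nat.cast_add]
    rw [ih]
    ring

theorem mass_clsF_not_AL (D : ℕ) : ¬ AL D ([] : S3) := by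
  intro h
  exact h.1 rfl

/-- the same with leaves in `F`, for general `F` functionals: only the two cuts. -/
theorem mass_clsF (D D' a b x : ℕ) (hD : 1 ≤ D) (hD' : 1 ≤ D') (ha : 1 ≤ a) (hb : 1 ≤ b)
    (γ : S3 → ℝ) (g : S3 → S3 → ℝ) :
    PS 1 (a + b + x) (fun p => cls D D' a b x (fun F B O => γ F * g B O) (hd p)) =
      PS 1 a fun pF => PS 1 b fun pB => PS 1 x fun pO =>
        (if AL D (hd pF) then γ (hd pF) else 0) *
        (if AL D' (hd pB) then g (hd pB) (hd pO) else 0) *
        (((VW pB pO).map (N2 pF)).sum : ℕ) := by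
  have key1 : PS 1 (a + b + x) (fun p => cls D D' a b x (fun F B O => γ F * g B O) (hd p)) =
      ∑ a' ∈ range (a + b + x + 1), PS 1 a' fun pF => PS 1 (a + b + x - a') fun pV =>
        (N2 pF (tps pV) : ℝ) * (cutS (hd pV) fun B O =>
          if AL D (hd pF) ∧ sz (hd pF) = a ∧ AL D' B ∧ sz B = b ∧ sz O = x then
            γ (hd pF) * g B O else 0) := by
    refine cut_pathF 1 (a + b + x) le_rfl (fun F V => cutS V fun B O =>
      if AL D F ∧ sz F = a ∧ AL D' B ∧ sz B = b ∧ sz O = x then γ F * g B O else 0) ?_
    intro V _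
    have h0 : cutS V (fun B O =>
        if AL D ([] : S3) ∧ sz ([] : S3) = a ∧ AL D' B ∧ sz B = b ∧ sz O = x then
          γ [] * g B O else 0) = cutS V (fun B O => (0 : ℝ) * (0 : ℝ)) := by
      apply cutS_congr
      intro B O _
      rw [if_neg]
      · simp
      · intro h
        exact mass_clsF_not_AL D h.1
    show cutS V (fun B O =>
        if AL D ([] : S3) ∧ sz ([] : S3) = a ∧ AL D' B ∧ sz B = b ∧ sz O = x then
          γ [] * g B O else 0) = 0
    rw [h0, cutS_mul V 0 (fun _ _ => 0), zero_mul]
  rw [key1]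
  rw [Finset.sum_eq_single_of_mem a (by simp only [Finset.mem_range]; omega)]
  · apply PS_congr
    intro pF hpF
    have hsz : sz (hd pF) = a := (hpF.vs le_rfl).sum
    rw [show a + b + x - a = b + x by omega]
    have key2 : PS 1 (b + x) (fun pV => (N2 pF (tps pV) : ℝ) * (cutS (hd pV) fun B O =>
          if AL D (hd pF) ∧ sz (hd pF) = a ∧ AL D' B ∧ sz B = b ∧ sz O = x then
            γ (hd pF) * g B O else 0)) =
        PS 1 (b + x) (fun pV => cutS (hd pV) ((fun (ts : List ℕ) (B O : S3) =>
          (N2 pF ts : ℝ) * (if AL D (hd pF) ∧ sz (hd pF) = a ∧ AL D' B ∧ sz B = b ∧ sz O = x then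
            γ (hd pF) * g B O else 0)) (tps pV))) := by
      apply PS_congr
      intro pV _
      rw [← cutS_mul]
    rw [key2, cut_path 1 (b + x) le_rfl (fun (ts : List ℕ) (B O : S3) =>
          (N2 pF ts : ℝ) * (if AL D (hd pF) ∧ sz (hd pF) = a ∧ AL D' B ∧ sz B = b ∧ sz O = x then
            γ (hd pF) * g B O else 0))]
    · rw [Finset.sum_eq_single_of_mem b (by simp only [Finset.mem_range]; omega)]
      · apply PS_congr
        intro pB hpB
        have hszB : sz (hd pB) = b := (hpB.vs le_rfl).sum
        rw [show b + x - b = x by omega]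
        apply PS_congr
        intro pO hpO
        have hszO : sz (hd pO) = x := (hpO.vs le_rfl).sum
        rw [mass_clsF_sum_map]
        congr 1
        by_cases h1 : AL D (hd pF)
        · by_cases h2 : AL D' (hd pB)
          · rw [if_pos ⟨h1, hsz, h2, hszB, hszO⟩, if_pos h1, if_pos h2]
          · rw [if_neg (fun h => h2 h.2.2.1), if_neg h2, mul_zero]
        · rw [if_neg (fun h => h1 h.1), if_neg h1, zero_mul]
      · intro b' _ hb'
        have h0 : ∀ pB : Pth, VP 1 b' pB → (PS 1 (b + x - b') fun pO =>
            ((VW pB pO).map fun ts => (N2 pF ts : ℝ) *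
              (if AL D (hd pF) ∧ sz (hd pF) = a ∧ AL D' (hd pB) ∧ sz (hd pB) = b ∧
                sz (hd pO) = x then γ (hd pF) * g (hd pB) (hd pO) else 0)).sum) = 0 := by
          intro pB hpB
          have hszB : sz (hd pB) = b' := (hpB.vs le_rfl).sum
          have h1 : (PS 1 (b + x - b') fun pO =>
            ((VW pB pO).map fun ts => (N2 pF ts : ℝ) *
              (if AL D (hd pF) ∧ sz (hd pF) = a ∧ AL D' (hd pB) ∧ sz (hd pB) = b ∧
                sz (hd pO) = x then γ (hd pF) * g (hd pB) (hd pO) else 0)).sum) =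
              PS 1 (b + x - b') fun _ => (0 : ℝ) * 0 := by
            apply PS_congr
            intro pO _
            rw [mass_clsF_sum_map, if_neg]
            · ring
            · intro h
              exact hb' (hszB.symm.trans h.2.2.2.1)
          rw [h1, PS_mul 1 (b + x - b') 0 (fun _ => 0), zero_mul]
        have h2 : (PS 1 b' fun pB => PS 1 (b + x - b') fun pO =>
            ((VW pB pO).map fun ts => (N2 pF ts : ℝ) *
              (if AL D (hd pF) ∧ sz (hd pF) = a ∧ AL D' (hd pB) ∧ sz (hd pB) = b ∧
                sz (hd pO) = x then γ (hd pF) * g (hd pB) (hd pO) else 0)).sum) =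
            PS 1 b' fun _ => (0 : ℝ) * 0 := by
          apply PS_congr
          intro pB hpB
          rw [h0 pB hpB, mul_zero]
        exact h2.trans (by rw [PS_mul 1 b' 0 (fun _ => 0), zero_mul])
    · intro ts O _
      show (N2 pF ts : ℝ) * (if AL D (hd pF) ∧ sz (hd pF) = a ∧ AL D' ([] : S3) ∧
        sz ([] : S3) = b ∧ sz O = x then γ (hd pF) * g [] O else 0) = 0
      rw [if_neg, mul_zero]
      intro h
      exact mass_clsF_not_AL D' h.2.2.1
  · intro a' _ ha'
    have h0 : ∀ pF : Pth, VP 1 a' pF → (PS 1 (a + b + x - a') fun pV =>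
        (N2 pF (tps pV) : ℝ) * (cutS (hd pV) fun B O =>
          if AL D (hd pF) ∧ sz (hd pF) = a ∧ AL D' B ∧ sz B = b ∧ sz O = x then
            γ (hd pF) * g B O else 0)) = 0 := by
      intro pF hpF
      have hszF : sz (hd pF) = a' := (hpF.vs le_rfl).sum
      have h1 : (PS 1 (a + b + x - a') fun pV =>
        (N2 pF (tps pV) : ℝ) * (cutS (hd pV) fun B O =>
          if AL D (hd pF) ∧ sz (hd pF) = a ∧ AL D' B ∧ sz B = b ∧ sz O = x then
            γ (hd pF) * g B O else 0)) = PS 1 (a + b + x - a') fun _ => (0 : ℝ) * 0 := by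
        apply PS_congr
        intro pV _
        have h3 : (cutS (hd pV) fun B O =>
          if AL D (hd pF) ∧ sz (hd pF) = a ∧ AL D' B ∧ sz B = b ∧ sz O = x then
            γ (hd pF) * g B O else 0) = cutS (hd pV) (fun _ _ => (0 : ℝ) * 0) := by
          apply cutS_congr
          intro B O _
          rw [if_neg, mul_zero]
          intro h
          exact ha' (hszF.symm.trans h.2.1)
        rw [h3, cutS_mul (hd pV) 0 (fun _ _ => 0), zero_mul, mul_zero, mul_zero]
      rw [h1, PS_mul 1 (a + b + x - a') 0 (fun _ => 0), zero_mul]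
    have h2 : (PS 1 a' fun pF => PS 1 (a + b + x - a') fun pV =>
        (N2 pF (tps pV) : ℝ) * (cutS (hd pV) fun B O =>
          if AL D (hd pF) ∧ sz (hd pF) = a ∧ AL D' B ∧ sz B = b ∧ sz O = x then
            γ (hd pF) * g B O else 0)) = PS 1 a' fun _ => (0 : ℝ) * 0 := by
      apply PS_congr
      intro pF hpF
      rw [h0 pF hpF, mul_zero]
    exact h2.trans (by rw [PS_mul 1 a' 0 (fun _ => 0), zero_mul])

end Pool.ADM
end

section

end

section

/-! job ADM-07b: class masses as sums over words. -/

set_option autoImplicit false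

namespace Pool.ADM

open Finset

private theorem M07b_zero (c n : ℕ) : PS c n (fun _ => (0 : ℝ)) = 0 := by
  have h := PS_mul c n 0 (fun _ => (0 : ℝ))
  simpa using h

private theorem M07b_list (c n : ℕ) (A : Pth → ℝ) (k : Pth → List ℕ → ℕ) (l : List (List ℕ)) :
    PS c n (fun p => A p * (((l.map (k p)).sum : ℕ) : ℝ)) =
      (l.map fun ts => PS c n fun p => (k p ts : ℝ) * A p).sum := by
  induction l with
  | nil =>
    have h : (fun p : Pth => A p * ((([].map (k p)).sum : ℕ) : ℝ)) = fun _ => (0 : ℝ) := by
      funext p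
      simp
    rw [h, M07b_zero]
    rfl
  | cons t l ih =>
    have h : (fun p : Pth => A p * ((((t :: l).map (k p)).sum : ℕ) : ℝ)) =
        fun p => (k p t : ℝ) * A p + A p * (((l.map (k p)).sum : ℕ) : ℝ) := by
      funext p
      rw [List.map_cons, List.sum_cons]
      push_cast
      ring
    rw [h, PS_add, ih, List.map_cons, List.sum_cons]

private theorem M07b_last3 (σ : S3) : last3 (zp σ) = last3 σ := by
  unfold last3 zp
  induction σ using List.reverseRecOn with
  | nil => rfl
  | append_singleton l a _ => simp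

private theorem M07b_N2 : ∀ (p : Pth) (ts : List ℕ), N2 (zpp p) ts = N2 p ts
  | [], [] => rfl
  | [], t :: ts => by
    show N2 [] (t :: ts) = N2 [] (t :: ts)
    rfl
  | x :: p, [] => by
    have ih := M07b_N2 p []
    have e : zpp (x :: p) = (x.1, zp x.2) :: zpp p := rfl
    rw [e, N2, N2, ih]
  | x :: p, t :: ts => by
    have ih1 := M07b_N2 p (t :: ts)
    have ih2 := M07b_N2 (x :: p) ts
    have e : zpp (x :: p) = (x.1, zp x.2) :: zpp p := rfl
    rw [e] at ih2 ⊢
    rw [N2, N2, ih1, ih2, M07b_last3]
termination_by p ts => p.length + ts.length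

private theorem M07b_AL (D : ℕ) (σ : S3) : AL D (zp σ) ↔ AL D σ := by
  unfold AL zp
  constructor
  · rintro ⟨h1, h2⟩
    refine ⟨fun h => h1 (by rw [h]; rfl), fun q hq => ?_⟩
    exact h2 (q.1, q.2.1, 0) (List.mem_map.2 ⟨q, hq, rfl⟩)
  · rintro ⟨h1, h2⟩
    refine ⟨fun h => h1 (List.map_eq_nil_iff.1 h), fun q hq => ?_⟩
    obtain ⟨q', hq', rfl⟩ := List.mem_map.1 hq
    exact h2 q' hq'

/-- the inner sum for one word -/
private theorem M07b_one (D a : ℕ) (hD : 1 ≤ D) (ha : D ≤ a) (γ : S3 → ℝ) (ts : List ℕ)
    (hpos : ∀ t ∈ ts, 1 ≤ t) :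
    PS 1 a (fun p => (N2 p ts : ℝ) * (if AL D (hd p) then γ (zp (hd p)) else 0)) =
      PS 0 (a - D) fun χ => (K3 (hts χ) D ts : ℝ) *
        (if top3 (hd χ) ≤ D then (WtD (hd χ) D : ℝ) * γ (join (hd χ) D) else 0) := by
  classical
  have h1 := PS_zpp a (fun p => (N2 p ts : ℝ) * (if AL D (hd p) then γ (hd p) else 0))
  have h2 : (fun p : Pth => (N2 p ts : ℝ) * (if AL D (hd p) then γ (zp (hd p)) else 0)) =
      fun p => (fun p => (N2 p ts : ℝ) * (if AL D (hd p) then γ (hd p) else 0)) (zpp p) := by
    funext p
    simp only [M07b_N2, hd_zpp, M07b_AL]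
  rw [h2, h1, fd_path ts hpos a (hD.trans ha) (fun σ => if AL D σ then γ σ else 0)]
  rw [Finset.sum_eq_single D]
  · refine PS_congr _ _ _ _ fun χ hχ => ?_
    have h3 := join_AL (a - D) (hd χ) (hχ.vs (by norm_num)) D D hD
    by_cases h4 : top3 (hd χ) ≤ D
    · rw [if_pos (h3.2 ⟨rfl, h4⟩), if_pos h4]
      ring
    · rw [if_neg (fun h => h4 (h3.1 h).2), if_neg h4]
      ring
  · intro E hE hED
    rw [Finset.mem_Icc] at hE
    have h5 : PS 0 (a - E) (fun χ => (WtD (hd χ) E : ℝ) * (K3 (hts χ) E ts : ℝ) *
        (if AL D (join (hd χ) E) then γ (join (hd χ) E) else 0)) = PS 0 (a - E) (fun _ => 0) := by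
      refine PS_congr _ _ _ _ fun χ hχ => ?_
      have h3 := join_AL (a - E) (hd χ) (hχ.vs (by norm_num)) E D hE.1
      rw [if_neg (fun h => hED (h3.1 h).1.symm), mul_zero]
    exact h5.trans (M07b_zero _ _)
  · intro h
    exact absurd (Finset.mem_Icc.2 ⟨hD, ha⟩) h

/-- `cut_pathF` for the cut `F | V`, `PS_zpp` for `F` (`N2` does not depend on the leaves), `fd_path`,
`cut_path` for the cut `B | O` of `V`; `join_AL`, `join_sz` pick `D` and `a`. -/
theorem mass_cls (D D' a b x : ℕ) (hD : 1 ≤ D) (hD' : 1 ≤ D') (ha : D ≤ a) (hb : 1 ≤ b)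
    (γ : S3 → ℝ) (g : S3 → S3 → ℝ) :
    PS 1 (a + b + x) (fun p => cls D D' a b x (fun F B O => γ (zp F) * g B O) (hd p)) =
      PS 0 (a - D) fun χ => PS 1 b fun pB => PS 1 x fun pO =>
        (if top3 (hd χ) ≤ D then (WtD (hd χ) D : ℝ) * γ (join (hd χ) D) else 0) *
        (if AL D' (hd pB) then g (hd pB) (hd pO) else 0) *
        (((VW pB pO).map (K3 (hts χ) D)).sum : ℕ) := by
  classical
  rw [mass_clsF D D' a b x hD hD' (hD.trans ha) hb (fun F => γ (zp F)) g]
  rw [PS_comm, PS_comm 0 (a - D)]
  refine PS_congr _ _ _ _ fun pB hB => ?_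
  rw [PS_comm, PS_comm 0 (a - D)]
  refine PS_congr _ _ _ _ fun pO hO => ?_
  have hpos : ∀ ts ∈ VW pB pO, ∀ t ∈ ts, 1 ≤ t := fun ts h t ht =>
    ((VW_mem (c := 1) le_rfl hB hO ts h).2 t ht).1
  obtain ⟨R, hR⟩ : ∃ R : ℝ, R = if AL D' (hd pB) then g (hd pB) (hd pO) else 0 := ⟨_, rfl⟩
  rw [← hR]
  have e1 : (fun p : Pth => (if AL D (hd p) then γ (zp (hd p)) else 0) * R *
      (((VW pB pO).map (N2 p)).sum : ℕ)) = fun p =>
        R * ((fun p => if AL D (hd p) then γ (zp (hd p)) else 0) p *
          (((VW pB pO).map (N2 p)).sum : ℕ)) := by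
    funext p
    ring
  have e2 : (fun χ : Pth => (if top3 (hd χ) ≤ D then (WtD (hd χ) D : ℝ) * γ (join (hd χ) D) else 0) *
      R * (((VW pB pO).map (K3 (hts χ) D)).sum : ℕ)) = fun χ =>
        R * ((fun χ => if top3 (hd χ) ≤ D then (WtD (hd χ) D : ℝ) * γ (join (hd χ) D) else 0) χ *
          (((VW pB pO).map (K3 (hts χ) D)).sum : ℕ)) := by
    funext p
    ring
  rw [e1, e2, PS_mul, PS_mul, M07b_list, M07b_list 0 (a - D) _ (fun χ => K3 (hts χ) D)]
  congr 2
  refine List.map_congr_left fun ts h => ?_
  exact M07b_one D a hD ha γ ts (hpos ts h)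

end Pool.ADM
end

section

end
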