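import Pool.Agent.Lib.MP_ad84ff_coM.N12d

section

/-! job ADM-23a: probabilities of full states, basics and `β = 1, 2`. -/

set_option autoImplicit false

namespace Pool.ADM

open Finset

theorem gna_nonneg (G : S3 → ℝ) (hG : ∀ σ, 0 ≤ G σ) (σ : S3) : 0 ≤ gna G σ := by
  unfold gna wsum
  apply List.sum_nonneg
  intro y hy
  rw [List.mem_map] at hy
  obtain ⟨x, _, rfl⟩ := hy
  apply mul_nonneg (Nat.cast_nonneg _)
  show (0 : ℝ) ≤ if x.2.1 = 0 then 0 else G x.2.2
  split_ifs
  · exact le_rfl
  · exact hG _

private theorem M23a_iter_nonneg (G : S3 → ℝ) (hG : ∀ σ, 0 ≤ G σ) (k : ℕ) (σ : S3) :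
    0 ≤ (gna^[k] G) σ := by
  induction k generalizing G with
  | zero => exact hG σ
  | succ k ih => rw [Function.iterate_succ_apply]; exact ih _ (gna_nonneg G hG)

private theorem M23a_start (β : ℕ) (hβ : 1 ≤ β) (p : Pth) (hp : VP 0 (β - 1) p) :
    Vs 0 β (hd p ++ [(1, 1, 0)]) := by
  have h1 := hp.vs (by omega)
  have h2 := join_vs (β - 1) (hd p) h1 1 le_rfl
  rw [join_one (β - 1) (hd p) h1] at h2
  have h3 : β - 1 + 1 = β := by omega
  rwa [h3] at h2

private theorem M23a_gna_mono (n : ℕ) (G H : S3 → ℝ) (h : ∀ σ, Vs 0 (n + 1) σ → G σ ≤ H σ) (σ : S3)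
    (hσ : Vs 0 n σ) : gna G σ ≤ gna H σ := by
  unfold gna
  apply wsum_mono
  intro x hx hx0
  split_ifs
  · exact le_rfl
  · exact h _ (suc_vs 0 n (by omega) σ hσ x hx hx0)

private theorem M23a_iter_mono (k n : ℕ) (G H : S3 → ℝ)
    (h : ∀ σ, Vs 0 (n + k) σ → G σ ≤ H σ) (σ : S3) (hσ : Vs 0 n σ) :
    (gna^[k] G) σ ≤ (gna^[k] H) σ := by
  induction k generalizing G H with
  | zero => exact h σ hσ
  | succ k ih =>
    rw [Function.iterate_succ_apply, Function.iterate_succ_apply]
    exact ih _ _ (fun ρ hρ => M23a_gna_mono (n + k) G H h ρ hρ)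

theorem Qn_mono (β k : ℕ) (hβ : 1 ≤ β) (G H : S3 → ℝ)
    (h : ∀ σ, Vs 0 (β + k) σ → G σ ≤ H σ) : Qn β k G ≤ Qn β k H := by
  unfold Qn
  apply PS_mono
  intro p hp
  exact M23a_iter_mono k β G H h _ (M23a_start β hβ p hp)

private theorem M23a_gna_add (G H : S3 → ℝ) :
    gna (fun σ => G σ + H σ) = fun σ => gna G σ + gna H σ := by
  funext σ
  unfold gna
  rw [← wsum_add]
  congr 1
  funext h ρ
  split_ifs
  · rw [add_zero]
  · rfl

private theorem M23a_gna_mul (c : ℝ) (G : S3 → ℝ) :
    gna (fun σ => c * G σ) = fun σ => c * gna G σ := by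
  funext σ
  unfold gna
  rw [← wsum_mul]
  congr 1
  funext h ρ
  split_ifs
  · rw [mul_zero]
  · rfl

private theorem M23a_iter_add (k : ℕ) (G H : S3 → ℝ) (σ : S3) :
    (gna^[k] (fun σ => G σ + H σ)) σ = (gna^[k] G) σ + (gna^[k] H) σ := by
  induction k generalizing G H with
  | zero => rfl
  | succ k ih =>
    rw [Function.iterate_succ_apply, Function.iterate_succ_apply, Function.iterate_succ_apply,
      M23a_gna_add]
    exact ih _ _

private theorem M23a_iter_mul (k : ℕ) (c : ℝ) (G : S3 → ℝ) (σ : S3) :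
    (gna^[k] (fun σ => c * G σ)) σ = c * (gna^[k] G) σ := by
  induction k generalizing G with
  | zero => rfl
  | succ k ih =>
    rw [Function.iterate_succ_apply, Function.iterate_succ_apply, M23a_gna_mul]
    exact ih _

theorem Qn_add (β k : ℕ) (G H : S3 → ℝ) : Qn β k (fun σ => G σ + H σ) = Qn β k G + Qn β k H := by
  unfold Qn
  rw [← PS_add]
  congr 1
  funext p
  exact M23a_iter_add k G H _

theorem Qn_mul (β k : ℕ) (c : ℝ) (G : S3 → ℝ) : Qn β k (fun σ => c * G σ) = c * Qn β k G := by
  unfold Qn
  rw [← PS_mul]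
  congr 1
  funext p
  exact M23a_iter_mul k c G _

theorem Qn_succ (β k : ℕ) (G : S3 → ℝ) : Qn β (k + 1) G = Qn β k (gna G) := by
  unfold Qn
  congr 1

private theorem M23a_Qn_congr (β k : ℕ) (hβ : 1 ≤ β) (G H : S3 → ℝ)
    (h : ∀ σ, Vs 0 (β + k) σ → G σ = H σ) : Qn β k G = Qn β k H :=
  le_antisymm (Qn_mono β k hβ G H fun σ hσ => (h σ hσ).le)
    (Qn_mono β k hβ H G fun σ hσ => (h σ hσ).ge)

private theorem M23a_gna_one (n : ℕ) (σ : S3) (hσ : Vs 0 n σ) : gna (fun _ => 1) σ = (n : ℝ) := by
  have h1 := wsum_suc_one 0 n (by omega) σ hσ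
  have h2 := suc_append 0 n σ hσ (fun _ => 1)
  have h3 : wsum (suc 0 σ) (fun _ _ => (1 : ℝ)) =
      wsum (suc 0 σ) (fun h ρ => if h = 0 then (1 : ℝ) else 0) + gna (fun _ => 1) σ := by
    unfold gna
    rw [← wsum_add]
    congr 1
    funext h ρ
    split_ifs
    · rw [add_zero]
    · rw [zero_add]
  rw [h1, h2] at h3
  linarith

/-- total mass: `(β-1)! * β * (β+1) ⋯ (β+k-1)`. -/
theorem Qn_one (β k : ℕ) (hβ : 1 ≤ β) : Qn β k (fun _ => 1) = ((β + k - 1).factorial : ℝ) := by
  induction k with
  | zero =>
    unfold Qn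
    exact PS_one 0 (β - 1) (by omega)
  | succ k ih =>
    rw [Qn_succ, M23a_Qn_congr β k hβ _ (fun _ => ((β + k : ℕ) : ℝ) * 1)
      (fun σ hσ => by rw [M23a_gna_one _ σ hσ, mul_one]), Qn_mul, ih]
    obtain ⟨m, rfl⟩ : ∃ m, β = m + 1 := ⟨β - 1, by omega⟩
    have e1 : m + 1 + k - 1 = m + k := by omega
    have e2 : m + 1 + (k + 1) - 1 = m + k + 1 := by omega
    have e3 : m + 1 + k = m + k + 1 := by omega
    rw [e1, e2, e3, Nat.factorial_succ]
    push_cast
    ring

private theorem M23a_Qn_nonneg (β k : ℕ) (G : S3 → ℝ) (hG : ∀ σ, 0 ≤ G σ) : 0 ≤ Qn β k G := by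
  unfold Qn
  exact PS_nonneg _ _ _ (fun p _ => M23a_iter_nonneg G hG k _)

theorem q1_nonneg (β a D : ℕ) : 0 ≤ q1 β a D := by
  unfold q1
  split_ifs with h
  · exact le_rfl
  · apply div_nonneg _ (Nat.cast_nonneg _)
    apply M23a_Qn_nonneg
    intro σ
    split_ifs
    · exact zero_le_one
    · exact le_rfl

theorem q2_nonneg (β a D : ℕ) : 0 ≤ q2 β a D := by
  unfold q2
  split_ifs with h
  · exact le_rfl
  · apply div_nonneg _ (Nat.cast_nonneg _)
    apply M23a_Qn_nonneg
    intro σ
    split_ifs
    · exact Nat.cast_nonneg _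
    · exact le_rfl

private theorem M23a_lsz_le (σ : S3) : lsz σ ≤ sz σ := by
  unfold lsz sz
  induction σ with
  | nil => simp
  | cons F τ ih =>
    cases τ with
    | nil => simp
    | cons G ν =>
      have h1 : (F :: G :: ν).getLastD (0, 0, 0) = (G :: ν).getLastD (0, 0, 0) := rfl
      rw [h1, List.map_cons, List.sum_cons]
      omega

theorem q2_le_q1 (β a D : ℕ) (hβ : 1 ≤ β) : q2 β a D ≤ q1 β a D := by
  unfold q2 q1
  split_ifs with h
  · exact le_rfl
  · obtain ⟨m, rfl⟩ : ∃ m, a = m + 1 := ⟨a - 1, by omega⟩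
    have h1 : Qn β (m + 1 - β) (fun σ => if AL D σ then (lsz σ : ℝ) else 0) ≤
        ((m + 1 : ℕ) : ℝ) * Qn β (m + 1 - β) (fun σ => if AL D σ then 1 else 0) := by
      rw [← Qn_mul]
      apply Qn_mono _ _ hβ
      intro σ hσ
      have e1 : β + (m + 1 - β) = m + 1 := by omega
      rw [e1] at hσ
      split_ifs
      · rw [mul_one]
        have h2 := M23a_lsz_le σ
        rw [hσ.sum] at h2
        exact_mod_cast h2
      · rw [mul_zero]
    rw [Nat.add_sub_cancel, Nat.factorial_succ, Nat.cast_mul]
    have hm : (0 : ℝ) < (m.factorial : ℝ) := by exact_mod_cast Nat.factorial_pos m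
    have hm1 : (0 : ℝ) < ((m + 1 : ℕ) : ℝ) := by exact_mod_cast Nat.succ_pos m
    rw [div_le_div_iff₀ (mul_pos hm1 hm) hm]
    have h3 := mul_le_mul_of_nonneg_right h1 hm.le
    calc _ ≤ _ := h3
      _ = _ := by ring

private theorem M23a_single (G : S3 → ℝ) (m : ℕ) (hm : 1 ≤ m) :
    gna G [(m, m, 0)] = (m : ℝ) * G [(m + 1, m + 1, 0)] := by
  unfold gna
  rw [wsum_suc_cons]
  have h0 : m ≠ 0 := by omega
  simp [suc, wsum, h0]

private theorem M23a_iter_single (G : S3 → ℝ) (k m : ℕ) (hm : 1 ≤ m)
    (h : G [(m + k, m + k, 0)] = 0) : (gna^[k] G) [(m, m, 0)] = 0 := by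
  induction k generalizing m with
  | zero => exact h
  | succ k ih =>
    rw [Function.iterate_succ_apply', M23a_single _ m hm, ih (m + 1) (by omega), mul_zero]
    have e : m + 1 + k = m + (k + 1) := by omega
    rw [e]
    exact h

/-- the only append is the first letter: the state is a single packet `(a, a)`. -/
theorem q_one (a D : ℕ) (h : a ≠ D) : q1 1 a D = 0 ∧ q2 1 a D = 0 := by
  have key : ∀ G : S3 → ℝ, ¬ a < 1 → G [(a, a, 0)] = 0 → Qn 1 (a - 1) G = 0 := by
    intro G ha hG
    show (gna^[a - 1] G) [(1, 1, 0)] = 0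
    apply M23a_iter_single G (a - 1) 1 le_rfl
    have e : 1 + (a - 1) = a := by omega
    rw [e]
    exact hG
  have hAL : ¬ AL D [(a, a, 0)] := by
    intro hh
    exact h (hh.2 (a, a, 0) (by simp))
  unfold q1 q2
  constructor
  · split_ifs with ha
    · rfl
    · rw [key _ ha (if_neg hAL), zero_div]
  · split_ifs with ha
    · rfl
    · rw [key _ ha (if_neg hAL), zero_div]

end Pool.ADM
end

section

/-! job ADM-14a: words in `F, B, O` in coordinates. -/

set_option autoImplicit false

namespace Pool.ADM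

open Finset

/-- last level after `j` letters of the history -/
def lsts (p : Pth) : List ℕ := p.map fun y => last3 y.2

private theorem M14a_last_cons (F G : ℕ × ℕ × ℕ) (τ : S3) :
    last3 (F :: G :: τ) = last3 (G :: τ) := by
  simp only [last3, List.getLastD_cons]

private theorem M14a_glue (F : ℕ × ℕ × ℕ) (ρ : S3) : last3 ρ ≤ last3 (glue3 F ρ) := by
  cases ρ with
  | nil => simp [last3]
  | cons G ρ =>
    simp only [glue3]
    split_ifs with h
    · cases ρ with
      | nil => simp [last3]
      | cons H ρ => rw [M14a_last_cons, M14a_last_cons]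
    · rw [M14a_last_cons]

private theorem M14a_suc (c : ℕ) (σ : S3) : ∀ x ∈ suc c σ, x.2.1 ≠ 0 → last3 σ ≤ last3 x.2.2 := by
  induction σ with
  | nil =>
    intro x hx h
    simp only [suc, List.mem_singleton] at hx
    subst hx
    exact absurd rfl h
  | cons F τ ih =>
    intro x hx h
    simp only [suc, List.mem_cons, List.mem_map] at hx
    rcases hx with rfl | rfl | ⟨y, hy, rfl⟩
    · cases τ with
      | nil => simp [last3]
      | cons G τ => rw [M14a_last_cons, M14a_last_cons]
    · cases τ with
      | nil => simp [last3]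
      | cons G τ => rw [M14a_last_cons, M14a_last_cons]
    · cases τ with
      | nil =>
        simp only [suc, List.mem_singleton] at hy
        subst hy
        exact absurd rfl h
      | cons G τ =>
        rw [M14a_last_cons]
        exact (ih y hy h).trans (M14a_glue F y.2.2)

private theorem M14a_et_lt (x : ℕ) (l : List ℕ) (j : ℕ) (h : j < l.length) :
    et (x :: l) j = et l j := by
  unfold et
  rw [List.reverse_cons, List.getD_append _ _ _ _ (by simpa using h)]

private theorem M14a_et_eq (x : ℕ) (l : List ℕ) : et (x :: l) l.length = x := by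
  unfold et
  rw [List.reverse_cons, List.getD_append_right _ _ _ _ (by simp)]
  simp

private theorem M14a_lam_le (x : ℕ) (l : List ℕ) (j : ℕ) (h : j ≤ l.length) :
    lam (x :: l) j = lam l j := by
  unfold lam
  split_ifs with h0
  · rfl
  · exact M14a_et_lt x l (j - 1) (by omega)

private theorem M14a_lam_eq (x : ℕ) (l : List ℕ) : lam (x :: l) (l.length + 1) = x := by
  unfold lam
  rw [if_neg (by omega)]
  exact M14a_et_eq x l

private theorem M14a_hd (p : Pth) : lam (lsts p) p.length = last3 (hd p) := by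
  cases p with
  | nil => simp [lam, last3, hd]
  | cons y p =>
    have := M14a_lam_eq (last3 y.2) (lsts p)
    simpa [lsts, hd] using this

private theorem M14a_len {c n : ℕ} {p : Pth} (h : VP c n p) : p.length = n := by
  induction h with
  | nil => rfl
  | cons _ _ _ ih => simp [ih]

private theorem M14a_step {c n : ℕ} {p : Pth} (h : VP c n p) :
    ∀ j < n, et (hts p) j ≠ 0 → lam (lsts p) j ≤ lam (lsts p) (j + 1) := by
  induction h with
  | nil => intro j hj; omega
  | @cons n p w h σ hp hw hs ih =>
    have hlen := M14a_len hp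
    have hl1 : (lsts p).length = n := by simp [lsts, hlen]
    have hl2 : (hts p).length = n := by simp [hts, hlen]
    have e1 : lsts ((h, σ) :: p) = last3 σ :: lsts p := rfl
    have e2 : hts ((h, σ) :: p) = h :: hts p := rfl
    intro j hj hne
    rw [e1]
    rw [e2] at hne
    rcases Nat.lt_or_ge j n with hjn | hjn
    · rw [M14a_et_lt _ _ _ (by omega)] at hne
      rw [M14a_lam_le _ _ _ (by omega), M14a_lam_le _ _ _ (by omega)]
      exact ih j hjn hne
    · have hjn' : j = n := by omega
      subst hjn'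
      rw [← hl2, M14a_et_eq] at hne
      have h3 := M14a_lam_eq (last3 σ) (lsts p)
      rw [hl1] at h3
      rw [M14a_lam_le _ _ _ (by omega), h3, ← hlen, M14a_hd]
      exact M14a_suc c (hd p) _ hs hne

/-- after the last append the last level is nondecreasing. -/
theorem lst_mono {b : ℕ} {pB : Pth} (hB : VP 1 b pB) (b1 b2 : ℕ) (h12 : b1 ≤ b2) (h2 : b2 ≤ b)
    (hap : ∀ j < b, et (hts pB) j = 0 → j < b1) : lam (lsts pB) b1 ≤ lam (lsts pB) b2 := by
  induction b2, h12 using Nat.le_induction with
  | base => exact le_refl _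
  | succ m hm ih =>
    refine (ih (by omega)).trans ?_
    apply M14a_step hB m (by omega)
    intro h0
    have := hap m (by omega) h0
    omega

/-- `Val` is a down-set in `c`. -/
theorem Val_down (b x : ℕ) (h lst o : ℕ → ℕ)
    (hl : ∀ b1 b2, b1 ≤ b2 → b2 ≤ b → (∀ j < b, h j = 0 → j < b1) → lst b1 ≤ lst b2)
    (c c' : Fin b → ℕ) (hc : ∀ i j : Fin b, i ≤ j → c' i ≤ c' j) (hcc : c ≤ c')
    (hv : Val b x h lst o c') : Val b x h lst o c := by
  obtain ⟨h1, h2⟩ := hv
  refine ⟨fun j hj => ?_, fun i => (h2 i).trans ?_⟩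
  · have h3 := h1 j hj
    have h4 : c j ≤ c' j := hcc j
    omega
  · apply hl
    · apply Finset.card_le_card
      intro j hj
      rw [Finset.mem_filter] at hj ⊢
      exact ⟨hj.1, (hcc j).trans hj.2⟩
    · calc (univ.filter fun j : Fin b => c j ≤ (i : ℕ)).card ≤ (univ : Finset (Fin b)).card :=
          Finset.card_le_card (Finset.filter_subset _ _)
        _ = b := by simp
    · intro j hj hj0
      have hsub : (Finset.univ.filter fun j' : Fin b => (j' : ℕ) ≤ j) ⊆
          (univ.filter fun j : Fin b => c' j ≤ (i : ℕ)) := by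
        intro j' hj'
        rw [Finset.mem_filter] at hj' ⊢
        refine ⟨hj'.1, ?_⟩
        have h4 := hc j' ⟨j, hj⟩ (by rw [Fin.le_def]; exact hj'.2)
        have h5 := h1 ⟨j, hj⟩ hj0
        omega
      have hcard : (Finset.univ.filter fun j' : Fin b => (j' : ℕ) ≤ j).card = j + 1 := by
        have h6 : (Finset.univ.filter fun j' : Fin b => (j' : ℕ) ≤ j) = Finset.Iic ⟨j, hj⟩ := by
          ext j'
          simp [Fin.le_def]
        rw [h6, Fin.card_Iic]
      have := Finset.card_le_card hsub
      omega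

end Pool.ADM
end

section

/-! job ADM-14b: words in `F, B, O` in coordinates. -/

set_option autoImplicit false

namespace Pool.ADM

open Finset

/-- the set of words in coordinates -/
private def M14b_S (a b x : ℕ) (L T H Ls O : ℕ → ℕ) : Finset ((Fin a → ℕ) × (Fin b → ℕ)) :=
  (UFB a b x L T).filter fun gc => Val b x H Ls O gc.2

private theorem M14b_mem {a b x : ℕ} {L T H Ls O : ℕ → ℕ} {g : Fin a → ℕ} {c : Fin b → ℕ} :
    (g, c) ∈ M14b_S a b x L T H Ls O ↔
      ((∀ i, g i ≤ b + x) ∧ ∀ i j : Fin a, i ≤ j → g i ≤ g j) ∧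
      ((∀ j, c j ≤ x) ∧ ∀ i j : Fin b, i ≤ j → c i ≤ c j) ∧
      (∀ (i : Fin a) (j : Fin b), L i < T j → g i ≤ (j : ℕ) + c j) ∧
      (∀ j : Fin b, H j = 0 → c j = 0) ∧
      ∀ i : Fin x, O i ≤ Ls ((univ.filter fun j : Fin b => c j ≤ (i : ℕ)).card) := by
  unfold M14b_S UFB Val
  simp only [Finset.mem_filter, Finset.mem_product, mem_mon]
  tauto

private theorem M14b_congr {a b x : ℕ} {L T H Ls O L' T' H' Ls' O' : ℕ → ℕ}
    (h1 : ∀ i < a, L i = L' i) (h2 : ∀ i < b, T i = T' i) (h3 : ∀ i < b, H i = H' i)
    (h4 : ∀ i ≤ b, Ls i = Ls' i) (h5 : ∀ i < x, O i = O' i) :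
    M14b_S a b x L T H Ls O = M14b_S a b x L' T' H' Ls' O' := by
  ext ⟨g, c⟩
  rw [M14b_mem, M14b_mem]
  have e1 : ∀ i : Fin a, L i = L' i := fun i => h1 i i.2
  have e2 : ∀ i : Fin b, T i = T' i := fun i => h2 i i.2
  have e3 : ∀ i : Fin b, H i = H' i := fun i => h3 i i.2
  have e4 : ∀ i : Fin x, Ls ((univ.filter fun j : Fin b => c j ≤ (i : ℕ)).card) =
      Ls' ((univ.filter fun j : Fin b => c j ≤ (i : ℕ)).card) := fun i => h4 _ (by
    calc _ ≤ (univ : Finset (Fin b)).card := Finset.card_le_card (Finset.filter_subset _ _)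
      _ = b := by simp)
  have e5 : ∀ i : Fin x, O i = O' i := fun i => h5 i i.2
  simp only [e1, e2, e3, e4, e5]

private theorem M14b_cardS {b : ℕ} (p : Fin (b + 1) → Prop) [DecidablePred p] :
    (univ.filter p).card = (univ.filter fun j : Fin b => p j.castSucc).card +
      if p (Fin.last b) then 1 else 0 := by
  rw [Finset.card_filter, Finset.card_filter, Fin.sum_univ_castSucc]

/-- last letter `F` -/
private theorem M14b_F (a b x : ℕ) (L T H Ls O : ℕ → ℕ) :
    ((M14b_S (a + 1) b x L T H Ls O).filter fun gc => gc.1 (Fin.last a) = b + x).card =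
      if ∀ j < b, T j ≤ L a then (M14b_S a b x L T H Ls O).card else 0 := by
  split_ifs with hT
  · refine Finset.card_nbij' (fun gc => (fun i => gc.1 i.castSucc, gc.2))
      (fun gc => ((Fin.snoc gc.1 (b + x) : Fin (a + 1) → ℕ), gc.2)) ?_ ?_ ?_ ?_
    · rintro ⟨g, c⟩ hg
      simp only [Finset.coe_filter, Set.mem_ofPred_eq] at hg
      obtain ⟨hg, -⟩ := hg
      rw [M14b_mem] at hg
      obtain ⟨⟨h1, h2⟩, h3, h4, h5, h6⟩ := hg
      simp only [Finset.mem_coe]
      rw [M14b_mem]
      exact ⟨⟨fun i => h1 _, fun i j hij => h2 _ _ (by simpa using hij)⟩, h3,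
        fun i j hij => h4 i.castSucc j (by simpa using hij), h5, h6⟩
    · rintro ⟨g, c⟩ hg
      simp only [Finset.mem_coe] at hg
      rw [M14b_mem] at hg
      obtain ⟨⟨h1, h2⟩, h3, h4, h5, h6⟩ := hg
      simp only [Finset.coe_filter, Set.mem_ofPred_eq]
      refine ⟨?_, by simp⟩
      rw [M14b_mem]
      refine ⟨⟨fun i => ?_, fun i j hij => ?_⟩, h3, fun i j => ?_, h5, h6⟩
      · refine Fin.lastCases ?_ (fun j => ?_) i
        · simp
        · simpa using h1 j
      · revert hij
        refine Fin.lastCases ?_ (fun j' => ?_) j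
        · intro _
          refine Fin.lastCases ?_ (fun i' => ?_) i
          · simp
          · simpa using h1 i'
        · refine Fin.lastCases ?_ (fun i' => ?_) i
          · intro h
            exact absurd h (by simp)
          · intro h
            simpa using h2 i' j' (by simpa using h)
      · refine Fin.lastCases ?_ (fun i' => ?_) i
        · intro h
          have := hT j j.2
          simp only [Fin.val_last] at h
          omega
        · intro h
          simpa using h4 i' j (by simpa using h)
    · rintro ⟨g, c⟩ hg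
      simp only [Finset.coe_filter, Set.mem_ofPred_eq] at hg
      obtain ⟨-, hg⟩ := hg
      simp only [Prod.mk.injEq, and_true]
      funext i
      refine Fin.lastCases ?_ (fun j => ?_) i
      · simp [hg]
      · simp
    · rintro ⟨g, c⟩ -
      simp
  · rw [Finset.card_eq_zero, Finset.filter_eq_empty_iff]
    rintro ⟨g, c⟩ hg hl
    rw [M14b_mem] at hg
    obtain ⟨-, ⟨h3, -⟩, h4, -, -⟩ := hg
    apply hT
    intro j hj
    by_contra hlt
    have h7 := h4 (Fin.last a) ⟨j, hj⟩ (by simpa using hlt)
    have h8 := h3 ⟨j, hj⟩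
    simp only at hl h7
    omega

/-- last letter `B` -/
private theorem M14b_B (a b x : ℕ) (L T H Ls O : ℕ → ℕ) :
    ((M14b_S (a + 1) (b + 1) x L T H Ls O).filter fun gc =>
      gc.1 (Fin.last a) ≠ b + 1 + x ∧ gc.2 (Fin.last b) = x).card =
      if H b = 0 ∧ x ≠ 0 then 0 else (M14b_S (a + 1) b x L T H Ls O).card := by
  split_ifs with hT
  · rw [Finset.card_eq_zero, Finset.filter_eq_empty_iff]
    rintro ⟨g, c⟩ hg ⟨-, hl⟩
    rw [M14b_mem] at hg
    obtain ⟨-, -, -, h5, -⟩ := hg
    have := h5 (Fin.last b) (by simpa using hT.1)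
    exact hT.2 (by simp only at hl; omega)
  · refine Finset.card_nbij' (fun gc => (gc.1, fun i => gc.2 i.castSucc))
      (fun gc => (gc.1, (Fin.snoc gc.2 x : Fin (b + 1) → ℕ))) ?_ ?_ ?_ ?_
    · rintro ⟨g, c⟩ hg
      simp only [Finset.coe_filter, Set.mem_ofPred_eq] at hg
      obtain ⟨hg, hl1, hl2⟩ := hg
      rw [M14b_mem] at hg
      obtain ⟨⟨h1, h2⟩, ⟨h3, h3'⟩, h4, h5, h6⟩ := hg
      simp only [Finset.mem_coe]
      rw [M14b_mem]
      refine ⟨⟨fun i => ?_, h2⟩, ⟨fun j => h3 _, fun i j hij => h3' _ _ (by simpa using hij)⟩,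
        fun i j hij => h4 i j.castSucc (by simpa using hij), fun j hj => h5 _ (by simpa using hj),
        fun i => ?_⟩
      · have h7 := h1 (Fin.last a)
        have h8 := h2 i (Fin.last a) (Fin.le_last i)
        omega
      · have h7 := h6 i
        rw [M14b_cardS, if_neg (by rw [hl2]; have := i.2; omega), Nat.add_zero] at h7
        exact h7
    · rintro ⟨g, c⟩ hg
      simp only [Finset.mem_coe] at hg
      rw [M14b_mem] at hg
      obtain ⟨⟨h1, h2⟩, ⟨h3, h3'⟩, h4, h5, h6⟩ := hg
      simp only [Finset.coe_filter, Set.mem_ofPred_eq]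
      refine ⟨?_, ?_, by simp⟩
      · rw [M14b_mem]
        refine ⟨⟨fun i => (h1 i).trans (by omega), h2⟩, ⟨fun j => ?_, fun i j hij => ?_⟩,
          fun i j => ?_, fun j => ?_, fun i => ?_⟩
        · refine Fin.lastCases ?_ (fun j => ?_) j
          · simp
          · simpa using h3 j
        · revert hij
          refine Fin.lastCases ?_ (fun j' => ?_) j
          · intro _
            refine Fin.lastCases ?_ (fun i' => ?_) i
            · simp
            · simpa using h3 i'
          · refine Fin.lastCases ?_ (fun i' => ?_) i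
            · intro h
              exact absurd h (by simp)
            · intro h
              simpa using h3' i' j' (by simpa using h)
        · refine Fin.lastCases ?_ (fun j' => ?_) j
          · intro _
            simpa using h1 i
          · intro h
            simpa using h4 i j' (by simpa using h)
        · refine Fin.lastCases ?_ (fun j' => ?_) j
          · intro h
            simp only [Fin.val_last] at h
            by_contra hx
            exact hT ⟨h, by simpa using hx⟩
          · intro h
            simpa using h5 j' (by simpa using h)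
        · rw [M14b_cardS, if_neg (by simp), Nat.add_zero]
          simpa using h6 i
      · have h7 := h1 (Fin.last a)
        omega
    · rintro ⟨g, c⟩ hg
      simp only [Finset.coe_filter, Set.mem_ofPred_eq] at hg
      obtain ⟨-, -, hg⟩ := hg
      simp only [Prod.mk.injEq, true_and]
      funext i
      refine Fin.lastCases ?_ (fun j => ?_) i
      · simp [hg]
      · simp
    · rintro ⟨g, c⟩ -
      simp

/-- last letter `O` -/
private theorem M14b_O (a b x : ℕ) (L T H Ls O : ℕ → ℕ) :
    ((M14b_S (a + 1) (b + 1) (x + 1) L T H Ls O).filter fun gc =>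
      gc.1 (Fin.last a) ≠ b + 1 + (x + 1) ∧ gc.2 (Fin.last b) ≠ x + 1).card =
      if O x ≤ Ls (b + 1) then (M14b_S (a + 1) (b + 1) x L T H Ls O).card else 0 := by
  have hall : ∀ c : Fin (b + 1) → ℕ, (∀ j, c j ≤ x) →
      (univ.filter fun j : Fin (b + 1) => c j ≤ x).card = b + 1 := by
    intro c hc
    rw [Finset.filter_true_of_mem fun j _ => hc j]
    simp
  split_ifs with hT
  · refine Finset.card_nbij' (fun gc => gc) (fun gc => gc) ?_ ?_ ?_ ?_
    · rintro ⟨g, c⟩ hg
      simp only [Finset.coe_filter, Set.mem_ofPred_eq] at hg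
      obtain ⟨hg, hl1, hl2⟩ := hg
      rw [M14b_mem] at hg
      obtain ⟨⟨h1, h2⟩, ⟨h3, h3'⟩, h4, h5, h6⟩ := hg
      simp only [Finset.mem_coe]
      rw [M14b_mem]
      refine ⟨⟨fun i => ?_, h2⟩, ⟨fun j => ?_, h3'⟩, h4, h5, fun i => ?_⟩
      · have h7 := h1 (Fin.last a)
        have h8 := h2 i (Fin.last a) (Fin.le_last i)
        omega
      · have h7 := h3 (Fin.last b)
        have h8 := h3' j (Fin.last b) (Fin.le_last j)
        omega
      · simpa using h6 i.castSucc
    · rintro ⟨g, c⟩ hg
      simp only [Finset.mem_coe] at hg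
      rw [M14b_mem] at hg
      obtain ⟨⟨h1, h2⟩, ⟨h3, h3'⟩, h4, h5, h6⟩ := hg
      simp only [Finset.coe_filter, Set.mem_ofPred_eq]
      refine ⟨?_, ?_, ?_⟩
      · rw [M14b_mem]
        refine ⟨⟨fun i => (h1 i).trans (by omega), h2⟩,
          ⟨fun j => (h3 j).trans (Nat.le_succ x), h3'⟩, h4, h5, fun i => ?_⟩
        refine Fin.lastCases ?_ (fun j => ?_) i
        · simp only [Fin.val_last]
          rw [hall c h3]
          exact hT
        · simpa using h6 j
      · have h7 := h1 (Fin.last a)
        omega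
      · have h7 := h3 (Fin.last b)
        omega
    · rintro ⟨g, c⟩ -
      rfl
    · rintro ⟨g, c⟩ -
      rfl
  · rw [Finset.card_eq_zero, Finset.filter_eq_empty_iff]
    rintro ⟨g, c⟩ hg ⟨-, hl⟩
    rw [M14b_mem] at hg
    obtain ⟨-, ⟨h3, h3'⟩, -, -, h6⟩ := hg
    apply hT
    have h7 := h6 (Fin.last x)
    simp only [Fin.val_last] at h7
    rw [hall c fun j => ?_] at h7
    · exact h7
    · have h8 := h3 (Fin.last b)
      have h9 := h3' j (Fin.last b) (Fin.le_last j)
      simp only at hl
      omega

private theorem M14b_step (a b x : ℕ) (L T H Ls O : ℕ → ℕ) :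
    (M14b_S (a + 1) (b + 1) (x + 1) L T H Ls O).card =
      (if ∀ j < b + 1, T j ≤ L a then (M14b_S a (b + 1) (x + 1) L T H Ls O).card else 0) +
      ((if H b = 0 then 0 else (M14b_S (a + 1) b (x + 1) L T H Ls O).card) +
      if O x ≤ Ls (b + 1) then (M14b_S (a + 1) (b + 1) x L T H Ls O).card else 0) := by
  rw [← M14b_F, ← M14b_O]
  have hB := M14b_B a b (x + 1) L T H Ls O
  simp only [ne_eq, Nat.succ_ne_zero, not_false_eq_true, and_true] at hB
  rw [← hB]
  rw [← Finset.card_filter_add_card_filter_not
    (s := M14b_S (a + 1) (b + 1) (x + 1) L T H Ls O)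
    (fun gc => gc.1 (Fin.last a) = b + 1 + (x + 1))]
  congr 1
  rw [← Finset.card_filter_add_card_filter_not
    (s := (M14b_S (a + 1) (b + 1) (x + 1) L T H Ls O).filter
      fun gc => ¬ gc.1 (Fin.last a) = b + 1 + (x + 1))
    (fun gc => gc.2 (Fin.last b) = x + 1), Finset.filter_filter, Finset.filter_filter]

private theorem M14b_step0 (a b : ℕ) (L T H Ls O : ℕ → ℕ) :
    (M14b_S (a + 1) (b + 1) 0 L T H Ls O).card =
      (if ∀ j < b + 1, T j ≤ L a then (M14b_S a (b + 1) 0 L T H Ls O).card else 0) +
      (M14b_S (a + 1) b 0 L T H Ls O).card := by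
  rw [← M14b_F]
  have hB := M14b_B a b 0 L T H Ls O
  rw [if_neg (by simp)] at hB
  rw [← hB]
  rw [← Finset.card_filter_add_card_filter_not
    (s := M14b_S (a + 1) (b + 1) 0 L T H Ls O)
    (fun gc => gc.1 (Fin.last a) = b + 1 + 0)]
  congr 1
  refine congrArg Finset.card (Finset.filter_congr ?_)
  rintro ⟨g, c⟩ hg
  rw [M14b_mem] at hg
  obtain ⟨-, ⟨h3, -⟩, -⟩ := hg
  have := h3 (Fin.last b)
  simp only [ne_eq]
  constructor
  · intro h
    exact ⟨h, by omega⟩
  · intro h
    exact h.1

private theorem M14b_b0 (a : ℕ) (L T H Ls O : ℕ → ℕ) : (M14b_S a 0 0 L T H Ls O).card = 1 := by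
  rw [Finset.card_eq_one]
  refine ⟨(fun _ => 0, fun j => j.elim0), ?_⟩
  ext ⟨g, c⟩
  rw [M14b_mem, Finset.mem_singleton, Prod.mk.injEq]
  constructor
  · rintro ⟨⟨h1, -⟩, -⟩
    exact ⟨funext fun i => Nat.le_zero.mp (h1 i), funext fun j => j.elim0⟩
  · rintro ⟨rfl, rfl⟩
    exact ⟨⟨fun _ => by simp, fun _ _ _ => le_refl _⟩, ⟨fun j => j.elim0, fun i => i.elim0⟩,
      fun _ j => j.elim0, fun j => j.elim0, fun i => i.elim0⟩

private theorem M14b_b0x (a x : ℕ) (L T H Ls O : ℕ → ℕ) (h : ¬ O 0 ≤ Ls 0) :
    (M14b_S a 0 (x + 1) L T H Ls O).card = 0 := by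
  rw [Finset.card_eq_zero, Finset.eq_empty_iff_forall_notMem]
  rintro ⟨g, c⟩ hg
  rw [M14b_mem] at hg
  obtain ⟨-, -, -, -, h6⟩ := hg
  have h7 := h6 ⟨0, by omega⟩
  apply h
  simpa using h7

private theorem M14b_et_lt (x : ℕ) (l : List ℕ) (j : ℕ) (h : j < l.length) :
    et (x :: l) j = et l j := by
  unfold et
  rw [List.reverse_cons, List.getD_append _ _ _ _ (by simpa using h)]

private theorem M14b_et_eq (x : ℕ) (l : List ℕ) : et (x :: l) l.length = x := by
  unfold et
  rw [List.reverse_cons, List.getD_append_right _ _ _ _ (by simp)]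
  simp

private theorem M14b_lam_le (x : ℕ) (l : List ℕ) (j : ℕ) (h : j ≤ l.length) :
    lam (x :: l) j = lam l j := by
  unfold lam
  split_ifs with h0
  · rfl
  · exact M14b_et_lt x l (j - 1) (by omega)

private theorem M14b_lam_hd (l : List ℕ) : lam l l.length = l.headD 0 := by
  cases l with
  | nil => simp [lam]
  | cons x l =>
    unfold lam
    rw [List.length_cons, if_neg (by omega)]
    exact M14b_et_eq x l

private theorem M14b_et_mem (l : List ℕ) (C : ℕ) :
    (∀ j < l.length, et l j ≤ C) ↔ ∀ t ∈ l, t ≤ C := by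
  induction l with
  | nil => simp
  | cons x l ih =>
    constructor
    · intro h t ht
      rcases List.mem_cons.1 ht with rfl | ht
      · have := h l.length (by simp)
        rwa [M14b_et_eq] at this
      · refine ih.1 (fun j hj => ?_) t ht
        have := h j (by simp; omega)
        rwa [M14b_et_lt _ _ _ hj] at this
    · intro h j hj
      rw [List.length_cons] at hj
      rcases Nat.lt_or_ge j l.length with hjn | hjn
      · rw [M14b_et_lt _ _ _ hjn]
        exact ih.2 (fun t ht => h t (List.mem_cons_of_mem _ ht)) j hjn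
      · have hj' : j = l.length := by omega
        rw [hj', M14b_et_eq]
        exact h x (List.mem_cons_self)

private theorem M14b_et_pos (l : List ℕ) (h : ∀ t ∈ l, 1 ≤ t) (hl : l ≠ []) : 1 ≤ et l 0 := by
  unfold et
  have h1 : 0 < l.reverse.length := by
    rw [List.length_reverse]
    exact List.length_pos_iff.2 hl
  rw [List.getD_eq_getElem _ _ h1]
  exact h _ (List.mem_reverse.1 (List.getElem_mem h1))

private theorem M14b_N2l_nil (ls : List ℕ) : N2l ls [] = 1 := by
  induction ls with
  | nil => rw [N2l]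
  | cons l ls ih => rw [N2l, ih]

private theorem M14b_VW_nil_cons (y : ℕ × S3) (q : Pth) : VW [] (y :: q) = [] := by
  rw [VW]

private theorem M14b_map (t : ℕ) (l : List (List ℕ)) (l0 : ℕ) (ls : List ℕ) :
    ((l.map fun ts => t :: ts).map (N2l (l0 :: ls))).sum =
      ((l.map fun ts => t :: ts).map (N2l ls)).sum +
        if t ≤ l0 then (l.map (N2l (l0 :: ls))).sum else 0 := by
  induction l with
  | nil => simp
  | cons w l ih =>
    simp only [List.map_cons, List.sum_cons]
    rw [ih, N2l]
    split_ifs <;> omega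

private theorem M14b_map0 (t : ℕ) (l : List (List ℕ)) :
    ((l.map fun ts => t :: ts).map (N2l [])).sum = 0 := by
  induction l with
  | nil => simp
  | cons w l ih =>
    simp only [List.map_cons, List.sum_cons]
    rw [ih, N2l]

private theorem M14b_Jc_nil (x : ℕ × S3) (p pO : Pth) : Jc [] (x :: p) pO = 0 := by
  unfold Jc
  cases pO with
  | nil => rw [VW, M14b_map0]
  | cons y q =>
    rw [VW, List.map_append, List.sum_append]
    split_ifs <;> simp only [M14b_map0, List.map_nil, List.sum_nil, Nat.add_zero]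

private theorem M14b_Jc_cons_nil (l : ℕ) (ls : List ℕ) (x : ℕ × S3) (p : Pth) :
    Jc (l :: ls) (x :: p) [] = Jc ls (x :: p) [] +
      if top3 x.2 ≤ l then Jc (l :: ls) p [] else 0 := by
  unfold Jc
  rw [VW, M14b_map]

private theorem M14b_Jc_cons_cons (l : ℕ) (ls : List ℕ) (x : ℕ × S3) (p : Pth) (y : ℕ × S3)
    (q : Pth) :
    Jc (l :: ls) (x :: p) (y :: q) = Jc ls (x :: p) (y :: q) +
      if top3 x.2 ≤ l then ((if x.1 = 0 then 0 else Jc (l :: ls) p (y :: q)) +
        if top3 y.2 ≤ last3 x.2 then Jc (l :: ls) (x :: p) q else 0) else 0 := by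
  unfold Jc
  rw [VW]
  by_cases h1 : x.1 = 0
  · by_cases h2 : top3 y.2 ≤ last3 x.2
    · simp only [h1, h2, if_true, List.nil_append, zero_add]
      rw [M14b_map]
    · simp [h1, h2]
  · by_cases h2 : top3 y.2 ≤ last3 x.2
    · simp only [h1, h2, if_true, if_false]
      rw [List.map_append, List.sum_append, M14b_map, M14b_map, List.map_append, List.sum_append]
      split_ifs <;> omega
    · simp only [h1, h2, if_false, List.append_nil, add_zero]
      rw [M14b_map]

private theorem M14b_VP_tail {c n : ℕ} {x : ℕ × S3} {p : Pth} (h : VP c n (x :: p)) :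
    VP c p.length p := by
  cases h with
  | cons hp hw hs =>
    have := hp.length
    rw [this]
    exact hp

private theorem M14b_tps_pos {n : ℕ} {p : Pth} (h : VP 1 n p) : ∀ t ∈ tps p, 1 ≤ t :=
  fun t ht => ((VP.tps le_rfl h).2.1 t ht).1

private theorem M14b_main (ls : List ℕ) : ∀ (_ : ls.Pairwise fun s t => t ≤ s) (pB pO : Pth)
    (_ : VP 1 pB.length pB) (_ : VP 1 pO.length pO),
    Jc ls pB pO = if ∀ t ∈ tps pB, t ≤ ls.headD 0 then
      (M14b_S ls.length pB.length pO.length (lam ls) (et (tps pB)) (et (hts pB)) (lam (lsts pB))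
        (et (tps pO))).card else 0 := by
  have hB0 : ∀ (ls : List ℕ) (pO : Pth) (_ : VP 1 pO.length pO),
      Jc ls [] pO = if ∀ t ∈ tps [], t ≤ ls.headD 0 then
      (M14b_S ls.length ([] : Pth).length pO.length (lam ls) (et (tps [])) (et (hts []))
        (lam (lsts [])) (et (tps pO))).card else 0 := by
    intro ls pO hO
    rw [if_pos (by intro t ht; cases ht)]
    cases pO with
    | nil =>
      rw [List.length_nil, M14b_b0]
      unfold Jc
      rw [VW]
      simp [M14b_N2l_nil]
    | cons y q =>
      rw [List.length_nil, List.length_cons, M14b_b0x]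
      · unfold Jc
        rw [VW]
        simp
      · have h1 := M14b_et_pos (tps (y :: q)) (M14b_tps_pos hO) (by simp [tps])
        have h2 : lam (lsts []) 0 = 0 := by simp [lam]
        omega
  induction ls with
  | nil =>
    intro _ pB pO hB hO
    cases pB with
    | nil => exact hB0 [] pO hO
    | cons x p =>
      rw [M14b_Jc_nil, if_neg]
      intro h
      have h1 := h (top3 x.2) (by simp [tps])
      have h2 := M14b_tps_pos hB (top3 x.2) (by simp [tps])
      simp only [List.headD_nil] at h1
      omega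
  | cons l ls ihls =>
    intro hls pB
    have hls' := List.pairwise_cons.1 hls
    have hhd : ls.headD 0 ≤ l := by
      cases ls with
      | nil => simp
      | cons s ls => exact hls'.1 s (by simp)
    induction pB with
    | nil => intro pO _ hO; exact hB0 (l :: ls) pO hO
    | cons x p ihp =>
      intro pO
      have econd : ∀ C : ℕ, (∀ t ∈ tps (x :: p), t ≤ C) ↔
          top3 x.2 ≤ C ∧ ∀ t ∈ tps p, t ≤ C := by
        intro C
        simp [tps]
      have lp : (tps p).length = p.length := by simp [tps]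
      have lh : (hts p).length = p.length := by simp [hts]
      have ll : (lsts p).length = p.length := by simp [lsts]
      have et1 : tps (x :: p) = top3 x.2 :: tps p := rfl
      have et2 : hts (x :: p) = x.1 :: hts p := rfl
      have et3 : lsts (x :: p) = last3 x.2 :: lsts p := rfl
      -- the first summand
      have hF : ∀ (n : ℕ) (O : ℕ → ℕ),
          (if ∀ j < p.length + 1, et (tps (x :: p)) j ≤ lam (l :: ls) ls.length then
            (M14b_S ls.length (p.length + 1) n (lam (l :: ls)) (et (tps (x :: p)))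
              (et (hts (x :: p))) (lam (lsts (x :: p))) O).card else 0) =
          if ∀ t ∈ tps (x :: p), t ≤ ls.headD 0 then
            (M14b_S ls.length (x :: p).length n (lam ls) (et (tps (x :: p)))
              (et (hts (x :: p))) (lam (lsts (x :: p))) O).card else 0 := by
        intro n O
        have e1 : (∀ j < p.length + 1, et (tps (x :: p)) j ≤ lam (l :: ls) ls.length) ↔
            ∀ t ∈ tps (x :: p), t ≤ ls.headD 0 := by
          rw [M14b_lam_le _ _ _ le_rfl, M14b_lam_hd, ← M14b_et_mem]
          simp [tps]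
        rw [if_congr e1 rfl rfl, List.length_cons]
        rw [M14b_congr (L := lam (l :: ls)) (L' := lam ls)
          (fun i hi => M14b_lam_le _ _ _ hi.le) (fun _ _ => rfl) (fun _ _ => rfl)
          (fun _ _ => rfl) (fun _ _ => rfl)]
      -- the second summand
      have hS : ∀ (n : ℕ) (O : ℕ → ℕ),
          (M14b_S (ls.length + 1) p.length n (lam (l :: ls)) (et (tps (x :: p)))
              (et (hts (x :: p))) (lam (lsts (x :: p))) O) =
            (M14b_S (ls.length + 1) p.length n (lam (l :: ls)) (et (tps p))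
              (et (hts p)) (lam (lsts p)) O) := by
        intro n O
        refine M14b_congr (fun _ _ => rfl) (fun i hi => ?_) (fun i hi => ?_) (fun i hi => ?_)
          (fun _ _ => rfl)
        · rw [et1, M14b_et_lt _ _ _ (by omega)]
        · rw [et2, M14b_et_lt _ _ _ (by omega)]
        · rw [et3, M14b_lam_le _ _ _ (by omega)]
      induction pO with
      | nil =>
        intro hB hO
        rw [M14b_Jc_cons_nil, ihls hls'.2 (x :: p) [] hB hO, ihp [] (M14b_VP_tail hB) hO]
        rw [List.length_cons, List.length_cons, List.length_nil, M14b_step0, hF, hS,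
          List.length_cons]
        simp only [List.headD_cons]
        by_cases h1 : top3 x.2 ≤ l
        · by_cases h2 : ∀ t ∈ tps p, t ≤ l
          · rw [if_pos h1, if_pos h2, if_pos ((econd l).2 ⟨h1, h2⟩)]
          · rw [if_pos h1, if_neg h2, if_neg fun h => h2 ((econd l).1 h).2, if_neg]
            intro h
            exact h2 fun t ht => (((econd _).1 h).2 t ht).trans hhd
        · rw [if_neg h1, if_neg fun h => h1 ((econd l).1 h).1, if_neg]
          intro h
          exact h1 (((econd _).1 h).1.trans hhd)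
      | cons y q ihq =>
        intro hB hO
        have lq : (tps q).length = q.length := by simp [tps]
        have et4 : tps (y :: q) = top3 y.2 :: tps q := rfl
        rw [M14b_Jc_cons_cons, ihls hls'.2 (x :: p) (y :: q) hB hO,
          ihp (y :: q) (M14b_VP_tail hB) hO, ihq hB (M14b_VP_tail hO)]
        rw [List.length_cons, List.length_cons, List.length_cons, M14b_step, hF, hS,
          List.length_cons]
        simp only [List.headD_cons]
        have eH : et (hts (x :: p)) p.length = x.1 := by
          rw [et2, ← lh, M14b_et_eq]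
        have eO : et (tps (y :: q)) q.length = top3 y.2 := by
          rw [et4, ← lq, M14b_et_eq]
        have eL : lam (lsts (x :: p)) (p.length + 1) = last3 x.2 := by
          have := M14b_lam_hd (lsts (x :: p))
          rw [et3, List.length_cons, ll] at this
          rw [et3, this]
          rfl
        rw [eH, eO, eL]
        rw [M14b_congr (a := ls.length + 1) (b := p.length + 1) (x := q.length)
          (O := et (tps (y :: q))) (O' := et (tps q)) (fun _ _ => rfl) (fun _ _ => rfl)
          (fun _ _ => rfl) (fun _ _ => rfl) (fun i hi => by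
            rw [et4, M14b_et_lt _ _ _ (by omega)])]
        by_cases h1 : top3 x.2 ≤ l
        · by_cases h2 : ∀ t ∈ tps p, t ≤ l
          · rw [if_pos h1, if_pos h2, if_pos ((econd l).2 ⟨h1, h2⟩),
              if_pos ((econd l).2 ⟨h1, h2⟩)]
          · rw [if_pos h1, if_neg h2, if_neg fun h => h2 ((econd l).1 h).2, if_neg,
              if_neg fun h => h2 ((econd l).1 h).2]
            · simp
            · intro h
              exact h2 fun t ht => (((econd _).1 h).2 t ht).trans hhd
        · rw [if_neg h1, if_neg fun h => h1 ((econd l).1 h).1, if_neg]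
          intro h
          exact h1 (((econd _).1 h).1.trans hhd)

/-- Induction over the number of letters, last letter: `F` if `g (a-1) = b + x`; `B` if
`g (a-1) < b + x` and `c (b-1) = x`; `O` otherwise. -/
theorem Jc_card (ls : List ℕ) (hls : ls.Pairwise fun s t => t ≤ s) (b x : ℕ) (pB pO : Pth)
    (hB : VP 1 b pB) (hO : VP 1 x pO) (ht : ∀ t ∈ tps pB, t ≤ ls.headD 0) :
    Jc ls pB pO = ((UFB ls.length b x (lam ls) (et (tps pB))).filter fun gc =>
      Val b x (et (hts pB)) (lam (lsts pB)) (et (tps pO)) gc.2).card := by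
  have h1 := hB.length
  have h2 := hO.length
  subst h1 h2
  rw [M14b_main ls hls pB pO hB hO, if_pos ht]
  rfl

theorem Jc_zero (ls : List ℕ) (hls : ls.Pairwise fun s t => t ≤ s) (b x : ℕ) (pB pO : Pth)
    (hB : VP 1 b pB) (hO : VP 1 x pO) (ht : ¬ ∀ t ∈ tps pB, t ≤ ls.headD 0) :
    Jc ls pB pO = 0 := by
  have h1 := hB.length
  have h2 := hO.length
  subst h1 h2
  rw [M14b_main ls hls pB pO hB hO, if_neg ht]

end Pool.ADM
end

section

/-! job ADM-14c: words in `F, B, O` in coordinates. -/

set_option autoImplicit false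

namespace Pool.ADM

open Finset

private theorem M14c_mem_mon {k m : ℕ} {g : Fin k → ℕ} :
    g ∈ mon k m ↔ (∀ i, g i ≤ m) ∧ ∀ i j : Fin k, i ≤ j → g i ≤ g j := by
  simp only [mon, mem_filter, Fintype.mem_piFinset, mem_range, Nat.lt_succ_iff]

private theorem M14c_mem {a b x : ℕ} {lm t : ℕ → ℕ} {gc : (Fin a → ℕ) × (Fin b → ℕ)} :
    gc ∈ UFB a b x lm t ↔ ((∀ i, gc.1 i ≤ b + x) ∧ ∀ i j : Fin a, i ≤ j → gc.1 i ≤ gc.1 j) ∧
      ((∀ j, gc.2 j ≤ x) ∧ ∀ i j : Fin b, i ≤ j → gc.2 i ≤ gc.2 j) ∧
      ∀ (i : Fin a) (j : Fin b), lm i < t j → gc.1 i ≤ (j : ℕ) + gc.2 j := by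
  rw [UFB, mem_filter, mem_product, M14c_mem_mon, M14c_mem_mon, and_assoc]

private theorem M14c_congr (a b x : ℕ) {lm lm' t t' : ℕ → ℕ} (h1 : ∀ i < a, lm i = lm' i)
    (h2 : ∀ j < b, t j = t' j) : UFB a b x lm t = UFB a b x lm' t' := by
  ext gc
  rw [M14c_mem, M14c_mem]
  refine and_congr Iff.rfl (and_congr Iff.rfl ?_)
  refine forall_congr' fun i => forall_congr' fun j => ?_
  rw [h1 i i.2, h2 j j.2]

/-- last letter `F` -/
private theorem M14c_F (a b x : ℕ) (lm t : ℕ → ℕ) :
    ((UFB (a + 1) b x lm t).filter fun gc => gc.1 (Fin.last a) = b + x).card =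
      if ∀ j < b, t j ≤ lm a then (UFB a b x lm t).card else 0 := by
  classical
  split_ifs with h
  · refine Finset.card_nbij' (fun gc => (fun i => gc.1 i.castSucc, gc.2))
      (fun gc => (Fin.snoc (α := fun _ => ℕ) gc.1 (b + x), gc.2)) ?_ ?_ ?_ ?_
    · intro gc hgc
      rw [mem_coe, mem_filter, M14c_mem] at hgc
      obtain ⟨⟨⟨h1, h2⟩, h3, h4⟩, h5⟩ := hgc
      rw [mem_coe, M14c_mem]
      refine ⟨⟨fun i => h1 _, fun i j hij => h2 _ _ ?_⟩, h3, fun i j hij => ?_⟩
      · exact Fin.castSucc_le_castSucc_iff.2 hij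
      · exact h4 i.castSucc j hij
    · intro gc hgc
      rw [mem_coe, M14c_mem] at hgc
      obtain ⟨⟨h1, h2⟩, h3, h4⟩ := hgc
      rw [mem_coe, mem_filter, M14c_mem]
      refine ⟨⟨⟨fun i => ?_, fun i j hij => ?_⟩, h3, fun i j hij => ?_⟩, ?_⟩
      · refine Fin.lastCases ?_ (fun i => ?_) i
        · simp
        · simpa using h1 i
      · revert hij
        refine Fin.lastCases ?_ (fun j => ?_) j
        · intro _
          refine Fin.lastCases ?_ (fun i => ?_) i
          · simp
          · simpa using h1 i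
        · refine Fin.lastCases ?_ (fun i => ?_) i
          · intro hij
            exfalso
            have := j.2
            rw [Fin.le_def, Fin.val_last, Fin.val_castSucc] at hij
            omega
          · intro hij
            simpa using h2 i j (Fin.castSucc_le_castSucc_iff.1 hij)
      · revert hij
        refine Fin.lastCases ?_ (fun i => ?_) i
        · intro hij
          rw [Fin.val_last] at hij
          have := h j j.2
          omega
        · intro hij
          simpa using h4 i j hij
      · simp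
    · intro gc hgc
      rw [mem_coe, mem_filter] at hgc
      refine Prod.ext ?_ rfl
      funext i
      refine Fin.lastCases ?_ (fun i => ?_) i
      · simpa using hgc.2.symm
      · simp
    · intro gc hgc
      refine Prod.ext ?_ rfl
      funext i
      simp
  · rw [Finset.card_eq_zero, Finset.filter_eq_empty_iff]
    intro gc hgc h5
    rw [M14c_mem] at hgc
    obtain ⟨-, h3, h4⟩ := hgc
    push Not at h
    obtain ⟨j, hj, hj2⟩ := h
    have h6 := h4 (Fin.last a) ⟨j, hj⟩ (by rw [Fin.val_last]; exact hj2)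
    have h7 := h3.1 ⟨j, hj⟩
    rw [h5] at h6
    have h8 : ((⟨j, hj⟩ : Fin b) : ℕ) = j := rfl
    rw [h8] at h6
    omega

/-- last letter `B` -/
private theorem M14c_B (a b x : ℕ) (lm t : ℕ → ℕ) :
    ((UFB (a + 1) (b + 1) x lm t).filter fun gc => ¬ gc.1 (Fin.last a) = b + 1 + x ∧
      gc.2 (Fin.last b) = x).card = (UFB (a + 1) b x lm t).card := by
  classical
  refine Finset.card_nbij' (fun gc => (gc.1, fun i => gc.2 i.castSucc))
    (fun gc => (gc.1, Fin.snoc (α := fun _ => ℕ) gc.2 x)) ?_ ?_ ?_ ?_
  · intro gc hgc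
    rw [mem_coe, mem_filter, M14c_mem] at hgc
    obtain ⟨⟨⟨h1, h2⟩, ⟨h3, h3'⟩, h4⟩, h5, h6⟩ := hgc
    rw [mem_coe, M14c_mem]
    refine ⟨⟨fun i => ?_, h2⟩, ⟨fun j => h3 _, fun i j hij => h3' _ _ ?_⟩, fun i j hij => ?_⟩
    · have h7 := h2 i (Fin.last a) (Fin.le_last i)
      have h8 := h1 (Fin.last a)
      show gc.1 i ≤ b + x
      omega
    · exact Fin.castSucc_le_castSucc_iff.2 hij
    · exact h4 i j.castSucc hij
  · intro gc hgc
    rw [mem_coe, M14c_mem] at hgc
    obtain ⟨⟨h1, h2⟩, ⟨h3, h3'⟩, h4⟩ := hgc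
    rw [mem_coe, mem_filter, M14c_mem]
    refine ⟨⟨⟨fun i => ?_, h2⟩, ⟨fun i => ?_, fun i j hij => ?_⟩, fun i j hij => ?_⟩, ?_, ?_⟩
    · have := h1 i
      show gc.1 i ≤ b + 1 + x
      omega
    · refine Fin.lastCases ?_ (fun i => ?_) i
      · simp
      · simpa using h3 i
    · revert hij
      refine Fin.lastCases ?_ (fun j => ?_) j
      · intro _
        refine Fin.lastCases ?_ (fun i => ?_) i
        · simp
        · simpa using h3 i
      · refine Fin.lastCases ?_ (fun i => ?_) i
        · intro hij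
          exfalso
          have := j.2
          rw [Fin.le_def, Fin.val_last, Fin.val_castSucc] at hij
          omega
        · intro hij
          simpa using h3' i j (Fin.castSucc_le_castSucc_iff.1 hij)
    · revert hij
      refine Fin.lastCases ?_ (fun j => ?_) j
      · intro _
        have := h1 i
        simpa using this
      · intro hij
        simpa using h4 i j hij
    · have := h1 (Fin.last a)
      show ¬ gc.1 (Fin.last a) = b + 1 + x
      omega
    · simp
  · intro gc hgc
    rw [mem_coe, mem_filter] at hgc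
    refine Prod.ext rfl ?_
    funext i
    refine Fin.lastCases ?_ (fun i => ?_) i
    · simpa using hgc.2.2.symm
    · simp
  · intro gc hgc
    refine Prod.ext rfl ?_
    funext i
    simp

/-- last letter `O` -/
private theorem M14c_O (a b x : ℕ) (lm t : ℕ → ℕ) :
    ((UFB (a + 1) (b + 1) (x + 1) lm t).filter fun gc =>
      ¬ gc.1 (Fin.last a) = b + 1 + (x + 1) ∧ ¬ gc.2 (Fin.last b) = x + 1) =
        UFB (a + 1) (b + 1) x lm t := by
  classical
  ext gc
  rw [mem_filter, M14c_mem, M14c_mem]
  constructor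
  · rintro ⟨⟨⟨h1, h2⟩, ⟨h3, h3'⟩, h4⟩, h5, h6⟩
    refine ⟨⟨fun i => ?_, h2⟩, ⟨fun j => ?_, h3'⟩, h4⟩
    · have h7 := h2 i (Fin.last a) (Fin.le_last i)
      have h8 := h1 (Fin.last a)
      omega
    · have h7 := h3' j (Fin.last b) (Fin.le_last j)
      have h8 := h3 (Fin.last b)
      omega
  · rintro ⟨⟨h1, h2⟩, ⟨h3, h3'⟩, h4⟩
    refine ⟨⟨⟨fun i => (h1 i).trans (by omega), h2⟩, ⟨fun j => (h3 j).trans (by omega), h3'⟩, h4⟩,
      ?_, ?_⟩
    · have := h1 (Fin.last a)
      omega
    · have := h3 (Fin.last b)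
      omega

private theorem M14c_O0 (a x : ℕ) (lm t : ℕ → ℕ) :
    ((UFB (a + 1) 0 (x + 1) lm t).filter fun gc => ¬ gc.1 (Fin.last a) = 0 + (x + 1)) =
        UFB (a + 1) 0 x lm t := by
  classical
  ext gc
  rw [mem_filter, M14c_mem, M14c_mem]
  constructor
  · rintro ⟨⟨⟨h1, h2⟩, ⟨h3, h3'⟩, h4⟩, h5⟩
    refine ⟨⟨fun i => ?_, h2⟩, ⟨fun j => j.elim0, h3'⟩, h4⟩
    have h7 := h2 i (Fin.last a) (Fin.le_last i)
    have h8 := h1 (Fin.last a)
    omega
  · rintro ⟨⟨h1, h2⟩, ⟨h3, h3'⟩, h4⟩
    refine ⟨⟨⟨fun i => (h1 i).trans (by omega), h2⟩, ⟨fun j => j.elim0, h3'⟩, h4⟩, ?_⟩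
    have := h1 (Fin.last a)
    omega

private theorem M14c_rec11 (a b x : ℕ) (lm t : ℕ → ℕ) :
    (UFB (a + 1) (b + 1) (x + 1) lm t).card =
      (if ∀ j < b + 1, t j ≤ lm a then (UFB a (b + 1) (x + 1) lm t).card else 0) +
        ((UFB (a + 1) b (x + 1) lm t).card + (UFB (a + 1) (b + 1) x lm t).card) := by
  classical
  rw [← M14c_F, ← M14c_B a b (x + 1), ← M14c_O a b x,
    ← Finset.card_filter_add_card_filter_not (s := UFB (a + 1) (b + 1) (x + 1) lm t)
      (fun gc => gc.1 (Fin.last a) = b + 1 + (x + 1))]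
  congr 1
  rw [← Finset.card_filter_add_card_filter_not (s := (UFB (a + 1) (b + 1) (x + 1) lm t).filter
    (fun gc => ¬ gc.1 (Fin.last a) = b + 1 + (x + 1))) (fun gc => gc.2 (Fin.last b) = x + 1),
    Finset.filter_filter, Finset.filter_filter]

private theorem M14c_rec10 (a b : ℕ) (lm t : ℕ → ℕ) :
    (UFB (a + 1) (b + 1) 0 lm t).card =
      (if ∀ j < b + 1, t j ≤ lm a then (UFB a (b + 1) 0 lm t).card else 0) +
        (UFB (a + 1) b 0 lm t).card := by
  classical
  rw [← M14c_F, ← M14c_B a b 0,
    ← Finset.card_filter_add_card_filter_not (s := UFB (a + 1) (b + 1) 0 lm t)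
      (fun gc => gc.1 (Fin.last a) = b + 1 + 0)]
  congr 2
  refine Finset.filter_congr fun gc hgc => ?_
  rw [M14c_mem] at hgc
  have := hgc.2.1.1 (Fin.last b)
  constructor
  · exact fun h => ⟨h, by omega⟩
  · exact fun h => h.1

private theorem M14c_rec01 (a x : ℕ) (lm t : ℕ → ℕ) :
    (UFB (a + 1) 0 (x + 1) lm t).card =
      (UFB a 0 (x + 1) lm t).card + (UFB (a + 1) 0 x lm t).card := by
  classical
  have h := M14c_F a 0 (x + 1) lm t
  rw [if_pos (by intro j hj; omega)] at h
  rw [← h, ← M14c_O0 a x,
    ← Finset.card_filter_add_card_filter_not (s := UFB (a + 1) 0 (x + 1) lm t)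
      (fun gc => gc.1 (Fin.last a) = 0 + (x + 1))]

private theorem M14c_rec00 (a : ℕ) (lm t : ℕ → ℕ) :
    (UFB (a + 1) 0 0 lm t).card = (UFB a 0 0 lm t).card := by
  classical
  have h := M14c_F a 0 0 lm t
  rw [if_pos (by intro j hj; omega)] at h
  rw [← h]
  congr 1
  symm
  rw [Finset.filter_eq_self]
  intro gc hgc
  rw [M14c_mem] at hgc
  have := hgc.1.1 (Fin.last a)
  omega

private theorem M14c_base (x : ℕ) (lm t : ℕ → ℕ) : (UFB 0 0 x lm t).card = 1 := by
  classical
  rw [Finset.card_eq_one]
  refine ⟨(fun i => i.elim0, fun i => i.elim0), ?_⟩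
  ext gc
  rw [mem_singleton, M14c_mem]
  constructor
  · intro _
    refine Prod.ext ?_ ?_
    · funext i
      exact i.elim0
    · funext i
      exact i.elim0
  · rintro rfl
    exact ⟨⟨fun i => i.elim0, fun i => i.elim0⟩, ⟨fun i => i.elim0, fun i => i.elim0⟩,
      fun i => i.elim0⟩

private theorem M14c_et (x : ℕ) (l : List ℕ) (j : ℕ) (h : j < l.length) :
    et (x :: l) j = et l j := by
  unfold et
  rw [List.reverse_cons, List.getD_append _ _ _ _ (by simpa using h)]

private theorem M14c_lam (x : ℕ) (l : List ℕ) (j : ℕ) (h : j ≤ l.length) :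
    lam (x :: l) j = lam l j := by
  unfold lam
  split_ifs with h0
  · rfl
  · exact M14c_et x l (j - 1) (by omega)

private theorem M14c_lam_hd (l : List ℕ) : lam l l.length = l.headD 0 := by
  cases l with
  | nil => simp [lam]
  | cons y l =>
    unfold lam et
    rw [if_neg (by simp)]
    have h1 : (y :: l).length - 1 = l.reverse.length := by simp
    rw [h1, List.reverse_cons, List.getD_append_right _ _ _ _ (by simp)]
    simp

private theorem M14c_et_mem (ts : List ℕ) (m : ℕ) :
    (∀ j < ts.length, et ts j ≤ m) ↔ ∀ t ∈ ts, t ≤ m := by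
  constructor
  · intro h t ht
    rw [← List.mem_reverse, List.mem_iff_getElem] at ht
    obtain ⟨j, hj, rfl⟩ := ht
    have hj' : j < ts.length := by simpa using hj
    have := h j hj'
    unfold et at this
    rwa [List.getD_eq_getElem _ _ hj] at this
  · intro h j hj
    have hj' : j < ts.reverse.length := by simpa using hj
    unfold et
    rw [List.getD_eq_getElem _ _ hj']
    exact h _ (List.mem_reverse.1 (List.getElem_mem hj'))

private theorem M14c_N2l_zero (ls ts : List ℕ) (hls : ls.Pairwise fun s t => t ≤ s)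
    (h : ∃ t ∈ ts, ls.headD 0 < t) : N2l ls ts = 0 := by
  induction ls generalizing ts with
  | nil =>
    cases ts with
    | nil => obtain ⟨t, ht, -⟩ := h; simp at ht
    | cons t ts => rw [N2l]
  | cons l ls ih =>
    have hls' := hls
    rw [List.pairwise_cons] at hls
    induction ts with
    | nil => obtain ⟨t, ht, -⟩ := h; simp at ht
    | cons t ts ih2 =>
      rw [N2l]
      obtain ⟨t0, ht0, hl⟩ := h
      simp only [List.headD_cons] at hl
      have h1 : N2l ls (t :: ts) = 0 := by
        refine ih (t :: ts) hls.2 ⟨t0, ht0, lt_of_le_of_lt ?_ hl⟩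
        cases ls with
        | nil => simp
        | cons l' ls' => simpa using hls.1 l' (by simp)
      rw [h1, Nat.zero_add]
      split_ifs with htl
      · refine ih2 ⟨t0, ?_, by simpa using hl⟩
        rcases List.mem_cons.1 ht0 with rfl | h3
        · omega
        · exact h3
      · rfl

/-- Free letters `O`: the same recursion without conditions (`N2l` and Pascal). -/
theorem UFB_card (ls : List ℕ) (hls : ls.Pairwise fun s t => t ≤ s) (ts : List ℕ)
    (h1 : ∀ t ∈ ts, 1 ≤ t) (ht : ∀ t ∈ ts, t ≤ ls.headD 0) (x : ℕ) :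
    (UFB ls.length ts.length x (lam ls) (et ts)).card =
      (ls.length + ts.length + x).choose x * N2l ls ts := by
  have key : ∀ n : ℕ, ∀ ls : List ℕ, (ls.Pairwise fun s t => t ≤ s) → ∀ ts : List ℕ,
      (∀ t ∈ ts, 1 ≤ t) → (∀ t ∈ ts, t ≤ ls.headD 0) → ∀ x : ℕ,
      ls.length + ts.length + x = n →
      (UFB ls.length ts.length x (lam ls) (et ts)).card =
        (ls.length + ts.length + x).choose x * N2l ls ts := by
    intro n
    induction n using Nat.strong_induction_on with
    | _ n ih =>
      intro ls hls ts h1 ht x hn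
      cases ls with
      | nil =>
        cases ts with
        | nil =>
          have h2 := M14c_base x (lam []) (et [])
          simp only [List.length_nil, N2l, Nat.zero_add, Nat.choose_self, Nat.mul_one]
          exact h2
        | cons t ts =>
          have h3 := h1 t (by simp)
          have h4 := ht t (by simp)
          simp only [List.headD_nil] at h4
          omega
      | cons l ls =>
        have hls2 := (List.pairwise_cons.1 hls).2
        simp only [List.length_cons] at hn ⊢
        -- the part with last letter `F`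
        have hF : ∀ x' : ℕ, ls.length + ts.length + x' < n →
            (if ∀ j < ts.length, et ts j ≤ lam (l :: ls) ls.length then
              (UFB ls.length ts.length x' (lam (l :: ls)) (et ts)).card else 0) =
            (ls.length + ts.length + x').choose x' * N2l ls ts := by
          intro x' hx'
          rw [M14c_lam l ls _ le_rfl, M14c_lam_hd]
          split_ifs with hc
          · rw [M14c_et_mem] at hc
            rw [M14c_congr ls.length ts.length x' (lm' := lam ls) (t' := et ts)
              (fun i hi => M14c_lam l ls i hi.le) (fun _ _ => rfl)]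
            exact ih _ hx' ls hls2 ts h1 hc x' rfl
          · rw [M14c_et_mem] at hc
            push Not at hc
            rw [M14c_N2l_zero ls ts hls2 hc, Nat.mul_zero]
        cases ts with
        | nil =>
          simp only [List.length_nil] at hn hF ⊢
          cases x with
          | zero =>
            have h3 := hF 0 (by omega)
            rw [if_pos (by intro j hj; omega)] at h3
            rw [M14c_rec00, h3]
            simp [N2l]
          | succ x =>
            have h3 := hF (x + 1) (by omega)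
            rw [if_pos (by intro j hj; omega)] at h3
            have h4 := ih (ls.length + 1 + 0 + x) (by omega) (l :: ls) hls [] (by simp) (by simp) x
              (by simp)
            simp only [List.length_cons, List.length_nil] at h4
            rw [M14c_rec01, h3, h4]
            have h5 : N2l (l :: ls) [] = N2l ls [] := by rw [N2l]
            rw [h5, ← Nat.add_mul]
            congr 1
            have e1 : ls.length + 1 + 0 + (x + 1) = (ls.length + 0 + (x + 1)) + 1 := by omega
            have e2 : ls.length + 1 + 0 + x = ls.length + 0 + (x + 1) := by omega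
            rw [e1, e2, Nat.choose_succ_succ', Nat.add_comm]
        | cons t ts =>
          have htl : t ≤ l := by simpa using ht t (by simp)
          have hN : N2l (l :: ls) (t :: ts) = N2l ls (t :: ts) + N2l (l :: ls) ts := by
            rw [N2l, if_pos htl]
          have h1' : ∀ s ∈ ts, 1 ≤ s := fun s hs => h1 s (List.mem_cons_of_mem _ hs)
          have ht' : ∀ s ∈ ts, s ≤ (l :: ls).headD 0 := fun s hs =>
            ht s (List.mem_cons_of_mem _ hs)
          have hBc : ∀ x', (UFB (ls.length + 1) ts.length x' (lam (l :: ls)) (et (t :: ts))) =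
              UFB (ls.length + 1) ts.length x' (lam (l :: ls)) (et ts) := fun x' =>
            M14c_congr _ _ _ (fun _ _ => rfl) (fun j hj => M14c_et t ts j hj)
          simp only [List.length_cons] at hn hF ⊢
          cases x with
          | zero =>
            have h3 := hF 0 (by omega)
            have h4 := ih (ls.length + 1 + ts.length + 0) (by omega) (l :: ls) hls ts h1' ht' 0
              (by simp)
            simp only [List.length_cons] at h4
            rw [M14c_rec10, h3, hBc, h4, hN]
            simp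
          | succ x =>
            have h3 := hF (x + 1) (by omega)
            have h4 := ih (ls.length + 1 + ts.length + (x + 1)) (by omega) (l :: ls) hls ts h1' ht'
              (x + 1) (by simp)
            have h5 := ih (ls.length + 1 + (ts.length + 1) + x) (by omega) (l :: ls) hls (t :: ts)
              h1 ht x (by simp)
            simp only [List.length_cons] at h4 h5
            rw [M14c_rec11, h3, hBc, h4, h5]
            have e1 : ls.length + 1 + (ts.length + 1) + (x + 1) =
              (ls.length + ts.length + x + 2) + 1 := by omega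
            have e2 : ls.length + (ts.length + 1) + (x + 1) = ls.length + ts.length + x + 2 := by
              omega
            have e3 : ls.length + 1 + ts.length + (x + 1) = ls.length + ts.length + x + 2 := by
              omega
            have e4 : ls.length + 1 + (ts.length + 1) + x = ls.length + ts.length + x + 2 := by
              omega
            rw [e1, e2, e3, e4, Nat.choose_succ_succ' (ls.length + ts.length + x + 2) x, hN]
            ring
  exact key _ ls hls ts h1 ht x rfl

end Pool.ADM
end
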