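import Pool.Agent.Lib.MP_ad84ff_coM.N12d
import Pool.Agent.Lib.MP_ad84ff_coM.M14c

section

/-! job ADM-16a: fibers. -/

set_option autoImplicit false

namespace Pool.ADM

open Finset

/-- one more letter `F` at the end: `g' a ∈ [g (a-1), b + x]`. -/
theorem carry_fiber (a b x : ℕ) (lm t : ℕ → ℕ) (ha : 1 ≤ a) (ht : ∀ j < b, t j ≤ lm a)
    (P : (Fin b → ℕ) → Prop) [DecidablePred P] :
    ∑ gc ∈ (UFB a b x lm t).filter (fun gc => P gc.2),
      ((b : ℝ) + x - gc.1 ⟨a - 1, by omega⟩ + 1) =
      (((UFB (a + 1) b x lm t).filter fun gc => P gc.2).card : ℝ) := by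
  have key : ((UFB (a + 1) b x lm t).filter fun gc => P gc.2).card =
      (((UFB a b x lm t).filter (fun gc => P gc.2)).sigma
        (fun gc => Finset.Icc (gc.1 ⟨a - 1, by omega⟩) (b + x))).card := by
    refine Finset.card_nbij'
      (i := fun gc => ⟨(fun i => gc.1 i.castSucc, gc.2), gc.1 (Fin.last a)⟩)
      (j := fun s => ((Fin.snoc s.1.1 s.2 : Fin (a + 1) → ℕ), s.1.2)) ?_ ?_ ?_ ?_
    · rintro ⟨g, c⟩ hg
      simp only [Finset.mem_coe, Finset.mem_filter, Finset.mem_sigma, UFB, Finset.mem_product,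
        mem_mon, Finset.mem_Icc] at hg ⊢
      obtain ⟨⟨⟨⟨g1, g2⟩, c1, c2⟩, h⟩, hP⟩ := hg
      refine ⟨⟨⟨⟨⟨fun i => g1 _, fun i j hij => g2 _ _ (by simpa using hij)⟩, c1, c2⟩,
        fun i j hij => h i.castSucc j (by simpa using hij)⟩, hP⟩, g2 _ _ (Fin.le_last _), g1 _⟩
    · rintro ⟨⟨g, c⟩, v⟩ hg
      simp only [Finset.mem_coe, Finset.mem_filter, Finset.mem_sigma, UFB, Finset.mem_product,
        mem_mon, Finset.mem_Icc] at hg ⊢
      obtain ⟨⟨⟨⟨⟨g1, g2⟩, c1, c2⟩, h⟩, hP⟩, hv1, hv2⟩ := hg
      refine ⟨⟨⟨⟨fun i => ?_, fun i j hij => ?_⟩, c1, c2⟩, fun i j hij => ?_⟩, hP⟩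
      · refine Fin.lastCases ?_ (fun j => ?_) i
        · simpa using hv2
        · simpa using g1 j
      · revert hij
        refine Fin.lastCases ?_ (fun j' => ?_) j
        · intro _
          refine Fin.lastCases ?_ (fun i' => ?_) i
          · simp
          · have h1 : g i' ≤ g ⟨a - 1, by omega⟩ := g2 _ _ (by
              rw [Fin.le_def]; have := i'.isLt; simp only; omega)
            simpa using h1.trans hv1
        · refine Fin.lastCases ?_ (fun i' => ?_) i
          · intro h
            exact absurd h (by simp)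
          · intro h
            simpa using g2 _ _ (by simpa using h)
      · revert hij
        refine Fin.lastCases ?_ (fun i' => ?_) i
        · intro hij
          have := ht j j.isLt
          simp only [Fin.val_last] at hij
          omega
        · intro hij
          simpa using h i' j (by simpa using hij)
    · rintro ⟨g, c⟩ _
      refine Prod.ext ?_ rfl
      funext i
      refine Fin.lastCases ?_ (fun j => ?_) i <;> simp
    · rintro ⟨⟨g, c⟩, v⟩ _
      simp
  rw [key, Finset.card_sigma, Nat.cast_sum]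
  refine Finset.sum_congr rfl ?_
  rintro ⟨g, c⟩ hg
  simp only [Finset.mem_filter, UFB, Finset.mem_product, mem_mon] at hg
  obtain ⟨⟨⟨⟨g1, g2⟩, c1, c2⟩, h⟩, hP⟩ := hg
  have h1 := g1 ⟨a - 1, by omega⟩
  change (b : ℝ) + x - g ⟨a - 1, by omega⟩ + 1 =
    ((Finset.Icc (g ⟨a - 1, by omega⟩) (b + x)).card : ℝ)
  rw [Nat.card_Icc, Nat.cast_sub (by omega)]
  push_cast
  ring

end Pool.ADM
end

section

/-! job ADM-16b: fibers. -/

set_option autoImplicit false

namespace Pool.ADM

open Finset

private theorem M16b_card (D b x : ℕ) (lm t t' : ℕ → ℕ) (hD : 1 ≤ D) (hb : 1 ≤ b)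
    (hlm : ∀ i ≤ D, lm i = i) (ht : ∀ j < b, t j ≤ D ∧ t' j = t j) (htb : t' b = D)
    (P : (Fin b → ℕ) → Prop) [DecidablePred P] :
    ((UFB (D + 1) (b + 1) x lm t').filter fun gc => P fun j => gc.2 j.castSucc).card =
      (((UFB D b x lm t).filter (fun gc => P gc.2)).sigma
        (fun gc => (Finset.Icc (gc.1 ⟨D - 1, by omega⟩) (b + 1 + x)) ×ˢ
          (Finset.Icc (max (gc.2 ⟨b - 1, by omega⟩) (gc.1 ⟨D - 1, by omega⟩ - b)) x))).card := by
  refine Finset.card_nbij'
    (i := fun gc => ⟨(fun i => gc.1 i.castSucc, fun j => gc.2 j.castSucc),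
      (gc.1 (Fin.last D), gc.2 (Fin.last b))⟩)
    (j := fun s => ((Fin.snoc s.1.1 s.2.1 : Fin (D + 1) → ℕ),
      (Fin.snoc s.1.2 s.2.2 : Fin (b + 1) → ℕ))) ?_ ?_ ?_ ?_
  · rintro ⟨g, c⟩ hg
    simp only [Finset.mem_coe, Finset.mem_filter, Finset.mem_sigma, UFB, Finset.mem_product,
      mem_mon, Finset.mem_Icc] at hg ⊢
    obtain ⟨⟨⟨⟨g1, g2⟩, c1, c2⟩, h⟩, hP⟩ := hg
    have hlast : ∀ i : Fin D, g i.castSucc ≤ b + c (Fin.last b) := by
      intro i
      have h1 := h i.castSucc (Fin.last b) (by
        simp only [Fin.val_castSucc, Fin.val_last]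
        rw [hlm _ i.isLt.le, htb]
        exact i.isLt)
      simpa using h1
    refine ⟨⟨⟨⟨⟨fun i => (hlast i).trans (Nat.add_le_add_left (c1 _) _),
      fun i j hij => g2 _ _ (by simpa using hij)⟩,
      fun j => c1 _, fun i j hij => c2 _ _ (by simpa using hij)⟩, fun i j hij => ?_⟩, hP⟩,
      ⟨g2 _ _ (Fin.le_last _), g1 _⟩, max_le (c2 _ _ (Fin.le_last _)) ?_, c1 _⟩
    · have h1 := h i.castSucc j.castSucc (by
        simp only [Fin.val_castSucc]
        rw [(ht j j.isLt).2]
        exact hij)
      simpa using h1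
    · have h1 := hlast ⟨D - 1, by omega⟩
      omega
  · rintro ⟨⟨g, c⟩, v, u⟩ hg
    simp only [Finset.mem_coe, Finset.mem_filter, Finset.mem_sigma, UFB, Finset.mem_product,
      mem_mon, Finset.mem_Icc, max_le_iff] at hg ⊢
    obtain ⟨⟨⟨⟨⟨g1, g2⟩, c1, c2⟩, h⟩, hP⟩, ⟨hv1, hv2⟩, ⟨hu1, hu3⟩, hu2⟩ := hg
    refine ⟨⟨⟨⟨fun i => ?_, fun i j hij => ?_⟩, fun i => ?_, fun i j hij => ?_⟩,
      fun i j hij => ?_⟩, ?_⟩
    · refine Fin.lastCases ?_ (fun j => ?_) i
      · simpa using hv2
      · have := g1 j
        simp only [Fin.snoc_castSucc]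
        omega
    · revert hij
      refine Fin.lastCases ?_ (fun j' => ?_) j
      · intro _
        refine Fin.lastCases ?_ (fun i' => ?_) i
        · simp
        · have h1 : g i' ≤ g ⟨D - 1, by omega⟩ := g2 _ _ (by
            rw [Fin.le_def]; have := i'.isLt; simp only; omega)
          simpa using h1.trans hv1
      · refine Fin.lastCases ?_ (fun i' => ?_) i
        · intro h
          exact absurd h (by simp)
        · intro h
          simpa using g2 _ _ (by simpa using h)
    · refine Fin.lastCases ?_ (fun j => ?_) i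
      · simpa using hu2
      · simpa using c1 j
    · revert hij
      refine Fin.lastCases ?_ (fun j' => ?_) j
      · intro _
        refine Fin.lastCases ?_ (fun i' => ?_) i
        · simp
        · have h1 : c i' ≤ c ⟨b - 1, by omega⟩ := c2 _ _ (by
            rw [Fin.le_def]; have := i'.isLt; simp only; omega)
          simpa using h1.trans hu1
      · refine Fin.lastCases ?_ (fun i' => ?_) i
        · intro h
          exact absurd h (by simp)
        · intro h
          simpa using c2 _ _ (by simpa using h)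
    · revert hij
      refine Fin.lastCases ?_ (fun j' => ?_) j
      · refine Fin.lastCases ?_ (fun i' => ?_) i
        · intro hij
          simp only [Fin.val_last] at hij
          rw [hlm _ le_rfl, htb] at hij
          omega
        · intro _
          have h1 : g i' ≤ g ⟨D - 1, by omega⟩ := g2 _ _ (by
            rw [Fin.le_def]; have := i'.isLt; simp only; omega)
          simp only [Fin.snoc_castSucc, Fin.snoc_last, Fin.val_last]
          omega
      · refine Fin.lastCases ?_ (fun i' => ?_) i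
        · intro hij
          have h1 := ht j' j'.isLt
          simp only [Fin.val_last, Fin.val_castSucc] at hij
          rw [hlm _ le_rfl, h1.2] at hij
          omega
        · intro hij
          simp only [Fin.val_castSucc] at hij
          rw [(ht j' j'.isLt).2] at hij
          simpa using h i' j' hij
    · simpa using hP
  · rintro ⟨g, c⟩ _
    refine Prod.ext ?_ ?_
    · funext i
      refine Fin.lastCases ?_ (fun j => ?_) i <;> simp
    · funext i
      refine Fin.lastCases ?_ (fun j => ?_) i <;> simp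
  · rintro ⟨⟨g, c⟩, v, u⟩ _
    simp

private theorem M16b_sum (D b x : ℕ) (lm t t' : ℕ → ℕ) (hD : 1 ≤ D) (hb : 1 ≤ b)
    (hlm : ∀ i ≤ D, lm i = i) (ht : ∀ j < b, t j ≤ D ∧ t' j = t j) (htb : t' b = D)
    (P : (Fin b → ℕ) → Prop) [DecidablePred P] :
    ∑ gc ∈ (UFB D b x lm t).filter (fun gc => P gc.2),
      (((b : ℝ) + x - gc.1 ⟨D - 1, by omega⟩ + 2) *
        (1 + min ((b : ℝ) + x - gc.1 ⟨D - 1, by omega⟩) ((x : ℝ) - gc.2 ⟨b - 1, by omega⟩))) =
      (((UFB (D + 1) (b + 1) x lm t').filter fun gc => P fun j => gc.2 j.castSucc).card : ℝ) := by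
  rw [M16b_card D b x lm t t' hD hb hlm ht htb P, Finset.card_sigma, Nat.cast_sum]
  refine Finset.sum_congr rfl ?_
  rintro ⟨g, c⟩ hg
  simp only [Finset.mem_filter, UFB, Finset.mem_product, mem_mon] at hg
  obtain ⟨⟨⟨⟨g1, g2⟩, c1, c2⟩, h⟩, hP⟩ := hg
  have h1 := g1 ⟨D - 1, by omega⟩
  have h2 := c1 ⟨b - 1, by omega⟩
  change ((b : ℝ) + x - g ⟨D - 1, by omega⟩ + 2) *
        (1 + min ((b : ℝ) + x - g ⟨D - 1, by omega⟩) ((x : ℝ) - c ⟨b - 1, by omega⟩)) =
    (((Finset.Icc (g ⟨D - 1, by omega⟩) (b + 1 + x)) ×ˢ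
      (Finset.Icc (max (c ⟨b - 1, by omega⟩) (g ⟨D - 1, by omega⟩ - b)) x)).card : ℝ)
  obtain ⟨G, hG⟩ : ∃ G, g ⟨D - 1, by omega⟩ = G := ⟨_, rfl⟩
  obtain ⟨C, hC⟩ : ∃ C, c ⟨b - 1, by omega⟩ = C := ⟨_, rfl⟩
  rw [hG] at h1 ⊢
  rw [hC] at h2 ⊢
  have h3 : max C (G - b) ≤ x := max_le h2 (by omega)
  rw [Finset.card_product, Nat.card_Icc, Nat.card_Icc, Nat.cast_mul, Nat.cast_sub (by omega),
    Nat.cast_sub (by omega)]
  have h4 : min ((b : ℝ) + x - G) ((x : ℝ) - C) = (x : ℝ) - ((max C (G - b) : ℕ) : ℝ) := by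
    rcases le_total G b with h5 | h5
    · have h6 : max C (G - b) = C := by
        rw [Nat.sub_eq_zero_of_le h5]
        exact Nat.max_zero C
      have h7 : (G : ℝ) ≤ b := by exact_mod_cast h5
      have h8 : (0 : ℝ) ≤ C := Nat.cast_nonneg _
      rw [h6, min_eq_right (by linarith)]
    · have h7 : ((G - b : ℕ) : ℝ) = (G : ℝ) - b := by
        rw [Nat.cast_sub h5]
      rw [Nat.cast_max, h7]
      rcases le_total (C : ℝ) ((G : ℝ) - b) with h8 | h8
      · rw [max_eq_right h8, min_eq_left (by linarith)]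
        ring
      · rw [max_eq_left h8, min_eq_right (by linarith)]
  rw [h4]
  push_cast
  ring

/-- one more letter `F` and one more letter `B`, which comes after `F_{D-1}`:
`c' b ∈ [max (c (b-1)) (g (D-1) - b), x]`, `g' D ∈ [g (D-1), b + x + 1]`. -/
theorem T5_fiber (D b x : ℕ) (lm t t' : ℕ → ℕ) (hD : 1 ≤ D) (hb : 1 ≤ b)
    (hlm : ∀ i ≤ D, lm i = i) (ht : ∀ j < b, t j ≤ D ∧ t' j = t j) (htb : t' b = D)
    (P : (Fin b → ℕ) → Prop) [DecidablePred P] (P' : (Fin (b + 1) → ℕ) → Prop) [DecidablePred P']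
    (hP : ∀ c : Fin (b + 1) → ℕ, (∀ i j, i ≤ j → c i ≤ c j) → P (fun j => c j.castSucc) → P' c) :
    ∑ gc ∈ (UFB D b x lm t).filter (fun gc => P gc.2),
      (((b : ℝ) + x - gc.1 ⟨D - 1, by omega⟩ + 2) *
        (1 + min ((b : ℝ) + x - gc.1 ⟨D - 1, by omega⟩) ((x : ℝ) - gc.2 ⟨b - 1, by omega⟩))) ≤
      (((UFB (D + 1) (b + 1) x lm t').filter fun gc => P' gc.2).card : ℝ) := by
  rw [M16b_sum D b x lm t t' hD hb hlm ht htb P]
  refine Nat.cast_le.2 (Finset.card_le_card ?_)
  intro gc hgc
  rw [Finset.mem_filter] at hgc ⊢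
  refine ⟨hgc.1, hP _ ?_ hgc.2⟩
  have h1 := hgc.1
  simp only [UFB, Finset.mem_filter, Finset.mem_product, mem_mon] at h1
  exact h1.1.2.2

/-- the same without conditions on `c`, with equality. -/
theorem T5_fiber_eq (D b x : ℕ) (lm t t' : ℕ → ℕ) (hD : 1 ≤ D) (hb : 1 ≤ b)
    (hlm : ∀ i ≤ D, lm i = i) (ht : ∀ j < b, t j ≤ D ∧ t' j = t j) (htb : t' b = D) :
    ∑ gc ∈ UFB D b x lm t,
      (((b : ℝ) + x - gc.1 ⟨D - 1, by omega⟩ + 2) *
        (1 + min ((b : ℝ) + x - gc.1 ⟨D - 1, by omega⟩) ((x : ℝ) - gc.2 ⟨b - 1, by omega⟩))) =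
      ((UFB (D + 1) (b + 1) x lm t').card : ℝ) := by
  have h := M16b_sum D b x lm t t' hD hb hlm ht htb (fun _ => True)
  rw [Finset.filter_true_of_mem (fun _ _ => trivial),
    Finset.filter_true_of_mem (fun _ _ => trivial)] at h
  exact h

end Pool.ADM
end

section

end

section

end

section

/-! job ADM-17a: the inequalities without letters `O`.  `N2l ls ts = (UFB a b 0 (lam ls) (et ts)).card`
(`UFB_card` with `x = 0`; `c = 0`). -/

set_option autoImplicit false

namespace Pool.ADM

open Finset

/-- the ballot sequences: `g 0 = 0`, `g i ≤ w + i`, nondecreasing. -/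
def bal (D w : ℕ) : Finset (Fin D → ℕ) :=
  (mon D (D + w)).filter fun g => ∀ i : Fin D, g i ≤ w + i ∧ ((i : ℕ) = 0 → g i = 0)


private def m17a_bv (D w v : ℕ) : Finset (Fin D → ℕ) := (bal D w).filter fun g => ∀ i, g i ≤ v

private theorem m17a_mem {D w v : ℕ} {g : Fin D → ℕ} :
    g ∈ m17a_bv D w v ↔ (∀ i j : Fin D, i ≤ j → g i ≤ g j) ∧ (∀ i : Fin D, g i ≤ w + i) ∧
      (∀ i : Fin D, (i : ℕ) = 0 → g i = 0) ∧ ∀ i, g i ≤ v := by
  unfold m17a_bv bal mon
  simp only [mem_filter, Fintype.mem_piFinset, mem_range]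
  constructor
  · rintro ⟨⟨⟨h1, h2⟩, h3⟩, h4⟩
    exact ⟨h2, fun i => (h3 i).1, fun i => (h3 i).2, h4⟩
  · rintro ⟨h1, h2, h3, h4⟩
    refine ⟨⟨⟨fun i => ?_, h1⟩, fun i => ⟨h2 i, h3 i⟩⟩, h4⟩
    have h5 := h2 i
    have h6 := i.2
    omega

private theorem m17a_rec (D w v : ℕ) (hD : 1 ≤ D) (hv : v ≤ w + D) :
    (m17a_bv (D + 1) w v).card = ∑ u ∈ range (v + 1), (m17a_bv D w u).card := by
  rw [Finset.card_eq_sum_card_fiberwise (f := fun g => g (Fin.last D)) (t := range (v + 1))]
  · refine Finset.sum_congr rfl fun u hu => ?_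
    rw [mem_range] at hu
    refine Finset.card_nbij' (fun g i => g i.castSucc)
      (fun g => (Fin.snoc (α := fun _ => ℕ) g u : Fin (D + 1) → ℕ)) ?_ ?_ ?_ ?_
    · intro g hg
      rw [Finset.mem_coe, mem_filter, m17a_mem] at hg
      obtain ⟨⟨h1, h2, h3, h4⟩, h5⟩ := hg
      rw [Finset.mem_coe, m17a_mem]
      refine ⟨fun i j hij => h1 _ _ ?_, fun i => ?_, fun i hi => ?_, fun i => ?_⟩
      · exact Fin.castSucc_le_castSucc_iff.2 hij
      · have h6 := h2 i.castSucc
        rw [Fin.val_castSucc] at h6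
        exact h6
      · exact h3 i.castSucc (by rw [Fin.val_castSucc]; exact hi)
      · have h6 := h1 i.castSucc (Fin.last D) (Fin.le_last _)
        rw [h5] at h6
        exact h6
    · intro g hg
      rw [Finset.mem_coe, m17a_mem] at hg
      obtain ⟨h1, h2, h3, h4⟩ := hg
      rw [Finset.mem_coe, mem_filter, m17a_mem]
      dsimp only
      refine ⟨⟨?_, ?_, ?_, ?_⟩, ?_⟩
      · intro i j hij
        induction j using Fin.lastCases with
        | last =>
          rw [Fin.snoc_last]
          induction i using Fin.lastCases with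
          | last => rw [Fin.snoc_last]
          | cast i =>
            rw [Fin.snoc_castSucc]
            exact h4 i
        | cast j =>
          induction i using Fin.lastCases with
          | last =>
            exact absurd hij (not_le.2 (Fin.castSucc_lt_last j))
          | cast i =>
            rw [Fin.snoc_castSucc, Fin.snoc_castSucc]
            exact h1 i j (Fin.castSucc_le_castSucc_iff.1 hij)
      · intro i
        induction i using Fin.lastCases with
        | last =>
          rw [Fin.snoc_last, Fin.val_last]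
          omega
        | cast i =>
          rw [Fin.snoc_castSucc, Fin.val_castSucc]
          exact h2 i
      · intro i hi
        induction i using Fin.lastCases with
        | last =>
          rw [Fin.val_last] at hi
          omega
        | cast i =>
          rw [Fin.snoc_castSucc]
          rw [Fin.val_castSucc] at hi
          exact h3 i hi
      · intro i
        induction i using Fin.lastCases with
        | last =>
          rw [Fin.snoc_last]
          omega
        | cast i =>
          rw [Fin.snoc_castSucc]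
          have h5 := h4 i
          omega
      · exact Fin.snoc_last (α := fun _ => ℕ) u g
    · intro g hg
      rw [Finset.mem_coe, mem_filter] at hg
      funext i
      induction i using Fin.lastCases with
      | last =>
        dsimp only
        rw [Fin.snoc_last]
        exact hg.2.symm
      | cast i =>
        dsimp only
        rw [Fin.snoc_castSucc]
    · intro g _
      funext i
      dsimp only
      rw [Fin.snoc_castSucc]
  · intro g hg
    rw [Finset.mem_coe, m17a_mem] at hg
    rw [Finset.mem_coe, mem_range]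
    exact Nat.lt_succ_of_le (hg.2.2.2 (Fin.last D))

private theorem m17a_hockey (e c : ℕ) : ∀ v : ℕ,
    ∑ u ∈ range (v + 1), Nat.choose (e + u) c + Nat.choose e (c + 1) =
      Nat.choose (e + v + 1) (c + 1)
  | 0 => by
    rw [zero_add, Finset.sum_range_one, add_zero, Nat.choose_succ_succ]
  | v + 1 => by
    rw [Finset.sum_range_succ]
    have h1 := m17a_hockey e c v
    have h2 : Nat.choose (e + (v + 1) + 1) (c + 1) =
        Nat.choose (e + (v + 1)) c + Nat.choose (e + (v + 1)) (c + 1) := Nat.choose_succ_succ _ _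
    have h3 : e + (v + 1) = e + v + 1 := by omega
    rw [h2]
    rw [h3] at *
    omega

private theorem m17a_closed (w : ℕ) : ∀ e v : ℕ, v ≤ w + (e + 1) →
    (m17a_bv (e + 1) w v).card + Nat.choose (e + v) (e + w + 2) = Nat.choose (e + v) e
  | 0, v, hv => by
    have h1 : m17a_bv (0 + 1) w v = {fun _ => 0} := by
      ext g
      rw [m17a_mem, mem_singleton]
      constructor
      · rintro ⟨-, -, h3, -⟩
        funext i
        refine h3 i ?_
        have := i.2
        omega
      · rintro rfl
        exact ⟨fun _ _ _ => le_rfl, fun _ => Nat.zero_le _, fun _ _ => rfl, fun _ => Nat.zero_le _⟩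
    rw [h1, card_singleton, Nat.choose_eq_zero_of_lt (by omega), Nat.choose_zero_right]
  | e + 1, v, hv => by
    have key : ∀ v, v ≤ w + (e + 1) →
        (m17a_bv (e + 1 + 1) w v).card + Nat.choose (e + 1 + v) (e + 1 + w + 2) =
          Nat.choose (e + 1 + v) (e + 1) := by
      intro v hv
      have h1 := m17a_rec (e + 1) w v (by omega) hv
      have h2 : ∑ u ∈ range (v + 1), (m17a_bv (e + 1) w u).card +
          ∑ u ∈ range (v + 1), Nat.choose (e + u) (e + w + 2) =
          ∑ u ∈ range (v + 1), Nat.choose (e + u) e := by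
        rw [← Finset.sum_add_distrib]
        refine Finset.sum_congr rfl fun u hu => ?_
        rw [mem_range] at hu
        exact m17a_closed w e u (by omega)
      have h3 := m17a_hockey e (e + w + 2) v
      have h4 := m17a_hockey e e v
      rw [Nat.choose_eq_zero_of_lt (by omega : e < e + w + 2 + 1)] at h3
      rw [Nat.choose_eq_zero_of_lt (by omega : e < e + 1)] at h4
      have h5 : e + 1 + v = e + v + 1 := by omega
      have h6 : e + 1 + w + 2 = e + w + 2 + 1 := by omega
      rw [h5, h6]
      omega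
    rcases Nat.lt_or_ge (w + (e + 1)) v with h | h
    · have hv' : v = w + (e + 1) + 1 := by omega
      have h1 : m17a_bv (e + 1 + 1) w v = m17a_bv (e + 1 + 1) w (w + (e + 1)) := by
        ext g
        rw [m17a_mem, m17a_mem]
        refine and_congr Iff.rfl (and_congr_right fun h2 => and_congr Iff.rfl ?_)
        have h3 : ∀ i, g i ≤ w + (e + 1) := by
          intro i
          have h4 := h2 i
          have h5 := i.2
          omega
        exact ⟨fun _ => h3, fun _ i => by have := h3 i; omega⟩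
      have h2 := key (w + (e + 1)) le_rfl
      rw [h1, hv']
      have h3 : Nat.choose (e + 1 + (w + (e + 1) + 1)) (e + 1 + w + 2) =
          Nat.choose (e + 1 + (w + (e + 1))) (e + w + 2) +
            Nat.choose (e + 1 + (w + (e + 1))) (e + 1 + w + 2) := by
        have h4 : e + 1 + w + 2 = (e + w + 2) + 1 := by omega
        rw [h4]
        exact Nat.choose_succ_succ _ _
      have h4 : Nat.choose (e + 1 + (w + (e + 1) + 1)) (e + 1) =
          Nat.choose (e + 1 + (w + (e + 1))) e + Nat.choose (e + 1 + (w + (e + 1))) (e + 1) :=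
        Nat.choose_succ_succ _ _
      have h5 : Nat.choose (e + 1 + (w + (e + 1))) (e + w + 2) =
          Nat.choose (e + 1 + (w + (e + 1))) e :=
        Nat.choose_symm_of_eq_add (by omega)
      rw [h3, h4, h5]
      omega
    · exact key v h

private theorem m17a_card (e w : ℕ) :
    (e + w + 2) * (bal (e + 1) w).card = (w + 2) * Nat.choose (2 * e + 1 + w) e := by
  have h1 : bal (e + 1) w = m17a_bv (e + 1) w (w + (e + 1)) := by
    unfold m17a_bv
    rw [Finset.filter_true_of_mem]
    intro g hg i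
    unfold bal at hg
    rw [mem_filter] at hg
    have h2 := (hg.2 i).1
    have h3 := i.2
    omega
  have h2 := m17a_closed w e (w + (e + 1)) le_rfl
  rw [← h1] at h2
  have h3 : e + (w + (e + 1)) = 2 * e + 1 + w := by omega
  rw [h3] at h2
  have h4 := Nat.choose_succ_right_eq (2 * e + 1 + w) (e + w + 1)
  have h5 : 2 * e + 1 + w - (e + w + 1) = e := by omega
  have h6 : Nat.choose (2 * e + 1 + w) (e + w + 1) = Nat.choose (2 * e + 1 + w) e :=
    Nat.choose_symm_of_eq_add (by omega)
  rw [h5, h6] at h4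
  have h7 : e + w + 1 + 1 = e + w + 2 := rfl
  rw [h7] at h4
  generalize Nat.choose (2 * e + 1 + w) (e + w + 2) = A at h2 h4
  generalize Nat.choose (2 * e + 1 + w) e = B at h2 h4 ⊢
  generalize (bal (e + 1) w).card = X at h2 ⊢
  have h8 : (e + w + 2) * (X + A) = (e + w + 2) * B := by rw [h2]
  have h9 : (e + w + 2) * X + A * (e + w + 2) = (e + w + 2) * B := by rw [← h8]; ring
  rw [h4] at h9
  have h10 : (e + w + 2) * B = (w + 2) * B + B * e := by ring
  rw [h10] at h9
  omega

/-- `|bal D w| = C(2D-2+w, D-1) - C(2D-2+w, D-3)`. -/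
theorem bal_ratio (D w : ℕ) (hD : 1 ≤ D) :
    D * (D + w + 2) * (bal (D + 1) w).card = (2 * D + w) * (2 * D + w + 1) * (bal D w).card := by
  obtain ⟨e, rfl⟩ : ∃ e, D = e + 1 := ⟨D - 1, by omega⟩
  have h0 := m17a_card e w
  have h2 := m17a_card (e + 1) w
  have h3 : Nat.choose (2 * (e + 1) + 1 + w) (e + 1) * (e + 1) =
      (2 * e + 3 + w) * Nat.choose (2 * e + 2 + w) e := by
    have h := Nat.add_one_mul_choose_eq (2 * e + 2 + w) e
    have h' : 2 * (e + 1) + 1 + w = 2 * e + 2 + w + 1 := by omega
    have h'' : 2 * e + 3 + w = 2 * e + 2 + w + 1 := by omega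
    rw [h', h'']
    exact h.symm
  have h4 : Nat.choose (2 * e + 1 + w) e * (2 * e + 2 + w) =
      Nat.choose (2 * e + 2 + w) e * (e + 2 + w) := by
    have h := Nat.choose_mul_succ_eq (2 * e + 1 + w) e
    have h' : 2 * e + 1 + w + 1 = 2 * e + 2 + w := by omega
    have h'' : 2 * e + 2 + w - e = e + 2 + w := by omega
    rw [h', h''] at h
    exact h
  generalize Nat.choose (2 * (e + 1) + 1 + w) (e + 1) = c2 at h2 h3
  generalize Nat.choose (2 * e + 2 + w) e = c1 at h3 h4
  generalize Nat.choose (2 * e + 1 + w) e = c0 at h0 h4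
  generalize (bal (e + 1) w).card = X at h0 ⊢
  generalize (bal (e + 1 + 1) w).card = Y at h2 ⊢
  have hpos : 0 < e + w + 2 := by omega
  refine Nat.eq_of_mul_eq_mul_left hpos ?_
  calc (e + w + 2) * ((e + 1) * (e + 1 + w + 2) * Y)
      = (e + w + 2) * ((e + 1) * ((e + 1 + w + 2) * Y)) := by ring
    _ = (e + w + 2) * ((e + 1) * ((w + 2) * c2)) := by rw [h2]
    _ = (e + w + 2) * (w + 2) * (c2 * (e + 1)) := by ring
    _ = (e + w + 2) * (w + 2) * ((2 * e + 3 + w) * c1) := by rw [h3]
    _ = (w + 2) * (2 * e + 3 + w) * (c1 * (e + 2 + w)) := by ring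
    _ = (w + 2) * (2 * e + 3 + w) * (c0 * (2 * e + 2 + w)) := by rw [h4]
    _ = (2 * e + 3 + w) * (2 * e + 2 + w) * ((w + 2) * c0) := by ring
    _ = (2 * e + 3 + w) * (2 * e + 2 + w) * ((e + w + 2) * X) := by rw [h0]
    _ = (e + w + 2) * ((2 * (e + 1) + w) * (2 * (e + 1) + w + 1) * X) := by ring

end Pool.ADM
end

section

/-! job ADM-17c: the inequalities without letters `O`.  `N2l ls ts = (UFB a b 0 (lam ls) (et ts)).card`
(`UFB_card` with `x = 0`; `c = 0`). -/

set_option autoImplicit false

namespace Pool.ADM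

open Finset

private theorem M17c_et_lt (x : ℕ) (l : List ℕ) (j : ℕ) (h : j < l.length) :
    et (x :: l) j = et l j := by
  unfold et
  rw [List.reverse_cons, List.getD_append _ _ _ _ (by simpa using h)]

private theorem M17c_et_eq (x : ℕ) (l : List ℕ) : et (x :: l) l.length = x := by
  unfold et
  rw [List.reverse_cons, List.getD_append_right _ _ _ _ (by simp)]
  simp

private theorem M17c_et_mem (ts : List ℕ) {j : ℕ} (hj : j < ts.length) : et ts j ∈ ts := by
  unfold et
  rw [List.getD_eq_getElem _ _ (by simpa using hj)]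
  have h := List.getElem_mem (l := ts.reverse) (n := j) (by simpa using hj)
  exact List.mem_reverse.1 h

private theorem M17c_lam_le (x : ℕ) (l : List ℕ) (i : ℕ) (hi : i ≤ l.length) :
    lam (x :: l) i = lam l i := by
  unfold lam
  split_ifs with h
  · rfl
  · exact M17c_et_lt x l (i - 1) (by omega)

private theorem M17c_lam_eq (x : ℕ) (l : List ℕ) : lam (x :: l) (l.length + 1) = x := by
  unfold lam
  rw [if_neg (by omega)]
  exact M17c_et_eq x l

private theorem M17c_UFB_congr {a b x : ℕ} {lm lm' t t' : ℕ → ℕ} (hl : ∀ i < a, lm i = lm' i)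
    (ht : ∀ j < b, t j = t' j) : UFB a b x lm t = UFB a b x lm' t' := by
  unfold UFB
  refine Finset.filter_congr fun gc _ => ?_
  constructor
  · intro h i j hij
    exact h i j (by rw [hl i i.2, ht j j.2]; exact hij)
  · intro h i j hij
    exact h i j (by rw [← hl i i.2, ← ht j j.2]; exact hij)

/-- `∑_{g ∈ mon a m} (m - g (a-1) + 1) = |mon (a+1) m|`. -/
private theorem M17c_mon_succ (a m : ℕ) (ha : 1 ≤ a) :
    ∑ g ∈ mon a m, ((m : ℝ) - g ⟨a - 1, by omega⟩ + 1) = ((mon (a + 1) m).card : ℝ) := by
  have himg : ∀ k : ℕ, UFB k 0 m (fun _ => 0) (fun _ => 0) =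
      (mon k m).image (fun g => (g, fun j : Fin 0 => (j.elim0 : ℕ))) := by
    intro k
    ext ⟨g, c⟩
    simp only [UFB, Finset.mem_filter, Finset.mem_product, mem_mon, Finset.mem_image,
      Prod.mk.injEq]
    constructor
    · rintro ⟨⟨⟨h2, h3⟩, h4, h5⟩, h6⟩
      exact ⟨g, ⟨by simpa using h2, h3⟩, rfl, funext fun j => j.elim0⟩
    · rintro ⟨g', ⟨h2, h3⟩, rfl, rfl⟩
      exact ⟨⟨⟨by simpa using h2, h3⟩, fun j => j.elim0, fun j => j.elim0⟩, fun i j => j.elim0⟩
  have hinj : ∀ k : ℕ, Function.Injective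
      (fun g : Fin k → ℕ => ((g, fun j : Fin 0 => (j.elim0 : ℕ)) : (Fin k → ℕ) × (Fin 0 → ℕ))) := by
    intro k g g' h
    exact (Prod.mk.inj h).1
  have h := carry_fiber a 0 m (fun _ => 0) (fun _ => 0) ha (fun j hj => by omega) (fun _ => True)
  rw [Finset.filter_true_of_mem (fun _ _ => trivial),
    Finset.filter_true_of_mem (fun _ _ => trivial), himg, himg,
    Finset.card_image_of_injective _ (hinj _), Finset.sum_image (fun g _ g' _ h => hinj a h)] at h
  rw [← h]
  refine Finset.sum_congr rfl fun g _ => ?_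
  simp

/-- FKG (`fkg_down`) for `W` = the words, `U` = the nondecreasing sequences with values `≤ b - 1`,
`f g = b - g (a-1) + 1`; `|U| = C(a+b-1, a)`, `∑_U f = C(a+b-1, a) + C(a+b, a+1)`; `carry_fiber`. -/
theorem N2l_carry (D l' : ℕ) (ls ts : List ℕ) (hl' : D ≤ l') (hls : ls.Pairwise fun s t => t ≤ s)
    (hlD : ∀ l ∈ ls, l < D) (h1 : ∀ t ∈ ts, 1 ≤ t) (hD : ∀ t ∈ ts, t ≤ D) :
    (2 * (ls.length + 1) + (ts.length + 1) + 1) * N2l (D :: ls) (D :: ts) ≤
      (ls.length + 2) * N2l (l' :: D :: ls) (D :: ts) := by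
  rcases Nat.eq_zero_or_pos D with hD0 | hDpos
  · -- `D = 0`: no levels, no tops; both numbers are explicit
    subst hD0
    have e1 : ls = [] := by
      cases ls with
      | nil => rfl
      | cons l ls => exact absurd (hlD l (by simp)) (by omega)
    have e2 : ts = [] := by
      cases ts with
      | nil => rfl
      | cons t ts =>
        have := h1 t (by simp)
        have := hD t (by simp)
        omega
    subst e1 e2
    simp [N2l]
  · set a := ls.length + 1 with ha
    set m := ts.length with hm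
    have hb : ∀ t ∈ D :: ts, 1 ≤ t := by
      intro t ht
      rw [List.mem_cons] at ht
      rcases ht with rfl | ht
      · exact hDpos
      · exact h1 t ht
    have hpw : (D :: ls).Pairwise fun s t => t ≤ s := by
      rw [List.pairwise_cons]
      exact ⟨fun t ht => (hlD t ht).le, hls⟩
    have hpw' : (l' :: D :: ls).Pairwise fun s t => t ≤ s := by
      rw [List.pairwise_cons]
      refine ⟨fun t ht => ?_, hpw⟩
      rw [List.mem_cons] at ht
      rcases ht with rfl | ht
      · exact hl'
      · exact (hlD t ht).le.trans hl'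
    have hA : N2l (D :: ls) (D :: ts) =
        (UFB a (m + 1) 0 (lam (l' :: D :: ls)) (et (D :: ts))).card := by
      have h := UFB_card (D :: ls) hpw (D :: ts) hb (fun t ht => by
        rw [List.mem_cons] at ht
        simp only [List.headD_cons]
        rcases ht with rfl | ht
        · exact le_rfl
        · exact hD t ht) 0
      rw [Nat.choose_zero_right, one_mul] at h
      rw [← h]
      simp only [List.length_cons]
      rw [M17c_UFB_congr (lm' := lam (D :: ls)) (t' := et (D :: ts))
        (fun i hi => M17c_lam_le l' (D :: ls) i (by simp only [List.length_cons]; omega))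
        (fun _ _ => rfl)]
    have hB : N2l (l' :: D :: ls) (D :: ts) =
        (UFB (a + 1) (m + 1) 0 (lam (l' :: D :: ls)) (et (D :: ts))).card := by
      have h := UFB_card (l' :: D :: ls) hpw' (D :: ts) hb (fun t ht => by
        rw [List.mem_cons] at ht
        simp only [List.headD_cons]
        rcases ht with rfl | ht
        · exact hl'
        · exact (hD t ht).trans hl') 0
      rw [Nat.choose_zero_right, one_mul] at h
      rw [← h]
      simp only [List.length_cons]
      rfl
    set lm := lam (l' :: D :: ls) with hlm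
    set t := et (D :: ts) with ht
    -- the words as a down-set
    set W : Finset (Fin a → ℕ) := (mon a (m + 1)).filter fun g =>
      ∀ (i : Fin a) (j : Fin (m + 1)), lm i < t j → g i ≤ (j : ℕ) with hWdef
    have hUW : UFB a (m + 1) 0 lm t = W.image (fun g => (g, fun _ : Fin (m + 1) => 0)) := by
      ext ⟨g, c⟩
      simp only [UFB, hWdef, Finset.mem_filter, Finset.mem_product, mem_mon, Finset.mem_image,
        Prod.mk.injEq, add_zero]
      constructor
      · rintro ⟨⟨⟨h2, h3⟩, h4, h5⟩, h6⟩
        have hc : c = fun _ => 0 := funext fun j => Nat.le_zero.1 (h4 j)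
        refine ⟨g, ⟨⟨h2, h3⟩, fun i j hij => ?_⟩, rfl, hc.symm⟩
        have := h6 i j hij
        rw [hc] at this
        simpa using this
      · rintro ⟨g', ⟨⟨h2, h3⟩, h4⟩, rfl, rfl⟩
        exact ⟨⟨⟨h2, h3⟩, fun _ => le_refl _, fun _ _ _ => le_refl _⟩, fun i j hij => by
          simpa using h4 i j hij⟩
    have hinj : Function.Injective
        (fun g : Fin a → ℕ => ((g, fun _ : Fin (m + 1) => 0) : (Fin a → ℕ) × (Fin (m + 1) → ℕ))) := by
      intro g g' h
      exact (Prod.mk.inj h).1
    have hWcard : (UFB a (m + 1) 0 lm t).card = W.card := by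
      rw [hUW, Finset.card_image_of_injective _ hinj]
    have hWmem : ∀ g, g ∈ W ↔ ((∀ i, g i ≤ m + 1) ∧ ∀ i j : Fin a, i ≤ j → g i ≤ g j) ∧
        ∀ (i : Fin a) (j : Fin (m + 1)), lm i < t j → g i ≤ (j : ℕ) := by
      intro g
      rw [hWdef, Finset.mem_filter, mem_mon]
    have htm : t m = D := M17c_et_eq D ts
    have hlmi : ∀ i < a, lm i < D := by
      intro i hi
      rw [hlm, M17c_lam_le l' (D :: ls) i (by simp only [List.length_cons]; omega),
        M17c_lam_le D ls i (by omega)]
      unfold lam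
      split_ifs with h
      · exact hDpos
      · exact hlD _ (M17c_et_mem ls (by omega))
    have hlma : lm a = D := by
      rw [hlm, M17c_lam_le l' (D :: ls) a (by simp only [List.length_cons]; omega), ha,
        M17c_lam_eq]
    have htD : ∀ j < m + 1, t j ≤ D := by
      intro j hj
      have h2 : t j ∈ D :: ts := M17c_et_mem (D :: ts) (by simp only [List.length_cons]; omega)
      rw [List.mem_cons] at h2
      rcases h2 with h2 | h2
      · exact h2.le
      · exact hD _ h2
    have hWU : W ⊆ mon a m := by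
      intro g hg
      rw [hWmem] at hg
      rw [mem_mon]
      refine ⟨fun i => ?_, hg.1.2⟩
      exact hg.2 i ⟨m, by omega⟩ (by rw [htm]; exact hlmi i i.2)
    have hfib := carry_fiber a (m + 1) 0 lm t (by omega) (fun j hj => by rw [hlma]; exact htD j hj)
      (fun _ => True)
    rw [Finset.filter_true_of_mem (fun _ _ => trivial),
      Finset.filter_true_of_mem (fun _ _ => trivial), hUW,
      Finset.sum_image (fun g _ g' _ h => hinj h)] at hfib
    have hfkg := fkg_down (mon a m) W hWU
      (fun p hp q hq => by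
        rw [mem_mon] at hp hq ⊢
        exact ⟨fun i => inf_le_of_left_le (hp.1 i),
          fun i j hij => inf_le_inf (hp.2 i j hij) (hq.2 i j hij)⟩)
      (fun p hp q hq => by
        rw [mem_mon] at hp hq ⊢
        exact ⟨fun i => sup_le (hp.1 i) (hq.1 i),
          fun i j hij => sup_le_sup (hp.2 i j hij) (hq.2 i j hij)⟩)
      (fun g => ((m + 1 : ℕ) : ℝ) + (0 : ℕ) - g ⟨a - 1, by omega⟩ + 1)
      (fun g hg => by
        rw [mem_mon] at hg
        have h2 := hg.1 ⟨a - 1, by omega⟩
        have h3 : ((g ⟨a - 1, by omega⟩ : ℕ) : ℝ) ≤ (m : ℝ) := by exact_mod_cast h2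
        push_cast
        linarith)
      (fun g _ g' _ h => by
        have h2 : ((g ⟨a - 1, by omega⟩ : ℕ) : ℝ) ≤ (g' ⟨a - 1, by omega⟩ : ℕ) := by
          exact_mod_cast h ⟨a - 1, by omega⟩
        linarith)
      (fun g hg g' hg' h => by
        rw [mem_mon] at hg
        rw [hWmem] at hg' ⊢
        exact ⟨⟨fun i => (h i).trans (hg'.1.1 i), hg.2⟩,
          fun i j hij => (h i).trans (hg'.2 i j hij)⟩)
    rw [hfib] at hfkg
    have hsum : ∑ g ∈ mon a m, (((m + 1 : ℕ) : ℝ) + (0 : ℕ) - g ⟨a - 1, by omega⟩ + 1) =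
        ((mon a m).card : ℝ) + ((mon (a + 1) m).card : ℝ) := by
      rw [← M17c_mon_succ a m (by omega), Finset.card_eq_sum_ones]
      push_cast
      rw [← Finset.sum_add_distrib]
      exact Finset.sum_congr rfl fun g _ => by ring
    rw [hsum] at hfkg
    have hfkg' : ((mon a m).card + (mon (a + 1) m).card) * W.card ≤
        (mon a m).card * (UFB (a + 1) (m + 1) 0 lm t).card := by
      exact_mod_cast hfkg
    rw [hA, hB, hWcard]
    have hc1 : (mon a m).card = (a + m).choose a := mon_card a m
    have hc2 : (mon (a + 1) m).card = (a + m + 1).choose (a + 1) := by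
      rw [mon_card]
      congr 1
      omega
    have hr : (a + m + 1) * (mon a m).card = (mon (a + 1) m).card * (a + 1) := by
      rw [hc1, hc2]
      exact Nat.add_one_mul_choose_eq (a + m) a
    have hpos : 0 < (mon a m).card := by
      rw [hc1]
      exact Nat.choose_pos (by omega)
    generalize (UFB (a + 1) (m + 1) 0 lm t).card = Y at hfkg' ⊢
    generalize W.card = X at hfkg' ⊢
    generalize (mon (a + 1) m).card = P at hfkg' hr
    generalize (mon a m).card = Q at hfkg' hr hpos
    refine Nat.le_of_mul_le_mul_left ?_ hpos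
    have e : ls.length + 2 = a + 1 := by omega
    rw [e]
    calc Q * ((2 * a + (m + 1) + 1) * X) = ((a + 1) * Q + (a + m + 1) * Q) * X := by ring
      _ = ((a + 1) * Q + P * (a + 1)) * X := by rw [hr]
      _ = (a + 1) * ((Q + P) * X) := by ring
      _ ≤ (a + 1) * (Q * Y) := Nat.mul_le_mul_left _ hfkg'
      _ = Q * ((a + 1) * Y) := by ring

end Pool.ADM
end

section

/-! job ADM-17b: the inequalities without letters `O`.  `N2l ls ts = (UFB a b 0 (lam ls) (et ts)).card`
(`UFB_card` with `x = 0`; `c = 0`). -/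

set_option autoImplicit false

namespace Pool.ADM

open Finset

private theorem M17b_mem {D w : ℕ} {g : Fin D → ℕ} :
    g ∈ bal D w ↔ (∀ i j : Fin D, i ≤ j → g i ≤ g j) ∧ (∀ i : Fin D, g i ≤ w + i) ∧
      (∀ i : Fin D, (i : ℕ) = 0 → g i = 0) := by
  unfold bal
  rw [Finset.mem_filter, mem_mon]
  constructor
  · rintro ⟨⟨h1, h2⟩, h3⟩
    exact ⟨h2, fun i => (h3 i).1, fun i => (h3 i).2⟩
  · rintro ⟨h1, h2, h3⟩
    refine ⟨⟨fun i => ?_, h1⟩, fun i => ⟨h2 i, h3 i⟩⟩
    have h4 := h2 i
    have h5 := i.2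
    omega

/-- `∑_{g ∈ bal D w} (w + D - 1 - g (D-1) + 2) = |bal (D+1) w|`. -/
theorem bal_succ (D w : ℕ) (hD : 1 ≤ D) :
    ∑ g ∈ bal D w, ((w : ℝ) + D + 1 - g ⟨D - 1, by omega⟩) = ((bal (D + 1) w).card : ℝ) := by
  have key : (bal (D + 1) w).card =
      ((bal D w).sigma (fun g => Finset.Icc (g ⟨D - 1, by omega⟩) (w + D))).card := by
    refine Finset.card_nbij'
      (i := fun g => ⟨fun i => g i.castSucc, g (Fin.last D)⟩)
      (j := fun s => (Fin.snoc s.1 s.2 : Fin (D + 1) → ℕ)) ?_ ?_ ?_ ?_
    · intro g hg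
      simp only [Finset.mem_coe, Finset.mem_sigma, Finset.mem_Icc] at hg ⊢
      rw [M17b_mem] at hg ⊢
      obtain ⟨h1, h2, h3⟩ := hg
      exact ⟨⟨fun i j hij => h1 _ _ (by simpa using hij), fun i => h2 i.castSucc,
        fun i hi => h3 i.castSucc hi⟩, h1 _ _ (Fin.le_last _), h2 (Fin.last D)⟩
    · rintro ⟨g, v⟩ hg
      simp only [Finset.mem_coe, Finset.mem_sigma, Finset.mem_Icc] at hg ⊢
      rw [M17b_mem] at hg ⊢
      obtain ⟨⟨h1, h2, h3⟩, hv1, hv2⟩ := hg
      refine ⟨fun i j => ?_, fun i => ?_, fun i => ?_⟩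
      · refine Fin.lastCases ?_ (fun j' => ?_) j
        · intro _
          refine Fin.lastCases ?_ (fun i' => ?_) i
          · simp
          · have h4 : g i' ≤ g ⟨D - 1, by omega⟩ := h1 _ _ (by
              rw [Fin.le_def]; have := i'.isLt; simp only; omega)
            simpa using h4.trans hv1
        · refine Fin.lastCases ?_ (fun i' => ?_) i
          · intro h
            exact absurd h (by simp)
          · intro h
            simpa using h1 _ _ (by simpa using h)
      · refine Fin.lastCases ?_ (fun i' => ?_) i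
        · simpa using hv2
        · simpa using h2 i'
      · refine Fin.lastCases ?_ (fun i' => ?_) i
        · intro h
          simp only [Fin.val_last] at h
          omega
        · intro h
          simpa using h3 i' (by simpa using h)
    · intro g _
      funext i
      refine Fin.lastCases ?_ (fun j => ?_) i <;> simp
    · rintro ⟨g, v⟩ _
      simp
  rw [key, Finset.card_sigma, Nat.cast_sum]
  refine Finset.sum_congr rfl ?_
  intro g hg
  rw [M17b_mem] at hg
  obtain ⟨h1, h2, h3⟩ := hg
  have h4 := h2 ⟨D - 1, by omega⟩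
  simp only at h4
  rw [Nat.card_Icc, Nat.cast_sub (by omega)]
  push_cast
  ring

private theorem M17b_dn_reverse (D : ℕ) : (dn D).reverse = (List.range D).map (· + 1) := by
  induction D with
  | zero => rfl
  | succ D ih => rw [dn, List.reverse_cons, ih, List.range_succ, List.map_append]; rfl

private theorem M17b_dn_length (D : ℕ) : (dn D).length = D := by
  induction D with
  | zero => rfl
  | succ D ih => rw [dn, List.length_cons, ih]

private theorem M17b_dn_mem (D : ℕ) : ∀ t ∈ dn D, t ≤ D := by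
  induction D with
  | zero => intro t ht; exact absurd ht (by simp [dn])
  | succ D ih =>
    intro t ht
    rw [dn, List.mem_cons] at ht
    rcases ht with rfl | ht
    · exact le_refl _
    · exact (ih t ht).trans (Nat.le_succ D)

private theorem M17b_dn_pw (D : ℕ) : (dn D).Pairwise fun s t => t ≤ s := by
  induction D with
  | zero => simp [dn]
  | succ D ih =>
    rw [dn, List.pairwise_cons]
    exact ⟨fun t ht => (M17b_dn_mem D t ht).trans (Nat.le_succ D), ih⟩

private theorem M17b_lam_dn (D i : ℕ) (hi : i ≤ D) : lam (dn D) i = i := by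
  unfold lam
  split_ifs with h
  · exact h.symm
  · unfold et
    rw [M17b_dn_reverse, List.getD_eq_getElem _ _ (by simp; omega)]
    simp
    omega

private theorem M17b_et_lt (x : ℕ) (l : List ℕ) (j : ℕ) (h : j < l.length) :
    et (x :: l) j = et l j := by
  unfold et
  rw [List.reverse_cons, List.getD_append _ _ _ _ (by simpa using h)]

private theorem M17b_et_eq (x : ℕ) (l : List ℕ) : et (x :: l) l.length = x := by
  unfold et
  rw [List.reverse_cons, List.getD_append_right _ _ _ _ (by simp)]
  simp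

private theorem M17b_et_mem (ts : List ℕ) {j : ℕ} (hj : j < ts.length) : et ts j ∈ ts := by
  unfold et
  rw [List.getD_eq_getElem _ _ (by simpa using hj)]
  have h := List.getElem_mem (l := ts.reverse) (n := j) (by simpa using hj)
  exact List.mem_reverse.1 h

/-- the tops are large near the end -/
private theorem M17b_chain (ts : List ℕ) (hch : ts.IsChain fun s t => s ≤ t + 1) :
    ∀ j, j < ts.length → ts.headD 0 ≤ et ts j + (ts.length - 1 - j) := by
  induction ts with
  | nil => intro j hj; simp at hj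
  | cons s ts ih =>
    intro j hj
    simp only [List.headD_cons]
    rcases Nat.lt_or_ge j ts.length with h | h
    · rw [M17b_et_lt _ _ _ h]
      cases ts with
      | nil => simp at h
      | cons t ts =>
        have h1 : s ≤ t + 1 := by
          have := hch
          simp only [List.isChain_cons_cons] at this
          exact this.1
        have h2 := ih (by
          have := hch
          simp only [List.isChain_cons_cons] at this
          exact this.2) j h
        simp only [List.headD_cons, List.length_cons] at h2 h ⊢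
        omega
    · have hj' : j = ts.length := by simp only [List.length_cons] at hj; omega
      subst hj'
      rw [M17b_et_eq]
      omega

private theorem M17b_UFB_congr {a b x : ℕ} {lm lm' t t' : ℕ → ℕ} (hl : ∀ i < a, lm i = lm' i)
    (ht : ∀ j < b, t j = t' j) : UFB a b x lm t = UFB a b x lm' t' := by
  unfold UFB
  refine Finset.filter_congr fun gc _ => ?_
  constructor
  · intro h i j hij
    exact h i j (by rw [hl i i.2, ht j j.2]; exact hij)
  · intro h i j hij
    exact h i j (by rw [← hl i i.2, ← ht j j.2]; exact hij)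

/-- FKG (`fkg_down`) for `W` = the words, `U = bal D w`, `w = b - (D-1)`: the tops increase by at
most `1` per letter up to `D - 1`, therefore `t j ≥ j + 1 - w`, and all are `≥ 1`; `T5_fiber_eq` with
`x = 0`, `bal_succ`, `bal_ratio`.  `b = ts.length`. -/
theorem N2l_T5 (D : ℕ) (hD : 2 ≤ D) (ts : List ℕ) (h1 : ∀ t ∈ ts, 1 ≤ t) (hD' : ∀ t ∈ ts, t ≤ D - 1)
    (hhd : ts.headD 0 = D - 1) (hch : ts.IsChain fun s t => s ≤ t + 1) (hl : ts.getLastD 1 = 1) :
    (D + ts.length + 1) * (D + ts.length + 2) * N2l (dn D) ts ≤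
      D * (ts.length + 3) * N2l (dn (D + 1)) (D :: ts) := by
  have hb : 1 ≤ ts.length := by
    cases ts with
    | nil => simp at hhd; omega
    | cons t ts => simp
  -- the earliest top is `1`
  have hfirst : et ts 0 = 1 := by
    unfold et
    have h0 : ts ≠ [] := by rintro rfl; simp at hb
    rw [List.getLastD_eq_getLast?, List.getLast?_eq_some_getLast h0] at hl
    simp only [Option.getD_some] at hl
    have h2 : ts.reverse ≠ [] := by simpa using h0
    rw [List.getD_eq_getElem _ _ (by rw [List.length_reverse]; omega), List.getElem_reverse]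
    rw [List.getLast_eq_getElem] at hl
    convert hl using 2
    omega
  have hchain := M17b_chain ts hch
  rw [hhd] at hchain
  -- `b ≥ D - 1`
  have hbD : D - 1 ≤ ts.length := by
    have := hchain 0 (by omega)
    omega
  obtain ⟨w, hw⟩ : ∃ w, ts.length = w + (D - 1) := ⟨ts.length - (D - 1), by omega⟩
  set b := ts.length with hbdef
  -- the two numbers as cards
  have hts : ∀ t ∈ D :: ts, 1 ≤ t := by
    intro t ht
    rw [List.mem_cons] at ht
    rcases ht with rfl | ht
    · omega
    · exact h1 t ht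
  have hA : N2l (dn D) ts = (UFB D b 0 (fun i => i) (et ts)).card := by
    have h := UFB_card (dn D) (M17b_dn_pw D) ts h1 (fun t ht => by
      have h2 := hD' t ht
      obtain ⟨e, rfl⟩ : ∃ e, D = e + 1 := ⟨D - 1, by omega⟩
      simp only [dn, List.headD_cons]
      omega) 0
    rw [M17b_dn_length, Nat.choose_zero_right, one_mul] at h
    rw [← h, M17b_UFB_congr (lm' := fun i => i) (t' := et ts)
      (fun i hi => M17b_lam_dn D i hi.le) (fun _ _ => rfl)]
  have hB : N2l (dn (D + 1)) (D :: ts) =
      (UFB (D + 1) (b + 1) 0 (fun i => i) (et (D :: ts))).card := by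
    have h := UFB_card (dn (D + 1)) (M17b_dn_pw (D + 1)) (D :: ts) hts (fun t ht => by
      simp only [dn, List.headD_cons]
      rw [List.mem_cons] at ht
      rcases ht with rfl | ht
      · omega
      · have h2 := hD' t ht; omega) 0
    rw [M17b_dn_length, Nat.choose_zero_right, one_mul, List.length_cons] at h
    rw [← h, M17b_UFB_congr (lm' := fun i => i) (t' := et (D :: ts))
      (fun i hi => M17b_lam_dn (D + 1) i hi.le) (fun _ _ => rfl)]
  -- the words as a down-set of `bal D w`
  set W : Finset (Fin D → ℕ) := (mon D b).filter fun g =>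
    ∀ (i : Fin D) (j : Fin b), (i : ℕ) < et ts j → g i ≤ (j : ℕ) with hWdef
  have hUW : (UFB D b 0 (fun i => i) (et ts)) = W.image (fun g => (g, fun _ : Fin b => 0)) := by
    ext ⟨g, c⟩
    simp only [UFB, hWdef, Finset.mem_filter, Finset.mem_product, mem_mon, Finset.mem_image,
      Prod.mk.injEq, add_zero]
    constructor
    · rintro ⟨⟨⟨h2, h3⟩, h4, h5⟩, h6⟩
      have hc : c = fun _ => 0 := funext fun j => Nat.le_zero.1 (h4 j)
      refine ⟨g, ⟨⟨h2, h3⟩, fun i j hij => ?_⟩, rfl, hc.symm⟩
      have := h6 i j hij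
      rw [hc] at this
      simpa using this
    · rintro ⟨g', ⟨⟨h2, h3⟩, h4⟩, rfl, rfl⟩
      exact ⟨⟨⟨h2, h3⟩, fun _ => le_refl _, fun _ _ _ => le_refl _⟩, fun i j hij => by
        simpa using h4 i j hij⟩
  have hinj : Function.Injective
      (fun g : Fin D → ℕ => ((g, fun _ : Fin b => 0) : (Fin D → ℕ) × (Fin b → ℕ))) := by
    intro g g' h
    exact (Prod.mk.inj h).1
  have hWcard : (UFB D b 0 (fun i => i) (et ts)).card = W.card := by
    rw [hUW, Finset.card_image_of_injective _ hinj]
  have hWmem : ∀ g, g ∈ W ↔ ((∀ i, g i ≤ b) ∧ ∀ i j : Fin D, i ≤ j → g i ≤ g j) ∧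
      ∀ (i : Fin D) (j : Fin b), (i : ℕ) < et ts j → g i ≤ (j : ℕ) := by
    intro g
    rw [hWdef, Finset.mem_filter, mem_mon]
  have hWU : W ⊆ bal D w := by
    intro g hg
    rw [hWmem] at hg
    obtain ⟨⟨h2, h3⟩, h4⟩ := hg
    rw [M17b_mem]
    refine ⟨h3, fun i => ?_, fun i hi => ?_⟩
    · have hi := i.2
      rcases Nat.lt_or_ge (i : ℕ) (D - 1) with h | h
      · have h5 : w + (i : ℕ) < b := by omega
        have h6 := hchain (w + i) h5
        have h7 := h4 i ⟨w + i, h5⟩ (by simp only; omega)
        simpa using h7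
      · have := h2 i
        omega
    · have h5 := h4 i ⟨0, by omega⟩ (by simp only; rw [hfirst]; omega)
      simpa using h5
  have hfib := T5_fiber_eq D b 0 (fun i => i) (et ts) (et (D :: ts)) (by omega) (by omega)
    (fun i _ => rfl) (fun j hj => ⟨(hD' _ (M17b_et_mem ts hj)).trans (by omega),
      M17b_et_lt _ _ _ hj⟩) (M17b_et_eq D ts)
  rw [hUW, Finset.sum_image (fun g _ g' _ h => hinj h)] at hfib
  have hsumW : ∑ g ∈ W, ((w : ℝ) + D + 1 - g ⟨D - 1, by omega⟩) =
      ((UFB (D + 1) (b + 1) 0 (fun i => i) (et (D :: ts))).card : ℝ) := by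
    rw [← hfib]
    refine Finset.sum_congr rfl fun g hg => ?_
    rw [hWmem] at hg
    have h2 := hg.1.1 ⟨D - 1, by omega⟩
    have h3 : ((g ⟨D - 1, by omega⟩ : ℕ) : ℝ) ≤ (b : ℝ) := by exact_mod_cast h2
    have h4 : (b : ℝ) = w + D - 1 := by
      have h5 : b + 1 = w + D := by omega
      have h6 : ((b + 1 : ℕ) : ℝ) = ((w + D : ℕ) : ℝ) := by rw [h5]
      push_cast at h6
      linarith
    have h5 : min ((b : ℝ) + (0 : ℕ) - g ⟨D - 1, by omega⟩) (((0 : ℕ) : ℝ) - (0 : ℕ)) = 0 := by
      simp only [Nat.cast_zero, sub_zero, add_zero]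
      exact min_eq_right (by linarith)
    rw [h5]
    simp only [Nat.cast_zero, add_zero, mul_one]
    linarith
  have hfkg := fkg_down (bal D w) W hWU
    (fun a ha c hc => by
      rw [M17b_mem] at ha hc ⊢
      refine ⟨fun i j hij => ?_, fun i => ?_, fun i hi => ?_⟩
      · exact inf_le_inf (ha.1 i j hij) (hc.1 i j hij)
      · exact inf_le_of_left_le (ha.2.1 i)
      · simp only [Pi.inf_apply]
        rw [ha.2.2 i hi, hc.2.2 i hi]
        rfl)
    (fun a ha c hc => by
      rw [M17b_mem] at ha hc ⊢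
      refine ⟨fun i j hij => ?_, fun i => ?_, fun i hi => ?_⟩
      · exact sup_le_sup (ha.1 i j hij) (hc.1 i j hij)
      · exact sup_le (ha.2.1 i) (hc.2.1 i)
      · simp only [Pi.sup_apply]
        rw [ha.2.2 i hi, hc.2.2 i hi]
        rfl)
    (fun g => (w : ℝ) + D + 1 - g ⟨D - 1, by omega⟩)
    (fun g hg => by
      rw [M17b_mem] at hg
      have h2 := hg.2.1 ⟨D - 1, by omega⟩
      have h3 : ((g ⟨D - 1, by omega⟩ : ℕ) : ℝ) ≤ ((w + D : ℕ) : ℝ) := by
        have : g ⟨D - 1, by omega⟩ ≤ w + D := by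
          simp only at h2
          omega
        exact_mod_cast this
      push_cast at h3
      linarith)
    (fun g _ g' _ h => by
      have h2 : ((g ⟨D - 1, by omega⟩ : ℕ) : ℝ) ≤ (g' ⟨D - 1, by omega⟩ : ℕ) := by
        exact_mod_cast h ⟨D - 1, by omega⟩
      linarith)
    (fun g hg g' hg' h => by
      rw [M17b_mem] at hg
      rw [hWmem] at hg' ⊢
      exact ⟨⟨fun i => (h i).trans (hg'.1.1 i), hg.1⟩, fun i j hij => (h i).trans (hg'.2 i j hij)⟩)
  rw [bal_succ D w (by omega), hsumW] at hfkg
  have hr := bal_ratio D w (by omega)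
  have hpos : 0 < (bal D w).card := by
    apply Finset.card_pos.2
    refine ⟨fun _ => 0, ?_⟩
    rw [M17b_mem]
    exact ⟨fun _ _ _ => le_refl _, fun _ => Nat.zero_le _, fun _ _ => rfl⟩
  have e1 : D + w + 2 = b + 3 := by omega
  have e2 : 2 * D + w = D + b + 1 := by omega
  rw [e1, e2] at hr
  rw [hA, hB, hWcard]
  have hfkg' : (bal (D + 1) w).card * W.card ≤
      (bal D w).card * (UFB (D + 1) (b + 1) 0 (fun i => i) (et (D :: ts))).card := by
    exact_mod_cast hfkg
  generalize (UFB (D + 1) (b + 1) 0 (fun i => i) (et (D :: ts))).card = Y at hfkg' ⊢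
  generalize W.card = X at hfkg' ⊢
  generalize (bal (D + 1) w).card = P at hfkg' hr
  generalize (bal D w).card = Q at hfkg' hr hpos
  refine Nat.le_of_mul_le_mul_left ?_ hpos
  calc Q * ((D + b + 1) * (D + b + 2) * X) = ((D + b + 1) * (D + b + 1 + 1) * Q) * X := by ring
    _ = (D * (b + 3) * P) * X := by rw [← hr]
    _ = D * (b + 3) * (P * X) := by ring
    _ ≤ D * (b + 3) * (Q * Y) := Nat.mul_le_mul_left _ hfkg'
    _ = Q * (D * (b + 3) * Y) := by ring

end Pool.ADM
end

section

end

section

/-! job ADM-18a: the two count inequalities for three types of letters.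

FKG (`fkg_down`) on `UFB`: `W` = the words allowed (`Val_down`, `lst_mono`), `f` = the number of ways
to insert the new letters; therefore the ratio is at least the ratio of the cards of `UFB`, which
are `UFB_card`; then `N2l_carry`, `N2l_T5`. -/

set_option autoImplicit false

namespace Pool.ADM

open Finset

theorem fkg_O (a b x : ℕ) (lm t h lst o : ℕ → ℕ) (f : (Fin a → ℕ) × (Fin b → ℕ) → ℝ)
    (hl : ∀ b1 b2, b1 ≤ b2 → b2 ≤ b → (∀ j < b, h j = 0 → j < b1) → lst b1 ≤ lst b2)
    (hf0 : ∀ p ∈ UFB a b x lm t, 0 ≤ f p)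
    (hf : ∀ p ∈ UFB a b x lm t, ∀ q ∈ UFB a b x lm t, p ≤ q → f q ≤ f p) :
    (∑ p ∈ UFB a b x lm t, f p) *
        ((((UFB a b x lm t).filter fun gc => Val b x h lst o gc.2).card : ℕ) : ℝ) ≤
      ((UFB a b x lm t).card : ℝ) *
        ∑ p ∈ (UFB a b x lm t).filter (fun gc => Val b x h lst o gc.2), f p := by
  refine fkg_down (UFB a b x lm t) _ (Finset.filter_subset _ _)
    (fun p hp q hq => (UFB_inf a b x lm t p hp q hq).1)
    (fun p hp q hq => (UFB_inf a b x lm t p hp q hq).2) f hf0 hf ?_
  intro p hp q hq hpq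
  rw [Finset.mem_filter] at hq ⊢
  refine ⟨hp, ?_⟩
  have hq1 := hq.1
  unfold UFB at hq1
  rw [Finset.mem_filter, Finset.mem_product, mem_mon, mem_mon] at hq1
  exact Val_down b x h lst o hl p.2 q.2 hq1.1.2.2 hpq.2 hq.2

private theorem M18a_et_lt (x : ℕ) (l : List ℕ) (j : ℕ) (h : j < l.length) :
    et (x :: l) j = et l j := by
  unfold et
  rw [List.reverse_cons, List.getD_append _ _ _ _ (by simpa using h)]

private theorem M18a_et_eq (x : ℕ) (l : List ℕ) : et (x :: l) l.length = x := by
  unfold et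
  rw [List.reverse_cons, List.getD_append_right _ _ _ _ (by simp)]
  simp

private theorem M18a_et_mem (ts : List ℕ) {j : ℕ} (hj : j < ts.length) : et ts j ∈ ts := by
  unfold et
  rw [List.getD_eq_getElem _ _ (by simpa using hj)]
  have h := List.getElem_mem (l := ts.reverse) (n := j) (by simpa using hj)
  exact List.mem_reverse.1 h

private theorem M18a_UFB_congr {a b x : ℕ} {lm lm' t : ℕ → ℕ} (hl : ∀ i < a, lm i = lm' i) :
    UFB a b x lm t = UFB a b x lm' t := by
  unfold UFB
  refine Finset.filter_congr fun gc _ => ?_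
  constructor
  · intro h i j hij
    exact h i j (by rw [hl i i.2]; exact hij)
  · intro h i j hij
    exact h i j (by rw [← hl i i.2]; exact hij)

/-- `a = ls.length + 1` letters `F`, the last one reaches level `D`. -/
theorem Jc_carry (D l' b x : ℕ) (ls : List ℕ) (pB pO : Pth) (hl' : D ≤ l') (hb : 1 ≤ b)
    (hls : ls.Pairwise fun s t => t ≤ s) (hlD : ∀ l ∈ ls, l < D) (hB : VP 1 b pB)
    (hO : VP 1 x pO) (htop : top3 (hd pB) = D) :
    (2 * (ls.length + 1) + b + 1) * (ls.length + 1 + b + x + 1) * Jc (D :: ls) pB pO ≤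
      (ls.length + 2) * (ls.length + 1 + b + 1) * Jc (l' :: D :: ls) pB pO := by
  have hpw1 : (D :: ls).Pairwise fun s t => t ≤ s :=
    List.pairwise_cons.2 ⟨fun t ht => (hlD t ht).le, hls⟩
  have hpw2 : (l' :: D :: ls).Pairwise fun s t => t ≤ s := by
    refine List.pairwise_cons.2 ⟨fun t ht => ?_, hpw1⟩
    rw [List.mem_cons] at ht
    rcases ht with rfl | ht
    · exact hl'
    · exact (hlD t ht).le.trans hl'
  by_cases ht : ∀ t ∈ tps pB, t ≤ (D :: ls).headD 0
  swap
  · rw [Jc_zero (D :: ls) hpw1 b x pB pO hB hO ht]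
    simp
  have ht2 : ∀ t ∈ tps pB, t ≤ (l' :: D :: ls).headD 0 := by
    intro t h
    have := ht t h
    simp only [List.headD_cons] at this ⊢
    exact this.trans hl'
  have hlen : (tps pB).length = b := by
    have h := hB.length
    simpa [tps] using h
  have hpos : ∀ t ∈ tps pB, 1 ≤ t := fun t ht => ((hB.tps le_rfl).2.1 t ht).1
  -- the list of tops
  obtain ⟨y, pB', rfl⟩ : ∃ y pB', pB = y :: pB' := by
    cases pB with
    | nil => simp [tps] at hlen; omega
    | cons y p => exact ⟨y, p, rfl⟩
  have htsE : tps (y :: pB') = D :: tps pB' := by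
    rw [← htop]; rfl
  rw [Jc_card (D :: ls) hpw1 b x _ pO hB hO ht, Jc_card (l' :: D :: ls) hpw2 b x _ pO hB hO ht2]
  set t : ℕ → ℕ := et (tps (y :: pB')) with htdef
  set a : ℕ := ls.length + 1 with ha
  have hlam : ∀ i < a + 1, lam (l' :: D :: ls) i = lam (D :: ls) i := by
    intro i hi
    unfold lam
    split_ifs with h0
    · rfl
    · exact M18a_et_lt _ _ _ (by simp only [List.length_cons]; omega)
  have hla : lam (D :: ls) a = D := by
    unfold lam
    rw [if_neg (by omega)]
    exact M18a_et_eq D ls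
  have htD : ∀ j < b, t j ≤ lam (D :: ls) a := by
    intro j hj
    rw [hla]
    exact ht _ (M18a_et_mem _ (by rw [hlen]; exact hj))
  have e1 : (D :: ls).length = a := rfl
  have e2 : (l' :: D :: ls).length = a + 1 := rfl
  rw [e1, e2, M18a_UFB_congr (t := t) hlam]
  have hU := UFB_card (D :: ls) hpw1 (tps (y :: pB')) hpos ht x
  have hU2 := UFB_card (l' :: D :: ls) hpw2 (tps (y :: pB')) hpos ht2 x
  rw [e1, hlen] at hU
  rw [e2, hlen, M18a_UFB_congr (t := et (tps (y :: pB'))) hlam] at hU2
  have hN := N2l_carry D l' ls (tps pB') hl' hls hlD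
    (fun s hs => hpos s (by rw [htsE]; exact List.mem_cons_of_mem _ hs))
    (fun s hs => by
      have := ht s (by rw [htsE]; exact List.mem_cons_of_mem _ hs)
      simpa using this)
  have hlen' : (tps pB').length + 1 = b := by
    rw [htsE] at hlen
    simpa using hlen
  rw [hlen', ← htsE, ← ha] at hN
  have hfib1 := carry_fiber a b x (lam (D :: ls)) t (by omega) htD (fun _ => True)
  have hfib2 := carry_fiber a b x (lam (D :: ls)) t (by omega) htD
    (fun c => Val b x (et (hts (y :: pB'))) (lam (lsts (y :: pB'))) (et (tps pO)) c)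
  simp only [Finset.filter_true] at hfib1
  have hfkg := fkg_O a b x (lam (D :: ls)) t (et (hts (y :: pB'))) (lam (lsts (y :: pB')))
    (et (tps pO)) (fun gc => (b : ℝ) + x - gc.1 ⟨a - 1, by omega⟩ + 1)
    (fun b1 b2 h12 h2 hap => lst_mono hB b1 b2 h12 h2 hap)
    (fun p hp => by
      unfold UFB at hp
      rw [Finset.mem_filter, Finset.mem_product, mem_mon] at hp
      have h2 := hp.1.1.1 ⟨a - 1, by omega⟩
      have h3 : ((p.1 ⟨a - 1, by omega⟩ : ℕ) : ℝ) ≤ ((b + x : ℕ) : ℝ) := by exact_mod_cast h2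
      push_cast at h3
      linarith)
    (fun p _ q _ hpq => by
      have h2 : ((p.1 ⟨a - 1, by omega⟩ : ℕ) : ℝ) ≤ (q.1 ⟨a - 1, by omega⟩ : ℕ) := by
        exact_mod_cast hpq.1 ⟨a - 1, by omega⟩
      linarith)
  rw [hfib1, hfib2] at hfkg
  have hfkg' : (UFB (a + 1) b x (lam (D :: ls)) t).card *
      ((UFB a b x (lam (D :: ls)) t).filter fun gc =>
        Val b x (et (hts (y :: pB'))) (lam (lsts (y :: pB'))) (et (tps pO)) gc.2).card ≤
      (UFB a b x (lam (D :: ls)) t).card *
      ((UFB (a + 1) b x (lam (D :: ls)) t).filter fun gc =>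
        Val b x (et (hts (y :: pB'))) (lam (lsts (y :: pB'))) (et (tps pO)) gc.2).card := by
    exact_mod_cast hfkg
  have hWle : ((UFB a b x (lam (D :: ls)) t).filter fun gc =>
      Val b x (et (hts (y :: pB'))) (lam (lsts (y :: pB'))) (et (tps pO)) gc.2).card ≤
      (UFB a b x (lam (D :: ls)) t).card := Finset.card_le_card (Finset.filter_subset _ _)
  rw [← htdef] at hU hU2
  generalize ((UFB a b x (lam (D :: ls)) t).filter fun gc =>
      Val b x (et (hts (y :: pB'))) (lam (lsts (y :: pB'))) (et (tps pO)) gc.2).card = X at hfkg' hWle ⊢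
  generalize ((UFB (a + 1) b x (lam (D :: ls)) t).filter fun gc =>
      Val b x (et (hts (y :: pB'))) (lam (lsts (y :: pB'))) (et (tps pO)) gc.2).card = Y at hfkg' ⊢
  rw [hU, hU2] at hfkg'
  rw [hU] at hWle
  generalize N2l (D :: ls) (tps (y :: pB')) = N1 at hN hfkg' hWle
  generalize N2l (l' :: D :: ls) (tps (y :: pB')) = N2' at hN hfkg'
  have hch : (a + 1 + b + x).choose x * (a + b + 1) = (a + b + x + 1) * (a + b + x).choose x := by
    have h := Nat.choose_mul_succ_eq (a + b + x) x
    have h2 : a + 1 + b + x = a + b + x + 1 := by ring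
    have h3 : a + b + x + 1 - x = a + b + 1 := by omega
    rw [h3] at h
    rw [h2, ← h]
    ring
  have hCpos : 0 < (a + b + x).choose x := Nat.choose_pos (by omega)
  rcases Nat.eq_zero_or_pos N1 with h0 | h0
  · rw [h0, mul_zero] at hWle
    have hX : X = 0 := Nat.le_zero.1 hWle
    rw [hX]
    simp
  have hQ : 0 < (a + b + x).choose x * N1 := Nat.mul_pos hCpos h0
  refine Nat.le_of_mul_le_mul_left ?_ hQ
  have e3 : ls.length + 2 = a + 1 := by omega
  rw [e3]
  calc (a + b + x).choose x * N1 * ((2 * a + b + 1) * (a + b + x + 1) * X)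
      = ((2 * a + b + 1) * N1) * ((a + b + x + 1) * (a + b + x).choose x) * X := by ring
    _ ≤ ((a + 1) * N2') * ((a + b + x + 1) * (a + b + x).choose x) * X := by
        refine Nat.mul_le_mul_right _ (Nat.mul_le_mul_right _ ?_)
        rw [e3] at hN
        exact hN
    _ = ((a + 1) * (a + b + 1)) * ((a + 1 + b + x).choose x * N2' * X) := by rw [← hch]; ring
    _ ≤ ((a + 1) * (a + b + 1)) * ((a + b + x).choose x * N1 * Y) := Nat.mul_le_mul_left _ hfkg'
    _ = (a + b + x).choose x * N1 * ((a + 1) * (a + b + 1) * Y) := by ring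

end Pool.ADM
end

section

/-! job ADM-18b: the two count inequalities for three types of letters.

FKG (`fkg_down`) on `UFB`: `W` = the words allowed (`Val_down`, `lst_mono`), `f` = the number of ways
to insert the new letters; therefore the ratio is at least the ratio of the cards of `UFB`, which
are `UFB_card`; then `N2l_carry`, `N2l_T5`. -/

set_option autoImplicit false

namespace Pool.ADM

open Finset

private theorem M18b_dn_reverse (D : ℕ) : (dn D).reverse = (List.range D).map (· + 1) := by
  induction D with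
  | zero => rfl
  | succ D ih => rw [dn, List.reverse_cons, ih, List.range_succ, List.map_append]; rfl

private theorem M18b_dn_length (D : ℕ) : (dn D).length = D := by
  induction D with
  | zero => rfl
  | succ D ih => rw [dn, List.length_cons, ih]

private theorem M18b_dn_mem (D : ℕ) : ∀ t ∈ dn D, t ≤ D := by
  induction D with
  | zero => intro t ht; exact absurd ht (by simp [dn])
  | succ D ih =>
    intro t ht
    rw [dn, List.mem_cons] at ht
    rcases ht with rfl | ht
    · exact le_refl _
    · exact (ih t ht).trans (Nat.le_succ D)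

private theorem M18b_dn_pw (D : ℕ) : (dn D).Pairwise fun s t => t ≤ s := by
  induction D with
  | zero => simp [dn]
  | succ D ih =>
    rw [dn, List.pairwise_cons]
    exact ⟨fun t ht => (M18b_dn_mem D t ht).trans (Nat.le_succ D), ih⟩

private theorem M18b_lam_dn (D i : ℕ) (hi : i ≤ D) : lam (dn D) i = i := by
  unfold lam
  split_ifs with h
  · exact h.symm
  · unfold et
    rw [M18b_dn_reverse, List.getD_eq_getElem _ _ (by simp; omega)]
    simp
    omega

private theorem M18b_dn_headD (D : ℕ) (hD : 1 ≤ D) : (dn D).headD 0 = D := by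
  obtain ⟨e, rfl⟩ : ∃ e, D = e + 1 := ⟨D - 1, by omega⟩
  simp only [dn, List.headD_cons]

private theorem M18b_et_lt (x : ℕ) (l : List ℕ) (j : ℕ) (h : j < l.length) :
    et (x :: l) j = et l j := by
  unfold et
  rw [List.reverse_cons, List.getD_append _ _ _ _ (by simpa using h)]

private theorem M18b_et_eq (x : ℕ) (l : List ℕ) : et (x :: l) l.length = x := by
  unfold et
  rw [List.reverse_cons, List.getD_append_right _ _ _ _ (by simp)]
  simp

private theorem M18b_et_mem (ts : List ℕ) {j : ℕ} (hj : j < ts.length) : et ts j ∈ ts := by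
  unfold et
  rw [List.getD_eq_getElem _ _ (by simpa using hj)]
  have h := List.getElem_mem (l := ts.reverse) (n := j) (by simpa using hj)
  exact List.mem_reverse.1 h

private theorem M18b_lam_lt (x : ℕ) (l : List ℕ) (j : ℕ) (h : j ≤ l.length) :
    lam (x :: l) j = lam l j := by
  unfold lam
  split_ifs with h0
  · rfl
  · exact M18b_et_lt _ _ _ (by omega)

private theorem M18b_lam_eq (x : ℕ) (l : List ℕ) : lam (x :: l) (l.length + 1) = x := by
  unfold lam
  rw [if_neg (by omega)]
  exact M18b_et_eq x l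

private theorem M18b_UFB_congr {a b x : ℕ} {lm lm' t t' : ℕ → ℕ} (hl : ∀ i < a, lm i = lm' i)
    (ht : ∀ j < b, t j = t' j) : UFB a b x lm t = UFB a b x lm' t' := by
  unfold UFB
  refine Finset.filter_congr fun gc _ => ?_
  constructor
  · intro h i j hij
    exact h i j (by rw [hl i i.2, ht j j.2]; exact hij)
  · intro h i j hij
    exact h i j (by rw [← hl i i.2, ← ht j j.2]; exact hij)

/-- the tops increase by at most one, the earliest is `1`. -/
private theorem M18b_tps {b : ℕ} {pB : Pth} (hB : VP 1 b pB) :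
    ((tps pB).IsChain fun s t => s ≤ t + 1) ∧ (tps pB).getLastD 1 = 1 := by
  induction hB with
  | nil => exact ⟨by simp [tps], by simp [tps]⟩
  | @cons n p w h σ hp hw hs ih =>
    obtain ⟨_, g2, _, _⟩ := suc_top 1 n (hd p) (hp.vs le_rfl) _ hs hw
    dsimp only at g2
    cases p with
    | nil =>
      have hs' : (w, h, σ) ∈ suc 1 [] := hs
      simp only [suc, List.mem_singleton, Prod.mk.injEq] at hs'
      obtain ⟨_, _, rfl⟩ := hs'
      exact ⟨by simp [tps], by simp [tps, top3]⟩
    | cons y p =>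
      have e1 : tps ((h, σ) :: y :: p) = top3 σ :: top3 y.2 :: tps p := rfl
      have e2 : tps (y :: p) = top3 y.2 :: tps p := rfl
      have e3 : hd (y :: p) = y.2 := rfl
      rw [e3] at g2
      rw [e2] at ih
      rw [e1]
      refine ⟨?_, ?_⟩
      · simp only [List.isChain_cons_cons]
        exact ⟨g2, ih.1⟩
      · rw [List.getLastD_cons]
        have h4 := ih.2
        rw [List.getLastD_cons] at h4 ⊢
        exact h4

private theorem M18b_AL {D : ℕ} {σ : S3} (h : AL D σ) : top3 σ = D ∧ last3 σ = D := by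
  obtain ⟨h0, h1⟩ := h
  cases σ with
  | nil => exact absurd rfl h0
  | cons q τ =>
    refine ⟨h1 q (by simp), ?_⟩
    unfold last3
    rw [List.getLastD_eq_getLast?, List.getLast?_eq_some_getLast (by simp), Option.getD_some]
    exact h1 _ (List.getLast_mem _)

/-- one more letter `B` keeps the conditions. -/
private theorem M18b_val (D b x : ℕ) (h lst o h' lst' : ℕ → ℕ) (hh : ∀ j < b, h' j = h j)
    (hhb : h' b ≠ 0) (hl : ∀ j ≤ b, lst' j = lst j) (hl1 : lst b ≤ lst' (b + 1))
    (c : Fin (b + 1) → ℕ) (hc : ∀ i j, i ≤ j → c i ≤ c j)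
    (hv : Val b x h lst o fun j => c j.castSucc) : Val (b + 1) x h' lst' o c := by
  obtain ⟨v1, v2⟩ := hv
  refine ⟨fun j => ?_, fun i => ?_⟩
  · refine Fin.lastCases ?_ (fun j' => ?_) j
    · intro h0
      exact absurd h0 (by simpa using hhb)
    · intro h0
      refine v1 j' ?_
      rw [← hh j' j'.2]
      simpa using h0
  · have hi := v2 i
    by_cases hci : c (Fin.last b) ≤ (i : ℕ)
    · have e1 : (univ.filter fun j : Fin b => c j.castSucc ≤ (i : ℕ)) = univ := by
        refine Finset.filter_true_of_mem fun j _ => ?_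
        exact (hc _ _ (Fin.le_last _)).trans hci
      have e2 : (univ.filter fun j : Fin (b + 1) => c j ≤ (i : ℕ)) = univ := by
        refine Finset.filter_true_of_mem fun j _ => ?_
        exact (hc _ _ (Fin.le_last _)).trans hci
      rw [e1, Finset.card_univ, Fintype.card_fin] at hi
      rw [e2, Finset.card_univ, Fintype.card_fin]
      exact hi.trans hl1
    · have e1 : (univ.filter fun j : Fin (b + 1) => c j ≤ (i : ℕ)).card =
          (univ.filter fun j : Fin b => c j.castSucc ≤ (i : ℕ)).card := by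
        have e3 : (univ.filter fun j : Fin (b + 1) => c j ≤ (i : ℕ)) =
            (univ.filter fun j : Fin b => c j.castSucc ≤ (i : ℕ)).map Fin.castSuccEmb := by
          ext j
          rw [Finset.mem_map]
          refine Fin.lastCases ?_ (fun j' => ?_) j
          · constructor
            · intro h
              exact absurd (Finset.mem_filter.1 h).2 hci
            · rintro ⟨j', _, h⟩
              exact absurd h (Fin.castSucc_lt_last j').ne
          · constructor
            · intro h
              exact ⟨j', by simpa using h, rfl⟩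
            · rintro ⟨j'', h, h2⟩
              have h3 : j'' = j' := Fin.castSucc_injective _ h2
              subst h3
              simpa using h
        rw [e3, Finset.card_map]
      rw [e1, hl _ ((Finset.card_le_card (Finset.filter_subset _ _)).trans (by simp))]
      exact hi

theorem Jc_T5 (D b x u : ℕ) (pB pO : Pth) (hD : 2 ≤ D) (hb : 1 ≤ b) (hB : VP 1 b pB)
    (hO : VP 1 x pO) (hAL : AL (D - 1) (hd pB))
    (hB' : VP 1 (b + 1) ((D - 1, [(D, b + 1, u)]) :: pB)) :
    (D + b + x + 1) * (D + b + x + 2) * Jc (dn D) pB pO ≤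
      D * (b + 3) * Jc (dn (D + 1)) ((D - 1, [(D, b + 1, u)]) :: pB) pO := by
  have hlen : (tps pB).length = b := by
    have h := hB.length
    simpa [tps] using h
  have hlenh : (hts pB).length = b := by
    have h := hB.length
    simpa [hts] using h
  have hlenl : (lsts pB).length = b := by
    have h := hB.length
    simpa [lsts] using h
  obtain ⟨hA1, hA2⟩ := M18b_AL hAL
  have htp := hB.tps le_rfl
  rw [hA1] at htp
  have hpos : ∀ t ∈ tps pB, 1 ≤ t := fun t ht => (htp.2.1 t ht).1
  have hle : ∀ t ∈ tps pB, t ≤ D - 1 := fun t ht => (htp.2.1 t ht).2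
  set p' : Pth := (D - 1, [(D, b + 1, u)]) :: pB with hp'
  have ht' : tps p' = D :: tps pB := rfl
  have hh' : hts p' = (D - 1) :: hts pB := rfl
  have hl' : lsts p' = D :: lsts pB := rfl
  have hts1 : ∀ t ∈ tps pB, t ≤ (dn D).headD 0 := by
    intro t ht
    rw [M18b_dn_headD D (by omega)]
    have := hle t ht
    omega
  have hts2 : ∀ t ∈ tps p', t ≤ (dn (D + 1)).headD 0 := by
    intro t ht
    rw [M18b_dn_headD (D + 1) (by omega)]
    rw [ht', List.mem_cons] at ht
    rcases ht with rfl | ht
    · omega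
    · have := hle t ht
      omega
  have hpos2 : ∀ t ∈ tps p', 1 ≤ t := by
    intro t ht
    rw [ht', List.mem_cons] at ht
    rcases ht with rfl | ht
    · omega
    · exact hpos t ht
  rw [Jc_card (dn D) (M18b_dn_pw D) b x pB pO hB hO hts1,
    Jc_card (dn (D + 1)) (M18b_dn_pw (D + 1)) (b + 1) x p' pO hB' hO hts2,
    M18b_dn_length, M18b_dn_length]
  rw [M18b_UFB_congr (lm' := fun i => i) (t' := et (tps pB)) (fun i hi => M18b_lam_dn D i hi.le)
      (fun _ _ => rfl),
    M18b_UFB_congr (lm' := fun i => i) (t' := et (tps p'))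
      (fun i hi => M18b_lam_dn (D + 1) i hi.le) (fun _ _ => rfl)]
  have hU := UFB_card (dn D) (M18b_dn_pw D) (tps pB) hpos hts1 x
  have hU2 := UFB_card (dn (D + 1)) (M18b_dn_pw (D + 1)) (tps p') hpos2 hts2 x
  have hlen' : (tps p').length = b + 1 := by rw [ht', List.length_cons, hlen]
  rw [M18b_dn_length, hlen, M18b_UFB_congr (lm' := fun i => i) (t' := et (tps pB))
    (fun i hi => M18b_lam_dn D i hi.le) (fun _ _ => rfl)] at hU
  rw [M18b_dn_length, hlen', M18b_UFB_congr (lm' := fun i => i) (t' := et (tps p'))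
    (fun i hi => M18b_lam_dn (D + 1) i hi.le) (fun _ _ => rfl)] at hU2
  -- the inequality without letters `O`
  have hch := M18b_tps hB
  have hhd : (tps pB).headD 0 = D - 1 := by
    cases pB with
    | nil => simp [tps] at hlen; omega
    | cons y p =>
      have h5 : (tps (y :: p)).headD 0 = top3 y.2 := rfl
      rw [h5]
      exact hA1
  have hN := N2l_T5 D hD (tps pB) hpos hle hhd hch.1 hch.2
  rw [hlen, ← ht'] at hN
  -- fibers
  have htt : ∀ j < b, et (tps pB) j ≤ D ∧ et (tps p') j = et (tps pB) j := by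
    intro j hj
    refine ⟨(hle _ (M18b_et_mem _ (by rw [hlen]; exact hj))).trans (by omega), ?_⟩
    rw [ht']
    exact M18b_et_lt _ _ _ (by rw [hlen]; exact hj)
  have htb : et (tps p') b = D := by
    have h5 := M18b_et_eq D (tps pB)
    rwa [hlen, ← ht'] at h5
  have hfib1 := T5_fiber_eq D b x (fun i => i) (et (tps pB)) (et (tps p')) (by omega) hb
    (fun i _ => rfl) htt htb
  have hfib2 := T5_fiber D b x (fun i => i) (et (tps pB)) (et (tps p')) (by omega) hb
    (fun i _ => rfl) htt htb
    (fun c => Val b x (et (hts pB)) (lam (lsts pB)) (et (tps pO)) c)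
    (fun c => Val (b + 1) x (et (hts p')) (lam (lsts p')) (et (tps pO)) c)
    (fun c hc hv => M18b_val D b x _ _ _ _ _
      (fun j hj => by
        rw [hh']
        exact M18b_et_lt _ _ _ (by rw [hlenh]; exact hj))
      (by
        have h5 := M18b_et_eq (D - 1) (hts pB)
        rw [hlenh, ← hh'] at h5
        rw [h5]
        omega)
      (fun j hj => by
        rw [hl']
        exact M18b_lam_lt _ _ _ (by rw [hlenl]; exact hj))
      (by
        have h5 := M18b_lam_eq D (lsts pB)
        rw [hlenl, ← hl'] at h5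
        rw [h5]
        cases pB with
        | nil => simp [tps] at hlen; omega
        | cons y p =>
          have h6 : lsts (y :: p) = last3 y.2 :: lsts p := rfl
          have h7 : (lsts p).length + 1 = b := by
            rw [h6, List.length_cons] at hlenl
            exact hlenl
          have h8 := M18b_lam_eq (last3 y.2) (lsts p)
          rw [h7, ← h6] at h8
          rw [h8]
          have h9 : last3 y.2 = D - 1 := hA2
          omega)
      c hc hv)
  have hfkg := fkg_O D b x (fun i => i) (et (tps pB)) (et (hts pB)) (lam (lsts pB))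
    (et (tps pO)) (fun gc => (((b : ℝ) + x - gc.1 ⟨D - 1, by omega⟩ + 2) *
        (1 + min ((b : ℝ) + x - gc.1 ⟨D - 1, by omega⟩) ((x : ℝ) - gc.2 ⟨b - 1, by omega⟩))))
    (fun b1 b2 h12 h2 hap => lst_mono hB b1 b2 h12 h2 hap)
    (fun p hp => by
      unfold UFB at hp
      rw [Finset.mem_filter, Finset.mem_product, mem_mon, mem_mon] at hp
      have h2 := hp.1.1.1 ⟨D - 1, by omega⟩
      have h3 : ((p.1 ⟨D - 1, by omega⟩ : ℕ) : ℝ) ≤ ((b + x : ℕ) : ℝ) := by exact_mod_cast h2
      have h4 := hp.1.2.1 ⟨b - 1, by omega⟩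
      have h5 : ((p.2 ⟨b - 1, by omega⟩ : ℕ) : ℝ) ≤ (x : ℝ) := by exact_mod_cast h4
      push_cast at h3
      have h6 : (0 : ℝ) ≤ min ((b : ℝ) + x - p.1 ⟨D - 1, by omega⟩)
          ((x : ℝ) - p.2 ⟨b - 1, by omega⟩) := le_min (by linarith) (by linarith)
      exact mul_nonneg (by linarith) (by linarith))
    (fun p hp q hq hpq => by
      have h2 : ((p.1 ⟨D - 1, by omega⟩ : ℕ) : ℝ) ≤ (q.1 ⟨D - 1, by omega⟩ : ℕ) := by
        exact_mod_cast hpq.1 ⟨D - 1, by omega⟩
      have h2' : ((p.2 ⟨b - 1, by omega⟩ : ℕ) : ℝ) ≤ (q.2 ⟨b - 1, by omega⟩ : ℕ) := by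
        exact_mod_cast hpq.2 ⟨b - 1, by omega⟩
      unfold UFB at hq
      rw [Finset.mem_filter, Finset.mem_product, mem_mon, mem_mon] at hq
      have h3 : ((q.1 ⟨D - 1, by omega⟩ : ℕ) : ℝ) ≤ ((b + x : ℕ) : ℝ) := by
        exact_mod_cast hq.1.1.1 ⟨D - 1, by omega⟩
      have h5 : ((q.2 ⟨b - 1, by omega⟩ : ℕ) : ℝ) ≤ (x : ℝ) := by
        exact_mod_cast hq.1.2.1 ⟨b - 1, by omega⟩
      push_cast at h3
      have h6 : (0 : ℝ) ≤ min ((b : ℝ) + x - q.1 ⟨D - 1, by omega⟩)
          ((x : ℝ) - q.2 ⟨b - 1, by omega⟩) := le_min (by linarith) (by linarith)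
      refine mul_le_mul (by linarith) ?_ (by linarith) (by linarith)
      have h7 := min_le_min (by linarith : (b : ℝ) + x - q.1 ⟨D - 1, by omega⟩ ≤
        (b : ℝ) + x - p.1 ⟨D - 1, by omega⟩) (by linarith : (x : ℝ) - q.2 ⟨b - 1, by omega⟩ ≤
        (x : ℝ) - p.2 ⟨b - 1, by omega⟩)
      linarith)
  rw [hfib1] at hfkg
  have hfkg2 := hfkg.trans (mul_le_mul_of_nonneg_left hfib2 (Nat.cast_nonneg _))
  have hfkg' : (UFB (D + 1) (b + 1) x (fun i => i) (et (tps p'))).card *
      ((UFB D b x (fun i => i) (et (tps pB))).filter fun gc =>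
        Val b x (et (hts pB)) (lam (lsts pB)) (et (tps pO)) gc.2).card ≤
      (UFB D b x (fun i => i) (et (tps pB))).card *
      ((UFB (D + 1) (b + 1) x (fun i => i) (et (tps p'))).filter fun gc =>
        Val (b + 1) x (et (hts p')) (lam (lsts p')) (et (tps pO)) gc.2).card := by
    exact_mod_cast hfkg2
  have hWle : ((UFB D b x (fun i => i) (et (tps pB))).filter fun gc =>
      Val b x (et (hts pB)) (lam (lsts pB)) (et (tps pO)) gc.2).card ≤
      (UFB D b x (fun i => i) (et (tps pB))).card :=
    Finset.card_le_card (Finset.filter_subset _ _)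
  generalize ((UFB D b x (fun i => i) (et (tps pB))).filter fun gc =>
      Val b x (et (hts pB)) (lam (lsts pB)) (et (tps pO)) gc.2).card = X at hfkg' hWle ⊢
  generalize ((UFB (D + 1) (b + 1) x (fun i => i) (et (tps p'))).filter fun gc =>
      Val (b + 1) x (et (hts p')) (lam (lsts p')) (et (tps pO)) gc.2).card = Y at hfkg' ⊢
  rw [hU, hU2] at hfkg'
  rw [hU] at hWle
  generalize N2l (dn D) (tps pB) = N1 at hN hfkg' hWle
  generalize N2l (dn (D + 1)) (tps p') = N2' at hN hfkg'
  have hch2 : (D + 1 + (b + 1) + x).choose x * ((D + b + 1) * (D + b + 2)) =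
      (D + b + x + 1) * (D + b + x + 2) * (D + b + x).choose x := by
    have h1 := Nat.choose_mul_succ_eq (D + b + x) x
    have h2 := Nat.choose_mul_succ_eq (D + b + x + 1) x
    have h3 : D + b + x + 1 - x = D + b + 1 := by omega
    have h4 : D + b + x + 1 + 1 - x = D + b + 2 := by omega
    rw [h3] at h1
    rw [h4] at h2
    have h5 : D + 1 + (b + 1) + x = D + b + x + 1 + 1 := by ring
    rw [h5]
    calc (D + b + x + 1 + 1).choose x * ((D + b + 1) * (D + b + 2))
        = ((D + b + x + 1 + 1).choose x * (D + b + 2)) * (D + b + 1) := by ring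
      _ = ((D + b + x + 1).choose x * (D + b + 1)) * (D + b + x + 1 + 1) := by rw [← h2]; ring
      _ = (D + b + x + 1) * (D + b + x + 2) * (D + b + x).choose x := by rw [← h1]; ring
  have hCpos : 0 < (D + b + x).choose x := Nat.choose_pos (by omega)
  rcases Nat.eq_zero_or_pos N1 with h0 | h0
  · rw [h0, mul_zero] at hWle
    have hX : X = 0 := Nat.le_zero.1 hWle
    rw [hX]
    simp
  have hQ : 0 < (D + b + x).choose x * N1 := Nat.mul_pos hCpos h0
  refine Nat.le_of_mul_le_mul_left ?_ hQ
  calc (D + b + x).choose x * N1 * ((D + b + x + 1) * (D + b + x + 2) * X)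
      = ((D + b + x + 1) * (D + b + x + 2) * (D + b + x).choose x) * (N1 * X) := by ring
    _ = ((D + 1 + (b + 1) + x).choose x * ((D + b + 1) * (D + b + 2))) * (N1 * X) := by rw [hch2]
    _ = ((D + b + 1) * (D + b + 2) * N1) * ((D + 1 + (b + 1) + x).choose x * X) := by ring
    _ ≤ (D * (b + 3) * N2') * ((D + 1 + (b + 1) + x).choose x * X) :=
        Nat.mul_le_mul_right _ hN
    _ = (D * (b + 3)) * ((D + 1 + (b + 1) + x).choose x * N2' * X) := by ring
    _ ≤ (D * (b + 3)) * ((D + b + x).choose x * N1 * Y) := Nat.mul_le_mul_left _ hfkg'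
    _ = (D + b + x).choose x * N1 * (D * (b + 3) * Y) := by ring

end Pool.ADM
end

section

end
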