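import Pool.Agent.Lib.MP_ad84ff_coM.M00
import Pool.Agent.Lib.MP_ad84ff_coM.N12d
import Pool.Agent.Lib.MP_ad84ff_coM.M14c
import Pool.Agent.Lib.MP_ad84ff_coM.M07
import Pool.Agent.Lib.MP_ad84ff_coM.M18

section

/-! job ADM-26a: the bounds `Dc`, `Hp` (Abel summation). -/

set_option autoImplicit false

namespace Pool.ADM

open Finset

/-- the sums over the last append -/
noncomputable def q1s (a D m : ℕ) : ℝ := ∑ β ∈ Icc 2 a, q1 β a D * psi β a m

noncomputable def q2s (a D n : ℕ) : ℝ := ∑ β ∈ Icc 2 a, q2 β a D * psi β a n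

theorem abel_tail (n0 n1 : ℕ) (h : n0 ≤ n1) (φ P R : ℕ → ℝ)
    (h0 : 0 ≤ φ n0) (hφ : ∀ k, n0 ≤ k → k < n1 → φ k ≤ φ (k + 1))
    (hR : ∀ k, n0 ≤ k → k ≤ n1 → ∑ i ∈ Icc k n1, P i ≤ R k) :
    ∑ k ∈ Icc n0 n1, φ k * P k ≤
      φ n0 * R n0 + ∑ k ∈ Icc (n0 + 1) n1, (φ k - φ (k - 1)) * R k := by
  have key : ∀ d n0 : ℕ, n0 + d = n1 → ∑ k ∈ Icc n0 n1, φ k * P k =
      φ n0 * ∑ i ∈ Icc n0 n1, P i +
        ∑ k ∈ Icc (n0 + 1) n1, (φ k - φ (k - 1)) * ∑ i ∈ Icc k n1, P i := by
    intro d
    induction d with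
    | zero =>
      intro n0 hn
      have hn' : n0 = n1 := by omega
      subst hn'
      simp
    | succ d ih =>
      intro n0 hn
      have hlt : n0 + 1 ≤ n1 := by omega
      have h1 : ∀ f : ℕ → ℝ, ∑ k ∈ Icc n0 n1, f k = f n0 + ∑ k ∈ Icc (n0 + 1) n1, f k := by
        intro f
        rw [← Finset.insert_Icc_add_one_left_eq_Icc (by omega : n0 ≤ n1), Finset.sum_insert]
        simp
      have h2 : ∀ f : ℕ → ℝ, ∑ k ∈ Icc (n0 + 1) n1, f k =
          f (n0 + 1) + ∑ k ∈ Icc (n0 + 1 + 1) n1, f k := by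
        intro f
        rw [← Finset.insert_Icc_add_one_left_eq_Icc hlt, Finset.sum_insert]
        simp
      rw [h1, ih (n0 + 1) (by omega), h1 P,
        h2 (fun k => (φ k - φ (k - 1)) * ∑ i ∈ Icc k n1, P i)]
      simp only [Nat.add_sub_cancel]
      ring
  rw [key (n1 - n0) n0 (by omega)]
  refine add_le_add (mul_le_mul_of_nonneg_left (hR n0 le_rfl h) h0) ?_
  refine Finset.sum_le_sum fun k hk => ?_
  rw [Finset.mem_Icc] at hk
  refine mul_le_mul_of_nonneg_left (hR k (by omega) hk.2) ?_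
  have h3 := hφ (k - 1) (by omega) (by omega)
  rw [Nat.sub_add_cancel (by omega)] at h3
  linarith

private theorem psi_zero {β a m : ℕ} (ha : 1 ≤ a) (hβ : a < β) : psi β a m = 0 := by
  unfold psi
  refine Finset.prod_eq_zero (i := a) (by rw [Finset.mem_Ico]; omega) ?_
  simp

private theorem psi_nonneg_of_le {β a m : ℕ} (h : a ≤ m) (hβ : β ≤ a + 1) : 0 ≤ psi β a m := by
  unfold psi
  refine Finset.prod_nonneg fun i hi => ?_
  rw [Finset.mem_Ico] at hi
  have h1 : (i : ℝ) ≤ a := by exact_mod_cast (by omega : i ≤ a)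
  have h2 : (a : ℝ) ≤ m := by exact_mod_cast h
  exact div_nonneg (by linarith) (by linarith)

/-- `psi` is a ratio of binomials: `psi β a m = C(m-β, m-a) / C(m-1, m-a)`. -/
theorem psi_nonneg (β a m : ℕ) (h : a ≤ m) (ha : 1 ≤ a) : 0 ≤ psi β a m := by
  rcases Nat.lt_or_ge a β with hβ | hβ
  · rw [psi_zero ha hβ]
  · exact psi_nonneg_of_le h (by omega)

theorem psi_two (a m : ℕ) : psi 2 a m = ((a : ℝ) - 1) / ((m : ℝ) - 1) := by
  unfold psi
  have h : Ico 1 2 = ({1} : Finset ℕ) := by decide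
  rw [h, Finset.prod_singleton]
  simp

private theorem psi_succ {β a m : ℕ} (hβ : 1 ≤ β) :
    psi (β + 1) a m = psi β a m * (((a : ℝ) - β) / ((m : ℝ) - β)) := by
  unfold psi
  rw [Finset.prod_Ico_succ_top hβ]

private theorem psi_tail (a m : ℕ) (h : a < m) : ∀ d β : ℕ, 1 ≤ β → β + d = a →
    ∑ γ ∈ Icc β a, psi γ a m = psi β a m * (((m : ℝ) - β + 1) / ((m : ℝ) - a + 1)) := by
  have hm : (a : ℝ) + 1 ≤ m := by exact_mod_cast h
  intro d
  induction d with
  | zero =>
    intro β _ hd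
    have hβ : β = a := by omega
    subst hβ
    rw [Finset.Icc_self, Finset.sum_singleton, div_self (by linarith), mul_one]
  | succ d ih =>
    intro β hβ hd
    rw [← Finset.insert_Icc_add_one_left_eq_Icc (by omega : β ≤ a), Finset.sum_insert (by simp),
      ih (β + 1) (by omega) (by omega), psi_succ hβ]
    have h1 : (β : ℝ) + 1 ≤ a := by exact_mod_cast (by omega : β + 1 ≤ a)
    have h2 : (m : ℝ) - β ≠ 0 := by linarith
    have h3 : (m : ℝ) - a + 1 ≠ 0 := by linarith
    push_cast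
    field_simp
    ring

/-- `∑_{β=3}^{a} psi β a m = (a-1)(a-2)/((m-a+1)(m-1))` (hockey stick). -/
theorem psi_sum (a m : ℕ) (ha : 2 ≤ a) (h : a < m) :
    ∑ β ∈ Icc 3 a, psi β a m = Ps a m := by
  unfold Ps
  rcases Nat.lt_or_ge a 3 with h3 | h3
  · have h2 : a = 2 := by omega
    subst h2
    simp
  · rw [psi_tail a m h (a - 3) 3 (by norm_num) (by omega)]
    have e3 : psi 3 a m = ((a : ℝ) - 1) / ((m : ℝ) - 1) * (((a : ℝ) - 2) / ((m : ℝ) - 2)) := by
      have := psi_succ (β := 2) (a := a) (m := m) (by norm_num)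
      rw [psi_two] at this
      simpa using this
    rw [e3]
    have hm : (a : ℝ) + 1 ≤ m := by exact_mod_cast h
    have ha3 : (3 : ℝ) ≤ a := by exact_mod_cast h3
    have h1 : (m : ℝ) - 1 ≠ 0 := by linarith
    have h2 : (m : ℝ) - 2 ≠ 0 := by linarith
    have h4 : (m : ℝ) - a + 1 ≠ 0 := by linarith
    push_cast
    field_simp
    ring

theorem psi_mono (β a m : ℕ) (h : a < m) (hβ : β ≤ a) : psi β a m ≤ psi β (a + 1) (m + 1) := by
  unfold psi
  refine Finset.prod_le_prod (fun i hi => ?_) fun i hi => ?_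
  · rw [Finset.mem_Ico] at hi
    have h1 : (i : ℝ) ≤ a := by exact_mod_cast (by omega : i ≤ a)
    have h2 : (a : ℝ) ≤ m := by exact_mod_cast h.le
    exact div_nonneg (by linarith) (by linarith)
  · rw [Finset.mem_Ico] at hi
    have h1 : (i : ℝ) + 1 ≤ a := by exact_mod_cast (by omega : i + 1 ≤ a)
    have h2 : (a : ℝ) + 1 ≤ m := by exact_mod_cast h
    push_cast
    rw [div_le_div_iff₀ (by linarith) (by linarith)]
    nlinarith

theorem psi_mono' (β a m : ℕ) (h : a < m) (ha : 1 ≤ a) : psi β a m ≤ psi β (a + 1) m := by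
  rcases Nat.lt_or_ge a β with hβ | hβ
  · rw [psi_zero ha hβ]
    exact psi_nonneg β (a + 1) m h (by omega)
  · unfold psi
    refine Finset.prod_le_prod (fun i hi => ?_) fun i hi => ?_
    · rw [Finset.mem_Ico] at hi
      have h1 : (i : ℝ) ≤ a := by exact_mod_cast (by omega : i ≤ a)
      have h2 : (a : ℝ) ≤ m := by exact_mod_cast h.le
      exact div_nonneg (by linarith) (by linarith)
    · rw [Finset.mem_Ico] at hi
      have h1 : (i : ℝ) + 1 ≤ a := by exact_mod_cast (by omega : i + 1 ≤ a)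
      have h2 : (a : ℝ) + 1 ≤ m := by exact_mod_cast h
      push_cast
      exact div_le_div_of_nonneg_right (by linarith) (by linarith)

end Pool.ADM
end

section

/-! job ADM-23b: probabilities of full states, basics and `β = 1, 2`. -/

set_option autoImplicit false

namespace Pool.ADM

open Finset

private theorem m23b_gna_two (H : S3 → ℝ) (i q : ℕ) (hi : 1 ≤ i) (hq : 1 ≤ q) :
    gna H [(i, i, 0), (q, q, 0)] = (i : ℝ) * H [(i + 1, i + 1, 0), (q, q, 0)] +
      (q : ℝ) * (if q = i then H [(i + 1, 2 * i + 1, 0)] else H [(i, i, 0), (q + 1, q + 1, 0)]) := by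
  have hi0 : i ≠ 0 := by omega
  have hq0 : q ≠ 0 := by omega
  by_cases h : q = i
  · subst h
    have e : 2 * q + 1 = q + (q + 1) := by omega
    rw [if_pos rfl, e]
    simp [gna, suc, wsum, glue3, hi0]
  · simp [gna, suc, wsum, glue3, hi0, hq0, h]

private theorem m23b_gna_one (H : S3 → ℝ) (l s : ℕ) (hl : 1 ≤ l) :
    gna H [(l, s, 0)] = (s : ℝ) * H [(l + 1, s + 1, 0)] := by
  have hl0 : l ≠ 0 := by omega
  simp [gna, suc, wsum, glue3, hl0]

private theorem m23b_it (H : S3 → ℝ) (k : ℕ) (σ : S3) :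
    (gna^[k + 1] H) σ = gna (gna^[k] H) σ := by
  rw [Function.iterate_succ_apply']

/-- single packets -/
private theorem m23b_single (G : S3 → ℝ) (D : ℕ) (c1 : ℕ → ℝ)
    (hG1 : ∀ l s, G [(l, s, 0)] = if l = D then c1 s else 0) (k : ℕ) :
    ∀ l s : ℕ, 1 ≤ l → (gna^[k] G) [(l, s, 0)] =
      if l + k = D then (s.ascFactorial k : ℝ) * c1 (s + k) else 0 := by
  induction k with
  | zero =>
    intro l s hl
    simp [hG1]
  | succ k ih =>
    intro l s hl
    rw [m23b_it, m23b_gna_one _ _ _ hl, ih (l + 1) (s + 1) (by omega)]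
    by_cases h : l + (k + 1) = D
    · rw [if_pos (by omega), if_pos h]
      have h1 : (s : ℝ) * ((s + 1).ascFactorial k : ℝ) = (s.ascFactorial (k + 1) : ℝ) := by
        have h2 : s * (s + 1).ascFactorial k = s.ascFactorial (k + 1) := by
          rw [Nat.succ_ascFactorial, Nat.ascFactorial_succ]
        exact_mod_cast h2
      rw [← mul_assoc, h1, show s + 1 + k = s + (k + 1) by omega]
    · rw [if_neg (by omega), if_neg h, mul_zero]

/-- states which cannot become full with `D + e` letters -/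
private theorem m23b_zero (G : S3 → ℝ) (D e : ℕ) (c1 : ℕ → ℝ) (c2 : ℝ)
    (hG1 : ∀ l s, G [(l, s, 0)] = if l = D then c1 s else 0)
    (hG2 : ∀ i q : ℕ, G [(i, i, 0), (q, q, 0)] = if i = D ∧ q = D then c2 else 0) (k : ℕ) :
    ∀ i q : ℕ, 1 ≤ q → q ≤ i → i + q + k = D + e → (e < i ∨ D < e) →
      (gna^[k] G) [(i, i, 0), (q, q, 0)] = 0 := by
  induction k with
  | zero =>
    intro i q hq hqi hk he
    rw [Function.iterate_zero, id_eq, hG2, if_neg]
    rintro ⟨h1, h2⟩
    omega
  | succ k ih =>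
    intro i q hq hqi hk he
    rw [m23b_it, m23b_gna_two _ _ _ (by omega) hq,
      ih (i + 1) q hq (by omega) (by omega) (by omega)]
    by_cases h : q = i
    · rw [if_pos h, m23b_single G D c1 hG1 k (i + 1) (2 * i + 1) (by omega), if_neg (by omega)]
      simp
    · rw [if_neg h, ih i (q + 1) (by omega) (by omega) (by omega) he]
      simp

/-- the ballot numbers -/
private theorem m23b_main (G : S3 → ℝ) (D e : ℕ) (hDe : e ≤ D) (c1 : ℕ → ℝ) (c2 : ℝ)
    (hG1 : ∀ l s, G [(l, s, 0)] = if l = D then c1 s else 0)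
    (hG2 : ∀ i q : ℕ, G [(i, i, 0), (q, q, 0)] = if i = D ∧ q = D then c2 else 0) (m : ℕ) :
    ∀ A B i q : ℕ, i + 1 + A = e → q + 1 + B = e → A ≤ B → A + B = m →
      (gna^[D - e + m] G) [(i + 1, i + 1, 0), (q + 1, q + 1, 0)] =
        (gna^[D - e] G) [(e, e, 0), (e, e, 0)] *
          (((e - 1).factorial : ℝ) / (i.factorial : ℝ)) *
          (((e - 1).factorial : ℝ) / (q.factorial : ℝ)) *
          (((B : ℝ) - A + 1) * (m.factorial : ℝ) /
            ((A.factorial : ℝ) * ((B + 1).factorial : ℝ))) := by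
  induction m with
  | zero =>
    intro A B i q hi hq hAB hm
    obtain rfl : A = 0 := by omega
    obtain rfl : B = 0 := by omega
    obtain rfl : i = e - 1 := by omega
    obtain rfl : q = e - 1 := by omega
    have h1 : e - 1 + 1 = e := by omega
    have h2 : (((e - 1).factorial : ℝ)) ≠ 0 := by positivity
    rw [h1, add_zero, div_self h2]
    simp
  | succ m ih =>
    intro A B i q hi hq hAB hm
    have hf1 : ((i + 1).factorial : ℝ) = ((i : ℝ) + 1) * (i.factorial : ℝ) := by
      rw [Nat.factorial_succ]; push_cast; ring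
    have hf2 : ((q + 1).factorial : ℝ) = ((q : ℝ) + 1) * (q.factorial : ℝ) := by
      rw [Nat.factorial_succ]; push_cast; ring
    have hf3 : ((m + 1).factorial : ℝ) = ((m : ℝ) + 1) * (m.factorial : ℝ) := by
      rw [Nat.factorial_succ]; push_cast; ring
    have hi0 : (i.factorial : ℝ) ≠ 0 := by positivity
    have hq0 : (q.factorial : ℝ) ≠ 0 := by positivity
    have hm0 : (m.factorial : ℝ) ≠ 0 := by positivity
    have hi1 : (i : ℝ) + 1 ≠ 0 := by positivity
    have hq1 : (q : ℝ) + 1 ≠ 0 := by positivity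
    rw [← add_assoc (D - e) m 1, m23b_it, m23b_gna_two _ _ _ (by omega) (by omega)]
    set X := (gna^[D - e] G) [(e, e, 0), (e, e, 0)] with hX
    set E := ((e - 1).factorial : ℝ) with hE
    rcases Nat.eq_zero_or_pos A with hA | hA
    · -- `A = 0`
      subst hA
      have hz := m23b_zero G D e c1 c2 hG1 hG2 (D - e + m) (i + 1 + 1) (q + 1) (by omega)
        (by omega) (by omega) (by omega)
      rw [hz, if_neg (by omega), ih 0 (B - 1) i (q + 1) hi (by omega) (by omega) (by omega), hf2,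
        show B - 1 + 1 = B by omega]
      obtain rfl : B = m + 1 := by omega
      have hf4 : ((m + 1 + 1).factorial : ℝ) = ((m : ℝ) + 2) * ((m + 1).factorial : ℝ) := by
        rw [Nat.factorial_succ (m + 1)]; push_cast; ring
      rw [hf4, hf3]
      have hm1 : (m : ℝ) + 1 ≠ 0 := by positivity
      have hm2 : (m : ℝ) + 2 ≠ 0 := by positivity
      simp only [Nat.add_sub_cancel]
      push_cast
      field_simp
      ring
    · obtain ⟨A', rfl⟩ : ∃ A', A = A' + 1 := ⟨A - 1, by omega⟩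
      have hA0 : (A'.factorial : ℝ) ≠ 0 := by positivity
      have hA1 : (A' : ℝ) + 1 ≠ 0 := by positivity
      have hfA : ((A' + 1).factorial : ℝ) = ((A' : ℝ) + 1) * (A'.factorial : ℝ) := by
        rw [Nat.factorial_succ]; push_cast; ring
      rw [ih A' B (i + 1) q (by omega) hq (by omega) (by omega), hf1]
      by_cases hb : B = A' + 1
      · subst hb
        obtain rfl : i = q := by omega
        rw [if_pos rfl, m23b_single G D c1 hG1 _ _ _ (by omega), if_neg (by omega)]
        obtain rfl : m = 2 * A' + 1 := by omega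
        have hf5 : ((A' + 1 + 1).factorial : ℝ) = ((A' : ℝ) + 2) * ((A' + 1).factorial : ℝ) := by
          rw [Nat.factorial_succ (A' + 1)]; push_cast; ring
        rw [hf5, hfA, hf3]
        have hA2 : (A' : ℝ) + 2 ≠ 0 := by positivity
        push_cast
        field_simp
        ring
      · obtain ⟨B', rfl⟩ : ∃ B', B = B' + 1 := ⟨B - 1, by omega⟩
        rw [if_neg (by omega), ih (A' + 1) B' i (q + 1) hi (by omega) (by omega) (by omega), hf2]
        obtain rfl : m = A' + B' + 1 := by omega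
        have hB0 : ((B' + 1).factorial : ℝ) ≠ 0 := by positivity
        have hB2 : (B' : ℝ) + 2 ≠ 0 := by positivity
        have hf5 : ((B' + 1 + 1).factorial : ℝ) = ((B' : ℝ) + 2) * ((B' + 1).factorial : ℝ) := by
          rw [Nat.factorial_succ (B' + 1)]; push_cast; ring
        rw [hf5, hfA, hf3]
        push_cast
        field_simp
        ring

/-- the value at the start -/
private theorem m23b_start (G : S3 → ℝ) (D e : ℕ) (hD : 1 ≤ D) (he : 1 ≤ e) (c1 : ℕ → ℝ) (c2 : ℝ)
    (hG1 : ∀ l s, G [(l, s, 0)] = if l = D then c1 s else 0)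
    (hG2 : ∀ i q : ℕ, G [(i, i, 0), (q, q, 0)] = if i = D ∧ q = D then c2 else 0) :
    (gna^[D + e - 2] G) [(1, 1, 0), (1, 1, 0)] =
      if D < e then 0 else if D = e then c2 * (((2 * e - 2).factorial : ℝ) / e) else
        c1 (D + e) * (((D + e - 1).factorial : ℝ) / (2 * e * (2 * e - 1))) := by
  by_cases h1 : D < e
  · rw [if_pos h1, m23b_zero G D e c1 c2 hG1 hG2 (D + e - 2) 1 1 le_rfl le_rfl (by omega)
      (Or.inr h1)]
  rw [if_neg h1]
  have hm := m23b_main G D e (by omega) c1 c2 hG1 hG2 (2 * e - 2) (e - 1) (e - 1) 0 0 (by omega)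
    (by omega) le_rfl (by omega)
  rw [show D - e + (2 * e - 2) = D + e - 2 by omega] at hm
  have hm' : (gna^[D + e - 2] G) [(1, 1, 0), (1, 1, 0)] =
      (gna^[D - e] G) [(e, e, 0), (e, e, 0)] * (((2 * e - 2).factorial : ℝ) / e) := by
    refine hm.trans ?_
    obtain ⟨f, rfl⟩ : ∃ f, e = f + 1 := ⟨e - 1, by omega⟩
    have hf : ((f + 1).factorial : ℝ) = ((f : ℝ) + 1) * (f.factorial : ℝ) := by
      rw [Nat.factorial_succ]; push_cast; ring
    have hf0 : (f.factorial : ℝ) ≠ 0 := by positivity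
    have hf1 : (f : ℝ) + 1 ≠ 0 := by positivity
    simp only [Nat.add_sub_cancel, Nat.factorial_zero, hf]
    push_cast
    field_simp
    ring
  rw [hm']
  by_cases h2 : D = e
  · subst h2
    rw [if_pos rfl, Nat.sub_self, Function.iterate_zero, id_eq, hG2, if_pos ⟨rfl, rfl⟩]
  · rw [if_neg h2]
    obtain ⟨r, hr⟩ : ∃ r, D - e = r + 1 := ⟨D - e - 1, by omega⟩
    have hDr : D = e + r + 1 := by omega
    rw [hr, m23b_it, m23b_gna_two _ _ _ he he, if_pos rfl,
      m23b_zero G D e c1 c2 hG1 hG2 r (e + 1) e he (by omega) (by omega) (Or.inl (by omega)),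
      m23b_single G D c1 hG1 r (e + 1) (2 * e + 1) (by omega), if_pos (by omega),
      show 2 * e + 1 + r = D + e by omega]
    have h3 : ((2 * e).factorial : ℝ) * ((2 * e + 1).ascFactorial r : ℝ) =
        ((D + e - 1).factorial : ℝ) := by
      have := Nat.factorial_mul_ascFactorial (2 * e) r
      rw [show 2 * e + r = D + e - 1 by omega] at this
      exact_mod_cast this
    have h4 : ((2 * e).factorial : ℝ) = 2 * e * (2 * e - 1) * ((2 * e - 2).factorial : ℝ) := by
      obtain ⟨f, rfl⟩ : ∃ f, e = f + 1 := ⟨e - 1, by omega⟩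
      rw [show 2 * (f + 1) = 2 * f + 1 + 1 by ring, Nat.factorial_succ, Nat.factorial_succ,
        show 2 * f + 1 + 1 - 2 = 2 * f by omega]
      push_cast
      ring
    have h5 : ((2 * e - 2).factorial : ℝ) ≠ 0 := by positivity
    have h6 : (e : ℝ) ≠ 0 := by positivity
    have h7 : (2 * (e : ℝ) - 1) ≠ 0 := by
      have : (1 : ℝ) ≤ e := by exact_mod_cast he
      linarith
    have h8 : 2 * (e : ℝ) * (2 * e - 1) ≠ 0 := mul_ne_zero (by positivity) h7
    rw [← h3, h4, mul_assoc (2 * (e : ℝ) * (2 * e - 1)), mul_div_cancel_left₀ _ h8]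
    field_simp
    ring

private theorem m23b_Qn (k : ℕ) (G : S3 → ℝ) :
    Qn 2 k G = (gna^[k] G) [(1, 1, 0), (1, 1, 0)] := by
  simp [Qn, PS, hd, suc, wsum]

private theorem m23b_AL1 (D l s : ℕ) : AL D [(l, s, 0)] ↔ l = D := by
  simp [AL]

private theorem m23b_AL2 (D i q : ℕ) : AL D [(i, i, 0), (q, q, 0)] ↔ i = D ∧ q = D := by
  simp [AL]

/-- `β = 2`: start from two packets `(1,1), (1,1)`, no more appends.  Full on level `D` with `D + e`
letters: the first packet has been hit `i` times before it is absorbed … (see the paper). -/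
theorem q1_two (D e : ℕ) (hD : 1 ≤ D) (he : 1 ≤ e) : q1 2 (D + e) D ≤ P2 D e := by
  have h := m23b_start (fun σ => if AL D σ then (1 : ℝ) else 0) D e hD he (fun _ => 1) 1
    (fun l s => by simp [m23b_AL1]) (fun i q => by simp [m23b_AL2])
  have h6 : (e : ℝ) ≠ 0 := by positivity
  have h7 : (2 * (e : ℝ) - 1) ≠ 0 := by
    have : (1 : ℝ) ≤ e := by exact_mod_cast he
    linarith
  unfold q1 P2
  rw [if_neg (by omega), m23b_Qn, h]
  rcases lt_trichotomy D e with h1 | h1 | h1
  · rw [if_pos h1, if_neg (by omega), if_neg (by omega), zero_div]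
  · subst h1
    rw [if_neg (by omega), if_pos rfl, if_neg (by omega), if_pos rfl, one_mul]
    have h8 : ((D + D - 1).factorial : ℝ) = (2 * D - 1) * ((2 * D - 2).factorial : ℝ) := by
      obtain ⟨f, rfl⟩ : ∃ f, D = f + 1 := ⟨D - 1, by omega⟩
      rw [show f + 1 + (f + 1) - 1 = 2 * f + 1 by omega, Nat.factorial_succ,
        show 2 * (f + 1) - 2 = 2 * f by omega]
      push_cast
      ring
    have h9 : ((2 * D - 2).factorial : ℝ) ≠ 0 := by positivity
    rw [h8]
    refine le_of_eq ?_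
    field_simp
  · rw [if_neg (by omega), if_neg (by omega), if_pos (by omega), one_mul]
    have h9 : ((D + e - 1).factorial : ℝ) ≠ 0 := by positivity
    refine le_of_eq ?_
    field_simp

theorem q2_two (D e : ℕ) (hD : 1 ≤ D) (he : 1 ≤ e) : q2 2 (D + e) D ≤ P2s D e := by
  have h := m23b_start (fun σ => if AL D σ then (lsz σ : ℝ) else 0) D e hD he (fun s => (s : ℝ)) D
    (fun l s => by simp [m23b_AL1, lsz]) (fun i q => by
      by_cases h : i = D ∧ q = D
      · rw [if_pos ((m23b_AL2 D i q).2 h), if_pos h]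
        simp [lsz, h.2]
      · rw [if_neg (fun h' => h ((m23b_AL2 D i q).1 h')), if_neg h])
  have h6 : (e : ℝ) ≠ 0 := by positivity
  have h7 : (2 * (e : ℝ) - 1) ≠ 0 := by
    have : (1 : ℝ) ≤ e := by exact_mod_cast he
    linarith
  unfold q2 P2s
  rw [if_neg (by omega), m23b_Qn, h]
  rcases lt_trichotomy D e with h1 | h1 | h1
  · rw [if_pos h1, if_neg (by omega), zero_div]
  · subst h1
    rw [if_neg (by omega), if_pos rfl, if_pos le_rfl]
    have h8 : ((D + D).factorial : ℝ) = 2 * D * (2 * D - 1) * ((2 * D - 2).factorial : ℝ) := by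
      obtain ⟨f, rfl⟩ : ∃ f, D = f + 1 := ⟨D - 1, by omega⟩
      rw [show f + 1 + (f + 1) = 2 * f + 1 + 1 by omega, Nat.factorial_succ, Nat.factorial_succ,
        show 2 * (f + 1) - 2 = 2 * f by omega]
      push_cast
      ring
    have h9 : ((2 * D - 2).factorial : ℝ) ≠ 0 := by positivity
    rw [h8]
    refine le_of_eq ?_
    field_simp
  · rw [if_neg (by omega), if_neg (by omega), if_pos (by omega)]
    have h8 : ((D + e).factorial : ℝ) = ((D + e : ℕ) : ℝ) * ((D + e - 1).factorial : ℝ) := by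
      have := Nat.mul_factorial_pred (show D + e ≠ 0 by omega)
      exact_mod_cast this.symm
    have h9 : ((D + e - 1).factorial : ℝ) ≠ 0 := by positivity
    have h10 : ((D + e : ℕ) : ℝ) ≠ 0 := by positivity
    rw [h8]
    refine le_of_eq ?_
    field_simp

end Pool.ADM
end

section

end

section

/-! job ADM-20: ties carried over to near ties. -/

set_option autoImplicit false

namespace Pool.ADM

open Finset

private theorem M20_cls_nonneg (D D' a b x : ℕ) (g : S3 → S3 → S3 → ℝ)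
    (hg : ∀ F B O, 0 ≤ g F B O) (σ : S3) : 0 ≤ cls D D' a b x g σ := by
  unfold cls
  refine cutS_nonneg _ _ fun F V _ => ?_
  refine cutS_nonneg _ _ fun B O _ => ?_
  split_ifs
  · exact hg F B O
  · exact le_rfl

theorem Xm_nonneg (D a b x : ℕ) : 0 ≤ Xm D a b x := by
  unfold Xm
  refine EM_nonneg _ _ fun σ _ => ?_
  exact M20_cls_nonneg _ _ _ _ _ _ (fun F B O => by positivity) σ

theorem Vm_nonneg (D a b x : ℕ) : 0 ≤ Vm D a b x := by
  unfold Vm
  refine EM_nonneg _ _ fun σ _ => ?_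
  exact M20_cls_nonneg _ _ _ _ _ _ (fun F B O => by positivity) σ

private theorem M20_lsz_zp (σ : S3) : lsz (zp σ) = lsz σ := by
  unfold lsz zp
  induction σ using List.reverseRecOn with
  | nil => rfl
  | append_singleton l a _ => simp

private theorem M20_list_le (l : List (List ℕ)) (f g : List ℕ → ℕ) (A B : ℕ)
    (h : ∀ ls ∈ l, A * f ls ≤ B * g ls) : A * (l.map f).sum ≤ B * (l.map g).sum := by
  induction l with
  | nil => simp
  | cons t l ih =>
    rw [List.map_cons, List.map_cons, List.sum_cons, List.sum_cons, mul_add, mul_add]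
    exact add_le_add (h t (List.mem_cons_self)) (ih fun ls hls => h ls (List.mem_cons_of_mem _ hls))

private theorem M20_sum_comm (l m : List (List ℕ)) (f : List ℕ → List ℕ → ℕ) :
    (l.map fun ts => (m.map fun ls => f ls ts).sum).sum =
      (m.map fun ls => (l.map fun ts => f ls ts).sum).sum := by
  induction l with
  | nil => simp
  | cons t l ih =>
    simp only [List.map_cons, List.sum_cons, ih]
    rw [← List.sum_map_add]

/-- the word counts for a pair of histories -/
private theorem M20_sumK3 (hs : List ℕ) (D b x : ℕ) (pB pO : Pth) (hB : VP 1 b pB)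
    (hO : VP 1 x pO) :
    ((VW pB pO).map (K3 hs D)).sum = ((XP hs D).map fun ls => Jc ls pB pO).sum := by
  have h1 : (VW pB pO).map (K3 hs D) =
      (VW pB pO).map fun ts => ((XP hs D).map fun ls => N2l ls ts).sum := by
    refine List.map_congr_left fun ts h => ?_
    exact K3_XP hs D ts fun t ht => ((VW_mem (c := 1) le_rfl hB hO ts h).2 t ht).1
  rw [h1, M20_sum_comm]
  rfl

private theorem M20_words (hs : List ℕ) (D a b x : ℕ) (pB pO : Pth) (hB : VP 1 b pB)
    (hO : VP 1 x pO) (hD : 1 ≤ D) (hb : 1 ≤ b) (ha : a = hs.length + D) (hh : ∀ h ∈ hs, h < D)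
    (htop : top3 (hd pB) = D) :
    (2 * a + b + 1) * (a + b + x + 1) * ((VW pB pO).map (K3 hs D)).sum ≤
      (a + 1) * (a + b + 1) * ((VW pB pO).map (K3 hs (D + 1))).sum := by
  rw [M20_sumK3 hs D b x pB pO hB hO, M20_sumK3 hs (D + 1) b x pB pO hB hO]
  have e2 := XP_last hs (D + 1) (by omega) (fun h hm => by have := hh h hm; omega)
  rw [Nat.add_sub_cancel] at e2
  rw [e2, XP_last hs D hD hh]
  simp only [List.map_map]
  refine M20_list_le _ _ _ _ _ fun ls hls => ?_
  obtain ⟨m1, m2, m3⟩ := XP_mem hs (D - 1) ls hls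
  have hlen : ls.length + 1 = a := by omega
  have hJ := Jc_carry D (D + 1) b x ls pB pO (by omega) hb m2
    (fun l hl => by have := m3 l hl; omega) hB hO htop
  rw [hlen] at hJ
  have e3 : ls.length + 2 = a + 1 := by omega
  rw [e3] at hJ
  exact hJ

private theorem M20_top_AL (D : ℕ) (σ : S3) (h : AL D σ) : top3 σ = D := by
  obtain ⟨h1, h2⟩ := h
  cases σ with
  | nil => exact absurd rfl h1
  | cons F τ => exact h2 F List.mem_cons_self

/-- `mass_cls` for both sides: `Xm D a b x` has the `F`-weight `WtD σ D * (D + below D σ)`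
(`σ = hd χ`, `top3 σ ≤ D`; `join_last`), `Vm (D+1) (a+1) b x` the weight `WtD σ (D+1)`, equal by
`WtD_succ` (drop the histories with `top3 σ = D + 1`).  Word counts: `K3_XP`, the sum over `VW`
is `∑ Jc`; all hit levels of `χ` are below `top3 σ ≤ D` (`VP.tps`), so `XP_last` applies for `D` and
`D + 1`; `Jc_carry`.  The class is empty if `b < 1`. -/
theorem Vm_carry (D a b x : ℕ) (hD : 1 ≤ D) (ha : D ≤ a) (hb : 1 ≤ b) :
    rho a b * Xm D a b x ≤ Vm (D + 1) (a + 1) b x := by
  classical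
  have hX := mass_cls D D a b x hD hD ha hb (fun σ => (lsz σ : ℝ)) (fun B _ => (lsz B : ℝ))
  have hV := mass_cls (D + 1) D (a + 1) b x (by omega) hD (by omega) hb (fun _ => (1 : ℝ))
    (fun B _ => (lsz B : ℝ) * ((b : ℝ) + 1))
  have e1 : a + 1 - (D + 1) = a - D := by omega
  rw [e1] at hV
  unfold Xm Vm EM
  have hX' : PS 1 (a + b + x) (fun p => cls D D a b x (fun F B _ => (lsz F : ℝ) * (lsz B : ℝ)) (hd p)) =
      PS 1 (a + b + x) (fun p => cls D D a b x
        (fun F B O => (fun σ => (lsz σ : ℝ)) (zp F) * (fun B _ => (lsz B : ℝ)) B O) (hd p)) := by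
    simp only [M20_lsz_zp]
  have hV' : PS 1 (a + 1 + b + x) (fun p => cls (D + 1) (D + 1 - 1) (a + 1) b x
        (fun _ B _ => (lsz B : ℝ) * ((b : ℝ) + 1)) (hd p)) =
      PS 1 (a + 1 + b + x) (fun p => cls (D + 1) D (a + 1) b x
        (fun F B O => (fun _ => (1 : ℝ)) (zp F) * (fun B _ => (lsz B : ℝ) * ((b : ℝ) + 1)) B O)
        (hd p)) := by
    simp only [Nat.add_sub_cancel, one_mul]
  rw [hX', hV', hX, hV]
  have e2 : a + 1 + b + x = (a + b + x) + 1 := by ring
  rw [e2, Nat.factorial_succ]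
  set SX := PS 0 (a - D) fun χ => PS 1 b fun pB => PS 1 x fun pO =>
        (if top3 (hd χ) ≤ D then (WtD (hd χ) D : ℝ) * (fun σ => (lsz σ : ℝ)) (join (hd χ) D) else 0) *
        (if AL D (hd pB) then (fun B _ => (lsz B : ℝ)) (hd pB) (hd pO) else 0) *
        (((VW pB pO).map (K3 (hts χ) D)).sum : ℕ) with hSX
  set SV := PS 0 (a - D) fun χ => PS 1 b fun pB => PS 1 x fun pO =>
        (if top3 (hd χ) ≤ D + 1 then (WtD (hd χ) (D + 1) : ℝ) *
          (fun _ => (1 : ℝ)) (join (hd χ) (D + 1)) else 0) *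
        (if AL D (hd pB) then (fun B _ => (lsz B : ℝ) * ((b : ℝ) + 1)) (hd pB) (hd pO) else 0) *
        (((VW pB pO).map (K3 (hts χ) (D + 1))).sum : ℕ) with hSV
  have key : rho a b * ((a : ℝ) + b + x + 1) * SX ≤ SV := by
    rw [hSX, hSV, ← PS_mul]
    refine PS_mono _ _ _ _ fun χ hχ => ?_
    rw [← PS_mul]
    refine PS_mono _ _ _ _ fun pB hB => ?_
    rw [← PS_mul]
    refine PS_mono _ _ _ _ fun pO hO => ?_
    by_cases hAL : AL D (hd pB)
    swap
    · rw [if_neg hAL, if_neg hAL]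
      simp
    rw [if_pos hAL, if_pos hAL]
    by_cases ht : top3 (hd χ) ≤ D
    swap
    · rw [if_neg ht]
      simp only [zero_mul, mul_zero]
      split_ifs <;> positivity
    rw [if_pos ht, if_pos (by omega : top3 (hd χ) ≤ D + 1)]
    have hlast := (join_last (hd χ) D).2
    have hW := WtD_succ (hd χ) D hD
    have hw := M20_words (hts χ) D a b x pB pO hB hO hD hb
      (by
        have h1 := hχ.length
        have h2 : (hts χ).length = χ.length := by simp [hts]
        omega)
      (fun h hm => by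
        have := (hχ.tps (by norm_num)).2.2 h hm
        omega) (M20_top_AL D _ hAL)
    have hw' : ((2 * (a : ℝ) + b + 1) * (a + b + x + 1)) *
          (((VW pB pO).map (K3 (hts χ) D)).sum : ℕ) ≤
        ((a + 1) * (a + b + 1)) * (((VW pB pO).map (K3 (hts χ) (D + 1))).sum : ℕ) := by
      exact_mod_cast hw
    simp only
    rw [hlast, hW]
    have hpos : (0 : ℝ) < ((a : ℝ) + 1) * (a + b + 1) := by positivity
    unfold rho
    generalize ((VW pB pO).map (K3 (hts χ) D)).sum = k1 at hw' ⊢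
    generalize ((VW pB pO).map (K3 (hts χ) (D + 1))).sum = k2 at hw' ⊢
    have h3 : ((2 * (a : ℝ) + b + 1) * (a + b + x + 1)) / (((a : ℝ) + 1) * (a + b + 1)) * k1 ≤ k2 := by
      rw [div_mul_eq_mul_div, div_le_iff₀ hpos]
      linarith
    have h4 : (0 : ℝ) ≤ ((WtD (hd χ) D : ℕ) : ℝ) * ((D + below D (hd χ) : ℕ) : ℝ) * (lsz (hd pB) : ℝ) *
        ((b : ℝ) + 1) := by positivity
    have h5 := mul_le_mul_of_nonneg_left h3 h4
    refine le_trans (le_of_eq ?_) (h5.trans (le_of_eq ?_))
    · ring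
    · push_cast
      ring
  have hf : (0 : ℝ) < ((a + b + x).factorial : ℝ) := by exact_mod_cast Nat.factorial_pos _
  have hm : (0 : ℝ) < (a : ℝ) + b + x + 1 := by positivity
  rw [le_div_iff₀ (by positivity)]
  push_cast
  refine le_trans (le_of_eq ?_) key
  field_simp

private theorem M20_sz_append (σ τ : S3) : sz (σ ++ τ) = sz σ + sz τ := by
  unfold sz
  rw [List.map_append, List.sum_append]

private theorem M20_AL_le (D n : ℕ) (σ A : S3) (hσ : Vs 1 n σ) (h : ∀ q ∈ A, q ∈ σ)
    (hA : AL D A) : D ≤ sz A := by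
  obtain ⟨h1, h2⟩ := hA
  cases A with
  | nil => exact absurd rfl h1
  | cons F τ =>
    have e := h2 F List.mem_cons_self
    have p := hσ.pos F (h F List.mem_cons_self)
    unfold sz
    rw [List.map_cons, List.sum_cons]
    omega

private theorem M20_cutS_zero (σ : S3) (G : S3 → S3 → ℝ) (h : ∀ B O, B ++ O = σ → G B O = 0) :
    cutS σ G = 0 := by
  rw [cutS_congr σ G (fun _ _ => (0 : ℝ)) h]
  have h := cutS_mul σ 0 (fun _ _ => (0 : ℝ))
  simpa using h

/-- classes are empty if `a < D` or `b < D` (levels are at most the sizes). -/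
theorem Xm_zero (D a b x : ℕ) (h : a < D ∨ b < D) (hD : 1 ≤ D) : Xm D a b x = 0 := by
  unfold Xm
  rw [EM_congr _ _ (fun _ => (0 : ℝ)) fun σ hσ => ?_]
  · exact EM_const _ 0
  unfold cls
  refine M20_cutS_zero _ _ fun F V hFV => ?_
  refine M20_cutS_zero _ _ fun B O hBO => ?_
  rw [if_neg]
  rintro ⟨hF, hFa, hB, hBb, -⟩
  have k1 := M20_AL_le D _ σ F hσ (fun q hq => by rw [← hFV]; exact List.mem_append_left _ hq) hF
  have k2 := M20_AL_le D _ σ B hσ (fun q hq => by
    rw [← hFV, ← hBO]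
    exact List.mem_append_right _ (List.mem_append_left _ hq)) hB
  omega

end Pool.ADM
end
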