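import Pool.Agent.Lib.MP_ad84ff_coM.M14c
import Pool.Agent.Lib.MP_ad84ff_coM.M01

section

/-! job ADM-25b: the level of the top is at least the size of every tree.

Every append starts a tree; a letter which hits a letter belongs to the tree of that letter.  All
the letters of a tree are in the same packet, whose level is at least the size of the tree.  With
last append `β ≥ 2` (no append later) and `a` letters, the size of the first tree is uniform on
`1, …, a-1`, and given this size the other trees are distributed as a mixture (over `β' ≥ 1`) of the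
same model with `a - i` letters:
`(a-2)! = ∑_{β'} C(β-2, β'-1) C(a-β, a-i-β') (i-1)! (a-i-1)!`.
Therefore `P(all trees ≤ D) ≤ Rd D a`. -/

set_option autoImplicit false

namespace Pool.ADM

open Finset

/-- generator of the chain of the sizes of the trees (in the order of the roots); `e` is the weight
of an append. -/
private noncomputable def m25b_G (e : ℝ) : (List ℕ → ℝ) → List ℕ → ℝ
  | f, [] => e * f [1]
  | f, x :: t => (x : ℝ) * f ((x + 1) :: t) + m25b_G e (fun t' => f (x :: t')) t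

private theorem m25b_G_nil (e : ℝ) (f : List ℕ → ℝ) : m25b_G e f [] = e * f [1] := by
  rw [m25b_G]

private theorem m25b_G_cons (e : ℝ) (f : List ℕ → ℝ) (x : ℕ) (t : List ℕ) :
    m25b_G e f (x :: t) = (x : ℝ) * f ((x + 1) :: t) + m25b_G e (fun t' => f (x :: t')) t := by
  rw [m25b_G]

/-- the trees of the packets: consecutive blocks -/
private inductive m25b_R : S3 → List ℕ → Prop
  | nil : m25b_R [] []
  | cons {F : ℕ × ℕ × ℕ} {σ : S3} {t1 t2 : List ℕ} (h1 : F.2.1 = t1.sum) (h2 : F.2.2 = 0)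
      (h3 : ∀ x ∈ t1, x ≤ F.1) (h4 : 1 ≤ F.1) (h5 : m25b_R σ t2) : m25b_R (F :: σ) (t1 ++ t2)

private theorem m25b_R_one : m25b_R [(1, 1, 0)] [1] := by
  have h : m25b_R ((1, 1, 0) :: []) ([1] ++ []) :=
    m25b_R.cons (by simp) rfl (by simp) le_rfl m25b_R.nil
  simpa using h

private theorem m25b_R_append {σ σ' : S3} {t t' : List ℕ} (h : m25b_R σ t) (h' : m25b_R σ' t') :
    m25b_R (σ ++ σ') (t ++ t') := by
  induction h with
  | nil => simpa using h'
  | @cons F σ t1 t2 h1 h2 h3 h4 h5 ih =>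
    rw [List.cons_append, List.append_assoc]
    exact m25b_R.cons h1 h2 h3 h4 ih

private theorem m25b_R_glue (F : ℕ × ℕ × ℕ) {σ : S3} {t1 t2 : List ℕ} (h1 : F.2.1 = t1.sum)
    (h2 : F.2.2 = 0) (h3 : ∀ x ∈ t1, x ≤ F.1) (h4 : 1 ≤ F.1) (h5 : m25b_R σ t2) :
    m25b_R (glue3 F σ) (t1 ++ t2) := by
  cases h5 with
  | nil => exact m25b_R.cons h1 h2 h3 h4 m25b_R.nil
  | @cons G σ s1 s2 g1 g2 g3 g4 g5 =>
    rw [glue3]
    split_ifs with hc
    · rw [← List.append_assoc]
      refine m25b_R.cons ?_ ?_ ?_ g4 g5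
      · simp only [List.sum_append]; omega
      · simp only; omega
      · intro x hx
        rcases List.mem_append.1 hx with hx | hx
        · have := h3 x hx
          simp only; omega
        · exact g3 x hx
    · exact m25b_R.cons h1 h2 h3 h4 (m25b_R.cons g1 g2 g3 g4 g5)

private theorem m25b_app (e c : ℝ) (t1 t2 : List ℕ) : ∀ (f : List ℕ → ℝ),
    (∀ (l : List ℕ) (x : ℕ) (r : List ℕ), t1 = l ++ x :: r → c ≤ f (l ++ (x + 1) :: r ++ t2)) →
    (t1.sum : ℝ) * c + m25b_G e (fun t' => f (t1 ++ t')) t2 ≤ m25b_G e f (t1 ++ t2) := by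
  induction t1 with
  | nil => intro f _; simp
  | cons y s ih =>
    intro f h
    rw [List.cons_append, m25b_G_cons]
    have h1 := h [] y s rfl
    have h2 := ih (fun t' => f (y :: t')) (fun l x r hl => h (y :: l) x r (by rw [hl]; rfl))
    simp only [List.nil_append, List.cons_append] at h1
    have h3 : (y : ℝ) * c ≤ (y : ℝ) * f ((y + 1) :: (s ++ t2)) :=
      mul_le_mul_of_nonneg_left h1 (Nat.cast_nonneg y)
    simp only [List.sum_cons, Nat.cast_add, List.cons_append]
    linarith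

private theorem m25b_step (e : ℝ) (he : 0 ≤ e) {σ : S3} {t : List ℕ} (hR : m25b_R σ t) :
    ∀ (G : S3 → ℝ) (f : List ℕ → ℝ), (∀ σ' t', m25b_R σ' t' → G σ' ≤ f t') →
      wsum (suc 0 σ) (fun h ρ => if h = 0 then e * G ρ else G ρ) ≤ m25b_G e f t := by
  induction hR with
  | nil =>
    intro G f h
    have h1 := h _ _ m25b_R_one
    rw [m25b_G_nil]
    simp only [suc, wsum, List.map_cons, List.map_nil, List.sum_cons, List.sum_nil, if_true,
      Nat.cast_one, one_mul, add_zero]
    exact mul_le_mul_of_nonneg_left h1 he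
  | @cons F σ t1 t2 h1 h2 h3 h4 h5 ih =>
    intro G f h
    rw [wsum_suc_cons]
    have h6 := ih (fun ρ => G (glue3 F ρ)) (fun t' => f (t1 ++ t'))
      (fun σ' t' hR' => h _ _ (m25b_R_glue F h1 h2 h3 h4 hR'))
    have h7 := m25b_app e (G ((F.1 + 1, F.2.1 + 1, F.2.2) :: σ)) t1 t2 f (by
      intro l x r hl
      refine h _ _ (m25b_R.cons ?_ h2 ?_ (by simp) h5)
      · have : (l ++ (x + 1) :: r).sum = (l ++ x :: r).sum + 1 := by
          simp only [List.sum_append, List.sum_cons]; omega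
        rw [this, ← hl, ← h1]
      · intro z hz
        rcases List.mem_append.1 hz with hz | hz
        · have := h3 z (by rw [hl]; exact List.mem_append.2 (Or.inl hz))
          simp only; omega
        · rcases List.mem_cons.1 hz with rfl | hz
          · have := h3 x (by rw [hl]; simp)
            simp only; omega
          · have := h3 z (by rw [hl]; simp [hz])
            simp only; omega)
    have h8 : F.1 ≠ 0 := by omega
    rw [if_neg h8, if_neg h8]
    have h9 : F.2.1 - F.2.2 = t1.sum := by omega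
    rw [h9, h2]
    rw [h2] at h7
    simp only [Nat.cast_zero, zero_mul, zero_add]
    exact le_trans (add_le_add le_rfl h6) h7

/-- one step with weight `e` for an append -/
private noncomputable def m25b_L (e : ℝ) (G : S3 → ℝ) (σ : S3) : ℝ :=
  wsum (suc 0 σ) (fun h ρ => if h = 0 then e * G ρ else G ρ)

private theorem m25b_iter (e : ℝ) (he : 0 ≤ e) (G : S3 → ℝ) (f : List ℕ → ℝ)
    (h : ∀ σ' t', m25b_R σ' t' → G σ' ≤ f t') (n : ℕ) :
    ∀ σ t, m25b_R σ t → ((m25b_L e)^[n] G) σ ≤ ((m25b_G e)^[n] f) t := by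
  induction n with
  | zero => simpa using h
  | succ n ih =>
    intro σ t hR
    rw [Function.iterate_succ_apply', Function.iterate_succ_apply']
    exact m25b_step e he hR _ _ ih

private theorem m25b_gna : gna = m25b_L 0 := by
  funext G σ
  unfold gna m25b_L
  simp

private theorem m25b_PS (n : ℕ) : ∀ Φ : S3 → ℝ,
    PS 0 n (fun p => Φ (hd p)) = ((m25b_L 1)^[n] Φ) [] := by
  induction n with
  | zero => intro Φ; rfl
  | succ n ih =>
    intro Φ
    rw [Function.iterate_succ_apply, ← ih, PS_succ]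
    congr 1
    funext p
    unfold m25b_L
    simp [hd]

private noncomputable def m25b_ind (D : ℕ) (t : List ℕ) : ℝ := if ∀ x ∈ t, x ≤ D then 1 else 0

private theorem m25b_ind_cons (D x : ℕ) (t : List ℕ) :
    m25b_ind D (x :: t) = (if x ≤ D then 1 else 0) * m25b_ind D t := by
  unfold m25b_ind
  simp only [List.mem_cons, forall_eq_or_imp]
  split_ifs <;> simp_all

private noncomputable def m25b_Z (D m k : ℕ) : ℝ :=
  ((m25b_G 1)^[m] (fun t => ((m25b_G 0)^[k] (m25b_ind D)) (t ++ [1]))) []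

private theorem m25b_Qn_le (β k D : ℕ) :
    Qn β k (fun σ => if ∀ F ∈ σ, F.1 ≤ D then 1 else 0) ≤ m25b_Z D (β - 1) k := by
  unfold Qn m25b_Z
  rw [m25b_PS (β - 1) (fun σ => (gna^[k] fun σ => if ∀ F ∈ σ, F.1 ≤ D then (1 : ℝ) else 0)
    (σ ++ [(1, 1, 0)]))]
  refine m25b_iter 1 zero_le_one _ _ ?_ (β - 1) _ _ m25b_R.nil
  intro σ t hR
  rw [m25b_gna]
  refine m25b_iter 0 le_rfl _ _ ?_ k _ _ (m25b_R_append hR m25b_R_one)
  intro σ t hR
  unfold m25b_ind
  split_ifs with h1 h2
  · exact le_rfl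
  · exfalso
    apply h2
    clear h2
    induction hR with
    | nil => simp
    | @cons F σ t1 t2 g1 g2 g3 g4 g5 ih =>
      intro x hx
      rcases List.mem_append.1 hx with hx | hx
      · exact (g3 x hx).trans (h1 F (by simp))
      · exact ih (fun G hG => h1 G (by simp [hG])) x hx
  · exact zero_le_one
  · exact le_rfl

/-! ### linearity -/

private theorem m25b_G_sum (e : ℝ) {ι : Type*} (s : Finset ι) (c : ι → ℝ) (t : List ℕ) :
    ∀ f : ι → List ℕ → ℝ, m25b_G e (fun t' => ∑ i ∈ s, c i * f i t') t =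
      ∑ i ∈ s, c i * m25b_G e (f i) t := by
  induction t with
  | nil =>
    intro f
    simp only [m25b_G_nil]
    rw [Finset.mul_sum]
    exact Finset.sum_congr rfl fun i _ => by ring
  | cons x t ih =>
    intro f
    simp only [m25b_G_cons]
    rw [ih, Finset.mul_sum, ← Finset.sum_add_distrib]
    exact Finset.sum_congr rfl fun i _ => by ring

private theorem m25b_iter_sum (e : ℝ) {ι : Type*} (s : Finset ι) (c : ι → ℝ) (n : ℕ) :
    ∀ (f : ι → List ℕ → ℝ) (t : List ℕ), ((m25b_G e)^[n] (fun t' => ∑ i ∈ s, c i * f i t')) t =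
      ∑ i ∈ s, c i * ((m25b_G e)^[n] (f i)) t := by
  induction n with
  | zero => intro f t; rfl
  | succ n ih =>
    intro f t
    simp only [Function.iterate_succ_apply']
    rw [← m25b_G_sum]
    congr 1
    funext t'
    exact ih f t'

/-! ### binomial sums -/

private theorem m25b_pascal (m : ℕ) (h : ℕ → ℝ) :
    ∑ j ∈ range (m + 2), ((m + 1).choose j : ℝ) * h j =
      ∑ j ∈ range (m + 1), (m.choose j : ℝ) * (h j + h (j + 1)) := by
  have h1 : ∑ j ∈ range (m + 1), (m.choose j : ℝ) * h j =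
      (∑ j ∈ range m, (m.choose (j + 1) : ℝ) * h (j + 1)) + h 0 := by
    rw [Finset.sum_range_succ']; simp
  have h2 : ∑ j ∈ range (m + 1), (m.choose (j + 1) : ℝ) * h (j + 1) =
      ∑ j ∈ range m, (m.choose (j + 1) : ℝ) * h (j + 1) := by
    rw [Finset.sum_range_succ]; simp
  rw [Finset.sum_range_succ']
  simp only [mul_add, Finset.sum_add_distrib, Nat.choose_succ_succ, Nat.cast_add, add_mul,
    Nat.choose_zero_right, Nat.cast_one, one_mul]
  rw [h1]
  have h3 : ∑ x ∈ range (m + 1), (m.choose x.succ : ℝ) * h (x + 1) =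
      ∑ j ∈ range m, (m.choose (j + 1) : ℝ) * h (j + 1) := h2
  rw [h3]
  ring

private theorem m25b_vand (m k : ℕ) : ∀ g : ℕ → ℝ,
    ∑ j ∈ range (m + 1), (m.choose j : ℝ) * ∑ i ∈ range (k + 1), (k.choose i : ℝ) * g (j + i) =
      ∑ s ∈ range (m + k + 1), ((m + k).choose s : ℝ) * g s := by
  induction m with
  | zero => intro g; simp
  | succ m ih =>
    intro g
    have e1 : m + 1 + k + 1 = (m + k) + 2 := by omega
    have e2 : m + 1 + k = (m + k) + 1 := by omega
    rw [e1, e2, m25b_pascal (m + k) g, ← ih (fun s => g s + g (s + 1)),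
      m25b_pascal m (fun j => ∑ i ∈ range (k + 1), (k.choose i : ℝ) * g (j + i))]
    refine Finset.sum_congr rfl fun j _ => ?_
    rw [← Finset.sum_add_distrib]
    congr 1
    refine Finset.sum_congr rfl fun i _ => ?_
    have : j + 1 + i = j + i + 1 := by omega
    rw [this]
    ring

private theorem m25b_binom (e : ℝ) (f : List ℕ → ℝ) (k : ℕ) : ∀ (x : ℕ) (t : List ℕ),
    ((m25b_G e)^[k] f) (x :: t) = ∑ j ∈ range (k + 1), (k.choose j : ℝ) *
      ((x.ascFactorial j : ℝ) * ((m25b_G e)^[k - j] (fun t' => f ((x + j) :: t'))) t) := by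
  induction k with
  | zero => intro x t; simp
  | succ k ih =>
    intro x t
    rw [Function.iterate_succ_apply', m25b_G_cons, m25b_pascal]
    have h1 : (fun t' => ((m25b_G e)^[k] f) (x :: t')) = fun t' =>
        ∑ j ∈ range (k + 1), ((k.choose j : ℝ) * (x.ascFactorial j : ℝ)) *
          ((m25b_G e)^[k - j] (fun t' => f ((x + j) :: t'))) t' := by
      funext t'
      rw [ih]
      exact Finset.sum_congr rfl fun j _ => by ring
    rw [h1, m25b_G_sum, ih, Finset.mul_sum, ← Finset.sum_add_distrib]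
    refine Finset.sum_congr rfl fun j hj => ?_
    have hj' : j ≤ k := by
      have := Finset.mem_range.1 hj
      omega
    have e1 : k + 1 - j = (k - j) + 1 := by omega
    have e2 : k + 1 - (j + 1) = k - j := by omega
    rw [e1, e2, Function.iterate_succ_apply']
    have e3 : (x : ℝ) * ((x + 1).ascFactorial j : ℝ) = (x.ascFactorial (j + 1) : ℝ) := by
      rw [Nat.ascFactorial_succ]
      exact_mod_cast Nat.succ_ascFactorial x j
    have e4 : (fun t' => f ((x + 1 + j) :: t')) = fun t' => f ((x + (j + 1)) :: t') := by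
      funext t'
      have : x + 1 + j = x + (j + 1) := by omega
      rw [this]
    rw [← e3, e4]
    ring

private theorem m25b_Z_zero (D k : ℕ) :
    m25b_Z D 0 k = (k.factorial : ℝ) * (if k + 1 ≤ D then 1 else 0) := by
  unfold m25b_Z
  simp only [Function.iterate_zero, id_eq, List.nil_append]
  rw [m25b_binom, Finset.sum_range_succ, Finset.sum_eq_zero]
  · simp only [Nat.choose_self, Nat.cast_one, one_mul, Nat.sub_self, Function.iterate_zero, id_eq,
      zero_add, Nat.one_ascFactorial]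
    rw [m25b_ind_cons]
    have : m25b_ind D [] = 1 := by simp [m25b_ind]
    rw [this, mul_one, add_comm 1 k]
  · intro j hj
    have hj' : j < k := Finset.mem_range.1 hj
    obtain ⟨r, hr⟩ : ∃ r, k - j = r + 1 := ⟨k - j - 1, by omega⟩
    rw [hr, Function.iterate_succ_apply', m25b_G_nil]
    simp

private theorem m25b_Z_succ (D m k : ℕ) :
    m25b_Z D (m + 1) k = ∑ j ∈ range (m + 1), (m.choose j : ℝ) * ∑ i ∈ range (k + 1),
      (k.choose i : ℝ) * (((j + i).factorial : ℝ) * (if j + i + 1 ≤ D then 1 else 0) *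
        m25b_Z D (m - j) (k - i)) := by
  have h0 : m25b_Z D (m + 1) k =
      ((m25b_G 1)^[m] (fun t => ((m25b_G 0)^[k] (m25b_ind D)) (t ++ [1]))) [1] := by
    unfold m25b_Z
    rw [Function.iterate_succ_apply', m25b_G_nil, one_mul]
  rw [h0, m25b_binom]
  refine Finset.sum_congr rfl fun j hj => ?_
  congr 1
  have h1 : (fun t' : List ℕ => ((m25b_G 0)^[k] (m25b_ind D)) ((1 + j) :: t' ++ [1])) = fun t' =>
      ∑ i ∈ range (k + 1), ((k.choose i : ℝ) * (((1 + j).ascFactorial i : ℝ) *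
        (if 1 + j + i ≤ D then 1 else 0))) * ((m25b_G 0)^[k - i] (m25b_ind D)) (t' ++ [1]) := by
    funext t'
    rw [List.cons_append, m25b_binom]
    refine Finset.sum_congr rfl fun i _ => ?_
    have h2 : (fun t'' : List ℕ => m25b_ind D ((1 + j + i) :: t'')) = fun t'' =>
        ∑ _u ∈ range 1, (if 1 + j + i ≤ D then (1 : ℝ) else 0) * m25b_ind D t'' := by
      funext t''
      rw [m25b_ind_cons]
      simp
    rw [h2, m25b_iter_sum]
    simp only [Finset.sum_const, Finset.card_range, one_smul]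
    ring
  rw [h1, m25b_iter_sum, Finset.mul_sum]
  refine Finset.sum_congr rfl fun i _ => ?_
  have h3 : (((1 : ℕ).ascFactorial j : ℝ)) * ((1 + j).ascFactorial i : ℝ) =
      ((j + i).factorial : ℝ) := by
    rw [Nat.one_ascFactorial, add_comm 1 j]
    exact_mod_cast Nat.factorial_mul_ascFactorial j i
  have h4 : (if 1 + j + i ≤ D then (1 : ℝ) else 0) = if j + i + 1 ≤ D then 1 else 0 := by
    have : 1 + j + i = j + i + 1 := by omega
    rw [this]
  rw [h4, ← h3]
  unfold m25b_Z
  ring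

private theorem m25b_Rd_sum (D n : ℕ) :
    (n.factorial : ℝ) * ∑ s ∈ range (n + 1), (if s + 1 ≤ D then (1 : ℝ) else 0) *
      Rd D (n - s + 1) = ((n + 1).factorial : ℝ) * Rd D (n + 2) := by
  rcases Nat.lt_or_ge D (n + 2) with h | h
  · rw [Rd_rec D (n + 2) h]
    have h1 : ((n + 1).factorial : ℝ) = ((n + 2 : ℕ) - 1 : ℝ) * n.factorial := by
      rw [Nat.factorial_succ]; push_cast; ring
    have h2 : ((n + 2 : ℕ) - 1 : ℝ) ≠ 0 := by
      have h5 : (0 : ℝ) ≤ n := Nat.cast_nonneg n
      push_cast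
      intro h6
      linarith
    rw [h1]
    have h3 : ∑ s ∈ range (n + 1), (if s + 1 ≤ D then (1 : ℝ) else 0) * Rd D (n - s + 1) =
        ∑ i ∈ range D, Rd D (n + 2 - (i + 1)) := by
      have h4 : range D ⊆ range (n + 1) := by
        intro i hi
        have := Finset.mem_range.1 hi
        exact Finset.mem_range.2 (by omega)
      rw [← Finset.sum_subset h4]
      · refine Finset.sum_congr rfl fun i hi => ?_
        have hi' := Finset.mem_range.1 hi
        rw [if_pos (by omega), one_mul]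
        congr 1
        omega
      · intro i _ hi
        have hi' : ¬ (i < D) := fun h5 => hi (Finset.mem_range.2 h5)
        rw [if_neg (by omega), zero_mul]
    rw [h3]
    field_simp
  · rw [Rd_le D (n + 2) h]
    have h3 : ∑ s ∈ range (n + 1), (if s + 1 ≤ D then (1 : ℝ) else 0) * Rd D (n - s + 1) =
        ∑ s ∈ range (n + 1), (1 : ℝ) := by
      refine Finset.sum_congr rfl fun i hi => ?_
      have hi' := Finset.mem_range.1 hi
      rw [if_pos (by omega), Rd_le D _ (by omega), one_mul]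
    rw [h3]
    simp only [Finset.sum_const, Finset.card_range, nsmul_eq_mul, mul_one]
    rw [Nat.factorial_succ]
    push_cast
    ring

private theorem m25b_Z_le (D m : ℕ) :
    ∀ k, m25b_Z D m k ≤ ((m + k).factorial : ℝ) * Rd D (m + k + 1) := by
  induction m using Nat.strong_induction_on with
  | _ m ih =>
    intro k
    rcases m with _ | m
    · rw [m25b_Z_zero, zero_add]
      refine mul_le_mul_of_nonneg_left ?_ (Nat.cast_nonneg _)
      split_ifs with h
      · rw [Rd_le D _ h]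
      · exact Rd_nonneg _ _
    · rw [m25b_Z_succ]
      have h1 : ∑ j ∈ range (m + 1), (m.choose j : ℝ) * ∑ i ∈ range (k + 1),
          (k.choose i : ℝ) * (((j + i).factorial : ℝ) * (if j + i + 1 ≤ D then 1 else 0) *
            m25b_Z D (m - j) (k - i)) ≤
          ∑ j ∈ range (m + 1), (m.choose j : ℝ) * ∑ i ∈ range (k + 1), (k.choose i : ℝ) *
            (fun s => ((s.factorial : ℝ) * (if s + 1 ≤ D then 1 else 0) *
              (((m + k - s).factorial : ℝ) * Rd D (m + k - s + 1)))) (j + i) := by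
        refine Finset.sum_le_sum fun j hj => mul_le_mul_of_nonneg_left
          (Finset.sum_le_sum fun i hi => mul_le_mul_of_nonneg_left ?_ (Nat.cast_nonneg _))
          (Nat.cast_nonneg _)
        have hj' := Finset.mem_range.1 hj
        have hi' := Finset.mem_range.1 hi
        have h2 := ih (m - j) (by omega) (k - i)
        have e1 : m - j + (k - i) = m + k - (j + i) := by omega
        rw [e1] at h2
        simp only
        refine mul_le_mul_of_nonneg_left h2 ?_
        split_ifs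
        · simp
        · simp
      refine h1.trans (((m25b_vand m k (fun s => ((s.factorial : ℝ) *
        (if s + 1 ≤ D then 1 else 0) *
          (((m + k - s).factorial : ℝ) * Rd D (m + k - s + 1))))).le).trans ?_)
      have e2 : m + 1 + k = m + k + 1 := by omega
      rw [e2, ← m25b_Rd_sum D (m + k), Finset.mul_sum]
      refine Finset.sum_le_sum fun s hs => ?_
      have hs' := Finset.mem_range.1 hs
      have h3 : ((m + k).choose s : ℝ) * (s.factorial : ℝ) * ((m + k - s).factorial : ℝ) =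
          ((m + k).factorial : ℝ) := by
        exact_mod_cast Nat.choose_mul_factorial_mul_factorial (n := m + k) (k := s) (by omega)
      rw [← h3]
      apply le_of_eq
      ring

theorem top_le_Rd (β a D : ℕ) (hβ : 2 ≤ β) (ha : β ≤ a) :
    Qn β (a - β) (fun σ => if top3 σ ≤ D then 1 else 0) ≤ ((a - 1).factorial : ℝ) * Rd D a := by
  have h1 : Qn β (a - β) (fun σ => if top3 σ ≤ D then (1 : ℝ) else 0) ≤
      Qn β (a - β) (fun σ => if ∀ F ∈ σ, F.1 ≤ D then 1 else 0) := by
    refine Qn_mono β (a - β) (by omega) _ _ fun σ hσ => ?_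
    have h2 : top3 σ ≤ D → ∀ F ∈ σ, F.1 ≤ D := by
      intro ht F hF
      cases σ with
      | nil => simp at hF
      | cons G τ =>
        have h3 := List.pairwise_cons.1 hσ.anti
        have ht' : G.1 ≤ D := ht
        rcases List.mem_cons.1 hF with rfl | hF
        · exact ht'
        · exact (h3.1 F hF).trans ht'
    by_cases h : top3 σ ≤ D
    · rw [if_pos h, if_pos (h2 h)]
    · rw [if_neg h]
      split_ifs
      · exact zero_le_one
      · exact le_rfl
  refine h1.trans ((m25b_Qn_le β (a - β) D).trans ?_)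
  have h2 := m25b_Z_le D (β - 1) (a - β)
  have e1 : β - 1 + (a - β) = a - 1 := by omega
  have e2 : a - 1 + 1 = a := by omega
  rw [e1, e2] at h2
  exact h2

end Pool.ADM
end

section

end

section

/-! job ADM-24: full states on a line.

For fixed `β` let `S a σ` be the expected number of the later full states (from the state `σ` with
`a` letters on) on the line, i.e. with `a'` letters and level `2 Dp - a'` or `2 Dp + 1 - a'`.
Backward induction: `S a σ ≤ 1` if `top3 σ ≤ 2 Dp + 1 - a`, and `= 0` otherwise: after a full state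
of level `D` the next state (no append) has top `D + 1`, too high for the rest of the line. -/

set_option autoImplicit false

namespace Pool.ADM

open Finset

private noncomputable def m24_ind (Dp a : ℕ) (σ : S3) : ℝ :=
  (if AL (2 * Dp - a) σ then 1 else 0) + (if AL (2 * Dp + 1 - a) σ then 1 else 0)

private noncomputable def m24_F (Dp : ℕ) : ℕ → ℕ → S3 → ℝ
  | 0, a => m24_ind Dp a
  | m + 1, a => fun σ => m24_ind Dp a σ + (1 / (a : ℝ)) * gna (m24_F Dp m (a + 1)) σ

private theorem m24_AL_top {D : ℕ} {σ : S3} (h : AL D σ) : top3 σ = D := by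
  cases σ with
  | nil => exact absurd rfl h.1
  | cons F τ => exact h.2 F (by simp)

private theorem m24_ind_nonneg (Dp a : ℕ) (σ : S3) : 0 ≤ m24_ind Dp a σ := by
  unfold m24_ind
  positivity

/-- the hits have total weight `n` -/
private theorem m24_hits (n : ℕ) (σ : S3) (hσ : Vs 0 n σ) :
    wsum (suc 0 σ) (fun h _ => if h = 0 then 0 else 1) = (n : ℝ) := by
  have h1 := wsum_suc_one 0 n (by omega) σ hσ
  have h2 := suc_append 0 n σ hσ (fun _ => 1)
  have h3 : wsum (suc 0 σ) (fun _ _ => (1 : ℝ)) =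
      wsum (suc 0 σ) (fun h _ => if h = 0 then 0 else 1) +
        wsum (suc 0 σ) (fun h _ => if h = 0 then 1 else 0) := by
    rw [← wsum_add]
    congr 1
    funext h _
    split_ifs <;> simp
  rw [h1, h2] at h3
  linarith

private theorem m24_gna_le (n : ℕ) (σ : S3) (hσ : Vs 0 n σ) (G : S3 → ℝ)
    (hG : ∀ ρ, Vs 0 (n + 1) ρ → G ρ ≤ 1) : gna G σ ≤ n := by
  rw [← m24_hits n σ hσ]
  unfold gna
  refine wsum_mono _ _ _ fun x hx hw => ?_
  split_ifs with h
  · exact le_rfl
  · exact hG _ (suc_vs 0 n (by omega) σ hσ x hx hw)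

private theorem m24_gna_nonneg (n : ℕ) (σ : S3) (hσ : Vs 0 n σ) (G : S3 → ℝ)
    (hG : ∀ ρ, Vs 0 (n + 1) ρ → 0 ≤ G ρ) : 0 ≤ gna G σ := by
  have h1 : wsum (suc 0 σ) (fun _ _ => (0 : ℝ)) ≤ gna G σ := by
    unfold gna
    refine wsum_mono _ _ _ fun x hx hw => ?_
    split_ifs with h
    · exact le_rfl
    · exact hG _ (suc_vs 0 n (by omega) σ hσ x hx hw)
  have h2 : wsum (suc 0 σ) (fun _ _ => (0 : ℝ)) = 0 := by simp [wsum]
  linarith

/-- no full state later if the top is too high -/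
private theorem m24_gna_zero (n L : ℕ) (σ : S3) (hσ : Vs 0 n σ) (G : S3 → ℝ)
    (hG : ∀ ρ, Vs 0 (n + 1) ρ → L < top3 ρ → G ρ = 0) (hL : L < top3 σ ∨ AL L σ) :
    gna G σ = 0 := by
  have h2 : wsum (suc 0 σ) (fun _ _ => (0 : ℝ)) = 0 := by simp [wsum]
  rw [← h2]
  unfold gna
  refine wsum_congr _ _ _ fun x hx hw => ?_
  split_ifs with h
  · rfl
  · have h3 := suc_top 0 n σ hσ x hx hw
    refine hG _ (suc_vs 0 n (by omega) σ hσ x hx hw) ?_
    rcases hL with hL | hL
    · omega
    · obtain ⟨w, h', ρ⟩ := x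
      rcases suc_cases 0 n σ hσ w h' ρ hx hw with ⟨h4, _⟩ | ⟨_, α, β, q, τ, u, h5, h6, _⟩
      · exact absurd h4 h
      · have h7 : q.1 = L := hL.2 q (by rw [h5]; simp)
        have h8 : h' + 1 ≤ top3 ρ := h3.2.2.1
        show L < top3 ρ
        omega

private theorem m24_bound (Dp m : ℕ) : ∀ (a : ℕ) (σ : S3), 1 ≤ a → a + m ≤ 2 * Dp → Vs 0 a σ →
    0 ≤ m24_F Dp m a σ ∧ m24_F Dp m a σ ≤ if top3 σ ≤ 2 * Dp + 1 - a then 1 else 0 := by
  induction m with
  | zero =>
    intro a σ ha hm hσ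
    refine ⟨m24_ind_nonneg _ _ _, ?_⟩
    show m24_ind Dp a σ ≤ _
    unfold m24_ind
    by_cases h1 : AL (2 * Dp - a) σ
    · have h2 := m24_AL_top h1
      have h3 : ¬ AL (2 * Dp + 1 - a) σ := fun h => by
        have := m24_AL_top h
        omega
      rw [if_pos h1, if_neg h3, if_pos (by omega)]
      norm_num
    · by_cases h3 : AL (2 * Dp + 1 - a) σ
      · have h2 := m24_AL_top h3
        rw [if_neg h1, if_pos h3, if_pos (by omega)]
        norm_num
      · rw [if_neg h1, if_neg h3]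
        split_ifs <;> norm_num
  | succ m ih =>
    intro a σ ha hm hσ
    have ha0 : (0 : ℝ) < a := by exact_mod_cast ha
    have hn := m24_gna_nonneg a σ hσ (m24_F Dp m (a + 1)) fun ρ hρ =>
      (ih (a + 1) ρ (by omega) (by omega) hρ).1
    have hz : ∀ ρ, Vs 0 (a + 1) ρ → 2 * Dp - a < top3 ρ → m24_F Dp m (a + 1) ρ = 0 := by
      intro ρ hρ h
      have h1 := ih (a + 1) ρ (by omega) (by omega) hρ
      rw [if_neg (by omega)] at h1
      linarith [h1.1, h1.2]
    have hz' : ∀ ρ, Vs 0 (a + 1) ρ → 2 * Dp + 1 - a < top3 ρ → m24_F Dp m (a + 1) ρ = 0 :=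
      fun ρ hρ h => hz ρ hρ (by omega)
    show 0 ≤ m24_ind Dp a σ + (1 / (a : ℝ)) * gna (m24_F Dp m (a + 1)) σ ∧
      m24_ind Dp a σ + (1 / (a : ℝ)) * gna (m24_F Dp m (a + 1)) σ ≤ _
    refine ⟨add_nonneg (m24_ind_nonneg _ _ _) (mul_nonneg (by positivity) hn), ?_⟩
    unfold m24_ind
    by_cases h1 : AL (2 * Dp - a) σ
    · have h2 := m24_AL_top h1
      have h3 : ¬ AL (2 * Dp + 1 - a) σ := fun h => by
        have := m24_AL_top h
        omega
      rw [if_pos h1, if_neg h3, if_pos (by omega),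
        m24_gna_zero a _ σ hσ _ hz (Or.inr h1)]
      norm_num
    · by_cases h3 : AL (2 * Dp + 1 - a) σ
      · have h2 := m24_AL_top h3
        rw [if_neg h1, if_pos h3, if_pos (by omega),
          m24_gna_zero a _ σ hσ _ hz' (Or.inr h3)]
        norm_num
      · rw [if_neg h1, if_neg h3]
        by_cases h4 : top3 σ ≤ 2 * Dp + 1 - a
        · rw [if_pos h4]
          have h5 := m24_gna_le a σ hσ (m24_F Dp m (a + 1)) fun ρ hρ => by
            have h6 := (ih (a + 1) ρ (by omega) (by omega) hρ).2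
            split_ifs at h6 <;> linarith
          have h7 : (1 / (a : ℝ)) * gna (m24_F Dp m (a + 1)) σ ≤ (1 / (a : ℝ)) * a :=
            mul_le_mul_of_nonneg_left h5 (by positivity)
          have h8 : (1 / (a : ℝ)) * a = 1 := by field_simp
          linarith
        · rw [if_neg h4, m24_gna_zero a _ σ hσ _ hz' (Or.inl (by omega))]
          norm_num

private noncomputable def m24_t (β Dp a : ℕ) : ℝ :=
  q1 β a (2 * Dp - a) + q1 β a (2 * Dp + 1 - a)

private theorem m24_fact (a : ℕ) (ha : 1 ≤ a) :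
    (a.factorial : ℝ) = a * ((a - 1).factorial : ℝ) := by
  have := Nat.mul_factorial_pred (show a ≠ 0 by omega)
  exact_mod_cast this.symm

private theorem m24_Qn_ind (β Dp a : ℕ) (ha : β ≤ a) :
    Qn β (a - β) (m24_ind Dp a) / ((a - 1).factorial : ℝ) = m24_t β Dp a := by
  unfold m24_t q1
  rw [if_neg (by omega), if_neg (by omega), ← add_div, ← Qn_add]
  rfl

private theorem m24_Qn_step (β a : ℕ) (hβ : 1 ≤ β) (ha : β ≤ a) (I G : S3 → ℝ) :
    Qn β (a - β) (fun σ => I σ + (1 / (a : ℝ)) * gna G σ) / ((a - 1).factorial : ℝ) =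
      Qn β (a - β) I / ((a - 1).factorial : ℝ) +
        Qn β (a + 1 - β) G / ((a + 1 - 1).factorial : ℝ) := by
  have h1 : a + 1 - β = (a - β) + 1 := by omega
  have h2 : (a : ℝ) ≠ 0 := by
    have : a ≠ 0 := by omega
    exact_mod_cast this
  have h3 : ((a - 1).factorial : ℝ) ≠ 0 := by positivity
  rw [Qn_add, Qn_mul, h1, Qn_succ, Nat.add_sub_cancel, m24_fact a (by omega)]
  field_simp

private theorem m24_Qn_F (β Dp : ℕ) (hβ : 1 ≤ β) (m : ℕ) : ∀ a, β ≤ a →
    Qn β (a - β) (m24_F Dp m a) / ((a - 1).factorial : ℝ) =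
      ∑ i ∈ Ico a (a + m + 1), m24_t β Dp i := by
  induction m with
  | zero =>
    intro a ha
    rw [add_zero, Finset.sum_Ico_succ_top le_rfl, Finset.Ico_self, Finset.sum_empty, zero_add]
    exact m24_Qn_ind β Dp a ha
  | succ m ih =>
    intro a ha
    have h1 := m24_Qn_step β a hβ ha (m24_ind Dp a) (m24_F Dp m (a + 1))
    rw [m24_Qn_ind β Dp a ha, ih (a + 1) (by omega)] at h1
    rw [Finset.sum_eq_sum_Ico_succ_bot (show a < a + (m + 1) + 1 by omega)]
    rw [show a + (m + 1) + 1 = a + 1 + m + 1 by omega]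
    exact h1

private theorem m24_t_nonneg (β Dp a : ℕ) : 0 ≤ m24_t β Dp a :=
  add_nonneg (q1_nonneg _ _ _) (q1_nonneg _ _ _)

private theorem m24_t_zero (β Dp a : ℕ) (h : a < β) : m24_t β Dp a = 0 := by
  unfold m24_t q1
  rw [if_pos h, if_pos h, add_zero]

private theorem m24_div_le (β a D : ℕ) (hβ : 2 ≤ β) (ha : β ≤ a) (G : S3 → ℝ)
    (hG : ∀ σ, Vs 0 a σ → G σ ≤ if top3 σ ≤ D then 1 else 0) :
    Qn β (a - β) G / ((a - 1).factorial : ℝ) ≤ Rd D a := by
  have h1 : Qn β (a - β) G ≤ Qn β (a - β) (fun σ => if top3 σ ≤ D then 1 else 0) := by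
    refine Qn_mono β (a - β) (by omega) _ _ fun σ hσ => hG σ ?_
    rwa [show β + (a - β) = a by omega] at hσ
  have h2 := top_le_Rd β a D hβ ha
  have h3 : (0 : ℝ) < ((a - 1).factorial : ℝ) := by positivity
  rw [div_le_iff₀ h3]
  linarith

/-- the second kind of lines -/
private theorem m24_main (β Dp a : ℕ) (hβ : 2 ≤ β) (ha2 : a ≤ 2 * Dp) :
    ∑ i ∈ Ico a (2 * Dp + 1), m24_t β Dp i ≤ Rd (2 * Dp + 1 - a) a := by
  have key : ∀ b, β ≤ b → b ≤ 2 * Dp →
      ∑ i ∈ Ico b (2 * Dp + 1), m24_t β Dp i ≤ Rd (2 * Dp + 1 - b) b := by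
    intro b hb hb2
    have h1 := m24_Qn_F β Dp (by omega) (2 * Dp - b) b hb
    rw [show b + (2 * Dp - b) + 1 = 2 * Dp + 1 by omega] at h1
    rw [← h1]
    exact m24_div_le β b _ hβ hb _ fun σ hσ =>
      (m24_bound Dp (2 * Dp - b) b σ (by omega) (by omega) hσ).2
  by_cases h : β ≤ a
  · exact key a h ha2
  · by_cases h2 : β ≤ 2 * Dp
    · rw [← Finset.sum_Ico_consecutive _ (show a ≤ β by omega) (show β ≤ 2 * Dp + 1 by omega),
        Finset.sum_eq_zero (s := Ico a β), zero_add]
      · refine (key β le_rfl h2).trans ((Rd_mono _ (2 * Dp + 1 - a) β (by omega)).trans ?_)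
        exact Rd_anti _ _ _ (by omega)
      · intro i hi
        exact m24_t_zero _ _ _ (Finset.mem_Ico.1 hi).2
    · rw [Finset.sum_eq_zero]
      · exact Rd_nonneg _ _
      · intro i hi
        refine m24_t_zero _ _ _ ?_
        have := (Finset.mem_Ico.1 hi).2
        omega

/-- the first kind of lines -/
private theorem m24_main1 (β Dp a : ℕ) (hβ : 2 ≤ β) (ha : 1 ≤ a) (ha2 : a < 2 * Dp) :
    q1 β a (2 * Dp - a) + ∑ i ∈ Ico (a + 1) (2 * Dp + 1), m24_t β Dp i ≤ Rd (2 * Dp - a) a := by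
  by_cases h : β ≤ a
  · have h1 := m24_Qn_step β a (by omega) h (fun σ => if AL (2 * Dp - a) σ then 1 else 0)
      (m24_F Dp (2 * Dp - (a + 1)) (a + 1))
    rw [m24_Qn_F β Dp (by omega) _ (a + 1) (by omega),
      show a + 1 + (2 * Dp - (a + 1)) + 1 = 2 * Dp + 1 by omega] at h1
    have h2 : q1 β a (2 * Dp - a) = Qn β (a - β) (fun σ => if AL (2 * Dp - a) σ then 1 else 0) /
        ((a - 1).factorial : ℝ) := by
      unfold q1
      rw [if_neg (by omega)]
    rw [h2, ← h1]
    refine m24_div_le β a _ hβ h _ fun σ hσ => ?_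
    have hb : ∀ ρ, Vs 0 (a + 1) ρ → 0 ≤ m24_F Dp (2 * Dp - (a + 1)) (a + 1) ρ ∧
        m24_F Dp (2 * Dp - (a + 1)) (a + 1) ρ ≤ if top3 ρ ≤ 2 * Dp + 1 - (a + 1) then 1 else 0 :=
      fun ρ hρ => m24_bound Dp _ (a + 1) ρ (by omega) (by omega) hρ
    have hz : ∀ ρ, Vs 0 (a + 1) ρ → 2 * Dp - a < top3 ρ →
        m24_F Dp (2 * Dp - (a + 1)) (a + 1) ρ = 0 := by
      intro ρ hρ h3
      have h4 := hb ρ hρ
      rw [if_neg (by omega)] at h4
      linarith [h4.1, h4.2]
    by_cases h3 : AL (2 * Dp - a) σ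
    · have h4 := m24_AL_top h3
      rw [if_pos h3, m24_gna_zero a _ σ hσ _ hz (Or.inr h3), if_pos (by omega)]
      norm_num
    · rw [if_neg h3]
      by_cases h4 : top3 σ ≤ 2 * Dp - a
      · rw [if_pos h4]
        have h5 := m24_gna_le a σ hσ (m24_F Dp (2 * Dp - (a + 1)) (a + 1)) fun ρ hρ => by
          have h6 := (hb ρ hρ).2
          split_ifs at h6 <;> linarith
        have ha0 : (0 : ℝ) < a := by exact_mod_cast ha
        have h7 : (1 / (a : ℝ)) * gna (m24_F Dp (2 * Dp - (a + 1)) (a + 1)) σ ≤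
            (1 / (a : ℝ)) * a := mul_le_mul_of_nonneg_left h5 (by positivity)
        have h8 : (1 / (a : ℝ)) * a = 1 := by field_simp
        linarith
      · rw [if_neg h4, m24_gna_zero a _ σ hσ _ hz (Or.inl (by omega))]
        norm_num
  · have h1 : q1 β a (2 * Dp - a) = 0 := by
      unfold q1
      rw [if_pos (by omega)]
    rw [h1, zero_add]
    have h2 := m24_main β Dp (a + 1) hβ (by omega)
    rw [show 2 * Dp + 1 - (a + 1) = 2 * Dp - a by omega] at h2
    exact h2.trans (Rd_anti _ _ _ (by omega))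

private theorem m24_shift (f : ℕ → ℝ) (k0 Dp s : ℕ) :
    ∑ k ∈ Ico k0 Dp, f (Dp + k + s) = ∑ a ∈ Ico (Dp + k0 + s) (Dp + Dp + s), f a := by
  have h := Finset.sum_Ico_add' f k0 Dp (Dp + s)
  rw [show k0 + (Dp + s) = Dp + k0 + s by omega, show Dp + (Dp + s) = Dp + Dp + s by omega] at h
  rw [← h]
  refine Finset.sum_congr rfl fun k _ => ?_
  rw [show k + (Dp + s) = Dp + k + s by omega]

theorem line1 (β Dp k0 : ℕ) (hβ : 2 ≤ β) (hk : k0 < Dp) :
    ∑ k ∈ Ico k0 Dp, (q1 β (Dp + k) (Dp - k) + q1 β (Dp + k + 1) (Dp - k)) ≤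
      Rd (Dp - k0) (Dp + k0) := by
  have h1 := m24_main1 β Dp (Dp + k0) hβ (by omega) (by omega)
  rw [show 2 * Dp - (Dp + k0) = Dp - k0 by omega] at h1
  refine le_trans ?_ h1
  rw [Finset.sum_add_distrib]
  have h2 : ∑ k ∈ Ico k0 Dp, q1 β (Dp + k) (Dp - k) =
      q1 β (Dp + k0) (Dp - k0) +
        ∑ a ∈ Ico (Dp + k0 + 1) (2 * Dp), q1 β a (2 * Dp - a) := by
    have h3 := m24_shift (fun a => q1 β a (2 * Dp - a)) k0 Dp 0
    simp only [add_zero] at h3
    rw [show Dp + Dp = 2 * Dp by omega,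
      Finset.sum_eq_sum_Ico_succ_bot (show Dp + k0 < 2 * Dp by omega)] at h3
    rw [show 2 * Dp - (Dp + k0) = Dp - k0 by omega] at h3
    rw [← h3]
    refine Finset.sum_congr rfl fun k _ => ?_
    rw [show 2 * Dp - (Dp + k) = Dp - k by omega]
  have h4 : ∑ k ∈ Ico k0 Dp, q1 β (Dp + k + 1) (Dp - k) =
      ∑ a ∈ Ico (Dp + k0 + 1) (2 * Dp + 1), q1 β a (2 * Dp + 1 - a) := by
    have h3 := m24_shift (fun a => q1 β a (2 * Dp + 1 - a)) k0 Dp 1
    rw [show Dp + Dp + 1 = 2 * Dp + 1 by omega] at h3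
    rw [← h3]
    refine Finset.sum_congr rfl fun k _ => ?_
    rw [show 2 * Dp + 1 - (Dp + k + 1) = Dp - k by omega]
  have h5 : ∑ a ∈ Ico (Dp + k0 + 1) (2 * Dp), q1 β a (2 * Dp - a) ≤
      ∑ a ∈ Ico (Dp + k0 + 1) (2 * Dp + 1), q1 β a (2 * Dp - a) := by
    refine Finset.sum_le_sum_of_subset_of_nonneg ?_ fun i _ _ => q1_nonneg _ _ _
    exact Finset.Ico_subset_Ico le_rfl (by omega)
  have h6 : ∑ i ∈ Ico (Dp + k0 + 1) (2 * Dp + 1), m24_t β Dp i =
      ∑ a ∈ Ico (Dp + k0 + 1) (2 * Dp + 1), q1 β a (2 * Dp - a) +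
        ∑ a ∈ Ico (Dp + k0 + 1) (2 * Dp + 1), q1 β a (2 * Dp + 1 - a) := by
    rw [← Finset.sum_add_distrib]
    rfl
  rw [h2, h4, h6]
  linarith

theorem line2 (β Dp k0 par : ℕ) (hβ : 2 ≤ β) (hk : k0 < Dp) (hp : par ≤ 1) :
    ∑ k ∈ Ico k0 Dp, q2 β (Dp + k + par) (Dp - k) ≤ Rd (Dp - k0) (Dp + k0 + par) := by
  rcases Nat.lt_or_ge par 1 with h | h
  · obtain rfl : par = 0 := by omega
    simp only [add_zero]
    refine le_trans (Finset.sum_le_sum fun k _ => ?_) (line1 β Dp k0 hβ hk)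
    have h1 := q2_le_q1 β (Dp + k) (Dp - k) (by omega)
    have h2 := q1_nonneg β (Dp + k + 1) (Dp - k)
    linarith
  · obtain rfl : par = 1 := by omega
    have h1 := m24_main β Dp (Dp + k0 + 1) hβ (by omega)
    rw [show 2 * Dp + 1 - (Dp + k0 + 1) = Dp - k0 by omega] at h1
    refine le_trans ?_ h1
    have h3 := m24_shift (fun a => q1 β a (2 * Dp + 1 - a)) k0 Dp 1
    rw [show Dp + Dp + 1 = 2 * Dp + 1 by omega] at h3
    have h4 : ∑ k ∈ Ico k0 Dp, q2 β (Dp + k + 1) (Dp - k) ≤
        ∑ k ∈ Ico k0 Dp, q1 β (Dp + k + 1) (2 * Dp + 1 - (Dp + k + 1)) := by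
      refine Finset.sum_le_sum fun k _ => ?_
      rw [show 2 * Dp + 1 - (Dp + k + 1) = Dp - k by omega]
      exact q2_le_q1 _ _ _ (by omega)
    refine h4.trans ?_
    rw [h3]
    refine Finset.sum_le_sum fun a _ => ?_
    unfold m24_t
    linarith [q1_nonneg β a (2 * Dp - a)]

end Pool.ADM
end
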