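import Pool.Agent.Lib.MP_ad84ff_coM.N12c
import Pool.Agent.Lib.MP_ad84ff_coM.M20
import Pool.Agent.Lib.MP_ad84ff_coM.M24
import Pool.Agent.Lib.MP_ad84ff_coM.M09
import Pool.Agent.Lib.MP_ad84ff_coM.M07
import Pool.Agent.Lib.MP_ad84ff_coM.M00

section

/-! job ADM-11a: decomposition of `(n+1) (V_{n+1} - C_{n+1})` into classes. -/

set_option autoImplicit false

namespace Pool.ADM

open Finset

/-- the near ties with top level at least `2` -/
noncomputable def ntf (g : S3 → S3 → S3 → ℝ) (σ : S3) : ℝ :=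
  if top3 σ ≤ 1 then 0 else
  cutS σ fun F V => cutS V fun B O =>
    if AL (top3 σ) F ∧ AL (top3 σ - 1) B then g F B O else 0

private noncomputable def m11a_cut (σ : S3) (g : S3 → S3 → S3 → ℝ) : ℝ :=
  cutS σ fun F V => cutS V fun B O => g F B O

private theorem m11a_cut_congr (σ : S3) (g h : S3 → S3 → S3 → ℝ)
    (H : ∀ F B O, F ++ (B ++ O) = σ → g F B O = h F B O) : m11a_cut σ g = m11a_cut σ h := by
  refine cutS_congr _ _ _ fun F V hF => cutS_congr _ _ _ fun B O hB => H F B O ?_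
  rw [hB, hF]

private theorem m11a_cut_mono (σ : S3) (g h : S3 → S3 → S3 → ℝ)
    (H : ∀ F B O, F ++ (B ++ O) = σ → g F B O ≤ h F B O) : m11a_cut σ g ≤ m11a_cut σ h := by
  refine cutS_mono _ _ _ fun F V hF => cutS_mono _ _ _ fun B O hB => H F B O ?_
  rw [hB, hF]

private theorem m11a_cut_add (σ : S3) (g h : S3 → S3 → S3 → ℝ) :
    m11a_cut σ (fun F B O => g F B O + h F B O) = m11a_cut σ g + m11a_cut σ h := by
  unfold m11a_cut
  rw [← cutS_add]
  exact cutS_congr _ _ _ fun F V _ => cutS_add _ _ _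

private theorem m11a_cut_mul (σ : S3) (a : ℝ) (g : S3 → S3 → S3 → ℝ) :
    m11a_cut σ (fun F B O => a * g F B O) = a * m11a_cut σ g := by
  unfold m11a_cut
  rw [← cutS_mul]
  exact cutS_congr _ _ _ fun F V _ => cutS_mul _ _ _

private theorem m11a_cut_sum {ι : Type*} (σ : S3) (s : Finset ι) (g : ι → S3 → S3 → S3 → ℝ) :
    m11a_cut σ (fun F B O => ∑ i ∈ s, g i F B O) = ∑ i ∈ s, m11a_cut σ (g i) := by
  unfold m11a_cut
  rw [← cutS_sum]
  exact cutS_congr _ _ _ fun F V _ => cutS_sum _ _ _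

private theorem m11a_pick (s : Finset ℕ) (P : ℕ → Prop) [DecidablePred P] (f : ℕ → ℝ) (k : ℕ)
    (hk : k ∈ s) (hP : ∀ x ∈ s, (P x ↔ x = k)) :
    ∑ x ∈ s, (if P x then f x else 0) = f k := by
  rw [Finset.sum_eq_single k]
  · rw [if_pos ((hP k hk).2 rfl)]
  · intro x hx hne
    exact if_neg fun h => hne ((hP x hx).1 h)
  · intro h
    exact absurd hk h

/-- facts on one cut -/
private theorem m11a_facts (n : ℕ) (σ : S3) (hσ : Vs 1 n σ) (F B O : S3)
    (h : F ++ (B ++ O) = σ) :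
    sz F + (sz B + sz O) = n ∧ (∀ q ∈ F, q.2.2 ≤ q.2.1 ∧ 1 ≤ q.2.1 ∧ (2 ≤ q.1 → q.2.2 < q.2.1)) ∧
      (∀ q ∈ B, q.2.2 ≤ q.2.1 ∧ 1 ≤ q.2.1 ∧ (2 ≤ q.1 → q.2.2 < q.2.1) ∧
        (q.1 = 1 → q = (1, 1, 1))) ∧
      lf O ≤ sz O := by
  have key : ∀ q ∈ σ, q.2.2 ≤ q.2.1 ∧ 1 ≤ q.2.1 ∧ (2 ≤ q.1 → q.2.2 < q.2.1) ∧
      (q.1 = 1 → q = (1, 1, 1)) := by
    intro q hq
    have h1 := hσ.pos q hq
    have h2 := hσ.one q hq
    have h3 := hσ.big q hq
    refine ⟨?_, by omega, h3, h2⟩
    rcases h1.1.lt_or_eq with h4 | h4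
    · exact (h3 h4).le
    · rw [h2 h4.symm]
  subst h
  refine ⟨?_, ?_, ?_, ?_⟩
  · have h1 := hσ.sum
    simpa [sz] using h1
  · intro q hq
    have := key q (by simp [hq])
    exact ⟨this.1, this.2.1, this.2.2.1⟩
  · intro q hq
    exact key q (by simp [hq])
  · have : ∀ q ∈ O, q.2.2 ≤ q.2.1 := fun q hq => (key q (by simp [hq])).1
    clear key hσ
    induction O with
    | nil => simp [lf, sz]
    | cons G O ih =>
      have h1 := ih fun q hq => this q (List.mem_cons_of_mem _ hq)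
      have h2 := this G List.mem_cons_self
      simp only [lf, sz, List.map_cons, List.sum_cons] at h1 ⊢
      omega

private theorem m11a_lt (D : ℕ) (hD : 2 ≤ D) (F : S3) (hF : AL D F)
    (h : ∀ q ∈ F, q.2.2 ≤ q.2.1 ∧ 1 ≤ q.2.1 ∧ (2 ≤ q.1 → q.2.2 < q.2.1)) : lf F < sz F := by
  obtain ⟨h1, h2⟩ := hF
  cases F with
  | nil => exact absurd rfl h1
  | cons G F =>
    have h3 := (h G List.mem_cons_self).2.2 (by rw [h2 G List.mem_cons_self]; exact hD)
    have h4 : ∀ q ∈ F, q.2.2 ≤ q.2.1 := fun q hq => (h q (List.mem_cons_of_mem _ hq)).1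
    have h5 : lf F ≤ sz F := by
      clear h h1 h2 h3
      induction F with
      | nil => simp [lf, sz]
      | cons G F ih =>
        have h1 := ih fun q hq => h4 q (List.mem_cons_of_mem _ hq)
        have h2 := h4 G List.mem_cons_self
        simp only [lf, sz, List.map_cons, List.sum_cons] at h1 ⊢
        omega
    simp only [lf, sz, List.map_cons, List.sum_cons] at h5 ⊢
    omega

/-- the last packet -/
private theorem m11a_last (B : S3) (hB : B ≠ []) (h : ∀ q ∈ B, q.2.2 ≤ q.2.1) :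
    llf B ≤ lsz B ∧ llf B ≤ lf B ∧ lf B ≤ sz B ∧ (lf B = sz B → llf B = lsz B) := by
  induction B with
  | nil => exact absurd rfl hB
  | cons G B ih =>
    have hG := h G List.mem_cons_self
    cases B with
    | nil =>
      simp only [llf, lsz, lf, sz, List.getLastD, List.map_cons, List.map_nil, List.sum_cons,
        List.sum_nil]
      refine ⟨by simpa using hG, by simp, by omega, by intro h1; simp; omega⟩
    | cons K B =>
      have h1 := ih (by simp) fun q hq => h q (List.mem_cons_of_mem _ hq)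
      have e1 : llf (G :: K :: B) = llf (K :: B) := by simp [llf, List.getLastD]
      have e2 : lsz (G :: K :: B) = lsz (K :: B) := by simp [lsz, List.getLastD]
      have e3 : lf (G :: K :: B) = G.2.2 + lf (K :: B) := by simp [lf]
      have e4 : sz (G :: K :: B) = G.2.1 + sz (K :: B) := by simp [sz]
      rw [e1, e2, e3, e4]
      refine ⟨h1.1, by omega, by omega, fun h5 => h1.2.2.2 (by omega)⟩

/-- sum of the `yk` -/
private theorem m11a_yk (sl ul b u : ℕ) (h1 : ul ≤ sl) (h2 : ul ≤ u) (h3 : u ≤ b)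
    (h4 : u = b → ul = sl) :
    ∑ r ∈ range b, (yk sl ul b u r : ℝ) = (sl : ℝ) * ((b : ℝ) + 1) := by
  have e : ∀ r, (yk sl ul b u r : ℝ) =
      (if r = u then (((sl - ul) * (b - u + 1) : ℕ) : ℝ) else 0) +
      (if r + 1 = u then ((ul * (b - u + 2) + (sl - ul) * u : ℕ) : ℝ) else 0) +
      (if r + 2 = u then ((ul * (u - 1) : ℕ) : ℝ) else 0) := by
    intro r
    unfold yk
    push_cast [apply_ite (Nat.cast (R := ℝ))]
    rfl
  simp only [e, sum_add_distrib]
  have a1 : ∑ r ∈ range b, (if r = u then (((sl - ul) * (b - u + 1) : ℕ) : ℝ) else 0) =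
      (((sl - ul) * (b - u + 1) : ℕ) : ℝ) := by
    by_cases hu : u < b
    · exact m11a_pick _ (fun r => r = u) (fun _ => (((sl - ul) * (b - u + 1) : ℕ) : ℝ)) u
        (mem_range.2 hu) fun x _ => Iff.rfl
    · have h5 : u = b := by omega
      have h6 : ((sl - ul) * (b - u + 1) : ℕ) = 0 := by rw [h4 h5]; simp
      rw [h6]
      simp
  have a2 : ∑ r ∈ range b, (if r + 1 = u then ((ul * (b - u + 2) + (sl - ul) * u : ℕ) : ℝ) else 0) =
      ((ul * (b - u + 2) + (sl - ul) * u : ℕ) : ℝ) := by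
    by_cases hu : 1 ≤ u
    · exact m11a_pick _ (fun r => r + 1 = u)
        (fun _ => ((ul * (b - u + 2) + (sl - ul) * u : ℕ) : ℝ)) (u - 1)
        (mem_range.2 (by omega)) fun x _ => by omega
    · have h5 : u = 0 := by omega
      have h6 : ul = 0 := by omega
      subst h5 h6
      simp
  have a3 : ∑ r ∈ range b, (if r + 2 = u then ((ul * (u - 1) : ℕ) : ℝ) else 0) =
      ((ul * (u - 1) : ℕ) : ℝ) := by
    by_cases hu : 2 ≤ u
    · exact m11a_pick _ (fun r => r + 2 = u) (fun _ => ((ul * (u - 1) : ℕ) : ℝ)) (u - 2)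
        (mem_range.2 (by omega)) fun x _ => by omega
    · have h5 : ul * (u - 1) = 0 := by
        have : u - 1 = 0 := by omega
        rw [this, mul_zero]
      rw [h5]
      simp
  rw [a1, a2, a3]
  obtain ⟨d, rfl⟩ := Nat.exists_eq_add_of_le h1
  obtain ⟨k, rfl⟩ := Nat.exists_eq_add_of_le h3
  have e1 : ul + d - ul = d := by omega
  have e2 : u + k - u = k := by omega
  rw [e1, e2]
  rcases Nat.eq_zero_or_pos u with hu | hu
  · subst hu
    have : ul = 0 := by omega
    subst this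
    push_cast
    ring
  · obtain ⟨v, rfl⟩ := Nat.exists_eq_add_of_le hu
    have e3 : 1 + v - 1 = v := by omega
    rw [e3]
    push_cast
    ring

private theorem m11a_ym (n : ℕ) (B : S3) (hB : B ≠ []) (h : ∀ q ∈ B, q.2.2 ≤ q.2.1)
    (hn : sz B ≤ n) :
    ∑ b ∈ Icc 1 n, (if b ≤ sz B then (ym B (sz B - b) : ℝ) else 0) =
      (lsz B : ℝ) * ((sz B : ℝ) + 1) := by
  obtain ⟨h1, h2, h3, h4⟩ := m11a_last B hB h
  rw [← m11a_yk (lsz B) (llf B) (sz B) (lf B) h1 h2 h3 h4]
  rw [← Finset.sum_filter]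
  refine Finset.sum_bij' (fun b _ => sz B - b) (fun r _ => sz B - r) ?_ ?_ ?_ ?_ ?_
  · intro b hb
    rw [mem_filter, mem_Icc] at hb
    rw [mem_range]
    omega
  · intro r hr
    rw [mem_range] at hr
    rw [mem_filter, mem_Icc]
    omega
  · intro b hb
    rw [mem_filter, mem_Icc] at hb
    show sz B - (sz B - b) = b
    omega
  · intro r hr
    rw [mem_range] at hr
    show sz B - (sz B - r) = r
    omega
  · intro b hb
    rfl

/-- the sum over the classes at one cut -/
private theorem m11a_one (n : ℕ) (σ : S3) (hσ : Vs 1 n σ) (F B O : S3) (h : F ++ (B ++ O) = σ)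
    (φ : ℕ → ℕ → ℝ) (e : ℕ) (he : e ≤ 1) :
    ∑ D ∈ Icc 2 n, ∑ a ∈ Icc 1 n, ∑ b ∈ Icc 1 n, ∑ x ∈ range (n + 1),
      (if AL D F ∧ sz F + e = a + lf F ∧ AL (D - 1) B ∧ b ≤ sz B ∧ sz O = x + lf O then
        φ a b else 0) =
    if ¬ top3 σ ≤ 1 ∧ AL (top3 σ) F ∧ AL (top3 σ - 1) B then
      ∑ b ∈ Icc 1 n, (if b ≤ sz B then φ (sz F + e - lf F) b else 0) else 0 := by
  obtain ⟨f1, f2, f3, f4⟩ := m11a_facts n σ hσ F B O h
  have ht : ∀ D, AL D F → D = top3 σ := by
    intro D hD
    obtain ⟨h1, h2⟩ := hD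
    cases F with
    | nil => exact absurd rfl h1
    | cons G F =>
      rw [← h]
      exact (h2 G List.mem_cons_self).symm
  have step : ∀ D a b : ℕ, ∑ x ∈ range (n + 1),
      (if AL D F ∧ sz F + e = a + lf F ∧ AL (D - 1) B ∧ b ≤ sz B ∧ sz O = x + lf O then
        φ a b else 0) =
      (if AL D F ∧ sz F + e = a + lf F ∧ AL (D - 1) B ∧ b ≤ sz B then φ a b else 0) := by
    intro D a b
    by_cases hc : AL D F ∧ sz F + e = a + lf F ∧ AL (D - 1) B ∧ b ≤ sz B
    · rw [if_pos hc]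
      refine m11a_pick (range (n + 1)) _ (fun _ => φ a b) (sz O - lf O)
        (mem_range.2 (by omega)) fun x _ => ?_
      constructor
      · rintro ⟨-, -, -, -, h5⟩
        omega
      · intro h5
        exact ⟨hc.1, hc.2.1, hc.2.2.1, hc.2.2.2, by omega⟩
    · rw [if_neg hc]
      refine Finset.sum_eq_zero fun x _ => if_neg fun h5 => hc ⟨h5.1, h5.2.1, h5.2.2.1, h5.2.2.2.1⟩
  simp only [step]
  by_cases hT : ¬ top3 σ ≤ 1 ∧ AL (top3 σ) F ∧ AL (top3 σ - 1) B
  · rw [if_pos hT]
    obtain ⟨hT1, hT2, hT3⟩ := hT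
    have hlt := m11a_lt (top3 σ) (by omega) F hT2 f2
    have hB1 : 1 ≤ sz B := by
      obtain ⟨h1, h2⟩ := hT3
      cases B with
      | nil => exact absurd rfl h1
      | cons G B =>
        have := (f3 G List.mem_cons_self).2.1
        simp only [sz, List.map_cons, List.sum_cons]
        omega
    have hDn : top3 σ ≤ n := by
      have h1 : σ ≠ [] := by
        intro h0
        rw [h0] at h
        have : F = [] := by
          have := List.append_eq_nil_iff.1 h
          exact this.1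
        exact hT2.1 this
      cases σ with
      | nil => exact absurd rfl h1
      | cons G σ' =>
        have h2 := (hσ.pos G List.mem_cons_self).2
        have h3 := hσ.sum
        simp only [sz, List.map_cons, List.sum_cons] at h3
        show G.1 ≤ n
        omega
    rw [Finset.sum_eq_single (top3 σ)]
    · rw [Finset.sum_eq_single (sz F + e - lf F)]
      · refine Finset.sum_congr rfl fun b _ => ?_
        by_cases hb : b ≤ sz B
        · rw [if_pos hb, if_pos ⟨hT2, by omega, hT3, hb⟩]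
        · rw [if_neg hb, if_neg fun h5 => hb h5.2.2.2]
      · intro a _ hne
        refine Finset.sum_eq_zero fun b _ => if_neg fun h5 => hne ?_
        have := h5.2.1
        omega
      · intro h5
        exfalso
        apply h5
        rw [mem_Icc]
        omega
    · intro D _ hne
      refine Finset.sum_eq_zero fun a _ => Finset.sum_eq_zero fun b _ => if_neg fun h5 => ?_
      exact hne (ht D h5.1)
    · intro h5
      exfalso
      apply h5
      rw [mem_Icc]
      omega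
  · rw [if_neg hT]
    refine Finset.sum_eq_zero fun D hD => Finset.sum_eq_zero fun a _ =>
      Finset.sum_eq_zero fun b _ => if_neg fun h5 => hT ?_
    rw [mem_Icc] at hD
    have h6 := ht D h5.1
    rw [← h6]
    exact ⟨by omega, h5.1, h5.2.2.1⟩

private theorem m11a_ntf (g : S3 → S3 → S3 → ℝ) (σ : S3) :
    ntf g σ = m11a_cut σ fun F B O =>
      if ¬ top3 σ ≤ 1 ∧ AL (top3 σ) F ∧ AL (top3 σ - 1) B then g F B O else 0 := by
  unfold ntf m11a_cut
  by_cases h : top3 σ ≤ 1
  · rw [if_pos h]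
    simp only [h, not_true_eq_false, false_and, if_false]
    have h1 : ∀ V : S3, cutS V (fun _ _ => (0 : ℝ)) = 0 := fun V => by
      have := cutS_mul V 0 (fun _ _ => (0 : ℝ))
      simpa using this
    simp only [h1]
  · rw [if_neg h]
    simp only [h, not_false_eq_true, true_and]

private theorem m11a_sums (n : ℕ) (σ : S3) (φ ψ : ℕ → ℕ → ℝ) :
    ∑ D ∈ Icc 2 n, ∑ a ∈ Icc 1 n, ∑ b ∈ Icc 1 n, ∑ x ∈ range (n + 1),
      (φ a b * c0 D a b x σ + ψ a b * c1 D a b x σ) =
    m11a_cut σ fun F B O =>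
      (∑ D ∈ Icc 2 n, ∑ a ∈ Icc 1 n, ∑ b ∈ Icc 1 n, ∑ x ∈ range (n + 1),
        (if AL D F ∧ sz F + 0 = a + lf F ∧ AL (D - 1) B ∧ b ≤ sz B ∧ sz O = x + lf O then
          φ a b * (ym B (sz B - b) : ℝ) else 0)) +
      (∑ D ∈ Icc 2 n, ∑ a ∈ Icc 1 n, ∑ b ∈ Icc 1 n, ∑ x ∈ range (n + 1),
        (if AL D F ∧ sz F + 1 = a + lf F ∧ AL (D - 1) B ∧ b ≤ sz B ∧ sz O = x + lf O then
          ψ a b * ((lf F : ℝ) * (ym B (sz B - b) : ℝ)) else 0)) := by
  rw [m11a_cut_add]
  simp only [m11a_cut_sum, ← sum_add_distrib]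
  refine Finset.sum_congr rfl fun D _ => Finset.sum_congr rfl fun a _ =>
    Finset.sum_congr rfl fun b _ => Finset.sum_congr rfl fun x _ => ?_
  congr 1
  · have : c0 D a b x σ = m11a_cut σ fun F B O =>
        if AL D F ∧ sz F = a + lf F ∧ AL (D - 1) B ∧ b ≤ sz B ∧ sz O = x + lf O then
          (ym B (sz B - b) : ℝ) else 0 := rfl
    rw [this, ← m11a_cut_mul]
    refine m11a_cut_congr _ _ _ fun F B O _ => ?_
    rw [add_zero, mul_ite, mul_zero]
  · have : c1 D a b x σ = m11a_cut σ fun F B O =>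
        if AL D F ∧ sz F + 1 = a + lf F ∧ AL (D - 1) B ∧ b ≤ sz B ∧ sz O = x + lf O then
          (lf F : ℝ) * (ym B (sz B - b) : ℝ) else 0 := rfl
    rw [this, ← m11a_cut_mul]
    refine m11a_cut_congr _ _ _ fun F B O _ => ?_
    rw [mul_ite, mul_zero]

/-- number of the marks: `∑_r yk = sl (b+1)`; hence on near-tie cuts
`(|F| + |B| - 1) lsz B (|B| + 1) ≥ ∑ ((a + b - 1) c0 + c1)`. -/
theorem ntf_ge (n : ℕ) (σ : S3) (hσ : Vs 1 n σ) :
    ∑ D ∈ Icc 2 n, ∑ a ∈ Icc 1 n, ∑ b ∈ Icc 1 n, ∑ x ∈ range (n + 1),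
      (((a : ℝ) + b - 1) * c0 D a b x σ + c1 D a b x σ) ≤
    ntf (fun F B _ => ((sz F : ℝ) + sz B - 1) * ((lsz B : ℝ) * ((sz B : ℝ) + 1))) σ := by
  have h0 := m11a_sums n σ (fun a b => (a : ℝ) + b - 1) (fun _ _ => 1)
  simp only [one_mul] at h0
  rw [h0, m11a_ntf]
  refine m11a_cut_mono _ _ _ fun F B O h => ?_
  have e1 := m11a_one n σ hσ F B O h (fun a b => ((a : ℝ) + b - 1) * (ym B (sz B - b) : ℝ)) 0
    (by norm_num)
  have e2 := m11a_one n σ hσ F B O h (fun _ b => (lf F : ℝ) * (ym B (sz B - b) : ℝ)) 1 le_rfl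
  rw [e1, e2]
  by_cases hT : ¬ top3 σ ≤ 1 ∧ AL (top3 σ) F ∧ AL (top3 σ - 1) B
  · rw [if_pos hT, if_pos hT, if_pos hT, ← sum_add_distrib]
    obtain ⟨f1, f2, f3, f4⟩ := m11a_facts n σ hσ F B O h
    have hlt := m11a_lt (top3 σ) (by omega) F hT.2.1 f2
    rw [← m11a_ym n B hT.2.2.1 (fun q hq => (f3 q hq).1) (by omega), mul_sum]
    refine Finset.sum_le_sum fun b hb => ?_
    by_cases hb2 : b ≤ sz B
    · rw [if_pos hb2, if_pos hb2, if_pos hb2, ← add_mul]
      refine mul_le_mul_of_nonneg_right ?_ (Nat.cast_nonneg _)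
      rw [add_zero, Nat.cast_sub hlt.le]
      have : (b : ℝ) ≤ sz B := by exact_mod_cast hb2
      linarith
    · rw [if_neg hb2, if_neg hb2, if_neg hb2]
      simp
  · rw [if_neg hT, if_neg hT, if_neg hT, add_zero]

theorem ntf_eq (n : ℕ) (σ : S3) (hσ : Vs 1 n σ) :
    ntf (fun F B _ => (sz F : ℝ) * ((lsz B : ℝ) * ((sz B : ℝ) + 1))) σ =
    ∑ D ∈ Icc 2 n, ∑ a ∈ Icc 1 n, ∑ b ∈ Icc 1 n, ∑ x ∈ range (n + 1),
      ((a : ℝ) * c0 D a b x σ + c1 D a b x σ) := by
  have h0 := m11a_sums n σ (fun a _ => (a : ℝ)) (fun _ _ => 1)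
  simp only [one_mul] at h0
  rw [h0, m11a_ntf]
  refine m11a_cut_congr _ _ _ fun F B O h => ?_
  have e1 := m11a_one n σ hσ F B O h (fun a b => (a : ℝ) * (ym B (sz B - b) : ℝ)) 0
    (by norm_num)
  have e2 := m11a_one n σ hσ F B O h (fun _ b => (lf F : ℝ) * (ym B (sz B - b) : ℝ)) 1 le_rfl
  rw [e1, e2]
  by_cases hT : ¬ top3 σ ≤ 1 ∧ AL (top3 σ) F ∧ AL (top3 σ - 1) B
  · rw [if_pos hT, if_pos hT, if_pos hT, ← sum_add_distrib]
    obtain ⟨f1, f2, f3, f4⟩ := m11a_facts n σ hσ F B O h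
    have hlt := m11a_lt (top3 σ) (by omega) F hT.2.1 f2
    rw [← m11a_ym n B hT.2.2.1 (fun q hq => (f3 q hq).1) (by omega), mul_sum]
    refine Finset.sum_congr rfl fun b hb => ?_
    by_cases hb2 : b ≤ sz B
    · rw [if_pos hb2, if_pos hb2, if_pos hb2, ← add_mul, add_zero, Nat.cast_sub hlt.le]
      congr 1
      ring
    · rw [if_neg hb2, if_neg hb2, if_neg hb2]
      simp
  · rw [if_neg hT, if_neg hT, if_neg hT, add_zero]

end Pool.ADM
end

section

/-! job ADM-26b: the bounds `Dc`, `Hp` (Abel summation). -/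

set_option autoImplicit false

namespace Pool.ADM

open Finset

private theorem M26b_fi_nonneg (j : ℕ) : 0 ≤ fi j := by
  unfold fi; positivity

private theorem M26b_dev_nonneg (a M j : ℕ) : 0 ≤ dev a M j := by
  unfold dev
  split_ifs
  · exact le_refl 0
  · exact mul_nonneg (le_max_right _ _) (M26b_fi_nonneg j)

private theorem M26b_Gev_nonneg (D w x j k : ℕ) (hk : k + 2 ≤ D) : 0 ≤ Gev D w x j k := by
  unfold Gev
  have hk' : (k : ℝ) + 2 ≤ D := by exact_mod_cast hk
  have hw : (0 : ℝ) ≤ w := Nat.cast_nonneg _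
  have hx : (0 : ℝ) ≤ x := Nat.cast_nonneg _
  have hk0 : (0 : ℝ) ≤ k := Nat.cast_nonneg _
  apply div_nonneg
  · apply div_nonneg
    · apply mul_nonneg (M26b_dev_nonneg _ _ _)
      linarith
    · linarith
  · linarith

private theorem M26b_God_nonneg (D w x j k : ℕ) (hk : k + 2 ≤ D) : 0 ≤ God D w x j k := by
  unfold God
  have hk' : (k : ℝ) + 2 ≤ D := by exact_mod_cast hk
  have hw : (0 : ℝ) ≤ w := Nat.cast_nonneg _
  have hx : (0 : ℝ) ≤ x := Nat.cast_nonneg _
  have hk0 : (0 : ℝ) ≤ k := Nat.cast_nonneg _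
  apply div_nonneg
  · apply div_nonneg
    · apply mul_nonneg (M26b_dev_nonneg _ _ _)
      linarith
    · linarith
  · linarith

private theorem M26b_Gh_nonneg (D w x j : ℕ) : ∀ k, 0 ≤ Gh D w x j k
  | 0 => le_of_eq (by rw [Gh])
  | k + 1 => by
      rw [Gh]
      exact le_trans (M26b_Gh_nonneg D w x j k) (le_max_left _ _)

private theorem M26b_Gh_mono (D w x j k : ℕ) : Gh D w x j k ≤ Gh D w x j (k + 1) := by
  rw [Gh]
  exact le_max_left _ _

private theorem M26b_Gev_le (D w x j k : ℕ) (hk : 1 ≤ k) : Gev D w x j k ≤ Gh D w x j k := by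
  obtain ⟨i, rfl⟩ : ∃ i, k = i + 1 := ⟨k - 1, by omega⟩
  rw [Gh]
  exact le_trans (le_max_left _ _) (le_max_right _ _)

private theorem M26b_God_le (D w x j k : ℕ) (hk : 1 ≤ k) : God D w x j k ≤ Gh D w x j k := by
  obtain ⟨i, rfl⟩ : ∃ i, k = i + 1 := ⟨k - 1, by omega⟩
  rw [Gh]
  exact le_trans (le_max_right _ _) (le_max_right _ _)

private theorem M26b_psi_zero (β a m : ℕ) (ha : 1 ≤ a) (h : a < β) : psi β a m = 0 := by
  unfold psi
  apply Finset.prod_eq_zero (i := a)
  · rw [Finset.mem_Ico]; exact ⟨ha, h⟩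
  · simp

private theorem M26b_psi_sum (a m B : ℕ) (ha : 2 ≤ a) (h : a < m) (hB : a ≤ B) :
    ∑ β ∈ Icc 3 B, psi β a m = Ps a m := by
  rw [← psi_sum a m ha h]
  symm
  apply Finset.sum_subset
  · intro β hβ
    rw [Finset.mem_Icc] at *
    omega
  · intro β hβ hβ'
    rw [Finset.mem_Icc] at *
    apply M26b_psi_zero <;> omega

private theorem M26b_q1s_split (a D m B : ℕ) (ha : 2 ≤ a) (hB : a ≤ B) :
    q1s a D m = q1 2 a D * psi 2 a m + ∑ β ∈ Icc 3 B, q1 β a D * psi β a m := by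
  unfold q1s
  have h1 : Icc 2 a = insert 2 (Icc 3 a) := by
    ext i
    simp only [Finset.mem_Icc, Finset.mem_insert]
    omega
  rw [h1, Finset.sum_insert (by simp)]
  congr 1
  apply Finset.sum_subset
  · intro β hβ
    rw [Finset.mem_Icc] at *
    omega
  · intro β hβ hβ'
    rw [Finset.mem_Icc] at *
    have : a < β := by omega
    unfold q1
    rw [if_pos this, zero_mul]

/-- the factor of `β`. -/
private noncomputable def M26b_phi (D w x j β k : ℕ) : ℝ :=
  Gh D w x j k * psi β (D + k + 1) (2 * D + w + x)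

private noncomputable def M26b_P (D β k : ℕ) : ℝ :=
  q1 β (D + k) (D - k) + q1 β (D + k + 1) (D - k)

private theorem M26b_term (D w x j k : ℕ) (hk1 : 1 ≤ k) (hk : k + 2 ≤ D) :
    Gev D w x j k * q1s (D + k) (D - k) (2 * D - 1 + w + x) +
      God D w x j k * q1s (D + k + 1) (D - k) (2 * D + w + x) ≤
    (Gev D w x j k * P2 (D - k) (2 * k) * (((D : ℝ) + k - 1) / (2 * D - 2 + w + x)) +
     God D w x j k * P2 (D - k) (2 * k + 1) * (((D : ℝ) + k) / (2 * D - 1 + w + x))) +
    ∑ β ∈ Icc 3 (2 * D - 1), M26b_phi D w x j β k * M26b_P D β k := by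
  have hgev := M26b_Gev_nonneg D w x j k hk
  have hgod := M26b_God_nonneg D w x j k hk
  have hk' : (k : ℝ) + 2 ≤ D := by exact_mod_cast hk
  have hw : (0 : ℝ) ≤ w := Nat.cast_nonneg _
  have hx : (0 : ℝ) ≤ x := Nat.cast_nonneg _
  have hk0 : (0 : ℝ) ≤ k := Nat.cast_nonneg _
  rw [M26b_q1s_split (D + k) (D - k) (2 * D - 1 + w + x) (2 * D - 1) (by omega) (by omega),
    M26b_q1s_split (D + k + 1) (D - k) (2 * D + w + x) (2 * D - 1) (by omega) (by omega)]
  -- `β = 2`
  have e1 : q1 2 (D + k) (D - k) ≤ P2 (D - k) (2 * k) := by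
    have := q1_two (D - k) (2 * k) (by omega) (by omega)
    rwa [show D - k + 2 * k = D + k by omega] at this
  have e2 : q1 2 (D + k + 1) (D - k) ≤ P2 (D - k) (2 * k + 1) := by
    have := q1_two (D - k) (2 * k + 1) (by omega) (by omega)
    rwa [show D - k + (2 * k + 1) = D + k + 1 by omega] at this
  have p1 : psi 2 (D + k) (2 * D - 1 + w + x) = ((D : ℝ) + k - 1) / (2 * D - 2 + w + x) := by
    rw [psi_two]
    have : ((2 * D - 1 + w + x : ℕ) : ℝ) = 2 * D - 1 + w + x := by
      rw [Nat.cast_add, Nat.cast_add, Nat.cast_sub (by omega)]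
      push_cast
      ring
    rw [this]
    push_cast
    congr 1
    ring
  have p2 : psi 2 (D + k + 1) (2 * D + w + x) = ((D : ℝ) + k) / (2 * D - 1 + w + x) := by
    rw [psi_two]
    push_cast
    congr 1 <;> ring
  have p1n : 0 ≤ psi 2 (D + k) (2 * D - 1 + w + x) := psi_nonneg _ _ _ (by omega) (by omega)
  have p2n : 0 ≤ psi 2 (D + k + 1) (2 * D + w + x) := psi_nonneg _ _ _ (by omega) (by omega)
  have t1 : Gev D w x j k * (q1 2 (D + k) (D - k) * psi 2 (D + k) (2 * D - 1 + w + x)) ≤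
      Gev D w x j k * P2 (D - k) (2 * k) * (((D : ℝ) + k - 1) / (2 * D - 2 + w + x)) := by
    rw [← p1, mul_assoc]
    exact mul_le_mul_of_nonneg_left (mul_le_mul_of_nonneg_right e1 p1n) hgev
  have t2 : God D w x j k * (q1 2 (D + k + 1) (D - k) * psi 2 (D + k + 1) (2 * D + w + x)) ≤
      God D w x j k * P2 (D - k) (2 * k + 1) * (((D : ℝ) + k) / (2 * D - 1 + w + x)) := by
    rw [← p2, mul_assoc]
    exact mul_le_mul_of_nonneg_left (mul_le_mul_of_nonneg_right e2 p2n) hgod
  -- `β ≥ 3`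
  have t3 : Gev D w x j k * (∑ β ∈ Icc 3 (2 * D - 1),
        q1 β (D + k) (D - k) * psi β (D + k) (2 * D - 1 + w + x)) +
      God D w x j k * (∑ β ∈ Icc 3 (2 * D - 1),
        q1 β (D + k + 1) (D - k) * psi β (D + k + 1) (2 * D + w + x)) ≤
      ∑ β ∈ Icc 3 (2 * D - 1), M26b_phi D w x j β k * M26b_P D β k := by
    rw [Finset.mul_sum, Finset.mul_sum, ← Finset.sum_add_distrib]
    apply Finset.sum_le_sum
    intro β hβ
    rw [Finset.mem_Icc] at hβ
    have hpsi : 0 ≤ psi β (D + k + 1) (2 * D + w + x) := psi_nonneg _ _ _ (by omega) (by omega)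
    have hq1 := q1_nonneg β (D + k) (D - k)
    have hq2 := q1_nonneg β (D + k + 1) (D - k)
    have s1 : Gev D w x j k * (q1 β (D + k) (D - k) * psi β (D + k) (2 * D - 1 + w + x)) ≤
        Gh D w x j k * (q1 β (D + k) (D - k) * psi β (D + k + 1) (2 * D + w + x)) := by
      rcases Nat.lt_or_ge (D + k) β with hlt | hge
      · have : q1 β (D + k) (D - k) = 0 := by
          unfold q1
          rw [if_pos hlt]
        rw [this]
        simp
      · have hm : psi β (D + k) (2 * D - 1 + w + x) ≤ psi β (D + k + 1) (2 * D + w + x) := by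
          have := psi_mono β (D + k) (2 * D - 1 + w + x) (by omega) hge
          rwa [show 2 * D - 1 + w + x + 1 = 2 * D + w + x by omega] at this
        have hn : 0 ≤ psi β (D + k) (2 * D - 1 + w + x) := psi_nonneg _ _ _ (by omega) (by omega)
        exact mul_le_mul (M26b_Gev_le D w x j k hk1) (mul_le_mul_of_nonneg_left hm hq1)
          (mul_nonneg hq1 hn) (M26b_Gh_nonneg D w x j k)
    have s2 : God D w x j k * (q1 β (D + k + 1) (D - k) * psi β (D + k + 1) (2 * D + w + x)) ≤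
        Gh D w x j k * (q1 β (D + k + 1) (D - k) * psi β (D + k + 1) (2 * D + w + x)) :=
      mul_le_mul_of_nonneg_right (M26b_God_le D w x j k hk1) (mul_nonneg hq2 hpsi)
    calc _ ≤ Gh D w x j k * (q1 β (D + k) (D - k) * psi β (D + k + 1) (2 * D + w + x)) +
          Gh D w x j k * (q1 β (D + k + 1) (D - k) * psi β (D + k + 1) (2 * D + w + x)) :=
          add_le_add s1 s2
      _ = M26b_phi D w x j β k * M26b_P D β k := by
          unfold M26b_phi M26b_P
          ring
  rw [mul_add, mul_add]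
  linarith

private theorem M26b_abel (D w x j β : ℕ) (hD : 3 ≤ D) (hβ : 3 ≤ β) :
    ∑ k ∈ Icc 1 (D - 2), M26b_phi D w x j β k * M26b_P D β k ≤
    ∑ k ∈ Icc 1 (D - 2), (Gh D w x j k * psi β (D + k + 1) (2 * D + w + x) -
      Gh D w x j (k - 1) * psi β (D + k) (2 * D + w + x)) * Rd (D - k) (D + k) := by
  have hphi0 : ∀ k, k + 2 ≤ D → 0 ≤ M26b_phi D w x j β k := by
    intro k hk
    unfold M26b_phi
    exact mul_nonneg (M26b_Gh_nonneg D w x j k) (psi_nonneg _ _ _ (by omega) (by omega))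
  have key := abel_tail 1 (D - 2) (by omega) (M26b_phi D w x j β) (M26b_P D β)
    (fun k => Rd (D - k) (D + k)) (hphi0 1 (by omega)) (by
      intro k hk1 hk2
      unfold M26b_phi
      have h1 : psi β (D + k + 1) (2 * D + w + x) ≤ psi β (D + (k + 1) + 1) (2 * D + w + x) := by
        have := psi_mono' β (D + k + 1) (2 * D + w + x) (by omega) (by omega)
        rwa [show D + k + 1 + 1 = D + (k + 1) + 1 by ring] at this
      exact mul_le_mul (M26b_Gh_mono D w x j k) h1 (psi_nonneg _ _ _ (by omega) (by omega))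
        (M26b_Gh_nonneg D w x j (k + 1))) (by
      intro k hk1 hk2
      have hl := line1 β D k (by omega) (by omega)
      refine le_trans ?_ hl
      apply Finset.sum_le_sum_of_subset_of_nonneg
      · intro i hi
        rw [Finset.mem_Icc] at hi
        rw [Finset.mem_Ico]
        omega
      · intro i _ _
        exact add_nonneg (q1_nonneg _ _ _) (q1_nonneg _ _ _))
  refine le_trans key (le_of_eq ?_)
  have hI : Icc 1 (D - 2) = insert 1 (Icc (1 + 1) (D - 2)) := by
    ext i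
    simp only [Finset.mem_Icc, Finset.mem_insert]
    omega
  rw [hI, Finset.sum_insert (by simp)]
  congr 1
  · have h0 : Gh D w x j (1 - 1) = 0 := by
      rw [show (1 - 1 : ℕ) = 0 from rfl, Gh]
    rw [h0, zero_mul, sub_zero]
    rfl
  · apply Finset.sum_congr rfl
    intro k hk
    rw [Finset.mem_Icc] at hk
    unfold M26b_phi
    rw [show D + (k - 1) + 1 = D + k by omega]

/-- `β = 2`: `q1_two`, `psi_two`.  `β ≥ 3`: both terms are at most
`Gh k * psi β (D+k+1) (2D+w+x) * (q1 + q1)`; for each `β` the factor is nondecreasing in `k`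
(`Gh` is a running maximum), so `abel_tail` with `line1`; the sum over `β` is `psi_sum`. -/
theorem Dc_bound (D w x j : ℕ) (hD : 2 ≤ D) :
    ∑ k ∈ Icc 1 (D - 2), (Gev D w x j k * q1s (D + k) (D - k) (2 * D - 1 + w + x) +
      God D w x j k * q1s (D + k + 1) (D - k) (2 * D + w + x)) ≤ Dc D w x j := by
  rcases Nat.lt_or_ge D 3 with h3 | h3
  · have : D = 2 := by omega
    subst this
    unfold Dc
    simp
  have step1 : ∑ k ∈ Icc 1 (D - 2), (Gev D w x j k * q1s (D + k) (D - k) (2 * D - 1 + w + x) +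
      God D w x j k * q1s (D + k + 1) (D - k) (2 * D + w + x)) ≤
      ∑ k ∈ Icc 1 (D - 2),
        ((Gev D w x j k * P2 (D - k) (2 * k) * (((D : ℝ) + k - 1) / (2 * D - 2 + w + x)) +
          God D w x j k * P2 (D - k) (2 * k + 1) * (((D : ℝ) + k) / (2 * D - 1 + w + x))) +
        ∑ β ∈ Icc 3 (2 * D - 1), M26b_phi D w x j β k * M26b_P D β k) := by
    apply Finset.sum_le_sum
    intro k hk
    rw [Finset.mem_Icc] at hk
    exact M26b_term D w x j k hk.1 (by omega)
  refine le_trans step1 ?_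
  rw [Finset.sum_add_distrib, Finset.sum_comm]
  have step2 : ∑ β ∈ Icc 3 (2 * D - 1), ∑ k ∈ Icc 1 (D - 2),
        M26b_phi D w x j β k * M26b_P D β k ≤
      ∑ k ∈ Icc 1 (D - 2), (Gh D w x j k * Ps (D + k + 1) (2 * D + w + x) -
        Gh D w x j (k - 1) * Ps (D + k) (2 * D + w + x)) * Rd (D - k) (D + k) := by
    have h1 : ∑ β ∈ Icc 3 (2 * D - 1), ∑ k ∈ Icc 1 (D - 2),
        M26b_phi D w x j β k * M26b_P D β k ≤
        ∑ β ∈ Icc 3 (2 * D - 1), ∑ k ∈ Icc 1 (D - 2),
          (Gh D w x j k * psi β (D + k + 1) (2 * D + w + x) -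
            Gh D w x j (k - 1) * psi β (D + k) (2 * D + w + x)) * Rd (D - k) (D + k) := by
      apply Finset.sum_le_sum
      intro β hβ
      rw [Finset.mem_Icc] at hβ
      exact M26b_abel D w x j β h3 hβ.1
    refine le_trans h1 (le_of_eq ?_)
    rw [Finset.sum_comm]
    apply Finset.sum_congr rfl
    intro k hk
    rw [Finset.mem_Icc] at hk
    rw [← Finset.sum_mul, Finset.sum_sub_distrib, ← Finset.mul_sum, ← Finset.mul_sum,
      M26b_psi_sum (D + k + 1) (2 * D + w + x) (2 * D - 1) (by omega) (by omega) (by omega),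
      M26b_psi_sum (D + k) (2 * D + w + x) (2 * D - 1) (by omega) (by omega) (by omega)]
  calc _ ≤ ∑ k ∈ Icc 1 (D - 2),
        (Gev D w x j k * P2 (D - k) (2 * k) * (((D : ℝ) + k - 1) / (2 * D - 2 + w + x)) +
          God D w x j k * P2 (D - k) (2 * k + 1) * (((D : ℝ) + k) / (2 * D - 1 + w + x))) +
      ∑ k ∈ Icc 1 (D - 2), (Gh D w x j k * Ps (D + k + 1) (2 * D + w + x) -
        Gh D w x j (k - 1) * Ps (D + k) (2 * D + w + x)) * Rd (D - k) (D + k) :=
        add_le_add le_rfl step2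
    _ = Dc D w x j := by
        unfold Dc
        rw [← Finset.sum_add_distrib]

end Pool.ADM
end

section

/-! job ADM-26c: the bounds `Dc`, `Hp` (Abel summation). -/

set_option autoImplicit false

namespace Pool.ADM

open Finset

/-! ### the case `β = 2`, no excess -/

private theorem M26c_suc_le (M : ℕ) : ∀ σ : S3, (∀ q ∈ σ, q.1 ≤ M) →
    ∀ x ∈ suc 0 σ, ∀ q ∈ x.2.2, q.1 ≤ M + 1
  | [], _ => by
      intro x hx q hq
      rw [suc, List.mem_singleton] at hx
      subst hx
      simp only [List.mem_singleton] at hq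
      subst hq
      exact Nat.le_add_left 1 M
  | F :: τ, h => by
      intro x hx q hq
      have hF : F.1 ≤ M := h F (by simp)
      have hτ : ∀ q ∈ τ, q.1 ≤ M := fun q hq => h q (by simp [hq])
      rw [suc, List.mem_cons, List.mem_cons] at hx
      rcases hx with rfl | rfl | hx
      · simp only [List.mem_cons] at hq
        rcases hq with rfl | hq
        · exact Nat.succ_le_succ hF
        · exact (hτ q hq).trans (Nat.le_succ M)
      · simp only [List.mem_cons] at hq
        rcases hq with rfl | hq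
        · exact Nat.succ_le_succ hF
        · exact (hτ q hq).trans (Nat.le_succ M)
      · rw [List.mem_map] at hx
        obtain ⟨y, hy, rfl⟩ := hx
        have hy' := M26c_suc_le M τ hτ y hy
        simp only at hq
        rcases hyl : y.2.2 with _ | ⟨G, ρ⟩
        · rw [hyl, glue3] at hq
          simp only [List.mem_singleton] at hq
          subst hq
          omega
        · rw [hyl] at hq hy'
          have hG : G.1 ≤ M + 1 := hy' G (by simp)
          rw [glue3] at hq
          split_ifs at hq with hc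
          · rw [List.mem_cons] at hq
            rcases hq with rfl | hq
            · exact hG
            · exact hy' q (by simp [hq])
          · rw [List.mem_cons] at hq
            rcases hq with rfl | hq
            · omega
            · exact hy' q hq

private theorem M26c_gna_zero (G : S3 → ℝ) (M : ℕ)
    (hG : ∀ ρ : S3, (∀ q ∈ ρ, q.1 ≤ M + 1) → G ρ = 0) (σ : S3) (hσ : ∀ q ∈ σ, q.1 ≤ M) :
    gna G σ = 0 := by
  unfold gna wsum
  apply List.sum_eq_zero
  intro y hy
  rw [List.mem_map] at hy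
  obtain ⟨x, hx, rfl⟩ := hy
  have h1 := hG x.2.2 (M26c_suc_le M σ hσ x hx)
  simp [h1]

private theorem M26c_iter_zero : ∀ (k : ℕ) (G : S3 → ℝ) (M : ℕ),
    (∀ ρ : S3, (∀ q ∈ ρ, q.1 ≤ M + k) → G ρ = 0) → ∀ σ : S3, (∀ q ∈ σ, q.1 ≤ M) →
    (gna^[k] G) σ = 0
  | 0, G, M, hG, σ, hσ => hG σ hσ
  | k + 1, G, M, hG, σ, hσ => by
      rw [Function.iterate_succ, Function.comp]
      apply M26c_iter_zero k (gna G) M _ σ hσ
      intro ρ hρ
      exact M26c_gna_zero G (M + k) (by rwa [add_assoc]) ρ hρ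

private theorem M26c_q2_zero (d : ℕ) : q2 2 d d = 0 := by
  unfold q2
  split_ifs with h
  · rfl
  · have h2d : 2 ≤ d := by omega
    have : Qn 2 (d - 2) (fun σ => if AL d σ then (lsz σ : ℝ) else 0) = 0 := by
      unfold Qn
      have h0 : (gna^[d - 2] (fun σ => if AL d σ then (lsz σ : ℝ) else 0))
          [(1, 1, 0), (1, 1, 0)] = 0 := by
        apply M26c_iter_zero (d - 2) _ 1
        · intro ρ hρ
          rw [if_neg]
          rintro ⟨h1, h2⟩
          obtain ⟨F, hF⟩ := List.exists_mem_of_ne_nil ρ h1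
          have e1 := h2 F hF
          have e2 := hρ F hF
          omega
        · intro q hq
          simp at hq
          subst hq
          exact le_refl 1
      simp only [PS, wsum, suc, hd, List.map_cons, List.map_nil, List.sum_cons, List.sum_nil,
        show 2 - 1 = 0 + 1 from rfl, List.cons_append, List.nil_append]
      rw [h0]
      simp
    rw [this, zero_div]

private theorem M26c_q2_two (D e : ℕ) (hD : 1 ≤ D) : q2 2 (D + e) D ≤ P2s D e := by
  rcases Nat.eq_zero_or_pos e with he | he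
  · subst he
    rw [add_zero, M26c_q2_zero]
    unfold P2s
    simp
  · exact q2_two D e hD he

/-! ### signs and monotonicity -/

private theorem M26c_rho_nonneg (a b : ℕ) : 0 ≤ rho a b := by
  unfold rho
  positivity

private theorem M26c_Hw_nonneg (w x J n d e : ℕ) (he : e ≤ n) : 0 ≤ Hw w x J n d e := by
  unfold Hw
  have h1 : (e : ℝ) ≤ n := by exact_mod_cast he
  have h2 : (0 : ℝ) ≤ ((n : ℝ) - e) / n := div_nonneg (by linarith) (Nat.cast_nonneg n)
  have h3 := M26c_rho_nonneg d (d + w)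
  have h4 : (0 : ℝ) ≤ max 0 (1 - rho (d + e) (d + w)) := le_max_left _ _
  positivity

private theorem M26c_Hh_nonneg (D w x J n par : ℕ) (hp : par ≤ n) :
    ∀ k, 0 ≤ Hh D w x J n par k
  | 0 => by
      rw [Hh]
      exact M26c_Hw_nonneg _ _ _ _ _ _ hp
  | k + 1 => by
      rw [Hh]
      exact le_trans (M26c_Hh_nonneg D w x J n par hp k) (le_max_left _ _)

private theorem M26c_Hh_mono (D w x J n par k : ℕ) :
    Hh D w x J n par k ≤ Hh D w x J n par (k + 1) := by
  rw [Hh]
  exact le_max_left _ _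

private theorem M26c_Hw_le (D w x J n par : ℕ) :
    ∀ k, Hw w x J n (D - 1 - k) (2 * k + par) ≤ Hh D w x J n par k
  | 0 => le_of_eq (by rw [Hh]; simp)
  | k + 1 => by
      rw [Hh]
      exact le_max_right _ _

private theorem M26c_psi_zero (β a m : ℕ) (ha : 1 ≤ a) (h : a < β) : psi β a m = 0 := by
  unfold psi
  apply Finset.prod_eq_zero (i := a)
  · rw [Finset.mem_Ico]; exact ⟨ha, h⟩
  · simp

private theorem M26c_psi_sum (a m B : ℕ) (ha : 2 ≤ a) (h : a < m) (hB : a ≤ B) :
    ∑ β ∈ Icc 3 B, psi β a m = Ps a m := by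
  rw [← psi_sum a m ha h]
  symm
  apply Finset.sum_subset
  · intro β hβ
    rw [Finset.mem_Icc] at *
    omega
  · intro β hβ hβ'
    rw [Finset.mem_Icc] at *
    apply M26c_psi_zero <;> omega

private theorem M26c_q2s_split (a D m B : ℕ) (ha : 2 ≤ a) (hB : a ≤ B) :
    q2s a D m = q2 2 a D * psi 2 a m + ∑ β ∈ Icc 3 B, q2 β a D * psi β a m := by
  unfold q2s
  have h1 : Icc 2 a = insert 2 (Icc 3 a) := by
    ext i
    simp only [Finset.mem_Icc, Finset.mem_insert]
    omega
  rw [h1, Finset.sum_insert (by simp)]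
  congr 1
  apply Finset.sum_subset
  · intro β hβ
    rw [Finset.mem_Icc] at *
    omega
  · intro β hβ hβ'
    rw [Finset.mem_Icc] at *
    have : a < β := by omega
    unfold q2
    rw [if_pos this, zero_mul]

/-- the factor of `β`. -/
private noncomputable def M26c_phi (D w x J n par β k : ℕ) : ℝ :=
  Hh D w x J n par k * psi β (D - 1 + k + par) n

private noncomputable def M26c_P (D par β k : ℕ) : ℝ :=
  q2 β (D - 1 + k + par) (D - 1 - k)

private theorem M26c_term (D w x J n par k : ℕ) (hp : par ≤ 1)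
    (hn : n = 2 * D - 2 + w + x + J + par) (hk : k + 3 ≤ D) :
    Hw w x J n (D - 1 - k) (2 * k + par) * q2s (D - 1 + k + par) (D - 1 - k) n ≤
    Hw w x J n (D - 1 - k) (2 * k + par) * P2s (D - 1 - k) (2 * k + par) *
        (((D : ℝ) - 2 + k + par) / ((n : ℝ) - 1)) +
    ∑ β ∈ Icc 3 (2 * D - 1), M26c_phi D w x J n par β k * M26c_P D par β k := by
  have hw0 : 0 ≤ Hw w x J n (D - 1 - k) (2 * k + par) := M26c_Hw_nonneg _ _ _ _ _ _ (by omega)
  have hhw := M26c_Hw_le D w x J n par k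
  rw [M26c_q2s_split (D - 1 + k + par) (D - 1 - k) n (2 * D - 1) (by omega) (by omega), mul_add]
  apply add_le_add
  · have e1 : q2 2 (D - 1 + k + par) (D - 1 - k) ≤ P2s (D - 1 - k) (2 * k + par) := by
      have := M26c_q2_two (D - 1 - k) (2 * k + par) (by omega)
      rwa [show D - 1 - k + (2 * k + par) = D - 1 + k + par by omega] at this
    have p1 : psi 2 (D - 1 + k + par) n = ((D : ℝ) - 2 + k + par) / ((n : ℝ) - 1) := by
      rw [psi_two]
      congr 1
      rw [Nat.cast_add, Nat.cast_add, Nat.cast_sub (by omega)]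
      push_cast
      ring
    have p1n : 0 ≤ psi 2 (D - 1 + k + par) n := psi_nonneg _ _ _ (by omega) (by omega)
    rw [← p1, mul_assoc]
    exact mul_le_mul_of_nonneg_left (mul_le_mul_of_nonneg_right e1 p1n) hw0
  · rw [Finset.mul_sum]
    apply Finset.sum_le_sum
    intro β hβ
    rw [Finset.mem_Icc] at hβ
    have hpsi : 0 ≤ psi β (D - 1 + k + par) n := psi_nonneg _ _ _ (by omega) (by omega)
    have hq := q2_nonneg β (D - 1 + k + par) (D - 1 - k)
    calc Hw w x J n (D - 1 - k) (2 * k + par) *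
          (q2 β (D - 1 + k + par) (D - 1 - k) * psi β (D - 1 + k + par) n) ≤
          Hh D w x J n par k *
          (q2 β (D - 1 + k + par) (D - 1 - k) * psi β (D - 1 + k + par) n) :=
          mul_le_mul_of_nonneg_right hhw (mul_nonneg hq hpsi)
      _ = M26c_phi D w x J n par β k * M26c_P D par β k := by
          unfold M26c_phi M26c_P
          ring

private theorem M26c_abel (D w x J n par β : ℕ) (hp : par ≤ 1)
    (hn : n = 2 * D - 2 + w + x + J + par) (hD : 3 ≤ D) (hβ : 3 ≤ β) :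
    ∑ k ∈ range (D - 2), M26c_phi D w x J n par β k * M26c_P D par β k ≤
    ∑ k ∈ range (D - 2), (Hh D w x J n par k * psi β (D - 1 + k + par) n -
      (if k = 0 then 0 else Hh D w x J n par (k - 1) * psi β (D - 2 + k + par) n)) *
        Rd (D - 1 - k) (D - 1 + k + par) := by
  have hI : range (D - 2) = Icc 0 (D - 3) := by
    ext i
    simp only [Finset.mem_Icc, Finset.mem_range]
    omega
  rw [hI]
  have hHh := M26c_Hh_nonneg D w x J n par (by omega)
  have key := abel_tail 0 (D - 3) (by omega) (M26c_phi D w x J n par β) (M26c_P D par β)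
    (fun k => Rd (D - 1 - k) (D - 1 + k + par)) (by
      unfold M26c_phi
      exact mul_nonneg (hHh 0) (psi_nonneg _ _ _ (by omega) (by omega))) (by
      intro k hk1 hk2
      unfold M26c_phi
      have h1 : psi β (D - 1 + k + par) n ≤ psi β (D - 1 + (k + 1) + par) n := by
        have := psi_mono' β (D - 1 + k + par) n (by omega) (by omega)
        rwa [show D - 1 + k + par + 1 = D - 1 + (k + 1) + par by ring] at this
      exact mul_le_mul (M26c_Hh_mono D w x J n par k) h1
        (psi_nonneg _ _ _ (by omega) (by omega)) (hHh (k + 1))) (by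
      intro k hk1 hk2
      have hl := line2 β (D - 1) k par (by omega) (by omega) hp
      refine le_trans ?_ hl
      apply Finset.sum_le_sum_of_subset_of_nonneg
      · intro i hi
        rw [Finset.mem_Icc] at hi
        rw [Finset.mem_Ico]
        omega
      · intro i _ _
        exact q2_nonneg _ _ _)
  refine le_trans key (le_of_eq ?_)
  have hI2 : Icc 0 (D - 3) = insert 0 (Icc (0 + 1) (D - 3)) := by
    ext i
    simp only [Finset.mem_Icc, Finset.mem_insert]
    omega
  rw [hI2, Finset.sum_insert (by simp)]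
  congr 1
  · rw [if_pos rfl, sub_zero]
    rfl
  · apply Finset.sum_congr rfl
    intro k hk
    rw [Finset.mem_Icc] at hk
    unfold M26c_phi
    rw [if_neg (by omega), show D - 1 + (k - 1) + par = D - 2 + k + par by omega]

/-- the same for the ties, with `line2` for `Dp = D - 1`. -/
theorem Hp_bound (D w x J n par : ℕ) (hD : 3 ≤ D) (hp : par ≤ 1)
    (hn : n = 2 * D - 2 + w + x + J + par) :
    ∑ k ∈ range (D - 2), Hw w x J n (D - 1 - k) (2 * k + par) *
      q2s (D - 1 + k + par) (D - 1 - k) n ≤ Hp D w x J n par := by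
  have step1 : ∑ k ∈ range (D - 2), Hw w x J n (D - 1 - k) (2 * k + par) *
      q2s (D - 1 + k + par) (D - 1 - k) n ≤
      ∑ k ∈ range (D - 2),
        (Hw w x J n (D - 1 - k) (2 * k + par) * P2s (D - 1 - k) (2 * k + par) *
          (((D : ℝ) - 2 + k + par) / ((n : ℝ) - 1)) +
        ∑ β ∈ Icc 3 (2 * D - 1), M26c_phi D w x J n par β k * M26c_P D par β k) := by
    apply Finset.sum_le_sum
    intro k hk
    rw [Finset.mem_range] at hk
    exact M26c_term D w x J n par k hp hn (by omega)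
  refine le_trans step1 ?_
  rw [Finset.sum_add_distrib, Finset.sum_comm]
  have step2 : ∑ β ∈ Icc 3 (2 * D - 1), ∑ k ∈ range (D - 2),
        M26c_phi D w x J n par β k * M26c_P D par β k ≤
      ∑ k ∈ range (D - 2), (Hh D w x J n par k * Ps (D - 1 + k + par) n -
        (if k = 0 then 0 else Hh D w x J n par (k - 1) * Ps (D - 2 + k + par) n)) *
          Rd (D - 1 - k) (D - 1 + k + par) := by
    have h1 : ∑ β ∈ Icc 3 (2 * D - 1), ∑ k ∈ range (D - 2),
        M26c_phi D w x J n par β k * M26c_P D par β k ≤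
        ∑ β ∈ Icc 3 (2 * D - 1), ∑ k ∈ range (D - 2),
          (Hh D w x J n par k * psi β (D - 1 + k + par) n -
            (if k = 0 then 0 else Hh D w x J n par (k - 1) * psi β (D - 2 + k + par) n)) *
              Rd (D - 1 - k) (D - 1 + k + par) := by
      apply Finset.sum_le_sum
      intro β hβ
      rw [Finset.mem_Icc] at hβ
      exact M26c_abel D w x J n par β hp hn hD hβ.1
    refine le_trans h1 (le_of_eq ?_)
    rw [Finset.sum_comm]
    apply Finset.sum_congr rfl
    intro k hk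
    rw [Finset.mem_range] at hk
    rw [← Finset.sum_mul, Finset.sum_sub_distrib, ← Finset.mul_sum,
      M26c_psi_sum (D - 1 + k + par) n (2 * D - 1) (by omega) (by omega) (by omega)]
    congr 2
    by_cases hk0 : k = 0
    · simp [hk0]
    · simp only [if_neg hk0]
      rw [← Finset.mul_sum,
        M26c_psi_sum (D - 2 + k + par) n (2 * D - 1) (by omega) (by omega) (by omega)]
  calc _ ≤ ∑ k ∈ range (D - 2),
        (Hw w x J n (D - 1 - k) (2 * k + par) * P2s (D - 1 - k) (2 * k + par) *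
          (((D : ℝ) - 2 + k + par) / ((n : ℝ) - 1))) +
      ∑ k ∈ range (D - 2), (Hh D w x J n par k * Ps (D - 1 + k + par) n -
        (if k = 0 then 0 else Hh D w x J n par (k - 1) * Ps (D - 2 + k + par) n)) *
          Rd (D - 1 - k) (D - 1 + k + par) :=
        add_le_add le_rfl step2
    _ = Hp D w x J n par := by
        unfold Hp
        rw [← Finset.sum_add_distrib]

end Pool.ADM
end

section

/-! job ADM-11b: decomposition of `(n+1) (V_{n+1} - C_{n+1})` into classes. -/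

set_option autoImplicit false

namespace Pool.ADM

open Finset

private theorem m11b_sz_append (B O : S3) : sz (B ++ O) = sz B + sz O := by
  unfold sz
  rw [List.map_append, List.sum_append]

private theorem m11b_cut_zero {G : S3 → S3 → S3 → ℝ} {σ : S3}
    (h : ∀ F B O, F ++ (B ++ O) = σ → G F B O = 0) :
    cutS σ (fun F V => cutS V fun B O => G F B O) = 0 := by
  have h0 : ∀ τ : S3, cutS τ (fun _ _ => (0 : ℝ)) = 0 := by
    intro τ
    have := cutS_mul τ 0 (fun _ _ => (0 : ℝ))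
    simpa using this
  rw [← h0 σ]
  refine cutS_congr σ _ _ fun F V hFV => ?_
  rw [← h0 V]
  refine cutS_congr V _ _ fun B O hBO => ?_
  exact h F B O (by rw [hBO, hFV])

private theorem m11b_AL_le {n D : ℕ} {F V : S3} (hσ : Vs 1 n (F ++ V)) (hF : AL D F) :
    D ≤ n := by
  obtain ⟨h1, h2⟩ := hF
  obtain ⟨q, hq⟩ := List.exists_mem_of_ne_nil F h1
  have h3 := hσ.pos q (List.mem_append_left _ hq)
  have h4 := h2 q hq
  have h5 : q.2.1 ≤ sz F := List.single_le_sum (by simp) _ (List.mem_map_of_mem hq)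
  have h6 := hσ.sum
  rw [m11b_sz_append] at h6
  omega

private theorem m11b_c0_zero {n : ℕ} {σ : S3} (hσ : Vs 1 n σ) {D a b x : ℕ}
    (h : n < a + b + x ∨ n < D) : c0 D a b x σ = 0 := by
  unfold c0
  refine m11b_cut_zero fun F B O hFBO => ?_
  rw [if_neg]
  rintro ⟨h1, h2, h3, h4, h5⟩
  have h6 := hσ.sum
  rw [← hFBO, m11b_sz_append, m11b_sz_append] at h6
  rcases h with h | h
  · omega
  · rw [← hFBO] at hσ
    have := m11b_AL_le hσ h1
    omega

private theorem m11b_c1_zero {n : ℕ} {σ : S3} (hσ : Vs 1 n σ) {D a b x : ℕ}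
    (h : n < a + b + x ∨ n < D) : c1 D a b x σ = 0 := by
  unfold c1
  refine m11b_cut_zero fun F B O hFBO => ?_
  split_ifs with h0
  · obtain ⟨h1, h2, h3, h4, h5⟩ := h0
    have h6 := hσ.sum
    rw [← hFBO, m11b_sz_append, m11b_sz_append] at h6
    rcases h with h | h
    · have h7 : lf F = 0 := by
        by_contra h8
        omega
      rw [h7]
      simp
    · rw [← hFBO] at hσ
      have := m11b_AL_le hσ h1
      omega
  · rfl

private theorem m11b_EM_zero (n : ℕ) {f : S3 → ℝ} (h : ∀ σ, Vs 1 n σ → f σ = 0) : EM n f = 0 := by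
  rw [EM_congr n f (fun _ => 0) h, EM_const]

private theorem m11b_EM_c0 (n : ℕ) {D a b x : ℕ} (hD : 2 ≤ D) (hb : 1 ≤ b) :
    EM n (c0 D a b x) = if a + b + x ≤ n then z0 D a b x * fi (n - (a + b + x)) else 0 := by
  split_ifs with h
  · refine leaf_lemma (c0 D a b x) (a + b + x) ?_ n h
    intro k σ _ hσ
    rw [er_c0 k σ hσ D a b x hD hb]
  · exact m11b_EM_zero n fun σ hσ => m11b_c0_zero hσ (Or.inl (by omega))

private theorem m11b_EM_c1 (n : ℕ) {D a b x : ℕ} (hD : 2 ≤ D) (hb : 1 ≤ b) :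
    EM n (c1 D a b x) = if a + b + x ≤ n then z1 D a b x * fi (n - (a + b + x)) else 0 := by
  split_ifs with h
  · refine leaf_lemma (c1 D a b x) (a + b + x) ?_ n h
    intro k σ _ hσ
    rw [er_c1 k σ hσ D a b x hD hb]
  · exact m11b_EM_zero n fun σ hσ => m11b_c1_zero hσ (Or.inl (by omega))

/-- one term -/
private theorem m11b_term (n : ℕ) {D a b x : ℕ} (hD : 2 ≤ D) (hb : 1 ≤ b) :
    (if a + b + x ≤ n + 1 then
      z0 D a b x * (((a : ℝ) + b - 1) * fi (n + 1 - (a + b + x)) - a * fm (n + 1 - (a + b + x))) +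
        z1 D a b x * (fi (n + 1 - (a + b + x)) - fm (n + 1 - (a + b + x)))
    else 0) =
      (((a : ℝ) + b - 1) * EM (n + 1) (c0 D a b x) + EM (n + 1) (c1 D a b x)) -
        ((a : ℝ) * EM n (c0 D a b x) + EM n (c1 D a b x)) := by
  rw [m11b_EM_c0 (n + 1) hD hb, m11b_EM_c1 (n + 1) hD hb, m11b_EM_c0 n hD hb, m11b_EM_c1 n hD hb]
  by_cases h1 : a + b + x ≤ n
  · have h2 : a + b + x ≤ n + 1 := by omega
    have h3 : fm (n + 1 - (a + b + x)) = fi (n - (a + b + x)) := by
      unfold fm fi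
      rw [if_neg (by omega)]
      congr 3
      omega
    rw [if_pos h1, if_pos h2, if_pos h1, if_pos h2, if_pos h2, h3]
    ring
  · rw [if_neg h1, if_neg h1]
    by_cases h2 : a + b + x ≤ n + 1
    · have h3 : n + 1 - (a + b + x) = 0 := by omega
      have h4 : fm 0 = 0 := by
        unfold fm
        rw [if_pos rfl]
      rw [if_pos h2, if_pos h2, if_pos h2, h3, h4]
      ring
    · rw [if_neg h2, if_neg h2, if_neg h2]
      ring

/-- the terms outside of the smaller box vanish -/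
private theorem m11b_box (n : ℕ) (hn : 1 ≤ n) (g : ℕ → ℕ → ℕ → ℕ → ℝ)
    (hg : ∀ D a b x, n < D ∨ n < a + b + x → g D a b x = 0) :
    ∑ D ∈ Icc 2 (n + 1), ∑ a ∈ Icc 1 (n + 1), ∑ b ∈ Icc 1 (n + 1), ∑ x ∈ range (n + 1 + 1),
        g D a b x =
      ∑ D ∈ Icc 2 n, ∑ a ∈ Icc 1 n, ∑ b ∈ Icc 1 n, ∑ x ∈ range (n + 1), g D a b x := by
  rw [Finset.sum_Icc_succ_top (by omega)]
  have h1 : ∑ a ∈ Icc 1 (n + 1), ∑ b ∈ Icc 1 (n + 1), ∑ x ∈ range (n + 1 + 1),
      g (n + 1) a b x = 0 :=
    Finset.sum_eq_zero fun a _ => Finset.sum_eq_zero fun b _ => Finset.sum_eq_zero fun x _ =>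
      hg _ _ _ _ (Or.inl (by omega))
  rw [h1, add_zero]
  refine Finset.sum_congr rfl fun D _ => ?_
  rw [Finset.sum_Icc_succ_top (by omega)]
  have h2 : ∑ b ∈ Icc 1 (n + 1), ∑ x ∈ range (n + 1 + 1), g D (n + 1) b x = 0 :=
    Finset.sum_eq_zero fun b _ => Finset.sum_eq_zero fun x _ => hg _ _ _ _ (Or.inr (by omega))
  rw [h2, add_zero]
  refine Finset.sum_congr rfl fun a _ => ?_
  rw [Finset.sum_Icc_succ_top (by omega)]
  have h3 : ∑ x ∈ range (n + 1 + 1), g D a (n + 1) x = 0 :=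
    Finset.sum_eq_zero fun x _ => hg _ _ _ _ (Or.inr (by omega))
  rw [h3, add_zero]
  refine Finset.sum_congr rfl fun b _ => ?_
  rw [Finset.sum_range_succ, hg D a b (n + 1) (Or.inr (by omega)), add_zero]

/-- From `ntf_ge`, `ntf_eq`, `leaf_lemma` with `er_c0`, `er_c1`; terms with `a + b + x > n + 1`
vanish. -/
theorem S1_le (n : ℕ) (hn : 1 ≤ n) :
    S1 (n + 1) ≤
      EM (n + 1) (ntf fun F B _ => ((sz F : ℝ) + sz B - 1) * ((lsz B : ℝ) * ((sz B : ℝ) + 1))) -
      EM n (ntf fun F B _ => (sz F : ℝ) * ((lsz B : ℝ) * ((sz B : ℝ) + 1))) := by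
  have h1 : S1 (n + 1) =
      (∑ D ∈ Icc 2 (n + 1), ∑ a ∈ Icc 1 (n + 1), ∑ b ∈ Icc 1 (n + 1), ∑ x ∈ range (n + 1 + 1),
        (((a : ℝ) + b - 1) * EM (n + 1) (c0 D a b x) + EM (n + 1) (c1 D a b x))) -
      ∑ D ∈ Icc 2 (n + 1), ∑ a ∈ Icc 1 (n + 1), ∑ b ∈ Icc 1 (n + 1), ∑ x ∈ range (n + 1 + 1),
        ((a : ℝ) * EM n (c0 D a b x) + EM n (c1 D a b x)) := by
    unfold S1
    simp only [← Finset.sum_sub_distrib]
    refine Finset.sum_congr rfl fun D hD => Finset.sum_congr rfl fun a _ =>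
      Finset.sum_congr rfl fun b hb => Finset.sum_congr rfl fun x _ => ?_
    exact m11b_term n (Finset.mem_Icc.1 hD).1 (Finset.mem_Icc.1 hb).1
  have h2 : ∑ D ∈ Icc 2 (n + 1), ∑ a ∈ Icc 1 (n + 1), ∑ b ∈ Icc 1 (n + 1),
      ∑ x ∈ range (n + 1 + 1),
        (((a : ℝ) + b - 1) * EM (n + 1) (c0 D a b x) + EM (n + 1) (c1 D a b x)) =
      EM (n + 1) (fun σ => ∑ D ∈ Icc 2 (n + 1), ∑ a ∈ Icc 1 (n + 1), ∑ b ∈ Icc 1 (n + 1),
        ∑ x ∈ range (n + 1 + 1), (((a : ℝ) + b - 1) * c0 D a b x σ + c1 D a b x σ)) := by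
    simp only [EM_sum, EM_add, EM_mul]
  have h3 : ∑ D ∈ Icc 2 (n + 1), ∑ a ∈ Icc 1 (n + 1), ∑ b ∈ Icc 1 (n + 1),
      ∑ x ∈ range (n + 1 + 1), ((a : ℝ) * EM n (c0 D a b x) + EM n (c1 D a b x)) =
      EM n (fun σ => ∑ D ∈ Icc 2 n, ∑ a ∈ Icc 1 n, ∑ b ∈ Icc 1 n,
        ∑ x ∈ range (n + 1), ((a : ℝ) * c0 D a b x σ + c1 D a b x σ)) := by
    rw [m11b_box n hn]
    · simp only [EM_sum, EM_add, EM_mul]
    · intro D a b x h
      have h4 : EM n (c0 D a b x) = 0 :=
        m11b_EM_zero n fun σ hσ => m11b_c0_zero hσ h.symm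
      have h5 : EM n (c1 D a b x) = 0 :=
        m11b_EM_zero n fun σ hσ => m11b_c1_zero hσ h.symm
      rw [h4, h5]
      ring
  rw [h1, h2, h3]
  refine sub_le_sub (EM_mono _ _ _ fun σ hσ => ntf_ge (n + 1) σ hσ) (le_of_eq ?_)
  exact EM_congr _ _ _ fun σ hσ => ntf_eq n σ hσ

end Pool.ADM
end

section

/-! job ADM-19a: `(D + 1 + w) z` is nondecreasing along the chain. -/

set_option autoImplicit false

namespace Pool.ADM

open Finset

private theorem M19a_sz_append (F V : S3) : sz (F ++ V) = sz F + sz V := by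
  simp [sz]

private theorem M19a_sz_cons (a : ℕ × ℕ × ℕ) (τ : S3) : sz (a :: τ) = a.2.1 + sz τ := by
  simp [sz]

private theorem M19a_lf_cons (a : ℕ × ℕ × ℕ) (τ : S3) : lf (a :: τ) = a.2.2 + lf τ := by
  simp [lf]

private theorem M19a_lf_le (β : S3) (h : ∀ r ∈ β, r.2.2 ≤ r.2.1) : lf β ≤ sz β := by
  induction β with
  | nil => simp [lf, sz]
  | cons a τ ih =>
    rw [M19a_lf_cons, M19a_sz_cons]
    have h1 := h a List.mem_cons_self
    have h2 := ih fun r hr => h r (List.mem_cons_of_mem _ hr)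
    omega

/-- a packet of level `h ≥ 2` has at least `h` letters that are not leaves -/
private theorem M19a_leaves {n : ℕ} {p : Pth} (h : VP 1 n p) :
    ∀ F ∈ hd p, 2 ≤ F.1 → F.1 + F.2.2 ≤ F.2.1 := by
  induction h with
  | nil => intro F hF; cases hF
  | @cons n p w h σ hp hw hs ih =>
    have hv : Vs 1 n (hd p) := hp.vs le_rfl
    show ∀ F ∈ σ, 2 ≤ F.1 → F.1 + F.2.2 ≤ F.2.1
    intro F hF h2
    rcases suc_cases 1 n (hd p) hv w h σ hs hw with
      ⟨_, _, e⟩ | ⟨h1, α, β, q, τ, u, e, hq, _, _, _, eρ, hu⟩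
    · rw [e] at hF
      rcases List.mem_append.1 hF with hF | hF
      · exact ih F hF h2
      · rw [List.mem_singleton] at hF
        subst hF
        exact absurd h2 (by norm_num)
    · rw [eρ] at hF
      rcases List.mem_append.1 hF with hF | hF
      · exact ih F (by rw [e]; simp [hF]) h2
      · rcases List.mem_cons.1 hF with rfl | hF
        · show h + 1 + (lf β + u) ≤ sz β + q.2.1 + 1
          have hmem : ∀ r ∈ β, r ∈ hd p := fun r hr => by rw [e]; simp [hr]
          have hβ' : lf β ≤ sz β := by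
            apply M19a_lf_le
            intro r hr
            rcases Nat.lt_or_ge r.1 2 with h3 | h3
            · have h4 := (hv.pos r (hmem r hr)).1
              have h5 := hv.one r (hmem r hr) (by omega)
              rw [h5]
            · exact (hv.big r (hmem r hr) h3).le
          have hqm : q ∈ hd p := by rw [e]; simp
          rcases Nat.lt_or_ge h 2 with h3 | h3
          · have h5 := hv.one q hqm (by omega)
            rw [h5] at hu ⊢
            rcases hu with ⟨hu, _⟩ | ⟨_, hu⟩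
            · have : u = 0 := by simpa using hu
              have : h = 1 := by omega
              simp only
              omega
            · exact absurd (by simpa using hu) hw
          · have h5 := ih q hqm (by omega)
            rcases hu with ⟨hu, _⟩ | ⟨hu, _⟩ <;> omega
        · exact ih F (by rw [e]; simp [hF]) h2

/-- on the states of `2D-1+w+x` letters `cp` is a class functional. -/
private theorem M19a_cp (D w x : ℕ) (hD : 2 ≤ D) {p : Pth} (hp : VP 1 (D + (D - 1 + w) + x) p) :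
    cp D (D - 1 + w) x (hd p) = cls D (D - 1) D (D - 1 + w) x
      (fun F B O => (fun _ : S3 => (1 : ℝ)) (zp F) * (if lf O = 0 then (ym B 0 : ℝ) else 0))
      (hd p) := by
  have hv := hp.vs le_rfl
  have hl := M19a_leaves hp
  unfold cp cls
  refine cutS_congr _ _ _ fun F V hFV => ?_
  refine cutS_congr _ _ _ fun B O hBO => ?_
  have hs := hv.sum
  rw [← hFV, ← hBO, M19a_sz_append, M19a_sz_append] at hs
  by_cases hL : F = [(D, D, 0)] ∧ AL (D - 1) B ∧ D - 1 + w ≤ sz B ∧ sz O = x + lf O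
  · rw [if_pos hL]
    obtain ⟨h1, h2, h3, h4⟩ := hL
    have h5 : sz F = D := by rw [h1]; simp [sz]
    have h6 : lf O = 0 := by omega
    have h7 : sz B = D - 1 + w := by omega
    have h8 : sz O = x := by omega
    have h9 : AL D F := by
      rw [h1]
      exact ⟨by simp, by simp⟩
    rw [if_pos ⟨h9, h5, h2, h7, h8⟩]
    show (ym B (sz B - (D - 1 + w)) : ℝ) = (1 : ℝ) * (if lf O = 0 then (ym B 0 : ℝ) else 0)
    rw [if_pos h6, h7, Nat.sub_self, one_mul]
  · rw [if_neg hL]
    by_cases hR : AL D F ∧ sz F = D ∧ AL (D - 1) B ∧ sz B = D - 1 + w ∧ sz O = x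
    · rw [if_pos hR]
      obtain ⟨h1, h2, h3, h4, h5⟩ := hR
      have h6 : lf O ≠ 0 := by
        intro h6
        apply hL
        refine ⟨?_, h3, h4.ge, by omega⟩
        cases F with
        | nil => exact absurd rfl h1.1
        | cons q τ =>
          have hmem : ∀ r ∈ q :: τ, r ∈ hd p := fun r hr => by
            rw [← hFV]; exact List.mem_append_left _ hr
          have hq : q.1 = D := h1.2 q List.mem_cons_self
          have hq2 := hl q (hmem q List.mem_cons_self) (by omega)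
          rw [M19a_sz_cons] at h2
          cases τ with
          | nil =>
            obtain ⟨q1, q2, q3⟩ := q
            simp only [sz, List.map_nil, List.sum_nil] at h2 hq hq2
            have e1 : q2 = D := by omega
            have e2 : q3 = 0 := by omega
            rw [hq, e1, e2]
          | cons r υ =>
            exfalso
            have hr : r.1 = D := h1.2 r (by simp)
            have hr2 := (hv.pos r (hmem r (by simp))).2
            rw [M19a_sz_cons] at h2
            omega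
      show (0 : ℝ) = (1 : ℝ) * (if lf O = 0 then (ym B 0 : ℝ) else 0)
      rw [if_neg h6, mul_zero]
    · rw [if_neg hR]

/-- mass formula for the pure cores (`mass_cls` with `a = D`; `K3_dn`; on states of
`2D-1+w+x` letters `cp` is a class functional: no leaves in `F` and `O`, `ym B 0`). -/
theorem zz_formula (D w x : ℕ) (hD : 2 ≤ D) :
    zz D w x = ((D - 1).factorial : ℝ) / ((2 * D - 1 + w + x).factorial : ℝ) *
      PS 1 (D - 1 + w) fun pB => PS 1 x fun pO =>
        (if AL (D - 1) (hd pB) then (if lf (hd pO) = 0 then (ym (hd pB) 0 : ℝ) else 0) else 0) *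
        (Jc (dn D) pB pO : ℝ) := by
  have hm : 2 * D - 1 + w + x = D + (D - 1 + w) + x := by omega
  have h1 : PS 1 (D + (D - 1 + w) + x) (fun p => cp D (D - 1 + w) x (hd p)) =
      PS 1 (D + (D - 1 + w) + x) (fun p => cls D (D - 1) D (D - 1 + w) x
        (fun F B O => (fun _ : S3 => (1 : ℝ)) (zp F) * (if lf O = 0 then (ym B 0 : ℝ) else 0))
        (hd p)) := PS_congr _ _ _ _ fun p hp => M19a_cp D w x hD hp
  have h2 := mass_cls D (D - 1) D (D - 1 + w) x (by omega) (by omega) le_rfl (by omega)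
    (fun _ : S3 => (1 : ℝ)) (fun B O => if lf O = 0 then (ym B 0 : ℝ) else 0)
  have h3 : (WtD (hd []) D : ℝ) = ((D - 1).factorial : ℝ) := by
    have : WtD (hd []) D = (D - 1).factorial := by
      unfold WtD
      have h4 : ∀ q ∈ Ico 1 D, q + below q (hd []) = q := by
        intro q _
        simp [below, hd]
      rw [prod_congr rfl h4]
      obtain ⟨E, rfl⟩ : ∃ E, D = E + 1 := ⟨D - 1, by omega⟩
      rw [Nat.add_sub_cancel]
      exact prod_Ico_id_eq_factorial E
    rw [this]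
  unfold zz EM
  rw [hm, h1, h2, Nat.sub_self, PS_zero]
  have h5 : top3 (hd []) ≤ D := Nat.zero_le _
  have h6 : (PS 1 (D - 1 + w) fun pB => PS 1 x fun pO =>
        (if top3 (hd []) ≤ D then (WtD (hd []) D : ℝ) * (fun _ : S3 => (1 : ℝ)) (join (hd []) D)
          else 0) *
        (if AL (D - 1) (hd pB) then (if lf (hd pO) = 0 then (ym (hd pB) 0 : ℝ) else 0) else 0) *
        (((VW pB pO).map (K3 (hts []) D)).sum : ℕ)) =
      (PS 1 (D - 1 + w) fun pB => ((D - 1).factorial : ℝ) * PS 1 x fun pO =>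
        (if AL (D - 1) (hd pB) then (if lf (hd pO) = 0 then (ym (hd pB) 0 : ℝ) else 0) else 0) *
        (Jc (dn D) pB pO : ℝ)) := by
    refine PS_congr _ _ _ _ fun pB hB => ?_
    rw [← PS_mul]
    refine PS_congr _ _ _ _ fun pO hO => ?_
    rw [if_pos h5, h3]
    have h7 : ((VW pB pO).map (K3 (hts []) D)).sum = Jc (dn D) pB pO := by
      unfold Jc
      congr 1
      refine List.map_congr_left fun ts h => ?_
      exact K3_dn D ts fun t ht => ((VW_mem (c := 1) le_rfl hB hO ts h).2 t ht).1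
    rw [h7]
    ring
  rw [h6, PS_mul]
  ring

theorem zz_nonneg (D w x : ℕ) : 0 ≤ zz D w x := by
  unfold zz
  refine EM_nonneg _ _ fun σ _ => ?_
  unfold cp
  refine cutS_nonneg _ _ fun F V _ => cutS_nonneg _ _ fun B O _ => ?_
  split_ifs
  · exact Nat.cast_nonneg _
  · exact le_rfl

/-- by computation of `EM 3`. -/
theorem zz_two : zz 2 0 0 = 2 / 3 := by
  unfold zz EM
  simp only [Nat.reduceMul, Nat.reduceSub, Nat.add_zero]
  norm_num [PS, wsum, suc, hd, glue3, cp, cutS, AL, sz, lf, ym, yk, lsz, llf, Nat.factorial]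

end Pool.ADM
end

section

/-! job ADM-11c: decomposition of `(n+1) (V_{n+1} - C_{n+1})` into classes. -/

set_option autoImplicit false

namespace Pool.ADM

open Finset

/-- a sum with at most one nonzero term -/
private theorem M11c_sum1 (s : Finset ℕ) (f : ℕ → ℝ) (c : ℕ) (h : ∀ i, i ≠ c → f i = 0) :
    ∑ i ∈ s, f i = if c ∈ s then f c else 0 := by
  split_ifs with hc
  · exact Finset.sum_eq_single_of_mem c hc fun i _ hi => h i hi
  · exact Finset.sum_eq_zero fun i hi => h i fun e => hc (e ▸ hi)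

private theorem M11c_sum4 (s1 s2 s3 s4 : Finset ℕ) (T : ℕ → ℕ → ℕ → ℕ → ℝ) (d0 a0 b0 x0 : ℕ)
    (h : ∀ d a b x, T d a b x ≠ 0 → d = d0 ∧ a = a0 ∧ b = b0 ∧ x = x0) :
    ∑ d ∈ s1, ∑ a ∈ s2, ∑ b ∈ s3, ∑ x ∈ s4, T d a b x =
      if d0 ∈ s1 then if a0 ∈ s2 then if b0 ∈ s3 then if x0 ∈ s4 then T d0 a0 b0 x0 else 0
        else 0 else 0 else 0 := by
  have hx : ∀ d a b, ∑ x ∈ s4, T d a b x = if x0 ∈ s4 then T d a b x0 else 0 := fun d a b =>
    M11c_sum1 s4 _ x0 fun i hi => by
      by_contra hc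
      exact hi (h _ _ _ _ hc).2.2.2
  have hb : ∀ d a, ∑ b ∈ s3, (∑ x ∈ s4, T d a b x) =
      if b0 ∈ s3 then (if x0 ∈ s4 then T d a b0 x0 else 0) else 0 := fun d a => by
    rw [M11c_sum1 s3 _ b0 fun i hi => ?_, hx]
    rw [hx]
    split_ifs
    · by_contra hc
      exact hi (h _ _ _ _ hc).2.2.1
    · rfl
  have ha : ∀ d, ∑ a ∈ s2, (∑ b ∈ s3, ∑ x ∈ s4, T d a b x) =
      if a0 ∈ s2 then if b0 ∈ s3 then (if x0 ∈ s4 then T d a0 b0 x0 else 0) else 0 else 0 :=
    fun d => by
    rw [M11c_sum1 s2 _ a0 fun i hi => ?_, hb]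
    rw [hb]
    split_ifs
    · by_contra hc
      exact hi (h _ _ _ _ hc).2.1
    · rfl
    · rfl
  rw [M11c_sum1 s1 _ d0 fun i hi => ?_, ha]
  rw [ha]
  split_ifs
  · by_contra hc
    exact hi (h _ _ _ _ hc).1
  · rfl
  · rfl
  · rfl

private theorem M11c_cut (σ : S3) (s1 s2 s3 s4 : Finset ℕ) (w : ℕ → ℕ → ℕ → ℕ → ℝ)
    (H : ℕ → ℕ → ℕ → ℕ → S3 → S3 → S3 → ℝ) :
    ∑ d ∈ s1, ∑ a ∈ s2, ∑ b ∈ s3, ∑ x ∈ s4,
      w d a b x * cutS σ (fun F V => cutS V fun B O => H d a b x F B O) =
    cutS σ fun F V => cutS V fun B O =>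
      ∑ d ∈ s1, ∑ a ∈ s2, ∑ b ∈ s3, ∑ x ∈ s4, w d a b x * H d a b x F B O := by
  simp only [cutS_sum, cutS_mul]

private theorem M11c_cut0 (σ : S3) : cutS σ (fun _ _ => (0 : ℝ)) = 0 := by
  have := cutS_mul σ 0 (fun _ _ => (0 : ℝ))
  simpa using this

private theorem M11c_sz_append (F V : S3) : sz (F ++ V) = sz F + sz V := by
  simp [sz]

private theorem M11c_top {D : ℕ} {F V σ : S3} (h : AL D F) (hs : F ++ V = σ) : D = top3 σ := by
  cases F with
  | nil => exact absurd rfl h.1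
  | cons q F' =>
    subst hs
    exact (h.2 q (by simp)).symm

private theorem M11c_pos {n D : ℕ} {F V W σ : S3} (hσ : Vs 1 n σ) (h : AL D F)
    (hs : W ++ (F ++ V) = σ) : 1 ≤ D ∧ D ≤ sz F := by
  cases F with
  | nil => exact absurd rfl h.1
  | cons q F' =>
    have h1 := h.2 q (by simp)
    have h2 := hσ.pos q (by rw [← hs]; simp)
    have h3 : sz (q :: F') = q.2.1 + sz F' := by simp [sz]
    omega

private noncomputable def M11c_w (n : ℕ) (_ a b x : ℕ) : ℝ :=
  if a + b + x = n then (x : ℝ) + 1 else 0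

private theorem M11c_w_nonneg (n d a b x : ℕ) : 0 ≤ M11c_w n d a b x := by
  unfold M11c_w
  split_ifs
  · positivity
  · exact le_rfl

/-- the functional of the ties -/
private noncomputable def M11c_T (σ : S3) : ℝ := cutS σ fun F V => cutS V fun B O =>
  if AL (top3 σ) F ∧ AL (top3 σ) B then ((sz O : ℝ) + 1) * ((lsz F : ℝ) * (lsz B : ℝ)) else 0

private theorem M11c_tie2 (n : ℕ) (σ : S3) (hσ : Vs 1 n σ) (ht : 2 ≤ top3 σ) :
    M11c_T σ ≤ ∑ D ∈ Icc 2 n, ∑ a ∈ Icc 1 n, ∑ b ∈ Icc 1 n, ∑ x ∈ range (n + 1),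
      M11c_w n D a b x * cls D D a b x (fun F B _ => (lsz F : ℝ) * (lsz B : ℝ)) σ := by
  unfold cls
  rw [M11c_cut σ _ _ _ _ (M11c_w n) (fun D a b x F B O =>
    if AL D F ∧ sz F = a ∧ AL D B ∧ sz B = b ∧ sz O = x then (lsz F : ℝ) * (lsz B : ℝ) else 0)]
  unfold M11c_T
  refine cutS_mono σ _ _ fun F V hFV => cutS_mono V _ _ fun B O hBO => ?_
  rw [M11c_sum4 _ _ _ _ _ (top3 σ) (sz F) (sz B) (sz O) ?_]
  · by_cases hAL : AL (top3 σ) F ∧ AL (top3 σ) B
    · have hsum := hσ.sum
      rw [← hFV, ← hBO, M11c_sz_append, M11c_sz_append] at hsum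
      have h1 := M11c_pos (W := []) hσ hAL.1 (by simpa using hFV)
      have h2 := M11c_pos (W := F) hσ hAL.2 (by rw [hBO]; exact hFV)
      have m1 : top3 σ ∈ Icc 2 n := Finset.mem_Icc.2 ⟨ht, by omega⟩
      have m2 : sz F ∈ Icc 1 n := Finset.mem_Icc.2 ⟨by omega, by omega⟩
      have m3 : sz B ∈ Icc 1 n := Finset.mem_Icc.2 ⟨by omega, by omega⟩
      have m4 : sz O ∈ range (n + 1) := Finset.mem_range.2 (by omega)
      rw [if_pos hAL, if_pos m1, if_pos m2, if_pos m3, if_pos m4,
        if_pos ⟨hAL.1, rfl, hAL.2, rfl, rfl⟩]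
      unfold M11c_w
      rw [if_pos (by omega)]
    · rw [if_neg hAL]
      have hnot : ¬ (AL (top3 σ) F ∧ sz F = sz F ∧ AL (top3 σ) B ∧ sz B = sz B ∧ sz O = sz O) :=
        fun h => hAL ⟨h.1, h.2.2.1⟩
      rw [if_neg hnot, mul_zero]
      simp
  · intro d a b x hne
    by_cases hc : AL d F ∧ sz F = a ∧ AL d B ∧ sz B = b ∧ sz O = x
    · exact ⟨M11c_top hc.1 hFV, hc.2.1.symm, hc.2.2.2.1.symm, hc.2.2.2.2.symm⟩
    · rw [if_neg hc, mul_zero] at hne
      exact absurd rfl hne

private theorem M11c_near (n : ℕ) (σ : S3) :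
    ∑ D ∈ Icc 2 n, ∑ a ∈ Icc 1 n, ∑ b ∈ Icc 1 n, ∑ x ∈ range (n + 1),
      M11c_w n D a b x * cls (D + 1) D (a + 1) b x
        (fun _ B _ => (lsz B : ℝ) * ((b : ℝ) + 1)) σ ≤
    ntf (fun _ B O => ((sz O : ℝ) + 1) * ((lsz B : ℝ) * ((sz B : ℝ) + 1))) σ := by
  unfold cls
  rw [M11c_cut σ _ _ _ _ (M11c_w n) (fun D a b x F B O =>
    if AL (D + 1) F ∧ sz F = a + 1 ∧ AL D B ∧ sz B = b ∧ sz O = x then
      (lsz B : ℝ) * ((b : ℝ) + 1) else 0)]
  have key : ∀ F V, F ++ V = σ → ∀ B O, B ++ O = V →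
      (∑ d ∈ Icc 2 n, ∑ a ∈ Icc 1 n, ∑ b ∈ Icc 1 n, ∑ x ∈ range (n + 1),
        M11c_w n d a b x *
          (if AL (d + 1) F ∧ sz F = a + 1 ∧ AL d B ∧ sz B = b ∧ sz O = x then
            (lsz B : ℝ) * ((b : ℝ) + 1) else 0)) ≤
      if top3 σ ≤ 1 then 0 else
        if AL (top3 σ) F ∧ AL (top3 σ - 1) B then
          ((sz O : ℝ) + 1) * ((lsz B : ℝ) * ((sz B : ℝ) + 1)) else 0 := by
    intro F V hFV B O hBO
    rw [M11c_sum4 _ _ _ _ _ (top3 σ - 1) (sz F - 1) (sz B) (sz O) ?_]
    · by_cases h1 : top3 σ ≤ 1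
      · have m1 : top3 σ - 1 ∉ Icc 2 n := fun h => by
          rw [Finset.mem_Icc] at h
          omega
        rw [if_neg m1, if_pos h1]
      · rw [if_neg h1]
        have e1 : top3 σ - 1 + 1 = top3 σ := by omega
        rw [e1]
        have hpos : (0 : ℝ) ≤ if AL (top3 σ) F ∧ AL (top3 σ - 1) B then
            ((sz O : ℝ) + 1) * ((lsz B : ℝ) * ((sz B : ℝ) + 1)) else 0 := by
          split_ifs
          · positivity
          · exact le_rfl
        by_cases hc : AL (top3 σ) F ∧ sz F = sz F - 1 + 1 ∧ AL (top3 σ - 1) B ∧ sz B = sz B ∧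
            sz O = sz O
        · rw [if_pos hc]
          rw [if_pos (show AL (top3 σ) F ∧ AL (top3 σ - 1) B from ⟨hc.1, hc.2.2.1⟩)] at hpos ⊢
          have hle : M11c_w n (top3 σ - 1) (sz F - 1) (sz B) (sz O) *
              ((lsz B : ℝ) * ((sz B : ℝ) + 1)) ≤
              ((sz O : ℝ) + 1) * ((lsz B : ℝ) * ((sz B : ℝ) + 1)) := by
            apply mul_le_mul_of_nonneg_right _ (by positivity)
            unfold M11c_w
            split_ifs
            · exact le_rfl
            · positivity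
          split_ifs <;> first | exact hle | exact hpos
        · rw [if_neg hc, mul_zero]
          simp only [ite_self]
          exact hpos
    · intro d a b x hne
      by_cases hc : AL (d + 1) F ∧ sz F = a + 1 ∧ AL d B ∧ sz B = b ∧ sz O = x
      · have h2 := M11c_top hc.1 hFV
        refine ⟨by omega, by omega, hc.2.2.2.1.symm, hc.2.2.2.2.symm⟩
      · rw [if_neg hc, mul_zero] at hne
        exact absurd rfl hne
  have h1 := cutS_mono σ _ _ fun F V hFV => cutS_mono V _ _ fun B O hBO => key F V hFV B O hBO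
  refine h1.trans (le_of_eq ?_)
  unfold ntf
  by_cases ht : top3 σ ≤ 1
  · simp only [ht, if_true, M11c_cut0]
  · simp only [ht, if_false]

private theorem M11c_cut_le (σ : S3) (G : S3 → S3 → ℝ) (c : ℝ)
    (h : ∀ B O, B ++ O = σ → G B O ≤ c) : cutS σ G ≤ ((σ.length : ℝ) + 1) * c := by
  induction σ generalizing G with
  | nil =>
    simp only [cutS, List.length_nil, Nat.cast_zero, zero_add, one_mul]
    exact h [] [] rfl
  | cons a σ ih =>
    have h1 := ih (fun B O => G (a :: B) O) fun B O hBO => h (a :: B) O (by rw [← hBO]; rfl)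
    have h2 := h [] (a :: σ) rfl
    simp only [cutS, List.length_cons]
    push_cast
    linarith

private theorem M11c_cut_le' (σ : S3) (G : S3 → S3 → ℝ) (c : ℝ) (hc : 0 ≤ c)
    (h : ∀ B O, B ++ O = σ → G B O ≤ c) (h0 : G [] σ ≤ 0) : cutS σ G ≤ (σ.length : ℝ) * c := by
  cases σ with
  | nil =>
    simp only [cutS, List.length_nil, Nat.cast_zero, zero_mul]
    exact h0
  | cons a σ =>
    have h1 := M11c_cut_le σ (fun B O => G (a :: B) O) c fun B O hBO =>
      h (a :: B) O (by rw [← hBO]; rfl)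
    simp only [cutS, List.length_cons]
    push_cast
    linarith

private theorem M11c_len {n : ℕ} {σ : S3} (hσ : Vs 1 n σ) : σ.length ≤ n := by
  rw [← hσ.sum]
  have : ∀ τ : S3, (∀ F ∈ τ, 1 ≤ F.1 ∧ F.1 ≤ F.2.1) → τ.length ≤ sz τ := by
    intro τ
    induction τ with
    | nil => intro _; simp [sz]
    | cons a τ ih =>
      intro h
      have h1 := h a (by simp)
      have h2 := ih fun F hF => h F (by simp [hF])
      have h3 : sz (a :: τ) = a.2.1 + sz τ := by simp [sz]
      rw [List.length_cons]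
      omega
  exact this σ hσ.pos

private theorem M11c_lsz_one {n : ℕ} {σ F V W : S3} (hσ : Vs 1 n σ) (h : AL 1 F)
    (hs : W ++ (F ++ V) = σ) : lsz F = 1 := by
  have h1 : F.getLastD (0, 0, 0) ∈ F := by
    rw [List.getLastD_eq_getLast?, List.getLast?_eq_getLast_of_ne_nil h.1, Option.getD_some]
    exact List.getLast_mem h.1
  have h2 := h.2 _ h1
  have h3 := hσ.one _ (by
    rw [← hs]
    exact List.mem_append_right _ (List.mem_append_left _ h1)) h2
  unfold lsz
  rw [h3]

private theorem M11c_tie1 (n : ℕ) (hn : 1 ≤ n) (σ : S3) (hσ : Vs 1 n σ) (ht : top3 σ ≤ 1) :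
    M11c_T σ ≤ (n : ℝ) ^ 3 := by
  have hn0 : (0 : ℝ) ≤ n := Nat.cast_nonneg n
  have hterm : ∀ F V, F ++ V = σ → ∀ B O, B ++ O = V →
      (if AL (top3 σ) F ∧ AL (top3 σ) B then
        ((sz O : ℝ) + 1) * ((lsz F : ℝ) * (lsz B : ℝ)) else 0) ≤ (n : ℝ) := by
    intro F V hFV B O hBO
    split_ifs with hAL
    · have hsum := hσ.sum
      rw [← hFV, ← hBO, M11c_sz_append, M11c_sz_append] at hsum
      have h1 := M11c_pos (W := []) hσ hAL.1 (by simpa using hFV)
      have ht1 : top3 σ = 1 := by omega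
      rw [ht1] at hAL
      have h2 := M11c_pos (W := F) hσ hAL.2 (by rw [hBO]; exact hFV)
      have e1 := M11c_lsz_one (W := []) hσ hAL.1 (by simpa using hFV)
      have e2 := M11c_lsz_one (W := F) hσ hAL.2 (by rw [hBO]; exact hFV)
      rw [e1, e2]
      have : sz O + 1 ≤ n := by omega
      have h3 : ((sz O : ℝ) + 1) ≤ n := by exact_mod_cast this
      simpa using h3
    · exact hn0
  have hin : ∀ F V, F ++ V = σ → (cutS V fun B O =>
      if AL (top3 σ) F ∧ AL (top3 σ) B then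
        ((sz O : ℝ) + 1) * ((lsz F : ℝ) * (lsz B : ℝ)) else 0) ≤ (n : ℝ) * n := by
    intro F V hFV
    have h1 := M11c_cut_le' V (fun B O => if AL (top3 σ) F ∧ AL (top3 σ) B then
        ((sz O : ℝ) + 1) * ((lsz F : ℝ) * (lsz B : ℝ)) else 0) n hn0
      (fun B O hBO => hterm F V hFV B O hBO) (by
        rw [if_neg]
        rintro ⟨_, h⟩
        exact h.1 rfl)
    have h2 : V.length ≤ n := by
      have := M11c_len hσ
      rw [← hFV, List.length_append] at this
      omega
    have h3 : (V.length : ℝ) ≤ n := by exact_mod_cast h2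
    exact h1.trans (mul_le_mul_of_nonneg_right h3 hn0)
  have h4 := M11c_cut_le' σ (fun F V => cutS V fun B O =>
      if AL (top3 σ) F ∧ AL (top3 σ) B then
        ((sz O : ℝ) + 1) * ((lsz F : ℝ) * (lsz B : ℝ)) else 0) ((n : ℝ) * n) (by positivity)
    (fun F V hFV => hin F V hFV) (by
      have : (fun B O => if AL (top3 σ) [] ∧ AL (top3 σ) B then
          ((sz O : ℝ) + 1) * ((lsz [] : ℝ) * (lsz B : ℝ)) else 0) = fun _ _ => (0 : ℝ) := by
        funext B O
        rw [if_neg]
        rintro ⟨h, _⟩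
        exact h.1 rfl
      simp only [this, M11c_cut0]
      exact le_rfl)
  have h5 : (σ.length : ℝ) ≤ n := by exact_mod_cast M11c_len hσ
  unfold M11c_T
  refine h4.trans ?_
  calc (σ.length : ℝ) * ((n : ℝ) * n) ≤ (n : ℝ) * ((n : ℝ) * n) :=
        mul_le_mul_of_nonneg_right h5 (by positivity)
    _ = (n : ℝ) ^ 3 := by ring

private theorem M11c_cls_nonneg (D D' a b x : ℕ) (g : S3 → S3 → S3 → ℝ)
    (hg : ∀ F B O, 0 ≤ g F B O) (σ : S3) : 0 ≤ cls D D' a b x g σ := by
  unfold cls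
  refine cutS_nonneg σ _ fun F V _ => cutS_nonneg V _ fun B O _ => ?_
  split_ifs
  · exact hg F B O
  · exact le_rfl

/-- probability of the all-ones state -/
private theorem M11c_ones (n : ℕ) :
    EM n (fun σ => if top3 σ ≤ 1 then (1 : ℝ) else 0) ≤ 1 / (n.factorial : ℝ) := by
  induction n with
  | zero =>
    unfold EM
    rw [PS_zero]
    simp [hd, top3]
  | succ n ih =>
    rw [EM_succ]
    have h1 : EM n (fun σ => wsum (suc 1 σ) fun _ ρ => if top3 ρ ≤ 1 then (1 : ℝ) else 0) ≤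
        EM n (fun σ => if top3 σ ≤ 1 then (1 : ℝ) else 0) := by
      refine EM_mono n _ _ fun σ hσ => ?_
      have h2 : wsum (suc 1 σ) (fun _ ρ => if top3 ρ ≤ 1 then (1 : ℝ) else 0) ≤
          wsum (suc 1 σ) (fun h ρ => if h = 0 then (if top3 ρ ≤ 1 then (1 : ℝ) else 0) else 0) := by
        refine wsum_mono _ _ _ fun x hx hx0 => ?_
        have h3 := suc_top 1 n σ hσ x hx hx0
        by_cases h4 : x.2.1 = 0
        · rw [if_pos h4]
        · rw [if_neg h4, if_neg]
          omega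
      rw [suc_append 1 n σ hσ (fun ρ => if top3 ρ ≤ 1 then (1 : ℝ) else 0)] at h2
      refine h2.trans ?_
      cases σ with
      | nil => simp [top3]
      | cons F τ =>
        have e : top3 (F :: τ ++ [(1, 1, 1)]) = top3 (F :: τ) := rfl
        rw [e]
    have h5 : (0 : ℝ) < (n : ℝ) + 1 := by positivity
    calc _ ≤ (1 / (n.factorial : ℝ)) / ((n : ℝ) + 1) :=
          div_le_div_of_nonneg_right (h1.trans ih) h5.le
      _ = 1 / ((n + 1).factorial : ℝ) := by
        rw [Nat.factorial_succ]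
        push_cast
        rw [div_div, mul_comm]

private theorem M11c_EM4 (m n : ℕ) (f : ℕ → ℕ → ℕ → ℕ → S3 → ℝ) :
    EM m (fun σ => ∑ D ∈ Icc 2 n, ∑ a ∈ Icc 1 n, ∑ b ∈ Icc 1 n, ∑ x ∈ range (n + 1),
      M11c_w n D a b x * f D a b x σ) =
    ∑ D ∈ Icc 2 n, ∑ a ∈ Icc 1 n, ∑ b ∈ Icc 1 n, ∑ x ∈ range (n + 1),
      M11c_w n D a b x * EM m (f D a b x) := by
  simp only [EM_sum, EM_mul]

/-- the near ties at time `n+1` against the ties at time `n`: decompose both in classes `Vm`, `Xm`,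
use `Vm_carry` and drop the other classes; the all-ones state (probability `1/n!`) has
`∑ (x+1) X ≤ n^3`. -/
theorem S2_ge (n : ℕ) (hn : 1 ≤ n) :
    -(S2 n) - (n : ℝ) ^ 3 / (n.factorial : ℝ) ≤
      EM (n + 1) (ntf fun _ B O => ((sz O : ℝ) + 1) * ((lsz B : ℝ) * ((sz B : ℝ) + 1))) -
      EM n (fun σ => cutS σ fun F V => cutS V fun B O =>
        if AL (top3 σ) F ∧ AL (top3 σ) B then ((sz O : ℝ) + 1) * ((lsz F : ℝ) * (lsz B : ℝ)) else 0)
      := by
  -- ties
  have hT : EM n M11c_T ≤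
      (∑ D ∈ Icc 2 n, ∑ a ∈ Icc 1 n, ∑ b ∈ Icc 1 n, ∑ x ∈ range (n + 1),
        M11c_w n D a b x * Xm D a b x) + (n : ℝ) ^ 3 / (n.factorial : ℝ) := by
    have h1 : EM n M11c_T ≤ EM n (fun σ =>
        (∑ D ∈ Icc 2 n, ∑ a ∈ Icc 1 n, ∑ b ∈ Icc 1 n, ∑ x ∈ range (n + 1),
          M11c_w n D a b x * cls D D a b x (fun F B _ => (lsz F : ℝ) * (lsz B : ℝ)) σ) +
        (n : ℝ) ^ 3 * (if top3 σ ≤ 1 then (1 : ℝ) else 0)) := by
      refine EM_mono n _ _ fun σ hσ => ?_
      have hnn : 0 ≤ ∑ D ∈ Icc 2 n, ∑ a ∈ Icc 1 n, ∑ b ∈ Icc 1 n, ∑ x ∈ range (n + 1),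
          M11c_w n D a b x * cls D D a b x (fun F B _ => (lsz F : ℝ) * (lsz B : ℝ)) σ := by
        refine Finset.sum_nonneg fun D _ => Finset.sum_nonneg fun a _ =>
          Finset.sum_nonneg fun b _ => Finset.sum_nonneg fun x _ =>
            mul_nonneg (M11c_w_nonneg n D a b x) (M11c_cls_nonneg _ _ _ _ _ _ ?_ σ)
        intro F B O
        positivity
      by_cases ht : top3 σ ≤ 1
      · rw [if_pos ht, mul_one]
        have := M11c_tie1 n hn σ hσ ht
        linarith
      · rw [if_neg ht, mul_zero, add_zero]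
        exact M11c_tie2 n σ hσ (by omega)
    refine h1.trans ?_
    rw [EM_add, EM_mul, M11c_EM4]
    refine add_le_add (le_of_eq ?_) ?_
    · refine Finset.sum_congr rfl fun D _ => Finset.sum_congr rfl fun a _ =>
        Finset.sum_congr rfl fun b _ => Finset.sum_congr rfl fun x _ => ?_
      by_cases h : a + b + x = n
      · subst h
        rfl
      · unfold M11c_w
        rw [if_neg h, zero_mul, zero_mul]
    · have := mul_le_mul_of_nonneg_left (M11c_ones n) (show (0 : ℝ) ≤ (n : ℝ) ^ 3 by positivity)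
      rw [mul_one_div] at this
      exact this
  -- near ties
  have hV : ∑ D ∈ Icc 2 n, ∑ a ∈ Icc 1 n, ∑ b ∈ Icc 1 n, ∑ x ∈ range (n + 1),
        M11c_w n D a b x * Vm (D + 1) (a + 1) b x ≤
      EM (n + 1) (ntf fun _ B O => ((sz O : ℝ) + 1) * ((lsz B : ℝ) * ((sz B : ℝ) + 1))) := by
    have h1 := EM_mono (n + 1) _ _ fun σ _ => M11c_near n σ
    rw [M11c_EM4] at h1
    refine le_trans (le_of_eq ?_) h1
    refine Finset.sum_congr rfl fun D _ => Finset.sum_congr rfl fun a _ =>
      Finset.sum_congr rfl fun b _ => Finset.sum_congr rfl fun x _ => ?_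
    by_cases h : a + b + x = n
    · have h2 : n + 1 = a + 1 + b + x := by omega
      rw [h2]
      rfl
    · unfold M11c_w
      rw [if_neg h, zero_mul, zero_mul]
  -- compare
  have hC : (∑ D ∈ Icc 2 n, ∑ a ∈ Icc 1 n, ∑ b ∈ Icc 1 n, ∑ x ∈ range (n + 1),
        M11c_w n D a b x * Xm D a b x) - S2 n ≤
      ∑ D ∈ Icc 2 n, ∑ a ∈ Icc 1 n, ∑ b ∈ Icc 1 n, ∑ x ∈ range (n + 1),
        M11c_w n D a b x * Vm (D + 1) (a + 1) b x := by
    unfold S2
    rw [← Finset.sum_sub_distrib]
    refine Finset.sum_le_sum fun D hD => ?_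
    rw [← Finset.sum_sub_distrib]
    refine Finset.sum_le_sum fun a ha => ?_
    rw [← Finset.sum_sub_distrib]
    refine Finset.sum_le_sum fun b hb => ?_
    rw [← Finset.sum_sub_distrib]
    refine Finset.sum_le_sum fun x _ => ?_
    rw [Finset.mem_Icc] at hD ha hb
    unfold M11c_w
    by_cases h : a + b + x = n
    · rw [if_pos h, if_pos h]
      have hX := Xm_nonneg D a b x
      have hVn := Vm_nonneg (D + 1) (a + 1) b x
      have hx : (0 : ℝ) < (x : ℝ) + 1 := by positivity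
      by_cases hDa : D ≤ a
      · have h1 := Vm_carry D a b x (by omega) hDa hb.1
        have h2 : (1 - rho a b) ≤ max 0 (1 - rho a b) := le_max_right _ _
        have h3 := mul_le_mul_of_nonneg_right h2 hX
        have h4 : Xm D a b x - max 0 (1 - rho a b) * Xm D a b x ≤ Vm (D + 1) (a + 1) b x := by
          linarith
        have h5 := mul_le_mul_of_nonneg_left h4 hx.le
        linarith
      · have h1 : Xm D a b x = 0 := Xm_zero D a b x (Or.inl (by omega)) (by omega)
        rw [h1]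
        have : 0 ≤ ((x : ℝ) + 1) * Vm (D + 1) (a + 1) b x := mul_nonneg hx.le hVn
        linarith
    · rw [if_neg h, if_neg h]
      simp
  have hT' : EM n (fun σ => cutS σ fun F V => cutS V fun B O =>
        if AL (top3 σ) F ∧ AL (top3 σ) B then ((sz O : ℝ) + 1) * ((lsz F : ℝ) * (lsz B : ℝ)) else 0)
      = EM n M11c_T := rfl
  rw [hT']
  linarith

end Pool.ADM
end

section

/-! job ADM-19b: `(D + 1 + w) z` is nondecreasing along the chain. -/

set_option autoImplicit false

namespace Pool.ADM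

open Finset

/-- the marks: one more hit of the last packet (`u_l` leaf letters, `s_l - u_l` others). -/
theorem yk_ineq (sl ul b u : ℕ) (hs : 1 ≤ sl) (hul : ul ≤ sl) (hu : ul ≤ u) (hb : sl ≤ b)
    (hub : u ≤ b) (hr : u - ul ≤ b - sl) :
    (b + 2) * yk sl ul b u 0 ≤
      ul * yk (b + 1) (u - 1) (b + 1) (u - 1) 0 + (sl - ul) * yk (b + 1) u (b + 1) u 0 := by
  rcases Nat.lt_or_ge 2 u with h3 | h3
  · have : yk sl ul b u 0 = 0 := by
      unfold yk
      rw [if_neg (by omega), if_neg (by omega), if_neg (by omega)]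
    rw [this]; simp
  · obtain ⟨t, rfl⟩ : ∃ t, sl = ul + t := ⟨sl - ul, by omega⟩
    have e1 : ul + t - ul = t := by omega
    interval_cases u
    · have : ul = 0 := by omega
      subst this
      simp [yk]
      nlinarith
    · simp only [yk, e1]
      obtain ⟨c, rfl⟩ : ∃ c, b = c + 1 := ⟨b - 1, by omega⟩
      simp
      nlinarith [Nat.zero_le (t * c), Nat.zero_le (ul * c)]
    · simp only [yk, e1]
      obtain ⟨c, rfl⟩ : ∃ c, b = c + 2 := ⟨b - 2, by omega⟩
      simp
      nlinarith [Nat.zero_le (t * c), Nat.zero_le (ul * c)]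

end Pool.ADM
end
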