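import Pool.Agent.Lib.MP_ad84ff_coM.M01
import Pool.Agent.Lib.MP_ad84ff_coM.M09
import Pool.Agent.Lib.MP_ad84ff_coM.M07
import Pool.Agent.Lib.MP_ad84ff_coM.N12c

section

/-! job ADM-21a: the masses of the classes with excess `e = a - D` against the pure classes. -/

set_option autoImplicit false

namespace Pool.ADM

open Finset

/-- index of the last append -/
def la : Pth → ℕ
  | [] => 0
  | x :: p => if x.1 = 0 then p.length + 1 else la p

private theorem m21a_last3 (n : ℕ) (σ : S3) (hσ : Vs 0 n σ) (hne : σ ≠ []) : 1 ≤ last3 σ := by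
  unfold last3
  rw [List.getLastD_eq_getLast?, List.getLast?_eq_some_getLast hne]
  exact (hσ.pos _ (List.getLast_mem hne)).1

private theorem m21a_N2_zero {n : ℕ} {p : Pth} (hp : VP 0 n p) : N2 p [] = 1 := by
  induction hp with
  | nil => unfold N2; rfl
  | cons hp hw hs ih => unfold N2; exact ih

private theorem m21a_N2_cons (x : ℕ × S3) (p : Pth) (L : ℕ) (h1 : 1 ≤ last3 x.2) :
    N2 (x :: p) (List.replicate (L + 1) 1) =
      (if x.1 = 0 then 0 else N2 p (List.replicate (L + 1) 1)) +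
        N2 (x :: p) (List.replicate L 1) := by
  rw [List.replicate_succ]
  conv_lhs => unfold N2
  rw [if_pos h1]

/-- the letters `V` come after the last append of `F` and after the first letter. -/
theorem N2_ones (a : ℕ) (p : Pth) (hp : VP 0 a p) (ha : 1 ≤ a) (L : ℕ) :
    1 ≤ la p ∧ la p ≤ a ∧ N2 p (List.replicate L 1) = (L + a - la p).choose L := by
  induction hp generalizing L with
  | nil => omega
  | @cons n p w h σ hp hw hs ih =>
    have hlen : p.length = n := hp.length
    have hvs : Vs 0 n (hd p) := hp.vs (by omega)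
    have hvs' : Vs 0 (n + 1) σ := suc_vs 0 n (by omega) _ hvs _ hs hw
    have hne : σ ≠ [] := (suc_top 0 n _ hvs _ hs hw).2.2.2
    have hl : 1 ≤ last3 σ := m21a_last3 _ _ hvs' hne
    by_cases h0 : h = 0
    · have e1 : la ((h, σ) :: p) = n + 1 := by
        show (if h = 0 then p.length + 1 else la p) = n + 1
        rw [if_pos h0, hlen]
      rw [e1]
      refine ⟨by omega, le_rfl, ?_⟩
      have key : ∀ L : ℕ, N2 ((h, σ) :: p) (List.replicate L 1) = 1 := by
        intro L
        induction L with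
        | zero => exact m21a_N2_zero (VP.cons hp hw hs)
        | succ L ihL =>
          rw [m21a_N2_cons (h, σ) p L hl, ihL]
          show (if h = 0 then 0 else _) + 1 = 1
          rw [if_pos h0]
      rw [key L, Nat.add_sub_cancel, Nat.choose_self]
    · have hn : 1 ≤ n := by
        rcases Nat.eq_zero_or_pos n with h00 | h00
        · exfalso
          subst h00
          have hp0 : p = [] := List.length_eq_zero_iff.1 hlen
          subst hp0
          have hs' : (w, h, σ) ∈ [(1, 0, [(1, 1, 0)])] := hs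
          rw [List.mem_singleton] at hs'
          apply h0
          injection hs' with h1 h2
          injection h2 with h3 h4
        · exact h00
      have e1 : la ((h, σ) :: p) = la p := by
        show (if h = 0 then p.length + 1 else la p) = la p
        rw [if_neg h0]
      rw [e1]
      have i1 := (ih hn 0).1
      have i2 := (ih hn 0).2.1
      refine ⟨i1, by omega, ?_⟩
      have ih3 : ∀ L : ℕ, N2 p (List.replicate L 1) = (L + n - la p).choose L :=
        fun L => (ih hn L).2.2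
      have key : ∀ L : ℕ, N2 ((h, σ) :: p) (List.replicate L 1) =
          (L + (n + 1) - la p).choose L := by
        intro L
        induction L with
        | zero =>
          rw [Nat.choose_zero_right]
          exact m21a_N2_zero (VP.cons hp hw hs)
        | succ L ihL =>
          rw [m21a_N2_cons (h, σ) p L hl, ihL]
          show (if h = 0 then 0 else _) + _ = _
          rw [if_neg h0, ih3 (L + 1)]
          have e2 : L + 1 + n - la p = L + (n + 1) - la p := by omega
          have e3 : L + 1 + (n + 1) - la p = (L + (n + 1) - la p) + 1 := by omega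
          rw [e2, e3, Nat.choose_succ_succ, Nat.succ_eq_add_one, add_comm]
      exact key L

private theorem m21a_append (f : S3 → ℝ) (σ : S3) (h1 : σ.Pairwise fun F G => G.1 ≤ F.1)
    (h2 : ∀ F ∈ σ, 1 ≤ F.1) :
    wsum (suc 0 σ) (fun h ρ => if h = 0 then f ρ else 0) = f (σ ++ [(1, 1, 0)]) := by
  induction σ generalizing f with
  | nil =>
    show wsum [(1, 0, [(1, 1, 0)])] _ = _
    rw [wsum_cons, wsum_nil]
    simp
  | cons F τ ih =>
    have hF : F.1 ≠ 0 := by
      have := h2 F (List.mem_cons_self)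
      omega
    rw [wsum_suc_cons, if_neg hF, if_neg hF, mul_zero, mul_zero, zero_add, zero_add]
    have h3 := ih (fun ρ => f (glue3 F ρ)) (List.Pairwise.of_cons h1)
      (fun G hG => h2 G (List.mem_cons_of_mem _ hG))
    rw [h3]
    congr 1
    cases τ with
    | nil =>
      show (if (1 : ℕ) = F.1 + 1 then _ else _) = _
      rw [if_neg (by omega)]
      rfl
    | cons G τ =>
      have h4 : G.1 ≤ F.1 := (List.pairwise_cons.1 h1).1 G (List.mem_cons_self)
      show (if G.1 = F.1 + 1 then _ else _) = _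
      rw [if_neg (by omega)]
      rfl

private theorem m21a_step (a : ℕ) (φ : ℕ → ℝ) (G : S3 → ℝ) :
    PS 0 (a + 1) (fun p => φ (la p) * G (hd p)) =
      φ (a + 1) * Qn (a + 1) 0 G + PS 0 a (fun p => φ (la p) * gna G (hd p)) := by
  have e1 : Qn (a + 1) 0 G = PS 0 a fun p => G (hd p ++ [(1, 1, 0)]) := rfl
  rw [e1, PS_succ, ← PS_mul, ← PS_add]
  apply PS_congr
  intro p hp
  have hvs : Vs 0 a (hd p) := hp.vs (by omega)
  rw [← m21a_append G (hd p) hvs.anti (fun F hF => (hvs.pos F hF).1)]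
  unfold gna
  rw [← wsum_mul, ← wsum_mul, ← wsum_add]
  apply wsum_congr
  intro x hx hx0
  show φ (if x.2.1 = 0 then p.length + 1 else la p) * G x.2.2 = _
  rw [hp.length]
  by_cases h0 : x.2.1 = 0
  · rw [if_pos h0, if_pos h0, if_pos h0]
    ring
  · rw [if_neg h0, if_neg h0, if_neg h0]
    ring

/-- decomposition by the last append. -/
theorem PS_la (a : ℕ) (ha : 1 ≤ a) (φ : ℕ → ℝ) (G : S3 → ℝ) :
    PS 0 a (fun p => φ (la p) * G (hd p)) = ∑ β ∈ Icc 1 a, φ β * Qn β (a - β) G := by
  obtain ⟨a, rfl⟩ : ∃ k, a = k + 1 := ⟨a - 1, by omega⟩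
  clear ha
  induction a generalizing G with
  | zero =>
    rw [m21a_step]
    have h1 : PS 0 0 (fun p => φ (la p) * gna G (hd p)) = 0 := by
      rw [PS_zero]
      show φ 0 * wsum [(1, 0, [(1, 1, 0)])] _ = 0
      rw [wsum_cons, wsum_nil]
      simp
    rw [h1]
    simp
  | succ a ih =>
    rw [m21a_step, ih, Finset.sum_Icc_succ_top (by omega : 1 ≤ a + 1 + 1), add_comm]
    congr 1
    · apply Finset.sum_congr rfl
      intro β hβ
      rw [Finset.mem_Icc] at hβ
      have e1 : a + 1 + 1 - β = (a + 1 - β) + 1 := by omega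
      rw [e1]
      rfl
    · rw [Nat.sub_self]

end Pool.ADM
end

section

/-! job ADM-21b: the masses of the classes with excess `e = a - D` against the pure classes. -/

set_option autoImplicit false

namespace Pool.ADM

open Finset

/-- `fd_path` with `ts = 1^L` and `G σ = if AL D σ then γ σ else 0` (only the term `D` survives,
`join_AL`), `N2_ones`, `PS_la`. -/
theorem fonly (a D L : ℕ) (hD : 1 ≤ D) (ha : D ≤ a) (γ : S3 → ℝ) :
    PS 0 (a - D) (fun χ =>
      (if top3 (hd χ) ≤ D then (WtD (hd χ) D : ℝ) * γ (join (hd χ) D) else 0) *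
        (K3 (hts χ) D (List.replicate L 1) : ℝ)) =
      ∑ β ∈ Icc 1 a, ((L + a - β).choose L : ℝ) *
        Qn β (a - β) (fun σ => if AL D σ then γ σ else 0) := by
  have ha1 : 1 ≤ a := le_trans hD ha
  have h1 : ∀ t ∈ List.replicate L 1, 1 ≤ t := by
    intro t ht
    rw [List.mem_replicate] at ht
    omega
  have key := fd_path (List.replicate L 1) h1 a ha1 (fun σ => if AL D σ then γ σ else 0)
  have hL : PS 0 a (fun p => (N2 p (List.replicate L 1) : ℝ) *
        (fun σ => if AL D σ then γ σ else 0) (hd p)) =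
      ∑ β ∈ Icc 1 a, ((L + a - β).choose L : ℝ) *
        Qn β (a - β) (fun σ => if AL D σ then γ σ else 0) := by
    rw [← PS_la a ha1 (fun β => ((L + a - β).choose L : ℝ))
      (fun σ => if AL D σ then γ σ else 0)]
    apply PS_congr
    intro p hp
    have h2 := (N2_ones a p hp ha1 L).2.2
    beta_reduce
    rw [h2]
  rw [← hL, key]
  symm
  rw [Finset.sum_eq_single D]
  · apply PS_congr
    intro χ hχ
    have hv := VP.vs (by norm_num : 0 ≤ 1) hχ
    have hj := join_AL (a - D) (hd χ) hv D D hD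
    beta_reduce
    by_cases ht : top3 (hd χ) ≤ D
    · rw [if_pos (hj.2 ⟨rfl, ht⟩), if_pos ht]
      ring
    · rw [if_neg (fun h => ht (hj.1 h).2), if_neg ht]
      ring
  · intro D' hD' hne
    rw [Finset.mem_Icc] at hD'
    have h0 : PS 0 (a - D') (fun _ => (0 : ℝ)) = 0 := by
      have h3 := PS_mul 0 (a - D') 0 (fun _ => (0 : ℝ))
      simpa using h3
    refine (PS_congr 0 (a - D') _ (fun _ => 0) ?_).trans h0
    intro χ hχ
    have hv := VP.vs (by norm_num : 0 ≤ 1) hχ
    have hj := join_AL (a - D') (hd χ) hv D' D hD'.1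
    beta_reduce
    rw [if_neg (fun h => hne (hj.1 h).1.symm)]
    ring
  · intro hn
    exact absurd (Finset.mem_Icc.2 ⟨hD, ha⟩) hn

end Pool.ADM
end

section

/-! job ADM-22a: the classes with excess `0` and `1` exactly.

`mass_clsF` (leaves in `F`) and the explicit histories of `F`:
* `D` letters ending on level `D`: `(1,1,1), (2,2,0), (3,3,0), …`, weight `(D-1)!`;
* `D + 1` letters with all packets on level `D ≥ 2`: append, append, hit of the second packet
  `(2,3,1)`, then hits of this packet; total weight `D!/2`, of which `(D-1)!` with one leaf at the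
  end, the others with no leaf.  The words: the first letter `F` is followed by the second one (all
  other letters come after the last append): `N2 pF ts = K3 [] D ts`. -/

set_option autoImplicit false

namespace Pool.ADM

open Finset

private theorem M22a_sz_append (σ τ : S3) : sz (σ ++ τ) = sz σ + sz τ := by
  simp [sz]

private theorem M22a_AL_le (D n : ℕ) (σ A : S3) (hσ : Vs 1 n σ) (h : ∀ q ∈ A, q ∈ σ)
    (hA : AL D A) : D ≤ sz A := by
  obtain ⟨hne, hall⟩ := hA
  cases A with
  | nil => exact absurd rfl hne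
  | cons q A =>
    have h1 := hσ.pos q (h q (by simp))
    have h2 := hall q (by simp)
    simp only [sz, List.map_cons, List.sum_cons]
    omega

private theorem M22a_cutS_zero (σ : S3) (G : S3 → S3 → ℝ) (h : ∀ B O, B ++ O = σ → G B O = 0) :
    cutS σ G = 0 := by
  rw [cutS_congr σ G (fun _ _ => (0 : ℝ)) h]
  have h := cutS_mul σ 0 (fun _ _ => (0 : ℝ))
  simpa using h

theorem z0_nonneg (D a b x : ℕ) : 0 ≤ z0 D a b x := by
  unfold z0
  apply EM_nonneg
  intro σ _
  unfold c0
  apply cutS_nonneg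
  intro F V _
  apply cutS_nonneg
  intro B O _
  split_ifs <;> positivity

theorem z1_nonneg (D a b x : ℕ) : 0 ≤ z1 D a b x := by
  unfold z1
  apply EM_nonneg
  intro σ _
  unfold c1
  apply cutS_nonneg
  intro F V _
  apply cutS_nonneg
  intro B O _
  split_ifs <;> positivity

/-- on states of `a + b + x` letters `c0` needs no leaf in `F`, `c1` one leaf. -/
theorem z01_le (D a b x : ℕ) (hD : 2 ≤ D) : z0 D a b x + z1 D a b x ≤ zall D a b x := by
  unfold z0 z1 zall
  rw [← EM_add]
  apply EM_mono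
  intro σ hσ
  unfold c0 c1 cls
  rw [← cutS_add]
  apply cutS_mono
  intro F V hFV
  rw [← cutS_add]
  apply cutS_mono
  intro B O hBO
  have hs : sz F + (sz B + sz O) = a + b + x := by
    have := hσ.sum
    rw [← hFV, ← hBO, M22a_sz_append, M22a_sz_append] at this
    exact this
  have hr : (0 : ℝ) ≤ if AL D F ∧ sz F = a ∧ AL (D - 1) B ∧ sz B = b ∧ sz O = x then
      (if lf O = 0 then (ym B 0 : ℝ) else 0) else 0 := by
    split_ifs <;> positivity
  rcases Nat.eq_zero_or_pos (lf F) with h0 | h1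
  · have e1 : (if AL D F ∧ sz F + 1 = a + lf F ∧ AL (D - 1) B ∧ b ≤ sz B ∧ sz O = x + lf O then
        (lf F : ℝ) * (ym B (sz B - b) : ℝ) else 0) = 0 := by
      rw [h0]
      simp
    rw [e1, add_zero]
    by_cases hc : AL D F ∧ sz F = a + lf F ∧ AL (D - 1) B ∧ b ≤ sz B ∧ sz O = x + lf O
    · rw [if_pos hc]
      obtain ⟨c1, c2, c3, c4, c5⟩ := hc
      have f1 : sz F = a := by omega
      have f2 : sz B = b := by omega
      have f3 : sz O = x := by omega
      have f4 : lf O = 0 := by omega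
      have f5 : sz B - b = 0 := by omega
      rw [if_pos ⟨c1, f1, c3, f2, f3⟩, f5]
      show (ym B 0 : ℝ) ≤ if lf O = 0 then (ym B 0 : ℝ) else 0
      rw [if_pos f4]
    · rw [if_neg hc]
      exact hr
  · have e1 : (if AL D F ∧ sz F = a + lf F ∧ AL (D - 1) B ∧ b ≤ sz B ∧ sz O = x + lf O then
        (ym B (sz B - b) : ℝ) else 0) = 0 := by
      rw [if_neg]
      rintro ⟨c1, c2, c3, c4, c5⟩
      omega
    rw [e1, zero_add]
    by_cases hc : AL D F ∧ sz F + 1 = a + lf F ∧ AL (D - 1) B ∧ b ≤ sz B ∧ sz O = x + lf O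
    · rw [if_pos hc]
      obtain ⟨c1, c2, c3, c4, c5⟩ := hc
      have f1 : sz F = a := by omega
      have f2 : sz B = b := by omega
      have f3 : sz O = x := by omega
      have f4 : lf O = 0 := by omega
      have f5 : sz B - b = 0 := by omega
      have f6 : lf F = 1 := by omega
      rw [if_pos ⟨c1, f1, c3, f2, f3⟩, f5, f6]
      show ((1 : ℕ) : ℝ) * (ym B 0 : ℝ) ≤ if lf O = 0 then (ym B 0 : ℝ) else 0
      rw [if_pos f4]
      simp
    · rw [if_neg hc]
      exact hr

theorem z_zero (D a b x : ℕ) (hD : 2 ≤ D) (h : a < D ∨ b < D - 1) :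
    z0 D a b x = 0 ∧ z1 D a b x = 0 ∧ zall D a b x = 0 := by
  have hz : zall D a b x = 0 := by
    unfold zall
    rw [EM_congr (a + b + x) _ (fun _ => (0 : ℝ))]
    · exact EM_const _ _
    intro σ hσ
    unfold cls
    refine M22a_cutS_zero _ _ fun F V hFV => ?_
    refine M22a_cutS_zero _ _ fun B O hBO => ?_
    rw [if_neg]
    rintro ⟨c1, c2, c3, c4, c5⟩
    have d1 := M22a_AL_le D (a + b + x) σ F hσ (fun q hq => by rw [← hFV]; simp [hq]) c1
    have d2 := M22a_AL_le (D - 1) (a + b + x) σ B hσ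
      (fun q hq => by rw [← hFV, ← hBO]; simp [hq]) c3
    omega
  have h0 := z0_nonneg D a b x
  have h1 := z1_nonneg D a b x
  have h2 := z01_le D a b x hD
  exact ⟨by linarith, by linarith, hz⟩

end Pool.ADM
end

section

/-! job ADM-22b: the classes with excess `0` and `1` exactly.

`mass_clsF` (leaves in `F`) and the explicit histories of `F`:
* `D` letters ending on level `D`: `(1,1,1), (2,2,0), (3,3,0), …`, weight `(D-1)!`;
* `D + 1` letters with all packets on level `D ≥ 2`: append, append, hit of the second packet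
  `(2,3,1)`, then hits of this packet; total weight `D!/2`, of which `(D-1)!` with one leaf at the
  end, the others with no leaf.  The words: the first letter `F` is followed by the second one (all
  other letters come after the last append): `N2 pF ts = K3 [] D ts`. -/

set_option autoImplicit false

namespace Pool.ADM

open Finset

/-! ### predecessors of full states -/

private theorem M22b_sz_append (α β : S3) : sz (α ++ β) = sz α + sz β := by
  simp [sz]

private theorem M22b_sz_ge (D : ℕ) (σ : S3) (h : ∀ F ∈ σ, D ≤ F.2.1) (hne : σ ≠ []) : D ≤ sz σ := by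
  cases σ with
  | nil => exact absurd rfl hne
  | cons F τ =>
    have := h F (List.mem_cons_self)
    simp only [sz, List.map_cons, List.sum_cons]
    omega

/-- a full state with few letters has one packet -/
private theorem M22b_single (n D : ℕ) (hD : 2 ≤ D) (hn : n ≤ D + 1) (σ : S3) (hs : sz σ = n)
    (hpos : ∀ F ∈ σ, 1 ≤ F.1 ∧ F.1 ≤ F.2.1) (hAL : AL D σ) : ∃ l, σ = [(D, n, l)] := by
  obtain ⟨hne, hall⟩ := hAL
  cases σ with
  | nil => exact absurd rfl hne
  | cons F τ =>
    have hF := hpos F (List.mem_cons_self)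
    have hF1 := hall F (List.mem_cons_self)
    cases τ with
    | nil =>
      refine ⟨F.2.2, ?_⟩
      have : F.2.1 = n := by simpa [sz] using hs
      rw [← this, ← hF1]
    | cons G τ =>
      have hG := hpos G (by simp)
      have hG1 := hall G (by simp)
      simp only [sz, List.map_cons, List.sum_cons] at hs
      omega

private theorem M22b_pred (n D : ℕ) (hD : 2 ≤ D) (hn : n ≤ D + 1) (σ : S3) (hσ : Vs 1 n σ)
    (w h : ℕ) (ρ : S3) (hs : (w, h, ρ) ∈ suc 1 σ) (hw : w ≠ 0) (hAL : AL (D + 1) ρ) :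
    AL D σ ∧ h = D := by
  obtain ⟨hne, hall⟩ := hAL
  rcases suc_cases 1 n σ hσ w h ρ hs hw with ⟨_, _, hρ⟩ | ⟨h1, α, β, q, τ, u, hσe, hq, hα, hβ, hτ,
    hρ, _⟩
  · have := hall (1, 1, 1) (by rw [hρ]; simp)
    simp at this
    omega
  · have h2 : h + 1 = D + 1 := hall (h + 1, sz β + q.2.1 + 1, lf β + u) (by rw [hρ]; simp)
    have h3 : h = D := by omega
    have hαe : α = [] := by
      by_contra hne'
      have h4 : D + 1 ≤ sz α := by
        apply M22b_sz_ge _ _ _ hne'
        intro F hF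
        have h5 : F.1 = D + 1 := hall F (by rw [hρ]; simp [hF])
        have h6 := hσ.pos F (by rw [hσe]; simp [hF])
        omega
      have h7 := hσ.sum
      rw [hσe, M22b_sz_append, M22b_sz_append] at h7
      have h8 := hσ.pos q (by rw [hσe]; simp)
      have h9 : sz (q :: τ) = q.2.1 + sz τ := by simp [sz]
      omega
    have hτe : τ = [] := by
      cases τ with
      | nil => rfl
      | cons G τ =>
        have h5 : G.1 = D + 1 := hall G (by rw [hρ]; simp)
        have h6 := hτ G (by simp)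
        omega
    subst hαe hτe
    refine ⟨⟨by rw [hσe]; simp, ?_⟩, h3⟩
    intro F hF
    rw [hσe] at hF
    simp only [List.nil_append, List.mem_append, List.mem_singleton] at hF
    rcases hF with hF | hF
    · rw [hβ F hF, h3]
    · rw [hF, hq, h3]

private noncomputable def M22b_nx (n : ℕ) (γ : ℕ → ℝ) (l : ℕ) : ℝ :=
  (l : ℝ) * γ (l - 1) + ((n - l : ℕ) : ℝ) * γ l

private theorem M22b_wsum_zero (l : List (ℕ × ℕ × S3)) (f : ℕ → S3 → ℝ)
    (h : ∀ x ∈ l, x.1 ≠ 0 → f x.2.1 x.2.2 = 0) : wsum l f = 0 := by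
  rw [wsum_congr l f (fun _ _ => (0 : ℝ) * 0) (fun x hx hx0 => by rw [h x hx hx0]; ring),
    wsum_mul l 0 (fun _ _ => 0), zero_mul]

private theorem M22b_step (n D : ℕ) (hD : 2 ≤ D) (hn : n ≤ D + 1) (σ : S3) (hσ : Vs 1 n σ)
    (γ : ℕ → ℝ) :
    wsum (suc 1 σ) (fun _ ρ => if AL (D + 1) ρ then γ (lf ρ) else 0) =
      if AL D σ then M22b_nx n γ (lf σ) else 0 := by
  by_cases hAL : AL D σ
  · rw [if_pos hAL]
    obtain ⟨l, hl⟩ := M22b_single n D hD hn σ hσ.sum hσ.pos hAL
    subst hl
    rw [wsum_suc_cons]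
    have e1 : AL (D + 1) [(D + 1, n + 1, l - 1)] := ⟨by simp, by simp⟩
    have e2 : AL (D + 1) [(D + 1, n + 1, l)] := ⟨by simp, by simp⟩
    have e3 : wsum (suc 1 ([] : S3)) (fun h σ => (fun (_ : ℕ) (ρ : S3) =>
        if AL (D + 1) ρ then γ (lf ρ) else 0) h (glue3 (D, n, l) σ)) = 0 := by
      apply M22b_wsum_zero
      intro x hx _
      have hx' : x = (1, 0, [(1, 1, 1)]) := by
        simpa [suc] using hx
      subst hx'
      show (if AL (D + 1) (glue3 (D, n, l) [(1, 1, 1)]) then _ else 0) = (0 : ℝ)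
      have e4 : glue3 (D, n, l) [(1, 1, 1)] = [(D, n, l), (1, 1, 1)] := by
        show (if (1 : ℕ) = D + 1 then _ else _) = _
        rw [if_neg (by omega)]
      rw [e4, if_neg]
      intro h
      have := h.2 (1, 1, 1) (by simp)
      simp at this
      omega
    rw [e3, add_zero]
    show (l : ℝ) * (if AL (D + 1) [(D + 1, n + 1, l - 1)] then
      γ (lf [(D + 1, n + 1, l - 1)]) else 0) + ((n - l : ℕ) : ℝ) *
        (if AL (D + 1) [(D + 1, n + 1, l)] then γ (lf [(D + 1, n + 1, l)]) else 0) = _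
    rw [if_pos e1, if_pos e2]
    have e5 : ∀ a b c : ℕ, lf [(a, b, c)] = c := by
      intro a b c
      simp [lf]
    rw [e5, e5, e5]
    rfl
  · rw [if_neg hAL]
    apply M22b_wsum_zero
    intro x hx hx0
    rw [if_neg]
    intro h
    exact hAL (M22b_pred n D hD hn σ hσ x.1 x.2.1 x.2.2 hx hx0 h).1

/-! ### words -/

private noncomputable def M22b_NN (D : ℕ) (p : Pth) : List ℕ → ℕ
  | [] => N2 p []
  | t :: ts => N2 p (t :: ts) + (if t ≤ D then M22b_NN D p ts else 0)

private theorem M22b_N2 (D h : ℕ) (ρ : S3) (p : Pth) (hh : h ≠ 0) (hl : last3 ρ = D) :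
    ∀ ts : List ℕ, N2 ((h, ρ) :: p) ts = M22b_NN D p ts
  | [] => by rw [N2]; rfl
  | t :: ts => by
    rw [N2, M22b_N2 D h ρ p hh hl ts, if_neg hh]
    show N2 p (t :: ts) + (if t ≤ last3 ρ then _ else 0) = _
    rw [hl]
    rfl

private theorem M22b_last (D : ℕ) (σ : S3) (h : AL D σ) : last3 σ = D := by
  obtain ⟨hne, hall⟩ := h
  unfold last3
  rw [List.getLastD_eq_getLast?, List.getLast?_eq_some_getLast hne]
  exact hall _ (List.getLast_mem hne)

private noncomputable def M22b_A (n D : ℕ) (γ : ℕ → ℝ) (ts : List ℕ) : ℝ :=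
  PS 1 n fun p => (if AL D (hd p) then γ (lf (hd p)) else 0) * (N2 p ts : ℝ)

private theorem M22b_rec (n D : ℕ) (hD : 2 ≤ D) (hn : n ≤ D + 1) (γ : ℕ → ℝ) (ts : List ℕ) :
    M22b_A (n + 1) (D + 1) γ ts =
      PS 1 n fun p => (if AL D (hd p) then M22b_nx n γ (lf (hd p)) else 0) *
        (M22b_NN (D + 1) p ts : ℝ) := by
  unfold M22b_A
  rw [PS_succ]
  apply PS_congr
  intro p hp
  rw [← M22b_step n D hD hn (hd p) (hp.vs le_rfl) γ, mul_comm, ← wsum_mul]
  apply wsum_congr
  intro x hx hx0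
  show (if AL (D + 1) x.2.2 then γ (lf x.2.2) else 0) * (N2 ((x.2.1, x.2.2) :: p) ts : ℝ) = _
  by_cases hAL : AL (D + 1) x.2.2
  · have h1 := M22b_pred n D hD hn (hd p) (hp.vs le_rfl) x.1 x.2.1 x.2.2 hx hx0 hAL
    rw [M22b_N2 (D + 1) x.2.1 x.2.2 p (by rw [h1.2]; omega) (M22b_last _ _ hAL) ts]
    ring
  · rw [if_neg hAL]
    ring

private theorem M22b_Kn (D : ℕ) : K3 [] (D + 1) [] = K3 [] D [] := by rw [K3]

private theorem M22b_Kt (D t : ℕ) (ts : List ℕ) : K3 [] (D + 1) (t :: ts) =
    K3 [] D (t :: ts) + (if t ≤ D + 1 then K3 [] (D + 1) ts else 0) := by rw [K3]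

/-- one more hit -/
private theorem M22b_ind (n D : ℕ) (hD : 2 ≤ D) (hn : n ≤ D + 1) (c : (ℕ → ℝ) → ℝ)
    (h : ∀ γ ts, M22b_A n D γ ts = c γ * (K3 [] D ts : ℝ)) :
    ∀ γ ts, M22b_A (n + 1) (D + 1) γ ts = c (M22b_nx n γ) * (K3 [] (D + 1) ts : ℝ) := by
  intro γ ts
  rw [M22b_rec n D hD hn γ ts]
  induction ts with
  | nil =>
    rw [M22b_Kn D, ← h (M22b_nx n γ) []]
    rfl
  | cons t ts ih =>
    rw [M22b_Kt D t ts]
    have e : (fun p : Pth => (if AL D (hd p) then M22b_nx n γ (lf (hd p)) else 0) *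
        (M22b_NN (D + 1) p (t :: ts) : ℝ)) = fun p =>
        (if AL D (hd p) then M22b_nx n γ (lf (hd p)) else 0) * (N2 p (t :: ts) : ℝ) +
        (if t ≤ D + 1 then (1 : ℝ) else 0) *
          ((if AL D (hd p) then M22b_nx n γ (lf (hd p)) else 0) * (M22b_NN (D + 1) p ts : ℝ)) := by
      funext p
      show _ * ((N2 p (t :: ts) + (if t ≤ D + 1 then M22b_NN (D + 1) p ts else 0) : ℕ) : ℝ) = _
      by_cases ht : t ≤ D + 1
      · rw [if_pos ht, if_pos ht]
        push_cast
        ring
      · rw [if_neg ht, if_neg ht]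
        push_cast
        ring
    rw [e, PS_add, PS_mul, ih]
    have h2 := h (M22b_nx n γ) (t :: ts)
    unfold M22b_A at h2
    rw [h2]
    by_cases ht : t ≤ D + 1
    · simp only [if_pos ht]
      push_cast
      ring
    · simp only [if_neg ht]
      push_cast
      ring

/-! ### base cases -/

private theorem M22b_K00 : K3 [] 0 [] = 1 := by rw [K3]

private theorem M22b_K0t (t : ℕ) (ts : List ℕ) : K3 [] 0 (t :: ts) = 0 := by rw [K3]

private theorem M22b_K1a : ∀ ts : List ℕ, N2 [(0, [(1, 1, 1)])] ts = K3 [] 1 ts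
  | [] => by
    rw [N2, N2, M22b_Kn 0, M22b_K00]
  | t :: ts => by
    rw [N2, M22b_K1a ts, M22b_Kt 0, M22b_K0t]
    rfl

private theorem M22b_K1b : ∀ ts : List ℕ,
    N2 [(0, [(1, 1, 1), (1, 1, 1)]), (0, [(1, 1, 1)])] ts = K3 [] 1 ts
  | [] => by rw [N2, N2, N2, M22b_Kn 0, M22b_K00]
  | t :: ts => by
    rw [N2, M22b_K1b ts, M22b_Kt 0, M22b_K0t]
    rfl

private theorem M22b_K2a : ∀ ts : List ℕ,
    N2 [(1, [(2, 2, 0)]), (0, [(1, 1, 1)])] ts = K3 [] 2 ts
  | [] => by rw [N2, M22b_K1a [], M22b_Kn 1]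
  | t :: ts => by
    rw [N2, M22b_K2a ts, M22b_K1a (t :: ts), M22b_Kt 1]
    rfl

private theorem M22b_K2b : ∀ ts : List ℕ,
    N2 [(1, [(2, 3, 1)]), (0, [(1, 1, 1), (1, 1, 1)]), (0, [(1, 1, 1)])] ts = K3 [] 2 ts
  | [] => by rw [N2, M22b_K1b [], M22b_Kn 1]
  | t :: ts => by
    rw [N2, M22b_K2b ts, M22b_K1b (t :: ts), M22b_Kt 1]
    rfl

private theorem M22b_base2 (γ : ℕ → ℝ) (ts : List ℕ) :
    M22b_A 2 2 γ ts = γ 0 * (K3 [] 2 ts : ℝ) := by
  unfold M22b_A
  rw [PS_succ, PS_succ, PS_zero, ← M22b_K2a ts]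
  simp [suc, glue3, wsum, AL, hd, lf]

private theorem M22b_base3 (γ : ℕ → ℝ) (ts : List ℕ) :
    M22b_A 3 2 γ ts = γ 1 * (K3 [] 2 ts : ℝ) := by
  unfold M22b_A
  rw [PS_succ, PS_succ, PS_succ, PS_zero, ← M22b_K2b ts]
  simp [suc, glue3, wsum, AL, hd, lf]

private theorem M22b_A0 (D : ℕ) (hD : 2 ≤ D) (γ : ℕ → ℝ) (ts : List ℕ) :
    M22b_A D D γ ts = ((D - 1).factorial : ℝ) * γ 0 * (K3 [] D ts : ℝ) := by
  induction D, hD using Nat.le_induction generalizing γ ts with
  | base =>
    rw [M22b_base2]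
    simp
  | succ D hD ih =>
    rw [M22b_ind D D hD (by omega) (fun γ => ((D - 1).factorial : ℝ) * γ 0) ih γ ts]
    have e : ((D + 1 - 1).factorial : ℝ) = (D : ℝ) * ((D - 1).factorial : ℝ) := by
      rw [Nat.add_sub_cancel]
      have := Nat.mul_factorial_pred (n := D) (by omega)
      exact_mod_cast this.symm
    rw [e]
    unfold M22b_nx
    rw [Nat.sub_zero]
    push_cast
    ring

private theorem M22b_A1 (D : ℕ) (hD : 2 ≤ D) (γ : ℕ → ℝ) (ts : List ℕ) :
    M22b_A (D + 1) D γ ts = ((D - 1).factorial : ℝ) * (γ 1 + ((D : ℝ) - 2) / 2 * γ 0) *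
      (K3 [] D ts : ℝ) := by
  induction D, hD using Nat.le_induction generalizing γ ts with
  | base =>
    rw [M22b_base3]
    simp
  | succ D hD ih =>
    rw [M22b_ind (D + 1) D hD le_rfl
      (fun γ => ((D - 1).factorial : ℝ) * (γ 1 + ((D : ℝ) - 2) / 2 * γ 0)) ih γ ts]
    have e : ((D + 1 - 1).factorial : ℝ) = (D : ℝ) * ((D - 1).factorial : ℝ) := by
      rw [Nat.add_sub_cancel]
      have := Nat.mul_factorial_pred (n := D) (by omega)
      exact_mod_cast this.symm
    rw [e]
    unfold M22b_nx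
    have e1 : D + 1 - 1 = D := by omega
    have e2 : D + 1 - 0 = D + 1 := by omega
    have e3 : 1 - 1 = 0 := rfl
    rw [e1, e2, e3]
    push_cast
    ring

/-! ### class masses -/

private noncomputable def M22b_g (B O : S3) : ℝ := if lf O = 0 then (ym B 0 : ℝ) else 0

private noncomputable def M22b_i (j l : ℕ) : ℝ := if l = j then 1 else 0

private noncomputable def M22b_BF (D b x : ℕ) : ℝ :=
  PS 1 b fun pB => PS 1 x fun pO =>
    (if AL (D - 1) (hd pB) then M22b_g (hd pB) (hd pO) else 0) *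
      (((VW pB pO).map (K3 [] D)).sum : ℕ)

private theorem M22b_zero (c n : ℕ) : PS c n (fun _ => (0 : ℝ)) = 0 := by
  have h := PS_mul c n 0 (fun _ => (0 : ℝ))
  simpa using h

private theorem M22b_list (c n : ℕ) (A : Pth → ℝ) (l : List (List ℕ)) :
    PS c n (fun p => A p * (((l.map (N2 p)).sum : ℕ) : ℝ)) =
      (l.map fun ts => PS c n fun p => A p * (N2 p ts : ℝ)).sum := by
  induction l with
  | nil =>
    have h : (fun p : Pth => A p * ((([].map (N2 p)).sum : ℕ) : ℝ)) = fun _ => (0 : ℝ) := by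
      funext p
      simp
    rw [h, M22b_zero]
    rfl
  | cons t l ih =>
    have h : (fun p : Pth => A p * ((((t :: l).map (N2 p)).sum : ℕ) : ℝ)) =
        fun p => A p * (N2 p t : ℝ) + A p * (((l.map (N2 p)).sum : ℕ) : ℝ) := by
      funext p
      rw [List.map_cons, List.sum_cons]
      push_cast
      ring
    rw [h, PS_add, ih, List.map_cons, List.sum_cons]

private theorem M22b_sumK (D : ℕ) (c : ℝ) (l : List (List ℕ)) :
    (l.map fun ts => c * (K3 [] D ts : ℝ)).sum = c * (((l.map (K3 [] D)).sum : ℕ) : ℝ) := by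
  induction l with
  | nil => simp
  | cons t l ih =>
    rw [List.map_cons, List.sum_cons, ih, List.map_cons, List.sum_cons]
    push_cast
    ring

private theorem M22b_mass (n D b x : ℕ) (hD : 2 ≤ D) (hn : 1 ≤ n) (hb : 1 ≤ b) (γ : ℕ → ℝ) (c : ℝ)
    (h : ∀ ts, M22b_A n D γ ts = c * (K3 [] D ts : ℝ)) :
    PS 1 (n + b + x) (fun p => cls D (D - 1) n b x (fun F B O => γ (lf F) * M22b_g B O) (hd p)) =
      c * M22b_BF D b x := by
  rw [mass_clsF D (D - 1) n b x (by omega) (by omega) hn hb (fun F => γ (lf F)) M22b_g]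
  unfold M22b_BF
  rw [PS_comm, ← PS_mul]
  refine PS_congr _ _ _ _ fun pB hB => ?_
  rw [PS_comm, ← PS_mul]
  refine PS_congr _ _ _ _ fun pO hO => ?_
  obtain ⟨R, hR⟩ : ∃ R : ℝ,
    R = if AL (D - 1) (hd pB) then M22b_g (hd pB) (hd pO) else 0 := ⟨_, rfl⟩
  rw [← hR]
  have e1 : (fun p : Pth => (if AL D (hd p) then γ (lf (hd p)) else 0) * R *
      (((VW pB pO).map (N2 p)).sum : ℕ)) = fun p =>
        R * ((fun p : Pth => if AL D (hd p) then γ (lf (hd p)) else 0) p *
          (((VW pB pO).map (N2 p)).sum : ℕ)) := by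
    funext p
    ring
  rw [e1, PS_mul, M22b_list]
  have e2 : ((VW pB pO).map fun ts => PS 1 n fun p =>
      (fun p : Pth => if AL D (hd p) then γ (lf (hd p)) else 0) p * (N2 p ts : ℝ)) =
      (VW pB pO).map fun ts => c * (K3 [] D ts : ℝ) := by
    refine List.map_congr_left fun ts _ => ?_
    exact h ts
  rw [e2, M22b_sumK]
  ring

private theorem M22b_szcut {σ F V B O : S3} (h1 : F ++ V = σ) (h2 : B ++ O = V) :
    sz σ = sz F + sz B + sz O := by
  rw [← h1, ← h2, M22b_sz_append, M22b_sz_append]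
  ring

private theorem M22b_c0 (D a b x : ℕ) (σ : S3) (hσ : sz σ = a + b + x) :
    c0 D a b x σ = cls D (D - 1) a b x
      (fun F B O => M22b_i 0 (lf F) * M22b_g B O) σ := by
  unfold c0 cls
  refine cutS_congr _ _ _ fun F V h1 => cutS_congr _ _ _ fun B O h2 => ?_
  have h3 := M22b_szcut h1 h2
  rw [hσ] at h3
  by_cases hc : AL D F ∧ sz F = a + lf F ∧ AL (D - 1) B ∧ b ≤ sz B ∧ sz O = x + lf O
  · obtain ⟨k1, k2, k3, k4, k5⟩ := hc
    have e1 : lf F = 0 := by omega
    have e2 : lf O = 0 := by omega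
    have e3 : sz B = b := by omega
    rw [if_pos ⟨k1, k2, k3, k4, k5⟩, if_pos ⟨k1, by omega, k3, e3, by omega⟩]
    show _ = M22b_i 0 (lf F) * M22b_g B O
    unfold M22b_g M22b_i
    rw [if_pos e1, if_pos e2, e3, Nat.sub_self, one_mul]
  · rw [if_neg hc]
    by_cases hd : AL D F ∧ sz F = a ∧ AL (D - 1) B ∧ sz B = b ∧ sz O = x
    · obtain ⟨k1, k2, k3, k4, k5⟩ := hd
      rw [if_pos ⟨k1, k2, k3, k4, k5⟩]
      show _ = M22b_i 0 (lf F) * M22b_g B O
      unfold M22b_g M22b_i
      by_cases e1 : lf F = 0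
      · by_cases e2 : lf O = 0
        · exact absurd ⟨k1, by omega, k3, by omega, by omega⟩ hc
        · rw [if_neg e2, mul_zero]
      · rw [if_neg e1, zero_mul]
    · rw [if_neg hd]

private theorem M22b_c1 (D a b x : ℕ) (σ : S3) (hσ : sz σ = a + b + x) :
    c1 D a b x σ = cls D (D - 1) a b x
      (fun F B O => M22b_i 1 (lf F) * M22b_g B O) σ := by
  unfold c1 cls
  refine cutS_congr _ _ _ fun F V h1 => cutS_congr _ _ _ fun B O h2 => ?_
  have h3 := M22b_szcut h1 h2
  rw [hσ] at h3
  by_cases hc : AL D F ∧ sz F + 1 = a + lf F ∧ AL (D - 1) B ∧ b ≤ sz B ∧ sz O = x + lf O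
  · obtain ⟨k1, k2, k3, k4, k5⟩ := hc
    rw [if_pos ⟨k1, k2, k3, k4, k5⟩]
    by_cases e0 : lf F = 0
    · rw [e0]
      rw [if_neg (fun h => by omega)]
      simp
    · have e1 : lf F = 1 := by omega
      have e2 : lf O = 0 := by omega
      have e3 : sz B = b := by omega
      rw [if_pos ⟨k1, by omega, k3, e3, by omega⟩]
      show _ = M22b_i 1 (lf F) * M22b_g B O
      unfold M22b_g M22b_i
      rw [if_pos e1, if_pos e2, e3, Nat.sub_self, e1]
      simp
  · rw [if_neg hc]
    by_cases hd : AL D F ∧ sz F = a ∧ AL (D - 1) B ∧ sz B = b ∧ sz O = x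
    · obtain ⟨k1, k2, k3, k4, k5⟩ := hd
      rw [if_pos ⟨k1, k2, k3, k4, k5⟩]
      show _ = M22b_i 1 (lf F) * M22b_g B O
      unfold M22b_g M22b_i
      by_cases e1 : lf F = 1
      · by_cases e2 : lf O = 0
        · exact absurd ⟨k1, by omega, k3, by omega, by omega⟩ hc
        · rw [if_neg e2, mul_zero]
      · rw [if_neg e1, zero_mul]
    · rw [if_neg hd]

private theorem M22b_cp (D b x : ℕ) (hD : 2 ≤ D) (σ : S3) (hσ : Vs 1 (D + b + x) σ) :
    cp D b x σ = cls D (D - 1) D b x
      (fun F B O => M22b_i 0 (lf F) * M22b_g B O) σ := by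
  unfold cp cls
  refine cutS_congr _ _ _ fun F V h1 => cutS_congr _ _ _ fun B O h2 => ?_
  have h3 := M22b_szcut h1 h2
  rw [hσ.sum] at h3
  by_cases hc : F = [(D, D, 0)] ∧ AL (D - 1) B ∧ b ≤ sz B ∧ sz O = x + lf O
  · obtain ⟨k1, k3, k4, k5⟩ := hc
    have kA : AL D F := by
      rw [k1]
      exact ⟨by simp, by simp⟩
    have kS : sz F = D := by
      rw [k1]
      simp [sz]
    have kL : lf F = 0 := by
      rw [k1]
      simp [lf]
    have e2 : lf O = 0 := by omega
    have e3 : sz B = b := by omega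
    rw [if_pos ⟨k1, k3, k4, k5⟩, if_pos ⟨kA, kS, k3, e3, by omega⟩]
    show _ = M22b_i 0 (lf F) * M22b_g B O
    unfold M22b_g M22b_i
    rw [if_pos kL, if_pos e2, e3, Nat.sub_self, one_mul]
  · rw [if_neg hc]
    by_cases hd : AL D F ∧ sz F = D ∧ AL (D - 1) B ∧ sz B = b ∧ sz O = x
    · obtain ⟨k1, k2, k3, k4, k5⟩ := hd
      rw [if_pos ⟨k1, k2, k3, k4, k5⟩]
      show _ = M22b_i 0 (lf F) * M22b_g B O
      unfold M22b_g M22b_i
      by_cases e1 : lf F = 0
      · by_cases e2 : lf O = 0
        · exfalso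
          apply hc
          obtain ⟨l, hl⟩ := M22b_single D D hD (by omega) F k2
            (fun G hG => hσ.pos G (by rw [← h1]; simp [hG])) k1
          have hl0 : l = 0 := by
            rw [hl] at e1
            simpa [lf] using e1
          rw [hl0] at hl
          exact ⟨hl, k3, by omega, by omega⟩
        · rw [if_neg e2, mul_zero]
      · rw [if_neg e1, zero_mul]
    · rw [if_neg hd]

private theorem M22b_EM0 (n D b x : ℕ) (hD : 2 ≤ D) (hn : 1 ≤ n) (hb : 1 ≤ b) (γ : ℕ → ℝ) (c : ℝ)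
    (h : ∀ ts, M22b_A n D γ ts = c * (K3 [] D ts : ℝ)) :
    EM (n + b + x) (cls D (D - 1) n b x (fun F B O => γ (lf F) * M22b_g B O)) =
      c * M22b_BF D b x / ((n + b + x).factorial : ℝ) := by
  unfold EM
  rw [M22b_mass n D b x hD hn hb γ c h]

private theorem M22b_zz (D b x : ℕ) (hD : 2 ≤ D) (hb : D - 1 ≤ b) :
    zz D (b - (D - 1)) x =
      ((D - 1).factorial : ℝ) * M22b_BF D b x / ((D + b + x).factorial : ℝ) := by
  have e1 : 2 * D - 1 + (b - (D - 1)) + x = D + b + x := by omega
  have e2 : D - 1 + (b - (D - 1)) = b := by omega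
  unfold zz
  rw [e1, e2]
  rw [EM_congr (D + b + x) _ _ (fun σ hσ => M22b_cp D b x hD σ hσ)]
  rw [M22b_EM0 D D b x hD (by omega) (by omega) (M22b_i 0) ((D - 1).factorial : ℝ)]
  intro ts
  rw [M22b_A0 D hD]
  simp [M22b_i]

theorem z_pure (D b x : ℕ) (hD : 2 ≤ D) (hb : D - 1 ≤ b) :
    z0 D D b x = zz D (b - (D - 1)) x ∧ z1 D D b x = 0 ∧
      zall D D b x = zz D (b - (D - 1)) x := by
  refine ⟨?_, ?_, ?_⟩
  · rw [M22b_zz D b x hD hb]
    unfold z0
    rw [EM_congr (D + b + x) _ _ (fun σ hσ => M22b_c0 D D b x σ hσ.sum)]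
    rw [M22b_EM0 D D b x hD (by omega) (by omega) (M22b_i 0) ((D - 1).factorial : ℝ)]
    intro ts
    rw [M22b_A0 D hD]
    simp [M22b_i]
  · unfold z1
    rw [EM_congr (D + b + x) _ _ (fun σ hσ => M22b_c1 D D b x σ hσ.sum)]
    rw [M22b_EM0 D D b x hD (by omega) (by omega) (M22b_i 1) 0]
    · simp
    · intro ts
      rw [M22b_A0 D hD]
      simp [M22b_i]
  · rw [M22b_zz D b x hD hb]
    unfold zall
    have e : (fun (_ B O : S3) => if lf O = 0 then (ym B 0 : ℝ) else 0) =
        fun F B O => (fun _ : ℕ => (1 : ℝ)) (lf F) * M22b_g B O := by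
      funext F B O
      unfold M22b_g
      rw [one_mul]
    rw [e, M22b_EM0 D D b x hD (by omega) (by omega) (fun _ => (1 : ℝ)) ((D - 1).factorial : ℝ)]
    intro ts
    rw [M22b_A0 D hD]
    simp

theorem z_one (D b x : ℕ) (hD : 2 ≤ D) (hb : D - 1 ≤ b) :
    z0 D (D + 1) b x = ((D : ℝ) - 2) / (2 * (D + 1 + b + x)) * zz D (b - (D - 1)) x ∧
      z1 D (D + 1) b x = 1 / ((D : ℝ) + 1 + b + x) * zz D (b - (D - 1)) x := by
  have hf : ((D + 1 + b + x).factorial : ℝ) =
      ((D : ℝ) + 1 + b + x) * ((D + b + x).factorial : ℝ) := by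
    have : D + 1 + b + x = (D + b + x) + 1 := by omega
    rw [this, Nat.factorial_succ]
    push_cast
    ring
  have h0 : ((D + b + x).factorial : ℝ) ≠ 0 := by exact_mod_cast Nat.factorial_ne_zero _
  have h1 : (D : ℝ) + 1 + b + x ≠ 0 := by positivity
  rw [M22b_zz D b x hD hb]
  refine ⟨?_, ?_⟩
  · unfold z0
    rw [EM_congr (D + 1 + b + x) _ _ (fun σ hσ => M22b_c0 D (D + 1) b x σ hσ.sum)]
    show EM (D + 1 + b + x) (cls D (D - 1) (D + 1) b x
      (fun F B O => M22b_i 0 (lf F) * M22b_g B O)) = _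
    rw [M22b_EM0 (D + 1) D b x hD (by omega) (by omega) (M22b_i 0)
      (((D - 1).factorial : ℝ) * (((D : ℝ) - 2) / 2))]
    · rw [hf]
      field_simp
    · intro ts
      rw [M22b_A1 D hD]
      simp [M22b_i]
  · unfold z1
    rw [EM_congr (D + 1 + b + x) _ _ (fun σ hσ => M22b_c1 D (D + 1) b x σ hσ.sum)]
    show EM (D + 1 + b + x) (cls D (D - 1) (D + 1) b x
      (fun F B O => M22b_i 1 (lf F) * M22b_g B O)) = _
    rw [M22b_EM0 (D + 1) D b x hD (by omega) (by omega) (M22b_i 1) ((D - 1).factorial : ℝ)]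
    · rw [hf]
      field_simp
    · intro ts
      rw [M22b_A1 D hD]
      simp [M22b_i]

end Pool.ADM
end

section

/-! job ADM-21c: the masses of the classes with excess `e = a - D` against the pure classes. -/

set_option autoImplicit false

namespace Pool.ADM

open Finset

/-- the factor of `B` and `O` in a pure class -/
private noncomputable def M21c_BF (D D' b x : ℕ) (g : S3 → S3 → ℝ) : ℝ :=
  PS 1 b fun pB => PS 1 x fun pO =>
    (if AL D' (hd pB) then g (hd pB) (hd pO) else 0) * (((VW pB pO).map (K3 [] D)).sum : ℕ)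

private theorem M21c_list (l : List (List ℕ)) (f h : List ℕ → ℕ) (C K : ℕ)
    (hl : ∀ ts ∈ l, f ts * C ≤ K * h ts) : (l.map f).sum * C ≤ K * (l.map h).sum := by
  induction l with
  | nil => simp
  | cons t l ih =>
    simp only [List.map_cons, List.sum_cons, add_mul, mul_add]
    exact Nat.add_le_add (hl t (List.mem_cons_self))
      (ih fun ts hm => hl ts (List.mem_cons_of_mem _ hm))

private theorem M21c_gen (D D' a b x : ℕ) (hD : 1 ≤ D) (hD' : 1 ≤ D') (ha : D ≤ a) (hb : 1 ≤ b)
    (γ : S3 → ℝ) (hγ : ∀ σ, 0 ≤ γ σ) (g : S3 → S3 → ℝ) (hg : ∀ B O, 0 ≤ g B O) :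
    PS 1 (a + b + x) (fun p => cls D D' a b x (fun F B O => γ (zp F) * g B O) (hd p)) *
        (((b + x) + D - 1).choose (D - 1) : ℝ) ≤
      (∑ β ∈ Icc 1 a, (((b + x) + a - β).choose (b + x) : ℝ) *
        Qn β (a - β) (fun σ => if AL D σ then γ σ else 0)) * M21c_BF D D' b x g := by
  rw [mass_cls D D' a b x hD hD' ha hb γ g, ← fonly a D (b + x) hD ha γ]
  rw [mul_comm, ← PS_mul]
  have hR : PS 0 (a - D) (fun χ =>
      (if top3 (hd χ) ≤ D then (WtD (hd χ) D : ℝ) * γ (join (hd χ) D) else 0) *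
        (K3 (hts χ) D (List.replicate (b + x) 1) : ℝ)) * M21c_BF D D' b x g =
      PS 0 (a - D) (fun χ => M21c_BF D D' b x g *
        ((if top3 (hd χ) ≤ D then (WtD (hd χ) D : ℝ) * γ (join (hd χ) D) else 0) *
        (K3 (hts χ) D (List.replicate (b + x) 1) : ℝ))) := by
    rw [PS_mul, mul_comm]
  rw [hR]
  refine PS_mono _ _ _ _ fun χ hχ => ?_
  have hU : 0 ≤ (if top3 (hd χ) ≤ D then (WtD (hd χ) D : ℝ) * γ (join (hd χ) D) else 0) := by
    split_ifs
    · exact mul_nonneg (Nat.cast_nonneg _) (hγ _)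
    · exact le_rfl
  obtain ⟨U, hUe⟩ : ∃ U : ℝ,
    U = (if top3 (hd χ) ≤ D then (WtD (hd χ) D : ℝ) * γ (join (hd χ) D) else 0) := ⟨_, rfl⟩
  rw [← hUe] at hU ⊢
  rw [mul_comm (M21c_BF D D' b x g)]
  unfold M21c_BF
  rw [← PS_mul, ← PS_mul]
  refine PS_mono _ _ _ _ fun pB hB => ?_
  rw [← PS_mul, ← PS_mul]
  refine PS_mono _ _ _ _ fun pO hO => ?_
  have hG : 0 ≤ (if AL D' (hd pB) then g (hd pB) (hd pO) else 0) := by
    split_ifs
    · exact hg _ _
    · exact le_rfl
  obtain ⟨G, hGe⟩ : ∃ G : ℝ, G = (if AL D' (hd pB) then g (hd pB) (hd pO) else 0) := ⟨_, rfl⟩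
  rw [← hGe] at hG ⊢
  have key : ((VW pB pO).map (K3 (hts χ) D)).sum * (((b + x) + D - 1).choose (D - 1)) ≤
      K3 (hts χ) D (List.replicate (b + x) 1) * ((VW pB pO).map (K3 [] D)).sum := by
    refine M21c_list _ _ _ _ _ fun ts hmem => ?_
    have h1 := VW_mem (c := 1) le_rfl hB hO ts hmem
    have h2 := K3_T6 (hts χ) D hD ts fun t ht => (h1.2 t ht).1
    rw [h1.1] at h2
    exact h2
  have key' : ((((VW pB pO).map (K3 (hts χ) D)).sum : ℕ) : ℝ) *
      (((b + x) + D - 1).choose (D - 1) : ℝ) ≤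
      (K3 (hts χ) D (List.replicate (b + x) 1) : ℝ) *
        ((((VW pB pO).map (K3 [] D)).sum : ℕ) : ℝ) := by
    exact_mod_cast key
  have h3 := mul_le_mul_of_nonneg_left key' (mul_nonneg hU hG)
  calc _ = U * G * (((((VW pB pO).map (K3 (hts χ) D)).sum : ℕ) : ℝ) *
      (((b + x) + D - 1).choose (D - 1) : ℝ)) := by ring
    _ ≤ _ := h3
    _ = _ := by ring

private theorem M21c_WtD (D : ℕ) (hD : 1 ≤ D) : WtD [] D = (D - 1).factorial := by
  unfold WtD below
  have h1 : ∀ q : ℕ, q + ((([] : S3).filter fun p => p.1 < q).map fun p => p.2.1).sum = q := by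
    intro q
    simp
  simp only [h1]
  obtain ⟨k, rfl⟩ : ∃ k, D = k + 1 := ⟨D - 1, by omega⟩
  rw [Nat.add_sub_cancel]
  exact Finset.prod_Ico_id_eq_factorial k

private theorem M21c_pure (D D' b x : ℕ) (hD : 1 ≤ D) (hD' : 1 ≤ D') (hb : 1 ≤ b)
    (γ : S3 → ℝ) (g : S3 → S3 → ℝ) :
    PS 1 (D + b + x) (fun p => cls D D' D b x (fun F B O => γ (zp F) * g B O) (hd p)) =
      ((D - 1).factorial : ℝ) * γ (join [] D) * M21c_BF D D' b x g := by
  rw [mass_cls D D' D b x hD hD' le_rfl hb γ g, Nat.sub_self, PS_zero]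
  have h0 : hd ([] : Pth) = [] := rfl
  have h1 : top3 ([] : S3) ≤ D := Nat.zero_le _
  rw [h0, if_pos h1, M21c_WtD D hD]
  unfold M21c_BF
  rw [← PS_mul]
  refine PS_congr _ _ _ _ fun pB _ => ?_
  rw [← PS_mul]
  refine PS_congr _ _ _ _ fun pO _ => ?_
  show _ * _ * ((((VW pB pO).map (K3 [] D)).sum : ℕ) : ℝ) = _
  ring

private theorem M21c_psi (β a m : ℕ) (h1 : 1 ≤ β) (h2 : β ≤ a) (h3 : a ≤ m) :
    psi β a m * ((a - β).factorial : ℝ) * ((m - 1).factorial : ℝ) =
      ((a - 1).factorial : ℝ) * ((m - β).factorial : ℝ) := by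
  induction β, h1 using Nat.le_induction with
  | base =>
    unfold psi
    rw [Finset.Ico_self, Finset.prod_empty]
    ring
  | succ β hβ ih =>
    have ih' := ih (by omega)
    have e1 : psi (β + 1) a m = psi β a m * (((a : ℝ) - β) / ((m : ℝ) - β)) := by
      unfold psi
      rw [Finset.prod_Ico_succ_top (by omega)]
    have e2 : ((a - β).factorial : ℝ) = ((a : ℝ) - β) * ((a - (β + 1)).factorial : ℝ) := by
      have : a - β = (a - (β + 1)) + 1 := by omega
      rw [this, Nat.factorial_succ]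
      have h4 : ((a - (β + 1) : ℕ) : ℝ) = (a : ℝ) - (β + 1) := by
        rw [Nat.cast_sub h2]
        push_cast
        ring
      push_cast
      rw [h4]
      ring
    have e3 : ((m - β).factorial : ℝ) = ((m : ℝ) - β) * ((m - (β + 1)).factorial : ℝ) := by
      have : m - β = (m - (β + 1)) + 1 := by omega
      rw [this, Nat.factorial_succ]
      have h4 : ((m - (β + 1) : ℕ) : ℝ) = (m : ℝ) - (β + 1) := by
        rw [Nat.cast_sub (h2.trans h3)]
        push_cast
        ring
      push_cast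
      rw [h4]
      ring
    have hm : (m : ℝ) - β ≠ 0 := by
      have : (β : ℝ) + 1 ≤ (m : ℝ) := by exact_mod_cast h2.trans h3
      linarith
    rw [e2, e3] at ih'
    rw [e1]
    field_simp
    linear_combination ih'

/-- the numerical identity. -/
private theorem M21c_num (β a D L : ℕ) (h1 : 1 ≤ β) (h2 : β ≤ a) (hD : 1 ≤ D) :
    ((L + a - β).choose L : ℝ) * ((a - 1).factorial : ℝ) * ((D + L).factorial : ℝ) =
      ((D : ℝ) + L) / ((a : ℝ) + L) * psi β a (a + L) *
        (((L + D - 1).choose (D - 1) : ℝ) * ((D - 1).factorial : ℝ) *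
          ((a + L).factorial : ℝ)) := by
  have hp := M21c_psi β a (a + L) h1 h2 (by omega)
  have c1 : ((L + a - β).choose L : ℝ) * (L.factorial : ℝ) * ((a - β).factorial : ℝ) =
      ((a + L - β).factorial : ℝ) := by
    have h := Nat.choose_mul_factorial_mul_factorial (n := L + a - β) (k := L) (by omega)
    have e : L + a - β - L = a - β := by omega
    rw [e] at h
    have e' : a + L - β = L + a - β := by omega
    rw [e']
    exact_mod_cast h
  have c2 : ((L + D - 1).choose (D - 1) : ℝ) * ((D - 1).factorial : ℝ) * (L.factorial : ℝ) =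
      ((L + D - 1).factorial : ℝ) := by
    have h := Nat.choose_mul_factorial_mul_factorial (n := L + D - 1) (k := D - 1) (by omega)
    have e : L + D - 1 - (D - 1) = L := by omega
    rw [e] at h
    exact_mod_cast h
  have c3 : ((D + L).factorial : ℝ) = ((D : ℝ) + L) * ((L + D - 1).factorial : ℝ) := by
    have : D + L = (L + D - 1) + 1 := by omega
    rw [this, Nat.factorial_succ]
    have h4 : ((L + D - 1 : ℕ) : ℝ) = (L : ℝ) + D - 1 := by
      rw [Nat.cast_sub (by omega)]
      push_cast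
      ring
    push_cast
    rw [h4]
    ring
  have c4 : ((a + L).factorial : ℝ) = ((a : ℝ) + L) * ((a + L - 1).factorial : ℝ) := by
    have : a + L = (a + L - 1) + 1 := by omega
    conv_lhs => rw [this, Nat.factorial_succ]
    have h4 : ((a + L - 1 : ℕ) : ℝ) = (a : ℝ) + L - 1 := by
      rw [Nat.cast_sub (by omega)]
      push_cast
      ring
    push_cast
    rw [h4]
    ring
  have hL : (L.factorial : ℝ) ≠ 0 := by exact_mod_cast Nat.factorial_ne_zero _
  have hab : ((a - β).factorial : ℝ) ≠ 0 := by exact_mod_cast Nat.factorial_ne_zero _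
  have haL : (a : ℝ) + L ≠ 0 := by
    have : (1 : ℝ) ≤ (a : ℝ) := by exact_mod_cast h1.trans h2
    positivity
  rw [c3, c4, ← c2]
  apply mul_right_cancel₀ hab
  have goalL : ((L + a - β).choose L : ℝ) * ((a - 1).factorial : ℝ) *
      (((D : ℝ) + L) * (((L + D - 1).choose (D - 1) : ℝ) * ((D - 1).factorial : ℝ) *
        (L.factorial : ℝ))) * ((a - β).factorial : ℝ) =
      ((D : ℝ) + L) * (((L + D - 1).choose (D - 1) : ℝ) * ((D - 1).factorial : ℝ)) *
        (((a - 1).factorial : ℝ) * (((L + a - β).choose L : ℝ) * (L.factorial : ℝ) *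
          ((a - β).factorial : ℝ))) := by ring
  rw [goalL, c1, ← hp]
  field_simp

private theorem M21c_main (D D' a b x : ℕ) (hD : 1 ≤ D) (hD' : 1 ≤ D') (ha : D ≤ a) (hb : 1 ≤ b)
    (γ : S3 → ℝ) (hγ : ∀ σ, 0 ≤ γ σ) (g : S3 → S3 → ℝ) (hg : ∀ B O, 0 ≤ g B O)
    (c : ℝ) (hc : 0 < c) (hc' : γ (join [] D) = c) :
    PS 1 (a + b + x) (fun p => cls D D' a b x (fun F B O => γ (zp F) * g B O) (hd p)) /
        ((a + b + x).factorial : ℝ) ≤
      ((D : ℝ) + b + x) / ((a : ℝ) + b + x) *
        (∑ β ∈ Icc 1 a, (Qn β (a - β) (fun σ => if AL D σ then γ σ else 0) /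
          (((a - 1).factorial : ℝ) * c)) * psi β a (a + b + x)) *
        (PS 1 (D + b + x) (fun p => cls D D' D b x (fun F B O => γ (zp F) * g B O) (hd p)) /
          ((D + b + x).factorial : ℝ)) := by
  have h1 := M21c_gen D D' a b x hD hD' ha hb γ hγ g hg
  rw [M21c_pure D D' b x hD hD' hb γ g, hc']
  obtain ⟨L, hL⟩ : ∃ L, L = b + x := ⟨_, rfl⟩
  have e1 : a + b + x = a + L := by omega
  have e2 : D + b + x = D + L := by omega
  have e3 : (D : ℝ) + b + x = D + L := by rw [hL]; push_cast; ring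
  have e4 : (a : ℝ) + b + x = a + L := by rw [hL]; push_cast; ring
  rw [e1, e2, e3, e4]
  rw [e1, ← hL] at h1
  have hC : (0 : ℝ) < ((L + D - 1).choose (D - 1) : ℝ) := by
    exact_mod_cast Nat.choose_pos (by omega)
  have hfa : (0 : ℝ) < ((a + L).factorial : ℝ) := by exact_mod_cast Nat.factorial_pos _
  have hfD : (0 : ℝ) < ((D + L).factorial : ℝ) := by exact_mod_cast Nat.factorial_pos _
  have hfa1 : (0 : ℝ) < ((a - 1).factorial : ℝ) := by exact_mod_cast Nat.factorial_pos _
  have hfD1 : (0 : ℝ) < ((D - 1).factorial : ℝ) := by exact_mod_cast Nat.factorial_pos _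
  rw [div_le_iff₀ hfa]
  have h2 : (∑ β ∈ Icc 1 a, ((L + a - β).choose L : ℝ) *
        Qn β (a - β) (fun σ => if AL D σ then γ σ else 0)) =
      (∑ β ∈ Icc 1 a, (Qn β (a - β) (fun σ => if AL D σ then γ σ else 0) /
          (((a - 1).factorial : ℝ) * c)) * psi β a (a + L)) * c *
        (((D : ℝ) + L) / ((a : ℝ) + L) * (((L + D - 1).choose (D - 1) : ℝ) *
          ((D - 1).factorial : ℝ) * ((a + L).factorial : ℝ)) / ((D + L).factorial : ℝ)) := by
    rw [Finset.sum_mul, Finset.sum_mul]
    refine Finset.sum_congr rfl fun β hβ => ?_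
    rw [Finset.mem_Icc] at hβ
    have h3 := M21c_num β a D L hβ.1 hβ.2 hD
    have h4 : ((L + a - β).choose L : ℝ) = ((D : ℝ) + L) / ((a : ℝ) + L) * psi β a (a + L) *
        (((L + D - 1).choose (D - 1) : ℝ) * ((D - 1).factorial : ℝ) *
          ((a + L).factorial : ℝ)) / (((a - 1).factorial : ℝ) * ((D + L).factorial : ℝ)) := by
      rw [eq_div_iff (by positivity)]
      linear_combination h3
    rw [h4]
    have hc0 : c ≠ 0 := hc.ne'
    field_simp
  rw [h2] at h1
  have h5 := le_div_iff₀ hC |>.2 h1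
  refine h5.trans (le_of_eq ?_)
  field_simp

private theorem M21c_ym (B : S3) (r : ℕ) : (0 : ℝ) ≤ (ym B r : ℝ) := Nat.cast_nonneg _

/-- `mass_cls` for both sides (`a` and `D`), `K3_T6`, `fonly` with `L = b + x`, `γ = 1`;
`WtD [] D = (D-1)!`; binomials: `(m-e) C(L+a-β, L) (D-1+L)! / (…) = …` with
`psi β a m * (a-1)!⁻¹ …`. -/
theorem zall_le (D a b x : ℕ) (hD : 2 ≤ D) (ha : D ≤ a) (hb : 1 ≤ b) :
    zall D a b x ≤ ((D : ℝ) + b + x) / ((a : ℝ) + b + x) *
      (∑ β ∈ Icc 1 a, q1 β a D * psi β a (a + b + x)) * zall D D b x := by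
  have h := M21c_main D (D - 1) a b x (by omega) (by omega) ha hb (fun _ => 1)
    (fun _ => zero_le_one) (fun B O => if lf O = 0 then (ym B 0 : ℝ) else 0)
    (fun B O => by
      split_ifs
      · exact M21c_ym _ _
      · exact le_rfl) 1 one_pos rfl
  have e : ∀ a' : ℕ, zall D a' b x = PS 1 (a' + b + x) (fun p => cls D (D - 1) a' b x
      (fun F B O => (fun _ : S3 => (1 : ℝ)) (zp F) *
        (fun B O => if lf O = 0 then (ym B 0 : ℝ) else 0) B O) (hd p)) /
          ((a' + b + x).factorial : ℝ) := by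
    intro a'
    unfold zall EM
    congr 2
    funext p
    congr 1
    funext F B O
    rw [one_mul]
  rw [e a, e D]
  refine h.trans (le_of_eq ?_)
  congr 2
  refine Finset.sum_congr rfl fun β hβ => ?_
  rw [Finset.mem_Icc] at hβ
  unfold q1
  rw [if_neg (by omega), mul_one]

private theorem M21c_lsz (F : S3) : lsz (zp F) = lsz F := by
  unfold lsz zp
  rw [List.getLastD_eq_getLast?, List.getLastD_eq_getLast?, List.getLast?_map]
  cases F.getLast? with
  | none => rfl
  | some q => rfl

/-- the same with `γ = lsz` and the tie functional. -/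
theorem Xm_le (D a b x : ℕ) (hD : 1 ≤ D) (ha : D ≤ a) (hb : 1 ≤ b) :
    Xm D a b x ≤ ((D : ℝ) + b + x) / ((a : ℝ) + b + x) * ((a : ℝ) / D) *
      (∑ β ∈ Icc 1 a, q2 β a D * psi β a (a + b + x)) * Xm D D b x := by
  have hD0 : (0 : ℝ) < (D : ℝ) := by exact_mod_cast hD
  have hj : lsz (join [] D) = D := by
    rw [(join_last [] D).2]
    simp [below]
  have h := M21c_main D D a b x hD hD ha hb (fun σ => (lsz σ : ℝ))
    (fun _ => Nat.cast_nonneg _) (fun B _ => (lsz B : ℝ))
    (fun _ _ => Nat.cast_nonneg _) (D : ℝ) hD0 (by rw [hj])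
  have e : ∀ a' : ℕ, Xm D a' b x = PS 1 (a' + b + x) (fun p => cls D D a' b x
      (fun F B O => (fun σ : S3 => (lsz σ : ℝ)) (zp F) *
        (fun (B : S3) (_ : S3) => (lsz B : ℝ)) B O) (hd p)) /
          ((a' + b + x).factorial : ℝ) := by
    intro a'
    unfold Xm EM
    congr 2
    funext p
    congr 1
    funext F B O
    show _ = (lsz (zp F) : ℝ) * _
    rw [M21c_lsz]
  rw [e a, e D]
  refine h.trans (le_of_eq ?_)
  have h6 : (∑ β ∈ Icc 1 a, (Qn β (a - β) (fun σ => if AL D σ then (lsz σ : ℝ) else 0) /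
      (((a - 1).factorial : ℝ) * D)) * psi β a (a + b + x)) =
      ((a : ℝ) / D) * (∑ β ∈ Icc 1 a, q2 β a D * psi β a (a + b + x)) := by
    rw [Finset.mul_sum]
    refine Finset.sum_congr rfl fun β hβ => ?_
    rw [Finset.mem_Icc] at hβ
    unfold q2
    rw [if_neg (by omega)]
    have ha0 : (a : ℝ) ≠ 0 := by
      have : (1 : ℝ) ≤ (a : ℝ) := by exact_mod_cast hD.trans ha
      positivity
    have hf : (a.factorial : ℝ) = (a : ℝ) * ((a - 1).factorial : ℝ) := by
      have := Nat.mul_factorial_pred (n := a) (by omega)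
      exact_mod_cast this.symm
    have hfa1 : ((a - 1).factorial : ℝ) ≠ 0 := by exact_mod_cast Nat.factorial_ne_zero _
    rw [hf]
    field_simp
  rw [h6]
  ring

end Pool.ADM
end

section

/-! job ADM-28a: the loss by the ties in terms of the pure core masses. -/

set_option autoImplicit false

namespace Pool.ADM

open Finset

/-! ### reachable states: `leaves + level ≤ size` on levels `≥ 2` -/

private def M28a_Inv (σ : S3) : Prop := ∀ F ∈ σ, 2 ≤ F.1 → F.2.2 + F.1 ≤ F.2.1

private theorem M28a_lf_le_sz (β : S3) (h : ∀ F ∈ β, F.2.2 ≤ F.2.1) : lf β ≤ sz β := by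
  induction β with
  | nil => simp [lf, sz]
  | cons F τ ih =>
    have h1 := h F (by simp)
    have h2 := ih fun G hG => h G (by simp [hG])
    simp only [lf, sz, List.map_cons, List.sum_cons] at h2 ⊢
    omega

private theorem M28a_inv {n : ℕ} {p : Pth} (hp : VP 1 n p) : M28a_Inv (hd p) := by
  induction hp with
  | nil => intro F hF; cases hF
  | @cons n p w h σ hp hw hs ih =>
    have hV := hp.vs (le_refl 1)
    have e3 : hd ((h, σ) :: p) = σ := rfl
    rw [e3]
    rcases suc_cases 1 n (hd p) hV w h σ hs hw with ⟨_, _, hσ⟩ |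
      ⟨h1, α, β, q, τ, u, hσe, hq, _, hβ, _, hρ, hu⟩
    · subst hσ
      intro F hF h2
      rcases List.mem_append.1 hF with hF | hF
      · exact ih F hF h2
      · rw [List.mem_singleton] at hF
        subst hF
        simp at h2
    · subst hρ
      intro F hF h2
      have hmem : ∀ G, G ∈ α ∨ G ∈ β ∨ G = q ∨ G ∈ τ → G ∈ hd p := by
        intro G hG
        rw [hσe]
        simp only [List.mem_append, List.mem_cons]
        tauto
      rcases List.mem_append.1 hF with hF | hF
      · exact ih F (hmem F (Or.inl hF)) h2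
      · rcases List.mem_cons.1 hF with hF | hF
        · subst hF
          simp only at h2 ⊢
          have hβle : lf β ≤ sz β := by
            apply M28a_lf_le_sz
            intro G hG
            by_cases hG2 : 2 ≤ G.1
            · have := ih G (hmem G (Or.inr (Or.inl hG))) hG2
              omega
            · have hG1 := (hV.pos G (hmem G (Or.inr (Or.inl hG)))).1
              have := hV.one G (hmem G (Or.inr (Or.inl hG))) (by omega)
              rw [this]
          by_cases hh : 2 ≤ h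
          · have hq2 := ih q (hmem q (Or.inr (Or.inr (Or.inl rfl)))) (by omega)
            have huq : u ≤ q.2.2 := by rcases hu with ⟨hu, _⟩ | ⟨hu, _⟩ <;> omega
            omega
          · have hh1 : h = 1 := by omega
            have hq1 := hV.one q (hmem q (Or.inr (Or.inr (Or.inl rfl)))) (by omega)
            rw [hq1] at hu ⊢
            simp only at hu ⊢
            rcases hu with ⟨hu, _⟩ | ⟨hu, hw'⟩
            · omega
            · omega
        · exact ih F (hmem F (Or.inr (Or.inr (Or.inr hF)))) h2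

private theorem M28a_EM_mono (n : ℕ) (f g : S3 → ℝ)
    (h : ∀ σ, Vs 1 n σ → M28a_Inv σ → f σ ≤ g σ) : EM n f ≤ EM n g := by
  unfold EM
  apply div_le_div_of_nonneg_right _ (by positivity)
  exact PS_mono 1 n _ _ fun p hp => h (hd p) (hp.vs (le_refl 1)) (M28a_inv hp)

/-! ### the marks -/

private theorem M28a_yk_sum (sl ul b u : ℕ) (h1 : ul ≤ sl) (h2 : ul ≤ u) (h3 : u ≤ b) :
    ∑ r ∈ range (b + 1), yk sl ul b u r = sl * (b + 1) := by
  unfold yk
  rw [Finset.sum_add_distrib, Finset.sum_add_distrib]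
  have e1 : ∑ r ∈ range (b + 1), (if r = u then (sl - ul) * (b - u + 1) else 0) =
      (sl - ul) * (b - u + 1) := by
    rw [Finset.sum_ite_eq' (range (b + 1)) u]
    rw [if_pos (by rw [Finset.mem_range]; omega)]
  rw [e1]
  obtain ⟨s, rfl⟩ : ∃ s, sl = ul + s := ⟨sl - ul, by omega⟩
  obtain ⟨c, rfl⟩ : ∃ c, b = u + c := ⟨b - u, by omega⟩
  have f1 : ul + s - ul = s := by omega
  have f2 : u + c - u = c := by omega
  rw [f1, f2]
  rcases u with _ | u
  · have hul : ul = 0 := by omega
    subst hul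
    have g1 : ∑ r ∈ range (0 + c + 1), (if r + 1 = 0 then 0 * (c + 2) + s * 0 else 0) = 0 := by
      apply Finset.sum_eq_zero; intro r _; simp
    have g2 : ∑ r ∈ range (0 + c + 1), (if r + 2 = 0 then 0 * (0 - 1) else 0) = 0 := by
      apply Finset.sum_eq_zero; intro r _; simp
    rw [g1, g2]
    ring
  · have g1 : ∑ r ∈ range (u + 1 + c + 1), (if r + 1 = u + 1 then ul * (c + 2) + s * (u + 1)
        else 0) = ul * (c + 2) + s * (u + 1) := by
      have : ∀ r, (if r + 1 = u + 1 then ul * (c + 2) + s * (u + 1) else 0) =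
          (if r = u then ul * (c + 2) + s * (u + 1) else 0) := by
        intro r
        by_cases hr : r = u
        · rw [if_pos hr, if_pos (by omega)]
        · rw [if_neg hr, if_neg (by omega)]
      simp only [this]
      rw [Finset.sum_ite_eq' (range (u + 1 + c + 1)) u]
      rw [if_pos (by rw [Finset.mem_range]; omega)]
    rw [g1]
    rcases u with _ | u
    · have g2 : ∑ r ∈ range (0 + 1 + c + 1), (if r + 2 = 0 + 1 then ul * (0 + 1 - 1) else 0) = 0 := by
        apply Finset.sum_eq_zero; intro r _; simp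
      rw [g2]
      have hul : ul ≤ 1 := by omega
      ring
    · have g2 : ∑ r ∈ range (u + 1 + 1 + c + 1), (if r + 2 = u + 1 + 1 then ul * (u + 1 + 1 - 1)
          else 0) = ul * (u + 1) := by
        have : ∀ r, (if r + 2 = u + 1 + 1 then ul * (u + 1 + 1 - 1) else 0) =
            (if r = u then ul * (u + 1) else 0) := by
          intro r
          by_cases hr : r = u
          · rw [if_pos hr, if_pos (by omega)]
            congr 1
          · rw [if_neg hr, if_neg (by omega)]
        simp only [this]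
        rw [Finset.sum_ite_eq' (range (u + 1 + 1 + c + 1)) u]
        rw [if_pos (by rw [Finset.mem_range]; omega)]
      rw [g2]
      ring

/-- data of a nonempty block -/
private theorem M28a_block (B : S3) (hB : B ≠ []) (h : ∀ F ∈ B, F.2.2 ≤ F.2.1) :
    llf B ≤ lsz B ∧ llf B ≤ lf B ∧ lf B ≤ sz B ∧ lsz B ≤ sz B := by
  rcases List.eq_nil_or_concat B with e | ⟨B', q, e⟩
  · exact absurd e hB
  · subst e
    have h1 := h q (by simp)
    have h2 : lf B' ≤ sz B' := M28a_lf_le_sz B' fun F hF => h F (by simp [hF])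
    have e1 : llf (B' ++ [q]) = q.2.2 := by simp [llf, List.getLastD_eq_getLast?]
    have e2 : lsz (B' ++ [q]) = q.2.1 := by simp [lsz, List.getLastD_eq_getLast?]
    have e3 : lf (B' ++ [q]) = lf B' + q.2.2 := by simp [lf]
    have e4 : sz (B' ++ [q]) = sz B' + q.2.1 := by simp [sz]
    simp only [List.concat_eq_append] at *
    rw [e1, e2, e3, e4]
    omega

/-- marks with fewer than `D - 1` remaining letters do not exist -/
private theorem M28a_ym_zero (D : ℕ) (hD : 2 ≤ D) (B : S3) (hAL : AL (D - 1) B)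
    (hone : ∀ F ∈ B, F.1 = 1 → F = (1, 1, 1)) (hinv : M28a_Inv B) (r : ℕ) (hr : r ≤ sz B)
    (h : sz B < D - 1 + r) : ym B r = 0 := by
  obtain ⟨hne, hall⟩ := hAL
  by_cases hD3 : 3 ≤ D
  · -- leaves of `B` at most `sz B - (D-1)`
    have key : ∀ C : S3, (∀ F ∈ C, F ∈ B) → C ≠ [] → lf C + (D - 1) ≤ sz C := by
      intro C
      induction C with
      | nil => intro _ h; exact absurd rfl h
      | cons F τ ih =>
        intro hC _
        have hF := hinv F (hC F (by simp)) (by rw [hall F (hC F (by simp))]; omega)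
        rw [hall F (hC F (by simp))] at hF
        have hτ : lf τ ≤ sz τ := by
          apply M28a_lf_le_sz
          intro G hG
          have := hinv G (hC G (by simp [hG])) (by rw [hall G (hC G (by simp [hG]))]; omega)
          omega
        simp only [lf, sz, List.map_cons, List.sum_cons] at hτ ⊢
        omega
    have hk := key B (fun F hF => hF) hne
    unfold ym yk
    rw [if_neg (by omega), if_neg (by omega), if_neg (by omega)]
  · have hD2 : D = 2 := by omega
    subst hD2
    have hB1 : ∀ F ∈ B, F = (1, 1, 1) := fun F hF => hone F hF (by rw [hall F hF])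
    have hsl : lf B = sz B := by
      have key : ∀ C : S3, (∀ F ∈ C, F = (1, 1, 1)) → lf C = sz C := by
        intro C
        induction C with
        | nil => intro _; rfl
        | cons F τ ih =>
          intro hC
          have h1 := hC F (by simp)
          have h2 := ih fun G hG => hC G (by simp [hG])
          simp only [lf, sz, List.map_cons, List.sum_cons] at h2 ⊢
          rw [h1]
          simp only
          omega
      exact key B hB1
    have hr' : r = sz B := by omega
    have hll : llf B = lsz B := by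
      rcases List.eq_nil_or_concat B with e | ⟨B', q, e⟩
      · exact absurd e hne
      · subst e
        have h1 := hB1 q (by simp)
        have e1 : llf (B' ++ [q]) = q.2.2 := by simp [llf, List.getLastD_eq_getLast?]
        have e2 : lsz (B' ++ [q]) = q.2.1 := by simp [lsz, List.getLastD_eq_getLast?]
        simp only [List.concat_eq_append]
        rw [e1, e2, h1]
    unfold ym yk
    rw [hsl, hr', hll]
    simp

/-- the top block of a pure class -/
private theorem M28a_pure (D n : ℕ) (hD : 2 ≤ D) (σ F V : S3) (hσ : Vs 1 n σ) (hinv : M28a_Inv σ)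
    (e : F ++ V = σ) (hAL : AL D F) (hs : sz F = D) : F = [(D, D, 0)] := by
  obtain ⟨hne, hall⟩ := hAL
  rcases F with _ | ⟨G, τ⟩
  · exact absurd rfl hne
  · have hGσ : G ∈ σ := by rw [← e]; simp
    have hG1 := hall G (by simp)
    have hG2 := (hσ.pos G hGσ).2
    have hG3 := hinv G hGσ (by rw [hG1]; exact hD)
    rcases τ with _ | ⟨H, τ⟩
    · simp only [sz, List.map_cons, List.map_nil, List.sum_cons, List.sum_nil] at hs
      have h1 : G = (G.1, G.2.1, G.2.2) := rfl
      have h2 : G.2.1 = D := by omega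
      have h3 : G.2.2 = 0 := by omega
      rw [h1, hG1, h2, h3]
    · have hHσ : H ∈ σ := by rw [← e]; simp
      have hH := (hσ.pos H hHσ)
      simp only [sz, List.map_cons, List.sum_cons] at hs
      omega

/-- pointwise comparison on one configuration -/
private theorem M28a_point (D t : ℕ) (hD : 2 ≤ D) (f : ℕ → ℕ → ℝ) (κ : ℕ → ℕ → ℕ → ℝ)
    (hκ : ∀ b x b' x', b' ≤ b → x' ≤ x → 1 ≤ b' → D - 1 ≤ b' → D + b + x = t →
      f b x ≤ κ b' x' (t - (D + b' + x')))
    (σ F V B O : S3) (hσ : Vs 1 t σ) (hinv : M28a_Inv σ) (e1 : F ++ V = σ) (e2 : B ++ O = V) :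
    ∑ b ∈ Icc 1 t, ∑ x ∈ range (t + 1), (if D + b + x = t then f b x else 0) *
        (if AL D F ∧ sz F = D ∧ AL (D - 1) B ∧ sz B = b ∧ sz O = x then
          (lsz B : ℝ) * ((b : ℝ) + 1) else 0) ≤
      ∑ w ∈ range (t + 1), ∑ x ∈ range (t + 1), (if 2 * D - 1 + w + x ≤ t then
        κ (D - 1 + w) x (t - (2 * D - 1 + w + x)) else 0) *
        (if F = [(D, D, 0)] ∧ AL (D - 1) B ∧ D - 1 + w ≤ sz B ∧ sz O = x + lf O then
          (ym B (sz B - (D - 1 + w)) : ℝ) else 0) := by
  by_cases hc : AL D F ∧ sz F = D ∧ AL (D - 1) B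
  · obtain ⟨hAL, hsF, hB⟩ := hc
    have hF := M28a_pure D t hD σ F V hσ hinv e1 hAL hsF
    have hBσ : ∀ G ∈ B, G ∈ σ := by
      intro G hG; rw [← e1, ← e2]; simp [hG]
    have hOσ : ∀ G ∈ O, G ∈ σ := by
      intro G hG; rw [← e1, ← e2]; simp [hG]
    have hle : ∀ G ∈ σ, G.2.2 ≤ G.2.1 := by
      intro G hG
      by_cases h2 : 2 ≤ G.1
      · have := hinv G hG h2; omega
      · have := (hσ.pos G hG).1
        rw [hσ.one G hG (by omega)]
    have hO : lf O ≤ sz O := M28a_lf_le_sz O fun G hG => hle G (hOσ G hG)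
    obtain ⟨b1, b2, b3, b4⟩ := M28a_block B hB.1 fun G hG => hle G (hBσ G hG)
    have hsum : D + sz B + sz O = t := by
      have h1 := hσ.sum
      rw [← e1, ← e2] at h1
      simp only [sz, List.map_append, List.sum_append] at h1 hsF ⊢
      omega
    have hB1 : 1 ≤ sz B := by
      rcases B with _ | ⟨G, τ⟩
      · exact absurd rfl hB.1
      · have := hσ.pos G (hBσ G (by simp))
        simp only [sz, List.map_cons, List.sum_cons]
        omega
    -- the left side
    have hL : ∑ b ∈ Icc 1 t, ∑ x ∈ range (t + 1), (if D + b + x = t then f b x else 0) *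
        (if AL D F ∧ sz F = D ∧ AL (D - 1) B ∧ sz B = b ∧ sz O = x then
          (lsz B : ℝ) * ((b : ℝ) + 1) else 0) =
        f (sz B) (sz O) * ((lsz B : ℝ) * ((sz B : ℝ) + 1)) := by
      rw [Finset.sum_eq_single (sz B)]
      · rw [Finset.sum_eq_single (sz O)]
        · rw [if_pos hsum, if_pos ⟨hAL, hsF, hB, rfl, rfl⟩]
        · intro x _ hx
          exact mul_eq_zero_of_right _ (if_neg (by rintro ⟨_, _, _, _, h⟩; exact hx h.symm))
        · intro h
          exact absurd (Finset.mem_range.2 (by omega)) h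
      · intro b _ hb
        apply Finset.sum_eq_zero
        intro x _
        exact mul_eq_zero_of_right _ (if_neg (by rintro ⟨_, _, _, h, _⟩; exact hb h.symm))
      · intro h
        exact absurd (Finset.mem_Icc.2 ⟨hB1, by omega⟩) h
    rw [hL]
    -- the right side
    have hR : ∀ w ∈ range (t + 1), ∑ x ∈ range (t + 1), (if 2 * D - 1 + w + x ≤ t then
        κ (D - 1 + w) x (t - (2 * D - 1 + w + x)) else 0) *
        (if F = [(D, D, 0)] ∧ AL (D - 1) B ∧ D - 1 + w ≤ sz B ∧ sz O = x + lf O then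
          (ym B (sz B - (D - 1 + w)) : ℝ) else 0) =
        (if D - 1 + w ≤ sz B then κ (D - 1 + w) (sz O - lf O) (t - (D + (D - 1 + w) +
          (sz O - lf O))) * (ym B (sz B - (D - 1 + w)) : ℝ) else 0) := by
      intro w _
      rw [Finset.sum_eq_single (sz O - lf O)]
      · by_cases hw : D - 1 + w ≤ sz B
        · rw [if_pos hw, if_pos (by omega), if_pos ⟨hF, hB, hw, by omega⟩]
          have : 2 * D - 1 + w + (sz O - lf O) = D + (D - 1 + w) + (sz O - lf O) := by omega
          rw [this]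
        · rw [if_neg hw]
          exact mul_eq_zero_of_right _ (if_neg (fun h => hw h.2.2.1))
      · intro x _ hx
        exact mul_eq_zero_of_right _ (if_neg (by rintro ⟨_, _, _, h⟩; omega))
      · intro h
        exact absurd (Finset.mem_range.2 (by omega)) h
    rw [Finset.sum_congr rfl hR]
    -- expansion of the marks
    have hm : ((lsz B : ℝ) * ((sz B : ℝ) + 1)) = ∑ r ∈ range (sz B + 1), (ym B r : ℝ) := by
      have := M28a_yk_sum (lsz B) (llf B) (sz B) (lf B) b1 b2 b3
      have h2 : ∑ r ∈ range (sz B + 1), ym B r = lsz B * (sz B + 1) := this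
      rw [← Nat.cast_sum, h2]
      push_cast
      ring
    have hbD : D - 1 ≤ sz B := by
      rcases B with _ | ⟨G, τ⟩
      · exact absurd rfl hB.1
      · have h1 := (hσ.pos G (hBσ G (by simp))).2
        have h2 := hB.2 G (by simp)
        simp only [sz, List.map_cons, List.sum_cons]
        omega
    have hm2 : ∑ r ∈ range (sz B + 1), (ym B r : ℝ) =
        ∑ w ∈ range (t + 1), (if D - 1 + w ≤ sz B then (ym B (sz B - (D - 1 + w)) : ℝ) else 0) := by
      rw [← Finset.sum_filter]
      symm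
      rw [← Finset.sum_subset (s₁ := (range (sz B + 1)).filter fun r => D - 1 + r ≤ sz B)
        (s₂ := range (sz B + 1)) (Finset.filter_subset _ _)]
      · refine Finset.sum_bij' (fun w _ => sz B - (D - 1 + w)) (fun r _ => sz B - (D - 1) - r)
          ?_ ?_ ?_ ?_ ?_
        · intro w hw
          simp only [Finset.mem_filter, Finset.mem_range] at hw ⊢
          omega
        · intro r hr
          simp only [Finset.mem_filter, Finset.mem_range] at hr ⊢
          omega
        · intro w hw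
          simp only [Finset.mem_filter, Finset.mem_range] at hw
          omega
        · intro r hr
          simp only [Finset.mem_filter, Finset.mem_range] at hr
          omega
        · intro w hw
          rfl
      · intro r hr hr2
        simp only [Finset.mem_filter, Finset.mem_range, not_and, not_le] at hr hr2
        have := M28a_ym_zero D hD B hB (fun G hG => hσ.one G (hBσ G hG))
          (fun G hG => hinv G (hBσ G hG)) r (by omega) (hr2 hr)
        rw [this, Nat.cast_zero]
    rw [hm, hm2, Finset.mul_sum]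
    apply Finset.sum_le_sum
    intro w _
    by_cases hw : D - 1 + w ≤ sz B
    · rw [if_pos hw, if_pos hw]
      apply mul_le_mul_of_nonneg_right _ (Nat.cast_nonneg _)
      exact hκ (sz B) (sz O) (D - 1 + w) (sz O - lf O) hw (by omega) (by omega) (by omega) hsum
    · rw [if_neg hw, if_neg hw, mul_zero]
  · have hL : ∑ b ∈ Icc 1 t, ∑ x ∈ range (t + 1), (if D + b + x = t then f b x else 0) *
        (if AL D F ∧ sz F = D ∧ AL (D - 1) B ∧ sz B = b ∧ sz O = x then
          (lsz B : ℝ) * ((b : ℝ) + 1) else 0) = 0 := by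
      apply Finset.sum_eq_zero
      intro b _
      apply Finset.sum_eq_zero
      intro x _
      exact mul_eq_zero_of_right _ (if_neg (fun h => hc ⟨h.1, h.2.1, h.2.2.1⟩))
    have hR : ∑ w ∈ range (t + 1), ∑ x ∈ range (t + 1), (if 2 * D - 1 + w + x ≤ t then
        κ (D - 1 + w) x (t - (2 * D - 1 + w + x)) else 0) *
        (if F = [(D, D, 0)] ∧ AL (D - 1) B ∧ D - 1 + w ≤ sz B ∧ sz O = x + lf O then
          (ym B (sz B - (D - 1 + w)) : ℝ) else 0) = 0 := by
      apply Finset.sum_eq_zero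
      intro w _
      apply Finset.sum_eq_zero
      intro x _
      refine mul_eq_zero_of_right _ (if_neg ?_)
      rintro ⟨hF, hB, _, _⟩
      apply hc
      refine ⟨?_, ?_, hB⟩
      · rw [hF]
        refine ⟨by simp, ?_⟩
        intro q hq
        rw [List.mem_singleton] at hq
        rw [hq]
      · rw [hF]; simp [sz]
    rw [hL, hR]

private theorem M28a_cut2_mul (σ : S3) (a : ℝ) (G : S3 → S3 → S3 → ℝ) :
    cutS σ (fun F V => cutS V fun B O => a * G F B O) =
      a * cutS σ (fun F V => cutS V fun B O => G F B O) := by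
  rw [← cutS_mul]
  apply cutS_congr
  intro F V _
  exact cutS_mul V a (G F)

private theorem M28a_cut2_sum {ι : Type*} (σ : S3) (s : Finset ι) (G : ι → S3 → S3 → S3 → ℝ) :
    cutS σ (fun F V => cutS V fun B O => ∑ i ∈ s, G i F B O) =
      ∑ i ∈ s, cutS σ (fun F V => cutS V fun B O => G i F B O) := by
  rw [← cutS_sum]
  apply cutS_congr
  intro F V _
  exact cutS_sum V s fun i => G i F

/-- leaf expansion of the pure near-tie masses: on states of `t` letters the class functional of
`Vm D D b x` is a sum over the marks (`∑_r yk = sl (b+1)`); a configuration with core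
`(b', x')` and `J` unmarked leaves is counted by `cp D b' x' ≤ c0 D D b' x'`; `leaf_lemma` with `er_c0`, `c0_pure`. -/
theorem Vm_expand (D t : ℕ) (hD : 2 ≤ D) (f : ℕ → ℕ → ℝ) (κ : ℕ → ℕ → ℕ → ℝ)
    (hκ : ∀ b x b' x', b' ≤ b → x' ≤ x → 1 ≤ b' → D - 1 ≤ b' → D + b + x = t →
      f b x ≤ κ b' x' (t - (D + b' + x')))
    (hf : ∀ b x, 0 ≤ f b x) :
    ∑ b ∈ Icc 1 t, ∑ x ∈ range (t + 1), (if D + b + x = t then f b x * Vm D D b x else 0) ≤
      ∑ w ∈ range (t + 1), ∑ x ∈ range (t + 1), (if 2 * D - 1 + w + x ≤ t then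
        κ (D - 1 + w) x (t - (2 * D - 1 + w + x)) * zz D w x * fi (t - (2 * D - 1 + w + x))
        else 0) := by
  have hL : ∑ b ∈ Icc 1 t, ∑ x ∈ range (t + 1), (if D + b + x = t then f b x * Vm D D b x else 0) =
      EM t fun σ => ∑ b ∈ Icc 1 t, ∑ x ∈ range (t + 1), (if D + b + x = t then f b x else 0) *
        cls D (D - 1) D b x (fun _ B _ => (lsz B : ℝ) * ((b : ℝ) + 1)) σ := by
    rw [EM_sum]
    apply Finset.sum_congr rfl
    intro b _
    rw [EM_sum]
    apply Finset.sum_congr rfl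
    intro x _
    rw [EM_mul]
    by_cases h : D + b + x = t
    · rw [if_pos h, if_pos h]
      unfold Vm
      rw [h]
    · rw [if_neg h, if_neg h, zero_mul]
  have hR0 : ∑ w ∈ range (t + 1), ∑ x ∈ range (t + 1), (if 2 * D - 1 + w + x ≤ t then
        κ (D - 1 + w) x (t - (2 * D - 1 + w + x)) * zz D w x * fi (t - (2 * D - 1 + w + x))
        else 0) =
      EM t fun σ => ∑ w ∈ range (t + 1), ∑ x ∈ range (t + 1), (if 2 * D - 1 + w + x ≤ t then
        κ (D - 1 + w) x (t - (2 * D - 1 + w + x)) else 0) * c0 D D (D - 1 + w) x σ := by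
    rw [EM_sum]
    apply Finset.sum_congr rfl
    intro w _
    rw [EM_sum]
    apply Finset.sum_congr rfl
    intro x _
    rw [EM_mul]
    by_cases h : 2 * D - 1 + w + x ≤ t
    · rw [if_pos h, if_pos h]
      have h1 := leaf_lemma (c0 D D (D - 1 + w) x) (2 * D - 1 + w + x) (fun n σ _ hσ => by
        have h2 := er_c0 n σ hσ D D (D - 1 + w) x hD (by omega)
        have h3 : D + (D - 1 + w) + x = 2 * D - 1 + w + x := by omega
        rw [h3] at h2
        exact h2) t h
      rw [h1]
      have h4 : EM (2 * D - 1 + w + x) (c0 D D (D - 1 + w) x) = zz D w x := by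
        unfold zz
        apply EM_congr
        intro σ hσ
        have h3 : 2 * D - 1 + w + x = D + (D - 1 + w) + x := by omega
        rw [h3] at hσ
        exact c0_pure D (D - 1 + w) x hD σ hσ
      rw [h4]
      ring
    · rw [if_neg h, if_neg h, zero_mul]
  have hR : (EM t fun σ => ∑ w ∈ range (t + 1), ∑ x ∈ range (t + 1),
        (if 2 * D - 1 + w + x ≤ t then
        κ (D - 1 + w) x (t - (2 * D - 1 + w + x)) else 0) * cp D (D - 1 + w) x σ) ≤
      ∑ w ∈ range (t + 1), ∑ x ∈ range (t + 1), (if 2 * D - 1 + w + x ≤ t then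
        κ (D - 1 + w) x (t - (2 * D - 1 + w + x)) * zz D w x * fi (t - (2 * D - 1 + w + x))
        else 0) := by
    rw [hR0]
    apply EM_mono
    intro σ _
    apply Finset.sum_le_sum
    intro w _
    apply Finset.sum_le_sum
    intro x _
    by_cases h : 2 * D - 1 + w + x ≤ t
    · rw [if_pos h]
      have hk : 0 ≤ κ (D - 1 + w) x (t - (2 * D - 1 + w + x)) := by
        have h1 := hκ (D - 1 + w + (t - (2 * D - 1 + w + x))) x (D - 1 + w) x (by omega) le_rfl
          (by omega) (by omega) (by omega)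
        have h2 := hf (D - 1 + w + (t - (2 * D - 1 + w + x))) x
        have h3 : t - (D + (D - 1 + w) + x) = t - (2 * D - 1 + w + x) := by omega
        rw [h3] at h1
        linarith
      apply mul_le_mul_of_nonneg_left _ hk
      unfold cp c0
      apply cutS_mono
      intro F V _
      apply cutS_mono
      intro B O _
      by_cases hF : F = [(D, D, 0)] ∧ AL (D - 1) B ∧ D - 1 + w ≤ sz B ∧ sz O = x + lf O
      · rw [if_pos hF]
        have hc : AL D F ∧ sz F = D + lf F ∧ AL (D - 1) B ∧ D - 1 + w ≤ sz B ∧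
            sz O = x + lf O := by
          obtain ⟨h1, h2⟩ := hF
          subst h1
          refine ⟨⟨by simp, by simp⟩, by simp [sz, lf], h2⟩
        rw [if_pos hc]
      · rw [if_neg hF]
        split_ifs
        · positivity
        · exact le_rfl
    · rw [if_neg h, zero_mul, zero_mul]
  rw [hL]
  refine le_trans ?_ hR
  apply M28a_EM_mono
  intro σ hσ hinv
  have hA : ∑ b ∈ Icc 1 t, ∑ x ∈ range (t + 1), (if D + b + x = t then f b x else 0) *
        cls D (D - 1) D b x (fun _ B _ => (lsz B : ℝ) * ((b : ℝ) + 1)) σ =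
      cutS σ fun F V => cutS V fun B O => ∑ b ∈ Icc 1 t, ∑ x ∈ range (t + 1),
        (if D + b + x = t then f b x else 0) *
        (if AL D F ∧ sz F = D ∧ AL (D - 1) B ∧ sz B = b ∧ sz O = x then
          (lsz B : ℝ) * ((b : ℝ) + 1) else 0) := by
    rw [M28a_cut2_sum]
    apply Finset.sum_congr rfl
    intro b _
    rw [M28a_cut2_sum]
    apply Finset.sum_congr rfl
    intro x _
    rw [M28a_cut2_mul]
    rfl
  have hB : ∑ w ∈ range (t + 1), ∑ x ∈ range (t + 1), (if 2 * D - 1 + w + x ≤ t then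
        κ (D - 1 + w) x (t - (2 * D - 1 + w + x)) else 0) * cp D (D - 1 + w) x σ =
      cutS σ fun F V => cutS V fun B O => ∑ w ∈ range (t + 1), ∑ x ∈ range (t + 1),
        (if 2 * D - 1 + w + x ≤ t then κ (D - 1 + w) x (t - (2 * D - 1 + w + x)) else 0) *
        (if F = [(D, D, 0)] ∧ AL (D - 1) B ∧ D - 1 + w ≤ sz B ∧ sz O = x + lf O then
          (ym B (sz B - (D - 1 + w)) : ℝ) else 0) := by
    rw [M28a_cut2_sum]
    apply Finset.sum_congr rfl
    intro w _
    rw [M28a_cut2_sum]
    apply Finset.sum_congr rfl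
    intro x _
    rw [M28a_cut2_mul]
    rfl
  rw [hA, hB]
  apply cutS_mono
  intro F V e1
  apply cutS_mono
  intro B O e2
  exact M28a_point D t hD f κ hκ σ F V B O hσ hinv e1 e2

theorem rho_mono (a b b' : ℕ) (h : b ≤ b') : rho a b ≤ rho a b' := by
  obtain ⟨k, rfl⟩ := Nat.exists_eq_add_of_le h
  unfold rho
  have ha : (0 : ℝ) ≤ a := Nat.cast_nonneg a
  have hb : (0 : ℝ) ≤ b := Nat.cast_nonneg b
  have hk : (0 : ℝ) ≤ k := Nat.cast_nonneg k
  push_cast
  rw [div_le_div_iff₀ (by positivity) (by positivity)]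
  have e : (b + k + 1 : ℝ) * (2 * a + (b + k) + 1) * ((a + 1) * (a + b + 1)) -
      (b + 1) * (2 * a + b + 1) * ((a + 1) * (a + (b + k) + 1)) =
      (a + 1) * k * (2 * a ^ 2 + 2 * a * (b + 1) + a * k + (b + 1) ^ 2 + (b + 1) * k) := by ring
  have e2 : 0 ≤ ((a : ℝ) + 1) * k * (2 * a ^ 2 + 2 * a * (b + 1) + a * k + (b + 1) ^ 2 +
      (b + 1) * k) := by positivity
  linarith

theorem rho_pure (a b : ℕ) (h : a ≤ b) : 1 ≤ rho a b := by
  unfold rho
  have ha : (0 : ℝ) ≤ a := Nat.cast_nonneg a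
  have hab : (a : ℝ) ≤ b := by exact_mod_cast h
  rw [le_div_iff₀ (by positivity), one_mul]
  apply mul_le_mul <;> nlinarith

end Pool.ADM
end
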