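import Pool.Agent.Lib.MP_ad84ff_coM.M01

section

/-! job ADN-01: reduction of the partial sums to `Ft`. -/

set_option autoImplicit false

namespace Pool.ADM

open Finset

private theorem N01_fi (j : ℕ) : 0 ≤ fi j := by
  unfold fi
  positivity

private theorem N01_fm (j : ℕ) : fm j = j * fi j := by
  unfold fm fi
  rcases Nat.eq_zero_or_pos j with h | h
  · subst h
    simp
  · rw [if_neg (by omega)]
    obtain ⟨i, rfl⟩ : ∃ i, j = i + 1 := ⟨j - 1, by omega⟩
    have h1 : ((i.factorial : ℕ) : ℝ) ≠ 0 := by exact_mod_cast Nat.factorial_ne_zero i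
    have h2 : ((i + 1 : ℕ) : ℝ) ≠ 0 := by exact_mod_cast Nat.succ_ne_zero i
    rw [Nat.add_sub_cancel, Nat.factorial_succ, Nat.cast_mul]
    field_simp

private theorem N01_Ps_nonneg (a m : ℕ) (h : a ≤ m + 1) (hm : 1 ≤ m) : 0 ≤ Ps a m := by
  unfold Ps
  have h1 : (a : ℝ) ≤ m + 1 := by exact_mod_cast h
  have h2 : (1 : ℝ) ≤ m := by exact_mod_cast hm
  refine div_nonneg ?_ (mul_nonneg (by linarith) (by linarith))
  rcases Nat.lt_or_ge a 2 with h3 | h3
  · interval_cases a <;> norm_num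
  · have h4 : (2 : ℝ) ≤ a := by exact_mod_cast h3
    exact mul_nonneg (by linarith) (by linarith)

private theorem N01_Ps_mono (a m : ℕ) (ha : 2 ≤ a) (h : a + 1 ≤ m) : Ps a m ≤ Ps (a + 1) m := by
  unfold Ps
  have h1 : (a : ℝ) + 1 ≤ m := by exact_mod_cast h
  have h2 : (2 : ℝ) ≤ a := by exact_mod_cast ha
  push_cast
  apply div_le_div₀
  · exact mul_nonneg (by linarith) (by linarith)
  · nlinarith
  · exact mul_pos (by linarith) (by linarith)
  · apply mul_le_mul_of_nonneg_right <;> linarith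

private theorem N01_Ps_step {G G' : ℝ} (a m : ℕ) (ha : 2 ≤ a) (h : a + 1 ≤ m) (hG : 0 ≤ G)
    (hG' : G ≤ G') : 0 ≤ G' * Ps (a + 1) m - G * Ps a m := by
  have h1 := N01_Ps_mono a m ha h
  have h2 := N01_Ps_nonneg a m (by omega) (by omega)
  have h3 : G * Ps a m ≤ G' * Ps (a + 1) m := mul_le_mul hG' h1 h2 (hG.trans hG')
  linarith

private theorem N01_dev_nonneg (a M j : ℕ) : 0 ≤ dev a M j := by
  unfold dev
  split_ifs
  · exact le_rfl
  · exact mul_nonneg (le_max_right _ _) (N01_fi j)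

private theorem N01_P2_nonneg (D e : ℕ) : 0 ≤ P2 D e := by
  unfold P2
  rcases Nat.eq_zero_or_pos e with h | h
  · subst h
    simp
  · have h1 : (1 : ℝ) ≤ e := by exact_mod_cast h
    split_ifs
    · exact div_nonneg zero_le_one (mul_nonneg (by linarith) (by linarith))
    · exact div_nonneg zero_le_one (mul_nonneg (by linarith) (by linarith))
    · exact le_rfl

private theorem N01_P2s_nonneg (D e : ℕ) : 0 ≤ P2s D e := by
  unfold P2s
  rcases Nat.eq_zero_or_pos e with h | h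
  · subst h
    simp
  · have h1 : (1 : ℝ) ≤ e := by exact_mod_cast h
    split_ifs
    · exact div_nonneg zero_le_one (mul_nonneg (by linarith) (by linarith))
    · exact le_rfl

private theorem N01_Gev_nonneg (D w x j k : ℕ) (hD : 2 ≤ D) (hk : k ≤ D - 1) :
    0 ≤ Gev D w x j k := by
  unfold Gev
  have h1 : (k : ℝ) + 1 ≤ D := by exact_mod_cast (by omega : k + 1 ≤ D)
  have h2 : (2 : ℝ) ≤ D := by exact_mod_cast hD
  have h3 : (0 : ℝ) ≤ w := Nat.cast_nonneg w
  have h4 : (0 : ℝ) ≤ x := Nat.cast_nonneg x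
  refine div_nonneg (div_nonneg (mul_nonneg (N01_dev_nonneg _ _ _) ?_) ?_) ?_ <;> linarith

private theorem N01_God_nonneg (D w x j k : ℕ) (hD : 2 ≤ D) (hk : k ≤ D - 1) :
    0 ≤ God D w x j k := by
  unfold God
  have h1 : (k : ℝ) + 1 ≤ D := by exact_mod_cast (by omega : k + 1 ≤ D)
  have h2 : (2 : ℝ) ≤ D := by exact_mod_cast hD
  have h3 : (0 : ℝ) ≤ w := Nat.cast_nonneg w
  have h4 : (0 : ℝ) ≤ x := Nat.cast_nonneg x
  refine div_nonneg (div_nonneg (mul_nonneg (N01_dev_nonneg _ _ _) ?_) ?_) ?_ <;> linarith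

private theorem N01_Gh_nonneg (D w x j k : ℕ) : 0 ≤ Gh D w x j k := by
  induction k with
  | zero => exact le_rfl
  | succ k ih => exact ih.trans (le_max_left _ _)

private theorem N01_rho_pos (a b : ℕ) : 0 < rho a b := by
  unfold rho
  positivity

private theorem N01_Hw_nonneg (w x J n d e : ℕ) (h : e ≤ n) : 0 ≤ Hw w x J n d e := by
  unfold Hw
  have h1 : (e : ℝ) ≤ n := by exact_mod_cast h
  have h2 := N01_rho_pos d (d + w)
  refine div_nonneg (mul_nonneg (mul_nonneg (div_nonneg (mul_nonneg ?_ (le_max_left _ _)) h2.le)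
    ?_) ?_) ?_
  · positivity
  · positivity
  · exact div_nonneg (by linarith) (Nat.cast_nonneg n)
  · positivity

private theorem N01_Hh_nonneg (D w x J n par k : ℕ) (h : par ≤ n) :
    0 ≤ Hh D w x J n par k := by
  induction k with
  | zero => exact N01_Hw_nonneg _ _ _ _ _ _ h
  | succ k ih => exact ih.trans (le_max_left _ _)

/-- `Dc ≥ 0`: `Gh` is a nondecreasing running maximum of nonnegative numbers, `Ps (D+k+1) m` is
nondecreasing in `k` and nonnegative, `Rd ≥ 0`. -/
theorem Dc_nonneg (D w x j : ℕ) (hD : 2 ≤ D) : 0 ≤ Dc D w x j := by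
  unfold Dc
  have hD' : (2 : ℝ) ≤ D := by exact_mod_cast hD
  have hw : (0 : ℝ) ≤ w := Nat.cast_nonneg w
  have hx : (0 : ℝ) ≤ x := Nat.cast_nonneg x
  refine Finset.sum_nonneg fun k hk => ?_
  obtain ⟨hk1, hk2⟩ := Finset.mem_Icc.mp hk
  have hk0 : (0 : ℝ) ≤ k := Nat.cast_nonneg k
  refine add_nonneg (add_nonneg ?_ ?_) (mul_nonneg ?_ (Rd_nonneg _ _))
  · exact mul_nonneg (mul_nonneg (N01_Gev_nonneg D w x j k hD (by omega)) (N01_P2_nonneg _ _))
      (div_nonneg (by linarith) (by linarith))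
  · exact mul_nonneg (mul_nonneg (N01_God_nonneg D w x j k hD (by omega)) (N01_P2_nonneg _ _))
      (div_nonneg (by linarith) (by linarith))
  · obtain ⟨i, rfl⟩ : ∃ i, k = i + 1 := ⟨k - 1, by omega⟩
    rw [Nat.add_sub_cancel]
    exact N01_Ps_step (D + (i + 1)) (2 * D + w + x) (by omega) (by omega)
      (N01_Gh_nonneg D w x j i) (le_max_left _ _)

theorem Hp_nonneg (D w x J par : ℕ) (hD : 2 ≤ D) (hp : par ≤ 1) :
    0 ≤ Hp D w x J (2 * D - 2 + w + x + J + par) par := by
  unfold Hp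
  have hD' : (2 : ℝ) ≤ D := by exact_mod_cast hD
  refine Finset.sum_nonneg fun k hk => ?_
  have hk' := Finset.mem_range.mp hk
  have hn : (1 : ℝ) ≤ ((2 * D - 2 + w + x + J + par : ℕ) : ℝ) := by
    exact_mod_cast (by omega : 1 ≤ 2 * D - 2 + w + x + J + par)
  have hk0 : (0 : ℝ) ≤ k := Nat.cast_nonneg k
  have hp0 : (0 : ℝ) ≤ par := Nat.cast_nonneg par
  refine add_nonneg ?_ (mul_nonneg ?_ (Rd_nonneg _ _))
  · exact mul_nonneg (mul_nonneg (N01_Hw_nonneg _ _ _ _ _ _ (by omega)) (N01_P2s_nonneg _ _))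
      (div_nonneg (by linarith) (by linarith))
  · rcases Nat.eq_zero_or_pos k with h0 | h0
    · subst h0
      rw [if_pos rfl, sub_zero]
      exact mul_nonneg (N01_Hh_nonneg D w x J _ par 0 (by omega))
        (N01_Ps_nonneg _ _ (by omega) (by omega))
    · rw [if_neg (by omega)]
      obtain ⟨i, rfl⟩ : ∃ i, k = i + 1 := ⟨k - 1, by omega⟩
      have e : D - 1 + (i + 1) + par = (D - 2 + (i + 1) + par) + 1 := by omega
      rw [e, Nat.add_sub_cancel]
      exact N01_Ps_step (D - 2 + (i + 1) + par) _ (by omega) (by omega)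
        (N01_Hh_nonneg D w x J _ par i (by omega)) (le_max_left _ _)

theorem Hc_nonneg (D w x j : ℕ) (hD : 2 ≤ D) : 0 ≤ Hc D w x j := by
  unfold Hc
  refine add_nonneg (mul_nonneg (N01_fi j) ?_) ?_
  · have h := Hp_nonneg D w x j 0 hD (by omega)
    rwa [Nat.add_zero] at h
  · split_ifs with h
    · exact le_rfl
    · have h1 := Hp_nonneg D w x (j - 1) 1 hD le_rfl
      have e : 2 * D - 2 + w + x + (j - 1) + 1 = 2 * D - 2 + w + x + j := by omega
      rw [e] at h1
      exact mul_nonneg (N01_fi _) h1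

theorem Lo_nonneg (D w x j : ℕ) (hD : 2 ≤ D) (hj : 2 ≤ j) : 0 ≤ Lo D w x j := by
  unfold Lo
  have hD' : (2 : ℝ) ≤ D := by exact_mod_cast hD
  have hj' : (2 : ℝ) ≤ j := by exact_mod_cast hj
  have hw : (0 : ℝ) ≤ w := Nat.cast_nonneg w
  have hx : (0 : ℝ) ≤ x := Nat.cast_nonneg x
  refine add_nonneg (add_nonneg (add_nonneg ?_ ?_) (Dc_nonneg D w x j hD))
    (Hc_nonneg D w x j hD)
  · unfold LT
    exact div_nonneg (mul_nonneg (add_nonneg (mul_nonneg (by linarith) (by linarith)) (by norm_num))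
      (N01_fi j)) (by linarith)
  · unfold LE
    split_ifs with h
    · exact le_rfl
    · have h3 : (3 : ℝ) ≤ j := by exact_mod_cast (by omega : 3 ≤ j)
      refine div_nonneg (mul_nonneg (N01_fi _) (add_nonneg (div_nonneg (mul_nonneg
        (add_nonneg (mul_nonneg ?_ ?_) ?_) ?_) (by norm_num)) ?_)) (mul_nonneg ?_ ?_) <;> linarith

/-- for `j0 ≤ 1` there is no defect: `dev (D+k) (2D-1+w) 1 = 0` for `k ≤ D - 2`. -/
theorem cc_main (D w x j0 : ℕ) (hD : 2 ≤ D) (hj : j0 ≤ 1) :
    cc D w x j0 = Am D w x j0 - Hc D w x j0 := by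
  have hD' : (2 : ℝ) ≤ D := by exact_mod_cast hD
  have hw : (0 : ℝ) ≤ w := Nat.cast_nonneg w
  have hx : (0 : ℝ) ≤ x := Nat.cast_nonneg x
  have h1 : ∀ k, k + 2 ≤ D → Gev D w x j0 k = 0 := by
    intro k hk
    have hk' : (k : ℝ) + 2 ≤ D := by exact_mod_cast hk
    have h2 : dev (D + k) (2 * D - 1 + w) j0 = 0 := by
      unfold dev
      split_ifs with h
      · rfl
      · have hj1 : j0 = 1 := by omega
        subst hj1
        have e : ((2 * D - 1 + w : ℕ) : ℝ) = 2 * D - 1 + w := by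
          rw [Nat.cast_add, Nat.cast_sub (by omega)]
          push_cast
          ring
        rw [e]
        push_cast
        have h6 : max (max ((1 : ℝ) * ((D : ℝ) + k) - (2 * D - 1 + w - 1)) (1 - 1)) 0 = 0 :=
          le_antisymm (max_le (max_le (by linarith) (by norm_num)) le_rfl) (le_max_right _ _)
        rw [h6, zero_mul]
    unfold Gev
    rw [h2, zero_mul, zero_div, zero_div]
  have h2 : ∀ k, God D w x j0 k = 0 := by
    intro k
    have h2 : dev (D + k + 1) (2 * D + w) (j0 - 1) = 0 := by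
      unfold dev
      rw [if_pos (by omega)]
    unfold God
    rw [h2, zero_mul, zero_div, zero_div]
  have h3 : ∀ k, k + 2 ≤ D → Gh D w x j0 k = 0 := by
    intro k
    induction k with
    | zero => intro _; rfl
    | succ k ih =>
      intro hk
      show max (Gh D w x j0 k) (max (Gev D w x j0 (k + 1)) (God D w x j0 (k + 1))) = 0
      rw [ih (by omega), h1 (k + 1) (by omega), h2, max_self, max_self]
  have h4 : Dc D w x j0 = 0 := by
    unfold Dc
    refine Finset.sum_eq_zero fun k hk => ?_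
    obtain ⟨hk1, hk2⟩ := Finset.mem_Icc.mp hk
    rw [h1 k (by omega), h2, h3 k (by omega), h3 (k - 1) (by omega)]
    ring
  have h5 : Tc D w j0 + Ec D w x j0 = Am D w x j0 := by
    have e1 : (D : ℝ) + 1 + w ≠ 0 := by positivity
    have e2 : 2 * (D : ℝ) + w + x ≠ 0 := by
      have : 0 < 2 * (D : ℝ) + w + x := by linarith
      exact this.ne'
    rcases Nat.le_one_iff_eq_zero_or_eq_one.mp hj with h | h
    · subst h
      simp [Tc, Ec, Am, fi, fm]
    · subst h
      simp only [Tc, Ec, Am, fi, fm]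
      norm_num
      field_simp
      ring
  unfold cc
  rw [h4, ← h5]
  ring

/-- `fm j = j fi j`; `Tc ≥ -LT`, `Ec ≥ -LE`. -/
theorem cc_loss (D w x j : ℕ) (hD : 2 ≤ D) (hj : 2 ≤ j) : -Lo D w x j ≤ cc D w x j := by
  have hD' : (2 : ℝ) ≤ D := by exact_mod_cast hD
  have hj' : (2 : ℝ) ≤ j := by exact_mod_cast hj
  have hw : (0 : ℝ) ≤ w := Nat.cast_nonneg w
  have hx : (0 : ℝ) ≤ x := Nat.cast_nonneg x
  have hT : -LT D w j ≤ Tc D w j := by
    unfold LT Tc
    rw [N01_fm, ← neg_div]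
    have h0 := N01_fi j
    refine div_le_div_of_nonneg_right ?_ (by linarith)
    have h1 : 0 ≤ (w : ℝ) * fi j := mul_nonneg hw h0
    nlinarith
  have hE : -LE D w x j ≤ Ec D w x j := by
    unfold LE Ec
    rw [if_neg (by omega : ¬ j = 0), N01_fm]
    have h0 := N01_fi (j - 1)
    have e : ((j - 1 : ℕ) : ℝ) = j - 1 := by
      rw [Nat.cast_sub (by omega)]
      simp
    rw [e]
    have p1 : 0 < (D : ℝ) + 1 + w := by linarith
    have p2 : 0 < 2 * (D : ℝ) + w + x := by linarith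
    set f := fi (j - 1) with hf
    have e2 : (((2 * (D : ℝ) - 1 + w) * f - (D + 1) * ((j - 1) * f)) * (D - 2) /
        (2 * (2 * D + w + x)) + (f - (j - 1) * f) / (2 * D + w + x)) / ((D : ℝ) + 1 + w) =
        -(f * (((D + 1) * ((j : ℝ) - 1) - (2 * D - 1 + w)) * ((D : ℝ) - 2) / 2 + ((j : ℝ) - 2)) /
          ((2 * (D : ℝ) + w + x) * ((D : ℝ) + 1 + w))) := by
      field_simp
      ring
    rw [e2]
    apply neg_le_neg
    split_ifs with h
    · have hj2 : j = 2 := by omega
      subst hj2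
      refine div_nonpos_of_nonpos_of_nonneg (mul_nonpos_of_nonneg_of_nonpos h0 ?_)
        (mul_nonneg p2.le p1.le)
      have h5 : 0 ≤ ((D : ℝ) - 2 + w) * ((D : ℝ) - 2) := mul_nonneg (by linarith) (by linarith)
      push_cast
      nlinarith
    · refine div_le_div_of_nonneg_right (mul_le_mul_of_nonneg_left ?_ h0)
        (mul_nonneg p2.le p1.le)
      have h5 : 0 ≤ (w : ℝ) * ((D : ℝ) - 2) := mul_nonneg hw (by linarith)
      nlinarith
  unfold cc Lo
  linarith

theorem Ft_le (Δ w x j0 k : ℕ) (hj : j0 ≤ 1) (hk : k + 2 ≤ Δ) :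
    Ft Δ w x j0 (Δ - 2) ≤ ∑ i ∈ range (k + 1), cc (Δ - i) w x (j0 + 2 * i) := by
  have h1 : ∑ i ∈ range (k + 1), cc (Δ - i) w x (j0 + 2 * i) =
      cc Δ w x j0 + ∑ i ∈ Icc 1 k, cc (Δ - i) w x (j0 + 2 * i) := by
    rw [Finset.sum_range_succ', add_comm]
    congr 1
    rw [Finset.sum_bij (fun i _ => i + 1)]
    · intro i hi
      rw [Finset.mem_range] at hi
      rw [Finset.mem_Icc]
      omega
    · intro a _ b _ hab
      omega
    · intro b hb
      rw [Finset.mem_Icc] at hb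
      exact ⟨b - 1, Finset.mem_range.mpr (by omega), by omega⟩
    · intro i _
      rfl
  have h2 : ∑ i ∈ Icc 1 k, -Lo (Δ - i) w x (j0 + 2 * i) ≤
      ∑ i ∈ Icc 1 k, cc (Δ - i) w x (j0 + 2 * i) := by
    refine Finset.sum_le_sum fun i hi => ?_
    obtain ⟨hi1, hi2⟩ := Finset.mem_Icc.mp hi
    exact cc_loss _ w x _ (by omega) (by omega)
  have h3 : ∑ i ∈ Icc 1 k, Lo (Δ - i) w x (j0 + 2 * i) ≤
      ∑ i ∈ Icc 1 (Δ - 2), Lo (Δ - i) w x (j0 + 2 * i) := by
    refine Finset.sum_le_sum_of_subset_of_nonneg (Finset.Icc_subset_Icc le_rfl (by omega))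
      fun i hi _ => ?_
    obtain ⟨hi1, hi2⟩ := Finset.mem_Icc.mp hi
    exact Lo_nonneg _ w x _ (by omega) (by omega)
  rw [Finset.sum_neg_distrib] at h2
  rw [h1, cc_main Δ w x j0 (by omega) hj]
  unfold Ft
  linarith

end Pool.ADM
end

section

/-! Kernel checks, `97 ≤ Δ ≤ 105`. -/

set_option autoImplicit false
set_option maxRecDepth 100000

namespace Pool.ADM

theorem n12_97_0 : chkL 97 0 0 0 [177] = true := by decide +kernel

theorem n12_97_1 : chkL 97 0 1 0 [58, 300] = true := by decide +kernel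

theorem n12_98_0 : chkL 98 0 0 0 [179] = true := by decide +kernel

theorem n12_98_1 : chkL 98 0 1 0 [59, 305] = true := by decide +kernel

theorem n12_99_0 : chkL 99 0 0 0 [181] = true := by decide +kernel

theorem n12_99_1 : chkL 99 0 1 0 [59, 304] = true := by decide +kernel

theorem n12_100_0 : chkL 100 0 0 0 [183] = true := by decide +kernel

theorem n12_100_1 : chkL 100 0 1 0 [60, 310] = true := by decide +kernel

theorem n12_101_0 : chkL 101 0 0 0 [185] = true := by decide +kernel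

theorem n12_101_1 : chkL 101 0 1 0 [61, 315] = true := by decide +kernel

theorem n12_102_0 : chkL 102 0 0 0 [187] = true := by decide +kernel

theorem n12_102_1 : chkL 102 0 1 0 [61, 315] = true := by decide +kernel

theorem n12_103_0 : chkL 103 0 0 0 [189] = true := by decide +kernel

theorem n12_103_1 : chkL 103 0 1 0 [62, 320] = true := by decide +kernel

theorem n12_104_0 : chkL 104 0 0 0 [190] = true := by decide +kernel

theorem n12_104_1 : chkL 104 0 1 0 [63, 325] = true := by decide +kernel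

theorem n12_105_0 : chkL 105 0 0 0 [192] = true := by decide +kernel

theorem n12_105_1 : chkL 105 0 1 0 [63, 325] = true := by decide +kernel

end Pool.ADM
end
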