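import Pool.Agent.Lib.MP_ad84ff_coM.M01

section

/-! job ADN-05: bounds of `Rd`.  `Rd δ (n+1)` is the probability that a random permutation of `n`
letters has all the cycles `≤ δ`. -/

set_option autoImplicit false

namespace Pool.ADM

open Finset

private theorem N05_rec (δ n : ℕ) (h1 : δ ≤ n) (h2 : 1 ≤ n) :
    (n : ℝ) * Rd δ (n + 1) = ∑ i ∈ range δ, Rd δ (n - i) := by
  rw [Rd_rec δ (n + 1) (by omega)]
  have hn : (0 : ℝ) < (n : ℝ) := by exact_mod_cast h2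
  have e : ((n + 1 : ℕ) : ℝ) - 1 = (n : ℝ) := by push_cast; ring
  rw [e, mul_div_cancel₀ _ (ne_of_gt hn)]
  refine Finset.sum_congr rfl fun i _ => ?_
  congr 1
  omega

/-- from `Rd_rec` for `n + 1` and `n + 2` (`Rd_le` for `n = δ`). -/
theorem Rd_diff (δ n : ℕ) (hδ : 1 ≤ δ) (h : δ ≤ n) :
    Rd δ (n + 1) - Rd δ (n + 2) = Rd δ (n - δ + 1) / ((n : ℝ) + 1) := by
  obtain ⟨d, rfl⟩ : ∃ d, δ = d + 1 := ⟨δ - 1, by omega⟩
  have h1 := N05_rec (d + 1) n h (by omega)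
  have h2 := N05_rec (d + 1) (n + 1) (by omega) (by omega)
  rw [Finset.sum_range_succ] at h1
  rw [Finset.sum_range_succ'] at h2
  have e1 : ∑ i ∈ range d, Rd (d + 1) (n + 1 - (i + 1)) = ∑ i ∈ range d, Rd (d + 1) (n - i) :=
    Finset.sum_congr rfl fun i _ => by congr 1; omega
  rw [e1] at h2
  have e2 : n - d = n - (d + 1) + 1 := by omega
  rw [e2] at h1
  have hn : (0 : ℝ) < (n : ℝ) + 1 := by positivity
  rw [eq_div_iff (ne_of_gt hn)]
  push_cast at h2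
  have e3 : n + 1 + 1 = n + 2 := rfl
  rw [e3] at h2
  linarith

private theorem N05_one (δ a : ℕ) (hδ : 1 ≤ δ) (h : a ≤ δ + 1) : Rd δ a = 1 := by
  rcases Nat.lt_or_ge a (δ + 1) with h' | h'
  · exact Rd_le δ a (by omega)
  · have ea : a = δ + 1 := by omega
    subst ea
    have h1 := N05_rec δ δ le_rfl hδ
    have h2 : ∑ i ∈ range δ, Rd δ (δ - i) = (δ : ℝ) := by
      rw [Finset.sum_congr rfl fun i _ => Rd_le δ (δ - i) (by omega)]
      simp
    rw [h2] at h1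
    have hn : (0 : ℝ) < (δ : ℝ) := by exact_mod_cast hδ
    have h3 : (δ : ℝ) * Rd δ (δ + 1) = (δ : ℝ) * 1 := by rw [h1, mul_one]
    exact mul_left_cancel₀ (ne_of_gt hn) h3

theorem Rd_harm (δ n : ℕ) (hδ : 1 ≤ δ) (h1 : δ ≤ n) (h2 : n ≤ 2 * δ + 1) :
    Rd δ (n + 1) = 1 - ∑ l ∈ Ico (δ + 1) (n + 1), 1 / (l : ℝ) := by
  induction n, h1 using Nat.le_induction with
  | base => rw [N05_one δ (δ + 1) hδ le_rfl]; simp
  | succ n hn ih =>
    have h3 := ih (by omega)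
    have h4 := Rd_diff δ n hδ hn
    rw [N05_one δ (n - δ + 1) hδ (by omega)] at h4
    rw [Finset.sum_Ico_succ_top (by omega)]
    push_cast
    have e3 : n + 1 + 1 = n + 2 := rfl
    rw [e3]
    linarith

/-- Cauchy-Schwarz: `∑ 1/l ≥ (n-δ)² / ∑ l`. -/
theorem Rd_harm_le (δ n : ℕ) (hδ : 1 ≤ δ) (h1 : δ ≤ n) (h2 : n ≤ 2 * δ + 1) :
    Rd δ (n + 1) ≤ 1 - 2 * ((n : ℝ) - δ) / ((n : ℝ) + δ + 1) := by
  induction n, h1 using Nat.le_induction with
  | base => rw [N05_one δ (δ + 1) hδ le_rfl]; simp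
  | succ n hn ih =>
    have h3 := ih (by omega)
    have h4 := Rd_diff δ n hδ hn
    rw [N05_one δ (n - δ + 1) hδ (by omega)] at h4
    have e3 : n + 1 + 1 = n + 2 := rfl
    rw [e3]
    have hn' : (δ : ℝ) ≤ (n : ℝ) := by exact_mod_cast hn
    have hd' : (1 : ℝ) ≤ (δ : ℝ) := by exact_mod_cast hδ
    have key : 2 * (((n + 1 : ℕ) : ℝ) - δ) / (((n + 1 : ℕ) : ℝ) + δ + 1)
        ≤ 2 * ((n : ℝ) - δ) / ((n : ℝ) + δ + 1) + 1 / ((n : ℝ) + 1) := by
      have p1 : (0 : ℝ) < (n : ℝ) + δ + 1 := by linarith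
      have p2 : (0 : ℝ) < (n : ℝ) + 1 := by linarith
      have p3 : (0 : ℝ) < ((n + 1 : ℕ) : ℝ) + δ + 1 := by push_cast; linarith
      rw [div_add_div _ _ (ne_of_gt p1) (ne_of_gt p2), div_le_div_iff₀ p3 (mul_pos p1 p2)]
      push_cast
      nlinarith [mul_nonneg (sub_nonneg.2 hn') (by linarith : (0 : ℝ) ≤ (n : ℝ) - δ + 1),
        mul_nonneg (mul_nonneg (sub_nonneg.2 hn') (by linarith : (0 : ℝ) ≤ (n : ℝ) - δ + 1)) p2.le]
    linarith

private theorem N05_pair (δ a c i : ℕ) (hδ : 1 ≤ δ) (ha : δ ≤ a) (hc : a ≤ c) :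
    Rd δ (c + 1) - Rd δ (c + i + 1) ≤ Rd δ (a + 1) - Rd δ (a + i + 1) := by
  induction i with
  | zero => simp
  | succ i ih =>
    have h1 := Rd_diff δ (c + i) hδ (by omega)
    have h2 := Rd_diff δ (a + i) hδ (by omega)
    have h3 : Rd δ (c + i - δ + 1) / (((c + i : ℕ) : ℝ) + 1) ≤
        Rd δ (a + i - δ + 1) / (((a + i : ℕ) : ℝ) + 1) := by
      refine div_le_div₀ (Rd_nonneg _ _) (Rd_anti δ _ _ (by omega)) (by positivity) ?_
      have : ((a + i : ℕ) : ℝ) ≤ ((c + i : ℕ) : ℝ) := by exact_mod_cast (by omega)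
      linarith
    have e1 : c + (i + 1) + 1 = c + i + 2 := by ring
    have e2 : a + (i + 1) + 1 = a + i + 2 := by ring
    rw [e1, e2]
    linarith

/-- `p n = Rd δ (n+1)` is convex on `[δ, ∞)` (`Rd_diff`: the decrements are nonincreasing), hence
`n p n = ∑_{i=1}^δ p (n-i)` gives `(n + 1) p n ≤ (δ+1) (p (n-δ) + p n) / 2`. -/
theorem Rd_conv (δ n : ℕ) (hδ : 1 ≤ δ) (h : 2 * δ ≤ n) :
    Rd δ (n + 1) ≤ ((δ : ℝ) + 1) / (2 * (n : ℝ) + 1 - δ) * Rd δ (n - δ + 1) := by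
  have h1 := N05_rec δ n (by omega) (by omega)
  have hsum : ∑ i ∈ range (δ + 1), Rd δ (n - i + 1) = ((n : ℝ) + 1) * Rd δ (n + 1) := by
    rw [Finset.sum_range_succ']
    have e : ∑ i ∈ range δ, Rd δ (n - (i + 1) + 1) = ∑ i ∈ range δ, Rd δ (n - i) :=
      Finset.sum_congr rfl fun i hi => by
        have := Finset.mem_range.mp hi
        congr 1; omega
    rw [e, ← h1]
    simp only [Nat.sub_zero]
    ring
  have hrefl : ∑ i ∈ range (δ + 1), Rd δ (n - δ + i + 1) = ∑ i ∈ range (δ + 1), Rd δ (n - i + 1) := by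
    rw [← Finset.sum_range_reflect (fun i => Rd δ (n - i + 1)) (δ + 1)]
    refine Finset.sum_congr rfl fun i hi => ?_
    have := Finset.mem_range.mp hi
    congr 1; omega
  have hpair : ∑ i ∈ range (δ + 1), (Rd δ (n - δ + i + 1) + Rd δ (n - i + 1)) ≤
      ∑ _i ∈ range (δ + 1), (Rd δ (n - δ + 1) + Rd δ (n + 1)) := by
    refine Finset.sum_le_sum fun i hi => ?_
    have hi' := Finset.mem_range.mp hi
    have h2 := N05_pair δ (n - δ) (n - i) i hδ (by omega) (by omega)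
    have e : n - i + i + 1 = n + 1 := by omega
    rw [e] at h2
    linarith
  rw [Finset.sum_add_distrib, hrefl, hsum] at hpair
  simp only [Finset.sum_const, Finset.card_range, nsmul_eq_mul] at hpair
  push_cast at hpair
  have hn : (2 : ℝ) * (δ : ℝ) ≤ (n : ℝ) := by exact_mod_cast h
  have hd : (1 : ℝ) ≤ (δ : ℝ) := by exact_mod_cast hδ
  have hp : (0 : ℝ) < 2 * (n : ℝ) + 1 - δ := by linarith
  rw [div_mul_eq_mul_div, le_div_iff₀ hp]
  nlinarith [hpair]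

end Pool.ADM
end

section

/-! job ADN-22: majorants of `φ_k = Gh_k Ps_k` (`w = 0`). -/

set_option autoImplicit false

namespace Pool.ADM

open Finset

/-- the part `β = 2` of `Dc` -/
noncomputable def DcB (D w x j : ℕ) : ℝ :=
  ∑ k ∈ Icc 1 (D - 2),
    (Gev D w x j k * P2 (D - k) (2 * k) * (((D : ℝ) + k - 1) / (2 * D - 2 + w + x)) +
     God D w x j k * P2 (D - k) (2 * k + 1) * (((D : ℝ) + k) / (2 * D - 1 + w + x)))

/-- `φ_k` -/
noncomputable def phD (D x j k : ℕ) : ℝ := Gh D 0 x j k * Ps (D + k + 1) (2 * D + 0 + x)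

theorem Dc_split (D x j : ℕ) :
    Dc D 0 x j = DcB D 0 x j +
      ∑ k ∈ Icc 1 (D - 2), (phD D x j k - phD D x j (k - 1)) * Rd (D - k) (D + k) := by
  unfold Dc DcB
  rw [← Finset.sum_add_distrib]
  refine Finset.sum_congr rfl fun k hk => ?_
  have hk1 : 1 ≤ k := (Finset.mem_Icc.mp hk).1
  unfold phD
  have e : D + (k - 1) + 1 = D + k := by omega
  rw [e]

theorem phD_zero (D x j : ℕ) : phD D x j 0 = 0 := by
  unfold phD
  rw [Gh, zero_mul]

private theorem n22_fi (j : ℕ) : 0 ≤ fi j := by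
  unfold fi
  positivity

private theorem n22_Gh_nonneg (D x j k : ℕ) : 0 ≤ Gh D 0 x j k := by
  induction k with
  | zero => rw [Gh]
  | succ k ih => rw [Gh]; exact le_trans ih (le_max_left _ _)

private theorem n22_Ps (D x k : ℕ) :
    Ps (D + k + 1) (2 * D + 0 + x) =
      ((D : ℝ) + k) * ((D : ℝ) + k - 1) / (((D : ℝ) - k + x) * (2 * (D : ℝ) - 1 + x)) := by
  unfold Ps
  push_cast
  congr 1 <;> ring

theorem phD_mono (D x j k : ℕ) (hk : k + 3 ≤ D) : phD D x j k ≤ phD D x j (k + 1) := by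
  unfold phD
  have h1 : Gh D 0 x j k ≤ Gh D 0 x j (k + 1) := by
    rw [Gh]; exact le_max_left _ _
  have hD : (3 : ℝ) + k ≤ (D : ℝ) := by exact_mod_cast (by omega : 3 + k ≤ D)
  have hk0 : (0 : ℝ) ≤ (k : ℝ) := Nat.cast_nonneg k
  have hx0 : (0 : ℝ) ≤ (x : ℝ) := Nat.cast_nonneg x
  have h2 : Ps (D + k + 1) (2 * D + 0 + x) ≤ Ps (D + (k + 1) + 1) (2 * D + 0 + x) := by
    rw [n22_Ps, n22_Ps]
    push_cast
    apply div_le_div₀
    · apply mul_nonneg <;> linarith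
    · apply mul_le_mul <;> linarith
    · apply mul_pos <;> linarith
    · apply mul_le_mul_of_nonneg_right <;> linarith
  have h3 : 0 ≤ Ps (D + k + 1) (2 * D + 0 + x) := by
    rw [n22_Ps]
    apply div_nonneg
    · apply mul_nonneg <;> linarith
    · apply mul_nonneg <;> linarith
  exact mul_le_mul h1 h2 h3 (n22_Gh_nonneg _ _ _ _)

/-- the larger one of the two numerators of `Gev`, `God` -/
noncomputable def gmD (D j k : ℕ) : ℝ :=
  max (((j : ℝ) * ((D : ℝ) + k) - 2 * D + 2) * fi j)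
    (if j = 2 then 0 else (((j : ℝ) - 1) * ((D : ℝ) + k + 1) - 2 * D + 1) * fi (j - 1))

private theorem n22_gmD_nonneg (D j k : ℕ) (hj : 2 ≤ j) : 0 ≤ gmD D j k := by
  unfold gmD
  refine le_trans ?_ (le_max_left _ _)
  apply mul_nonneg _ (n22_fi j)
  have h1 : (2 : ℝ) ≤ (j : ℝ) := by exact_mod_cast hj
  have h2 : (0 : ℝ) ≤ (D : ℝ) + k := by positivity
  have h3 : (0 : ℝ) ≤ (k : ℝ) := Nat.cast_nonneg k
  nlinarith [mul_le_mul_of_nonneg_right h1 h2]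

private theorem n22_gmD_mono (D j k k' : ℕ) (hj : 2 ≤ j) (h : k' ≤ k) : gmD D j k' ≤ gmD D j k := by
  unfold gmD
  have h1 : (2 : ℝ) ≤ (j : ℝ) := by exact_mod_cast hj
  have h3 : (k' : ℝ) ≤ (k : ℝ) := by exact_mod_cast h
  apply max_le_max
  · apply mul_le_mul_of_nonneg_right _ (n22_fi j)
    have : (j : ℝ) * ((D : ℝ) + k') ≤ (j : ℝ) * ((D : ℝ) + k) := by
      apply mul_le_mul_of_nonneg_left _ (by linarith)
      linarith
    linarith
  · by_cases hj2 : j = 2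
    · simp [hj2]
    · rw [if_neg hj2, if_neg hj2]
      apply mul_le_mul_of_nonneg_right _ (n22_fi _)
      have : ((j : ℝ) - 1) * ((D : ℝ) + k' + 1) ≤ ((j : ℝ) - 1) * ((D : ℝ) + k + 1) := by
        apply mul_le_mul_of_nonneg_left _ (by linarith)
        linarith
      linarith

private theorem n22_dev1 (D j k : ℕ) (hj : 2 ≤ j) (hD : 1 ≤ D) :
    dev (D + k) (2 * D - 1 + 0) j = ((j : ℝ) * ((D : ℝ) + k) - 2 * D + 2) * fi j := by
  unfold dev
  rw [if_neg (by omega)]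
  have h1 : (2 : ℝ) ≤ (j : ℝ) := by exact_mod_cast hj
  have h2 : (1 : ℝ) ≤ (D : ℝ) := by exact_mod_cast hD
  have h3 : (0 : ℝ) ≤ (k : ℝ) := Nat.cast_nonneg k
  have e : ((2 * D - 1 + 0 : ℕ) : ℝ) = 2 * (D : ℝ) - 1 := by
    have : 1 ≤ 2 * D := by omega
    push_cast [Nat.cast_sub this]
    ring
  rw [e]
  push_cast
  have h4 : (2 : ℝ) * ((D : ℝ) + k - 1) ≤ (j : ℝ) * ((D : ℝ) + k - 1) :=
    mul_le_mul_of_nonneg_right h1 (by linarith)
  rw [max_eq_left, max_eq_left]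
  · ring
  · nlinarith
  · refine le_trans ?_ (le_max_left _ _)
    nlinarith

private theorem n22_dev2 (D j k : ℕ) (hj : 2 ≤ j) (hk : k + 2 ≤ D) :
    dev (D + k + 1) (2 * D + 0) (j - 1) =
      if j = 2 then 0 else (((j : ℝ) - 1) * ((D : ℝ) + k + 1) - 2 * D + 1) * fi (j - 1) := by
  unfold dev
  rw [if_neg (by omega)]
  have h1 : (2 : ℝ) ≤ (j : ℝ) := by exact_mod_cast hj
  have h2 : (2 : ℝ) + k ≤ (D : ℝ) := by exact_mod_cast (by omega : 2 + k ≤ D)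
  have h3 : (0 : ℝ) ≤ (k : ℝ) := Nat.cast_nonneg k
  have e : ((j - 1 : ℕ) : ℝ) = (j : ℝ) - 1 := by
    rw [Nat.cast_sub (by omega)]
    simp
  rw [e]
  push_cast
  by_cases hj2 : j = 2
  · rw [if_pos hj2]
    subst hj2
    push_cast
    rw [max_eq_right, zero_mul]
    apply max_le <;> linarith
  · rw [if_neg hj2]
    have h5 : (3 : ℝ) ≤ (j : ℝ) := by exact_mod_cast (by omega : 3 ≤ j)
    have h4 : (2 : ℝ) * ((D : ℝ) + k) ≤ ((j : ℝ) - 1) * ((D : ℝ) + k) :=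
      mul_le_mul_of_nonneg_right (by linarith) (by linarith)
    rw [max_eq_left, max_eq_left]
    · ring
    · nlinarith
    · refine le_trans ?_ (le_max_left _ _)
      nlinarith

private theorem n22_frac (D x k k' : ℕ) (h : k' ≤ k) (hk : k + 2 ≤ D) :
    ((2 * (D : ℝ) - 1 + x) - 2 * k') / ((D : ℝ) - k' + 1) ≤ 2 + (x : ℝ) / ((D : ℝ) - k + 1) := by
  have h2 : (2 : ℝ) + k ≤ (D : ℝ) := by exact_mod_cast (by omega : 2 + k ≤ D)
  have h3 : (k' : ℝ) ≤ (k : ℝ) := by exact_mod_cast h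
  have hx0 : (0 : ℝ) ≤ (x : ℝ) := Nat.cast_nonneg x
  have hp' : (0 : ℝ) < (D : ℝ) - k' + 1 := by linarith
  have hp : (0 : ℝ) < (D : ℝ) - k + 1 := by linarith
  rw [div_le_iff₀ hp']
  have : (x : ℝ) ≤ (x : ℝ) / ((D : ℝ) - k + 1) * ((D : ℝ) - k' + 1) := by
    rw [div_mul_eq_mul_div, le_div_iff₀ hp]
    apply mul_le_mul_of_nonneg_left _ hx0
    linarith
  nlinarith

private theorem n22_Gev_le (D x j k k' : ℕ) (hj : 2 ≤ j) (h : k' ≤ k) (hk : k + 2 ≤ D) :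
    Gev D 0 x j k' ≤
      gmD D j k * ((2 + (x : ℝ) / ((D : ℝ) - k + 1)) / (2 * (D : ℝ) - 1 + x)) := by
  unfold Gev
  rw [n22_dev1 D j k' hj (by omega)]
  have h2 : (2 : ℝ) + k ≤ (D : ℝ) := by exact_mod_cast (by omega : 2 + k ≤ D)
  have h3 : (k' : ℝ) ≤ (k : ℝ) := by exact_mod_cast h
  have h0 : (0 : ℝ) ≤ (k' : ℝ) := Nat.cast_nonneg k'
  have hx0 : (0 : ℝ) ≤ (x : ℝ) := Nat.cast_nonneg x
  have hm : (0 : ℝ) < 2 * (D : ℝ) - 1 + x := by linarith
  have hp' : (0 : ℝ) < (D : ℝ) - k' + 1 := by linarith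
  have hF := n22_frac D x k k' h hk
  have hg : ((j : ℝ) * ((D : ℝ) + k') - 2 * D + 2) * fi j ≤ gmD D j k :=
    le_trans (le_max_left _ _) (n22_gmD_mono D j k k' hj h)
  have hg0 : 0 ≤ gmD D j k := n22_gmD_nonneg D j k hj
  have e : ((j : ℝ) * ((D : ℝ) + k') - 2 * D + 2) * fi j * ((2 * (D : ℝ) - 1 + (0 : ℕ) + x) - 2 * k') /
      (2 * (D : ℝ) - 1 + (0 : ℕ) + x) / ((D : ℝ) - k' + 1 + (0 : ℕ)) =
      ((j : ℝ) * ((D : ℝ) + k') - 2 * D + 2) * fi j *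
        ((((2 * (D : ℝ) - 1 + x) - 2 * k') / ((D : ℝ) - k' + 1)) / (2 * (D : ℝ) - 1 + x)) := by
    push_cast
    rw [add_zero, add_zero]
    field_simp
  rw [e]
  have hq0 : 0 ≤ (((2 * (D : ℝ) - 1 + x) - 2 * k') / ((D : ℝ) - k' + 1)) / (2 * (D : ℝ) - 1 + x) := by
    apply div_nonneg (div_nonneg _ hp'.le) hm.le
    linarith
  refine mul_le_mul hg ?_ hq0 hg0
  exact div_le_div_of_nonneg_right hF hm.le

private theorem n22_God_le (D x j k k' : ℕ) (hj : 2 ≤ j) (h : k' ≤ k) (hk : k + 2 ≤ D) :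
    God D 0 x j k' ≤
      gmD D j k * ((2 + (x : ℝ) / ((D : ℝ) - k + 1)) / (2 * (D : ℝ) - 1 + x)) := by
  unfold God
  rw [n22_dev2 D j k' hj (by omega)]
  have h2 : (2 : ℝ) + k ≤ (D : ℝ) := by exact_mod_cast (by omega : 2 + k ≤ D)
  have h3 : (k' : ℝ) ≤ (k : ℝ) := by exact_mod_cast h
  have h0 : (0 : ℝ) ≤ (k' : ℝ) := Nat.cast_nonneg k'
  have hx0 : (0 : ℝ) ≤ (x : ℝ) := Nat.cast_nonneg x
  have hm : (0 : ℝ) < 2 * (D : ℝ) - 1 + x := by linarith
  have hm' : (0 : ℝ) < 2 * (D : ℝ) + x := by linarith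
  have hp' : (0 : ℝ) < (D : ℝ) - k' + 1 := by linarith
  have hF := n22_frac D x k k' h hk
  set dv : ℝ := if j = 2 then 0 else
    (((j : ℝ) - 1) * ((D : ℝ) + k' + 1) - 2 * D + 1) * fi (j - 1) with hdv
  have hg : dv ≤ gmD D j k :=
    le_trans (le_max_right _ _) (n22_gmD_mono D j k k' hj h)
  have hg0 : 0 ≤ gmD D j k := n22_gmD_nonneg D j k hj
  have e : dv * ((2 * (D : ℝ) - 1 + (0 : ℕ) + x) - 2 * k') /
      (2 * (D : ℝ) + (0 : ℕ) + x) / ((D : ℝ) - k' + 1 + (0 : ℕ)) =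
      dv * ((((2 * (D : ℝ) - 1 + x) - 2 * k') / ((D : ℝ) - k' + 1)) / (2 * (D : ℝ) + x)) := by
    push_cast
    rw [add_zero, add_zero, add_zero]
    field_simp
  rw [e]
  have hn0 : 0 ≤ ((2 * (D : ℝ) - 1 + x) - 2 * k') / ((D : ℝ) - k' + 1) := by
    apply div_nonneg _ hp'.le
    linarith
  have hq0 : 0 ≤ (((2 * (D : ℝ) - 1 + x) - 2 * k') / ((D : ℝ) - k' + 1)) / (2 * (D : ℝ) + x) :=
    div_nonneg hn0 hm'.le
  refine mul_le_mul hg ?_ hq0 hg0
  calc (((2 * (D : ℝ) - 1 + x) - 2 * k') / ((D : ℝ) - k' + 1)) / (2 * (D : ℝ) + x)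
      ≤ (((2 * (D : ℝ) - 1 + x) - 2 * k') / ((D : ℝ) - k' + 1)) / (2 * (D : ℝ) - 1 + x) :=
        div_le_div_of_nonneg_left hn0 hm (by linarith)
    _ ≤ _ := div_le_div_of_nonneg_right hF hm.le

/-- with `m = 2D-1+x`, for `k' ≤ k`: `Gev, God ≤ gmD k' (m-2k')/(m (D-k'+1)) ≤
gmD k (2 + x/(D-k+1))/m` because `(m-2k')/(D-k'+1) = 2 + (x-3)/(D-k'+1) ≤ 2 + x/(D-k+1)` -/
theorem Gh_le (D x j k : ℕ) (hj : 2 ≤ j) (hk : k + 2 ≤ D) :
    Gh D 0 x j k ≤ gmD D j k * ((2 + (x : ℝ) / ((D : ℝ) - k + 1)) / (2 * (D : ℝ) - 1 + x)) := by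
  have key : ∀ k' : ℕ, k' ≤ k → Gh D 0 x j k' ≤
      gmD D j k * ((2 + (x : ℝ) / ((D : ℝ) - k + 1)) / (2 * (D : ℝ) - 1 + x)) := by
    intro k'
    induction k' with
    | zero =>
      intro _
      rw [Gh]
      have h2 : (2 : ℝ) + k ≤ (D : ℝ) := by exact_mod_cast (by omega : 2 + k ≤ D)
      have h0 : (0 : ℝ) ≤ (k : ℝ) := Nat.cast_nonneg k
      have hx0 : (0 : ℝ) ≤ (x : ℝ) := Nat.cast_nonneg x
      apply mul_nonneg (n22_gmD_nonneg D j k hj)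
      apply div_nonneg
      · have : 0 ≤ (x : ℝ) / ((D : ℝ) - k + 1) := div_nonneg hx0 (by linarith)
        linarith
      · linarith
    | succ k' ih =>
      intro h
      rw [Gh]
      exact max_le (ih (by omega)) (max_le (n22_Gev_le D x j k (k' + 1) hj h hk)
        (n22_God_le D x j k (k' + 1) hj h hk))
  exact key k le_rfl

/-- From `Gh_le` and `(2(s+1)+x) s ≤ 2 (s+1) (s+x)`, `s = D - k`. -/
theorem phD_le (D x j k : ℕ) (hj : 2 ≤ j) (hk : k + 2 ≤ D) :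
    phD D x j k ≤ gmD D j k *
      (2 * ((D : ℝ) + k) * ((D : ℝ) + k - 1) / (((D : ℝ) - k) * (2 * (D : ℝ) - 1 + x) ^ 2)) := by
  have h2 : (2 : ℝ) + k ≤ (D : ℝ) := by exact_mod_cast (by omega : 2 + k ≤ D)
  have h0 : (0 : ℝ) ≤ (k : ℝ) := Nat.cast_nonneg k
  have hx0 : (0 : ℝ) ≤ (x : ℝ) := Nat.cast_nonneg x
  have hm : (0 : ℝ) < 2 * (D : ℝ) - 1 + x := by linarith
  have hs : (0 : ℝ) < (D : ℝ) - k := by linarith
  have hg0 : 0 ≤ gmD D j k := n22_gmD_nonneg D j k hj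
  unfold phD
  have hP0 : 0 ≤ ((D : ℝ) + k) * ((D : ℝ) + k - 1) / (((D : ℝ) - k + x) * (2 * (D : ℝ) - 1 + x)) := by
    apply div_nonneg
    · apply mul_nonneg <;> linarith
    · apply mul_nonneg <;> linarith
  rw [n22_Ps]
  refine le_trans (mul_le_mul_of_nonneg_right (Gh_le D x j k hj hk) hP0) ?_
  rw [mul_assoc]
  apply mul_le_mul_of_nonneg_left _ hg0
  set s : ℝ := (D : ℝ) - k with hsd
  set m : ℝ := 2 * (D : ℝ) - 1 + x with hmd
  set N : ℝ := ((D : ℝ) + k) * ((D : ℝ) + k - 1) with hN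
  have hN0 : 0 ≤ N := by apply mul_nonneg <;> linarith
  have hs1 : (0 : ℝ) < s + 1 := by linarith
  have hsx : (0 : ℝ) < s + x := by linarith
  have e1 : (2 + (x : ℝ) / (s + 1)) / m * (N / ((s + x) * m)) =
      N * (2 * (s + 1) + x) / ((s + 1) * (s + x) * m ^ 2) := by
    field_simp
  have e2 : 2 * ((D : ℝ) + k) * ((D : ℝ) + k - 1) / (s * m ^ 2) = N * 2 / (s * m ^ 2) := by
    rw [hN]; ring
  rw [e1, e2, div_le_div_iff₀ (by positivity) (by positivity)]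
  have h5 : (2 * (s + 1) + x) * s ≤ 2 * ((s + 1) * (s + x)) := by nlinarith
  calc N * (2 * (s + 1) + x) * (s * m ^ 2) = (N * m ^ 2) * ((2 * (s + 1) + x) * s) := by ring
    _ ≤ (N * m ^ 2) * (2 * ((s + 1) * (s + x))) :=
        mul_le_mul_of_nonneg_left h5 (by positivity)
    _ = N * 2 * ((s + 1) * (s + x) * m ^ 2) := by ring

/-- the coefficient with `1/D ≤ 1/120`, `k/D = κ` -/
def gQ (j : ℕ) (κ : ℚ) : ℚ :=
  max (((j : ℚ) * (1 + κ) - 2 + 2 / 120) / (j.factorial : ℚ))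
    (if j = 2 then 0 else
      (((j : ℚ) - 1) * (1 + κ) - 2 + (j : ℚ) / 120) / ((j - 1).factorial : ℚ))

private theorem n22_gmD_le (D j k : ℕ) (hD : 120 ≤ D) (hj : 2 ≤ j) (κ : ℚ)
    (hκ : (k : ℝ) ≤ (κ : ℝ) * D) : gmD D j k ≤ (D : ℝ) * ((gQ j κ : ℚ) : ℝ) := by
  have hD' : (120 : ℝ) ≤ (D : ℝ) := by exact_mod_cast hD
  have h1 : (2 : ℝ) ≤ (j : ℝ) := by exact_mod_cast hj
  have e : ((gQ j κ : ℚ) : ℝ) =
      max (((j : ℝ) * (1 + (κ : ℝ)) - 2 + 2 / 120) / (j.factorial : ℝ))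
        (if j = 2 then 0 else
          (((j : ℝ) - 1) * (1 + (κ : ℝ)) - 2 + (j : ℝ) / 120) / ((j - 1).factorial : ℝ)) := by
    unfold gQ
    by_cases hj2 : j = 2
    · rw [if_pos hj2, if_pos hj2]; push_cast; rfl
    · rw [if_neg hj2, if_neg hj2]; push_cast; rfl
  rw [e]
  unfold gmD fi
  apply max_le
  · refine le_trans ?_ (mul_le_mul_of_nonneg_left (le_max_left _ _) (by linarith))
    rw [mul_one_div, ← mul_div_assoc]
    apply div_le_div_of_nonneg_right _ (by positivity)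
    have : (j : ℝ) * (k : ℝ) ≤ (j : ℝ) * ((κ : ℝ) * D) :=
      mul_le_mul_of_nonneg_left hκ (by linarith)
    nlinarith
  · refine le_trans ?_ (mul_le_mul_of_nonneg_left (le_max_right _ _) (by linarith))
    by_cases hj2 : j = 2
    · rw [if_pos hj2, if_pos hj2]; simp
    · rw [if_neg hj2, if_neg hj2, mul_one_div, ← mul_div_assoc]
      apply div_le_div_of_nonneg_right _ (by positivity)
      have h5 : ((j : ℝ) - 1) * (k : ℝ) ≤ ((j : ℝ) - 1) * ((κ : ℝ) * D) :=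
        mul_le_mul_of_nonneg_left hκ (by linarith)
      have h6 : (j : ℝ) ≤ (D : ℝ) * ((j : ℝ) / 120) := by
        have : (j : ℝ) / 120 * 120 ≤ (j : ℝ) / 120 * D :=
          mul_le_mul_of_nonneg_left hD' (by positivity)
        linarith
      nlinarith

private theorem n22_gQ_nonneg (j : ℕ) (κ : ℚ) (hj : 2 ≤ j) (h0 : 0 ≤ κ) :
    0 ≤ ((gQ j κ : ℚ) : ℝ) := by
  have : 0 ≤ gQ j κ := by
    unfold gQ
    refine le_trans ?_ (le_max_left _ _)
    apply div_nonneg _ (by positivity)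
    have h1 : (2 : ℚ) ≤ (j : ℚ) := by exact_mod_cast hj
    have h2 : (2 : ℚ) * (1 + κ) ≤ (j : ℚ) * (1 + κ) :=
      mul_le_mul_of_nonneg_right h1 (by linarith)
    linarith
  exact_mod_cast this

theorem phD_cell (D x j k : ℕ) (hD : 120 ≤ D) (hj : 2 ≤ j) (hk : k + 2 ≤ D) (κ : ℚ) (h0 : 0 ≤ κ)
    (h1 : κ < 1) (hκ : (k : ℝ) ≤ (κ : ℝ) * D) :
    phD D x j k ≤ (2 * (D : ℝ) / (2 * (D : ℝ) - 1 + x)) ^ 2 *
      ((gQ j κ * ((1 + κ) ^ 2 / (2 * (1 - κ))) : ℚ) : ℝ) := by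
  have hD' : (120 : ℝ) ≤ (D : ℝ) := by exact_mod_cast hD
  have h2 : (2 : ℝ) + k ≤ (D : ℝ) := by exact_mod_cast (by omega : 2 + k ≤ D)
  have hk0 : (0 : ℝ) ≤ (k : ℝ) := Nat.cast_nonneg k
  have hx0 : (0 : ℝ) ≤ (x : ℝ) := Nat.cast_nonneg x
  have hm : (0 : ℝ) < 2 * (D : ℝ) - 1 + x := by linarith
  have hs : (0 : ℝ) < (D : ℝ) - k := by linarith
  have h0' : (0 : ℝ) ≤ (κ : ℝ) := by exact_mod_cast h0
  have h1' : (κ : ℝ) < 1 := by exact_mod_cast h1
  have hg := n22_gmD_le D j k hD hj κ hκ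
  have hq := n22_gQ_nonneg j κ hj h0
  refine le_trans (phD_le D x j k hj hk) ?_
  have hF0 : 0 ≤ 2 * ((D : ℝ) + k) * ((D : ℝ) + k - 1) /
      (((D : ℝ) - k) * (2 * (D : ℝ) - 1 + x) ^ 2) := by
    apply div_nonneg
    · apply mul_nonneg <;> linarith
    · positivity
  refine le_trans (mul_le_mul_of_nonneg_right hg hF0) ?_
  have hDp : (0 : ℝ) < (D : ℝ) := by linarith
  have h1k : (0 : ℝ) < 1 - (κ : ℝ) := by linarith
  have hF : 2 * ((D : ℝ) + k) * ((D : ℝ) + k - 1) / (((D : ℝ) - k) * (2 * (D : ℝ) - 1 + x) ^ 2) ≤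
      2 * (D * (1 + (κ : ℝ))) * (D * (1 + (κ : ℝ))) /
        ((D * (1 - (κ : ℝ))) * (2 * (D : ℝ) - 1 + x) ^ 2) := by
    apply div_le_div₀
    · positivity
    · apply mul_le_mul <;> nlinarith
    · positivity
    · apply mul_le_mul_of_nonneg_right _ (by positivity)
      nlinarith
  refine le_trans (mul_le_mul_of_nonneg_left hF (mul_nonneg hDp.le hq)) ?_
  push_cast
  apply le_of_eq
  field_simp
  try ring

theorem phD_tail (D x j k : ℕ) (hD : 120 ≤ D) (hj : 2 ≤ j) (hk : k + 2 ≤ D) :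
    phD D x j k ≤ (2 * (D : ℝ) / (2 * (D : ℝ) - 1 + x)) ^ 2 *
      (((gQ j 1 : ℚ) : ℝ) * (2 * (D : ℝ) / ((D : ℝ) - k))) := by
  have hD' : (120 : ℝ) ≤ (D : ℝ) := by exact_mod_cast hD
  have h2 : (2 : ℝ) + k ≤ (D : ℝ) := by exact_mod_cast (by omega : 2 + k ≤ D)
  have hk0 : (0 : ℝ) ≤ (k : ℝ) := Nat.cast_nonneg k
  have hx0 : (0 : ℝ) ≤ (x : ℝ) := Nat.cast_nonneg x
  have hm : (0 : ℝ) < 2 * (D : ℝ) - 1 + x := by linarith
  have hs : (0 : ℝ) < (D : ℝ) - k := by linarith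
  have hκ : (k : ℝ) ≤ ((1 : ℚ) : ℝ) * D := by push_cast; linarith
  have hg := n22_gmD_le D j k hD hj 1 hκ
  have hq := n22_gQ_nonneg j 1 hj zero_le_one
  refine le_trans (phD_le D x j k hj hk) ?_
  have hF0 : 0 ≤ 2 * ((D : ℝ) + k) * ((D : ℝ) + k - 1) /
      (((D : ℝ) - k) * (2 * (D : ℝ) - 1 + x) ^ 2) := by
    apply div_nonneg
    · apply mul_nonneg <;> linarith
    · positivity
  refine le_trans (mul_le_mul_of_nonneg_right hg hF0) ?_
  have hDp : (0 : ℝ) < (D : ℝ) := by linarith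
  have hF : 2 * ((D : ℝ) + k) * ((D : ℝ) + k - 1) / (((D : ℝ) - k) * (2 * (D : ℝ) - 1 + x) ^ 2) ≤
      2 * (2 * (D : ℝ)) * (2 * (D : ℝ)) / (((D : ℝ) - k) * (2 * (D : ℝ) - 1 + x) ^ 2) := by
    apply div_le_div_of_nonneg_right _ (by positivity)
    apply mul_le_mul <;> nlinarith
  refine le_trans (mul_le_mul_of_nonneg_left hF (mul_nonneg hDp.le hq)) ?_
  apply le_of_eq
  field_simp

end Pool.ADM
end

section

/-! Kernel checks, `106 ≤ Δ ≤ 113`. -/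

set_option autoImplicit false
set_option maxRecDepth 100000

namespace Pool.ADM

theorem n12_106_0 : chkL 106 0 0 0 [194] = true := by decide +kernel

theorem n12_106_1 : chkL 106 0 1 0 [64, 330] = true := by decide +kernel

theorem n12_107_0 : chkL 107 0 0 0 [196] = true := by decide +kernel

theorem n12_107_1 : chkL 107 0 1 0 [65, 336] = true := by decide +kernel

theorem n12_108_0 : chkL 108 0 0 0 [198] = true := by decide +kernel

theorem n12_108_1 : chkL 108 0 1 0 [65, 335] = true := by decide +kernel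

theorem n12_109_0 : chkL 109 0 0 0 [200] = true := by decide +kernel

theorem n12_109_1 : chkL 109 0 1 0 [66, 340] = true := by decide +kernel

theorem n12_110_0 : chkL 110 0 0 0 [202] = true := by decide +kernel

theorem n12_110_1 : chkL 110 0 1 0 [67, 346] = true := by decide +kernel

theorem n12_111_0 : chkL 111 0 0 0 [203] = true := by decide +kernel

theorem n12_111_1 : chkL 111 0 1 0 [67, 345] = true := by decide +kernel

theorem n12_112_0 : chkL 112 0 0 0 [205] = true := by decide +kernel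

theorem n12_112_1 : chkL 112 0 1 0 [68, 350] = true := by decide +kernel

theorem n12_113_0 : chkL 113 0 0 0 [207] = true := by decide +kernel

theorem n12_113_1 : chkL 113 0 1 0 [68, 350] = true := by decide +kernel

end Pool.ADM
end
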