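import Pool.Agent.Lib.MP_ad84ff_coM.M01
import Pool.Agent.Lib.MP_ad84ff_coM.N12c
import Pool.Agent.Lib.MP_ad84ff_co.WdMain
import Pool.Agent.Lib.MP_ad84ff_coM.N12g

section

/-! job ADN-25: majorants of `φ_k = Hh_k Ps` for the ties (`w = 0`).

`d = D-1-k`, `a = D-1+k+par`, `s = D-k`, `X = x+J`, `n = 2D-2+X+par`.
`Hw = (X+1) h (n-e)/(n (d+2))` with `h = max 0 (1 - rho a d) / rho d d * (a/d)`, nondecreasing in `k`;
`(n-e)/(d+2) = (2(D-1-k)+X)/(D+1-k) ≤ (2(s+1)+X)/(s+1)`, nondecreasing bound; so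
`φ_k ≤ h (a-1)(a-2)/(n (n-1)) * (X+1)(2(s+1)+X)/((s+1)(s+X))`  (`n-a+1 = s+X`). -/

set_option autoImplicit false

namespace Pool.ADM

open Finset

/-- `φ_k` for the ties -/
noncomputable def phH (D x J par k : ℕ) : ℝ :=
  Hh D 0 x J (2 * D - 2 + 0 + x + J + par) par k *
    Ps (D - 1 + k + par) (2 * D - 2 + 0 + x + J + par)

private noncomputable def N25_h (D par k : ℕ) : ℝ :=
  max 0 (1 - rho (D - 1 - k + (2 * k + par)) (D - 1 - k)) / rho (D - 1 - k) (D - 1 - k) *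
    ((((D - 1 - k : ℕ) : ℝ) + ((2 * k + par : ℕ) : ℝ)) / ((D - 1 - k : ℕ) : ℝ))

private theorem N25_rho_self (d : ℕ) : rho d d = (3 * (d : ℝ) + 1) / (2 * d + 1) := by
  unfold rho
  have h : (0 : ℝ) ≤ d := Nat.cast_nonneg d
  have h1 : (d : ℝ) + 1 ≠ 0 := by positivity
  have h2 : (d : ℝ) + d + 1 ≠ 0 := by positivity
  have h3 : 2 * (d : ℝ) + 1 ≠ 0 := by positivity
  rw [div_eq_div_iff (by positivity) h3]
  ring

private theorem N25_h_nonneg (D par k : ℕ) : 0 ≤ N25_h D par k := by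
  unfold N25_h
  rw [N25_rho_self]
  positivity

private theorem N25_cd (D k : ℕ) (hk : k + 3 ≤ D) : ((D - 1 - k : ℕ) : ℝ) = (D : ℝ) - 1 - k := by
  rw [Nat.cast_sub (by omega), Nat.cast_sub (by omega)]; simp

private theorem N25_cn (D x J par : ℕ) (hD : 3 ≤ D) :
    ((2 * D - 2 + 0 + x + J + par : ℕ) : ℝ) = 2 * (D : ℝ) - 2 + x + J + par := by
  push_cast [Nat.cast_sub (show 2 ≤ 2 * D by omega)]; ring

private theorem N25_ca (D k par : ℕ) (hD : 3 ≤ D) :
    ((D - 1 + k + par : ℕ) : ℝ) = (D : ℝ) - 1 + k + par := by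
  push_cast [Nat.cast_sub (show 1 ≤ D by omega)]; ring

private theorem N25_Hw_eq (D x J par k : ℕ) (hk : k + 3 ≤ D) :
    Hw 0 x J (2 * D - 2 + 0 + x + J + par) (D - 1 - k) (2 * k + par) =
      ((x : ℝ) + J + 1) * N25_h D par k *
        ((2 * ((D : ℝ) - 1 - k) + x + J) / ((D : ℝ) - k + 1)) /
        ((2 * D - 2 + 0 + x + J + par : ℕ) : ℝ) := by
  have e1 := N25_cd D k hk
  have e2 := N25_cn D x J par (by omega)
  have e3 : ((2 * D - 2 + 0 + x + J + par : ℕ) : ℝ) - ((2 * k + par : ℕ) : ℝ) =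
      2 * ((D : ℝ) - 1 - k) + x + J := by
    rw [e2]; push_cast; ring
  have e4 : ((D - 1 - k : ℕ) : ℝ) + 2 + ((0 : ℕ) : ℝ) = (D : ℝ) - k + 1 := by
    rw [e1]; push_cast; ring
  unfold Hw N25_h
  rw [e3, e4]
  simp only [Nat.add_zero]
  ring

private theorem N25_Hw (D x J par k : ℕ) (hk : k + 3 ≤ D) (B : ℝ) (hB : N25_h D par k ≤ B) :
    Hw 0 x J (2 * D - 2 + 0 + x + J + par) (D - 1 - k) (2 * k + par) ≤
      ((x : ℝ) + J + 1) * B * (2 + ((x : ℝ) + J) / ((D : ℝ) - k + 1)) /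
        ((2 * D - 2 + 0 + x + J + par : ℕ) : ℝ) := by
  have h0 := N25_h_nonneg D par k
  have hD : (k : ℝ) + 3 ≤ D := by exact_mod_cast hk
  have hk0 : (0 : ℝ) ≤ k := Nat.cast_nonneg k
  have hs : (0 : ℝ) < (D : ℝ) - k + 1 := by linarith
  rw [N25_Hw_eq D x J par k hk]
  refine div_le_div_of_nonneg_right ?_ (Nat.cast_nonneg _)
  have h1 : (2 * ((D : ℝ) - 1 - k) + x + J) / ((D : ℝ) - k + 1) ≤
      2 + ((x : ℝ) + J) / ((D : ℝ) - k + 1) := by
    rw [div_le_iff₀ hs, add_mul, div_mul_cancel₀ _ hs.ne']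
    linarith
  have h2 : (0 : ℝ) ≤ 2 + ((x : ℝ) + J) / ((D : ℝ) - k + 1) := by positivity
  have h3 : ((x : ℝ) + J + 1) * N25_h D par k ≤ ((x : ℝ) + J + 1) * B :=
    mul_le_mul_of_nonneg_left hB (by positivity)
  calc ((x : ℝ) + J + 1) * N25_h D par k *
        ((2 * ((D : ℝ) - 1 - k) + x + J) / ((D : ℝ) - k + 1))
      ≤ ((x : ℝ) + J + 1) * N25_h D par k * (2 + ((x : ℝ) + J) / ((D : ℝ) - k + 1)) :=
        mul_le_mul_of_nonneg_left h1 (by positivity)
    _ ≤ ((x : ℝ) + J + 1) * B * (2 + ((x : ℝ) + J) / ((D : ℝ) - k + 1)) :=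
        mul_le_mul_of_nonneg_right h3 h2

private theorem N25_Hw_nonneg (D x J par k : ℕ) (hk : k + 3 ≤ D) :
    0 ≤ Hw 0 x J (2 * D - 2 + 0 + x + J + par) (D - 1 - k) (2 * k + par) := by
  have h0 := N25_h_nonneg D par k
  have hD : (k : ℝ) + 3 ≤ D := by exact_mod_cast hk
  have hk0 : (0 : ℝ) ≤ k := Nat.cast_nonneg k
  have hs : (0 : ℝ) < (D : ℝ) - k + 1 := by linarith
  have hs' : (0 : ℝ) < (D : ℝ) - 1 - k := by linarith
  rw [N25_Hw_eq D x J par k hk]
  positivity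

private theorem N25_Hh (D x J par : ℕ) (B : ℝ) (hB0 : 0 ≤ B) (k : ℕ) (hk : k + 3 ≤ D)
    (hB : ∀ k' ≤ k, N25_h D par k' ≤ B) :
    Hh D 0 x J (2 * D - 2 + 0 + x + J + par) par k ≤
      ((x : ℝ) + J + 1) * B * (2 + ((x : ℝ) + J) / ((D : ℝ) - k + 1)) /
        ((2 * D - 2 + 0 + x + J + par : ℕ) : ℝ) := by
  induction k with
  | zero =>
    have h := N25_Hw D x J par 0 hk B (hB 0 le_rfl)
    simpa [Hh] using h
  | succ k ih =>
    have h := N25_Hw D x J par (k + 1) hk B (hB (k + 1) le_rfl)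
    have h' := ih (by omega) fun k' hk' => hB k' (by omega)
    have hD : (k : ℝ) + 1 + 3 ≤ D := by exact_mod_cast hk
    have hk0 : (0 : ℝ) ≤ k := Nat.cast_nonneg k
    have hs : (0 : ℝ) < (D : ℝ) - (k + 1 : ℕ) + 1 := by push_cast; linarith
    rw [Hh]
    refine max_le (h'.trans ?_) h
    refine div_le_div_of_nonneg_right ?_ (Nat.cast_nonneg _)
    refine mul_le_mul_of_nonneg_left ?_ (by positivity)
    refine add_le_add le_rfl (div_le_div_of_nonneg_left (by positivity) hs ?_)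
    push_cast; linarith

private theorem N25_Hh_nonneg (D x J par : ℕ) (hD : 3 ≤ D) (k : ℕ) :
    0 ≤ Hh D 0 x J (2 * D - 2 + 0 + x + J + par) par k := by
  induction k with
  | zero =>
    have h := N25_Hw_nonneg D x J par 0 (by omega)
    simpa [Hh] using h
  | succ k ih => rw [Hh]; exact le_max_of_le_left ih

/-- no loss for `e = 0`; `rho (d+1) d ≥ 1` for `d ≥ 1`. -/
theorem phH_zero (D x J par : ℕ) (hD : 3 ≤ D) (hp : par ≤ 1) : phH D x J par 0 = 0 := by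
  have h0 : N25_h D par 0 = 0 := by
    have h1 : (1 : ℝ) ≤ rho (D - 1 - 0 + (2 * 0 + par)) (D - 1 - 0) := by
      obtain ⟨d, rfl⟩ : ∃ d, D = d + 3 := ⟨D - 3, by omega⟩
      have e : d + 3 - 1 - 0 = d + 2 := by omega
      rw [e]
      have hd : (0 : ℝ) ≤ d := Nat.cast_nonneg d
      unfold rho
      interval_cases par
      · push_cast
        rw [le_div_iff₀ (by positivity)]
        nlinarith
      · push_cast
        rw [le_div_iff₀ (by positivity)]
        nlinarith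
    unfold N25_h
    rw [max_eq_left (by linarith)]
    simp
  have h1 := N25_Hw_eq D x J par 0 (by omega)
  rw [h0] at h1
  have h2 : Hh D 0 x J (2 * D - 2 + 0 + x + J + par) par 0 = 0 := by
    have : Hh D 0 x J (2 * D - 2 + 0 + x + J + par) par 0 =
      Hw 0 x J (2 * D - 2 + 0 + x + J + par) (D - 1 - 0) (2 * 0 + par) := by simp [Hh]
    rw [this, h1]; simp
  unfold phH
  rw [h2, zero_mul]

theorem phH_mono (D x J par k : ℕ) (hp : par ≤ 1) (hk : k + 4 ≤ D) :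
    phH D x J par k ≤ phH D x J par (k + 1) := by
  have h0 := N25_Hh_nonneg D x J par (by omega) k
  have h1 : Hh D 0 x J (2 * D - 2 + 0 + x + J + par) par k ≤
      Hh D 0 x J (2 * D - 2 + 0 + x + J + par) par (k + 1) := by
    rw [Hh]; exact le_max_left _ _
  have hD : (k : ℝ) + 4 ≤ D := by exact_mod_cast hk
  have hk0 : (0 : ℝ) ≤ k := Nat.cast_nonneg k
  have hx : (0 : ℝ) ≤ x := Nat.cast_nonneg x
  have hJ : (0 : ℝ) ≤ J := Nat.cast_nonneg J
  have hpa : (0 : ℝ) ≤ par := Nat.cast_nonneg par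
  unfold phH
  refine mul_le_mul h1 ?_ ?_ (h0.trans h1)
  · unfold Ps
    rw [N25_cn D x J par (by omega), N25_ca D k par (by omega), N25_ca D (k + 1) par (by omega)]
    push_cast
    refine div_le_div₀ ?_ ?_ ?_ ?_
    · exact mul_nonneg (by linarith) (by linarith)
    · exact mul_le_mul (by linarith) (by linarith) (by linarith) (by linarith)
    · exact mul_pos (by linarith) (by linarith)
    · exact mul_le_mul_of_nonneg_right (by linarith) (by linarith)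
  · unfold Ps
    rw [N25_cn D x J par (by omega), N25_ca D k par (by omega)]
    refine div_nonneg ?_ ?_
    · exact mul_nonneg (by linarith) (by linarith)
    · exact mul_nonneg (by linarith) (by linarith)

/-- the general bound -/
private theorem N25_gen (D x J par k : ℕ) (hk : k + 3 ≤ D) (B : ℝ) (hB0 : 0 ≤ B)
    (hB : ∀ k' ≤ k, N25_h D par k' ≤ B) (a s X n : ℝ) (ha : a = (D : ℝ) - 1 + k + par)
    (hs : s = (D : ℝ) - k) (hX : X = (x : ℝ) + J) (hn : n = 2 * (D : ℝ) - 2 + X + par) :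
    phH D x J par k ≤ B * ((X + 1) * (2 * (s + 1) + X) / ((s + 1) * (s + X)) *
      ((a - 1) * (a - 2) / (n * (n - 1)))) := by
  have h1 := N25_Hh D x J par B hB0 k hk hB
  have hD : (k : ℝ) + 3 ≤ D := by exact_mod_cast hk
  have hk0 : (0 : ℝ) ≤ k := Nat.cast_nonneg k
  have hx : (0 : ℝ) ≤ x := Nat.cast_nonneg x
  have hJ : (0 : ℝ) ≤ J := Nat.cast_nonneg J
  have hpa : (0 : ℝ) ≤ par := Nat.cast_nonneg par
  have hn' : n = 2 * (D : ℝ) - 2 + x + J + par := by rw [hn, hX]; ring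
  rw [N25_cn D x J par (by omega)] at h1
  have hs0 : 3 ≤ s := by rw [hs]; linarith
  have hX0 : 0 ≤ X := by rw [hX]; linarith
  have hn0 : 4 ≤ n := by rw [hn']; linarith
  have ha0 : 2 ≤ a := by rw [ha]; linarith
  have e : (D : ℝ) - k + 1 = s + 1 := by rw [hs]
  rw [← hn', ← hX, e] at h1
  unfold phH Ps
  rw [N25_cn D x J par (by omega), N25_ca D k par (by omega), ← hn', ← ha]
  have e2 : n - a + 1 = s + X := by rw [hn, ha, hs]; ring
  rw [e2]
  have h2 : 0 ≤ (a - 1) * (a - 2) / ((s + X) * (n - 1)) :=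
    div_nonneg (mul_nonneg (by linarith) (by linarith)) (mul_nonneg (by linarith) (by linarith))
  refine (mul_le_mul_of_nonneg_right h1 h2).trans (le_of_eq ?_)
  have p1 : s + 1 ≠ 0 := by linarith
  have p2 : s + X ≠ 0 := by linarith
  have p3 : n ≠ 0 := by linarith
  have p4 : n - 1 ≠ 0 := by linarith
  field_simp

private theorem N25_sup_core (a s X n : ℝ) (ha : 17 ≤ a) (hs : 3 ≤ s) (hX : 0 ≤ X)
    (hn : n = X + s + 3 + (a - 5) + 1) :
    (X + 1) * (2 * (s + 1) + X) / ((s + 1) * (s + X)) * ((a - 1) * (a - 2) / (n * (n - 1))) ≤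
      (a + 3) / (4 * (s + 1)) := by
  have t1 : (X + 1) * (2 * (s + 1) + X) / ((s + 1) * (s + X)) ≤ (X + s + 3) / (s + 1) := by
    rw [div_le_div_iff₀ (by nlinarith) (by linarith)]
    have : (X + 1) * (2 * (s + 1) + X) ≤ (X + s + 3) * (s + X) := by nlinarith
    nlinarith
  have hn1 : 0 < n * (n - 1) := by subst hn; nlinarith
  have t2 : (X + s + 3) * ((a - 1) * (a - 2)) ≤ n * (n - 1) * ((a + 3) / 4) := by
    have u1 : 4 * (X + s + 3) * (a - 5) ≤ n * (n - 1) := by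
      subst hn
      nlinarith [sq_nonneg (X + s + 3 - (a - 5))]
    have u2 : (a - 1) * (a - 2) ≤ (a + 3) * (a - 5) := by nlinarith
    calc (X + s + 3) * ((a - 1) * (a - 2)) ≤ (X + s + 3) * ((a + 3) * (a - 5)) :=
          mul_le_mul_of_nonneg_left u2 (by linarith)
      _ = 4 * (X + s + 3) * (a - 5) * ((a + 3) / 4) := by ring
      _ ≤ n * (n - 1) * ((a + 3) / 4) := mul_le_mul_of_nonneg_right u1 (by linarith)
  have h2 : 0 ≤ (a - 1) * (a - 2) / (n * (n - 1)) :=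
    div_nonneg (mul_nonneg (by linarith) (by linarith)) hn1.le
  refine (mul_le_mul_of_nonneg_right t1 h2).trans ?_
  rw [div_mul_div_comm, div_le_div_iff₀ (mul_pos (by linarith) hn1) (by linarith)]
  have h4 := mul_le_mul_of_nonneg_right t2 (show (0 : ℝ) ≤ 4 * (s + 1) by linarith)
  linarith

private theorem N25_pre_core (a s X n D : ℝ) (ha : 2 ≤ a) (hs : 3 ≤ s) (hX : 0 ≤ X)
    (hD : 3 ≤ D) (hn : 2 * D - 3 + X ≤ n - 1) :
    (X + 1) * (2 * (s + 1) + X) / ((s + 1) * (s + X)) * ((a - 1) * (a - 2) / (n * (n - 1))) ≤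
      2 * (X + 1) / s * (a ^ 2 / (2 * D - 3 + X) ^ 2) := by
  have t1 : (X + 1) * (2 * (s + 1) + X) / ((s + 1) * (s + X)) ≤ 2 * (X + 1) / s := by
    rw [div_le_div_iff₀ (by nlinarith) (by linarith)]
    have : s * (2 * (s + 1) + X) ≤ 2 * ((s + 1) * (s + X)) := by nlinarith
    have h := mul_le_mul_of_nonneg_left this (show (0 : ℝ) ≤ X + 1 by linarith)
    linarith
  have hn0 : 0 < 2 * D - 3 + X := by linarith
  have t2 : (a - 1) * (a - 2) / (n * (n - 1)) ≤ a ^ 2 / (2 * D - 3 + X) ^ 2 := by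
    refine div_le_div₀ (by positivity) (by nlinarith) (by positivity) ?_
    nlinarith
  have h2 : 0 ≤ (a - 1) * (a - 2) / (n * (n - 1)) :=
    div_nonneg (mul_nonneg (by linarith) (by linarith)) (mul_nonneg (by linarith) (by linarith))
  exact mul_le_mul t1 t2 h2 (div_nonneg (by linarith) (by linarith))

/-- bound of `h` for `k/D ≤ κ`, `1/D ≤ ε = 1/120`:
`1 - rho a d ≤ 1 - (D-k)(3D+k)/((D+k+1) 2D)`, `1/rho d d = (2d+1)/(3d+1)`, `a/d ≤ (D+k)/(D-1-k)`. -/
def hQ (κ : ℚ) : ℚ :=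
  max 0 ((κ ^ 2 + 4 * κ - 1 + 2 / 120) / (2 * (1 + κ + 1 / 120))) *
    ((2 * (1 - κ) - 1 / 120) / (3 * (1 - κ) - 2 / 120)) * ((1 + κ) / (1 - κ - 1 / 120))

private theorem N25_rho (D par k : ℕ) (hp : par ≤ 1) (hk : k + 3 ≤ D) :
    ((D : ℝ) - k) * (3 * D + k) / (((D : ℝ) + k + 1) * (2 * D)) ≤
      rho (D - 1 - k + (2 * k + par)) (D - 1 - k) := by
  have e1 := N25_cd D k hk
  have hD : (k : ℝ) + 3 ≤ D := by exact_mod_cast hk
  have hk0 : (0 : ℝ) ≤ k := Nat.cast_nonneg k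
  unfold rho
  have e2 : ((D - 1 - k + (2 * k + par) : ℕ) : ℝ) = (D : ℝ) - 1 + k + par := by
    push_cast [e1]; ring
  rw [e2, e1]
  interval_cases par
  · have h1 : ((D : ℝ) - 1 - k + 1) * (2 * ((D : ℝ) - 1 + k + (0 : ℕ)) + ((D : ℝ) - 1 - k) + 1) =
        ((D : ℝ) - k) * (3 * D + k - 2) := by push_cast; ring
    have h2 : ((D : ℝ) - 1 + k + (0 : ℕ) + 1) * ((D : ℝ) - 1 + k + (0 : ℕ) + ((D : ℝ) - 1 - k) + 1) =
        ((D : ℝ) + k) * (2 * D - 1) := by push_cast; ring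
    rw [h1, h2, mul_div_assoc, mul_div_assoc]
    refine mul_le_mul_of_nonneg_left ?_ (by linarith)
    rw [div_le_div_iff₀ (by nlinarith) (by nlinarith)]
    nlinarith [mul_nonneg hk0 hk0, mul_nonneg hk0 (show (0 : ℝ) ≤ D by linarith)]
  · have h1 : ((D : ℝ) - 1 - k + 1) * (2 * ((D : ℝ) - 1 + k + (1 : ℕ)) + ((D : ℝ) - 1 - k) + 1) =
        ((D : ℝ) - k) * (3 * D + k) := by push_cast; ring
    have h2 : ((D : ℝ) - 1 + k + (1 : ℕ) + 1) * ((D : ℝ) - 1 + k + (1 : ℕ) + ((D : ℝ) - 1 - k) + 1) =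
        ((D : ℝ) + k + 1) * (2 * D) := by push_cast; ring
    rw [h1, h2]

private theorem N25_hQ (D par k : ℕ) (hD : 121 ≤ D) (hp : par ≤ 1) (hk : k + 3 ≤ D) (κ : ℚ)
    (h0 : 0 ≤ κ) (h1 : κ ≤ 3 / 4) (hκ : (k : ℝ) ≤ (κ : ℝ) * D) :
    N25_h D par k ≤ ((hQ κ : ℚ) : ℝ) := by
  obtain ⟨K, hK⟩ : ∃ K : ℝ, K = (κ : ℝ) := ⟨_, rfl⟩
  have h0' : 0 ≤ K := by rw [hK]; exact_mod_cast h0
  have h1' : K ≤ 3 / 4 := by
    have h := (Rat.cast_le (K := ℝ)).mpr h1
    push_cast at h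
    rw [hK]; exact h
  rw [← hK] at hκ
  have hkD : (k : ℝ) + 3 ≤ D := by exact_mod_cast hk
  have hk0 : (0 : ℝ) ≤ k := Nat.cast_nonneg k
  have hD' : (121 : ℝ) ≤ D := by exact_mod_cast hD
  have hD0 : (0 : ℝ) < D := by linarith
  have hcast : ((hQ κ : ℚ) : ℝ) =
      max 0 ((K ^ 2 + 4 * K - 1 + 2 / 120) / (2 * (1 + K + 1 / 120))) *
      ((2 * (1 - K) - 1 / 120) / (3 * (1 - K) - 2 / 120)) * ((1 + K) / (1 - K - 1 / 120)) := by
    rw [hK, hQ]; push_cast; ring_nf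
  rw [hcast]
  obtain ⟨q, hq⟩ : ∃ q : ℝ, q = (k : ℝ) / D := ⟨_, rfl⟩
  obtain ⟨δ, hδ⟩ : ∃ δ : ℝ, δ = 1 / (D : ℝ) := ⟨_, rfl⟩
  have hqD : (k : ℝ) = q * D := by rw [hq]; field_simp
  have hδD : (1 : ℝ) = δ * D := by rw [hδ]; field_simp
  have hq0 : 0 ≤ q := by rw [hq]; positivity
  have hqK : q ≤ K := by rw [hq, div_le_iff₀ hD0]; exact hκ
  have hδ0 : 0 ≤ δ := by rw [hδ]; positivity
  have hδε : δ ≤ 1 / 120 := by
    rw [hδ, div_le_div_iff₀ hD0 (by norm_num)]; linarith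
  -- step 1
  have s1 : 1 - rho (D - 1 - k + (2 * k + par)) (D - 1 - k) ≤
      (K ^ 2 + 4 * K - 1 + 2 / 120) / (2 * (1 + K + 1 / 120)) := by
    have a1 := N25_rho D par k hp hk
    have a2 : ((D : ℝ) - k) * (3 * D + k) / (((D : ℝ) + k + 1) * (2 * D)) =
        (1 - q) * (3 + q) / ((1 + q + δ) * 2) := by
      have b1 : (D : ℝ) - k = D * (1 - q) := by rw [hqD]; ring
      have b2 : 3 * (D : ℝ) + k = D * (3 + q) := by rw [hqD]; ring
      have b3 : (D : ℝ) + k + 1 = D * (1 + q + δ) := by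
        have : (D : ℝ) + k + 1 = D + q * D + δ * D := by rw [← hδD, ← hqD]
        rw [this]; ring
      have b4 : (1 + q + δ) ≠ 0 := by positivity
      rw [b1, b2, b3]
      field_simp
    rw [a2] at a1
    have a3 : 1 - (1 - q) * (3 + q) / ((1 + q + δ) * 2) =
        (q ^ 2 + 4 * q - 1 + 2 * δ) / (2 * (1 + q + δ)) := by
      have b4 : (1 + q + δ) ≠ 0 := by positivity
      field_simp
      ring
    have a4 : (q ^ 2 + 4 * q - 1 + 2 * δ) / (2 * (1 + q + δ)) ≤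
        (K ^ 2 + 4 * K - 1 + 2 * δ) / (2 * (1 + K + δ)) := by
      rw [div_le_div_iff₀ (by positivity) (by positivity)]
      have : 0 ≤ (K - q) * (K * (1 + q + δ) + q + q * δ + 5 + 2 * δ) :=
        mul_nonneg (by linarith) (by positivity)
      nlinarith
    have a5 : (K ^ 2 + 4 * K - 1 + 2 * δ) / (2 * (1 + K + δ)) ≤
        (K ^ 2 + 4 * K - 1 + 2 / 120) / (2 * (1 + K + 1 / 120)) := by
      rw [div_le_div_iff₀ (by positivity) (by positivity)]
      have : 0 ≤ (1 / 120 - δ) * (3 - 2 * K - K ^ 2) :=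
        mul_nonneg (by linarith) (by nlinarith)
      nlinarith
    linarith
  -- step 2
  have s2 : (2 * ((D - 1 - k : ℕ) : ℝ) + 1) / (3 * ((D - 1 - k : ℕ) : ℝ) + 1) ≤
      (2 * (1 - K) - 1 / 120) / (3 * (1 - K) - 2 / 120) := by
    rw [N25_cd D k hk]
    have b1 : 2 * ((D : ℝ) - 1 - k) + 1 = D * (2 * (1 - q) - δ) := by
      have : D * (2 * (1 - q) - δ) = 2 * D - 2 * (q * D) - δ * D := by ring
      rw [this, ← hδD, ← hqD]; ring
    have b2 : 3 * ((D : ℝ) - 1 - k) + 1 = D * (3 * (1 - q) - 2 * δ) := by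
      have : D * (3 * (1 - q) - 2 * δ) = 3 * D - 3 * (q * D) - 2 * (δ * D) := by ring
      rw [this, ← hδD, ← hqD]; ring
    rw [b1, b2, mul_div_mul_left _ _ hD0.ne']
    rw [div_le_div_iff₀ (by linarith) (by linarith)]
    have : (1 - K) * δ ≤ (1 - q) * (1 / 120) :=
      mul_le_mul (by linarith) hδε hδ0 (by linarith)
    nlinarith
  -- step 3
  have s3 : (((D - 1 - k : ℕ) : ℝ) + ((2 * k + par : ℕ) : ℝ)) / ((D - 1 - k : ℕ) : ℝ) ≤
      (1 + K) / (1 - K - 1 / 120) := by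
    rw [N25_cd D k hk]
    have hpar : (par : ℝ) ≤ 1 := by exact_mod_cast hp
    have c1 : (D : ℝ) - 1 - k + ((2 * k + par : ℕ) : ℝ) ≤ D * (1 + q) := by
      have : (D : ℝ) * (1 + q) = D + q * D := by ring
      rw [this, ← hqD]; push_cast; linarith
    have c2 : (D : ℝ) - 1 - k = D * (1 - q - δ) := by
      have : (D : ℝ) * (1 - q - δ) = D - δ * D - q * D := by ring
      rw [this, ← hδD, ← hqD]
    calc ((D : ℝ) - 1 - k + ((2 * k + par : ℕ) : ℝ)) / ((D : ℝ) - 1 - k)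
        ≤ (D * (1 + q)) / ((D : ℝ) - 1 - k) :=
          div_le_div_of_nonneg_right c1 (by linarith)
      _ = (1 + q) / (1 - q - δ) := by rw [c2, mul_div_mul_left _ _ hD0.ne']
      _ ≤ (1 + K) / (1 - K - 1 / 120) :=
          div_le_div₀ (by linarith) (by linarith) (by linarith) (by linarith)
  unfold N25_h
  rw [N25_rho_self, div_eq_mul_inv (max _ _), inv_div]
  have p1 : (0 : ℝ) ≤ ((D - 1 - k : ℕ) : ℝ) := Nat.cast_nonneg _
  refine mul_le_mul (mul_le_mul (max_le_max le_rfl s1) s2 (by positivity) (le_max_left _ _)) s3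
    (by positivity) (mul_nonneg (le_max_left _ _) (div_nonneg (by linarith) (by linarith)))

private theorem N25_hQ0 (κ : ℚ) (h0 : 0 ≤ κ) (h1 : κ ≤ 3 / 4) : (0 : ℝ) ≤ ((hQ κ : ℚ) : ℝ) := by
  have : 0 ≤ hQ κ := by
    unfold hQ
    refine mul_nonneg (mul_nonneg (le_max_left _ _) (div_nonneg ?_ ?_)) (div_nonneg ?_ ?_) <;>
      linarith
  exact_mod_cast this

/-- `(X+1)(2(s+1)+X)/(s+X) ≤ X+s+3`; `(X+s+3)/(n(n-1)) ≤ 1/(4(D+k-6+par))` (AM-GM);
`(a-1)(a-2)/(a-5) ≤ a+3`. -/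
theorem phH_sup (D x J par k : ℕ) (hD : 121 ≤ D) (hp : par ≤ 1) (hk : k + 3 ≤ D) (κ : ℚ)
    (h0 : 0 ≤ κ) (h1 : κ ≤ 3 / 4) (hκ : (k : ℝ) ≤ (κ : ℝ) * D) :
    phH D x J par k ≤ ((hQ κ * ((1 + κ + 3 / 120) / (4 * (1 - κ))) : ℚ) : ℝ) := by
  have hB0 := N25_hQ0 κ h0 h1
  have hB : ∀ k' ≤ k, N25_h D par k' ≤ ((hQ κ : ℚ) : ℝ) := fun k' hk' =>
    N25_hQ D par k' hD hp (by omega) κ h0 h1
      (le_trans (by exact_mod_cast hk') hκ)
  have hg := N25_gen D x J par k hk _ hB0 hB _ _ _ _ rfl rfl rfl rfl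
  refine hg.trans ?_
  have hkD : (k : ℝ) + 3 ≤ D := by exact_mod_cast hk
  have hk0 : (0 : ℝ) ≤ k := Nat.cast_nonneg k
  have hx : (0 : ℝ) ≤ x := Nat.cast_nonneg x
  have hJ : (0 : ℝ) ≤ J := Nat.cast_nonneg J
  have hp0 : (0 : ℝ) ≤ par := Nat.cast_nonneg par
  have hp1 : (par : ℝ) ≤ 1 := by exact_mod_cast hp
  have hD' : (121 : ℝ) ≤ D := by exact_mod_cast hD
  have h0' : (0 : ℝ) ≤ κ := by exact_mod_cast h0
  have h1' : (κ : ℝ) ≤ 3 / 4 := by
    have h := (Rat.cast_le (K := ℝ)).mpr h1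
    push_cast at h
    exact h
  rw [Rat.cast_mul]
  refine mul_le_mul_of_nonneg_left ?_ hB0
  have hc := N25_sup_core ((D : ℝ) - 1 + k + par) ((D : ℝ) - k) ((x : ℝ) + J)
    (2 * (D : ℝ) - 2 + ((x : ℝ) + J) + par) (by linarith) (by linarith) (by linarith) (by ring)
  refine hc.trans ?_
  push_cast
  have c1 : (0 : ℝ) < D * (1 - κ) := mul_pos (by linarith) (by linarith)
  have e : (1 + (κ : ℝ) + 3 / 120) / (4 * (1 - κ)) =
      (D * (1 + (κ : ℝ) + 3 / 120)) / (4 * (D * (1 - κ))) := by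
    have : (1 : ℝ) - κ ≠ 0 := by linarith
    have : (D : ℝ) ≠ 0 := by linarith
    field_simp
  rw [e]
  refine div_le_div₀ ?_ ?_ ?_ ?_
  · nlinarith
  · nlinarith
  · linarith
  · nlinarith

/-- `(X+1)(2(s+1)+X)/((s+1)(s+X)) ≤ 2(X+1)/s`, `n (n-1) ≥ (2D-3+X)²`. -/
theorem phH_pre (D x J par k : ℕ) (hD : 121 ≤ D) (hp : par ≤ 1) (hk : k + 3 ≤ D) (κ : ℚ)
    (h0 : 0 ≤ κ) (h1 : κ ≤ 3 / 4) (hκ : (k : ℝ) ≤ (κ : ℝ) * D) :
    phH D x J par k ≤ 2 * ((x : ℝ) + J + 1) * D / (2 * (D : ℝ) - 3 + x + J) ^ 2 *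
      ((hQ κ * ((1 + κ) ^ 2 / (1 - κ)) : ℚ) : ℝ) := by
  have hB0 := N25_hQ0 κ h0 h1
  have hB : ∀ k' ≤ k, N25_h D par k' ≤ ((hQ κ : ℚ) : ℝ) := fun k' hk' =>
    N25_hQ D par k' hD hp (by omega) κ h0 h1
      (le_trans (by exact_mod_cast hk') hκ)
  have hg := N25_gen D x J par k hk _ hB0 hB _ _ _ _ rfl rfl rfl rfl
  refine hg.trans ?_
  have hkD : (k : ℝ) + 3 ≤ D := by exact_mod_cast hk
  have hk0 : (0 : ℝ) ≤ k := Nat.cast_nonneg k
  have hx : (0 : ℝ) ≤ x := Nat.cast_nonneg x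
  have hJ : (0 : ℝ) ≤ J := Nat.cast_nonneg J
  have hp0 : (0 : ℝ) ≤ par := Nat.cast_nonneg par
  have hp1 : (par : ℝ) ≤ 1 := by exact_mod_cast hp
  have hD' : (121 : ℝ) ≤ D := by exact_mod_cast hD
  have h0' : (0 : ℝ) ≤ κ := by exact_mod_cast h0
  have h1' : (κ : ℝ) ≤ 3 / 4 := by
    have h := (Rat.cast_le (K := ℝ)).mpr h1
    push_cast at h
    exact h
  have hc := N25_pre_core ((D : ℝ) - 1 + k + par) ((D : ℝ) - k) ((x : ℝ) + J)
    (2 * (D : ℝ) - 2 + ((x : ℝ) + J) + par) D (by linarith) (by linarith) (by linarith)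
    (by linarith) (by linarith)
  refine (mul_le_mul_of_nonneg_left hc hB0).trans ?_
  have c1 : (0 : ℝ) < D * (1 - κ) := mul_pos (by linarith) (by linarith)
  have e1 : 2 * (D : ℝ) - 3 + x + J = 2 * (D : ℝ) - 3 + (x + J) := by ring
  rw [e1]
  have hn0 : (0 : ℝ) < 2 * (D : ℝ) - 3 + (x + J) := by linarith
  have c2 : ((D : ℝ) - 1 + k + par) ^ 2 ≤ (D * (1 + (κ : ℝ))) ^ 2 := by
    refine pow_le_pow_left₀ (by linarith) ?_ 2
    nlinarith
  have c3 : 1 / ((D : ℝ) - k) ≤ 1 / (D * (1 - κ)) := one_div_le_one_div_of_le c1 (by nlinarith)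
  have c4 : ((D : ℝ) - 1 + k + par) ^ 2 / ((D : ℝ) - k) ≤
      D * ((1 + (κ : ℝ)) ^ 2 / (1 - κ)) := by
    have : D * ((1 + (κ : ℝ)) ^ 2 / (1 - κ)) = (D * (1 + (κ : ℝ))) ^ 2 / (D * (1 - κ)) := by
      have : (1 : ℝ) - κ ≠ 0 := by linarith
      have : (D : ℝ) ≠ 0 := by linarith
      field_simp
    rw [this]
    exact div_le_div₀ (by positivity) c2 c1 (by nlinarith)
  have c5 : (0 : ℝ) ≤ ((hQ κ : ℚ) : ℝ) * (2 * ((x : ℝ) + J + 1) / (2 * (D : ℝ) - 3 + (x + J)) ^ 2) := by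
    positivity
  have c6 := mul_le_mul_of_nonneg_left c4 c5
  push_cast
  have hs0 : (D : ℝ) - k ≠ 0 := by linarith
  calc ((hQ κ : ℚ) : ℝ) * (2 * ((x : ℝ) + J + 1) / ((D : ℝ) - k) *
        (((D : ℝ) - 1 + k + par) ^ 2 / (2 * (D : ℝ) - 3 + (x + J)) ^ 2))
      = ((hQ κ : ℚ) : ℝ) * (2 * ((x : ℝ) + J + 1) / (2 * (D : ℝ) - 3 + (x + J)) ^ 2) *
        (((D : ℝ) - 1 + k + par) ^ 2 / ((D : ℝ) - k)) := by ring
    _ ≤ ((hQ κ : ℚ) : ℝ) * (2 * ((x : ℝ) + J + 1) / (2 * (D : ℝ) - 3 + (x + J)) ^ 2) *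
        (D * ((1 + (κ : ℝ)) ^ 2 / (1 - κ))) := c6
    _ = _ := by ring

/-- the crude bound of `h` -/
private theorem N25_hT (D par k k' : ℕ) (hp : par ≤ 1) (hk : k + 3 ≤ D) (hk' : k' ≤ k) :
    N25_h D par k' ≤ 5 / 7 * (2 * (D : ℝ) / ((D : ℝ) - 1 - k)) := by
  have hkD : (k : ℝ) + 3 ≤ D := by exact_mod_cast hk
  have hk0 : (0 : ℝ) ≤ k := Nat.cast_nonneg k
  have hkk : (k' : ℝ) ≤ k := by exact_mod_cast hk'
  have hk0' : (0 : ℝ) ≤ k' := Nat.cast_nonneg k'
  have hp1 : (par : ℝ) ≤ 1 := by exact_mod_cast hp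
  have a1 := N25_rho D par k' hp (by omega)
  have a2 : (0 : ℝ) ≤ ((D : ℝ) - k') * (3 * D + k') / (((D : ℝ) + k' + 1) * (2 * D)) :=
    div_nonneg (mul_nonneg (by linarith) (by linarith)) (mul_nonneg (by linarith) (by linarith))
  have s1 : max 0 (1 - rho (D - 1 - k' + (2 * k' + par)) (D - 1 - k')) ≤ 1 :=
    max_le zero_le_one (by linarith)
  have e1 := N25_cd D k' (by omega)
  have s2 : (2 * ((D - 1 - k' : ℕ) : ℝ) + 1) / (3 * ((D - 1 - k' : ℕ) : ℝ) + 1) ≤ 5 / 7 := by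
    rw [e1, div_le_div_iff₀ (by linarith) (by norm_num)]
    linarith
  have s3 : (((D - 1 - k' : ℕ) : ℝ) + ((2 * k' + par : ℕ) : ℝ)) / ((D - 1 - k' : ℕ) : ℝ) ≤
      2 * (D : ℝ) / ((D : ℝ) - 1 - k) := by
    rw [e1]
    refine div_le_div₀ (by linarith) ?_ (by linarith) (by linarith)
    push_cast; linarith
  unfold N25_h
  rw [N25_rho_self, div_eq_mul_inv (max _ _), inv_div]
  have p1 : (0 : ℝ) ≤ ((D - 1 - k' : ℕ) : ℝ) := Nat.cast_nonneg _
  have h1 : max 0 (1 - rho (D - 1 - k' + (2 * k' + par)) (D - 1 - k')) *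
      ((2 * ((D - 1 - k' : ℕ) : ℝ) + 1) / (3 * ((D - 1 - k' : ℕ) : ℝ) + 1)) ≤ 1 * (5 / 7) :=
    mul_le_mul s1 s2 (by positivity) zero_le_one
  rw [one_mul] at h1
  exact mul_le_mul h1 s3 (by positivity) (by norm_num)

/-- `1 - rho ≤ 1`, `(2d+1)/(3d+1) ≤ 5/7`, `a/d ≤ 2D/d`. -/
theorem phH_sup_tail (D x J par k : ℕ) (hD : 121 ≤ D) (hp : par ≤ 1) (hk : k + 3 ≤ D)
    (h : 3 * D < 4 * k) :
    phH D x J par k ≤ 723 / 1000 * (D : ℝ) ^ 2 / (((D : ℝ) - 1 - k) * ((D : ℝ) + 1 - k)) := by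
  have hkD : (k : ℝ) + 3 ≤ D := by exact_mod_cast hk
  have hk0 : (0 : ℝ) ≤ k := Nat.cast_nonneg k
  have hx : (0 : ℝ) ≤ x := Nat.cast_nonneg x
  have hJ : (0 : ℝ) ≤ J := Nat.cast_nonneg J
  have hp0 : (0 : ℝ) ≤ par := Nat.cast_nonneg par
  have hp1 : (par : ℝ) ≤ 1 := by exact_mod_cast hp
  have hD' : (121 : ℝ) ≤ D := by exact_mod_cast hD
  have hd0 : (0 : ℝ) < (D : ℝ) - 1 - k := by linarith
  have hB0 : (0 : ℝ) ≤ 5 / 7 * (2 * (D : ℝ) / ((D : ℝ) - 1 - k)) := by positivity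
  have hg := N25_gen D x J par k hk _ hB0 (fun k' hk' => N25_hT D par k k' hp hk hk')
    _ _ _ _ rfl rfl rfl rfl
  refine hg.trans ?_
  have hc := N25_sup_core ((D : ℝ) - 1 + k + par) ((D : ℝ) - k) ((x : ℝ) + J)
    (2 * (D : ℝ) - 2 + ((x : ℝ) + J) + par) (by linarith) (by linarith) (by linarith) (by ring)
  refine (mul_le_mul_of_nonneg_left hc hB0).trans ?_
  have hs : (0 : ℝ) < (D : ℝ) + 1 - k := by linarith
  have c1 : ((D : ℝ) - 1 + k + par + 3) / (4 * ((D : ℝ) - k + 1)) ≤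
      2 * D / (4 * ((D : ℝ) + 1 - k)) :=
    div_le_div₀ (by linarith) (by linarith) (by linarith) (by linarith)
  refine (mul_le_mul_of_nonneg_left c1 hB0).trans ?_
  have e : 5 / 7 * (2 * (D : ℝ) / ((D : ℝ) - 1 - k)) * (2 * D / (4 * ((D : ℝ) + 1 - k))) =
      5 / 7 * (D : ℝ) ^ 2 / (((D : ℝ) - 1 - k) * ((D : ℝ) + 1 - k)) := by
    have u1 := hd0.ne'
    have u2 := hs.ne'
    field_simp
    ring
  rw [e]
  refine div_le_div_of_nonneg_right ?_ (by positivity)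
  nlinarith [sq_nonneg (D : ℝ)]

theorem phH_pre_tail (D x J par k : ℕ) (hD : 121 ≤ D) (hp : par ≤ 1) (hk : k + 3 ≤ D)
    (h : 3 * D < 4 * k) :
    phH D x J par k ≤ 2 * ((x : ℝ) + J + 1) * D / (2 * (D : ℝ) - 3 + x + J) ^ 2 *
      (40 / 7 * (D : ℝ) ^ 2 / (((D : ℝ) - 1 - k) * ((D : ℝ) - k))) := by
  have hkD : (k : ℝ) + 3 ≤ D := by exact_mod_cast hk
  have hk0 : (0 : ℝ) ≤ k := Nat.cast_nonneg k
  have hx : (0 : ℝ) ≤ x := Nat.cast_nonneg x
  have hJ : (0 : ℝ) ≤ J := Nat.cast_nonneg J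
  have hp0 : (0 : ℝ) ≤ par := Nat.cast_nonneg par
  have hp1 : (par : ℝ) ≤ 1 := by exact_mod_cast hp
  have hD' : (121 : ℝ) ≤ D := by exact_mod_cast hD
  have hd0 : (0 : ℝ) < (D : ℝ) - 1 - k := by linarith
  have hB0 : (0 : ℝ) ≤ 5 / 7 * (2 * (D : ℝ) / ((D : ℝ) - 1 - k)) := by positivity
  have hg := N25_gen D x J par k hk _ hB0 (fun k' hk' => N25_hT D par k k' hp hk hk')
    _ _ _ _ rfl rfl rfl rfl
  refine hg.trans ?_
  have hc := N25_pre_core ((D : ℝ) - 1 + k + par) ((D : ℝ) - k) ((x : ℝ) + J)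
    (2 * (D : ℝ) - 2 + ((x : ℝ) + J) + par) D (by linarith) (by linarith) (by linarith)
    (by linarith) (by linarith)
  refine (mul_le_mul_of_nonneg_left hc hB0).trans ?_
  have e1 : 2 * (D : ℝ) - 3 + x + J = 2 * (D : ℝ) - 3 + (x + J) := by ring
  rw [e1]
  have hn0 : (0 : ℝ) < 2 * (D : ℝ) - 3 + (x + J) := by linarith
  have hs : (0 : ℝ) < (D : ℝ) - k := by linarith
  have c2 : ((D : ℝ) - 1 + k + par) ^ 2 ≤ (2 * (D : ℝ)) ^ 2 :=
    pow_le_pow_left₀ (by linarith) (by linarith) 2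
  have c5 : (0 : ℝ) ≤ 5 / 7 * (2 * (D : ℝ) / ((D : ℝ) - 1 - k)) *
      (2 * ((x : ℝ) + J + 1) / ((D : ℝ) - k)) * (1 / (2 * (D : ℝ) - 3 + (x + J)) ^ 2) := by
    positivity
  have c6 := mul_le_mul_of_nonneg_left c2 c5
  calc 5 / 7 * (2 * (D : ℝ) / ((D : ℝ) - 1 - k)) * (2 * ((x : ℝ) + J + 1) / ((D : ℝ) - k) *
        (((D : ℝ) - 1 + k + par) ^ 2 / (2 * (D : ℝ) - 3 + (x + J)) ^ 2))
      = 5 / 7 * (2 * (D : ℝ) / ((D : ℝ) - 1 - k)) *
      (2 * ((x : ℝ) + J + 1) / ((D : ℝ) - k)) * (1 / (2 * (D : ℝ) - 3 + (x + J)) ^ 2) *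
        ((D : ℝ) - 1 + k + par) ^ 2 := by ring
    _ ≤ 5 / 7 * (2 * (D : ℝ) / ((D : ℝ) - 1 - k)) *
      (2 * ((x : ℝ) + J + 1) / ((D : ℝ) - k)) * (1 / (2 * (D : ℝ) - 3 + (x + J)) ^ 2) *
        (2 * (D : ℝ)) ^ 2 := c6
    _ = _ := by
      have u1 := hd0.ne'
      have u2 := hs.ne'
      have u3 := hn0.ne'
      field_simp
      ring

end Pool.ADM
end

section

/-! job ADM-10a: the second difference. -/

set_option autoImplicit false

namespace Pool.ADM

open Finset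

/-! ### prefix functionals -/

/-- total size of the prefix of level `D` -/
private noncomputable def m10a_pf (D : ℕ) : S3 → ℝ
  | [] => 0
  | a :: τ => if a.1 = D then (a.2.1 : ℝ) + m10a_pf D τ else 0

/-- ties of level `D` in the prefix -/
private noncomputable def m10a_cf (D : ℕ) : S3 → ℝ
  | [] => 0
  | a :: τ => if a.1 = D then (a.2.1 : ℝ) * m10a_pf D τ + m10a_cf D τ else 0

private noncomputable def m10a_wf (D : ℕ) : S3 → ℝ
  | [] => 0
  | a :: τ => if a.1 = D then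
      (a.2.1 : ℝ) * (a.2.1 + 1) + (a.2.1 : ℝ) * m10a_pf D τ + m10a_wf D τ else 0

private noncomputable def m10a_vf (D : ℕ) : S3 → ℝ
  | [] => if D = 1 then 1 else 0
  | a :: τ => if a.1 = D then m10a_vf D τ else m10a_wf (D - 1) (a :: τ)

private theorem m10a_pf_ne (D : ℕ) (_hD : 1 ≤ D) (σ : S3) (h : top3 σ ≠ D) : m10a_pf D σ = 0 := by
  cases σ with
  | nil => rfl
  | cons a τ =>
    have h' : a.1 ≠ D := h
    simp [m10a_pf, h']

private theorem m10a_cf_ne (D : ℕ) (_hD : 1 ≤ D) (σ : S3) (h : top3 σ ≠ D) : m10a_cf D σ = 0 := by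
  cases σ with
  | nil => rfl
  | cons a τ =>
    have h' : a.1 ≠ D := h
    simp [m10a_cf, h']

private theorem m10a_wf_ne (D : ℕ) (_hD : 1 ≤ D) (σ : S3) (h : top3 σ ≠ D) : m10a_wf D σ = 0 := by
  cases σ with
  | nil => rfl
  | cons a τ =>
    have h' : a.1 ≠ D := h
    simp [m10a_wf, h']

private theorem m10a_wf_eq (D : ℕ) (σ : S3) :
    m10a_wf D σ = m10a_pf D σ ^ 2 + m10a_pf D σ - m10a_cf D σ := by
  induction σ with
  | nil => simp [m10a_wf, m10a_pf, m10a_cf]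
  | cons a τ ih =>
    by_cases h : a.1 = D
    · simp only [m10a_wf, m10a_pf, m10a_cf, h, if_true]
      rw [ih]; ring
    · simp [m10a_wf, m10a_pf, m10a_cf, h]

/-- good lists: sorted, levels `≤ D`, positive levels, leaves bounded -/
private structure m10a_good (D : ℕ) (σ : S3) : Prop where
  anti : σ.Pairwise fun F G => G.1 ≤ F.1
  le : ∀ F ∈ σ, F.1 ≤ D
  pos : ∀ F ∈ σ, 1 ≤ F.1
  lv : ∀ F ∈ σ, F.2.2 ≤ F.2.1

private theorem m10a_good_tail {D : ℕ} {a : ℕ × ℕ × ℕ} {τ : S3} (h : m10a_good D (a :: τ)) :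
    m10a_good D τ :=
  ⟨(List.pairwise_cons.1 h.anti).2, fun F hF => h.le F (List.mem_cons_of_mem _ hF),
    fun F hF => h.pos F (List.mem_cons_of_mem _ hF),
    fun F hF => h.lv F (List.mem_cons_of_mem _ hF)⟩

private theorem m10a_good_head {D : ℕ} {a : ℕ × ℕ × ℕ} {τ : S3} (h : m10a_good D (a :: τ)) :
    m10a_good a.1 (a :: τ) := by
  refine ⟨h.anti, fun F hF => ?_, h.pos, h.lv⟩
  rcases List.mem_cons.1 hF with rfl | hF
  · exact le_rfl
  · exact (List.pairwise_cons.1 h.anti).1 F hF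

private theorem m10a_good_mono {D E : ℕ} (hDE : D ≤ E) {σ : S3} (h : m10a_good D σ) :
    m10a_good E σ :=
  ⟨h.anti, fun F hF => (h.le F hF).trans hDE, h.pos, h.lv⟩

private theorem m10a_top_le {D : ℕ} {σ : S3} (h : m10a_good D σ) : top3 σ ≤ D := by
  cases σ with
  | nil => exact Nat.zero_le _
  | cons a τ => exact h.le a List.mem_cons_self

private theorem m10a_good_of_vs {n : ℕ} {σ : S3} (hσ : Vs 1 n σ) : m10a_good (top3 σ) σ := by
  refine ⟨hσ.anti, ?_, fun F hF => (hσ.pos F hF).1, fun F hF => ?_⟩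
  · cases σ with
    | nil => intro F hF; cases hF
    | cons a τ =>
      intro F hF
      rcases List.mem_cons.1 hF with rfl | hF
      · exact le_rfl
      · exact (List.pairwise_cons.1 hσ.anti).1 F hF
  · rcases Nat.lt_or_ge F.1 2 with h | h
    · have h1 : F.1 = 1 := by have := (hσ.pos F hF).1; omega
      have := hσ.one F hF h1
      rw [this]
    · exact (hσ.big F hF h).le

private theorem m10a_top_glue (F : ℕ × ℕ × ℕ) (ρ : S3) :
    top3 (glue3 F ρ) = if top3 ρ = F.1 + 1 then F.1 + 1 else F.1 := by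
  cases ρ with
  | nil => simp [glue3, top3]
  | cons G ρ =>
    by_cases h : G.1 = F.1 + 1
    · simp [glue3, top3, h]
    · simp [glue3, top3, h]

private theorem m10a_pf_glue (F : ℕ × ℕ × ℕ) (_hF : 1 ≤ F.1) (ρ : S3) :
    m10a_pf F.1 (glue3 F ρ) =
      (F.2.1 : ℝ) * (1 - if top3 ρ = F.1 + 1 then (1 : ℝ) else 0) + m10a_pf F.1 ρ := by
  cases ρ with
  | nil => simp [glue3, top3, m10a_pf]
  | cons G ρ =>
    by_cases h : G.1 = F.1 + 1
    · simp [glue3, top3, m10a_pf, h]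
    · simp [glue3, top3, m10a_pf, h]

private theorem m10a_pf_glue' (F : ℕ × ℕ × ℕ) (_hF : 1 ≤ F.1) (ρ : S3) :
    m10a_pf (F.1 + 1) (glue3 F ρ) =
      (F.2.1 : ℝ) * (if top3 ρ = F.1 + 1 then (1 : ℝ) else 0) + m10a_pf (F.1 + 1) ρ := by
  cases ρ with
  | nil => simp [glue3, top3, m10a_pf]
  | cons G ρ =>
    by_cases h : G.1 = F.1 + 1
    · simp [glue3, top3, m10a_pf, h]; ring
    · simp [glue3, top3, m10a_pf, h]

private theorem m10a_cf_glue (F : ℕ × ℕ × ℕ) (_hF : 1 ≤ F.1) (ρ : S3) :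
    m10a_cf F.1 (glue3 F ρ) = (F.2.1 : ℝ) * m10a_pf F.1 ρ + m10a_cf F.1 ρ := by
  cases ρ with
  | nil => simp [glue3, m10a_pf, m10a_cf]
  | cons G ρ =>
    by_cases h : G.1 = F.1 + 1
    · simp [glue3, m10a_pf, m10a_cf, h]
    · simp [glue3, m10a_pf, m10a_cf, h]

/-! ### sums over successors -/

private theorem m10a_wcast {D : ℕ} {F : ℕ × ℕ × ℕ} {τ : S3} (h : m10a_good D (F :: τ)) :
    ((F.2.1 - F.2.2 : ℕ) : ℝ) = (F.2.1 : ℝ) - F.2.2 :=
  Nat.cast_sub (h.lv F List.mem_cons_self)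

private theorem m10a_wconst (l : List (ℕ × ℕ × S3)) (f : ℕ → S3 → ℝ) (a : ℝ) :
    wsum l (fun h σ => a * f h σ) = a * wsum l f := wsum_mul l a f

private theorem m10a_wzero (l : List (ℕ × ℕ × S3)) : wsum l (fun _ _ => 0) = 0 := by
  have h := wsum_mul l 0 (fun _ _ => (0 : ℝ))
  simpa using h

private theorem m10a_one (c D : ℕ) (σ : S3) (h : m10a_good D σ) :
    wsum (suc c σ) (fun _ _ => 1) = (sz σ : ℝ) + 1 := by
  induction σ with
  | nil => simp [suc, wsum, sz]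
  | cons F τ ih =>
    rw [wsum_suc_cons, ih (m10a_good_tail h), m10a_wcast h]
    simp only [sz, List.map_cons, List.sum_cons]
    push_cast
    ring

private theorem m10a_ind (c D : ℕ) (hD : 1 ≤ D) (σ : S3) (h : m10a_good D σ) :
    wsum (suc c σ) (fun _ ρ => if top3 ρ = D + 1 then (1 : ℝ) else 0) = m10a_pf D σ := by
  induction σ with
  | nil =>
    have h1 : (1 : ℕ) ≠ D + 1 := by omega
    simp only [suc, wsum, List.map_cons, List.map_nil, top3, m10a_pf, List.sum_cons, List.sum_nil,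
      if_neg h1]
    simp
  | cons F τ ih =>
    rw [wsum_suc_cons]
    by_cases hF : F.1 = D
    · subst hF
      have e1 : (fun (_ : ℕ) (ρ : S3) => if top3 (glue3 F ρ) = F.1 + 1 then (1 : ℝ) else 0) =
          fun _ ρ => if top3 ρ = F.1 + 1 then (1 : ℝ) else 0 := by
        funext _ ρ
        rw [m10a_top_glue]
        by_cases h : top3 ρ = F.1 + 1
        · simp [h]
        · simp [h]
      rw [e1, ih (m10a_good_tail h), m10a_wcast h]
      simp only [top3, if_true, m10a_pf]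
      ring
    · have hlt : F.1 < D := lt_of_le_of_ne (h.le F List.mem_cons_self) hF
      have e1 : (fun (_ : ℕ) (ρ : S3) => if top3 (glue3 F ρ) = D + 1 then (1 : ℝ) else 0) =
          fun _ ρ => 0 := by
        funext _ ρ
        rw [m10a_top_glue]
        by_cases h : top3 ρ = F.1 + 1
        · rw [if_pos h, if_neg (by omega)]
        · rw [if_neg h, if_neg (by omega)]
      have h2 : F.1 + 1 ≠ D + 1 := by omega
      rw [e1, m10a_wzero]
      simp only [top3, m10a_pf, if_neg hF, if_neg h2]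
      simp

private theorem m10a_base (c D : ℕ) (hD : 1 ≤ D) (σ : S3) (h : m10a_good D σ) :
    wsum (suc c σ) (fun _ ρ => m10a_pf (D + 1) ρ) = m10a_wf D σ := by
  induction σ with
  | nil =>
    have h1 : (1 : ℕ) ≠ D + 1 := by omega
    simp only [suc, wsum, List.map_cons, List.map_nil, m10a_pf, List.sum_cons, List.sum_nil,
      if_neg h1, m10a_wf]
    simp
  | cons F τ ih =>
    rw [wsum_suc_cons]
    by_cases hF : F.1 = D
    · subst hF
      have e1 : (fun (_ : ℕ) (ρ : S3) => m10a_pf (F.1 + 1) (glue3 F ρ)) =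
          fun _ ρ => (F.2.1 : ℝ) * (if top3 ρ = F.1 + 1 then (1 : ℝ) else 0) +
            m10a_pf (F.1 + 1) ρ := by
        funext _ ρ
        exact m10a_pf_glue' F hD ρ
      have ht : m10a_pf (F.1 + 1) τ = 0 := by
        apply m10a_pf_ne _ (by omega)
        have := m10a_top_le (m10a_good_tail h)
        omega
      rw [e1, wsum_add, wsum_mul, ih (m10a_good_tail h), m10a_ind c F.1 hD τ (m10a_good_tail h),
        m10a_wcast h]
      simp only [m10a_pf, m10a_wf, if_true, ht]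
      push_cast
      ring
    · have hlt : F.1 < D := lt_of_le_of_ne (h.le F List.mem_cons_self) hF
      have e1 : (fun (_ : ℕ) (ρ : S3) => m10a_pf (D + 1) (glue3 F ρ)) = fun _ ρ => 0 := by
        funext _ ρ
        apply m10a_pf_ne _ (by omega)
        rw [m10a_top_glue]
        by_cases h : top3 ρ = F.1 + 1
        · rw [if_pos h]; omega
        · rw [if_neg h]; omega
      rw [e1, m10a_wzero]
      have h2 : F.1 + 1 ≠ D + 1 := by omega
      simp only [m10a_pf, m10a_wf, if_neg hF, if_neg h2]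
      simp

private theorem m10a_mid (c D : ℕ) (hD : 1 ≤ D) (σ : S3) (h : m10a_good D σ) :
    wsum (suc c σ) (fun _ ρ => m10a_pf D ρ) =
      m10a_pf D σ * ((sz σ : ℝ) + 1 - m10a_pf D σ) + m10a_vf D σ := by
  induction σ with
  | nil =>
    by_cases h1 : D = 1
    · subst h1
      simp [suc, wsum, m10a_pf, m10a_vf]
    · have h2 : (1 : ℕ) ≠ D := fun h => h1 h.symm
      simp only [suc, wsum, List.map_cons, List.map_nil, m10a_pf, List.sum_cons, List.sum_nil,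
        if_neg h2, m10a_vf, if_neg h1]
      simp
  | cons F τ ih =>
    by_cases hF : F.1 = D
    · subst hF
      rw [wsum_suc_cons]
      have e1 : (fun (_ : ℕ) (ρ : S3) => m10a_pf F.1 (glue3 F ρ)) =
          fun _ ρ => ((F.2.1 : ℝ) * 1 + (-(F.2.1 : ℝ)) *
            (if top3 ρ = F.1 + 1 then (1 : ℝ) else 0)) + m10a_pf F.1 ρ := by
        funext _ ρ
        rw [m10a_pf_glue F hD ρ]; ring
      have h2 : F.1 + 1 ≠ F.1 := by omega
      rw [e1, wsum_add, wsum_add, wsum_mul, wsum_mul, ih (m10a_good_tail h),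
        m10a_ind c F.1 hD τ (m10a_good_tail h), m10a_one c F.1 τ (m10a_good_tail h)]
      simp only [m10a_pf, m10a_vf, if_true, if_neg h2, sz, List.map_cons, List.sum_cons]
      push_cast
      ring
    · have hlt : F.1 < D := lt_of_le_of_ne (h.le F List.mem_cons_self) hF
      have hp := h.pos F List.mem_cons_self
      obtain ⟨E, rfl⟩ : ∃ E, D = E + 1 := ⟨D - 1, by omega⟩
      have hg : m10a_good E (F :: τ) := m10a_good_mono (by omega) (m10a_good_head h)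
      rw [m10a_base c E (by omega) (F :: τ) hg]
      simp only [m10a_pf, m10a_vf, if_neg hF, Nat.add_sub_cancel]
      simp

/-- the packets behind the first one stay below level `D + 1`. -/
private theorem m10a_tail (c D : ℕ) (σ : S3) (h : m10a_good D σ) :
    ∀ x ∈ suc c σ, top3 x.2.2 ≤ top3 σ + 1 ∧ top3 x.2.2.tail ≤ D := by
  induction σ with
  | nil =>
    intro x hx
    simp only [suc, List.mem_singleton] at hx
    subst hx
    simp [top3]
  | cons F τ ih =>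
    intro x hx
    have ht := m10a_top_le (m10a_good_tail h)
    have hFD : F.1 ≤ D := h.le F List.mem_cons_self
    simp only [suc, List.mem_cons, List.mem_map] at hx
    rcases hx with rfl | rfl | ⟨y, hy, rfl⟩
    · exact ⟨by simp [top3], ht⟩
    · exact ⟨by simp [top3], ht⟩
    · obtain ⟨h1, h2⟩ := ih (m10a_good_tail h) y hy
      have hτF : top3 τ ≤ F.1 := m10a_top_le (m10a_good_tail (m10a_good_head h))
      dsimp only
      constructor
      · rw [m10a_top_glue]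
        have : top3 (F :: τ) = F.1 := rfl
        rw [this]
        split_ifs <;> omega
      · cases hρ : y.2.2 with
        | nil => simp [glue3, top3]
        | cons G ρ =>
          rw [hρ] at h1 h2
          by_cases hG : G.1 = F.1 + 1
          · simp only [glue3, if_pos hG, List.tail_cons]
            exact h2
          · simp only [glue3, if_neg hG, List.tail_cons]
            have : top3 (G :: ρ) = G.1 := rfl
            rw [this] at h1 ⊢
            omega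

private theorem m10a_cf_succ (c D : ℕ) (σ : S3) (h : m10a_good D σ) :
    ∀ x ∈ suc c σ, m10a_cf (D + 1) x.2.2 = 0 := by
  intro x hx
  obtain ⟨_, h2⟩ := m10a_tail c D σ h x hx
  cases hρ : x.2.2 with
  | nil => rfl
  | cons G ρ =>
    rw [hρ, List.tail_cons] at h2
    have e1 : m10a_pf (D + 1) ρ = 0 := m10a_pf_ne _ (by omega) _ (by omega)
    have e2 : m10a_cf (D + 1) ρ = 0 := m10a_cf_ne _ (by omega) _ (by omega)
    simp [m10a_cf, e1, e2]

private theorem m10a_wsum_zero (l : List (ℕ × ℕ × S3)) (f : S3 → ℝ)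
    (h : ∀ x ∈ l, f x.2.2 = 0) : wsum l (fun _ ρ => f ρ) = 0 := by
  rw [wsum_congr l (fun _ ρ => f ρ) (fun _ _ => 0) fun x hx _ => h x hx]
  exact m10a_wzero l

private theorem m10a_tie (c D : ℕ) (hD : 1 ≤ D) (σ : S3) (h : m10a_good D σ) :
    wsum (suc c σ) (fun _ ρ => m10a_cf D ρ) =
      ((sz σ : ℝ) + 1 - m10a_pf D σ) * m10a_cf D σ + m10a_pf D σ * m10a_vf D σ := by
  induction σ with
  | nil =>
    simp only [m10a_pf, m10a_cf, mul_zero, zero_mul, add_zero]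
    apply m10a_wsum_zero
    intro x hx
    simp only [suc, List.mem_singleton] at hx
    subst hx
    simp [m10a_cf, m10a_pf]
  | cons F τ ih =>
    by_cases hF : F.1 = D
    · subst hF
      rw [wsum_suc_cons]
      have e1 : (fun (_ : ℕ) (ρ : S3) => m10a_cf F.1 (glue3 F ρ)) =
          fun _ ρ => (F.2.1 : ℝ) * m10a_pf F.1 ρ + m10a_cf F.1 ρ := by
        funext _ ρ
        exact m10a_cf_glue F hD ρ
      have h2 : F.1 + 1 ≠ F.1 := by omega
      rw [e1, wsum_add, wsum_mul, ih (m10a_good_tail h), m10a_mid c F.1 hD τ (m10a_good_tail h)]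
      simp only [m10a_pf, m10a_cf, m10a_vf, if_true, if_neg h2, sz, List.map_cons, List.sum_cons]
      push_cast
      ring
    · have hlt : F.1 < D := lt_of_le_of_ne (h.le F List.mem_cons_self) hF
      have hp := h.pos F List.mem_cons_self
      obtain ⟨E, rfl⟩ : ∃ E, D = E + 1 := ⟨D - 1, by omega⟩
      have hg : m10a_good E (F :: τ) := m10a_good_mono (by omega) (m10a_good_head h)
      have e1 : m10a_cf (E + 1) (F :: τ) = 0 := m10a_cf_ne _ (by omega) _ hF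
      have e2 : m10a_pf (E + 1) (F :: τ) = 0 := m10a_pf_ne _ (by omega) _ hF
      rw [e1, e2, mul_zero, zero_mul, add_zero]
      exact m10a_wsum_zero _ _ (m10a_cf_succ c E (F :: τ) hg)

/-! ### translation -/

private theorem m10a_topN_aux (D : ℕ) (σ : S3) (h1 : σ.Pairwise fun F G => G.1 ≤ F.1)
    (h2 : ∀ F ∈ σ, F.1 ≤ D) :
    ((((σ.filter fun q => q.1 = D).map fun q => q.2.1).sum : ℕ) : ℝ) = m10a_pf D σ := by
  induction σ with
  | nil => simp [m10a_pf]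
  | cons a τ ih =>
    obtain ⟨h3, h4⟩ := List.pairwise_cons.1 h1
    by_cases h : a.1 = D
    · rw [List.filter_cons_of_pos (by simpa using h)]
      simp only [List.map_cons, List.sum_cons, m10a_pf, if_pos h]
      rw [← ih h4 fun F hF => h2 F (List.mem_cons_of_mem _ hF)]
      push_cast
      rfl
    · have hlt : a.1 < D := lt_of_le_of_ne (h2 a List.mem_cons_self) h
      have : (a :: τ).filter (fun q => q.1 = D) = [] := by
        rw [List.filter_eq_nil_iff]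
        intro q hq
        have : q.1 < D := by
          rcases List.mem_cons.1 hq with rfl | hq
          · exact hlt
          · exact (h3 q hq).trans_lt hlt
        simp; omega
      rw [this]
      simp [m10a_pf, h]

private theorem m10a_topN {n c : ℕ} {σ : S3} (hσ : Vs c n σ) :
    (topN σ : ℝ) = m10a_pf (top3 σ) σ := by
  refine m10a_topN_aux (top3 σ) σ hσ.anti ?_
  cases σ with
  | nil => intro F hF; cases hF
  | cons a τ =>
    intro F hF
    rcases List.mem_cons.1 hF with rfl | hF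
    · exact le_rfl
    · exact (List.pairwise_cons.1 hσ.anti).1 F hF

private theorem m10a_AL_cons (D : ℕ) (a : ℕ × ℕ × ℕ) (B : S3) :
    AL D (a :: B) ↔ a.1 = D ∧ (B = [] ∨ AL D B) := by
  cases B with
  | nil => simp [AL]
  | cons b B => simp [AL]

private theorem m10a_AL_nil (D : ℕ) : ¬ AL D [] := by simp [AL]

private theorem m10a_lsz_cons (a b : ℕ × ℕ × ℕ) (B : S3) : lsz (a :: b :: B) = lsz (b :: B) := by
  simp [lsz, List.getLastD]

private theorem m10a_lsz_one (a : ℕ × ℕ × ℕ) : lsz [a] = a.2.1 := by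
  simp [lsz, List.getLastD]

private theorem m10a_sz_cons (a : ℕ × ℕ × ℕ) (B : S3) : sz (a :: B) = a.2.1 + sz B := by
  simp [sz]

/-- change the value at the first cut -/
private theorem m10a_cut_split (σ : S3) (G H : S3 → S3 → ℝ)
    (h : ∀ b B O, G (b :: B) O = H (b :: B) O) :
    cutS σ G = G [] σ - H [] σ + cutS σ H := by
  cases σ with
  | nil => simp [cutS]
  | cons a σ =>
    simp only [cutS]
    have : (fun B O => G (a :: B) O) = fun B O => H (a :: B) O := by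
      funext B O; exact h a B O
    rw [this]; ring

private theorem m10a_cutzero (σ : S3) : cutS σ (fun _ _ => 0) = 0 := by
  induction σ with
  | nil => simp [cutS]
  | cons a σ ih => simp only [cutS]; rw [ih]; ring

private theorem m10a_c1 (D : ℕ) (σ : S3) :
    cutS σ (fun B _ => if AL D B then (lsz B : ℝ) else 0) = m10a_pf D σ := by
  induction σ with
  | nil => simp [cutS, m10a_AL_nil, m10a_pf]
  | cons a τ ih =>
    simp only [cutS, m10a_pf]
    rw [if_neg (m10a_AL_nil D), zero_add]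
    by_cases h : a.1 = D
    · rw [if_pos h, m10a_cut_split τ _ (fun B _ => if AL D B then (lsz B : ℝ) else 0), ih]
      · simp [m10a_AL_cons, m10a_AL_nil, h, m10a_lsz_one]
      · intro b B O
        simp [m10a_AL_cons, h, m10a_lsz_cons]
    · rw [if_neg h]
      have : (fun (B _ : S3) => if AL D (a :: B) then (lsz (a :: B) : ℝ) else 0) =
          fun _ _ => 0 := by
        funext B O
        rw [if_neg]
        rw [m10a_AL_cons]
        exact fun h' => h h'.1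
      rw [this, m10a_cutzero]

private theorem m10a_Cf_aux (D : ℕ) (σ : S3) :
    cutS σ (fun F V => if AL D F then (lsz F : ℝ) * m10a_pf D V else 0) = m10a_cf D σ := by
  induction σ with
  | nil => simp [cutS, m10a_AL_nil, m10a_cf]
  | cons a τ ih =>
    simp only [cutS, m10a_cf]
    rw [if_neg (m10a_AL_nil D), zero_add]
    by_cases h : a.1 = D
    · rw [if_pos h, m10a_cut_split τ _
        (fun F V => if AL D F then (lsz F : ℝ) * m10a_pf D V else 0), ih]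
      · simp [m10a_AL_cons, m10a_AL_nil, h, m10a_lsz_one]
      · intro b B O
        simp [m10a_AL_cons, h, m10a_lsz_cons]
    · rw [if_neg h]
      have : (fun (B V : S3) => if AL D (a :: B) then (lsz (a :: B) : ℝ) * m10a_pf D V else 0) =
          fun _ _ => 0 := by
        funext B O
        rw [if_neg]
        rw [m10a_AL_cons]
        exact fun h' => h h'.1
      rw [this, m10a_cutzero]

private theorem m10a_Cf (σ : S3) : Cf σ = m10a_cf (top3 σ) σ := by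
  rw [← m10a_Cf_aux]
  unfold Cf
  congr 1
  funext F V
  by_cases h : AL (top3 σ) F
  · simp only [h, true_and, if_true]
    have e : (fun (B _ : S3) => if AL (top3 σ) B then (lsz F : ℝ) * (lsz B : ℝ) else 0) =
        fun B _ => (lsz F : ℝ) * (if AL (top3 σ) B then (lsz B : ℝ) else 0) := by
      funext B _; split_ifs <;> ring
    rw [e, cutS_mul, m10a_c1]
  · simp only [h, false_and, if_false]
    exact m10a_cutzero V

private theorem m10a_c2 (D : ℕ) (σ : S3) :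
    cutS σ (fun B _ => if AL D B then (lsz B : ℝ) * ((sz B : ℝ) + 1) else 0) = m10a_wf D σ := by
  induction σ with
  | nil => simp [cutS, m10a_AL_nil, m10a_wf]
  | cons a τ ih =>
    simp only [cutS, m10a_wf]
    rw [if_neg (m10a_AL_nil D), zero_add]
    by_cases h : a.1 = D
    · rw [if_pos h, m10a_cut_split τ _
        (fun B _ => (a.2.1 : ℝ) * (if AL D B then (lsz B : ℝ) else 0) +
          (if AL D B then (lsz B : ℝ) * ((sz B : ℝ) + 1) else 0)), cutS_add, cutS_mul, ih, m10a_c1]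
      · simp [m10a_AL_cons, m10a_AL_nil, h, m10a_lsz_one, sz]
        ring
      · intro b B O
        simp only [m10a_AL_cons, h, m10a_lsz_cons, m10a_sz_cons, true_and]
        simp only [reduceCtorEq, false_or]
        split_ifs
        · push_cast; ring
        · ring
    · rw [if_neg h]
      have : (fun (B _ : S3) => if AL D (a :: B) then
          (lsz (a :: B) : ℝ) * ((sz (a :: B) : ℝ) + 1) else 0) = fun _ _ => 0 := by
        funext B O
        rw [if_neg]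
        rw [m10a_AL_cons]
        exact fun h' => h h'.1
      rw [this, m10a_cutzero]

/-- cuts after a prefix of level `D`, the empty prefix included -/
private theorem m10a_Vz (D : ℕ) (hD : 2 ≤ D) (σ : S3) :
    cutS σ (fun F V => if F = [] ∨ AL D F then m10a_wf (D - 1) V else 0) = m10a_vf D σ := by
  induction σ with
  | nil =>
    have : D ≠ 1 := by omega
    simp [cutS, m10a_wf, m10a_vf, this]
  | cons a τ ih =>
    simp only [cutS, m10a_vf]
    by_cases h : a.1 = D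
    · have e : (fun (B O : S3) => if a :: B = [] ∨ AL D (a :: B) then m10a_wf (D - 1) O else 0) =
          fun F V => if F = [] ∨ AL D F then m10a_wf (D - 1) V else 0 := by
        funext B O
        simp [m10a_AL_cons, h]
      have e2 : m10a_wf (D - 1) (a :: τ) = 0 := m10a_wf_ne _ (by omega) _ (by
        show a.1 ≠ D - 1
        omega)
      rw [e, ih, e2, if_pos h]
      simp
    · have e : (fun (B O : S3) => if a :: B = [] ∨ AL D (a :: B) then m10a_wf (D - 1) O else 0) =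
          fun _ _ => 0 := by
        funext B O
        simp [m10a_AL_cons, h]
      rw [e, m10a_cutzero, if_neg h]
      simp

private theorem m10a_Vf1 (σ : S3) (h : ∀ q ∈ σ, q.1 = 1) : m10a_vf 1 σ = 1 := by
  induction σ with
  | nil => simp [m10a_vf]
  | cons a τ ih =>
    simp only [m10a_vf, if_pos (h a List.mem_cons_self)]
    exact ih fun q hq => h q (List.mem_cons_of_mem _ hq)

private theorem m10a_Vf {n : ℕ} {σ : S3} (hσ : Vs 1 n σ) (hne : σ ≠ []) :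
    Vf σ = m10a_vf (top3 σ) σ := by
  have hg := m10a_good_of_vs hσ
  unfold Vf
  by_cases h1 : top3 σ ≤ 1
  · rw [if_pos h1]
    have h2 : ∀ q ∈ σ, q.1 = 1 := by
      intro q hq
      have := hg.le q hq
      have := hg.pos q hq
      omega
    have h3 : top3 σ = 1 := by
      cases σ with
      | nil => exact absurd rfl hne
      | cons a τ => exact h2 a List.mem_cons_self
    rw [h3, m10a_Vf1 σ h2]
  · rw [if_neg h1]
    cases σ with
    | nil => exact absurd rfl hne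
    | cons a τ =>
      have ht : top3 (a :: τ) = a.1 := rfl
      rw [ht] at h1 ⊢
      have hD : 2 ≤ a.1 := by omega
      simp only [m10a_vf, if_true]
      rw [← m10a_Vz a.1 hD τ]
      simp only [cutS]
      have e0 : (cutS (a :: τ) fun (B _ : S3) => if AL a.1 [] ∧ AL (a.1 - 1) B then
          (lsz B : ℝ) * ((sz B : ℝ) + 1) else 0) = 0 := by
        have : (fun (B _ : S3) => if AL a.1 [] ∧ AL (a.1 - 1) B then
          (lsz B : ℝ) * ((sz B : ℝ) + 1) else 0) = fun _ _ => 0 := by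
          funext B _
          simp [m10a_AL_nil]
        rw [this, m10a_cutzero]
      simp only [cutS] at e0
      rw [e0, zero_add]
      congr 1
      funext F V
      by_cases hF : F = [] ∨ AL a.1 F
      · have hF' : AL a.1 (a :: F) := by rw [m10a_AL_cons]; exact ⟨rfl, hF⟩
        rw [if_pos hF, ← m10a_c2]
        congr 1
        funext B _
        simp [hF']
      · have hF' : ¬ AL a.1 (a :: F) := by rw [m10a_AL_cons]; exact fun h => hF h.2
        rw [if_neg hF]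
        have : (fun (B _ : S3) => if AL a.1 (a :: F) ∧ AL (a.1 - 1) B then
          (lsz B : ℝ) * ((sz B : ℝ) + 1) else 0) = fun _ _ => 0 := by
          funext B _
          simp [hF']
        rw [this, m10a_cutzero]

private theorem m10a_ne {n : ℕ} (hn : 1 ≤ n) {σ : S3} (hσ : Vs 1 n σ) : σ ≠ [] := by
  rintro rfl
  have := hσ.sum
  simp [sz] at this
  omega

private theorem m10a_top_pos {n : ℕ} (hn : 1 ≤ n) {σ : S3} (hσ : Vs 1 n σ) : 1 ≤ top3 σ := by
  cases σ with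
  | nil => exact absurd rfl (m10a_ne hn hσ)
  | cons a τ => exact (hσ.pos a List.mem_cons_self).1

/-- One step changes the size `N` of the top level (packets `f₁, …, f_r`, next level
`b₁, …, b_s`): hit of `f_i`: `N' = f₁ + … + f_i + 1`; hit of `b_j`: `N' = N + b₁ + … + b_j + 1`; if
the top level is `1` an append gives `N + 1`; otherwise `N' = N`.  And
`N² = ∑ f_i (f₁ + … + f_i) + Cf`. -/
theorem gen_topN (n : ℕ) (hn : 1 ≤ n) (σ : S3) (hσ : Vs 1 n σ) :
    wsum (suc 1 σ) (fun _ ρ => (topN ρ : ℝ)) =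
      ((n : ℝ) + 2) * topN σ + Vf σ - Cf σ := by
  have hg := m10a_good_of_vs hσ
  have hD := m10a_top_pos hn hσ
  rw [wsum_congr (suc 1 σ) (fun _ ρ => (topN ρ : ℝ))
    (fun _ ρ => m10a_pf (top3 σ + 1) ρ + m10a_pf (top3 σ) ρ)]
  · rw [wsum_add, m10a_base 1 (top3 σ) hD σ hg, m10a_mid 1 (top3 σ) hD σ hg, m10a_wf_eq,
      m10a_topN hσ, m10a_Vf hσ (m10a_ne hn hσ), m10a_Cf, hσ.sum]
    ring
  · intro x hx hx0
    have hv := suc_vs 1 n le_rfl σ hσ x hx hx0
    obtain ⟨h1, h2, -, -⟩ := suc_top 1 n σ hσ x hx hx0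
    rw [m10a_topN hv]
    rcases Nat.lt_or_ge (top3 σ) (top3 x.2.2) with h | h
    · have e : top3 x.2.2 = top3 σ + 1 := by omega
      rw [e, m10a_pf_ne (top3 σ) hD x.2.2 (by omega), add_zero]
    · have e : top3 x.2.2 = top3 σ := by omega
      rw [e, m10a_pf_ne (top3 σ + 1) (by omega) x.2.2 (by omega), zero_add]

/-- hit of the top level: `Cf = 0`; hit of `b_j`: `Cf' = Cf + N (b₁ + … + b_j + 1)`; if the top level
is `1` an append gives `Cf + N`. -/
theorem gen_Cf (n : ℕ) (hn : 1 ≤ n) (σ : S3) (hσ : Vs 1 n σ) :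
    wsum (suc 1 σ) (fun _ ρ => Cf ρ) =
      ((n : ℝ) + 1 - topN σ) * Cf σ + topN σ * Vf σ := by
  have hg := m10a_good_of_vs hσ
  have hD := m10a_top_pos hn hσ
  rw [wsum_congr (suc 1 σ) (fun _ ρ => Cf ρ) (fun _ ρ => m10a_cf (top3 σ) ρ)]
  · rw [m10a_tie 1 (top3 σ) hD σ hg, m10a_topN hσ, m10a_Vf hσ (m10a_ne hn hσ), m10a_Cf, hσ.sum]
  · intro x hx hx0
    obtain ⟨h1, h2, -, -⟩ := suc_top 1 n σ hσ x hx hx0
    rw [m10a_Cf]
    rcases Nat.lt_or_ge (top3 σ) (top3 x.2.2) with h | h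
    · have e : top3 x.2.2 = top3 σ + 1 := by omega
      rw [e, m10a_cf_ne (top3 σ) hD x.2.2 (by omega), m10a_cf_succ 1 (top3 σ) σ hg x hx]
    · have e : top3 x.2.2 = top3 σ := by omega
      rw [e]

/-- the top level goes up if and only if a letter of the top level is hit. -/
theorem gen_top (n : ℕ) (hn : 1 ≤ n) (σ : S3) (hσ : Vs 1 n σ) :
    wsum (suc 1 σ) (fun _ ρ => (top3 ρ : ℝ)) = ((n : ℝ) + 1) * top3 σ + topN σ := by
  have hg := m10a_good_of_vs hσ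
  have hD := m10a_top_pos hn hσ
  rw [wsum_congr (suc 1 σ) (fun _ ρ => (top3 ρ : ℝ))
    (fun _ ρ => (top3 σ : ℝ) * 1 + if top3 ρ = top3 σ + 1 then (1 : ℝ) else 0)]
  · rw [wsum_add, wsum_mul, wsum_suc_one 1 n le_rfl σ hσ, m10a_ind 1 (top3 σ) hD σ hg,
      m10a_topN hσ]
    ring
  · intro x hx hx0
    obtain ⟨h1, h2, -, -⟩ := suc_top 1 n σ hσ x hx hx0
    rcases Nat.lt_or_ge (top3 σ) (top3 x.2.2) with h | h
    · have e : top3 x.2.2 = top3 σ + 1 := by omega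
      rw [e, if_pos rfl]
      push_cast
      ring
    · have e : top3 x.2.2 = top3 σ := by omega
      rw [e, if_neg (by omega)]
      ring

end Pool.ADM
end

section

/-! job ADM-10b: the second difference. -/

set_option autoImplicit false

namespace Pool.ADM

open Finset

private theorem m10b_Dp_EM (n : ℕ) :
    Pool.Agent.Lib.MP_ad84ff_co.Dp n = EM n (fun σ => (top3 σ : ℝ)) := by
  rw [Pool.Agent.Lib.MP_ad84ff_co.Dp_eq, M_eq_EM]
  refine EM_congr n _ _ fun σ _ => ?_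
  cases σ with
  | nil => rfl
  | cons F τ => rfl

/-- From `Dp_eq`, `M_eq_EM`, `gen_top`. -/
theorem Dp_incr_EM (n : ℕ) (hn : 1 ≤ n) :
    Pool.Agent.Lib.MP_ad84ff_co.Dp (n + 1) - Pool.Agent.Lib.MP_ad84ff_co.Dp n =
      EM n (fun σ => (topN σ : ℝ)) / ((n : ℝ) + 1) := by
  have h0 : ((n : ℝ) + 1) ≠ 0 := by positivity
  rw [m10b_Dp_EM, m10b_Dp_EM, EM_succ,
    EM_congr n (fun σ => wsum (suc 1 σ) fun _ ρ => (top3 ρ : ℝ))
      (fun σ => ((n : ℝ) + 1) * (top3 σ : ℝ) + (topN σ : ℝ)) (fun σ hσ => gen_top n hn σ hσ),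
    EM_add n (fun σ => ((n : ℝ) + 1) * (top3 σ : ℝ)) (fun σ => (topN σ : ℝ)),
    EM_mul n ((n : ℝ) + 1) (fun σ => (top3 σ : ℝ))]
  field_simp
  ring

/-- From `Dp_incr_EM` and `gen_topN`. -/
theorem Dp_diff (n : ℕ) (hn : 1 ≤ n) :
    (Pool.Agent.Lib.MP_ad84ff_co.Dp (n + 2) - Pool.Agent.Lib.MP_ad84ff_co.Dp (n + 1)) -
      (Pool.Agent.Lib.MP_ad84ff_co.Dp (n + 1) - Pool.Agent.Lib.MP_ad84ff_co.Dp n) =
      (EM n Vf - EM n Cf) / (((n : ℝ) + 1) * ((n : ℝ) + 2)) := by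
  have h0 : ((n : ℝ) + 1) ≠ 0 := by positivity
  have h1 : ((n : ℝ) + 2) ≠ 0 := by positivity
  have e1 := Dp_incr_EM (n + 1) (by omega)
  have e2 : EM (n + 1) (fun σ => (topN σ : ℝ)) =
      (((n : ℝ) + 2) * EM n (fun σ => (topN σ : ℝ)) + EM n Vf - EM n Cf) / ((n : ℝ) + 1) := by
    rw [EM_succ,
      EM_congr n (fun σ => wsum (suc 1 σ) fun _ ρ => (topN ρ : ℝ))
        (fun σ => (((n : ℝ) + 2) * (topN σ : ℝ) + Vf σ) + (-1) * Cf σ) (fun σ hσ => by
          have := gen_topN n hn σ hσ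
          rw [this]; ring),
      EM_add n (fun σ => ((n : ℝ) + 2) * (topN σ : ℝ) + Vf σ) (fun σ => (-1) * Cf σ),
      EM_add n (fun σ => ((n : ℝ) + 2) * (topN σ : ℝ)) Vf,
      EM_mul n ((n : ℝ) + 2) (fun σ => (topN σ : ℝ)), EM_mul n (-1) Cf]
    ring
  have e3 : ((n + 1 : ℕ) : ℝ) + 1 = (n : ℝ) + 2 := by push_cast; ring
  rw [show n + 1 + 1 = n + 2 from rfl, e2, e3] at e1
  rw [e1, Dp_incr_EM n hn]
  field_simp
  ring

end Pool.ADM
end

section

end

section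

/-! job ADN-20: explicit bounds of `R_k = Rd (D-k) (D+k)` for `D ≥ 120`.

`δ = D-k`, `n = D+k-1` (`Rd δ (n+1)`), `R_k` is nonincreasing in `k` (`Rd_mono`, `Rd_anti`), so it is
enough to take `k = ⌊c D/48⌋ + 1`.  Then
* `c ≤ 15` (`3k ≤ D+2`): `Rd_harm_le`: `R_k ≤ 1 - (2k-1)/D`;
* `16 ≤ c ≤ 23` (`D+1 ≤ 3k`, `4k ≤ 2D+2`): `Rd_conv`, then `Rd_harm_le`:
  `R_k ≤ (D-k+1)/(D+3k-1) * (3D-5k+2)/(D+k)`;
* `24 ≤ c ≤ 28` (`2D+1 ≤ 4k`, `5k ≤ 3D+2`): `Rd_conv` twice, then `Rd_harm_le`: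
  `R_k ≤ (D-k+1)/(D+3k-1) * (D-k+1)/(5k-1-D) * (2D+1-3k)/k`;
* `29 ≤ c ≤ 31` (`3D+1 ≤ 5k`): `Rd_conv` three times (then `Rd ≤ 1`):
  `R_k ≤ (δ+1)³ / ((4D-3δ-1)(4D-5δ-1)(4D-7δ-1))`;
* `32 ≤ c` (`4D+1 ≤ 6k`): four times: `(δ+1)⁴ / ((4D-3δ-1)(4D-5δ-1)(4D-7δ-1)(4D-9δ-1))`.
Every factor is then bounded with `k ≥ c D/48`, `1/D ≤ 1/120`. -/

set_option autoImplicit false

namespace Pool.ADM

open Finset

/-- the bound in cell `c`, `κ = c/48`, `s = 1 - κ`, `ε = 1/120` -/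
def rcF (c : ℕ) (k s e : ℚ) : ℚ :=
  if c = 0 then 1 else
  if c ≤ 15 then 1 - 2 * k + e else
  if c ≤ 23 then (s + e) * (3 - 5 * k + 2 * e) / ((1 + 3 * k - e) * (1 + k)) else
  if c ≤ 28 then (s + e) ^ 2 * (2 - 3 * k + e) / ((1 + 3 * k - e) * (5 * k - 1 - e) * k) else
  if c ≤ 31 then (s + e) ^ 3 / ((4 - 3 * s - e) * (4 - 5 * s - e) * (4 - 7 * s - e)) else
  (s + e) ^ 4 / ((4 - 3 * s - e) * (4 - 5 * s - e) * (4 - 7 * s - e) * (4 - 9 * s - e))

def rcQ (c : ℕ) : ℚ := rcF c ((c : ℚ) / 48) (1 - (c : ℚ) / 48) (1 / 120)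

/-- one step of `Rd_conv` -/
private theorem N20_step (D k a b : ℕ) (hk : k + 1 ≤ D) (h1 : a + k = b + D)
    (h2 : 3 * D + 1 ≤ a + 2 * k + D) :
    Rd (D - k) a ≤ ((D : ℝ) - k + 1) / (2 * (a : ℝ) - 1 - D + k) * Rd (D - k) b := by
  obtain ⟨n, rfl⟩ : ∃ n, a = n + 1 := ⟨a - 1, by omega⟩
  have h := Rd_conv (D - k) n (by omega) (by omega)
  have e1 : n - (D - k) + 1 = b := by omega
  rw [e1, Nat.cast_sub (by omega)] at h
  have e2 : 2 * ((n + 1 : ℕ) : ℝ) - 1 - D + k = 2 * (n : ℝ) + 1 - ((D : ℝ) - k) := by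
    push_cast
    ring
  rw [e2]
  exact h

private theorem N20_harm (D k a : ℕ) (hk : k + 1 ≤ D) (h1 : D + 1 ≤ a + k)
    (h2 : a + 2 * k ≤ 2 * D + 2) :
    Rd (D - k) a ≤ ((3 * (D : ℝ) - 3 * k + 2 - a) / ((a : ℝ) + D - k)) := by
  obtain ⟨n, rfl⟩ : ∃ n, a = n + 1 := ⟨a - 1, by omega⟩
  have h := Rd_harm_le (D - k) n (by omega) (by omega) (by omega)
  rw [Nat.cast_sub (by omega)] at h
  have hkD : (k : ℝ) + 1 ≤ D := by exact_mod_cast hk
  have hn : (0 : ℝ) ≤ n := Nat.cast_nonneg n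
  have hpos : (n : ℝ) + ((D : ℝ) - k) + 1 ≠ 0 := by
    have : (0 : ℝ) < (n : ℝ) + ((D : ℝ) - k) + 1 := by linarith
    exact this.ne'
  have e1 : ((n + 1 : ℕ) : ℝ) + D - k = (n : ℝ) + ((D : ℝ) - k) + 1 := by
    push_cast
    ring
  rw [e1]
  refine h.trans (le_of_eq ?_)
  rw [eq_div_iff hpos]
  push_cast
  field_simp
  ring

private theorem N20_mono (D k k' : ℕ) (h : k' ≤ k) (hk : k + 1 ≤ D) :
    Rd (D - k) (D + k) ≤ Rd (D - k') (D + k') :=
  (Rd_anti (D - k) (D + k') (D + k) (by omega)).trans (Rd_mono (D - k) (D - k') _ (by omega))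

private theorem N20_div {a b p q D : ℝ} (hD : 0 < D) (hp : a ≤ p * D) (hq : q * D ≤ b)
    (hq0 : 0 < q) (hp0 : 0 ≤ p) : a / b ≤ p / q := by
  have h1 : a / b ≤ (p * D) / (q * D) :=
    div_le_div₀ (by positivity) hp (by positivity) hq
  rwa [mul_div_mul_right _ _ hD.ne'] at h1

private theorem N20_c1 (D k : ℕ) (hD : 120 ≤ D) (hk : k + 1 ≤ D) (h : D + 1 ≤ 3 * k) :
    Rd (D - k) (D + k) ≤ ((D : ℝ) - k + 1) / ((D : ℝ) + 3 * k - 1) * Rd (D - k) (2 * k) := by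
  have h1 := N20_step D k (D + k) (2 * k) hk (by omega) (by omega)
  have e : 2 * ((D + k : ℕ) : ℝ) - 1 - D + k = (D : ℝ) + 3 * k - 1 := by
    push_cast
    ring
  rw [e] at h1
  exact h1

private theorem N20_c2 (D k : ℕ) (hD : 120 ≤ D) (hk : k + 1 ≤ D) (h : 2 * D + 1 ≤ 4 * k) :
    Rd (D - k) (2 * k) ≤
      ((D : ℝ) - k + 1) / (5 * (k : ℝ) - 1 - D) * Rd (D - k) (3 * k - D) := by
  have h1 := N20_step D k (2 * k) (3 * k - D) hk (by omega) (by omega)
  have e : 2 * ((2 * k : ℕ) : ℝ) - 1 - D + k = 5 * (k : ℝ) - 1 - D := by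
    push_cast
    ring
  rw [e] at h1
  exact h1

private theorem N20_c3 (D k : ℕ) (hD : 120 ≤ D) (hk : k + 1 ≤ D) (h : 3 * D + 1 ≤ 5 * k) :
    Rd (D - k) (3 * k - D) ≤
      ((D : ℝ) - k + 1) / (7 * (k : ℝ) - 1 - 3 * D) * Rd (D - k) (4 * k - 2 * D) := by
  have h1 := N20_step D k (3 * k - D) (4 * k - 2 * D) hk (by omega) (by omega)
  have e : 2 * ((3 * k - D : ℕ) : ℝ) - 1 - D + k = 7 * (k : ℝ) - 1 - 3 * D := by
    rw [Nat.cast_sub (by omega)]
    push_cast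
    ring
  rw [e] at h1
  exact h1

private theorem N20_c4 (D k : ℕ) (hD : 120 ≤ D) (hk : k + 1 ≤ D) (h : 4 * D + 1 ≤ 6 * k) :
    Rd (D - k) (4 * k - 2 * D) ≤
      ((D : ℝ) - k + 1) / (9 * (k : ℝ) - 1 - 5 * D) * Rd (D - k) (5 * k - 3 * D) := by
  have h1 := N20_step D k (4 * k - 2 * D) (5 * k - 3 * D) hk (by omega) (by omega)
  have e : 2 * ((4 * k - 2 * D : ℕ) : ℝ) - 1 - D + k = 9 * (k : ℝ) - 1 - 5 * D := by
    rw [Nat.cast_sub (by omega)]
    push_cast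
    ring
  rw [e] at h1
  exact h1

/-- three steps -/
private theorem N20_three (D k : ℕ) (hD : 120 ≤ D) (hk : k + 1 ≤ D) (h : 3 * D + 1 ≤ 5 * k) :
    Rd (D - k) (D + k) ≤ ((D : ℝ) - k + 1) / ((D : ℝ) + 3 * k - 1) *
      (((D : ℝ) - k + 1) / (5 * (k : ℝ) - 1 - D) *
        (((D : ℝ) - k + 1) / (7 * (k : ℝ) - 1 - 3 * D) * Rd (D - k) (4 * k - 2 * D))) := by
  have hkD : (k : ℝ) + 1 ≤ D := by exact_mod_cast hk
  have h5 : 3 * (D : ℝ) + 1 ≤ 5 * k := by exact_mod_cast h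
  have hD' : (120 : ℝ) ≤ D := by exact_mod_cast hD
  have p1 : 0 ≤ ((D : ℝ) - k + 1) / ((D : ℝ) + 3 * k - 1) :=
    div_nonneg (by linarith) (by linarith)
  have p2 : 0 ≤ ((D : ℝ) - k + 1) / (5 * (k : ℝ) - 1 - D) :=
    div_nonneg (by linarith) (by linarith)
  refine (N20_c1 D k hD hk (by omega)).trans (mul_le_mul_of_nonneg_left ?_ p1)
  refine (N20_c2 D k hD hk (by omega)).trans (mul_le_mul_of_nonneg_left ?_ p2)
  exact N20_c3 D k hD hk h

/-- four steps -/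
private theorem N20_four (D k : ℕ) (hD : 120 ≤ D) (hk : k + 1 ≤ D) (h : 4 * D + 1 ≤ 6 * k) :
    Rd (D - k) (D + k) ≤ ((D : ℝ) - k + 1) / ((D : ℝ) + 3 * k - 1) *
      (((D : ℝ) - k + 1) / (5 * (k : ℝ) - 1 - D) *
        (((D : ℝ) - k + 1) / (7 * (k : ℝ) - 1 - 3 * D) *
          (((D : ℝ) - k + 1) / (9 * (k : ℝ) - 1 - 5 * D)))) := by
  have hkD : (k : ℝ) + 1 ≤ D := by exact_mod_cast hk
  have h5 : 4 * (D : ℝ) + 1 ≤ 6 * k := by exact_mod_cast h
  have hD' : (120 : ℝ) ≤ D := by exact_mod_cast hD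
  have p1 : 0 ≤ ((D : ℝ) - k + 1) / ((D : ℝ) + 3 * k - 1) :=
    div_nonneg (by linarith) (by linarith)
  have p2 : 0 ≤ ((D : ℝ) - k + 1) / (5 * (k : ℝ) - 1 - D) :=
    div_nonneg (by linarith) (by linarith)
  have p3 : 0 ≤ ((D : ℝ) - k + 1) / (7 * (k : ℝ) - 1 - 3 * D) :=
    div_nonneg (by linarith) (by linarith)
  have p4 : 0 ≤ ((D : ℝ) - k + 1) / (9 * (k : ℝ) - 1 - 5 * D) :=
    div_nonneg (by linarith) (by linarith)
  refine (N20_three D k hD hk (by omega)).trans (mul_le_mul_of_nonneg_left ?_ p1)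
  refine mul_le_mul_of_nonneg_left ?_ p2
  refine mul_le_mul_of_nonneg_left ?_ p3
  refine (N20_c4 D k hD hk h).trans ?_
  calc ((D : ℝ) - k + 1) / (9 * (k : ℝ) - 1 - 5 * D) * Rd (D - k) (5 * k - 3 * D)
      ≤ ((D : ℝ) - k + 1) / (9 * (k : ℝ) - 1 - 5 * D) * 1 :=
        mul_le_mul_of_nonneg_left (Rd_le_one _ _) p4
    _ = _ := mul_one _

theorem Rd_cell (D k c : ℕ) (hD : 120 ≤ D) (hk : k + 1 ≤ D) (hc : c ≤ 35) (h : c * D < 48 * k) :
    Rd (D - k) (D + k) ≤ (rcQ c : ℝ) := by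
  -- reduction to the first `k` of the cell
  obtain ⟨k0, hk0, h0, h0'⟩ : ∃ k0, k0 ≤ k ∧ c * D < 48 * k0 ∧ 48 * k0 ≤ c * D + 48 := by
    refine ⟨c * D / 48 + 1, ?_, ?_, ?_⟩ <;> omega
  refine (N20_mono D k k0 hk0 hk).trans ?_
  have hk1 : k0 + 1 ≤ D := by omega
  clear h hk hk0 k
  have hD' : (120 : ℝ) ≤ D := by exact_mod_cast hD
  have hDpos : (0 : ℝ) < D := by linarith
  have hkD : (k0 : ℝ) + 1 ≤ D := by exact_mod_cast hk1
  have hx : (c : ℝ) * D < 48 * k0 := by exact_mod_cast h0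
  have hx' : 48 * (k0 : ℝ) ≤ c * D + 48 := by exact_mod_cast h0'
  have hcR : (c : ℝ) ≤ 35 := by exact_mod_cast hc
  obtain ⟨κ, hκ⟩ : ∃ κ : ℝ, κ = (c : ℝ) / 48 := ⟨_, rfl⟩
  have hκk : κ * D ≤ k0 := by
    rw [hκ]
    linarith
  have hκ35 : κ ≤ 35 / 48 := by
    rw [hκ]
    linarith
  have hκ0 : 0 ≤ κ := by
    rw [hκ]
    positivity
  by_cases hc0 : c = 0
  · subst hc0
    have e : (rcQ 0 : ℝ) = 1 := by simp [rcQ, rcF]
    rw [e]
    exact Rd_le_one _ _
  by_cases hc15 : c ≤ 15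
  · have e : (rcQ c : ℝ) = 1 - 2 * κ + 1 / 120 := by
      rw [hκ]
      unfold rcQ rcF
      rw [if_neg hc0, if_pos hc15]
      push_cast
      ring
    rw [e]
    have h3 : 3 * k0 ≤ D + 2 := by
      have : c * D ≤ 15 * D := Nat.mul_le_mul_right D hc15
      omega
    have hh := N20_harm D k0 (D + k0) hk1 (by omega) (by omega)
    refine hh.trans ?_
    have e2 : ((D + k0 : ℕ) : ℝ) + D - k0 = 2 * D := by
      push_cast
      ring
    rw [e2, div_le_iff₀ (by linarith)]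
    push_cast
    nlinarith
  by_cases hc23 : c ≤ 23
  · have hc16 : 16 ≤ c := by omega
    have hc16R : (16 : ℝ) ≤ c := by exact_mod_cast hc16
    have hc23R : (c : ℝ) ≤ 23 := by exact_mod_cast hc23
    have hκ1 : 16 / 48 ≤ κ := by
      rw [hκ]
      linarith
    have hκ2 : κ ≤ 23 / 48 := by
      rw [hκ]
      linarith
    have e : (rcQ c : ℝ) = (((1 - κ) + 1 / 120) / (1 + 3 * κ - 1 / 120)) *
        ((3 - 5 * κ + 2 * (1 / 120)) / (1 + κ)) := by
      rw [div_mul_div_comm, hκ]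
      unfold rcQ rcF
      rw [if_neg hc0, if_neg hc15, if_pos hc23]
      push_cast
      ring
    rw [e]
    have l1 : 16 * D ≤ c * D := Nat.mul_le_mul_right D hc16
    have l2 : c * D ≤ 23 * D := Nat.mul_le_mul_right D hc23
    refine (N20_c1 D k0 hD hk1 (by omega)).trans ?_
    have hh := N20_harm D k0 (2 * k0) hk1 (by omega) (by omega)
    have q1 : ((D : ℝ) - k0 + 1) / ((D : ℝ) + 3 * k0 - 1) ≤
        ((1 - κ) + 1 / 120) / (1 + 3 * κ - 1 / 120) :=
      N20_div hDpos (by nlinarith) (by nlinarith) (by linarith) (by linarith)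
    have q2 : Rd (D - k0) (2 * k0) ≤ (3 - 5 * κ + 2 * (1 / 120)) / (1 + κ) := by
      refine hh.trans ?_
      apply N20_div hDpos _ _ (by linarith) (by linarith)
      · push_cast
        nlinarith
      · push_cast
        nlinarith
    have p0 : 0 ≤ ((1 - κ) + 1 / 120) / (1 + 3 * κ - 1 / 120) :=
      div_nonneg (by linarith) (by linarith)
    exact mul_le_mul q1 q2 (Rd_nonneg _ _) p0
  by_cases hc28 : c ≤ 28
  · have hc24 : 24 ≤ c := by omega
    have hc24R : (24 : ℝ) ≤ c := by exact_mod_cast hc24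
    have hc28R : (c : ℝ) ≤ 28 := by exact_mod_cast hc28
    have hκ1 : 24 / 48 ≤ κ := by
      rw [hκ]
      linarith
    have hκ2 : κ ≤ 28 / 48 := by
      rw [hκ]
      linarith
    have e : (rcQ c : ℝ) = (((1 - κ) + 1 / 120) / (1 + 3 * κ - 1 / 120)) *
        ((((1 - κ) + 1 / 120) / (5 * κ - 1 - 1 / 120)) * ((2 - 3 * κ + 1 / 120) / κ)) := by
      rw [div_mul_div_comm, div_mul_div_comm, hκ]
      unfold rcQ rcF
      rw [if_neg hc0, if_neg hc15, if_neg hc23, if_pos hc28]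
      push_cast
      ring
    rw [e]
    have l1 : 24 * D ≤ c * D := Nat.mul_le_mul_right D hc24
    have l2 : c * D ≤ 28 * D := Nat.mul_le_mul_right D hc28
    have q1 : ((D : ℝ) - k0 + 1) / ((D : ℝ) + 3 * k0 - 1) ≤
        ((1 - κ) + 1 / 120) / (1 + 3 * κ - 1 / 120) :=
      N20_div hDpos (by nlinarith) (by nlinarith) (by linarith) (by linarith)
    have q2 : ((D : ℝ) - k0 + 1) / (5 * (k0 : ℝ) - 1 - D) ≤
        ((1 - κ) + 1 / 120) / (5 * κ - 1 - 1 / 120) :=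
      N20_div hDpos (by nlinarith) (by nlinarith) (by linarith) (by linarith)
    have hh := N20_harm D k0 (3 * k0 - D) hk1 (by omega) (by omega)
    have q3 : Rd (D - k0) (3 * k0 - D) ≤ (2 - 3 * κ + 1 / 120) / κ := by
      refine hh.trans ?_
      rw [Nat.cast_sub (by omega)]
      have e4 : (3 * (D : ℝ) - 3 * k0 + 2 - (((3 * k0 : ℕ) : ℝ) - D)) /
          ((((3 * k0 : ℕ) : ℝ) - D) + D - k0) = (2 * (D : ℝ) - 3 * k0 + 1) / k0 := by
        have hk0pos : (0 : ℝ) < k0 := by nlinarith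
        rw [div_eq_div_iff (by push_cast; nlinarith) hk0pos.ne']
        push_cast
        ring
      rw [e4]
      exact N20_div hDpos (by nlinarith) (by linarith) (by linarith) (by linarith)
    have p0 : 0 ≤ ((1 - κ) + 1 / 120) / (1 + 3 * κ - 1 / 120) :=
      div_nonneg (by linarith) (by linarith)
    have p1 : 0 ≤ ((1 - κ) + 1 / 120) / (5 * κ - 1 - 1 / 120) :=
      div_nonneg (by linarith) (by linarith)
    have hk5 : 0 ≤ ((D : ℝ) - k0 + 1) / (5 * (k0 : ℝ) - 1 - D) :=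
      div_nonneg (by linarith) (by nlinarith)
    refine (N20_c1 D k0 hD hk1 (by omega)).trans ?_
    refine mul_le_mul q1 ?_ (Rd_nonneg _ _) p0
    refine (N20_c2 D k0 hD hk1 (by omega)).trans ?_
    exact mul_le_mul q2 q3 (Rd_nonneg _ _) p1
  have hc29 : 29 ≤ c := by omega
  have hc29R : (29 : ℝ) ≤ c := by exact_mod_cast hc29
  have hκ1 : 29 / 48 ≤ κ := by
    rw [hκ]
    linarith
  have l1 : 29 * D ≤ c * D := Nat.mul_le_mul_right D hc29
  have q1 : ((D : ℝ) - k0 + 1) / ((D : ℝ) + 3 * k0 - 1) ≤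
      ((1 - κ) + 1 / 120) / (4 - 3 * (1 - κ) - 1 / 120) :=
    N20_div hDpos (by nlinarith) (by nlinarith) (by linarith) (by linarith)
  have q2 : ((D : ℝ) - k0 + 1) / (5 * (k0 : ℝ) - 1 - D) ≤
      ((1 - κ) + 1 / 120) / (4 - 5 * (1 - κ) - 1 / 120) :=
    N20_div hDpos (by nlinarith) (by nlinarith) (by linarith) (by linarith)
  have q3 : ((D : ℝ) - k0 + 1) / (7 * (k0 : ℝ) - 1 - 3 * D) ≤
      ((1 - κ) + 1 / 120) / (4 - 7 * (1 - κ) - 1 / 120) :=
    N20_div hDpos (by nlinarith) (by nlinarith) (by linarith) (by linarith)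
  have p1 : 0 ≤ ((1 - κ) + 1 / 120) / (4 - 3 * (1 - κ) - 1 / 120) :=
    div_nonneg (by linarith) (by linarith)
  have p2 : 0 ≤ ((1 - κ) + 1 / 120) / (4 - 5 * (1 - κ) - 1 / 120) :=
    div_nonneg (by linarith) (by linarith)
  have p3 : 0 ≤ ((1 - κ) + 1 / 120) / (4 - 7 * (1 - κ) - 1 / 120) :=
    div_nonneg (by linarith) (by linarith)
  have r1 : 0 ≤ ((D : ℝ) - k0 + 1) / ((D : ℝ) + 3 * k0 - 1) :=
    div_nonneg (by linarith) (by nlinarith)
  have r2 : 0 ≤ ((D : ℝ) - k0 + 1) / (5 * (k0 : ℝ) - 1 - D) :=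
    div_nonneg (by linarith) (by nlinarith)
  have r3 : 0 ≤ ((D : ℝ) - k0 + 1) / (7 * (k0 : ℝ) - 1 - 3 * D) :=
    div_nonneg (by linarith) (by nlinarith)
  by_cases hc31 : c ≤ 31
  · have e : (rcQ c : ℝ) = (((1 - κ) + 1 / 120) / (4 - 3 * (1 - κ) - 1 / 120)) *
        ((((1 - κ) + 1 / 120) / (4 - 5 * (1 - κ) - 1 / 120)) *
          ((((1 - κ) + 1 / 120) / (4 - 7 * (1 - κ) - 1 / 120)) * 1)) := by
      rw [mul_one, div_mul_div_comm, div_mul_div_comm, hκ]
      unfold rcQ rcF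
      rw [if_neg hc0, if_neg hc15, if_neg hc23, if_neg hc28, if_pos hc31]
      push_cast
      ring
    rw [e]
    refine (N20_three D k0 hD hk1 (by omega)).trans ?_
    refine mul_le_mul q1 ?_ (mul_nonneg r2 (mul_nonneg r3 (Rd_nonneg _ _))) p1
    refine mul_le_mul q2 ?_ (mul_nonneg r3 (Rd_nonneg _ _)) p2
    exact mul_le_mul q3 (Rd_le_one _ _) (Rd_nonneg _ _) p3
  · have hc32 : 32 ≤ c := by omega
    have hc32R : (32 : ℝ) ≤ c := by exact_mod_cast hc32
    have hκ3 : 32 / 48 ≤ κ := by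
      rw [hκ]
      linarith
    have l3 : 32 * D ≤ c * D := Nat.mul_le_mul_right D hc32
    have e : (rcQ c : ℝ) = (((1 - κ) + 1 / 120) / (4 - 3 * (1 - κ) - 1 / 120)) *
        ((((1 - κ) + 1 / 120) / (4 - 5 * (1 - κ) - 1 / 120)) *
          ((((1 - κ) + 1 / 120) / (4 - 7 * (1 - κ) - 1 / 120)) *
            (((1 - κ) + 1 / 120) / (4 - 9 * (1 - κ) - 1 / 120)))) := by
      rw [div_mul_div_comm, div_mul_div_comm, div_mul_div_comm, hκ]
      unfold rcQ rcF
      rw [if_neg hc0, if_neg hc15, if_neg hc23, if_neg hc28, if_neg hc31]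
      push_cast
      ring
    rw [e]
    have q4 : ((D : ℝ) - k0 + 1) / (9 * (k0 : ℝ) - 1 - 5 * D) ≤
        ((1 - κ) + 1 / 120) / (4 - 9 * (1 - κ) - 1 / 120) :=
      N20_div hDpos (by nlinarith) (by nlinarith) (by linarith) (by linarith)
    have r4 : 0 ≤ ((D : ℝ) - k0 + 1) / (9 * (k0 : ℝ) - 1 - 5 * D) :=
      div_nonneg (by linarith) (by nlinarith)
    refine (N20_four D k0 hD hk1 (by omega)).trans ?_
    refine mul_le_mul q1 ?_ (mul_nonneg r2 (mul_nonneg r3 r4)) p1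
    refine mul_le_mul q2 ?_ (mul_nonneg r3 r4) p2
    exact mul_le_mul q3 q4 r4 p3

theorem Rd_tail (D k : ℕ) (hD : 120 ≤ D) (hk : k + 1 ≤ D) (h : 3 * D < 4 * k) :
    Rd (D - k) (D + k) ≤ (((D : ℝ) - k + 1) / D) ^ 4 / 34 := by
  have hD' : (120 : ℝ) ≤ D := by exact_mod_cast hD
  have hDpos : (0 : ℝ) < D := by linarith
  have hkD : (k : ℝ) + 1 ≤ D := by exact_mod_cast hk
  have h4 : 3 * (D : ℝ) + 1 ≤ 4 * k := by exact_mod_cast h
  refine (N20_four D k hD hk (by omega)).trans ?_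
  have hnum : 0 ≤ (D : ℝ) - k + 1 := by linarith
  obtain ⟨x, hx⟩ : ∃ x : ℝ, x = ((D : ℝ) - k + 1) / D := ⟨_, rfl⟩
  have hx0 : 0 ≤ x := by
    rw [hx]
    exact div_nonneg hnum hDpos.le
  have hxD : x * D = (D : ℝ) - k + 1 := by
    rw [hx]
    exact div_mul_cancel₀ _ hDpos.ne'
  have q1 : ((D : ℝ) - k + 1) / ((D : ℝ) + 3 * k - 1) ≤ x / (324 / 100) :=
    N20_div hDpos hxD.ge (by linarith) (by norm_num) hx0
  have q2 : ((D : ℝ) - k + 1) / (5 * (k : ℝ) - 1 - D) ≤ x / (275 / 100) :=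
    N20_div hDpos hxD.ge (by linarith) (by norm_num) hx0
  have q3 : ((D : ℝ) - k + 1) / (7 * (k : ℝ) - 1 - 3 * D) ≤ x / (225 / 100) :=
    N20_div hDpos hxD.ge (by linarith) (by norm_num) hx0
  have q4 : ((D : ℝ) - k + 1) / (9 * (k : ℝ) - 1 - 5 * D) ≤ x / (175 / 100) :=
    N20_div hDpos hxD.ge (by linarith) (by norm_num) hx0
  have r2 : 0 ≤ ((D : ℝ) - k + 1) / (5 * (k : ℝ) - 1 - D) := div_nonneg hnum (by linarith)
  have r3 : 0 ≤ ((D : ℝ) - k + 1) / (7 * (k : ℝ) - 1 - 3 * D) := div_nonneg hnum (by linarith)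
  have r4 : 0 ≤ ((D : ℝ) - k + 1) / (9 * (k : ℝ) - 1 - 5 * D) := div_nonneg hnum (by linarith)
  have key : ((D : ℝ) - k + 1) / ((D : ℝ) + 3 * k - 1) *
      (((D : ℝ) - k + 1) / (5 * (k : ℝ) - 1 - D) *
        (((D : ℝ) - k + 1) / (7 * (k : ℝ) - 1 - 3 * D) *
          (((D : ℝ) - k + 1) / (9 * (k : ℝ) - 1 - 5 * D)))) ≤
      x / (324 / 100) * (x / (275 / 100) * (x / (225 / 100) * (x / (175 / 100)))) := by
    refine mul_le_mul q1 ?_ (mul_nonneg r2 (mul_nonneg r3 r4)) (by positivity)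
    refine mul_le_mul q2 ?_ (mul_nonneg r3 r4) (by positivity)
    exact mul_le_mul q3 q4 r4 (by positivity)
  refine key.trans ?_
  rw [← hx]
  have hx4 : 0 ≤ x ^ 4 := by positivity
  have e : x / (324 / 100) * (x / (275 / 100) * (x / (225 / 100) * (x / (175 / 100)))) =
      x ^ 4 * (100 ^ 4 / (324 * 275 * 225 * 175)) := by ring
  rw [e]
  have e2 : x ^ 4 / 34 = x ^ 4 * (1 / 34) := by ring
  rw [e2]
  exact mul_le_mul_of_nonneg_left (by norm_num) hx4

theorem rcQ_anti : ∀ c < 35, rcQ (c + 1) ≤ rcQ c := by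
  intro c hc
  unfold rcQ rcF
  interval_cases c <;> norm_num

theorem rcQ_nonneg : 0 ≤ rcQ 35 := by
  unfold rcQ rcF
  norm_num

end Pool.ADM
end
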