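import Pool.Agent.Lib.MP_ad84ff_co.Nu4
import Pool.Agent.Lib.MP_ad84ff_coM.N12f
import Pool.Agent.Lib.MP_ad84ff_coM.N20

section

/-!
# Kernel computation of the total size of the top level
-/

set_option autoImplicit false
set_option maxRecDepth 100000

namespace Pool.Agent.Lib.MP_ad84ff_co

/-- Total size of the packets of the top level. -/
noncomputable def topSz (s : St) : ℕ :=
  List.rec 0 (fun F τ _ => List.rec F.2 (fun G _ ih =>
    bif Nat.beq G.1 F.1 then Nat.add G.2 ih else ih) τ) s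

/-- Sum of `c * topSz σ`. -/
noncomputable def BT.sumTop (t : BT) : ℕ → ℕ :=
  BT.rec (fun acc => acc)
    (fun _ _ c σ _ ihl ihr acc => fN (ihl (Nat.add (Nat.mul c (topSz σ)) acc)) ihr) t

theorem sumTop_13 : Nat.beq (BT.sumTop (distT 13) 0) 64582101934 = true := by
  decide +kernel

end Pool.Agent.Lib.MP_ad84ff_co
end

section

/-! job ADN-02: `(D + 1 + w) Dc` is nonincreasing in `w`. -/

set_option autoImplicit false

namespace Pool.ADM

open Finset

/-- the elementary inequality: `s (t+q) / (t (s+p) (s+p-1))` is nonincreasing if `s = t + k`,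
`q + k ≤ p ≤ q + k + 1` and both `s, t` increase by `1`. -/
theorem w_ineq (t k q p : ℝ) (ht : 1 ≤ t) (hk : 0 ≤ k) (hq : 0 ≤ q) (hp : q + k ≤ p)
    (hp' : p ≤ q + k + 1) :
    (t + k + 1) * (t + 1 + q) * t * (t + k + p - 1) ≤
      (t + k) * (t + q) * (t + 1) * (t + k + p + 1) := by
  obtain ⟨θ, rfl⟩ : ∃ θ, p = q + k + θ := ⟨p - q - k, by ring⟩
  have h0 : 0 ≤ θ := by linarith
  have h1 : 0 ≤ 1 - θ := by linarith
  have ht0 : 0 ≤ t := by linarith
  have hA : 0 ≤ (1 - θ) * (t ^ 3 + (q + 2) * t ^ 2 + (3 * k * q + q + 1) * t +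
      (2 * k ^ 2 * q + k * q ^ 2 + k * q)) := by positivity
  have hB : 0 ≤ θ * (t ^ 3 + (q + 1) * t ^ 2 + (3 * k * q + q) * t +
      (2 * k ^ 2 * q + k * q ^ 2 + 2 * k * q)) := by positivity
  have key : (t + k) * (t + q) * (t + 1) * (t + k + (q + k + θ) + 1) -
      (t + k + 1) * (t + 1 + q) * t * (t + k + (q + k + θ) - 1) =
      (1 - θ) * (t ^ 3 + (q + 2) * t ^ 2 + (3 * k * q + q + 1) * t +
      (2 * k ^ 2 * q + k * q ^ 2 + k * q)) +
      θ * (t ^ 3 + (q + 1) * t ^ 2 + (3 * k * q + q) * t +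
      (2 * k ^ 2 * q + k * q ^ 2 + 2 * k * q)) := by ring
  linarith

private theorem N02_q (t k q p : ℝ) (ht : 1 ≤ t) (hk : 0 ≤ k) (hq : 0 ≤ q) (hp : q + k ≤ p)
    (hp' : p ≤ q + k + 1) (h1 : 1 < t + k + p) :
    (t + k + 1) * (t + 1 + q) / ((t + 1) * (t + k + p + 1) * (t + k + p)) ≤
      (t + k) * (t + q) / (t * (t + k + p) * (t + k + p - 1)) := by
  have h := w_ineq t k q p ht hk hq hp hp'
  have hm : 0 < t + k + p := by linarith
  have hm1 : 0 < t + k + p - 1 := by linarith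
  rw [div_le_div_iff₀ (by positivity) (by positivity)]
  have h2 := mul_le_mul_of_nonneg_right h hm.le
  nlinarith [h2]

private theorem N02_dev (a M j : ℕ) : dev a (M + 1) j ≤ dev a M j := by
  unfold dev
  split_ifs with h
  · exact le_rfl
  · apply mul_le_mul_of_nonneg_right
    · apply max_le_max _ le_rfl
      apply max_le_max _ le_rfl
      push_cast
      linarith
    · unfold fi; positivity

private theorem N02_dev0 (a M j : ℕ) : 0 ≤ dev a M j := by
  unfold dev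
  split_ifs with h
  · exact le_rfl
  · apply mul_nonneg (le_max_right _ _)
    unfold fi; positivity

private theorem N02_P2 (D e : ℕ) (he : 1 ≤ e) : 0 ≤ P2 D e := by
  have h1 : (1 : ℝ) ≤ e := by exact_mod_cast he
  have h2 : 0 < 2 * (e : ℝ) - 1 := by linarith
  unfold P2
  split_ifs <;> positivity

private theorem N02_abel (ψ R : ℕ → ℝ) (n : ℕ) (h0 : ψ 0 = 0) (hψ : ∀ k ≤ n, 0 ≤ ψ k)
    (hR : ∀ k, 1 ≤ k → k < n → R (k + 1) ≤ R k) :
    ψ n * R n ≤ ∑ k ∈ Icc 1 n, (ψ k - ψ (k - 1)) * R k := by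
  induction n with
  | zero => simp [h0]
  | succ n ih =>
    rw [Finset.sum_Icc_succ_top (by omega)]
    have h1 := ih (fun k hk => hψ k (by omega)) (fun k hk hk' => hR k hk (by omega))
    have h2 := hψ n (by omega)
    rw [Nat.add_sub_cancel]
    rcases Nat.eq_zero_or_pos n with hn | hn
    · subst hn
      simp [h0]
    · have h3 := hR n hn (by omega)
      nlinarith [mul_le_mul_of_nonneg_left h3 h2]

/-- first factor, even -/
private theorem N02_ev (D w x j k : ℕ) (hk : 1 ≤ k) (hkD : k + 2 ≤ D) :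
    0 ≤ Gev D w x j k ∧
    ((D : ℝ) + 2 + w) * Gev D (w + 1) x j k / (2 * (D : ℝ) - 1 + w + x) ≤
      ((D : ℝ) + 1 + w) * Gev D w x j k / (2 * (D : ℝ) - 2 + w + x) := by
  have hD : (k : ℝ) + 2 ≤ D := by exact_mod_cast hkD
  have hk1 : (1 : ℝ) ≤ k := by exact_mod_cast hk
  have hw : (0 : ℝ) ≤ w := Nat.cast_nonneg w
  have hx : (0 : ℝ) ≤ x := Nat.cast_nonneg x
  have hd := N02_dev0 (D + k) (2 * D - 1 + w) j
  have hd' := N02_dev0 (D + k) (2 * D - 1 + (w + 1)) j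
  have hdd : dev (D + k) (2 * D - 1 + (w + 1)) j ≤ dev (D + k) (2 * D - 1 + w) j :=
    N02_dev (D + k) (2 * D - 1 + w) j
  have hm : 0 < 2 * (D : ℝ) - 1 + w + x := by linarith
  have hm1 : 0 < 2 * (D : ℝ) - 2 + w + x := by linarith
  have hmp : 0 < 2 * (D : ℝ) - 1 + (w + 1) + x := by linarith
  have hmk : 0 < (2 * (D : ℝ) - 1 + w + x) - 2 * k := by linarith
  have ht : 0 < (D : ℝ) - k + 1 + w := by linarith
  have htp : 0 < (D : ℝ) - k + 1 + (w + 1) := by linarith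
  have hW : 0 < (D : ℝ) + 1 + w := by linarith
  refine ⟨?_, ?_⟩
  · unfold Gev
    positivity
  have hq := N02_q ((D : ℝ) - k + 1 + w) k ((D : ℝ) - k - 2 + x) ((D : ℝ) - 2 + x)
    (by linarith) (by linarith) (by linarith) (by linarith) (by linarith) (by linarith)
  unfold Gev
  push_cast
  have e1 : ((D : ℝ) + 2 + w) * (dev (D + k) (2 * D - 1 + (w + 1)) j *
      ((2 * (D : ℝ) - 1 + (w + 1) + x) - 2 * k) / (2 * (D : ℝ) - 1 + (w + 1) + x) /
      ((D : ℝ) - k + 1 + (w + 1))) / (2 * (D : ℝ) - 1 + w + x) =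
      dev (D + k) (2 * D - 1 + (w + 1)) j *
      (((D : ℝ) - k + 1 + w + k + 1) * ((D : ℝ) - k + 1 + w + 1 + ((D : ℝ) - k - 2 + x)) /
      (((D : ℝ) - k + 1 + w + 1) * ((D : ℝ) - k + 1 + w + k + ((D : ℝ) - 2 + x) + 1) *
        ((D : ℝ) - k + 1 + w + k + ((D : ℝ) - 2 + x)))) := by
    have e : (D : ℝ) - k + 1 + w + k + ((D : ℝ) - 2 + x) = 2 * (D : ℝ) - 1 + w + x := by ring
    rw [e]
    have e' : 2 * (D : ℝ) - 1 + w + x + 1 = 2 * (D : ℝ) - 1 + (w + 1) + x := by ring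
    rw [e']
    have e'' : (D : ℝ) - k + 1 + w + 1 = (D : ℝ) - k + 1 + (w + 1) := by ring
    rw [e'']
    field_simp
    ring
  have e2 : ((D : ℝ) + 1 + w) * (dev (D + k) (2 * D - 1 + w) j *
      ((2 * (D : ℝ) - 1 + w + x) - 2 * k) / (2 * (D : ℝ) - 1 + w + x) /
      ((D : ℝ) - k + 1 + w)) / (2 * (D : ℝ) - 2 + w + x) =
      dev (D + k) (2 * D - 1 + w) j *
      (((D : ℝ) - k + 1 + w + k) * ((D : ℝ) - k + 1 + w + ((D : ℝ) - k - 2 + x)) /
      (((D : ℝ) - k + 1 + w) * ((D : ℝ) - k + 1 + w + k + ((D : ℝ) - 2 + x)) *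
        ((D : ℝ) - k + 1 + w + k + ((D : ℝ) - 2 + x) - 1))) := by
    have e : (D : ℝ) - k + 1 + w + k + ((D : ℝ) - 2 + x) = 2 * (D : ℝ) - 1 + w + x := by ring
    rw [e]
    have e' : 2 * (D : ℝ) - 1 + w + x - 1 = 2 * (D : ℝ) - 2 + w + x := by ring
    rw [e']
    field_simp
    ring
  rw [e1, e2]
  refine mul_le_mul hdd hq ?_ hd
  have e : (D : ℝ) - k + 1 + w + k + ((D : ℝ) - 2 + x) = 2 * (D : ℝ) - 1 + w + x := by ring
  rw [e]
  have h1 : 0 < (D : ℝ) - k + 1 + w + 1 + ((D : ℝ) - k - 2 + x) := by linarith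
  have h2 : 0 < (D : ℝ) - k + 1 + w + k + 1 := by linarith
  positivity

/-- first factor, odd -/
private theorem N02_od (D w x j k : ℕ) (hk : 1 ≤ k) (hkD : k + 2 ≤ D) :
    0 ≤ God D w x j k ∧
    ((D : ℝ) + 2 + w) * God D (w + 1) x j k / (2 * (D : ℝ) + w + x) ≤
      ((D : ℝ) + 1 + w) * God D w x j k / (2 * (D : ℝ) - 1 + w + x) := by
  have hD : (k : ℝ) + 2 ≤ D := by exact_mod_cast hkD
  have hk1 : (1 : ℝ) ≤ k := by exact_mod_cast hk
  have hw : (0 : ℝ) ≤ w := Nat.cast_nonneg w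
  have hx : (0 : ℝ) ≤ x := Nat.cast_nonneg x
  have hd := N02_dev0 (D + k + 1) (2 * D + w) (j - 1)
  have hd' := N02_dev0 (D + k + 1) (2 * D + (w + 1)) (j - 1)
  have hdd : dev (D + k + 1) (2 * D + (w + 1)) (j - 1) ≤ dev (D + k + 1) (2 * D + w) (j - 1) :=
    N02_dev (D + k + 1) (2 * D + w) (j - 1)
  have hm : 0 < 2 * (D : ℝ) + w + x := by linarith
  have hm1 : 0 < 2 * (D : ℝ) - 1 + w + x := by linarith
  have hmp : 0 < 2 * (D : ℝ) + (w + 1) + x := by linarith
  have hmk : 0 < (2 * (D : ℝ) - 1 + w + x) - 2 * k := by linarith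
  have ht : 0 < (D : ℝ) - k + 1 + w := by linarith
  have htp : 0 < (D : ℝ) - k + 1 + (w + 1) := by linarith
  have hW : 0 < (D : ℝ) + 1 + w := by linarith
  refine ⟨?_, ?_⟩
  · unfold God
    positivity
  have hq := N02_q ((D : ℝ) - k + 1 + w) k ((D : ℝ) - k - 2 + x) ((D : ℝ) - 1 + x)
    (by linarith) (by linarith) (by linarith) (by linarith) (by linarith) (by linarith)
  unfold God
  push_cast
  have e1 : ((D : ℝ) + 2 + w) * (dev (D + k + 1) (2 * D + (w + 1)) (j - 1) *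
      ((2 * (D : ℝ) - 1 + (w + 1) + x) - 2 * k) / (2 * (D : ℝ) + (w + 1) + x) /
      ((D : ℝ) - k + 1 + (w + 1))) / (2 * (D : ℝ) + w + x) =
      dev (D + k + 1) (2 * D + (w + 1)) (j - 1) *
      (((D : ℝ) - k + 1 + w + k + 1) * ((D : ℝ) - k + 1 + w + 1 + ((D : ℝ) - k - 2 + x)) /
      (((D : ℝ) - k + 1 + w + 1) * ((D : ℝ) - k + 1 + w + k + ((D : ℝ) - 1 + x) + 1) *
        ((D : ℝ) - k + 1 + w + k + ((D : ℝ) - 1 + x)))) := by
    have e : (D : ℝ) - k + 1 + w + k + ((D : ℝ) - 1 + x) = 2 * (D : ℝ) + w + x := by ring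
    rw [e]
    have e' : 2 * (D : ℝ) + w + x + 1 = 2 * (D : ℝ) + (w + 1) + x := by ring
    rw [e']
    have e'' : (D : ℝ) - k + 1 + w + 1 = (D : ℝ) - k + 1 + (w + 1) := by ring
    rw [e'']
    field_simp
    ring
  have e2 : ((D : ℝ) + 1 + w) * (dev (D + k + 1) (2 * D + w) (j - 1) *
      ((2 * (D : ℝ) - 1 + w + x) - 2 * k) / (2 * (D : ℝ) + w + x) /
      ((D : ℝ) - k + 1 + w)) / (2 * (D : ℝ) - 1 + w + x) =
      dev (D + k + 1) (2 * D + w) (j - 1) *
      (((D : ℝ) - k + 1 + w + k) * ((D : ℝ) - k + 1 + w + ((D : ℝ) - k - 2 + x)) /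
      (((D : ℝ) - k + 1 + w) * ((D : ℝ) - k + 1 + w + k + ((D : ℝ) - 1 + x)) *
        ((D : ℝ) - k + 1 + w + k + ((D : ℝ) - 1 + x) - 1))) := by
    have e : (D : ℝ) - k + 1 + w + k + ((D : ℝ) - 1 + x) = 2 * (D : ℝ) + w + x := by ring
    rw [e]
    have e' : 2 * (D : ℝ) + w + x - 1 = 2 * (D : ℝ) - 1 + w + x := by ring
    rw [e']
    field_simp
    ring
  rw [e1, e2]
  refine mul_le_mul hdd hq ?_ hd
  have e : (D : ℝ) - k + 1 + w + k + ((D : ℝ) - 1 + x) = 2 * (D : ℝ) + w + x := by ring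
  rw [e]
  have h1 : 0 < (D : ℝ) - k + 1 + w + 1 + ((D : ℝ) - k - 2 + x) := by linarith
  have h2 : 0 < (D : ℝ) - k + 1 + w + k + 1 := by linarith
  positivity

private theorem N02_Ps (D w x k : ℕ) :
    Ps (D + k + 1) (2 * D + w + x) =
      ((D : ℝ) + k) * ((D : ℝ) + k - 1) / (((D : ℝ) - k + w + x) * (2 * (D : ℝ) - 1 + w + x)) := by
  unfold Ps
  push_cast
  congr 1 <;> ring

private theorem N02_evP (D w x j k k' : ℕ) (hk' : 1 ≤ k') (hkk : k' ≤ k) (hkD : k + 2 ≤ D) :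
    ((D : ℝ) + 2 + w) * Gev D (w + 1) x j k' * Ps (D + k + 1) (2 * D + (w + 1) + x) ≤
      ((D : ℝ) + 1 + w) * Gev D w x j k' * Ps (D + k + 1) (2 * D + w + x) := by
  obtain ⟨g0, h⟩ := N02_ev D w x j k' hk' (by omega)
  have g0' := (N02_ev D (w + 1) x j k' hk' (by omega)).1
  have hD : (k : ℝ) + 2 ≤ D := by exact_mod_cast hkD
  have hk1 : (1 : ℝ) ≤ k := by exact_mod_cast (by omega : 1 ≤ k)
  have hw : (0 : ℝ) ≤ w := Nat.cast_nonneg w
  have hx : (0 : ℝ) ≤ x := Nat.cast_nonneg x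
  rw [N02_Ps, N02_Ps]
  push_cast
  have hm : 0 < 2 * (D : ℝ) - 1 + w + x := by linarith
  have hm1 : 0 < 2 * (D : ℝ) - 2 + w + x := by linarith
  have hmp : 0 < 2 * (D : ℝ) - 1 + (w + 1) + x := by linarith
  have hc : 0 < (D : ℝ) - k + w + x := by linarith
  have hcp : 0 < (D : ℝ) - k + (w + 1) + x := by linarith
  have hDk : 0 < (D : ℝ) + k - 1 := by linarith
  have hW : 0 < (D : ℝ) + 1 + w := by linarith
  have hB : (2 * (D : ℝ) - 1 + w + x) /
      (((D : ℝ) - k + (w + 1) + x) * (2 * (D : ℝ) - 1 + (w + 1) + x)) ≤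
      (2 * (D : ℝ) - 2 + w + x) / (((D : ℝ) - k + w + x) * (2 * (D : ℝ) - 1 + w + x)) := by
    rw [div_le_div_iff₀ (by positivity) (by positivity)]
    obtain ⟨m, hm'⟩ : ∃ m, m = 2 * (D : ℝ) - 1 + w + x := ⟨_, rfl⟩
    obtain ⟨c, hc'⟩ : ∃ c, c = (D : ℝ) - k + w + x := ⟨_, rfl⟩
    have e1 : (D : ℝ) - k + (w + 1) + x = c + 1 := by rw [hc']; ring
    have e2 : 2 * (D : ℝ) - 1 + (w + 1) + x = m + 1 := by rw [hm']; ring
    have e3 : 2 * (D : ℝ) - 2 + w + x = m - 1 := by rw [hm']; ring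
    rw [e1, e2, e3, ← hm', ← hc']
    have h1 : c + 1 ≤ m := by rw [hm', hc']; linarith
    have h2 : 1 ≤ m := by rw [hm']; linarith
    nlinarith
  calc ((D : ℝ) + 2 + w) * Gev D (w + 1) x j k' * (((D : ℝ) + k) * ((D : ℝ) + k - 1) /
        (((D : ℝ) - k + (w + 1) + x) * (2 * (D : ℝ) - 1 + (w + 1) + x)))
      = ((D : ℝ) + k) * ((D : ℝ) + k - 1) *
          ((((D : ℝ) + 2 + w) * Gev D (w + 1) x j k' / (2 * (D : ℝ) - 1 + w + x)) *
          ((2 * (D : ℝ) - 1 + w + x) /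
            (((D : ℝ) - k + (w + 1) + x) * (2 * (D : ℝ) - 1 + (w + 1) + x)))) := by
        rw [div_mul_div_cancel₀ hm.ne']
        ring
    _ ≤ ((D : ℝ) + k) * ((D : ℝ) + k - 1) *
          ((((D : ℝ) + 1 + w) * Gev D w x j k' / (2 * (D : ℝ) - 2 + w + x)) *
          ((2 * (D : ℝ) - 2 + w + x) / (((D : ℝ) - k + w + x) * (2 * (D : ℝ) - 1 + w + x)))) := by
        apply mul_le_mul_of_nonneg_left _ (by positivity)
        exact mul_le_mul h hB (by positivity) (by positivity)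
    _ = _ := by
        rw [div_mul_div_cancel₀ hm1.ne']
        ring

private theorem N02_odP (D w x j k k' : ℕ) (hk' : 1 ≤ k') (hkk : k' ≤ k) (hkD : k + 2 ≤ D) :
    ((D : ℝ) + 2 + w) * God D (w + 1) x j k' * Ps (D + k + 1) (2 * D + (w + 1) + x) ≤
      ((D : ℝ) + 1 + w) * God D w x j k' * Ps (D + k + 1) (2 * D + w + x) := by
  obtain ⟨g0, h⟩ := N02_od D w x j k' hk' (by omega)
  have g0' := (N02_od D (w + 1) x j k' hk' (by omega)).1
  have hD : (k : ℝ) + 2 ≤ D := by exact_mod_cast hkD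
  have hk1 : (1 : ℝ) ≤ k := by exact_mod_cast (by omega : 1 ≤ k)
  have hw : (0 : ℝ) ≤ w := Nat.cast_nonneg w
  have hx : (0 : ℝ) ≤ x := Nat.cast_nonneg x
  rw [N02_Ps, N02_Ps]
  push_cast
  have hm : 0 < 2 * (D : ℝ) - 1 + w + x := by linarith
  have hm1 : 0 < 2 * (D : ℝ) + w + x := by linarith
  have hmp : 0 < 2 * (D : ℝ) - 1 + (w + 1) + x := by linarith
  have hc : 0 < (D : ℝ) - k + w + x := by linarith
  have hcp : 0 < (D : ℝ) - k + (w + 1) + x := by linarith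
  have hDk : 0 < (D : ℝ) + k - 1 := by linarith
  have hW : 0 < (D : ℝ) + 1 + w := by linarith
  have hB : 1 / ((D : ℝ) - k + (w + 1) + x) ≤ 1 / ((D : ℝ) - k + w + x) :=
    one_div_le_one_div_of_le hc (by linarith)
  have e : 2 * (D : ℝ) - 1 + (w + 1) + x = 2 * (D : ℝ) + w + x := by ring
  calc ((D : ℝ) + 2 + w) * God D (w + 1) x j k' * (((D : ℝ) + k) * ((D : ℝ) + k - 1) /
        (((D : ℝ) - k + (w + 1) + x) * (2 * (D : ℝ) - 1 + (w + 1) + x)))
      = ((D : ℝ) + k) * ((D : ℝ) + k - 1) *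
          ((((D : ℝ) + 2 + w) * God D (w + 1) x j k' / (2 * (D : ℝ) + w + x)) *
          (1 / ((D : ℝ) - k + (w + 1) + x))) := by
        rw [e]
        field_simp
    _ ≤ ((D : ℝ) + k) * ((D : ℝ) + k - 1) *
          ((((D : ℝ) + 1 + w) * God D w x j k' / (2 * (D : ℝ) - 1 + w + x)) *
          (1 / ((D : ℝ) - k + w + x))) := by
        apply mul_le_mul_of_nonneg_left _ (by positivity)
        exact mul_le_mul h hB (by positivity) (by positivity)
    _ = _ := by field_simp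

private theorem N02_Ps0 (D w x k : ℕ) (hkD : k + 2 ≤ D) : 0 ≤ Ps (D + k + 1) (2 * D + w + x) := by
  have hD : (k : ℝ) + 2 ≤ D := by exact_mod_cast hkD
  have hk : (0 : ℝ) ≤ k := Nat.cast_nonneg k
  have hw : (0 : ℝ) ≤ w := Nat.cast_nonneg w
  have hx : (0 : ℝ) ≤ x := Nat.cast_nonneg x
  rw [N02_Ps]
  have hm : 0 < 2 * (D : ℝ) - 1 + w + x := by linarith
  have hc : 0 < (D : ℝ) - k + w + x := by linarith
  have hDk : 0 < (D : ℝ) + k - 1 := by linarith
  positivity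

private theorem N02_Gh (D w x j k k' : ℕ) (hkk : k' ≤ k) (hkD : k + 2 ≤ D) :
    ((D : ℝ) + 2 + w) * Gh D (w + 1) x j k' * Ps (D + k + 1) (2 * D + (w + 1) + x) ≤
      ((D : ℝ) + 1 + w) * Gh D w x j k' * Ps (D + k + 1) (2 * D + w + x) := by
  have hP := N02_Ps0 D w x k hkD
  have hW : (0 : ℝ) ≤ (D : ℝ) + 1 + w := by positivity
  induction k' with
  | zero => simp [Gh]
  | succ n ih =>
    have h1 := ih (by omega)
    have h2 := N02_evP D w x j k (n + 1) (by omega) hkk hkD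
    have h3 := N02_odP D w x j k (n + 1) (by omega) hkk hkD
    have m1 : Gh D w x j n ≤ Gh D w x j (n + 1) := le_max_left _ _
    have m2 : Gev D w x j (n + 1) ≤ Gh D w x j (n + 1) :=
      (le_max_left _ _).trans (le_max_right _ _)
    have m3 : God D w x j (n + 1) ≤ Gh D w x j (n + 1) :=
      (le_max_right _ _).trans (le_max_right _ _)
    have key : ∀ y : ℝ, y ≤ Gh D w x j (n + 1) →
        ((D : ℝ) + 1 + w) * y * Ps (D + k + 1) (2 * D + w + x) ≤
        ((D : ℝ) + 1 + w) * Gh D w x j (n + 1) * Ps (D + k + 1) (2 * D + w + x) := fun y hy =>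
      mul_le_mul_of_nonneg_right (mul_le_mul_of_nonneg_left hy hW) hP
    have hc : Gh D (w + 1) x j (n + 1) = Gh D (w + 1) x j n ∨
        Gh D (w + 1) x j (n + 1) = Gev D (w + 1) x j (n + 1) ∨
        Gh D (w + 1) x j (n + 1) = God D (w + 1) x j (n + 1) := by
      have e : Gh D (w + 1) x j (n + 1) =
        max (Gh D (w + 1) x j n) (max (Gev D (w + 1) x j (n + 1)) (God D (w + 1) x j (n + 1))) := rfl
      rw [e]
      rcases max_choice (Gh D (w + 1) x j n)
        (max (Gev D (w + 1) x j (n + 1)) (God D (w + 1) x j (n + 1))) with h | h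
      · exact Or.inl h
      · rw [h]
        exact Or.inr (max_choice _ _)
    rcases hc with h | h | h
    · rw [h]; exact h1.trans (key _ m1)
    · rw [h]; exact h2.trans (key _ m2)
    · rw [h]; exact h3.trans (key _ m3)

/-- Terms `β = 2`: `w_ineq` with `t = D-k+1+w`, `q = D-k-2+x`, `s = D+1+w`, `p = D-2+x`
(`m = s + p`, `m - 2k = t + q`; for the odd ones `p = D-1+x`), `dev` is nonincreasing in `w`.  The rest: Abel summation
`∑ (φ_k - φ_{k-1}) R_k = ∑ φ_k (R_k - R_{k+1})` (`R_k = Rd (D-k) (D+k)` is nonincreasing in `k` by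
`Rd_mono`, `Rd_anti`), and `(D+1+w) φ_k` is nonincreasing in `w`: for `k' ≤ k`,
`(D+1+w) G_{k'} Ps_k = [(D+1+w)(m-2k')/((D-k'+1+w) m (m-1))] [(m-1)/(m (D-k+w+x))] const dev`
(even), `[(D+1+w)(m-2k')/((D-k'+1+w) (m+1) m)] [1/(D-k+w+x)] const dev` (odd). -/
theorem Dc_w (D w x j : ℕ) (hD : 2 ≤ D) :
    ((D : ℝ) + 2 + w) * Dc D (w + 1) x j ≤ ((D : ℝ) + 1 + w) * Dc D w x j := by
  obtain ⟨ψ, hψ⟩ : ∃ ψ : ℕ → ℝ, ψ = fun k =>
      ((D : ℝ) + 1 + w) * Gh D w x j k * Ps (D + k + 1) (2 * D + w + x) -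
      ((D : ℝ) + 2 + w) * Gh D (w + 1) x j k * Ps (D + k + 1) (2 * D + (w + 1) + x) := ⟨_, rfl⟩
  have hab := N02_abel ψ (fun k => Rd (D - k) (D + k)) (D - 2) (by simp [hψ, Gh])
    (fun k hk => by
      rw [hψ]
      have := N02_Gh D w x j k k le_rfl (by omega)
      linarith)
    (fun k _ _ => (Rd_mono _ _ _ (by omega)).trans (Rd_anti _ _ _ (by omega)))
  have h0 : 0 ≤ ψ (D - 2) * Rd (D - (D - 2)) (D + (D - 2)) := by
    apply mul_nonneg _ (Rd_nonneg _ _)
    rw [hψ]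
    have := N02_Gh D w x j (D - 2) (D - 2) le_rfl (by omega)
    linarith
  have hdiff : ((D : ℝ) + 1 + w) * Dc D w x j - ((D : ℝ) + 2 + w) * Dc D (w + 1) x j =
      ∑ k ∈ Icc 1 (D - 2),
        ((((D : ℝ) + 1 + w) * Gev D w x j k / (2 * (D : ℝ) - 2 + w + x) -
          ((D : ℝ) + 2 + w) * Gev D (w + 1) x j k / (2 * (D : ℝ) - 1 + w + x)) *
            (P2 (D - k) (2 * k) * ((D : ℝ) + k - 1)) +
        (((D : ℝ) + 1 + w) * God D w x j k / (2 * (D : ℝ) - 1 + w + x) -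
          ((D : ℝ) + 2 + w) * God D (w + 1) x j k / (2 * (D : ℝ) + w + x)) *
            (P2 (D - k) (2 * k + 1) * ((D : ℝ) + k)) +
        (ψ k - ψ (k - 1)) * Rd (D - k) (D + k)) := by
    unfold Dc
    rw [Finset.mul_sum, Finset.mul_sum, ← Finset.sum_sub_distrib]
    refine Finset.sum_congr rfl fun k hk => ?_
    rw [Finset.mem_Icc] at hk
    have e : D + (k - 1) + 1 = D + k := by omega
    rw [hψ]
    simp only [e]
    push_cast
    have e1 : 2 * (D : ℝ) - 2 + (w + 1) + x = 2 * (D : ℝ) - 1 + w + x := by ring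
    have e2 : 2 * (D : ℝ) - 1 + (w + 1) + x = 2 * (D : ℝ) + w + x := by ring
    rw [e1, e2]
    ring
  have hsum : 0 ≤ ∑ k ∈ Icc 1 (D - 2),
        ((((D : ℝ) + 1 + w) * Gev D w x j k / (2 * (D : ℝ) - 2 + w + x) -
          ((D : ℝ) + 2 + w) * Gev D (w + 1) x j k / (2 * (D : ℝ) - 1 + w + x)) *
            (P2 (D - k) (2 * k) * ((D : ℝ) + k - 1)) +
        (((D : ℝ) + 1 + w) * God D w x j k / (2 * (D : ℝ) - 1 + w + x) -
          ((D : ℝ) + 2 + w) * God D (w + 1) x j k / (2 * (D : ℝ) + w + x)) *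
            (P2 (D - k) (2 * k + 1) * ((D : ℝ) + k)) +
        (ψ k - ψ (k - 1)) * Rd (D - k) (D + k)) := by
    rw [Finset.sum_add_distrib]
    refine add_nonneg (Finset.sum_nonneg fun k hk => ?_) (h0.trans hab)
    rw [Finset.mem_Icc] at hk
    have hk1 : (1 : ℝ) ≤ k := by exact_mod_cast hk.1
    have hD2 : (2 : ℝ) ≤ D := by exact_mod_cast hD
    have h1 := (N02_ev D w x j k hk.1 (by omega)).2
    have h2 := (N02_od D w x j k hk.1 (by omega)).2
    have p1 := N02_P2 (D - k) (2 * k) (by omega)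
    have p2 := N02_P2 (D - k) (2 * k + 1) (by omega)
    refine add_nonneg (mul_nonneg (by linarith) (mul_nonneg p1 (by linarith)))
      (mul_nonneg (by linarith) (mul_nonneg p2 (by linarith)))
  linarith

end Pool.ADM
end

section

/-! job ADN-03: `(D + 1 + w) Hp` is nonincreasing in `w`. -/

set_option autoImplicit false

namespace Pool.ADM

open Finset

/-- the elementary inequality: `s (t+q) / (t (s+p) (s+p-1))` is nonincreasing if `s = t + k`,
`q + k ≤ p ≤ q + k + 1` and both `s, t` increase by `1`. -/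
theorem w_ineq' (t k q p : ℝ) (ht : 1 ≤ t) (hk : 0 ≤ k) (hq : 0 ≤ q) (hp : q + k ≤ p)
    (hp' : p ≤ q + k + 1) :
    (t + k + 1) * (t + 1 + q) * t * (t + k + p - 1) ≤
      (t + k) * (t + q) * (t + 1) * (t + k + p + 1) := by
  have ht0 : 0 < t := by linarith
  have e : (t + k) * (t + q) * (t + 1) * (t + k + p + 1) -
      (t + k + 1) * (t + 1 + q) * t * (t + k + p - 1) =
      t * (t + 1 + q) * (t + k - p + 1) + (t + k) * q * (t + k + p + 1) := by ring
  have a1 : t * (t + 1 + q) * (t - q) ≤ t * (t + 1 + q) * (t + k - p + 1) :=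
    mul_le_mul_of_nonneg_left (by linarith) (by positivity)
  have a2 : t * q * (t + q + 1) ≤ (t + k) * q * (t + k + p + 1) :=
    mul_le_mul (mul_le_mul_of_nonneg_right (by linarith) hq) (by linarith) (by positivity)
      (by positivity)
  have a3 : 0 ≤ t * t * (t + 1 + q) := by positivity
  have a4 : t * (t + 1 + q) * (t - q) + t * q * (t + q + 1) = t * t * (t + 1 + q) := by ring
  linarith

private theorem N03_rho_pos (a b : ℕ) : 0 < rho a b := by
  unfold rho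
  positivity

private theorem N03_rho_mono (a b : ℕ) : rho a b ≤ rho a (b + 1) := by
  unfold rho
  have ha : (0 : ℝ) ≤ (a : ℝ) := Nat.cast_nonneg a
  have hb : (0 : ℝ) ≤ (b : ℝ) := Nat.cast_nonneg b
  rw [Nat.cast_add, Nat.cast_one, div_le_div_iff₀ (by positivity) (by positivity)]
  have e : ((b : ℝ) + 1 + 1) * (2 * a + (b + 1) + 1) * (((a : ℝ) + 1) * (a + b + 1)) -
      ((b : ℝ) + 1) * (2 * a + b + 1) * (((a : ℝ) + 1) * (a + (b + 1) + 1)) =
      ((a : ℝ) + 1) * ((a + b + 1) ^ 2 + (a + b + 1) + a ^ 2) := by ring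
  have h : (0 : ℝ) ≤ ((a : ℝ) + 1) * ((a + b + 1) ^ 2 + (a + b + 1) + a ^ 2) := by positivity
  linarith

private theorem N03_alg (s C M r B E n t m : ℝ) :
    s / m * (C * M / r * B * (E / n) / t) = (C * B) * (M / r) * (s * E / (t * n * m)) := by
  ring

private theorem N03_frac (t k q p : ℝ) (ht : 1 ≤ t) (hk : 0 ≤ k) (hq : 0 ≤ q) (hp : q + k ≤ p)
    (hp' : p ≤ q + k + 1) :
    (t + k + 1) * (t + q + 1) / ((t + 1) * (t + k + p + 1) * (t + k + p)) ≤
      (t + k) * (t + q) / (t * (t + k + p) * (t + k + p - 1)) ∨ t + k + p ≤ 1 := by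
  rcases le_or_gt (t + k + p) 1 with h | h
  · exact Or.inr h
  left
  have ht0 : 0 < t := by linarith
  have h1 : 0 < t + k + p := by linarith
  have h2 : 0 < t + k + p - 1 := by linarith
  have h3 := w_ineq' t k q p ht hk hq hp hp'
  rw [div_le_div_iff₀ (by positivity) (by positivity)]
  have h4 := mul_le_mul_of_nonneg_right h3 h1.le
  calc (t + k + 1) * (t + q + 1) * (t * (t + k + p) * (t + k + p - 1))
      = (t + k + 1) * (t + 1 + q) * t * (t + k + p - 1) * (t + k + p) := by ring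
    _ ≤ (t + k) * (t + q) * (t + 1) * (t + k + p + 1) * (t + k + p) := h4
    _ = (t + k) * (t + q) * ((t + 1) * (t + k + p + 1) * (t + k + p)) := by ring

private theorem N03_Hw_nonneg (w x J n d e : ℕ) (h : e ≤ n) : 0 ≤ Hw w x J n d e := by
  unfold Hw
  have h1 := N03_rho_pos d (d + w)
  have h2 : (0 : ℝ) ≤ (n : ℝ) - e := by
    have : (e : ℝ) ≤ (n : ℝ) := by exact_mod_cast h
    linarith
  have h3 : (0 : ℝ) ≤ max 0 (1 - rho (d + e) (d + w)) := le_max_left _ _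
  positivity

private theorem N03_g (d k w x J par : ℕ) (hd : 2 ≤ d) (hp : par ≤ 1) :
    ((d : ℝ) + 1 + k + 2 + w) / ((2 * (d : ℝ) + 2 * k + (w + 1) + x + J + par) - 1) *
        Hw (w + 1) x J (2 * d + 2 * k + (w + 1) + x + J + par) d (2 * k + par) ≤
      ((d : ℝ) + 1 + k + 1 + w) / ((2 * (d : ℝ) + 2 * k + w + x + J + par) - 1) *
        Hw w x J (2 * d + 2 * k + w + x + J + par) d (2 * k + par) := by
  have hd' : (2 : ℝ) ≤ (d : ℝ) := by exact_mod_cast hd
  have hw0 : (0 : ℝ) ≤ (w : ℝ) := Nat.cast_nonneg w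
  have hx0 : (0 : ℝ) ≤ (x : ℝ) := Nat.cast_nonneg x
  have hJ0 : (0 : ℝ) ≤ (J : ℝ) := Nat.cast_nonneg J
  have hk0 : (0 : ℝ) ≤ (k : ℝ) := Nat.cast_nonneg k
  have hp0 : (0 : ℝ) ≤ (par : ℝ) := Nat.cast_nonneg par
  have hp1 : (par : ℝ) ≤ 1 := by exact_mod_cast hp
  unfold Hw
  rw [N03_alg, N03_alg]
  have hr := N03_rho_pos d (d + w)
  have hr1 := N03_rho_mono d (d + w)
  have hr2 := N03_rho_mono (d + (2 * k + par)) (d + w)
  have hM : max 0 (1 - rho (d + (2 * k + par)) (d + (w + 1))) / rho d (d + (w + 1)) ≤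
      max 0 (1 - rho (d + (2 * k + par)) (d + w)) / rho d (d + w) := by
    refine div_le_div₀ (le_max_left _ _) ?_ hr hr1
    exact max_le_max le_rfl (sub_le_sub_left hr2 1)
  have hF := N03_frac ((d : ℝ) + 2 + w) k ((d : ℝ) - 2 + x + J) ((d : ℝ) - 2 + k + x + J + par)
    (by linarith) hk0 (by linarith) (by linarith) (by linarith)
  have hF' := hF.resolve_right (by push Not; linarith)
  have hM0 : 0 ≤ max 0 (1 - rho (d + (2 * k + par)) (d + w)) / rho d (d + w) :=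
    div_nonneg (le_max_left _ _) hr.le
  have hrr := N03_rho_pos d (d + (w + 1))
  have hM1 : 0 ≤ max 0 (1 - rho (d + (2 * k + par)) (d + (w + 1))) / rho d (d + (w + 1)) :=
    div_nonneg (le_max_left _ _) hrr.le
  have hC : 0 ≤ ((x : ℝ) + J + 1) * (((d : ℝ) + ((2 * k + par : ℕ) : ℝ)) / d) := by positivity
  push_cast at hC ⊢
  refine mul_le_mul (mul_le_mul_of_nonneg_left ?_ hC) ?_ ?_ (mul_nonneg hC hM0)
  · exact hM
  · refine le_trans (le_of_eq ?_) (hF'.trans (le_of_eq ?_))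
    · congr 1
      · ring
      · ring
    · congr 1
      · ring
      · ring
  · have h1 : (0 : ℝ) ≤ 2 * (d : ℝ) + 2 * k + (w + 1) + x + J + par - 1 := by linarith
    have h2 : (0 : ℝ) ≤ 2 * (d : ℝ) + 2 * k + (w + 1) + x + J + par - (2 * k + par) := by linarith
    positivity

private theorem N03_g' (D w x J par k : ℕ) (hk : k + 3 ≤ D) (hp : par ≤ 1) :
    ((D : ℝ) + 2 + w) / (((2 * D - 2 + (w + 1) + x + J + par : ℕ) : ℝ) - 1) *
        Hw (w + 1) x J (2 * D - 2 + (w + 1) + x + J + par) (D - 1 - k) (2 * k + par) ≤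
      ((D : ℝ) + 1 + w) / (((2 * D - 2 + w + x + J + par : ℕ) : ℝ) - 1) *
        Hw w x J (2 * D - 2 + w + x + J + par) (D - 1 - k) (2 * k + par) := by
  obtain ⟨d, rfl⟩ : ∃ d, D = d + 1 + k := ⟨D - 1 - k, by omega⟩
  have h := N03_g d k w x J par (by omega) hp
  have e1 : 2 * (d + 1 + k) - 2 = 2 * d + 2 * k := by omega
  have e2 : d + 1 + k - 1 - k = d := by omega
  rw [e1, e2]
  push_cast
  exact h

private theorem N03_c_nonneg (D w x J par : ℕ) (hD : 2 ≤ D) :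
    0 ≤ ((D : ℝ) + 1 + w) / (((2 * D - 2 + w + x + J + par : ℕ) : ℝ) - 1) := by
  have h : (1 : ℝ) ≤ ((2 * D - 2 + w + x + J + par : ℕ) : ℝ) := by
    exact_mod_cast (by omega : 1 ≤ 2 * D - 2 + w + x + J + par)
  exact div_nonneg (by positivity) (by linarith)

private theorem N03_c_nonneg' (D w x J par : ℕ) (hD : 2 ≤ D) :
    0 ≤ ((D : ℝ) + 2 + w) / (((2 * D - 2 + (w + 1) + x + J + par : ℕ) : ℝ) - 1) := by
  have h : (1 : ℝ) ≤ ((2 * D - 2 + (w + 1) + x + J + par : ℕ) : ℝ) := by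
    exact_mod_cast (by omega : 1 ≤ 2 * D - 2 + (w + 1) + x + J + par)
  exact div_nonneg (by positivity) (by linarith)

private theorem N03_G (D w x J par : ℕ) (hp : par ≤ 1) : ∀ k : ℕ, k + 3 ≤ D →
    ((D : ℝ) + 2 + w) / (((2 * D - 2 + (w + 1) + x + J + par : ℕ) : ℝ) - 1) *
        Hh D (w + 1) x J (2 * D - 2 + (w + 1) + x + J + par) par k ≤
      ((D : ℝ) + 1 + w) / (((2 * D - 2 + w + x + J + par : ℕ) : ℝ) - 1) *
        Hh D w x J (2 * D - 2 + w + x + J + par) par k := by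
  intro k
  induction k with
  | zero =>
    intro hk
    have h := N03_g' D w x J par 0 hk hp
    rw [Nat.mul_zero, Nat.zero_add, Nat.sub_zero] at h
    exact h
  | succ k ih =>
    intro hk
    have h1 := ih (by omega)
    have h2 := N03_g' D w x J par (k + 1) hk hp
    have e1 : Hh D (w + 1) x J (2 * D - 2 + (w + 1) + x + J + par) par (k + 1) =
        max (Hh D (w + 1) x J (2 * D - 2 + (w + 1) + x + J + par) par k)
          (Hw (w + 1) x J (2 * D - 2 + (w + 1) + x + J + par) (D - 1 - (k + 1))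
            (2 * (k + 1) + par)) := rfl
    have e2 : Hh D w x J (2 * D - 2 + w + x + J + par) par (k + 1) =
        max (Hh D w x J (2 * D - 2 + w + x + J + par) par k)
          (Hw w x J (2 * D - 2 + w + x + J + par) (D - 1 - (k + 1)) (2 * (k + 1) + par)) := rfl
    rw [e1, e2, mul_max_of_nonneg _ _ (N03_c_nonneg' D w x J par (by omega)),
      mul_max_of_nonneg _ _ (N03_c_nonneg D w x J par (by omega))]
    exact max_le_max h1 h2

private theorem N03_Hh_nonneg (D w x J par : ℕ) : ∀ k : ℕ, k + 3 ≤ D →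
    0 ≤ Hh D w x J (2 * D - 2 + w + x + J + par) par k := by
  intro k
  induction k with
  | zero =>
    intro hk
    exact N03_Hw_nonneg _ _ _ _ _ _ (by omega)
  | succ k ih =>
    intro hk
    have e2 : Hh D w x J (2 * D - 2 + w + x + J + par) par (k + 1) =
        max (Hh D w x J (2 * D - 2 + w + x + J + par) par k)
          (Hw w x J (2 * D - 2 + w + x + J + par) (D - 1 - (k + 1)) (2 * (k + 1) + par)) := rfl
    rw [e2]
    exact (ih (by omega)).trans (le_max_left _ _)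

private theorem N03_alg2 (s m H A B : ℝ) : s * (H * (A / (B * m))) = s / m * H * (A / B) := by
  ring

private theorem N03_num (a : ℕ) : 0 ≤ ((a : ℝ) - 1) * (a - 2) := by
  rcases Nat.lt_or_ge a 2 with h | h
  · interval_cases a <;> norm_num
  · have h1 : (2 : ℝ) ≤ (a : ℝ) := by exact_mod_cast h
    exact mul_nonneg (by linarith) (by linarith)

private theorem N03_phi (D w x J par k : ℕ) (hk : k + 3 ≤ D) (hp : par ≤ 1) :
    ((D : ℝ) + 2 + w) * (Hh D (w + 1) x J (2 * D - 2 + (w + 1) + x + J + par) par k *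
        Ps (D - 1 + k + par) (2 * D - 2 + (w + 1) + x + J + par)) ≤
      ((D : ℝ) + 1 + w) * (Hh D w x J (2 * D - 2 + w + x + J + par) par k *
        Ps (D - 1 + k + par) (2 * D - 2 + w + x + J + par)) := by
  have hG := N03_G D w x J par hp k hk
  have hH := N03_Hh_nonneg D w x J par k hk
  have hH' := N03_Hh_nonneg D (w + 1) x J par k hk
  have hc := N03_c_nonneg D w x J par (by omega)
  have hA := N03_num (D - 1 + k + par)
  have hB : (0 : ℝ) < ((2 * D - 2 + w + x + J + par : ℕ) : ℝ) - ((D - 1 + k + par : ℕ) : ℝ) + 1 := by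
    have h : ((D - 1 + k + par : ℕ) : ℝ) ≤ ((2 * D - 2 + w + x + J + par : ℕ) : ℝ) := by
      exact_mod_cast (by omega : D - 1 + k + par ≤ 2 * D - 2 + w + x + J + par)
    linarith
  have hBB : ((2 * D - 2 + w + x + J + par : ℕ) : ℝ) - ((D - 1 + k + par : ℕ) : ℝ) + 1 ≤
      ((2 * D - 2 + (w + 1) + x + J + par : ℕ) : ℝ) - ((D - 1 + k + par : ℕ) : ℝ) + 1 := by
    have h : ((2 * D - 2 + w + x + J + par : ℕ) : ℝ) ≤
        ((2 * D - 2 + (w + 1) + x + J + par : ℕ) : ℝ) := by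
      exact_mod_cast (by omega : 2 * D - 2 + w + x + J + par ≤ 2 * D - 2 + (w + 1) + x + J + par)
    linarith
  unfold Ps
  rw [N03_alg2, N03_alg2]
  refine mul_le_mul hG (div_le_div_of_nonneg_left hA hB hBB) (div_nonneg hA (hB.le.trans hBB))
    (mul_nonneg hc hH)

/-- Abel summation as an inequality -/
private theorem N03_abel (dl R : ℕ → ℝ) (K : ℕ) (hdl : ∀ k, k < K → 0 ≤ dl k)
    (hR : ∀ k, 0 ≤ R k) (hanti : ∀ k, k + 1 < K → R (k + 1) ≤ R k) :
    0 ≤ ∑ k ∈ range K, (dl k - if k = 0 then 0 else dl (k - 1)) * R k := by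
  have key : ∀ m, m + 1 ≤ K →
      dl m * R m ≤ ∑ k ∈ range (m + 1), (dl k - if k = 0 then 0 else dl (k - 1)) * R k := by
    intro m
    induction m with
    | zero =>
      intro _
      rw [Finset.sum_range_one, if_pos rfl, sub_zero]
    | succ m ih =>
      intro hm
      rw [Finset.sum_range_succ, if_neg (Nat.succ_ne_zero m), Nat.add_sub_cancel]
      have h1 := ih (by omega)
      have h2 := mul_le_mul_of_nonneg_left (hanti m (by omega)) (hdl m (by omega))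
      have h3 : (dl (m + 1) - dl m) * R (m + 1) = dl (m + 1) * R (m + 1) - dl m * R (m + 1) := by
        ring
      linarith
  cases K with
  | zero => simp
  | succ K => exact (mul_nonneg (hdl K (Nat.lt_succ_self K)) (hR K)).trans (key K le_rfl)

/-- `rho a b` is nondecreasing in `b` (so `1 - rho` and `1 / rho d (d + w)` are nonincreasing in `w`);
`w_ineq'` with `t = d + 2 + w` (`d = D-1-k`), `q = D-3-k+x+J`, `s = D+1+w`, `n = s + p`,
`p = D-3+x+J+par`, `n - e = t + q` (`e = 2k + par`).  The rest by Abel summation: `φ_k = Hh_k Ps (D-1+k+par) n`, `R_k = Rd (D-1-k) (D-1+k+par)` is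
nonincreasing in `k` (`Rd_mono`, `Rd_anti`), `∑ (φ_k - φ_{k-1}) R_k = ∑ φ_k (R_k - R_{k+1})`, and for
`k' ≤ k`: `(D+1+w) Hw_{k'} Ps_k = [(D+1+w)(n-e')/((d'+2+w) n (n-1))] [1/(n-a+1)] ...`. -/
theorem Hp_w (D w x J par : ℕ) (hD : 2 ≤ D) (hp : par ≤ 1) :
    ((D : ℝ) + 2 + w) * Hp D (w + 1) x J (2 * D - 2 + (w + 1) + x + J + par) par ≤
      ((D : ℝ) + 1 + w) * Hp D w x J (2 * D - 2 + w + x + J + par) par := by
  have hphi := fun k hk => N03_phi D w x J par k hk hp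
  have hg := fun k hk => N03_g' D w x J par k hk hp
  set n' := 2 * D - 2 + (w + 1) + x + J + par with hn'
  set n := 2 * D - 2 + w + x + J + par with hn
  have hab := N03_abel
    (fun k => ((D : ℝ) + 1 + w) * (Hh D w x J n par k * Ps (D - 1 + k + par) n) -
      ((D : ℝ) + 2 + w) * (Hh D (w + 1) x J n' par k * Ps (D - 1 + k + par) n'))
    (fun k => Rd (D - 1 - k) (D - 1 + k + par)) (D - 2)
    (fun k hk => sub_nonneg.2 (hphi k (by omega))) (fun k => Rd_nonneg _ _)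
    (fun k _ => (Rd_mono _ _ _ (by omega)).trans (Rd_anti _ _ _ (by omega)))
  unfold Hp
  rw [Finset.mul_sum, Finset.mul_sum]
  rw [← sub_nonneg, ← Finset.sum_sub_distrib]
  refine hab.trans (Finset.sum_le_sum fun k hk => ?_)
  rw [Finset.mem_range] at hk
  have h1 := hg k (by omega)
  have hP : (0 : ℝ) ≤ P2s (D - 1 - k) (2 * k + par) * ((D : ℝ) - 2 + k + par) := by
    have hD' : (2 : ℝ) ≤ (D : ℝ) := by exact_mod_cast hD
    have h3 : (0 : ℝ) ≤ (D : ℝ) - 2 + k + par := by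
      have h4 : (0 : ℝ) ≤ (k : ℝ) := Nat.cast_nonneg k
      have h5 : (0 : ℝ) ≤ (par : ℝ) := Nat.cast_nonneg par
      linarith
    refine mul_nonneg ?_ h3
    unfold P2s
    split_ifs with h
    · rcases Nat.eq_zero_or_pos (2 * k + par) with h6 | h6
      · rw [h6, Nat.cast_zero]
        norm_num
      · have h7 : (1 : ℝ) ≤ ((2 * k + par : ℕ) : ℝ) := by exact_mod_cast h6
        have h8 : (0 : ℝ) ≤ 2 * ((2 * k + par : ℕ) : ℝ) - 1 := by linarith
        positivity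
    · exact le_rfl
  have h2 := mul_le_mul_of_nonneg_right h1 hP
  have hsplit : ∀ (c H P Q m T : ℝ), c * (H * P * (Q / m) + T) = c / m * H * (P * Q) + c * T := by
    intro c H P Q m T
    ring
  rw [hsplit, hsplit]
  rcases Nat.eq_zero_or_pos k with h0 | h0
  · subst h0
    rw [if_pos rfl, if_pos rfl, if_pos rfl]
    linarith
  · have h0' : k ≠ 0 := by omega
    have e3 : D - 1 + (k - 1) + par = D - 2 + k + par := by omega
    rw [if_neg h0', if_neg h0', if_neg h0', e3]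
    linarith

theorem Hc_w (D w x j : ℕ) (hD : 2 ≤ D) :
    ((D : ℝ) + 2 + w) * Hc D (w + 1) x j ≤ ((D : ℝ) + 1 + w) * Hc D w x j := by
  have hf : ∀ i : ℕ, 0 ≤ fi i := fun i => by
    unfold fi
    positivity
  have h1 : ((D : ℝ) + 2 + w) * Hp D (w + 1) x j (2 * D - 2 + (w + 1) + x + j) 0 ≤
      ((D : ℝ) + 1 + w) * Hp D w x j (2 * D - 2 + w + x + j) 0 :=
    Hp_w D w x j 0 hD (by norm_num)
  have h2 := mul_le_mul_of_nonneg_left h1 (hf j)
  unfold Hc
  rcases Nat.eq_zero_or_pos j with h0 | h0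
  · rw [if_pos h0, if_pos h0]
    linarith
  · have h0' : j ≠ 0 := by omega
    rw [if_neg h0', if_neg h0']
    obtain ⟨i, rfl⟩ : ∃ i, j = i + 1 := ⟨j - 1, by omega⟩
    rw [Nat.add_sub_cancel]
    have h3 : ((D : ℝ) + 2 + w) * Hp D (w + 1) x i (2 * D - 2 + (w + 1) + x + (i + 1)) 1 ≤
        ((D : ℝ) + 1 + w) * Hp D w x i (2 * D - 2 + w + x + (i + 1)) 1 :=
      Hp_w D w x i 1 hD le_rfl
    have h4 := mul_le_mul_of_nonneg_left h3 (hf i)
    linarith

end Pool.ADM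
end

section

/-! job ADM-32: sums over the successors, for the tables for `n = 15, 16, 17`. -/

set_option autoImplicit false
set_option maxRecDepth 100000

namespace Pool.Agent.Lib.MP_ad84ff_co

/-- Sum of `f (K ρ)` over the successors `ρ` of `s`, with multiplicities. -/
noncomputable def M32x_ss (f : St → ℕ) (s : St) : (St → St) → ℕ :=
  List.rec (fun K => fS (K [(1, 1)]) f)
    (fun F τ ih K => Nat.add (Nat.mul F.2 (fS (K ((Nat.succ F.1, Nat.succ F.2) :: τ)) f))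
      (ih (fun ρ => K (glueN F.1 F.2 ρ)))) s

/-- One step backwards. -/
noncomputable def M32x_bk (f : St → ℕ) (s : St) : ℕ := M32x_ss f s (fun ρ => ρ)

/-- Sum of `c * f σ` over a tree. -/
noncomputable def M32x_sumF (f : St → ℕ) (t : BT) : ℕ → ℕ :=
  BT.rec (fun acc => acc)
    (fun _ _ c σ _ ihl ihr acc => fN (ihl (Nat.add (Nat.mul c (f σ)) acc)) ihr) t

theorem M32x_sumF_ws (f : St → ℕ) (t : BT) (acc : ℕ) :
    ((M32x_sumF f t acc : ℕ) : ℝ) = t.ws (fun σ => (f σ : ℝ)) + acc := by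
  induction t generalizing acc with
  | leaf =>
    have e : M32x_sumF f .leaf acc = acc := rfl
    rw [e]; simp [BT.ws]
  | node l k c σ r ihl ihr =>
    have e : M32x_sumF f (.node l k c σ r) acc =
      fN (M32x_sumF f l (Nat.add (Nat.mul c (f σ)) acc)) (M32x_sumF f r) := rfl
    rw [e, fN_eq, ihr, ihl]
    simp only [BT.ws]
    have e : ((Nat.add (Nat.mul c (f σ)) acc : ℕ) : ℝ) = (c : ℝ) * f σ + acc := by
      show ((c * f σ + acc : ℕ) : ℝ) = _
      push_cast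
      ring
    rw [e]
    ring

private theorem M32x_W_mapG (F : ℕ × ℕ) (l : List (ℕ × St)) (f : St → ℝ) :
    W (l.map fun x => (x.1, glue F x.2)) f = W l (fun ρ => f (glue F ρ)) := by
  induction l with
  | nil => rfl
  | cons x l ih => rw [List.map_cons, W_cons, W_cons, ih]

theorem M32x_ss_W (f : St → ℕ) (s : St) (K : St → St) :
    ((M32x_ss f s K : ℕ) : ℝ) = W (succ s) (fun ρ => (f (K ρ) : ℝ)) := by
  induction s generalizing K with
  | nil =>
    have e : M32x_ss f [] K = fS (K [(1, 1)]) f := rfl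
    rw [e, fS_eq]
    simp only [succ, W_cons, W_nil]
    push_cast
    ring
  | cons F τ ih =>
    have e : M32x_ss f (F :: τ) K =
        Nat.add (Nat.mul F.2 (fS (K ((Nat.succ F.1, Nat.succ F.2) :: τ)) f))
          (M32x_ss f τ (fun ρ => K (glueN F.1 F.2 ρ))) := rfl
    have e2 : succ (F :: τ) = (F.2, (F.1 + 1, F.2 + 1) :: τ) ::
      (succ τ).map fun x => (x.1, glue F x.2) := rfl
    rw [e, e2, W_cons, M32x_W_mapG, fS_eq]
    have e3 : ((Nat.add (Nat.mul F.2 (f (K ((Nat.succ F.1, Nat.succ F.2) :: τ))))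
          (M32x_ss f τ (fun ρ => K (glueN F.1 F.2 ρ))) : ℕ) : ℝ) =
        (F.2 : ℝ) * f (K ((Nat.succ F.1, Nat.succ F.2) :: τ)) +
          ((M32x_ss f τ (fun ρ => K (glueN F.1 F.2 ρ)) : ℕ) : ℝ) := by
      show ((F.2 * f (K ((Nat.succ F.1, Nat.succ F.2) :: τ)) +
        M32x_ss f τ (fun ρ => K (glueN F.1 F.2 ρ)) : ℕ) : ℝ) = _
      push_cast
      ring
    rw [e3, ih]
    have e4 : (fun ρ => (f (K (glueN F.1 F.2 ρ)) : ℝ)) = fun ρ => (f (K (glue F ρ)) : ℝ) := by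
      funext ρ; rw [glueN_eq]
    rw [e4]

theorem M32x_bk_M (n : ℕ) (f : St → ℕ) :
    (n.factorial : ℝ) * M n (fun σ => (M32x_bk f σ : ℝ)) =
      ((n + 1).factorial : ℝ) * M (n + 1) (fun σ => (f σ : ℝ)) := by
  rw [M_succ]
  have e1 : (fun σ => (M32x_bk f σ : ℝ)) = fun σ => W (succ σ) (fun ρ => (f ρ : ℝ)) := by
    funext σ
    exact M32x_ss_W f σ (fun ρ => ρ)
  have e2 : (fun σ => W (succ σ) (fun ρ => (f ρ : ℝ)) / ((n : ℝ) + 1)) =
      fun σ => (1 / ((n : ℝ) + 1)) * W (succ σ) (fun ρ => (f ρ : ℝ)) := by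
    funext σ; ring
  rw [e1, e2, M_mul, Nat.factorial_succ]
  have h : (n : ℝ) + 1 ≠ 0 := by positivity
  push_cast
  field_simp

end Pool.Agent.Lib.MP_ad84ff_co
end

section

/-! job ADM-32: the table for `n = 15`. -/

set_option autoImplicit false
set_option maxRecDepth 100000

namespace Pool.Agent.Lib.MP_ad84ff_co

theorem M32x_tab_15 :
    Nat.beq (M32x_sumF (M32x_bk topSz) (distT 14) 0) 15618484995798 = true := by
  decide +kernel

end Pool.Agent.Lib.MP_ad84ff_co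
end

section

/-! job ADM-32: the table for `n = 16`. -/

set_option autoImplicit false
set_option maxRecDepth 100000

namespace Pool.Agent.Lib.MP_ad84ff_co

theorem M32x_tab_16 :
    Nat.beq (M32x_sumF (M32x_bk (M32x_bk topSz)) (distT 14) 0) 266421797672250 = true := by
  decide +kernel

end Pool.Agent.Lib.MP_ad84ff_co
end

section

/-! job ADM-32: the table for `n = 17`. -/

set_option autoImplicit false
set_option maxRecDepth 100000

namespace Pool.Agent.Lib.MP_ad84ff_co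

theorem M32x_tab_17 :
    Nat.beq (M32x_sumF (M32x_bk (M32x_bk (M32x_bk topSz))) (distT 14) 0) 4808585256473205 =
      true := by
  decide +kernel

end Pool.Agent.Lib.MP_ad84ff_co
end

section

/-! job ADN-04: `(Δ + 1 + w) Ft` is nondecreasing in `w`. -/

set_option autoImplicit false

namespace Pool.ADM

open Finset

private theorem N04_fi_nonneg (j : ℕ) : 0 ≤ fi j := by
  unfold fi
  positivity

private theorem N04_LT (D w j : ℕ) :
    ((D : ℝ) + 2 + w) * LT D (w + 1) j = ((D : ℝ) + 1 + w) * LT D w j := by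
  unfold LT
  have h1 : (0 : ℝ) < (D : ℝ) + 2 + w := by positivity
  have h2 : (0 : ℝ) < (D : ℝ) + 1 + w := by positivity
  have e : (D : ℝ) + 1 + ((w + 1 : ℕ) : ℝ) = (D : ℝ) + 2 + w := by
    push_cast
    ring
  rw [e, mul_div_cancel₀ _ h1.ne', mul_div_cancel₀ _ h2.ne']

private theorem N04_LE (D w x j : ℕ) (hD : 2 ≤ D) :
    ((D : ℝ) + 2 + w) * LE D (w + 1) x j ≤ ((D : ℝ) + 1 + w) * LE D w x j := by
  unfold LE
  by_cases hj : j ≤ 2
  · rw [if_pos hj, if_pos hj]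
    simp
  · rw [if_neg hj, if_neg hj]
    have hj' : (3 : ℝ) ≤ j := by
      have : 3 ≤ j := by omega
      exact_mod_cast this
    have hD' : (2 : ℝ) ≤ D := by exact_mod_cast hD
    have hw : (0 : ℝ) ≤ w := Nat.cast_nonneg _
    have hx : (0 : ℝ) ≤ x := Nat.cast_nonneg _
    have h1 : (0 : ℝ) < (D : ℝ) + 2 + w := by positivity
    have h2 : (0 : ℝ) < (D : ℝ) + 1 + w := by positivity
    have h3 : (0 : ℝ) < 2 * (D : ℝ) + w + x := by linarith
    have h4 : (0 : ℝ) < 2 * (D : ℝ) + w + 1 + x := by linarith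
    obtain ⟨c, hc⟩ : ∃ c, c = fi (j - 1) * ((((j : ℝ) - 3) * D + j) * ((D : ℝ) - 2) / 2 +
        ((j : ℝ) - 2)) := ⟨_, rfl⟩
    have hc0 : 0 ≤ c := by
      rw [hc]
      refine mul_nonneg (N04_fi_nonneg _) ?_
      have h5 : 0 ≤ ((j : ℝ) - 3) * D + j := by
        have := mul_nonneg (by linarith : (0 : ℝ) ≤ (j : ℝ) - 3) (by linarith : (0 : ℝ) ≤ (D : ℝ))
        linarith
      have h6 := mul_nonneg h5 (by linarith : (0 : ℝ) ≤ (D : ℝ) - 2)
      linarith
    rw [← hc]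
    have e1 : ((D : ℝ) + 2 + w) * (c / ((2 * (D : ℝ) + ((w + 1 : ℕ) : ℝ) + x) *
        ((D : ℝ) + 1 + ((w + 1 : ℕ) : ℝ)))) = c / (2 * (D : ℝ) + w + 1 + x) := by
      push_cast
      have h4' : (2 * (D : ℝ) + (w + 1) + x) ≠ 0 := by
        have : (2 * (D : ℝ) + (w + 1) + x) = 2 * (D : ℝ) + w + 1 + x := by ring
        rw [this]
        exact h4.ne'
      have h1' : ((D : ℝ) + 1 + (w + 1)) ≠ 0 := by
        have : ((D : ℝ) + 1 + (w + 1)) = (D : ℝ) + 2 + w := by ring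
        rw [this]
        exact h1.ne'
      have h4n := h4.ne'
      field_simp
      ring
    have e2 : ((D : ℝ) + 1 + w) * (c / ((2 * (D : ℝ) + w + x) * ((D : ℝ) + 1 + w))) =
        c / (2 * (D : ℝ) + w + x) := by
      field_simp
    rw [e1, e2]
    exact div_le_div_of_nonneg_left hc0 h3 (by linarith)

private theorem N04_Lo (D w x j : ℕ) (hD : 2 ≤ D) :
    ((D : ℝ) + 2 + w) * Lo D (w + 1) x j ≤ ((D : ℝ) + 1 + w) * Lo D w x j := by
  unfold Lo
  have h1 := N04_LT D w j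
  have h2 := N04_LE D w x j hD
  have h3 := Dc_w D w x j hD
  have h4 := Hc_w D w x j hD
  have e1 : ((D : ℝ) + 2 + w) * (LT D (w + 1) j + LE D (w + 1) x j + Dc D (w + 1) x j +
      Hc D (w + 1) x j) = ((D : ℝ) + 2 + w) * LT D (w + 1) j + ((D : ℝ) + 2 + w) * LE D (w + 1) x j +
      ((D : ℝ) + 2 + w) * Dc D (w + 1) x j + ((D : ℝ) + 2 + w) * Hc D (w + 1) x j := by ring
  have e2 : ((D : ℝ) + 1 + w) * (LT D w j + LE D w x j + Dc D w x j + Hc D w x j) =
      ((D : ℝ) + 1 + w) * LT D w j + ((D : ℝ) + 1 + w) * LE D w x j +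
      ((D : ℝ) + 1 + w) * Dc D w x j + ((D : ℝ) + 1 + w) * Hc D w x j := by ring
  rw [e1, e2]
  linarith

private theorem N04_Lo' (Δ D w x j : ℕ) (hD : 2 ≤ D) (hj : 2 ≤ j) (hΔ : D ≤ Δ) :
    ((Δ : ℝ) + 2 + w) * Lo D (w + 1) x j ≤ ((Δ : ℝ) + 1 + w) * Lo D w x j := by
  have h1 := N04_Lo D w x j hD
  have h0 := Lo_nonneg D w x j hD hj
  have h2 : (0 : ℝ) < (D : ℝ) + 2 + w := by positivity
  have h3 : (0 : ℝ) < (Δ : ℝ) + 2 + w := by positivity
  have h4 : (D : ℝ) ≤ Δ := by exact_mod_cast hΔ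
  refine le_of_mul_le_mul_right ?_ h2
  calc ((Δ : ℝ) + 2 + w) * Lo D (w + 1) x j * ((D : ℝ) + 2 + w) =
      ((Δ : ℝ) + 2 + w) * (((D : ℝ) + 2 + w) * Lo D (w + 1) x j) := by ring
    _ ≤ ((Δ : ℝ) + 2 + w) * (((D : ℝ) + 1 + w) * Lo D w x j) :=
        mul_le_mul_of_nonneg_left h1 h3.le
    _ = (((Δ : ℝ) + 2 + w) * ((D : ℝ) + 1 + w)) * Lo D w x j := by ring
    _ ≤ (((Δ : ℝ) + 1 + w) * ((D : ℝ) + 2 + w)) * Lo D w x j := by
        refine mul_le_mul_of_nonneg_right ?_ h0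
        nlinarith
    _ = _ := by ring

private theorem N04_Am (Δ w x j0 : ℕ) (hΔ : 2 ≤ Δ) :
    ((Δ : ℝ) + 1 + w) * Am Δ w x j0 ≤ ((Δ : ℝ) + 2 + w) * Am Δ (w + 1) x j0 := by
  have hD' : (2 : ℝ) ≤ Δ := by exact_mod_cast hΔ
  have hw : (0 : ℝ) ≤ w := Nat.cast_nonneg _
  have hx : (0 : ℝ) ≤ x := Nat.cast_nonneg _
  have h1 : (0 : ℝ) < (Δ : ℝ) + 2 + w := by positivity
  have h2 : (0 : ℝ) < (Δ : ℝ) + 1 + w := by positivity
  have e : (Δ : ℝ) + 1 + ((w + 1 : ℕ) : ℝ) = (Δ : ℝ) + 2 + w := by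
    push_cast
    ring
  unfold Am
  by_cases hj : j0 = 0
  · rw [if_pos hj, if_pos hj, e, mul_div_cancel₀ _ h1.ne', mul_div_cancel₀ _ h2.ne']
    push_cast
    linarith
  · rw [if_neg hj, if_neg hj, e, mul_div_cancel₀ _ h1.ne', mul_div_cancel₀ _ h2.ne']
    push_cast
    obtain ⟨s, hs⟩ : ∃ s, s = 2 * (Δ : ℝ) + w + x := ⟨_, rfl⟩
    obtain ⟨b, hb⟩ : ∃ b, b = ((Δ : ℝ) - 2) / 2 := ⟨_, rfl⟩
    obtain ⟨a, ha⟩ : ∃ a, a = (2 * (Δ : ℝ) - 1 + w) * ((Δ : ℝ) - 2) / 2 + 1 := ⟨_, rfl⟩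
    have hs1 : (4 : ℝ) ≤ s := by rw [hs]; linarith
    have hb0 : 0 ≤ b := by rw [hb]; linarith
    have e1 : (2 * (Δ : ℝ) - 1 + (w + 1)) * ((Δ : ℝ) - 2) / 2 + 1 = a + b := by
      rw [ha, hb]
      ring
    have e2 : 2 * (Δ : ℝ) + (w + 1) + x = s + 1 := by
      rw [hs]
      ring
    rw [e1, e2, ← ha, ← hs]
    have hab : a ≤ s * b + 1 := by
      have : a = (2 * (Δ : ℝ) - 1 + w) * b + 1 := by rw [ha, hb]; ring
      rw [this]
      have h5 : 2 * (Δ : ℝ) - 1 + w ≤ s := by rw [hs]; linarith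
      have := mul_le_mul_of_nonneg_right h5 hb0
      linarith
    have hs0 : 0 < s := by linarith
    have hs2 : 0 < s + 1 := by linarith
    have h6 : a / s ≤ 1 + (a + b) / (s + 1) := by
      rw [div_le_iff₀ hs0]
      have h7 : (1 + (a + b) / (s + 1)) * s = (s * (s + 1) + (a + b) * s) / (s + 1) := by
        field_simp
      rw [h7, le_div_iff₀ hs2]
      nlinarith
    linarith

/-- `(Δ+1+w) Am` is nondecreasing; `(Δ+1+w) Lo (Δ-i) w` is nonincreasing because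
`(D+1+w) Lo D w` is, and `(Δ+2+w) / (D+2+w) ≤ (Δ+1+w) / (D+1+w)`. -/
theorem Ft_w (Δ w x j0 : ℕ) (hΔ : 2 ≤ Δ) (hj : j0 ≤ 1) :
    ((Δ : ℝ) + 1 + w) * Ft Δ w x j0 (Δ - 2) ≤ ((Δ : ℝ) + 2 + w) * Ft Δ (w + 1) x j0 (Δ - 2) := by
  have h1 := N04_Am Δ w x j0 hΔ
  have h2 := Hc_w Δ w x j0 hΔ
  have h3 : ((Δ : ℝ) + 2 + w) * ∑ i ∈ Icc 1 (Δ - 2), Lo (Δ - i) (w + 1) x (j0 + 2 * i) ≤
      ((Δ : ℝ) + 1 + w) * ∑ i ∈ Icc 1 (Δ - 2), Lo (Δ - i) w x (j0 + 2 * i) := by
    rw [mul_sum, mul_sum]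
    refine sum_le_sum fun i hi => ?_
    rw [mem_Icc] at hi
    exact N04_Lo' Δ (Δ - i) w x (j0 + 2 * i) (by omega) (by omega) (by omega)
  unfold Ft
  rw [mul_sub, mul_sub, mul_sub, mul_sub]
  linarith

theorem Ft_nonneg_of_le (Δ w w' x j0 : ℕ) (hΔ : 2 ≤ Δ) (hj : j0 ≤ 1) (hw : w ≤ w')
    (h : 0 ≤ Ft Δ w x j0 (Δ - 2)) : 0 ≤ Ft Δ w' x j0 (Δ - 2) := by
  induction w', hw using Nat.le_induction with
  | base => exact h
  | succ v hv ih =>
    have h1 := Ft_w Δ v x j0 hΔ hj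
    have h2 : (0 : ℝ) < (Δ : ℝ) + 2 + v := by positivity
    have h3 : (0 : ℝ) ≤ ((Δ : ℝ) + 1 + v) * Ft Δ v x j0 (Δ - 2) := mul_nonneg (by positivity) ih
    exact nonneg_of_mul_nonneg_right (h3.trans h1) h2

/-- `Δ = 2`: the sum is empty, `Hc 2 w x j0 = 0`. -/
theorem Ft_two (w x j0 : ℕ) (hj : j0 ≤ 1) : 0 ≤ Ft 2 w x j0 (2 - 2) := by
  have hw : (0 : ℝ) ≤ w := Nat.cast_nonneg _
  have hx : (0 : ℝ) ≤ x := Nat.cast_nonneg _
  have hH : Hc 2 w x j0 = 0 := by
    unfold Hc Hp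
    simp
  have hA : 0 ≤ Am 2 w x j0 := by
    unfold Am
    by_cases h : j0 = 0
    · rw [if_pos h]
      push_cast
      refine div_nonneg ?_ (by linarith)
      linarith
    · rw [if_neg h]
      push_cast
      refine div_nonneg ?_ (by linarith)
      have e : ((2 : ℝ) * 2 - 1 + w) * (2 - 2) / 2 + 1 = 1 := by ring
      rw [e]
      have : (0 : ℝ) ≤ 1 / (2 * 2 + (w : ℝ) + x) := by positivity
      linarith
  unfold Ft
  rw [hH]
  simp only [Nat.sub_self]
  rw [show Icc 1 0 = (∅ : Finset ℕ) from rfl, sum_empty]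
  linarith

end Pool.ADM
end

section

/-! job ADM-32: the first 16 inequalities from the tables.

`A n := BT.sumTop (distT n) 0 = ∑ (multiplicity) * (total size of the top level)` over the states of
`n` letters (`topSz`, BT1), `A = 1, 4, 16, 82, 498, 3552, 28671, 260954, 2627741, 29128458,
351392519, 4594060192, 64582101934, 972930147652, 15618484995798, 266421797672250,
4808585256473205` for `n = 1, …, 17`.  Kernel: `Nat.beq (BT.sumTop (distT n) 0) v = true` by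
`decide +kernel` (`n = 13`: 9 s; `n = 15, 16, 17` are computed from `distT 14` by one, two, three
steps backwards, in files of their own, `M32x15` etc.).  `ws_distT` (library `Nu4`):
`(distT n).ws f = n! * M n f`; `M32x_sumF_ws`: `(M32x_sumF f t acc : ℝ) = t.ws f + acc`; `M_eq_EM`;
`topSz` of the projected state is `topN`.
Then by `gen_topN`: `EM n Vf - EM n Cf = (n+1) EM (n+1) topN - (n+2) EM n topN`, i.e.
`(A (n+1) - (n+2) A n) / n!`. -/

set_option autoImplicit false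
set_option maxRecDepth 100000

namespace Pool.Agent.Lib.MP_ad84ff_co

private theorem M32_s1 : Nat.beq (BT.sumTop (distT 1) 0) 1 = true := by decide +kernel
private theorem M32_s2 : Nat.beq (BT.sumTop (distT 2) 0) 4 = true := by decide +kernel
private theorem M32_s3 : Nat.beq (BT.sumTop (distT 3) 0) 16 = true := by decide +kernel
private theorem M32_s4 : Nat.beq (BT.sumTop (distT 4) 0) 82 = true := by decide +kernel
private theorem M32_s5 : Nat.beq (BT.sumTop (distT 5) 0) 498 = true := by decide +kernel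
private theorem M32_s6 : Nat.beq (BT.sumTop (distT 6) 0) 3552 = true := by decide +kernel
private theorem M32_s7 : Nat.beq (BT.sumTop (distT 7) 0) 28671 = true := by decide +kernel
private theorem M32_s8 : Nat.beq (BT.sumTop (distT 8) 0) 260954 = true := by decide +kernel
private theorem M32_s9 : Nat.beq (BT.sumTop (distT 9) 0) 2627741 = true := by decide +kernel
private theorem M32_s10 : Nat.beq (BT.sumTop (distT 10) 0) 29128458 = true := by decide +kernel
private theorem M32_s11 : Nat.beq (BT.sumTop (distT 11) 0) 351392519 = true := by decide +kernel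
private theorem M32_s12 : Nat.beq (BT.sumTop (distT 12) 0) 4594060192 = true := by decide +kernel
private theorem M32_s14 : Nat.beq (BT.sumTop (distT 14) 0) 972930147652 = true := by
  decide +kernel

private theorem M32_topSz_cons (F : ℕ × ℕ) (τ : St) :
    topSz (F :: τ) = F.2 + ((τ.filter fun q => q.1 = F.1).map fun q => q.2).sum := by
  have e : topSz (F :: τ) = List.rec (motive := fun _ => ℕ) F.2 (fun G _ ih =>
    bif Nat.beq G.1 F.1 then Nat.add G.2 ih else ih) τ := rfl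
  rw [e]
  clear e
  induction τ with
  | nil => simp
  | cons G τ ih =>
    show (bif Nat.beq G.1 F.1 then Nat.add G.2 (List.rec (motive := fun _ => ℕ) F.2 (fun G _ ih =>
      bif Nat.beq G.1 F.1 then Nat.add G.2 ih else ih) τ) else
      (List.rec (motive := fun _ => ℕ) F.2 (fun G _ ih =>
        bif Nat.beq G.1 F.1 then Nat.add G.2 ih else ih) τ)) = _
    rw [ih]
    by_cases h : G.1 = F.1
    · have h1 : Nat.beq G.1 F.1 = true := by
        rw [h]
        exact Nat.beq_refl _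
      rw [h1]
      simp only [cond_true, List.filter_cons, h, decide_true, if_true, List.map_cons, List.sum_cons]
      show G.2 + (F.2 + _) = _
      ring
    · have h1 : Nat.beq G.1 F.1 = false := by
        cases hb : Nat.beq G.1 F.1
        · rfl
        · exact absurd (Nat.eq_of_beq_eq_true hb) h
      rw [h1]
      simp [h]

end Pool.Agent.Lib.MP_ad84ff_co

namespace Pool.ADM

open Finset

open Pool.Agent.Lib.MP_ad84ff_co in
private theorem M32_topSz_topN (σ : S3) : topSz (σ.map fun q => (q.1, q.2.1)) = topN σ := by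
  cases σ with
  | nil => rfl
  | cons F τ =>
    rw [List.map_cons, M32_topSz_cons]
    unfold topN
    simp only [top3, List.filter_cons, decide_true, if_true, List.map_cons, List.sum_cons]
    rw [List.filter_map, List.map_map]
    rfl

open Pool.Agent.Lib.MP_ad84ff_co in
private theorem M32_M_topN (n v : ℕ)
    (h : (v : ℝ) = (n.factorial : ℝ) * M n (fun σ => (topSz σ : ℝ))) :
    (n.factorial : ℝ) * EM n (fun σ => (topN σ : ℝ)) = v := by
  rw [M_eq_EM] at h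
  have h3 : (fun σ : S3 => (topSz (σ.map fun q => (q.1, q.2.1)) : ℝ)) =
      fun σ => (topN σ : ℝ) := by
    funext σ
    rw [M32_topSz_topN]
  rw [h3] at h
  exact h.symm

open Pool.Agent.Lib.MP_ad84ff_co in
private theorem M32_sumF (n v : ℕ) (f : St → ℕ)
    (h : Nat.beq (M32x_sumF f (distT n) 0) v = true) :
    (v : ℝ) = (n.factorial : ℝ) * M n (fun σ => (f σ : ℝ)) := by
  have h1 : M32x_sumF f (distT n) 0 = v := Nat.eq_of_beq_eq_true h
  have h2 := M32x_sumF_ws f (distT n) 0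
  rw [h1, ws_distT] at h2
  rw [h2]
  simp

open Pool.Agent.Lib.MP_ad84ff_co in
private theorem M32_tb (n v : ℕ) (h : Nat.beq (BT.sumTop (distT n) 0) v = true) :
    (n.factorial : ℝ) * EM n (fun σ => (topN σ : ℝ)) = v :=
  M32_M_topN n v (M32_sumF n v topSz h)

private theorem M32_step (n u v : ℕ) (h1 : 1 ≤ n)
    (hu : (n.factorial : ℝ) * EM n (fun σ => (topN σ : ℝ)) = u)
    (hv : ((n + 1).factorial : ℝ) * EM (n + 1) (fun σ => (topN σ : ℝ)) = v)
    (huv : (n + 2) * u ≤ v) : EM n Cf ≤ EM n Vf := by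
  have e1 : EM n (fun σ => wsum (suc 1 σ) fun _ ρ => (topN ρ : ℝ)) =
      ((n : ℝ) + 2) * EM n (fun σ => (topN σ : ℝ)) + EM n Vf - EM n Cf := by
    have e2 : EM n (fun σ => wsum (suc 1 σ) fun _ ρ => (topN ρ : ℝ)) =
        EM n (fun σ => ((n : ℝ) + 2) * topN σ + (Vf σ + (-1) * Cf σ)) := by
      apply EM_congr
      intro σ hσ
      rw [gen_topN n h1 σ hσ]
      ring
    rw [e2, EM_add, EM_mul, EM_add, EM_mul]
    ring
  have e3 := EM_succ n (fun σ => (topN σ : ℝ))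
  rw [e1] at e3
  have hn : (0 : ℝ) < (n : ℝ) + 1 := by positivity
  have hf : (0 : ℝ) < (n.factorial : ℝ) := by exact_mod_cast Nat.factorial_pos n
  have e4 : ((n : ℝ) + 1) * EM (n + 1) (fun σ => (topN σ : ℝ)) =
      ((n : ℝ) + 2) * EM n (fun σ => (topN σ : ℝ)) + EM n Vf - EM n Cf := by
    rw [e3]
    field_simp
  have e5 : (v : ℝ) = (n.factorial : ℝ) *
      (((n : ℝ) + 2) * EM n (fun σ => (topN σ : ℝ)) + EM n Vf - EM n Cf) := by
    rw [← e4, ← hv, Nat.factorial_succ]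
    push_cast
    ring
  have e6 : (n.factorial : ℝ) * (EM n Vf - EM n Cf) = v - ((n : ℝ) + 2) * u := by
    rw [e5, ← hu]
    ring
  have e7 : ((n : ℝ) + 2) * u ≤ v := by exact_mod_cast huv
  have e8 : 0 ≤ (n.factorial : ℝ) * (EM n Vf - EM n Cf) := by
    rw [e6]
    linarith
  have e9 : 0 ≤ EM n Vf - EM n Cf := nonneg_of_mul_nonneg_right e8 hf
  linarith

open Pool.Agent.Lib.MP_ad84ff_co in
theorem small (n : ℕ) (h1 : 1 ≤ n) (hn : n ≤ 16) : EM n Cf ≤ EM n Vf := by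
  have a1 := M32_tb 1 _ M32_s1
  have a2 := M32_tb 2 _ M32_s2
  have a3 := M32_tb 3 _ M32_s3
  have a4 := M32_tb 4 _ M32_s4
  have a5 := M32_tb 5 _ M32_s5
  have a6 := M32_tb 6 _ M32_s6
  have a7 := M32_tb 7 _ M32_s7
  have a8 := M32_tb 8 _ M32_s8
  have a9 := M32_tb 9 _ M32_s9
  have a10 := M32_tb 10 _ M32_s10
  have a11 := M32_tb 11 _ M32_s11
  have a12 := M32_tb 12 _ M32_s12
  have a13 := M32_tb 13 _ sumTop_13
  have a14 := M32_tb 14 _ M32_s14
  have a15 := M32_M_topN 15 _ ((M32_sumF 14 _ _ M32x_tab_15).trans (M32x_bk_M 14 topSz))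
  have a16 := M32_M_topN 16 _ ((M32_sumF 14 _ _ M32x_tab_16).trans
    ((M32x_bk_M 14 (M32x_bk topSz)).trans (M32x_bk_M 15 topSz)))
  have a17 := M32_M_topN 17 _ ((M32_sumF 14 _ _ M32x_tab_17).trans
    ((M32x_bk_M 14 (M32x_bk (M32x_bk topSz))).trans
      ((M32x_bk_M 15 (M32x_bk topSz)).trans (M32x_bk_M 16 topSz))))
  interval_cases n
  · exact M32_step 1 _ _ h1 a1 a2 (by norm_num)
  · exact M32_step 2 _ _ h1 a2 a3 (by norm_num)
  · exact M32_step 3 _ _ h1 a3 a4 (by norm_num)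
  · exact M32_step 4 _ _ h1 a4 a5 (by norm_num)
  · exact M32_step 5 _ _ h1 a5 a6 (by norm_num)
  · exact M32_step 6 _ _ h1 a6 a7 (by norm_num)
  · exact M32_step 7 _ _ h1 a7 a8 (by norm_num)
  · exact M32_step 8 _ _ h1 a8 a9 (by norm_num)
  · exact M32_step 9 _ _ h1 a9 a10 (by norm_num)
  · exact M32_step 10 _ _ h1 a10 a11 (by norm_num)
  · exact M32_step 11 _ _ h1 a11 a12 (by norm_num)
  · exact M32_step 12 _ _ h1 a12 a13 (by norm_num)
  · exact M32_step 13 _ _ h1 a13 a14 (by norm_num)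
  · exact M32_step 14 _ _ h1 a14 a15 (by norm_num)
  · exact M32_step 15 _ _ h1 a15 a16 (by norm_num)
  · exact M32_step 16 _ _ h1 a16 a17 (by norm_num)

end Pool.ADM
end
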