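import Pool.Agent.Lib.MP_ad84ff_coM.N12f
import Pool.Agent.Lib.MP_ad84ff_coM.N12g

/-! job ADN-11: universal bound of `Lo` (`w = 0`).  The constants are very generous: the true values
of `(j-2)! Dc` are `≤ 1.4`, of `Hp` `≤ .25`. -/

set_option autoImplicit false

namespace Pool.ADM

open Finset

/-- `Rd δ a ≤ δ / (a - 1) * Rd δ (a - δ)` for `a > δ` (`Rd_rec`, `Rd_anti`). -/
theorem Rd_step (δ a : ℕ) (hδ : 1 ≤ δ) (h : δ < a) :
    Rd δ a ≤ (δ : ℝ) / ((a : ℝ) - 1) * Rd δ (a - δ) := by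
  rw [Rd_rec δ a h]
  have h1 : (1 : ℝ) < (a : ℝ) := by exact_mod_cast (by omega : 1 < a)
  rw [div_mul_eq_mul_div]
  refine div_le_div_of_nonneg_right ?_ (by linarith)
  calc (∑ i ∈ range δ, Rd δ (a - (i + 1))) ≤ ∑ _i ∈ range δ, Rd δ (a - δ) :=
        Finset.sum_le_sum fun i hi => Rd_anti δ _ _ (by have := Finset.mem_range.mp hi; omega)
    _ = (δ : ℝ) * Rd δ (a - δ) := by simp

private theorem N11_two (D k : ℕ) (hk : k + 1 ≤ D) (h : D < 3 * k) :
    Rd (D - k) (D + k) ≤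
      ((D : ℝ) - k) ^ 2 / (((D : ℝ) + k - 1) * (2 * k - 1)) * Rd (D - k) (3 * k - D) := by
  have h1 := Rd_step (D - k) (D + k) (by omega) (by omega)
  have h2 := Rd_step (D - k) (D + k - (D - k)) (by omega) (by omega)
  have e3 : D + k - (D - k) - (D - k) = 3 * k - D := by omega
  have e2 : ((D + k - (D - k) : ℕ) : ℝ) = 2 * (k : ℝ) := by
    have : D + k - (D - k) = 2 * k := by omega
    rw [this]; push_cast; ring
  have e1 : ((D - k : ℕ) : ℝ) = (D : ℝ) - k := by rw [Nat.cast_sub (by omega)]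
  rw [e3, e2, e1] at h2
  rw [e1] at h1
  push_cast at h1
  have hk' : (k : ℝ) + 1 ≤ D := by exact_mod_cast hk
  have hk1 : (1 : ℝ) ≤ k := by exact_mod_cast (by omega : 1 ≤ k)
  have hA : (0 : ℝ) < (D : ℝ) + k - 1 := by linarith
  have hB : (0 : ℝ) < 2 * (k : ℝ) - 1 := by linarith
  have h3 : 0 ≤ ((D : ℝ) - k) / ((D : ℝ) + k - 1) := div_nonneg (by linarith) hA.le
  calc Rd (D - k) (D + k) ≤ ((D : ℝ) - k) / ((D : ℝ) + k - 1) * Rd (D - k) (D + k - (D - k)) := h1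
    _ ≤ ((D : ℝ) - k) / ((D : ℝ) + k - 1) *
        (((D : ℝ) - k) / (2 * (k : ℝ) - 1) * Rd (D - k) (3 * k - D)) :=
        mul_le_mul_of_nonneg_left h2 h3
    _ = _ := by
        rw [← mul_assoc, div_mul_div_comm, sq]

private theorem N11_three (D k : ℕ) (hk : k + 1 ≤ D) (h : D < 2 * k) :
    Rd (D - k) (D + k) ≤
      ((D : ℝ) - k) ^ 3 / (((D : ℝ) + k - 1) * (2 * k - 1) * (3 * k - D - 1)) := by
  have h1 := N11_two D k hk (by omega)
  have h2 := Rd_step (D - k) (3 * k - D) (by omega) (by omega)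
  have e1 : ((D - k : ℕ) : ℝ) = (D : ℝ) - k := by rw [Nat.cast_sub (by omega)]
  have e2 : ((3 * k - D : ℕ) : ℝ) = 3 * (k : ℝ) - D := by
    rw [Nat.cast_sub (by omega)]; push_cast; ring
  rw [e1, e2] at h2
  have hk' : (k : ℝ) + 1 ≤ D := by exact_mod_cast hk
  have hk1 : (1 : ℝ) ≤ k := by exact_mod_cast (by omega : 1 ≤ k)
  have h2k : (D : ℝ) + 1 ≤ 2 * k := by exact_mod_cast (by omega : D + 1 ≤ 2 * k)
  have hA : (0 : ℝ) < (D : ℝ) + k - 1 := by linarith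
  have hB : (0 : ℝ) < 2 * (k : ℝ) - 1 := by linarith
  have hC : (0 : ℝ) < 3 * (k : ℝ) - D - 1 := by linarith
  have h3 : 0 ≤ ((D : ℝ) - k) ^ 2 / (((D : ℝ) + k - 1) * (2 * k - 1)) := by positivity
  have h4 : 0 ≤ ((D : ℝ) - k) / (3 * (k : ℝ) - D - 1) := div_nonneg (by linarith) hC.le
  have h5 : Rd (D - k) (3 * k - D) ≤ ((D : ℝ) - k) / (3 * (k : ℝ) - D - 1) :=
    h2.trans (mul_le_of_le_one_right h4 (Rd_le_one _ _))
  calc Rd (D - k) (D + k) ≤ _ := h1
    _ ≤ ((D : ℝ) - k) ^ 2 / (((D : ℝ) + k - 1) * (2 * k - 1)) *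
        (((D : ℝ) - k) / (3 * (k : ℝ) - D - 1)) := mul_le_mul_of_nonneg_left h5 h3
    _ = _ := by
        rw [div_mul_div_comm]
        congr 1

/-- `k ≤ D/3`: trivial; otherwise two steps. -/
theorem Rd_sq (D k : ℕ) (hk : k + 1 ≤ D) :
    Rd (D - k) (D + k) ≤ 9 / 4 * (((D : ℝ) - k) / D) ^ 2 := by
  have hk' : (k : ℝ) + 1 ≤ D := by exact_mod_cast hk
  have hk0 : (0 : ℝ) ≤ k := Nat.cast_nonneg k
  have hD : (0 : ℝ) < D := by linarith
  rcases Nat.lt_or_ge D (3 * k) with h | h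
  · have h1 := N11_two D k hk h
    have h3k : (D : ℝ) + 1 ≤ 3 * k := by exact_mod_cast (by omega : D + 1 ≤ 3 * k)
    have hD2 : (2 : ℝ) ≤ D := by exact_mod_cast (by omega : 2 ≤ D)
    have hA : (0 : ℝ) < (D : ℝ) + k - 1 := by linarith
    have hB : (0 : ℝ) < 2 * (k : ℝ) - 1 := by linarith
    have h3 : 0 ≤ ((D : ℝ) - k) ^ 2 / (((D : ℝ) + k - 1) * (2 * k - 1)) := by positivity
    have h4 := h1.trans (mul_le_of_le_one_right h3 (Rd_le_one _ _))
    refine h4.trans ?_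
    rw [div_pow, mul_div_assoc', div_le_div_iff₀ (by positivity) (by positivity)]
    have h5 : (D : ℝ) ^ 2 ≤ 9 / 4 * (((D : ℝ) + k - 1) * (2 * k - 1)) := by
      have h6 : (4 * (D : ℝ) - 2) / 3 ≤ (D : ℝ) + k - 1 := by linarith
      have h7 : (2 * (D : ℝ) - 1) / 3 ≤ 2 * (k : ℝ) - 1 := by linarith
      have h8 : (4 * (D : ℝ) - 2) / 3 * ((2 * (D : ℝ) - 1) / 3) ≤
          ((D : ℝ) + k - 1) * (2 * k - 1) :=
        mul_le_mul h6 h7 (by linarith) hA.le
      nlinarith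
    calc ((D : ℝ) - k) ^ 2 * (D : ℝ) ^ 2 ≤
        ((D : ℝ) - k) ^ 2 * (9 / 4 * (((D : ℝ) + k - 1) * (2 * k - 1))) :=
          mul_le_mul_of_nonneg_left h5 (sq_nonneg _)
      _ = _ := by ring
  · refine (Rd_le_one _ _).trans ?_
    have h3k : 3 * (k : ℝ) ≤ D := by exact_mod_cast h
    have h1 : 2 / 3 ≤ ((D : ℝ) - k) / D := by
      rw [le_div_iff₀ hD]
      linarith
    nlinarith

/-- `k ≤ D/3`: trivial; `k ≤ D/2`: two steps; otherwise three steps. -/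
theorem Rd_cube (D k : ℕ) (hk : k + 1 ≤ D) :
    Rd (D - k) (D + k) ≤ 4 * (((D : ℝ) - k) / D) ^ 3 := by
  have hk' : (k : ℝ) + 1 ≤ D := by exact_mod_cast hk
  have hk0 : (0 : ℝ) ≤ k := Nat.cast_nonneg k
  have hD : (0 : ℝ) < D := by linarith
  rcases Nat.lt_or_ge D (3 * k) with h | h
  · rcases Nat.lt_or_ge D (2 * k) with h' | h'
    · have h1 := N11_three D k hk h'
      have h2k : (D : ℝ) + 1 ≤ 2 * k := by exact_mod_cast (by omega : D + 1 ≤ 2 * k)
      have hA : (0 : ℝ) < (D : ℝ) + k - 1 := by linarith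
      have hB : (0 : ℝ) < 2 * (k : ℝ) - 1 := by linarith
      have hC : (0 : ℝ) < 3 * (k : ℝ) - D - 1 := by linarith
      refine h1.trans ?_
      rw [div_pow, mul_div_assoc', div_le_div_iff₀ (by positivity) (by positivity)]
      have h5 : (D : ℝ) ^ 3 ≤ 4 * (((D : ℝ) + k - 1) * (2 * k - 1) * (3 * k - D - 1)) := by
        have h6 : (3 * (D : ℝ) - 1) / 2 ≤ (D : ℝ) + k - 1 := by linarith
        have h7 : (D : ℝ) ≤ 2 * (k : ℝ) - 1 := by linarith
        have h8 : ((D : ℝ) + 1) / 2 ≤ 3 * (k : ℝ) - D - 1 := by linarith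
        have h9 : (3 * (D : ℝ) - 1) / 2 * (D : ℝ) ≤ ((D : ℝ) + k - 1) * (2 * k - 1) :=
          mul_le_mul h6 h7 hD.le hA.le
        have h10 : (3 * (D : ℝ) - 1) / 2 * (D : ℝ) * (((D : ℝ) + 1) / 2) ≤
            ((D : ℝ) + k - 1) * (2 * k - 1) * (3 * k - D - 1) :=
          mul_le_mul h9 h8 (by linarith) (by positivity)
        have h11 : 0 ≤ (D : ℝ) * (2 * (D : ℝ) ^ 2 + 2 * D - 1) := by
          have : (1 : ℝ) ≤ D := by linarith
          have h12 : 0 ≤ 2 * (D : ℝ) ^ 2 + 2 * D - 1 := by nlinarith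
          positivity
        nlinarith
      calc ((D : ℝ) - k) ^ 3 * (D : ℝ) ^ 3 ≤
          ((D : ℝ) - k) ^ 3 * (4 * (((D : ℝ) + k - 1) * (2 * k - 1) * (3 * k - D - 1))) :=
            mul_le_mul_of_nonneg_left h5 (pow_nonneg (by linarith) _)
        _ = _ := by ring
    · have h1 := N11_two D k hk h
      have h3k : (D : ℝ) + 1 ≤ 3 * k := by exact_mod_cast (by omega : D + 1 ≤ 3 * k)
      have h2k : 2 * (k : ℝ) ≤ D := by exact_mod_cast h'
      have hD2 : (2 : ℝ) ≤ D := by exact_mod_cast (by omega : 2 ≤ D)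
      have hA : (0 : ℝ) < (D : ℝ) + k - 1 := by linarith
      have hB : (0 : ℝ) < 2 * (k : ℝ) - 1 := by linarith
      have hd : (0 : ℝ) < (D : ℝ) - k := by linarith
      have h3 : 0 ≤ ((D : ℝ) - k) ^ 2 / (((D : ℝ) + k - 1) * (2 * k - 1)) := by positivity
      have h4 := h1.trans (mul_le_of_le_one_right h3 (Rd_le_one _ _))
      refine h4.trans ?_
      rw [div_pow, mul_div_assoc', div_le_div_iff₀ (by positivity) (by positivity)]
      have h5 : (D : ℝ) ^ 3 ≤ 4 * (((D : ℝ) - k) * (((D : ℝ) + k - 1) * (2 * k - 1))) := by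
        have h6 : (4 * (D : ℝ) - 2) / 3 ≤ (D : ℝ) + k - 1 := by linarith
        have h7 : (2 * (D : ℝ) - 1) / 3 ≤ 2 * (k : ℝ) - 1 := by linarith
        have h8 : (4 * (D : ℝ) - 2) / 3 * ((2 * (D : ℝ) - 1) / 3) ≤
            ((D : ℝ) + k - 1) * (2 * k - 1) :=
          mul_le_mul h6 h7 (by linarith) hA.le
        have h9 : (D : ℝ) / 2 * ((4 * (D : ℝ) - 2) / 3 * ((2 * (D : ℝ) - 1) / 3)) ≤
            ((D : ℝ) - k) * (((D : ℝ) + k - 1) * (2 * k - 1)) :=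
          mul_le_mul (by linarith) h8
            (mul_nonneg (by linarith) (by linarith)) hd.le
        have h10 : (9 / 4 : ℝ) * (D : ℝ) ^ 2 ≤ (2 * (D : ℝ) - 1) ^ 2 := by nlinarith
        have h11 : (9 / 4 : ℝ) * (D : ℝ) ^ 2 * D ≤ (2 * (D : ℝ) - 1) ^ 2 * D :=
          mul_le_mul_of_nonneg_right h10 hD.le
        have e : (D : ℝ) / 2 * ((4 * (D : ℝ) - 2) / 3 * ((2 * (D : ℝ) - 1) / 3)) =
            (2 * (D : ℝ) - 1) ^ 2 * D / 9 := by ring
        rw [e] at h9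
        have e2 : (D : ℝ) ^ 3 = 4 / 9 * ((9 / 4 : ℝ) * (D : ℝ) ^ 2 * D) := by ring
        rw [e2]
        linarith
      calc ((D : ℝ) - k) ^ 2 * (D : ℝ) ^ 3 ≤
          ((D : ℝ) - k) ^ 2 * (4 * (((D : ℝ) - k) * (((D : ℝ) + k - 1) * (2 * k - 1)))) :=
            mul_le_mul_of_nonneg_left h5 (sq_nonneg _)
        _ = _ := by ring
  · refine (Rd_le_one _ _).trans ?_
    have h3k : 3 * (k : ℝ) ≤ D := by exact_mod_cast h
    have h1 : 2 / 3 ≤ ((D : ℝ) - k) / D := by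
      rw [le_div_iff₀ hD]
      linarith
    have h2 : (2 / 3 : ℝ) ^ 3 ≤ (((D : ℝ) - k) / D) ^ 3 :=
      pow_le_pow_left₀ (by norm_num) h1 3
    norm_num at h2
    linarith


private theorem N11_fi_pos (j : ℕ) : 0 < fi j := by
  unfold fi
  positivity

private theorem N11_fi_succ (j : ℕ) (hj : 2 ≤ j) : fi (j - 1) * ((j : ℝ) - 1) = fi (j - 2) := by
  obtain ⟨i, rfl⟩ : ∃ i, j = i + 2 := ⟨j - 2, by omega⟩
  have e1 : i + 2 - 1 = i + 1 := by omega
  have e2 : i + 2 - 2 = i := by omega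
  rw [e1, e2]
  unfold fi
  rw [Nat.factorial_succ]
  have : (0 : ℝ) < (i.factorial : ℝ) := by exact_mod_cast Nat.factorial_pos i
  push_cast
  field_simp
  ring

private theorem N11_fi_succ' (j : ℕ) (hj : 1 ≤ j) : fi j * (j : ℝ) = fi (j - 1) := by
  obtain ⟨i, rfl⟩ : ∃ i, j = i + 1 := ⟨j - 1, by omega⟩
  rw [Nat.add_sub_cancel]
  unfold fi
  rw [Nat.factorial_succ]
  have : (0 : ℝ) < (i.factorial : ℝ) := by exact_mod_cast Nat.factorial_pos i
  push_cast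
  field_simp

/-- `gmD ≤ 2 D fi (j-2)` -/
private theorem N11_gm (D j k : ℕ) (hj : 2 ≤ j) (hk : k + 2 ≤ D) :
    gmD D j k ≤ (2 * (D : ℝ) - 1) * fi (j - 2) := by
  have hk' : (k : ℝ) + 2 ≤ D := by exact_mod_cast hk
  have hk0 : (0 : ℝ) ≤ k := Nat.cast_nonneg k
  have hj' : (2 : ℝ) ≤ j := by exact_mod_cast hj
  have h0 := N11_fi_pos j
  have h1 := N11_fi_pos (j - 1)
  have h2 := N11_fi_pos (j - 2)
  have e1 := N11_fi_succ j hj
  have e2 := N11_fi_succ' j (by omega)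
  have hA : ((j : ℝ) - 1) * fi (j - 1) = fi (j - 2) := by rw [← e1]; ring
  unfold gmD
  refine max_le ?_ ?_
  · have h3 : ((j : ℝ) * ((D : ℝ) + k) - 2 * D + 2) ≤ (2 * (D : ℝ) - 2) * ((j : ℝ) - 1) := by
      nlinarith
    have h4 : fi j ≤ fi (j - 1) := by
      rw [← e2]
      nlinarith
    calc ((j : ℝ) * ((D : ℝ) + k) - 2 * D + 2) * fi j ≤
        (2 * (D : ℝ) - 2) * ((j : ℝ) - 1) * fi j := mul_le_mul_of_nonneg_right h3 h0.le
      _ ≤ (2 * (D : ℝ) - 2) * ((j : ℝ) - 1) * fi (j - 1) := by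
          refine mul_le_mul_of_nonneg_left h4 (mul_nonneg (by linarith) (by linarith))
      _ = (2 * (D : ℝ) - 2) * fi (j - 2) := by rw [mul_assoc, hA]
      _ ≤ _ := mul_le_mul_of_nonneg_right (by linarith) h2.le
  · split_ifs with h
    · exact mul_nonneg (by linarith) h2.le
    · have h3 : (((j : ℝ) - 1) * ((D : ℝ) + k + 1) - 2 * D + 1) ≤
          (2 * (D : ℝ) - 1) * ((j : ℝ) - 1) := by
        nlinarith
      calc (((j : ℝ) - 1) * ((D : ℝ) + k + 1) - 2 * D + 1) * fi (j - 1) ≤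
          (2 * (D : ℝ) - 1) * ((j : ℝ) - 1) * fi (j - 1) :=
            mul_le_mul_of_nonneg_right h3 h1.le
        _ = _ := by rw [mul_assoc, hA]

private theorem N11_ph (D x j k : ℕ) (hj : 2 ≤ j) (hk : k + 2 ≤ D) :
    phD D x j k ≤ 4 * (D : ℝ) / ((D : ℝ) - k) * fi (j - 2) := by
  have hk' : (k : ℝ) + 2 ≤ D := by exact_mod_cast hk
  have hk0 : (0 : ℝ) ≤ k := Nat.cast_nonneg k
  have hx0 : (0 : ℝ) ≤ x := Nat.cast_nonneg x
  have h2 := N11_fi_pos (j - 2)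
  have hD : (0 : ℝ) < D := by linarith
  have hd : (0 : ℝ) < (D : ℝ) - k := by linarith
  have hm : (0 : ℝ) < 2 * (D : ℝ) - 1 + x := by linarith
  refine (phD_le D x j k hj hk).trans ?_
  have hq0 : 0 ≤ 2 * ((D : ℝ) + k) * ((D : ℝ) + k - 1) /
      (((D : ℝ) - k) * (2 * (D : ℝ) - 1 + x) ^ 2) := by
    refine div_nonneg (mul_nonneg (by linarith) (by linarith)) (by positivity)
  refine (mul_le_mul_of_nonneg_right (N11_gm D j k hj hk) hq0).trans ?_
  have h3 : ((D : ℝ) + k) * ((D : ℝ) + k - 1) ≤ (2 * (D : ℝ) - 1 + x) ^ 2 := by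
    rw [sq]
    exact mul_le_mul (by linarith) (by linarith) (by linarith) hm.le
  have h4 : 2 * ((D : ℝ) + k) * ((D : ℝ) + k - 1) /
      (((D : ℝ) - k) * (2 * (D : ℝ) - 1 + x) ^ 2) ≤ 2 / ((D : ℝ) - k) := by
    rw [div_le_div_iff₀ (by positivity) hd]
    nlinarith [mul_le_mul_of_nonneg_right h3 hd.le]
  calc (2 * (D : ℝ) - 1) * fi (j - 2) * (2 * ((D : ℝ) + k) * ((D : ℝ) + k - 1) /
      (((D : ℝ) - k) * (2 * (D : ℝ) - 1 + x) ^ 2)) ≤
      (2 * (D : ℝ) - 1) * fi (j - 2) * (2 / ((D : ℝ) - k)) :=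
        mul_le_mul_of_nonneg_left h4 (mul_nonneg (by linarith) h2.le)
    _ ≤ (2 * (D : ℝ)) * fi (j - 2) * (2 / ((D : ℝ) - k)) := by
        refine mul_le_mul_of_nonneg_right (mul_le_mul_of_nonneg_right (by linarith) h2.le) ?_
        exact (div_pos two_pos hd).le
    _ = _ := by ring

/-- Abel summation -/
private theorem N11_abel (φ R ρ : ℕ → ℝ) (n : ℕ) (h0 : φ 0 = 0)
    (hφ : ∀ k < n, φ k ≤ φ (k + 1)) (hR : ∀ k < n, R k ≤ ρ k) :
    ∑ k ∈ range n, (φ (k + 1) - φ k) * R k ≤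
      ∑ k ∈ range n, φ (k + 1) * (ρ k - ρ (k + 1)) + φ n * ρ n := by
  induction n with
  | zero => simp [h0]
  | succ n ih =>
    rw [sum_range_succ, sum_range_succ]
    have h1 := ih (fun k hk => hφ k (by omega)) (fun k hk => hR k (by omega))
    have h2 := mul_le_mul_of_nonneg_left (hR n (by omega))
      (sub_nonneg.mpr (hφ n (by omega)))
    nlinarith

/-- Abel summation with a bound of the terms -/
private theorem N11_abel' (φ R ρ : ℕ → ℝ) (n : ℕ) (c : ℝ) (h0 : φ 0 = 0)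
    (hφ : ∀ k < n, φ k ≤ φ (k + 1)) (hR : ∀ k < n, R k ≤ ρ k)
    (h1 : ∀ k < n, φ (k + 1) * (ρ k - ρ (k + 1)) ≤ c) (h2 : φ n * ρ n ≤ c) :
    ∑ k ∈ range n, (φ (k + 1) - φ k) * R k ≤ ((n : ℝ) + 1) * c := by
  refine (N11_abel φ R ρ n h0 hφ hR).trans ?_
  have h3 : ∑ k ∈ range n, φ (k + 1) * (ρ k - ρ (k + 1)) ≤ ∑ _k ∈ range n, c :=
    sum_le_sum fun k hk => h1 k (mem_range.mp hk)
  rw [sum_const, card_range, nsmul_eq_mul] at h3
  linarith

private theorem N11_sumIcc (f : ℕ → ℝ) (n : ℕ) :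
    ∑ k ∈ Icc 1 n, f k = ∑ k ∈ range n, f (k + 1) := by
  induction n with
  | zero => simp
  | succ n ih => rw [sum_Icc_succ_top (by omega), sum_range_succ, ih]

private theorem N11_DcA (D x j : ℕ) (hD : 2 ≤ D) (hj : 2 ≤ j) :
    ∑ k ∈ Icc 1 (D - 2), (phD D x j k - phD D x j (k - 1)) * Rd (D - k) (D + k) ≤
      18 * fi (j - 2) := by
  rw [N11_sumIcc]
  have h2 := N11_fi_pos (j - 2)
  have hD' : (2 : ℝ) ≤ D := by exact_mod_cast hD
  have h := N11_abel' (fun k => phD D x j k) (fun k => Rd (D - (k + 1)) (D + (k + 1)))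
    (fun k => 9 / 4 * (((D : ℝ) - (k + 1)) / D) ^ 2) (D - 2) (18 / D * fi (j - 2))
    (phD_zero D x j) (fun k hk => phD_mono D x j k (by omega)) ?_ ?_ ?_
  · simp only [Nat.add_sub_cancel] at h ⊢
    refine h.trans ?_
    have e : ((D - 2 : ℕ) : ℝ) = (D : ℝ) - 2 := by rw [Nat.cast_sub hD]; push_cast; ring
    rw [e]
    have h3 : ((D : ℝ) - 2 + 1) * (18 / D) ≤ 18 := by
      rw [mul_div_assoc', div_le_iff₀ (by linarith)]
      nlinarith
    nlinarith [mul_le_mul_of_nonneg_right h3 h2.le]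
  · intro k hk
    have h3 := Rd_sq D (k + 1) (by omega)
    push_cast at h3
    exact h3
  · intro k hk
    have h4 := N11_ph D x j (k + 1) hj (by omega)
    have hk' : (k : ℝ) + 1 + 2 ≤ D := by exact_mod_cast (by omega : k + 1 + 2 ≤ D)
    push_cast at h4 ⊢
    have hd : (0 : ℝ) < (D : ℝ) - (k + 1) := by linarith
    have hDp : (0 : ℝ) < D := by linarith
    have e : 9 / 4 * (((D : ℝ) - (k + 1)) / D) ^ 2 - 9 / 4 * (((D : ℝ) - (k + 1 + 1)) / D) ^ 2 =
        9 / 4 * (2 * ((D : ℝ) - (k + 1)) - 1) / D ^ 2 := by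
      field_simp
      ring
    rw [e]
    have h5 : 0 ≤ 9 / 4 * (2 * ((D : ℝ) - (k + 1)) - 1) / (D : ℝ) ^ 2 :=
      div_nonneg (by linarith) (by positivity)
    refine (mul_le_mul_of_nonneg_right h4 h5).trans ?_
    have h6 : 4 * (D : ℝ) / ((D : ℝ) - (k + 1)) *
        (9 / 4 * (2 * ((D : ℝ) - (k + 1)) - 1) / (D : ℝ) ^ 2) ≤ 18 / D := by
      rw [div_mul_div_comm, div_le_div_iff₀ (by positivity) hDp]
      have : 0 ≤ (D : ℝ) ^ 2 := by positivity
      nlinarith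
    calc 4 * (D : ℝ) / ((D : ℝ) - (k + 1)) * fi (j - 2) *
        (9 / 4 * (2 * ((D : ℝ) - (k + 1)) - 1) / (D : ℝ) ^ 2) =
        4 * (D : ℝ) / ((D : ℝ) - (k + 1)) *
        (9 / 4 * (2 * ((D : ℝ) - (k + 1)) - 1) / (D : ℝ) ^ 2) * fi (j - 2) := by ring
      _ ≤ _ := mul_le_mul_of_nonneg_right h6 h2.le
  · have h4 := N11_ph D x j (D - 2) hj (by omega)
    have e : ((D - 2 : ℕ) : ℝ) = (D : ℝ) - 2 := by rw [Nat.cast_sub hD]; push_cast; ring
    simp only [e] at h4 ⊢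
    have hDp : (0 : ℝ) < D := by linarith
    have e1 : (D : ℝ) - (D - 2) = 2 := by ring
    have e2 : (D : ℝ) - (D - 2 + 1) = 1 := by ring
    rw [e1] at h4
    rw [e2]
    have h5 : 0 ≤ 9 / 4 * (1 / (D : ℝ)) ^ 2 := by positivity
    refine (mul_le_mul_of_nonneg_right h4 h5).trans ?_
    have h6 : 4 * (D : ℝ) / 2 * (9 / 4 * (1 / (D : ℝ)) ^ 2) ≤ 18 / D := by
      have e3 : 4 * (D : ℝ) / 2 * (9 / 4 * (1 / (D : ℝ)) ^ 2) = (9 / 2) / D := by
        field_simp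
      rw [e3]
      exact div_le_div_of_nonneg_right (by norm_num) hDp.le
    calc 4 * (D : ℝ) / 2 * fi (j - 2) * (9 / 4 * (1 / (D : ℝ)) ^ 2) =
        4 * (D : ℝ) / 2 * (9 / 4 * (1 / (D : ℝ)) ^ 2) * fi (j - 2) := by ring
      _ ≤ _ := mul_le_mul_of_nonneg_right h6 h2.le

private theorem N11_dev0 (a M j : ℕ) : 0 ≤ dev a M j := by
  unfold dev
  split_ifs with h
  · exact le_rfl
  · exact mul_nonneg (le_max_right _ _) (N11_fi_pos j).le

private theorem N11_dev (a M j : ℕ) (hj : 1 ≤ j) (ha : a + 1 ≤ M) (hM : 2 ≤ M) :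
    dev a M j ≤ ((M : ℝ) - 1) * fi (j - 1) := by
  have hj' : (1 : ℝ) ≤ j := by exact_mod_cast hj
  have ha' : (a : ℝ) + 1 ≤ M := by exact_mod_cast ha
  have hM' : (2 : ℝ) ≤ M := by exact_mod_cast hM
  have h0 := N11_fi_pos j
  have e := N11_fi_succ' j hj
  unfold dev
  rw [if_neg (by omega)]
  have h1 : max (max ((j : ℝ) * a - (M - 1)) (j - 1)) 0 ≤ ((M : ℝ) - 1) * ((j : ℝ) - 1) := by
    refine max_le (max_le ?_ ?_) ?_
    · nlinarith
    · nlinarith
    · exact mul_nonneg (by linarith) (by linarith)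
  refine (mul_le_mul_of_nonneg_right h1 h0.le).trans ?_
  rw [← e]
  have h2 : ((M : ℝ) - 1) * ((j : ℝ) - 1) ≤ ((M : ℝ) - 1) * j :=
    mul_le_mul_of_nonneg_left (by linarith) (by linarith)
  calc ((M : ℝ) - 1) * ((j : ℝ) - 1) * fi j ≤ ((M : ℝ) - 1) * j * fi j :=
        mul_le_mul_of_nonneg_right h2 h0.le
    _ = _ := by ring

private theorem N11_fi_anti (j : ℕ) (hj : 2 ≤ j) : fi (j - 1) ≤ fi (j - 2) := by
  have h1 := N11_fi_pos (j - 1)
  have e1 := N11_fi_succ j hj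
  have hj' : (2 : ℝ) ≤ j := by exact_mod_cast hj
  rw [← e1]
  nlinarith

private theorem N11_Gev (D x j k : ℕ) (hj : 2 ≤ j) (hk : k + 2 ≤ D) (h3 : 3 * k ≤ D) :
    Gev D 0 x j k ≤ 3 * fi (j - 2) := by
  have hk' : (k : ℝ) + 2 ≤ D := by exact_mod_cast hk
  have h3' : 3 * (k : ℝ) ≤ D := by exact_mod_cast h3
  have hk0 : (0 : ℝ) ≤ k := Nat.cast_nonneg k
  have hx0 : (0 : ℝ) ≤ x := Nat.cast_nonneg x
  have h2 := N11_fi_pos (j - 2)
  have h1 := N11_dev (D + k) (2 * D - 1 + 0) j (by omega) (by omega) (by omega)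
  have h0 := N11_dev0 (D + k) (2 * D - 1 + 0) j
  have e : ((2 * D - 1 + 0 : ℕ) : ℝ) = 2 * (D : ℝ) - 1 := by
    rw [Nat.add_zero, Nat.cast_sub (by omega)]; push_cast; ring
  rw [e] at h1
  have h4 : dev (D + k) (2 * D - 1 + 0) j ≤ (2 * (D : ℝ) - 2) * fi (j - 2) := by
    refine h1.trans ?_
    have := N11_fi_anti j hj
    nlinarith
  unfold Gev
  simp only [Nat.cast_zero, add_zero] at h0 h4 ⊢
  have hm : (0 : ℝ) < 2 * (D : ℝ) - 1 + x := by linarith
  have ht : (0 : ℝ) < (D : ℝ) - k + 1 := by linarith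
  rw [mul_div_assoc]
  have h5 : (2 * (D : ℝ) - 1 + x - 2 * k) / (2 * (D : ℝ) - 1 + x) ≤ 1 :=
    div_le_one_of_le₀ (by linarith) hm.le
  rw [div_le_iff₀ ht]
  refine (mul_le_of_le_one_right h0 h5).trans (h4.trans ?_)
  calc (2 * (D : ℝ) - 2) * fi (j - 2) ≤ (3 * ((D : ℝ) - k + 1)) * fi (j - 2) :=
        mul_le_mul_of_nonneg_right (by linarith) h2.le
    _ = _ := by ring

private theorem N11_God (D x j k : ℕ) (hj : 2 ≤ j) (hk : k + 2 ≤ D) (h3 : 3 * k ≤ D) :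
    God D 0 x j k ≤ 3 * fi (j - 2) := by
  have hk' : (k : ℝ) + 2 ≤ D := by exact_mod_cast hk
  have h3' : 3 * (k : ℝ) ≤ D := by exact_mod_cast h3
  have hk0 : (0 : ℝ) ≤ k := Nat.cast_nonneg k
  have hx0 : (0 : ℝ) ≤ x := Nat.cast_nonneg x
  have h2 := N11_fi_pos (j - 2)
  have h1 := N11_dev (D + k + 1) (2 * D + 0) (j - 1) (by omega) (by omega) (by omega)
  have h0 := N11_dev0 (D + k + 1) (2 * D + 0) (j - 1)
  have e : ((2 * D + 0 : ℕ) : ℝ) = 2 * (D : ℝ) := by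
    rw [Nat.add_zero]; push_cast; ring
  have e1 : j - 1 - 1 = j - 2 := by omega
  rw [e, e1] at h1
  unfold God
  simp only [Nat.cast_zero, add_zero] at h0 h1 ⊢
  have hm : (0 : ℝ) < 2 * (D : ℝ) + x := by linarith
  have ht : (0 : ℝ) < (D : ℝ) - k + 1 := by linarith
  rw [mul_div_assoc]
  have h5 : (2 * (D : ℝ) - 1 + x - 2 * k) / (2 * (D : ℝ) + x) ≤ 1 :=
    div_le_one_of_le₀ (by linarith) hm.le
  rw [div_le_iff₀ ht]
  refine (mul_le_of_le_one_right h0 h5).trans (h1.trans ?_)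
  calc (2 * (D : ℝ) - 1) * fi (j - 2) ≤ (3 * ((D : ℝ) - k + 1)) * fi (j - 2) :=
        mul_le_mul_of_nonneg_right (by linarith) h2.le
    _ = _ := by ring

private theorem N11_P2 (D e : ℕ) (he : 1 ≤ e) :
    0 ≤ P2 D e ∧ P2 D e ≤ 1 / ((e : ℝ) * (2 * e - 1)) := by
  have h1 : (1 : ℝ) ≤ e := by exact_mod_cast he
  have h2 : 0 < 2 * (e : ℝ) - 1 := by linarith
  have h3 : 0 < (e : ℝ) * (2 * e - 1) := by positivity
  unfold P2
  split_ifs
  · refine ⟨by positivity, ?_⟩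
    refine one_div_le_one_div_of_le h3 ?_
    nlinarith
  · exact ⟨by positivity, le_rfl⟩
  · exact ⟨le_rfl, by positivity⟩

private theorem N11_tele (n : ℕ) :
    ∑ k ∈ Icc 1 n, 2 / ((k : ℝ) * (k + 1)) = 2 - 2 / ((n : ℝ) + 1) := by
  induction n with
  | zero => simp
  | succ n ih =>
    rw [sum_Icc_succ_top (by omega), ih]
    have : (0 : ℝ) < (n : ℝ) + 1 := by positivity
    have : (0 : ℝ) < (n : ℝ) + 1 + 1 := by positivity
    push_cast
    field_simp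
    ring

private theorem N11_prod (g p r F P : ℝ) (hg : g ≤ F) (hF : 0 ≤ F) (hp : p ≤ P) (hp0 : 0 ≤ p)
    (hr : r ≤ 1) (hr0 : 0 ≤ r) : g * p * r ≤ F * P := by
  have h1 : g * p ≤ F * P := by nlinarith
  have h2 : 0 ≤ F * P := mul_nonneg hF (hp0.trans hp)
  nlinarith

private theorem N11_DcB (D x j : ℕ) (hD : 2 ≤ D) (hj : 2 ≤ j) :
    DcB D 0 x j ≤ 2 * fi (j - 2) := by
  have h2 := N11_fi_pos (j - 2)
  have hD' : (2 : ℝ) ≤ D := by exact_mod_cast hD
  have hx0 : (0 : ℝ) ≤ x := Nat.cast_nonneg x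
  have h1 : DcB D 0 x j ≤ ∑ k ∈ Icc 1 (D - 2), 2 / ((k : ℝ) * (k + 1)) * fi (j - 2) := by
    unfold DcB
    refine sum_le_sum fun k hk => ?_
    rw [mem_Icc] at hk
    have hk1 : (1 : ℝ) ≤ k := by exact_mod_cast hk.1
    have hkD : (k : ℝ) + 2 ≤ D := by exact_mod_cast (by omega : k + 2 ≤ D)
    rw [Nat.cast_zero, add_zero, add_zero]
    have r1 : ((D : ℝ) + k - 1) / (2 * D - 2 + x) ≤ 1 :=
      div_le_one_of_le₀ (by linarith) (by linarith)
    have r1' : 0 ≤ ((D : ℝ) + k - 1) / (2 * D - 2 + x) := div_nonneg (by linarith) (by linarith)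
    have r2 : ((D : ℝ) + k) / (2 * D - 1 + x) ≤ 1 :=
      div_le_one_of_le₀ (by linarith) (by linarith)
    have r2' : 0 ≤ ((D : ℝ) + k) / (2 * D - 1 + x) := div_nonneg (by linarith) (by linarith)
    have p1 := N11_P2 (D - k) (2 * k) (by omega)
    have p2 := N11_P2 (D - k) (2 * k + 1) (by omega)
    push_cast at p1 p2
    have hF : 0 ≤ 3 * fi (j - 2) := by linarith
    have q1 : 0 < 2 * (k : ℝ) * (2 * (2 * k) - 1) := by
      have : 0 < 2 * (2 * (k : ℝ)) - 1 := by linarith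
      positivity
    have q2 : 0 < (2 * (k : ℝ) + 1) * (2 * (2 * k + 1) - 1) := by
      have : 0 < 2 * (2 * (k : ℝ) + 1) - 1 := by linarith
      positivity
    have t1 : Gev D 0 x j k * P2 (D - k) (2 * k) * (((D : ℝ) + k - 1) / (2 * D - 2 + x)) ≤
        3 * fi (j - 2) * (1 / (2 * (k : ℝ) * (2 * (2 * k) - 1))) := by
      rcases Nat.lt_or_ge D (3 * k) with h | h
      · have : P2 (D - k) (2 * k) = 0 := by
          unfold P2
          rw [if_neg (by omega), if_neg (by omega)]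
        rw [this, mul_zero, zero_mul]
        positivity
      · exact N11_prod _ _ _ _ _ (N11_Gev D x j k hj (by omega) h) hF p1.2 p1.1 r1 r1'
    have t2 : God D 0 x j k * P2 (D - k) (2 * k + 1) * (((D : ℝ) + k) / (2 * D - 1 + x)) ≤
        3 * fi (j - 2) * (1 / ((2 * (k : ℝ) + 1) * (2 * (2 * k + 1) - 1))) := by
      rcases Nat.lt_or_ge D (3 * k) with h | h
      · have : P2 (D - k) (2 * k + 1) = 0 := by
          unfold P2
          rw [if_neg (by omega), if_neg (by omega)]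
        rw [this, mul_zero, zero_mul]
        positivity
      · exact N11_prod _ _ _ _ _ (N11_God D x j k hj (by omega) h) hF p2.2 p2.1 r2 r2'
    have u0 : 0 < (k : ℝ) * (k + 1) := by positivity
    have u1 : 1 / (2 * (k : ℝ) * (2 * (2 * k) - 1)) ≤ 1 / 3 * (1 / ((k : ℝ) * (k + 1))) := by
      rw [div_mul_div_comm, div_le_div_iff₀ q1 (by positivity)]
      nlinarith
    have u2 : 1 / ((2 * (k : ℝ) + 1) * (2 * (2 * k + 1) - 1)) ≤
        1 / 3 * (1 / ((k : ℝ) * (k + 1))) := by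
      rw [div_mul_div_comm, div_le_div_iff₀ q2 (by positivity)]
      nlinarith
    have v1 := mul_le_mul_of_nonneg_left u1 hF
    have v2 := mul_le_mul_of_nonneg_left u2 hF
    have e : 2 / ((k : ℝ) * (k + 1)) * fi (j - 2) =
        3 * fi (j - 2) * (1 / 3 * (1 / ((k : ℝ) * (k + 1)))) +
        3 * fi (j - 2) * (1 / 3 * (1 / ((k : ℝ) * (k + 1)))) := by ring
    rw [e]
    linarith
  refine h1.trans ?_
  rw [← sum_mul, N11_tele]
  refine mul_le_mul_of_nonneg_right ?_ h2.le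
  have : (0 : ℝ) ≤ 2 / (((D - 2 : ℕ) : ℝ) + 1) := by positivity
  linarith

/-- `gmD ≤ (2 D) fi (j-2)` and a little more; `phD_le`; Abel summation with `Rd_sq`:
`∑ (φ_k - φ_{k-1}) R_k ≤ ∑ φ_k (ρ_k - ρ_{k+1}) + φ_n ρ_{n+1}`, `ρ_k = 9/4 ((D-k)/D)²`;
for `DcB`: `∑ P2 ≤ 1`. -/
theorem Dc_univ (D x j : ℕ) (hD : 2 ≤ D) (hj : 2 ≤ j) : Dc D 0 x j ≤ 60 * fi (j - 2) := by
  rw [Dc_split]
  have h1 := N11_DcA D x j hD hj
  have h2 := N11_DcB D x j hD hj
  have h3 := N11_fi_pos (j - 2)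
  linarith

private theorem N11_rho (a b : ℕ) : 0 < rho a b := by
  unfold rho
  positivity

/-- `Hw ≤ (X + 1) (d + e) / (d (d + 2))` -/
private theorem N11_Hw (x J n d e : ℕ) (hd : 1 ≤ d) (hn : e ≤ n) (hn1 : 1 ≤ n) :
    0 ≤ Hw 0 x J n d e ∧
    Hw 0 x J n d e ≤ ((x : ℝ) + J + 1) * (((d : ℝ) + e) / (d * (d + 2))) := by
  have hd' : (1 : ℝ) ≤ d := by exact_mod_cast hd
  have hn' : (e : ℝ) ≤ n := by exact_mod_cast hn
  have hn1' : (1 : ℝ) ≤ n := by exact_mod_cast hn1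
  have he0 : (0 : ℝ) ≤ e := Nat.cast_nonneg e
  have hr := N11_rho (d + e) d
  have hr1 : 1 ≤ rho d d := by
    unfold rho
    rw [le_div_iff₀ (by positivity)]
    nlinarith
  have hm0 : 0 ≤ max 0 (1 - rho (d + e) d) := le_max_left _ _
  have hm1 : max 0 (1 - rho (d + e) d) ≤ 1 := max_le zero_le_one (by linarith)
  have hq : 0 ≤ ((n : ℝ) - e) / n := div_nonneg (by linarith) (by linarith)
  have hq1 : ((n : ℝ) - e) / n ≤ 1 := div_le_one_of_le₀ (by linarith) (by linarith)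
  have hX : 0 ≤ (x : ℝ) + J + 1 := by positivity
  have hde : 0 ≤ ((d : ℝ) + e) / d := by positivity
  unfold Hw
  simp only [Nat.cast_zero, add_zero]
  refine ⟨by positivity, ?_⟩
  have h1 : max 0 (1 - rho (d + e) d) / rho d d ≤ 1 := div_le_one_of_le₀ (by linarith) (by linarith)
  have h1' : 0 ≤ max 0 (1 - rho (d + e) d) / rho d d := div_nonneg hm0 (by linarith)
  have e1 : ((x : ℝ) + J + 1) * max 0 (1 - rho (d + e) d) / rho d d * (((d : ℝ) + e) / d) *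
      (((n : ℝ) - e) / n) / ((d : ℝ) + 2) =
      (((x : ℝ) + J + 1) * (((d : ℝ) + e) / d / ((d : ℝ) + 2))) *
      ((max 0 (1 - rho (d + e) d) / rho d d) * (((n : ℝ) - e) / n)) := by
    field_simp
  rw [e1]
  have e2 : ((x : ℝ) + J + 1) * (((d : ℝ) + e) / (d * (d + 2))) =
      ((x : ℝ) + J + 1) * (((d : ℝ) + e) / d / ((d : ℝ) + 2)) := by
    rw [div_div]
  rw [e2]
  refine mul_le_of_le_one_right (by positivity) ?_
  exact mul_le_one₀ h1 hq hq1

private theorem N11_Hh (D x J n par k : ℕ) (hk : k + 3 ≤ D)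
    (hn : 2 * k + par ≤ n) (hn1 : 1 ≤ n) :
    0 ≤ Hh D 0 x J n par k ∧
    Hh D 0 x J n par k ≤ ((x : ℝ) + J + 1) * (((D : ℝ) - 1 + k + par) /
      (((D : ℝ) - 1 - k) * ((D : ℝ) + 1 - k))) := by
  have hX : 0 ≤ (x : ℝ) + J + 1 := by positivity
  have hp0 : (0 : ℝ) ≤ par := Nat.cast_nonneg par
  induction k with
  | zero =>
    have h := N11_Hw x J n (D - 1) par (by omega) (by omega) hn1
    have e : ((D - 1 : ℕ) : ℝ) = (D : ℝ) - 1 := by rw [Nat.cast_sub (by omega)]; push_cast; ring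
    rw [e] at h
    unfold Hh
    refine ⟨h.1, h.2.trans (le_of_eq ?_)⟩
    push_cast
    congr 2 <;> ring
  | succ k ih =>
    have ih := ih (by omega) (by omega)
    have hkD : (k : ℝ) + 1 + 3 ≤ D := by exact_mod_cast hk
    have hk0 : (0 : ℝ) ≤ k := Nat.cast_nonneg k
    have h := N11_Hw x J n (D - 1 - (k + 1)) (2 * (k + 1) + par) (by omega) hn hn1
    have e : ((D - 1 - (k + 1) : ℕ) : ℝ) = (D : ℝ) - 1 - (k + 1) := by
      rw [Nat.cast_sub (by omega), Nat.cast_sub (by omega)]; push_cast; ring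
    rw [e] at h
    unfold Hh
    refine ⟨le_max_of_le_left ih.1, max_le ?_ ?_⟩
    · refine ih.2.trans (mul_le_mul_of_nonneg_left ?_ hX)
      push_cast
      refine div_le_div₀ (by linarith) (by linarith) ?_ ?_
      · exact mul_pos (by linarith) (by linarith)
      · exact mul_le_mul (by linarith) (by linarith) (by linarith) (by linarith)
    · refine h.2.trans (mul_le_mul_of_nonneg_left (le_of_eq ?_) hX)
      push_cast
      congr 1 <;> ring

private theorem N11_Ps (a n : ℕ) (ha : 2 ≤ a) (hn : a + 1 ≤ n) :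
    0 ≤ Ps a n ∧ Ps a n ≤ Ps (a + 1) n := by
  have ha' : (2 : ℝ) ≤ a := by exact_mod_cast ha
  have hn' : (a : ℝ) + 1 ≤ n := by exact_mod_cast hn
  unfold Ps
  push_cast
  refine ⟨div_nonneg (mul_nonneg (by linarith) (by linarith))
    (mul_nonneg (by linarith) (by linarith)), ?_⟩
  refine div_le_div₀ (mul_nonneg (by linarith) (by linarith)) ?_
    (mul_pos (by linarith) (by linarith)) ?_
  · nlinarith
  · exact mul_le_mul_of_nonneg_right (by linarith) (by linarith)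

/-- `φ_k ≤ 4 D² / (d (d+2))`, `d = D - 1 - k`. -/
private theorem N11_ph2 (D x J par k : ℕ) (hp : par ≤ 1) (hk : k + 3 ≤ D) :
    Hh D 0 x J (2 * D - 2 + 0 + x + J + par) par k *
      Ps (D - 1 + k + par) (2 * D - 2 + 0 + x + J + par) ≤
      4 * (D : ℝ) ^ 2 / (((D : ℝ) - 1 - k) * ((D : ℝ) + 1 - k)) := by
  have hkD : (k : ℝ) + 3 ≤ D := by exact_mod_cast hk
  have hk0 : (0 : ℝ) ≤ k := Nat.cast_nonneg k
  have hx0 : (0 : ℝ) ≤ x := Nat.cast_nonneg x
  have hJ0 : (0 : ℝ) ≤ J := Nat.cast_nonneg J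
  have hp0 : (0 : ℝ) ≤ par := Nat.cast_nonneg par
  have hp1 : (par : ℝ) ≤ 1 := by exact_mod_cast hp
  have h1 := N11_Hh D x J (2 * D - 2 + 0 + x + J + par) par k hk (by omega) (by omega)
  have h2 := N11_Ps (D - 1 + k + par) (2 * D - 2 + 0 + x + J + par) (by omega) (by omega)
  have e1 : ((D - 1 + k + par : ℕ) : ℝ) = (D : ℝ) - 1 + k + par := by
    rw [Nat.cast_add, Nat.cast_add, Nat.cast_sub (by omega)]; push_cast; ring
  have e2 : ((2 * D - 2 + 0 + x + J + par : ℕ) : ℝ) = 2 * (D : ℝ) - 2 + x + J + par := by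
    rw [Nat.cast_add, Nat.cast_add, Nat.cast_add, Nat.cast_add, Nat.cast_sub (by omega)]
    push_cast; ring
  have hP : Ps (D - 1 + k + par) (2 * D - 2 + 0 + x + J + par) =
      ((D : ℝ) - 2 + k + par) * ((D : ℝ) - 3 + k + par) /
        (((D : ℝ) - k + x + J) * (2 * (D : ℝ) - 3 + x + J + par)) := by
    unfold Ps
    rw [e1, e2]
    congr 1 <;> ring
  have hd : 0 < ((D : ℝ) - 1 - k) * ((D : ℝ) + 1 - k) := mul_pos (by linarith) (by linarith)
  have hb1 : 0 < (D : ℝ) - k + x + J := by linarith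
  have hb2 : 0 < 2 * (D : ℝ) - 3 + x + J + par := by linarith
  refine (mul_le_mul_of_nonneg_right h1.2 h2.1).trans ?_
  rw [hP]
  have e3 : ((x : ℝ) + J + 1) * (((D : ℝ) - 1 + k + par) /
      (((D : ℝ) - 1 - k) * ((D : ℝ) + 1 - k))) *
      (((D : ℝ) - 2 + k + par) * ((D : ℝ) - 3 + k + par) /
        (((D : ℝ) - k + x + J) * (2 * (D : ℝ) - 3 + x + J + par))) =
      (((x : ℝ) + J + 1) / ((D : ℝ) - k + x + J)) *
      (((D : ℝ) - 1 + k + par) / (2 * (D : ℝ) - 3 + x + J + par)) *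
      ((((D : ℝ) - 2 + k + par) * ((D : ℝ) - 3 + k + par)) /
      (((D : ℝ) - 1 - k) * ((D : ℝ) + 1 - k))) := by
    have hd1 : (D : ℝ) - 1 - k ≠ 0 := by
      have : 0 < (D : ℝ) - 1 - k := by linarith
      exact this.ne'
    have hd2 : (D : ℝ) + 1 - k ≠ 0 := by
      have : 0 < (D : ℝ) + 1 - k := by linarith
      exact this.ne'
    field_simp
  rw [e3]
  have h3 : ((x : ℝ) + J + 1) / ((D : ℝ) - k + x + J) ≤ 1 :=
    div_le_one_of_le₀ (by linarith) hb1.le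
  have h4 : ((D : ℝ) - 1 + k + par) / (2 * (D : ℝ) - 3 + x + J + par) ≤ 1 :=
    div_le_one_of_le₀ (by linarith) hb2.le
  have h4' : 0 ≤ ((D : ℝ) - 1 + k + par) / (2 * (D : ℝ) - 3 + x + J + par) :=
    div_nonneg (by linarith) hb2.le
  have h5 : (((D : ℝ) - 2 + k + par) * ((D : ℝ) - 3 + k + par)) /
      (((D : ℝ) - 1 - k) * ((D : ℝ) + 1 - k)) ≤
      4 * (D : ℝ) ^ 2 / (((D : ℝ) - 1 - k) * ((D : ℝ) + 1 - k)) := by
    refine div_le_div_of_nonneg_right ?_ hd.le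
    have : ((D : ℝ) - 2 + k + par) * ((D : ℝ) - 3 + k + par) ≤ (2 * (D : ℝ)) * (2 * (D : ℝ)) :=
      mul_le_mul (by linarith) (by linarith) (by linarith) (by linarith)
    linarith
  have h5' : 0 ≤ (((D : ℝ) - 2 + k + par) * ((D : ℝ) - 3 + k + par)) /
      (((D : ℝ) - 1 - k) * ((D : ℝ) + 1 - k)) :=
    div_nonneg (mul_nonneg (by linarith) (by linarith)) hd.le
  exact (mul_le_of_le_one_left h5' (mul_le_one₀ h3 h4' h4)).trans h5

private theorem N11_tele2 (n : ℕ) :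
    ∑ k ∈ range n, 9 / (((k : ℝ) + 1) * (k + 2)) = 9 - 9 / ((n : ℝ) + 1) := by
  induction n with
  | zero => simp
  | succ n ih =>
    rw [sum_range_succ, ih]
    have : (0 : ℝ) < (n : ℝ) + 1 := by positivity
    have : (0 : ℝ) < (n : ℝ) + 2 := by positivity
    have e : ((n + 1 : ℕ) : ℝ) + 1 = (n : ℝ) + 2 := by push_cast; ring
    rw [e]
    field_simp
    ring

private theorem N11_P2s (D e k par : ℕ) (he : e = 2 * k + par) (hp : par ≤ 1) :
    0 ≤ P2s D e ∧ P2s D e ≤ 1 / (((k : ℝ) + 1) * (k + 2)) := by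
  have hk0 : (0 : ℝ) ≤ k := Nat.cast_nonneg k
  unfold P2s
  split_ifs
  · rcases Nat.eq_zero_or_pos e with h | h
    · rw [h]
      simp
      positivity
    · have h1 : (1 : ℝ) ≤ e := by exact_mod_cast h
      have h2 : 0 < 2 * (e : ℝ) - 1 := by linarith
      refine ⟨by positivity, ?_⟩
      refine one_div_le_one_div_of_le (by positivity) ?_
      have he' : (e : ℝ) = 2 * k + par := by rw [he]; push_cast; ring
      interval_cases par
      · have hk1 : (1 : ℝ) ≤ k := by exact_mod_cast (by omega : 1 ≤ k)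
        rw [he']
        push_cast
        nlinarith
      · rw [he']
        push_cast
        nlinarith
  · exact ⟨le_rfl, by positivity⟩

private theorem N11_HpA (D x J par : ℕ) (hp : par ≤ 1) :
    ∑ k ∈ range (D - 2), Hw 0 x J (2 * D - 2 + 0 + x + J + par) (D - 1 - k) (2 * k + par) *
      P2s (D - 1 - k) (2 * k + par) *
        (((D : ℝ) - 2 + k + par) / (((2 * D - 2 + 0 + x + J + par : ℕ) : ℝ) - 1)) ≤ 9 := by
  have h0 : ∑ k ∈ range (D - 2), 9 / (((k : ℝ) + 1) * (k + 2)) ≤ 9 := by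
    rw [N11_tele2]
    have : (0 : ℝ) ≤ 9 / (((D - 2 : ℕ) : ℝ) + 1) := by positivity
    linarith
  refine (sum_le_sum fun k hk => ?_).trans h0
  rw [mem_range] at hk
  have hkD : (k : ℝ) + 3 ≤ D := by exact_mod_cast (by omega : k + 3 ≤ D)
  have hk0 : (0 : ℝ) ≤ k := Nat.cast_nonneg k
  have hx0 : (0 : ℝ) ≤ x := Nat.cast_nonneg x
  have hJ0 : (0 : ℝ) ≤ J := Nat.cast_nonneg J
  have hp0 : (0 : ℝ) ≤ par := Nat.cast_nonneg par
  have hp1 : (par : ℝ) ≤ 1 := by exact_mod_cast hp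
  have e2 : ((2 * D - 2 + 0 + x + J + par : ℕ) : ℝ) = 2 * (D : ℝ) - 2 + x + J + par := by
    rw [Nat.cast_add, Nat.cast_add, Nat.cast_add, Nat.cast_add, Nat.cast_sub (by omega)]
    push_cast; ring
  have hP := N11_P2s (D - 1 - k) (2 * k + par) k par rfl hp
  rcases Nat.lt_or_ge (D - 1 - k) (2 * k + par) with h | h
  · have : P2s (D - 1 - k) (2 * k + par) = 0 := by
      unfold P2s
      rw [if_neg (by omega)]
    rw [this, mul_zero, zero_mul]
    positivity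
  · have h1 := N11_Hw x J (2 * D - 2 + 0 + x + J + par) (D - 1 - k) (2 * k + par) (by omega)
      (by omega) (by omega)
    have e3 : ((D - 1 - k : ℕ) : ℝ) = (D : ℝ) - 1 - k := by
      rw [Nat.cast_sub (by omega), Nat.cast_sub (by omega)]; push_cast; ring
    have h3k : 2 * (k : ℝ) + par ≤ (D : ℝ) - 1 - k := by
      rw [← e3]; exact_mod_cast h
    rw [e3] at h1
    rw [e2]
    have hb2 : 0 < 2 * (D : ℝ) - 2 + x + J + par - 1 := by linarith
    have hd1 : 0 < (D : ℝ) - 1 - k := by linarith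
    have hd2 : 0 < (D : ℝ) - 1 - k + 2 := by linarith
    have hr0 : 0 ≤ ((D : ℝ) - 2 + k + par) / (2 * (D : ℝ) - 2 + x + J + par - 1) :=
      div_nonneg (by linarith) hb2.le
    have h2 : Hw 0 x J (2 * D - 2 + 0 + x + J + par) (D - 1 - k) (2 * k + par) *
        (((D : ℝ) - 2 + k + par) / (2 * (D : ℝ) - 2 + x + J + par - 1)) ≤ 9 := by
      refine (mul_le_mul_of_nonneg_right h1.2 hr0).trans ?_
      push_cast
      have e4 : ((x : ℝ) + J + 1) * (((D : ℝ) - 1 - k + (2 * k + par)) /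
          (((D : ℝ) - 1 - k) * ((D : ℝ) - 1 - k + 2))) *
          (((D : ℝ) - 2 + k + par) / (2 * (D : ℝ) - 2 + x + J + par - 1)) =
          (((x : ℝ) + J + 1) / (2 * (D : ℝ) - 2 + x + J + par - 1)) *
          ((((D : ℝ) - 1 + k + par) * ((D : ℝ) - 2 + k + par)) /
          (((D : ℝ) - 1 - k) * ((D : ℝ) - 1 - k + 2))) := by
        have : (D : ℝ) - 1 - k + (2 * k + par) = (D : ℝ) - 1 + k + par := by ring
        rw [this]
        have a1 := hb2.ne'
        have a2 := hd1.ne'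
        have a3 := hd2.ne'
        field_simp
      rw [e4]
      have h3 : ((x : ℝ) + J + 1) / (2 * (D : ℝ) - 2 + x + J + par - 1) ≤ 1 :=
        div_le_one_of_le₀ (by linarith) hb2.le
      have h5' : 0 ≤ (((D : ℝ) - 1 + k + par) * ((D : ℝ) - 2 + k + par)) /
          (((D : ℝ) - 1 - k) * ((D : ℝ) - 1 - k + 2)) :=
        div_nonneg (mul_nonneg (by linarith) (by linarith)) (mul_pos hd1 hd2).le
      refine (mul_le_of_le_one_left h5' h3).trans ?_
      rw [div_le_iff₀ (mul_pos hd1 hd2)]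
      have a1 : ((D : ℝ) - 1 + k + par) * ((D : ℝ) - 2 + k + par) ≤
          (2 * ((D : ℝ) - 1)) * (2 * ((D : ℝ) - 1)) :=
        mul_le_mul (by linarith) (by linarith) (by linarith) (by linarith)
      have a2 : (2 / 3 * ((D : ℝ) - 1)) * (2 / 3 * ((D : ℝ) - 1)) ≤
          ((D : ℝ) - 1 - k) * ((D : ℝ) - 1 - k + 2) :=
        mul_le_mul (by linarith) (by linarith) (by linarith) (by linarith)
      linarith
    have h2' : 0 ≤ Hw 0 x J (2 * D - 2 + 0 + x + J + par) (D - 1 - k) (2 * k + par) *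
        (((D : ℝ) - 2 + k + par) / (2 * (D : ℝ) - 2 + x + J + par - 1)) := mul_nonneg h1.1 hr0
    calc Hw 0 x J (2 * D - 2 + 0 + x + J + par) (D - 1 - k) (2 * k + par) *
        P2s (D - 1 - k) (2 * k + par) *
        (((D : ℝ) - 2 + k + par) / (2 * (D : ℝ) - 2 + x + J + par - 1)) =
        Hw 0 x J (2 * D - 2 + 0 + x + J + par) (D - 1 - k) (2 * k + par) *
        (((D : ℝ) - 2 + k + par) / (2 * (D : ℝ) - 2 + x + J + par - 1)) *
        P2s (D - 1 - k) (2 * k + par) := by ring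
      _ ≤ 9 * (1 / (((k : ℝ) + 1) * (k + 2))) := mul_le_mul h2 hP.2 hP.1 (by norm_num)
      _ = _ := by ring

private theorem N11_HpB (D x J par n : ℕ) (hD : 3 ≤ D) (hp : par ≤ 1)
    (hn : n = 2 * D - 2 + 0 + x + J + par) :
    ∑ k ∈ range (D - 2), (Hh D 0 x J n par k * Ps (D - 1 + k + par) n -
        (if k = 0 then 0 else Hh D 0 x J n par (k - 1) * Ps (D - 2 + k + par) n)) *
       Rd (D - 1 - k) (D - 1 + k + par) ≤ 108 := by
  have hD' : (3 : ℝ) ≤ D := by exact_mod_cast hD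
  have hD1 : (0 : ℝ) < (D : ℝ) - 1 := by linarith
  have e0 : ((D - 1 : ℕ) : ℝ) = (D : ℝ) - 1 := by rw [Nat.cast_sub (by omega)]; push_cast; ring
  have eN : ((D - 2 : ℕ) : ℝ) = (D : ℝ) - 2 := by rw [Nat.cast_sub (by omega)]; push_cast; ring
  have key : ∀ k, (if k + 1 = 0 then (0 : ℝ) else
      Hh D 0 x J n par (k + 1 - 1) * Ps (D - 2 + (k + 1) + par) n) =
      Hh D 0 x J n par k * Ps (D - 1 + k + par) n := by
    intro k
    rw [if_neg (by omega), Nat.add_sub_cancel]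
    have : D - 2 + (k + 1) + par = D - 1 + k + par := by omega
    rw [this]
  have hph : ∀ k, k + 3 ≤ D → Hh D 0 x J n par k * Ps (D - 1 + k + par) n ≤
      4 * (D : ℝ) ^ 2 / (((D : ℝ) - 1 - k) * ((D : ℝ) + 1 - k)) := by
    intro k hk
    rw [hn]
    exact N11_ph2 D x J par k hp hk
  have h := N11_abel' (fun k => if k = 0 then (0 : ℝ) else
      Hh D 0 x J n par (k - 1) * Ps (D - 2 + k + par) n)
    (fun k => Rd (D - 1 - k) (D - 1 + k + par))
    (fun k => 4 * (((D : ℝ) - 1 - k) / ((D : ℝ) - 1)) ^ 3) (D - 2)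
    (48 * (D : ℝ) ^ 2 / ((D : ℝ) - 1) ^ 3) (by simp) ?_ ?_ ?_ ?_
  · simp only [key] at h
    refine h.trans ?_
    rw [eN, mul_div_assoc', div_le_iff₀ (by positivity)]
    have e3 : (D : ℝ) - 2 + 1 = (D : ℝ) - 1 := by ring
    rw [e3]
    have h5 : 48 * (D : ℝ) ^ 2 ≤ 108 * ((D : ℝ) - 1) ^ 2 := by nlinarith
    nlinarith [mul_le_mul_of_nonneg_right h5 hD1.le]
  · intro k hk
    have hPn : ∀ i, i + 3 ≤ D → 0 ≤ Ps (D - 1 + i + par) n ∧
        Ps (D - 1 + i + par) n ≤ Ps (D - 1 + i + par + 1) n := fun i hi =>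
      N11_Ps (D - 1 + i + par) n (by omega) (by omega)
    have hHn : ∀ i, i + 3 ≤ D → 0 ≤ Hh D 0 x J n par i := fun i hi =>
      (N11_Hh D x J n par i hi (by omega) (by omega)).1
    rcases Nat.eq_zero_or_pos k with h0 | h0
    · subst h0
      show (if (0 : ℕ) = 0 then (0 : ℝ) else _) ≤ (if 0 + 1 = 0 then (0 : ℝ) else
        Hh D 0 x J n par (0 + 1 - 1) * Ps (D - 2 + (0 + 1) + par) n)
      rw [key, if_pos rfl]
      exact mul_nonneg (hHn 0 (by omega)) (hPn 0 (by omega)).1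
    · obtain ⟨i, rfl⟩ : ∃ i, k = i + 1 := ⟨k - 1, by omega⟩
      show (if i + 1 = 0 then (0 : ℝ) else
        Hh D 0 x J n par (i + 1 - 1) * Ps (D - 2 + (i + 1) + par) n) ≤
        (if i + 1 + 1 = 0 then (0 : ℝ) else
        Hh D 0 x J n par (i + 1 + 1 - 1) * Ps (D - 2 + (i + 1 + 1) + par) n)
      rw [key, key]
      have e4 : D - 1 + (i + 1) + par = D - 1 + i + par + 1 := by omega
      rw [e4]
      refine mul_le_mul ?_ (hPn i (by omega)).2 (hPn i (by omega)).1 (hHn (i + 1) (by omega))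
      show _ ≤ max _ _
      exact le_max_left _ _
  · intro k hk
    have h1 := Rd_cube (D - 1) k (by omega)
    rw [e0] at h1
    exact (Rd_anti (D - 1 - k) (D - 1 + k) (D - 1 + k + par) (by omega)).trans h1
  · intro k hk
    have hkD : (k : ℝ) + 3 ≤ D := by exact_mod_cast (by omega : k + 3 ≤ D)
    have hk0 : (0 : ℝ) ≤ k := Nat.cast_nonneg k
    show (if k + 1 = 0 then (0 : ℝ) else
      Hh D 0 x J n par (k + 1 - 1) * Ps (D - 2 + (k + 1) + par) n) * _ ≤ _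
    rw [key]
    push_cast
    have hd : (2 : ℝ) ≤ (D : ℝ) - 1 - k := by linarith
    have e5 : 4 * (((D : ℝ) - 1 - k) / ((D : ℝ) - 1)) ^ 3 -
        4 * (((D : ℝ) - 1 - (k + 1)) / ((D : ℝ) - 1)) ^ 3 =
        4 * (((D : ℝ) - 1 - k) ^ 3 - ((D : ℝ) - 1 - k - 1) ^ 3) / ((D : ℝ) - 1) ^ 3 := by
      have : (D : ℝ) - 1 - (k + 1) = (D : ℝ) - 1 - k - 1 := by ring
      rw [this, div_pow, div_pow]
      ring
    rw [e5]
    obtain ⟨d, hd'⟩ : ∃ d : ℝ, d = (D : ℝ) - 1 - k := ⟨_, rfl⟩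
    have h1 := hph k (by omega)
    have e6 : (D : ℝ) + 1 - k = (D : ℝ) - 1 - k + 2 := by ring
    rw [e6, ← hd'] at h1
    rw [← hd'] at hd ⊢
    have h2 : 0 ≤ 4 * (d ^ 3 - (d - 1) ^ 3) / ((D : ℝ) - 1) ^ 3 := by
      refine div_nonneg ?_ (by positivity)
      nlinarith
    refine (mul_le_mul_of_nonneg_right h1 h2).trans ?_
    have hd0 : 0 < d := by linarith
    have h3 : 4 * (d ^ 3 - (d - 1) ^ 3) ≤ 12 * (d * (d + 2)) := by nlinarith
    rw [div_mul_div_comm, div_le_div_iff₀ (by positivity) (by positivity)]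
    have h4 := mul_le_mul_of_nonneg_left h3 (by positivity : 0 ≤ 4 * (D : ℝ) ^ 2 * ((D : ℝ) - 1) ^ 3)
    nlinarith
  · have h1 := hph (D - 3) (by omega)
    have e3 : ((D - 3 : ℕ) : ℝ) = (D : ℝ) - 3 := by rw [Nat.cast_sub (by omega)]; push_cast; ring
    have e7 : D - 2 = D - 3 + 1 := by omega
    rw [e3] at h1
    have e8 : (D : ℝ) - 1 - (D - 3) = 2 := by ring
    have e9 : (D : ℝ) + 1 - (D - 3) = 4 := by ring
    rw [e8, e9] at h1
    show (if D - 2 = 0 then (0 : ℝ) else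
      Hh D 0 x J n par (D - 2 - 1) * Ps (D - 2 + (D - 2) + par) n) *
      (4 * (((D : ℝ) - 1 - ((D - 2 : ℕ) : ℝ)) / ((D : ℝ) - 1)) ^ 3) ≤ _
    have e10 := key (D - 3)
    rw [← e7] at e10
    rw [e10, eN]
    have e11 : (D : ℝ) - 1 - (D - 2) = 1 := by ring
    rw [e11]
    refine (mul_le_mul_of_nonneg_right h1 (by positivity)).trans ?_
    have e12 : 4 * (D : ℝ) ^ 2 / (2 * 4) * (4 * (1 / ((D : ℝ) - 1)) ^ 3) =
        2 * (D : ℝ) ^ 2 / ((D : ℝ) - 1) ^ 3 := by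
      rw [div_pow]
      ring
    rw [e12]
    refine div_le_div_of_nonneg_right ?_ (by positivity)
    nlinarith [sq_nonneg (D : ℝ)]

/-- `φ_k = Hh_k Ps(a, n) ≤ (a/d) (2/(s+1)) 2D ≤ 8 D²/(d (d+2))`, `d = D-1-k`, `s = D-k`; Abel
summation with `Rd_cube` for `D - 1`. -/
theorem Hp_univ (D x J par : ℕ) (hD : 2 ≤ D) (hp : par ≤ 1) :
    Hp D 0 x J (2 * D - 2 + 0 + x + J + par) par ≤ 600 := by
  rcases Nat.lt_or_ge D 3 with h | h
  · have : D = 2 := by omega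
    subst this
    unfold Hp
    simp
  · unfold Hp
    rw [sum_add_distrib]
    have h1 := N11_HpA D x J par hp
    have h2 := N11_HpB D x J par _ h hp rfl
    linarith

theorem Lo_univ (D x j : ℕ) (hD : 2 ≤ D) (hj : 9 ≤ j) : Lo D 0 x j ≤ 200 * fi (j - 2) := by
  have hD' : (2 : ℝ) ≤ D := by exact_mod_cast hD
  have hj' : (9 : ℝ) ≤ j := by exact_mod_cast hj
  have hx0 : (0 : ℝ) ≤ x := Nat.cast_nonneg x
  have f0 := N11_fi_pos j
  have f1 := N11_fi_pos (j - 1)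
  have f2 := N11_fi_pos (j - 2)
  have g1 := N11_fi_succ j (by omega)
  have g2 := N11_fi_succ' j (by omega)
  have g3 := N11_fi_anti j (by omega)
  have h1 := Dc_univ D x j hD (by omega)
  have h2 := Hp_univ D x j 0 hD (by omega)
  have h3 := Hp_univ D x (j - 1) 1 hD le_rfl
  have e3 : 2 * D - 2 + 0 + x + (j - 1) + 1 = 2 * D - 2 + 0 + x + j := by omega
  rw [e3] at h3
  have hLT : LT D 0 j ≤ fi (j - 1) := by
    unfold LT
    rw [← g2]
    simp only [Nat.cast_zero, add_zero]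
    rw [div_le_iff₀ (by linarith)]
    have : (D : ℝ) * ((j : ℝ) - 2) + 2 ≤ j * ((D : ℝ) + 1) := by nlinarith
    nlinarith [mul_le_mul_of_nonneg_right this f0.le]
  have hLE : LE D 0 x j ≤ fi (j - 2) := by
    unfold LE
    rw [if_neg (by omega), ← g1]
    simp only [Nat.cast_zero, add_zero]
    have hb : 0 < (2 * (D : ℝ) + x) * ((D : ℝ) + 1) := by positivity
    rw [div_le_iff₀ hb]
    have h4 : (((j : ℝ) - 3) * D + j) * ((D : ℝ) - 2) / 2 + ((j : ℝ) - 2) ≤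
        ((j : ℝ) - 1) * ((2 * (D : ℝ)) * ((D : ℝ) + 1)) := by
      have h5 : ((j : ℝ) - 3) * D + j ≤ j * ((D : ℝ) + 1) := by nlinarith
      have h6 : (((j : ℝ) - 3) * D + j) * ((D : ℝ) - 2) ≤ j * ((D : ℝ) + 1) * D :=
        mul_le_mul h5 (by linarith) (by linarith) (by positivity)
      have h7 : (6 : ℝ) ≤ (D : ℝ) * ((D : ℝ) + 1) := by nlinarith
      have h8 : (j : ℝ) * 6 ≤ (j : ℝ) * ((D : ℝ) * ((D : ℝ) + 1)) :=
        mul_le_mul_of_nonneg_left h7 (by linarith)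
      nlinarith
    have h5 : ((j : ℝ) - 1) * ((2 * (D : ℝ)) * ((D : ℝ) + 1)) ≤
        ((j : ℝ) - 1) * ((2 * (D : ℝ) + x) * ((D : ℝ) + 1)) := by
      refine mul_le_mul_of_nonneg_left (mul_le_mul_of_nonneg_right ?_ ?_) ?_ <;> linarith
    calc fi (j - 1) * ((((j : ℝ) - 3) * D + j) * ((D : ℝ) - 2) / 2 + ((j : ℝ) - 2)) ≤
        fi (j - 1) * (((j : ℝ) - 1) * ((2 * (D : ℝ) + x) * ((D : ℝ) + 1))) :=
          mul_le_mul_of_nonneg_left (h4.trans h5) f1.le
      _ = _ := by ring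
  have hHc : Hc D 0 x j ≤ 90 * fi (j - 2) := by
    unfold Hc
    rw [if_neg (by omega)]
    have a1 := mul_le_mul_of_nonneg_left h2 f0.le
    have a2 := mul_le_mul_of_nonneg_left h3 f1.le
    have a3 : fi (j - 1) * 8 ≤ fi (j - 2) := by
      rw [← g1]
      exact mul_le_mul_of_nonneg_left (by linarith) f1.le
    have a4 : fi j * 9 ≤ fi (j - 1) := by
      rw [← g2]
      exact mul_le_mul_of_nonneg_left hj' f0.le
    rw [Nat.add_zero] at a1
    linarith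
  unfold Lo
  linarith

end Pool.ADM
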