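import Pool.Agent.Lib.MP_ad84ff_coM.M01

section

/-! Kernel checks, `120 ≤ Δ ≤ 124`. -/

set_option autoImplicit false
set_option maxRecDepth 100000

namespace Pool.ADM

theorem n12_120_0 : chkL 120 0 0 0 [220] = true := by decide +kernel

theorem n12_120_1 : chkL 120 0 1 0 [73, 375] = true := by decide +kernel

theorem n12_121_0 : chkL 121 0 0 0 [222] = true := by decide +kernel

theorem n12_121_1 : chkL 121 0 1 0 [74, 381] = true := by decide +kernel

theorem n12_122_0 : chkL 122 0 0 0 [224] = true := by decide +kernel

theorem n12_122_1 : chkL 122 0 1 0 [74, 380] = true := by decide +kernel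

theorem n12_123_0 : chkL 123 0 0 0 [226] = true := by decide +kernel

theorem n12_123_1 : chkL 123 0 1 0 [75, 385] = true := by decide +kernel

theorem n12_124_0 : chkL 124 0 0 0 [228] = true := by decide +kernel

theorem n12_124_1 : chkL 124 0 1 0 [76, 391] = true := by decide +kernel

end Pool.ADM
end

section

/-! Kernel checks, `3 ≤ Δ ≤ 40`. -/

set_option autoImplicit false
set_option maxRecDepth 100000

namespace Pool.ADM

theorem n12_3_0 : chkL 3 0 0 12 [] = true := by decide +kernel

theorem n12_3_1 : chkL 3 0 1 11 [] = true := by decide +kernel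

theorem n12_4_0 : chkL 4 0 0 10 [] = true := by decide +kernel

theorem n12_4_1 : chkL 4 0 1 9 [] = true := by decide +kernel

theorem n12_5_0 : chkL 5 0 0 8 [] = true := by decide +kernel

theorem n12_5_1 : chkL 5 0 1 7 [76] = true := by decide +kernel

theorem n12_6_0 : chkL 6 0 0 6 [] = true := by decide +kernel

theorem n12_6_1 : chkL 6 0 1 5 [21] = true := by decide +kernel

theorem n12_7_0 : chkL 7 0 0 4 [] = true := by decide +kernel

theorem n12_7_1 : chkL 7 0 1 3 [9, 482] = true := by decide +kernel

theorem n12_8_0 : chkL 8 0 0 2 [] = true := by decide +kernel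

theorem n12_8_1 : chkL 8 0 1 1 [2, 10, 518] = true := by decide +kernel

theorem n12_9_0 : chkL 9 0 0 0 [10] = true := by decide +kernel

theorem n12_9_1 : chkL 9 0 1 0 [1, 6, 39] = true := by decide +kernel

theorem n12_10_0 : chkL 10 0 0 0 [12] = true := by decide +kernel

theorem n12_10_1 : chkL 10 0 1 0 [1, 7, 49] = true := by decide +kernel

theorem n12_11_0 : chkL 11 0 0 0 [14] = true := by decide +kernel

theorem n12_11_1 : chkL 11 0 1 0 [2, 12, 195] = true := by decide +kernel

theorem n12_12_0 : chkL 12 0 0 0 [16] = true := by decide +kernel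

theorem n12_12_1 : chkL 12 0 1 0 [3, 17] = true := by decide +kernel

theorem n12_13_0 : chkL 13 0 0 0 [18] = true := by decide +kernel

theorem n12_13_1 : chkL 13 0 1 0 [3, 17, 1186] = true := by decide +kernel

theorem n12_14_0 : chkL 14 0 0 0 [20] = true := by decide +kernel

theorem n12_14_1 : chkL 14 0 1 0 [4, 22] = true := by decide +kernel

theorem n12_15_0 : chkL 15 0 0 0 [22] = true := by decide +kernel

theorem n12_15_1 : chkL 15 0 1 0 [5, 28] = true := by decide +kernel

theorem n12_16_0 : chkL 16 0 0 0 [25] = true := by decide +kernel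

theorem n12_16_1 : chkL 16 0 1 0 [5, 28] = true := by decide +kernel

theorem n12_17_0 : chkL 17 0 0 0 [27] = true := by decide +kernel

theorem n12_17_1 : chkL 17 0 1 0 [6, 33] = true := by decide +kernel

theorem n12_18_0 : chkL 18 0 0 0 [29] = true := by decide +kernel

theorem n12_18_1 : chkL 18 0 1 0 [7, 39] = true := by decide +kernel

theorem n12_19_0 : chkL 19 0 0 0 [31] = true := by decide +kernel

theorem n12_19_1 : chkL 19 0 1 0 [7, 38] = true := by decide +kernel

theorem n12_20_0 : chkL 20 0 0 0 [33] = true := by decide +kernel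

theorem n12_20_1 : chkL 20 0 1 0 [8, 44] = true := by decide +kernel

theorem n12_21_0 : chkL 21 0 0 0 [35] = true := by decide +kernel

theorem n12_21_1 : chkL 21 0 1 0 [9, 49] = true := by decide +kernel

theorem n12_22_0 : chkL 22 0 0 0 [37] = true := by decide +kernel

theorem n12_22_1 : chkL 22 0 1 0 [9, 49] = true := by decide +kernel

theorem n12_23_0 : chkL 23 0 0 0 [39] = true := by decide +kernel

theorem n12_23_1 : chkL 23 0 1 0 [10, 55] = true := by decide +kernel

theorem n12_24_0 : chkL 24 0 0 0 [40] = true := by decide +kernel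

theorem n12_24_1 : chkL 24 0 1 0 [11, 60] = true := by decide +kernel

theorem n12_25_0 : chkL 25 0 0 0 [42] = true := by decide +kernel

theorem n12_25_1 : chkL 25 0 1 0 [11, 60] = true := by decide +kernel

theorem n12_26_0 : chkL 26 0 0 0 [44] = true := by decide +kernel

theorem n12_26_1 : chkL 26 0 1 0 [12, 65] = true := by decide +kernel

theorem n12_27_0 : chkL 27 0 0 0 [46] = true := by decide +kernel

theorem n12_27_1 : chkL 27 0 1 0 [13, 71] = true := by decide +kernel

theorem n12_28_0 : chkL 28 0 0 0 [48] = true := by decide +kernel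

theorem n12_28_1 : chkL 28 0 1 0 [13, 70] = true := by decide +kernel

theorem n12_29_0 : chkL 29 0 0 0 [50] = true := by decide +kernel

theorem n12_29_1 : chkL 29 0 1 0 [14, 76] = true := by decide +kernel

theorem n12_30_0 : chkL 30 0 0 0 [52] = true := by decide +kernel

theorem n12_30_1 : chkL 30 0 1 0 [15, 82] = true := by decide +kernel

theorem n12_31_0 : chkL 31 0 0 0 [54] = true := by decide +kernel

theorem n12_31_1 : chkL 31 0 1 0 [15, 81] = true := by decide +kernel

theorem n12_32_0 : chkL 32 0 0 0 [56] = true := by decide +kernel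

theorem n12_32_1 : chkL 32 0 1 0 [16, 87] = true := by decide +kernel

theorem n12_33_0 : chkL 33 0 0 0 [58] = true := by decide +kernel

theorem n12_33_1 : chkL 33 0 1 0 [17, 92] = true := by decide +kernel

theorem n12_34_0 : chkL 34 0 0 0 [60] = true := by decide +kernel

theorem n12_34_1 : chkL 34 0 1 0 [17, 91] = true := by decide +kernel

theorem n12_35_0 : chkL 35 0 0 0 [62] = true := by decide +kernel

theorem n12_35_1 : chkL 35 0 1 0 [18, 97] = true := by decide +kernel

theorem n12_36_0 : chkL 36 0 0 0 [63] = true := by decide +kernel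

theorem n12_36_1 : chkL 36 0 1 0 [19, 103] = true := by decide +kernel

theorem n12_37_0 : chkL 37 0 0 0 [65] = true := by decide +kernel

theorem n12_37_1 : chkL 37 0 1 0 [19, 102] = true := by decide +kernel

theorem n12_38_0 : chkL 38 0 0 0 [67] = true := by decide +kernel

theorem n12_38_1 : chkL 38 0 1 0 [20, 107] = true := by decide +kernel

theorem n12_39_0 : chkL 39 0 0 0 [69] = true := by decide +kernel

theorem n12_39_1 : chkL 39 0 1 0 [21, 113] = true := by decide +kernel

theorem n12_40_0 : chkL 40 0 0 0 [71] = true := by decide +kernel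

theorem n12_40_1 : chkL 40 0 1 0 [21, 112] = true := by decide +kernel

end Pool.ADM
end
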