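import Pool.Agent.Lib.MP_ad84ff_coM.M01

/-! Kernel checks, `41 ≤ Δ ≤ 60`. -/

set_option autoImplicit false
set_option maxRecDepth 100000

namespace Pool.ADM

theorem n12_41_0 : chkL 41 0 0 0 [73] = true := by decide +kernel

theorem n12_41_1 : chkL 41 0 1 0 [22, 118] = true := by decide +kernel

theorem n12_42_0 : chkL 42 0 0 0 [75] = true := by decide +kernel

theorem n12_42_1 : chkL 42 0 1 0 [23, 123] = true := by decide +kernel

theorem n12_43_0 : chkL 43 0 0 0 [77] = true := by decide +kernel

theorem n12_43_1 : chkL 43 0 1 0 [23, 123] = true := by decide +kernel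

theorem n12_44_0 : chkL 44 0 0 0 [79] = true := by decide +kernel

theorem n12_44_1 : chkL 44 0 1 0 [24, 128] = true := by decide +kernel

theorem n12_45_0 : chkL 45 0 0 0 [80] = true := by decide +kernel

theorem n12_45_1 : chkL 45 0 1 0 [24, 127] = true := by decide +kernel

theorem n12_46_0 : chkL 46 0 0 0 [82] = true := by decide +kernel

theorem n12_46_1 : chkL 46 0 1 0 [25, 133] = true := by decide +kernel

theorem n12_47_0 : chkL 47 0 0 0 [84] = true := by decide +kernel

theorem n12_47_1 : chkL 47 0 1 0 [26, 138] = true := by decide +kernel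

theorem n12_48_0 : chkL 48 0 0 0 [86] = true := by decide +kernel

theorem n12_48_1 : chkL 48 0 1 0 [26, 138] = true := by decide +kernel

theorem n12_49_0 : chkL 49 0 0 0 [88] = true := by decide +kernel

theorem n12_49_1 : chkL 49 0 1 0 [27, 143] = true := by decide +kernel

theorem n12_50_0 : chkL 50 0 0 0 [90] = true := by decide +kernel

theorem n12_50_1 : chkL 50 0 1 0 [28, 149] = true := by decide +kernel

theorem n12_51_0 : chkL 51 0 0 0 [92] = true := by decide +kernel

theorem n12_51_1 : chkL 51 0 1 0 [28, 148] = true := by decide +kernel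

theorem n12_52_0 : chkL 52 0 0 0 [94] = true := by decide +kernel

theorem n12_52_1 : chkL 52 0 1 0 [29, 153] = true := by decide +kernel

theorem n12_53_0 : chkL 53 0 0 0 [95] = true := by decide +kernel

theorem n12_53_1 : chkL 53 0 1 0 [30, 159] = true := by decide +kernel

theorem n12_54_0 : chkL 54 0 0 0 [97] = true := by decide +kernel

theorem n12_54_1 : chkL 54 0 1 0 [30, 158] = true := by decide +kernel

theorem n12_55_0 : chkL 55 0 0 0 [99] = true := by decide +kernel

theorem n12_55_1 : chkL 55 0 1 0 [31, 164] = true := by decide +kernel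

theorem n12_56_0 : chkL 56 0 0 0 [101] = true := by decide +kernel

theorem n12_56_1 : chkL 56 0 1 0 [32, 169] = true := by decide +kernel

theorem n12_57_0 : chkL 57 0 0 0 [103] = true := by decide +kernel

theorem n12_57_1 : chkL 57 0 1 0 [32, 168] = true := by decide +kernel

theorem n12_58_0 : chkL 58 0 0 0 [105] = true := by decide +kernel

theorem n12_58_1 : chkL 58 0 1 0 [33, 174] = true := by decide +kernel

theorem n12_59_0 : chkL 59 0 0 0 [107] = true := by decide +kernel

theorem n12_59_1 : chkL 59 0 1 0 [34, 179] = true := by decide +kernel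

theorem n12_60_0 : chkL 60 0 0 0 [109] = true := by decide +kernel

theorem n12_60_1 : chkL 60 0 1 0 [34, 179] = true := by decide +kernel

end Pool.ADM
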