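import Pool.Agent.Lib.MP_ad84ff_coM.M01

/-! Kernel checks, `87 ≤ Δ ≤ 96`. -/

set_option autoImplicit false
set_option maxRecDepth 100000

namespace Pool.ADM

theorem n12_87_0 : chkL 87 0 0 0 [159] = true := by decide +kernel

theorem n12_87_1 : chkL 87 0 1 0 [52, 270] = true := by decide +kernel

theorem n12_88_0 : chkL 88 0 0 0 [161] = true := by decide +kernel

theorem n12_88_1 : chkL 88 0 1 0 [52, 269] = true := by decide +kernel

theorem n12_89_0 : chkL 89 0 0 0 [163] = true := by decide +kernel

theorem n12_89_1 : chkL 89 0 1 0 [53, 275] = true := by decide +kernel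

theorem n12_90_0 : chkL 90 0 0 0 [164] = true := by decide +kernel

theorem n12_90_1 : chkL 90 0 1 0 [54, 280] = true := by decide +kernel

theorem n12_91_0 : chkL 91 0 0 0 [166] = true := by decide +kernel

theorem n12_91_1 : chkL 91 0 1 0 [54, 280] = true := by decide +kernel

theorem n12_92_0 : chkL 92 0 0 0 [168] = true := by decide +kernel

theorem n12_92_1 : chkL 92 0 1 0 [55, 285] = true := by decide +kernel

theorem n12_93_0 : chkL 93 0 0 0 [170] = true := by decide +kernel

theorem n12_93_1 : chkL 93 0 1 0 [56, 290] = true := by decide +kernel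

theorem n12_94_0 : chkL 94 0 0 0 [172] = true := by decide +kernel

theorem n12_94_1 : chkL 94 0 1 0 [56, 290] = true := by decide +kernel

theorem n12_95_0 : chkL 95 0 0 0 [174] = true := by decide +kernel

theorem n12_95_1 : chkL 95 0 1 0 [57, 295] = true := by decide +kernel

theorem n12_96_0 : chkL 96 0 0 0 [176] = true := by decide +kernel

theorem n12_96_1 : chkL 96 0 1 0 [58, 301] = true := by decide +kernel

end Pool.ADM
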