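import Pool.Agent.Lib.MP_ad84ff_coM.M01

/-! Kernel checks, `114 ≤ Δ ≤ 119`. -/

set_option autoImplicit false
set_option maxRecDepth 100000

namespace Pool.ADM

theorem n12_114_0 : chkL 114 0 0 0 [209] = true := by decide +kernel

theorem n12_114_1 : chkL 114 0 1 0 [69, 355] = true := by decide +kernel

theorem n12_115_0 : chkL 115 0 0 0 [211] = true := by decide +kernel

theorem n12_115_1 : chkL 115 0 1 0 [70, 360] = true := by decide +kernel

theorem n12_116_0 : chkL 116 0 0 0 [213] = true := by decide +kernel

theorem n12_116_1 : chkL 116 0 1 0 [70, 360] = true := by decide +kernel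

theorem n12_117_0 : chkL 117 0 0 0 [215] = true := by decide +kernel

theorem n12_117_1 : chkL 117 0 1 0 [71, 365] = true := by decide +kernel

theorem n12_118_0 : chkL 118 0 0 0 [216] = true := by decide +kernel

theorem n12_118_1 : chkL 118 0 1 0 [72, 371] = true := by decide +kernel

theorem n12_119_0 : chkL 119 0 0 0 [218] = true := by decide +kernel

theorem n12_119_1 : chkL 119 0 1 0 [72, 370] = true := by decide +kernel

end Pool.ADM
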