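import Pool.Agent.Lib.MP_ad84ff_coM.M01
import Pool.Agent.Lib.MP_ad84ff_coM.N12g
import Pool.Agent.Lib.MP_ad84ff_coM.N12f
import Pool.Agent.Lib.MP_ad84ff_coM.N11
import Pool.Agent.Lib.MP_ad84ff_coM.N12a
import Pool.Agent.Lib.MP_ad84ff_coM.N12b
import Pool.Agent.Lib.MP_ad84ff_coM.N12c
import Pool.Agent.Lib.MP_ad84ff_coM.N12d
import Pool.Agent.Lib.MP_ad84ff_coM.N12e
import Pool.Agent.Lib.MP_ad84ff_coM.N12h

section

/-! Kernel checks, the points with `N = 17`, `w ≥ 1`. -/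

set_option autoImplicit false
set_option maxRecDepth 100000

namespace Pool.ADM

/-- `(Δ, w, x, j0)` -/
def pts17 : List (ℕ × ℕ × ℕ × ℕ) :=
  [(3, 12, 0, 0),
   (3, 11, 1, 0),
   (3, 10, 2, 0),
   (3, 9, 3, 0),
   (3, 8, 4, 0),
   (3, 7, 5, 0),
   (3, 6, 6, 0),
   (3, 5, 7, 0),
   (3, 4, 8, 0),
   (3, 3, 9, 0),
   (3, 2, 10, 0),
   (3, 1, 11, 0),
   (3, 11, 0, 1),
   (3, 10, 1, 1),
   (3, 9, 2, 1),
   (3, 8, 3, 1),
   (3, 7, 4, 1),
   (3, 6, 5, 1),
   (3, 5, 6, 1),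
   (3, 4, 7, 1),
   (3, 3, 8, 1),
   (3, 2, 9, 1),
   (3, 1, 10, 1),
   (4, 10, 0, 0),
   (4, 9, 1, 0),
   (4, 8, 2, 0),
   (4, 7, 3, 0),
   (4, 6, 4, 0),
   (4, 5, 5, 0),
   (4, 4, 6, 0),
   (4, 3, 7, 0),
   (4, 2, 8, 0),
   (4, 1, 9, 0),
   (4, 9, 0, 1),
   (4, 8, 1, 1),
   (4, 7, 2, 1),
   (4, 6, 3, 1),
   (4, 5, 4, 1),
   (4, 4, 5, 1),
   (4, 3, 6, 1),
   (4, 2, 7, 1),
   (4, 1, 8, 1),
   (5, 8, 0, 0),
   (5, 7, 1, 0),
   (5, 6, 2, 0),
   (5, 5, 3, 0),
   (5, 4, 4, 0),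
   (5, 3, 5, 0),
   (5, 2, 6, 0),
   (5, 1, 7, 0),
   (5, 7, 0, 1),
   (5, 6, 1, 1),
   (5, 5, 2, 1),
   (5, 4, 3, 1),
   (5, 3, 4, 1),
   (5, 2, 5, 1),
   (5, 1, 6, 1),
   (6, 6, 0, 0),
   (6, 5, 1, 0),
   (6, 4, 2, 0),
   (6, 3, 3, 0),
   (6, 2, 4, 0),
   (6, 1, 5, 0),
   (6, 5, 0, 1),
   (6, 4, 1, 1),
   (6, 3, 2, 1),
   (6, 2, 3, 1),
   (6, 1, 4, 1),
   (7, 4, 0, 0),
   (7, 3, 1, 0),
   (7, 2, 2, 0),
   (7, 1, 3, 0),
   (7, 3, 0, 1),
   (7, 2, 1, 1),
   (7, 1, 2, 1),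
   (8, 2, 0, 0),
   (8, 1, 1, 0),
   (8, 1, 0, 1)]

theorem n12_pts : (pts17.all fun p => chk p.1 p.2.1 p.2.2.1 p.2.2.1 false p.2.2.2) = true := by
  decide +kernel

theorem mem_pts17 (Δ w x j0 : ℕ) (hΔ : 3 ≤ Δ) (hj : j0 ≤ 1) (hw : 1 ≤ w)
    (hN : 2 * Δ - 1 + w + x + j0 = 17) : (Δ, w, x, j0) ∈ pts17 := by
  have key : ((List.range 9).all fun D => (List.range 18).all fun w => (List.range 18).all fun x =>
      (List.range 2).all fun j => !(Nat.ble 3 D && Nat.ble 1 w &&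
        Nat.beq (2 * D - 1 + w + x + j) 17) || pts17.elem (D, w, x, j)) = true := by
    decide +kernel
  simp only [List.all_eq_true, List.mem_range] at key
  have h := key Δ (by omega) w (by omega) x (by omega) j0 (by omega)
  have h3 : Nat.ble 3 Δ = true := Nat.ble_eq_true_of_le hΔ
  have h4 : Nat.ble 1 w = true := Nat.ble_eq_true_of_le hw
  have h5 : Nat.beq (2 * Δ - 1 + w + x + j0) 17 = true := by rw [hN]; rfl
  rw [h3, h4, h5] at h
  simpa using h

end Pool.ADM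
end

section

/-! job ADN-07: soundness of `cd` and `rbN`. -/

set_option autoImplicit false

namespace Pool.ADM

private theorem N07_cd_mul (p q : ℕ) (hq : 0 < q) : p ≤ cd p q * q := by
  unfold cd
  have h1 := Nat.div_add_mod (p + q - 1) q
  have h2 := Nat.mod_lt (p + q - 1) hq
  have h3 : (p + q - 1) / q * q = q * ((p + q - 1) / q) := Nat.mul_comm _ _
  omega

theorem cd_le (p q : ℕ) (hq : 0 < q) : (p : ℝ) / q ≤ cd p q := by
  have h := N07_cd_mul p q hq
  have hq' : (0 : ℝ) < q := by exact_mod_cast hq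
  rw [div_le_iff₀ hq']
  exact_mod_cast h

/-- the form used for products -/
theorem le_cd {r : ℝ} {p q : ℕ} (hq : 0 < q) (h : r * q ≤ p) : r ≤ cd p q := by
  have hq' : (0 : ℝ) < q := by exact_mod_cast hq
  have h1 : r ≤ (p : ℝ) / q := by
    rw [le_div_iff₀ hq']
    exact h
  exact h1.trans (cd_le p q hq)

theorem rbN_le (f δ n : ℕ) (hδ : 1 ≤ δ) : Rd δ (n + 1) * SC ≤ rbN f δ n := by
  have hSC : (0 : ℝ) ≤ (SC : ℝ) := Nat.cast_nonneg _
  have hone : ∀ m : ℕ, Rd δ m * (SC : ℝ) ≤ (SC : ℝ) := by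
    intro m
    have h := Rd_le_one δ m
    nlinarith
  induction f generalizing n with
  | zero =>
    simp only [rbN]
    exact hone _
  | succ f ih =>
    simp only [rbN]
    split_ifs with h1 h2
    · exact hone _
    · apply le_cd (by omega)
      have hR := Rd_harm_le δ n hδ (by omega) (by omega)
      have hpos : (0 : ℝ) < (n : ℝ) + δ + 1 := by positivity
      have h3 : Rd δ (n + 1) * ((n : ℝ) + δ + 1) ≤ 3 * (δ : ℝ) + 1 - n := by
        have h4 := mul_le_mul_of_nonneg_right hR hpos.le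
        have h5 : (1 - 2 * ((n : ℝ) - δ) / ((n : ℝ) + δ + 1)) * ((n : ℝ) + δ + 1) =
            3 * (δ : ℝ) + 1 - n := by
          field_simp
          ring
        rw [h5] at h4
        exact h4
      have h6 : ((3 * δ + 1 - n : ℕ) : ℝ) = 3 * (δ : ℝ) + 1 - n := by
        rw [Nat.cast_sub (by omega)]
        push_cast
        ring
      push_cast
      rw [h6]
      have h7 := mul_le_mul_of_nonneg_right h3 hSC
      nlinarith
    · apply le_cd (by omega)
      have hR := Rd_conv δ n hδ (by omega)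
      have hih := ih (n - δ)
      have hnd : (δ : ℝ) ≤ n := by exact_mod_cast (by omega : δ ≤ n)
      have hn0 : (0 : ℝ) ≤ n := Nat.cast_nonneg _
      have hpos : (0 : ℝ) < 2 * (n : ℝ) + 1 - δ := by linarith
      have h6 : ((2 * n + 1 - δ : ℕ) : ℝ) = 2 * (n : ℝ) + 1 - δ := by
        rw [Nat.cast_sub (by omega)]
        push_cast
        ring
      push_cast
      rw [h6]
      have h3 : Rd δ (n + 1) * (2 * (n : ℝ) + 1 - δ) ≤ ((δ : ℝ) + 1) * Rd δ (n - δ + 1) := by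
        have h4 := mul_le_mul_of_nonneg_right hR hpos.le
        have h5 : ((δ : ℝ) + 1) / (2 * (n : ℝ) + 1 - δ) * Rd δ (n - δ + 1) *
            (2 * (n : ℝ) + 1 - δ) = ((δ : ℝ) + 1) * Rd δ (n - δ + 1) := by
          field_simp
        rw [h5] at h4
        exact h4
      have hd1 : (0 : ℝ) ≤ (δ : ℝ) + 1 := by positivity
      calc Rd δ (n + 1) * (SC : ℝ) * (2 * (n : ℝ) + 1 - δ)
          = Rd δ (n + 1) * (2 * (n : ℝ) + 1 - δ) * (SC : ℝ) := by ring
        _ ≤ ((δ : ℝ) + 1) * Rd δ (n - δ + 1) * (SC : ℝ) := mul_le_mul_of_nonneg_right h3 hSC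
        _ = ((δ : ℝ) + 1) * (Rd δ (n - δ + 1) * (SC : ℝ)) := by ring
        _ ≤ ((δ : ℝ) + 1) * (rbN f δ (n - δ) : ℝ) := mul_le_mul_of_nonneg_left hih hd1

end Pool.ADM
end

section

/-! job ADN-08: soundness of `dcN`. -/

set_option autoImplicit false

namespace Pool.ADM

open Finset

private theorem N08_SC : (0 : ℝ) < (SC : ℝ) := by norm_num [SC]

private theorem N08_dev (a M j : ℕ) : dev a M j ≤ (dvN a M j : ℝ) / (j.factorial : ℝ) := by
  unfold dev dvN fi
  by_cases hj : j = 0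
  · simp [hj]
  · rw [if_neg hj, if_neg hj]
    have hF : (0 : ℝ) < (j.factorial : ℝ) := by exact_mod_cast Nat.factorial_pos j
    rw [mul_one_div]
    refine div_le_div_of_nonneg_right ?_ hF.le
    rw [Nat.cast_max]
    refine max_le (max_le_max ?_ ?_) ?_
    · have h : j * a + 1 ≤ (j * a + 1 - M) + M := by omega
      have h' : ((j : ℝ) * a + 1) ≤ ((j * a + 1 - M : ℕ) : ℝ) + M := by exact_mod_cast h
      linarith
    · have h : j ≤ (j - 1) + 1 := by omega
      have h' : (j : ℝ) ≤ ((j - 1 : ℕ) : ℝ) + 1 := by exact_mod_cast h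
      linarith
    · exact le_max_of_le_left (Nat.cast_nonneg _)

private theorem N08_dev_nonneg (a M j : ℕ) : 0 ≤ dev a M j := by
  unfold dev fi
  by_cases hj : j = 0
  · simp [hj]
  · rw [if_neg hj]
    exact mul_nonneg (le_max_right _ _) (by positivity)

/-- `(m - e)/(m + c)` against `frA / frB` -/
private theorem N08_fr (inf : Bool) (m m2 e c : ℕ) (hm : 1 ≤ m) (he : e ≤ m)
    (h2 : inf = false → m ≤ m2) :
    ((m : ℝ) - e) / ((m : ℝ) + c) * (frB inf (m2 + c) : ℝ) ≤ (frA inf m2 e : ℝ) := by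
  have hm' : (1 : ℝ) ≤ (m : ℝ) := by exact_mod_cast hm
  have he' : (e : ℝ) ≤ (m : ℝ) := by exact_mod_cast he
  have he0 : (0 : ℝ) ≤ (e : ℝ) := Nat.cast_nonneg e
  have hc0 : (0 : ℝ) ≤ (c : ℝ) := Nat.cast_nonneg c
  unfold frA frB
  cases inf with
  | true =>
    simp only [if_true]
    rw [Nat.cast_one, mul_one]
    exact div_le_one_of_le₀ (by linarith) (by linarith)
  | false =>
    have h := h2 rfl
    have h' : (m : ℝ) ≤ (m2 : ℝ) := by exact_mod_cast h
    simp only [Bool.false_eq_true, if_false]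
    rw [Nat.cast_sub (by omega), Nat.cast_add, div_mul_eq_mul_div, div_le_iff₀ (by linarith)]
    nlinarith

private theorem N08_core (dv A F X B Bn c S : ℝ) (hdv : dv ≤ A / F) (hdv0 : 0 ≤ dv) (hF : 0 < F)
    (hX : X * B ≤ Bn) (hX0 : 0 ≤ X) (hB : 0 ≤ B) (hc : 0 < c) (hS : 0 ≤ S) :
    dv * X / c * S * (F * B * c) ≤ S * A * Bn := by
  have e : dv * X / c * S * (F * B * c) = (dv * F) * (X * B) * S := by
    field_simp
  have h1 : dv * F ≤ A := (le_div_iff₀ hF).mp hdv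
  have h2 : 0 ≤ dv * F := mul_nonneg hdv0 hF.le
  have h3 : 0 ≤ X * B := mul_nonneg hX0 hB
  have h4 : (dv * F) * (X * B) ≤ A * Bn := mul_le_mul h1 hX h3 (h2.trans h1)
  rw [e]
  nlinarith

private theorem N08_Gev (D w x x2 j k : ℕ) (inf : Bool) (hD : 2 ≤ D) (hk : k + 2 ≤ D)
    (h2 : inf = false → x ≤ x2) :
    Gev D w x j k * SC ≤ cd (SC * dvN (D + k) (2 * D - 1 + w) j * frA inf (2 * D - 1 + w + x2) (2 * k))
      (j.factorial * frB inf (2 * D - 1 + w + x2) * (D - k + 1 + w)) := by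
  have hF : 0 < j.factorial := Nat.factorial_pos j
  have hB : 0 < frB inf (2 * D - 1 + w + x2) := by
    unfold frB; split_ifs <;> omega
  refine le_cd (by positivity) ?_
  have hf := N08_fr inf (2 * D - 1 + w + x) (2 * D - 1 + w + x2) (2 * k) 0 (by omega) (by omega)
    (fun h => by have := h2 h; omega)
  have c1 : ((2 * D - 1 + w + x : ℕ) : ℝ) = 2 * (D : ℝ) - 1 + w + x := by
    rw [Nat.cast_add, Nat.cast_add, Nat.cast_sub (by omega)]; push_cast; ring
  have c2 : ((D - k + 1 + w : ℕ) : ℝ) = (D : ℝ) - k + 1 + w := by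
    rw [Nat.cast_add, Nat.cast_add, Nat.cast_sub (by omega)]; push_cast; ring
  have c3 : ((2 * k : ℕ) : ℝ) = 2 * (k : ℝ) := by push_cast; ring
  rw [c1, c3, Nat.cast_zero, add_zero, add_zero] at hf
  have hk' : (k : ℝ) + 2 ≤ (D : ℝ) := by exact_mod_cast hk
  have hw0 : (0 : ℝ) ≤ (w : ℝ) := Nat.cast_nonneg w
  have hx0 : (0 : ℝ) ≤ (x : ℝ) := Nat.cast_nonneg x
  have hk0 : (0 : ℝ) ≤ (k : ℝ) := Nat.cast_nonneg k
  have h := N08_core (dev (D + k) (2 * D - 1 + w) j) (dvN (D + k) (2 * D - 1 + w) j)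
    (j.factorial : ℝ) ((2 * (D : ℝ) - 1 + w + x - 2 * k) / (2 * (D : ℝ) - 1 + w + x))
    (frB inf (2 * D - 1 + w + x2) : ℝ) (frA inf (2 * D - 1 + w + x2) (2 * k) : ℝ)
    ((D : ℝ) - k + 1 + w) (SC : ℝ) (N08_dev _ _ _) (N08_dev_nonneg _ _ _)
    (by exact_mod_cast hF) hf (div_nonneg (by linarith) (by linarith)) (Nat.cast_nonneg _)
    (by linarith) N08_SC.le
  unfold Gev
  rw [← mul_div_assoc] at h
  rw [Nat.cast_mul, Nat.cast_mul, Nat.cast_mul, Nat.cast_mul, c2]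
  exact h

private theorem N08_God (D w x x2 j k : ℕ) (inf : Bool) (hD : 2 ≤ D) (hk : k + 2 ≤ D)
    (h2 : inf = false → x ≤ x2) :
    God D w x j k * SC ≤
      cd (SC * dvN (D + k + 1) (2 * D + w) (j - 1) * frA inf (2 * D - 1 + w + x2) (2 * k))
      ((j - 1).factorial * frB inf (2 * D - 1 + w + x2 + 1) * (D - k + 1 + w)) := by
  have hF : 0 < (j - 1).factorial := Nat.factorial_pos _
  have hB : 0 < frB inf (2 * D - 1 + w + x2 + 1) := by
    unfold frB; split_ifs <;> omega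
  refine le_cd (by positivity) ?_
  have hf := N08_fr inf (2 * D - 1 + w + x) (2 * D - 1 + w + x2) (2 * k) 1 (by omega) (by omega)
    (fun h => by have := h2 h; omega)
  have c1 : ((2 * D - 1 + w + x : ℕ) : ℝ) = 2 * (D : ℝ) - 1 + w + x := by
    rw [Nat.cast_add, Nat.cast_add, Nat.cast_sub (by omega)]; push_cast; ring
  have c2 : ((D - k + 1 + w : ℕ) : ℝ) = (D : ℝ) - k + 1 + w := by
    rw [Nat.cast_add, Nat.cast_add, Nat.cast_sub (by omega)]; push_cast; ring
  have c3 : ((2 * k : ℕ) : ℝ) = 2 * (k : ℝ) := by push_cast; ring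
  have c4 : 2 * (D : ℝ) - 1 + w + x + 1 = 2 * (D : ℝ) + w + x := by ring
  rw [c1, c3, Nat.cast_one, c4] at hf
  have hk' : (k : ℝ) + 2 ≤ (D : ℝ) := by exact_mod_cast hk
  have hw0 : (0 : ℝ) ≤ (w : ℝ) := Nat.cast_nonneg w
  have hx0 : (0 : ℝ) ≤ (x : ℝ) := Nat.cast_nonneg x
  have hk0 : (0 : ℝ) ≤ (k : ℝ) := Nat.cast_nonneg k
  have h := N08_core (dev (D + k + 1) (2 * D + w) (j - 1)) (dvN (D + k + 1) (2 * D + w) (j - 1))
    ((j - 1).factorial : ℝ) ((2 * (D : ℝ) - 1 + w + x - 2 * k) / (2 * (D : ℝ) + w + x))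
    (frB inf (2 * D - 1 + w + x2 + 1) : ℝ) (frA inf (2 * D - 1 + w + x2) (2 * k) : ℝ)
    ((D : ℝ) - k + 1 + w) (SC : ℝ) (N08_dev _ _ _) (N08_dev_nonneg _ _ _)
    (by exact_mod_cast hF) hf (div_nonneg (by linarith) (by linarith)) (Nat.cast_nonneg _)
    (by linarith) N08_SC.le
  unfold God
  rw [← mul_div_assoc] at h
  rw [Nat.cast_mul, Nat.cast_mul, Nat.cast_mul, Nat.cast_mul, c2]
  exact h

private theorem N08_Gh_nonneg (D w x j k : ℕ) : 0 ≤ Gh D w x j k := by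
  induction k with
  | zero => simp [Gh]
  | succ k ih => rw [Gh]; exact le_max_of_le_left ih

private theorem N08_P2 (D e : ℕ) (he : 1 ≤ e) :
    P2 D e * (2 * (e : ℝ) * (2 * e - 1)) = (p2N D e : ℝ) := by
  have he' : (1 : ℝ) ≤ (e : ℝ) := by exact_mod_cast he
  have h1 : (e : ℝ) ≠ 0 := by linarith
  have h2 : 2 * (e : ℝ) - 1 ≠ 0 := by linarith
  unfold P2 p2N
  split_ifs
  · rw [Nat.cast_one]; field_simp
  · push_cast
    rw [div_mul_eq_mul_div, div_eq_iff (mul_ne_zero h1 h2)]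
    ring
  · simp

private theorem N08_final (S a1 a2 f f' R R' p0 pm c1 c2 c3 t0 K : ℝ) (h1 : a1 * K ≤ c1)
    (h2 : a2 * K ≤ c2) (h3 : (pm - p0) * R' ≤ c3) (h4 : S * K + (p0 - f * K) * R ≤ t0)
    (h5 : 0 ≤ (p0 - f * K) * (R - R')) :
    (S + (a1 + a2 + (f' - f) * R')) * K + (pm - f' * K) * R' ≤ t0 + c1 + c2 + c3 := by
  have e : (S + (a1 + a2 + (f' - f) * R')) * K + (pm - f' * K) * R' =
      (S * K + (p0 - f * K) * R) + a1 * K + a2 * K + (pm - p0) * R' -
        (p0 - f * K) * (R - R') := by ring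
  rw [e]
  linarith

/-- one term of the sum -/
private theorem N08_term (G P q u t S : ℝ) (g p a e M : ℕ) (hG : G * S ≤ g) (hG0 : 0 ≤ G * S)
    (hu : 0 ≤ u) (hM : (M : ℝ) ≤ t) (hM0 : 0 < M) (hq : P * q = p) (hqe : (e : ℝ) = q)
    (he : 0 < e) (ha : (a : ℝ) = u) :
    G * P * (u / t) * S ≤ cd (g * p * a) (M * e) := by
  have hM' : (0 : ℝ) < (M : ℝ) := by exact_mod_cast hM0
  have he' : (0 : ℝ) < (e : ℝ) := by exact_mod_cast he
  have ht : 0 < t := lt_of_lt_of_le hM' hM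
  have hp : (0 : ℝ) ≤ (p : ℝ) := Nat.cast_nonneg _
  have hg : (0 : ℝ) ≤ (g : ℝ) := Nat.cast_nonneg _
  refine le_cd (Nat.mul_pos hM0 he) ?_
  rw [Nat.cast_mul, Nat.cast_mul, Nat.cast_mul, ha, hqe]
  have e1 : G * P * (u / t) * S * ((M : ℝ) * q) = (G * S) * (P * q) * u * ((M : ℝ) / t) := by
    field_simp
  rw [e1, hq]
  have h1 : (M : ℝ) / t ≤ 1 := div_le_one_of_le₀ hM ht.le
  have h2 : (G * S) * (p : ℝ) * u ≤ (g : ℝ) * p * u :=
    mul_le_mul_of_nonneg_right (mul_le_mul_of_nonneg_right hG hp) hu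
  have h3 : 0 ≤ (G * S) * (p : ℝ) * u := mul_nonneg (mul_nonneg hG0 hp) hu
  calc (G * S) * (p : ℝ) * u * ((M : ℝ) / t) ≤ (G * S) * (p : ℝ) * u * 1 :=
        mul_le_mul_of_nonneg_left h1 h3
    _ ≤ _ := by rw [mul_one]; exact h2

private theorem N08_Gev_nonneg (D w x j k : ℕ) (hk : k + 2 ≤ D) : 0 ≤ Gev D w x j k := by
  have hk' : (k : ℝ) + 2 ≤ (D : ℝ) := by exact_mod_cast hk
  have hw0 : (0 : ℝ) ≤ (w : ℝ) := Nat.cast_nonneg w
  have hx0 : (0 : ℝ) ≤ (x : ℝ) := Nat.cast_nonneg x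
  have hk0 : (0 : ℝ) ≤ (k : ℝ) := Nat.cast_nonneg k
  unfold Gev
  refine div_nonneg (div_nonneg (mul_nonneg (N08_dev_nonneg _ _ _) ?_) ?_) ?_ <;> linarith

private theorem N08_God_nonneg (D w x j k : ℕ) (hk : k + 2 ≤ D) : 0 ≤ God D w x j k := by
  have hk' : (k : ℝ) + 2 ≤ (D : ℝ) := by exact_mod_cast hk
  have hw0 : (0 : ℝ) ≤ (w : ℝ) := Nat.cast_nonneg w
  have hx0 : (0 : ℝ) ≤ (x : ℝ) := Nat.cast_nonneg x
  have hk0 : (0 : ℝ) ≤ (k : ℝ) := Nat.cast_nonneg k
  unfold God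
  refine div_nonneg (div_nonneg (mul_nonneg (N08_dev_nonneg _ _ _) ?_) ?_) ?_ <;> linarith

/-- the bound of `φ` -/
private theorem N08_phi (D w x x1 k g : ℕ) (G : ℝ) (hk : k + 2 ≤ D) (h1 : x1 ≤ x)
    (hG : G * SC ≤ g) (hG0 : 0 ≤ G) :
    G * Ps (D + k + 1) (2 * D + w + x) * SC ≤
      cd (g * ((D + k) * (D + k - 1))) ((D - k + w + x1) * (2 * D - 1 + w + x1)) := by
  have hk' : (k : ℝ) + 2 ≤ (D : ℝ) := by exact_mod_cast hk
  have hw0 : (0 : ℝ) ≤ (w : ℝ) := Nat.cast_nonneg w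
  have hx0 : (0 : ℝ) ≤ (x : ℝ) := Nat.cast_nonneg x
  have hx10 : (0 : ℝ) ≤ (x1 : ℝ) := Nat.cast_nonneg x1
  have hk0 : (0 : ℝ) ≤ (k : ℝ) := Nat.cast_nonneg k
  have hxx : (x1 : ℝ) ≤ (x : ℝ) := by exact_mod_cast h1
  refine le_cd (Nat.mul_pos (by omega) (by omega)) ?_
  have c1 : ((D + k - 1 : ℕ) : ℝ) = (D : ℝ) + k - 1 := by
    rw [Nat.cast_sub (by omega)]; push_cast; ring
  have c2 : ((D - k + w + x1 : ℕ) : ℝ) = (D : ℝ) - k + w + x1 := by
    rw [Nat.cast_add, Nat.cast_add, Nat.cast_sub (by omega)]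
  have c3 : ((2 * D - 1 + w + x1 : ℕ) : ℝ) = 2 * (D : ℝ) - 1 + w + x1 := by
    rw [Nat.cast_add, Nat.cast_add, Nat.cast_sub (by omega)]; push_cast; ring
  have hPs : Ps (D + k + 1) (2 * D + w + x) =
      ((D : ℝ) + k) * ((D : ℝ) + k - 1) / (((D : ℝ) - k + w + x) * (2 * (D : ℝ) - 1 + w + x)) := by
    unfold Ps
    push_cast
    congr 1
    · ring
    · ring
  have hden : 0 < ((D : ℝ) - k + w + x) * (2 * (D : ℝ) - 1 + w + x) :=
    mul_pos (by linarith) (by linarith)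
  have hnum : 0 ≤ ((D : ℝ) + k) * ((D : ℝ) + k - 1) := mul_nonneg (by linarith) (by linarith)
  have hq : ((D : ℝ) - k + w + x1) * (2 * (D : ℝ) - 1 + w + x1) ≤
      ((D : ℝ) - k + w + x) * (2 * (D : ℝ) - 1 + w + x) :=
    mul_le_mul (by linarith) (by linarith) (by linarith) (by linarith)
  rw [Nat.cast_mul, Nat.cast_mul, Nat.cast_mul, c1, c2, c3, Nat.cast_add]
  have hmain : Ps (D + k + 1) (2 * D + w + x) *
      (((D : ℝ) - k + w + x1) * (2 * (D : ℝ) - 1 + w + x1)) ≤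
      ((D : ℝ) + k) * ((D : ℝ) + k - 1) := by
    rw [hPs, div_mul_eq_mul_div, div_le_iff₀ hden]
    exact mul_le_mul_of_nonneg_left hq hnum
  calc G * Ps (D + k + 1) (2 * D + w + x) * SC *
        (((D : ℝ) - k + w + x1) * (2 * (D : ℝ) - 1 + w + x1))
      = (G * SC) * (Ps (D + k + 1) (2 * D + w + x) *
        (((D : ℝ) - k + w + x1) * (2 * (D : ℝ) - 1 + w + x1))) := by ring
    _ ≤ (G * SC) * (((D : ℝ) + k) * ((D : ℝ) + k - 1)) :=
        mul_le_mul_of_nonneg_left hmain (mul_nonneg hG0 N08_SC.le)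
    _ ≤ (g : ℝ) * (((D : ℝ) + k) * ((D : ℝ) + k - 1)) := mul_le_mul_of_nonneg_right hG hnum

/-- the loop -/
private theorem N08_loop (D w x x1 x2 j : ℕ) (inf : Bool) (hD : 2 ≤ D) (h1 : x1 ≤ x)
    (h2 : inf = false → x ≤ x2) (n : ℕ) (hn : n + 2 ≤ D) :
    Gh D w x j n * SC ≤ (dcLoop D w x1 x2 inf j n).1 ∧
    Gh D w x j n * Ps (D + n + 1) (2 * D + w + x) * SC ≤ (dcLoop D w x1 x2 inf j n).2.1 ∧
    (∑ k ∈ Icc 1 n,
      (Gev D w x j k * P2 (D - k) (2 * k) * (((D : ℝ) + k - 1) / (2 * D - 2 + w + x)) +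
       God D w x j k * P2 (D - k) (2 * k + 1) * (((D : ℝ) + k) / (2 * D - 1 + w + x)) +
       (Gh D w x j k * Ps (D + k + 1) (2 * D + w + x) -
          Gh D w x j (k - 1) * Ps (D + k) (2 * D + w + x)) * Rd (D - k) (D + k))) * SC +
      (((dcLoop D w x1 x2 inf j n).2.1 : ℝ) - Gh D w x j n * Ps (D + n + 1) (2 * D + w + x) * SC) *
        Rd (D - n) (D + n) ≤ (dcLoop D w x1 x2 inf j n).2.2 := by
  induction n with
  | zero => simp [Gh, dcLoop]
  | succ n ih =>
    obtain ⟨i1, i2, i3⟩ := ih (by omega)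
    have hSC := N08_SC
    rw [dcLoop]
    generalize dcLoop D w x1 x2 inf j n = s at i1 i2 i3 ⊢
    obtain ⟨g0, p0, t0⟩ := s
    simp only at i1 i2 i3
    unfold dcStep
    simp only
    have hge := N08_Gev D w x x2 j (n + 1) inf hD (by omega) h2
    have hgo := N08_God D w x x2 j (n + 1) inf hD (by omega) h2
    generalize cd (SC * dvN (D + (n + 1)) (2 * D - 1 + w) j *
      frA inf (2 * D - 1 + w + x2) (2 * (n + 1)))
      (j.factorial * frB inf (2 * D - 1 + w + x2) * (D - (n + 1) + 1 + w)) = ge at hge ⊢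
    generalize cd (SC * dvN (D + (n + 1) + 1) (2 * D + w) (j - 1) *
      frA inf (2 * D - 1 + w + x2) (2 * (n + 1)))
      ((j - 1).factorial * frB inf (2 * D - 1 + w + x2 + 1) * (D - (n + 1) + 1 + w)) = go at hgo ⊢
    have hg : Gh D w x j (n + 1) * SC ≤ ((max g0 (max ge go) : ℕ) : ℝ) := by
      rw [Gh, Nat.cast_max, Nat.cast_max, max_mul_of_nonneg _ _ hSC.le,
        max_mul_of_nonneg _ _ hSC.le]
      exact max_le_max i1 (max_le_max hge hgo)
    generalize max g0 (max ge go) = g at hg ⊢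
    have hph := N08_phi D w x x1 (n + 1) g (Gh D w x j (n + 1)) (by omega) h1 hg
      (N08_Gh_nonneg _ _ _ _ _)
    generalize cd (g * ((D + (n + 1)) * (D + (n + 1) - 1)))
      ((D - (n + 1) + w + x1) * (2 * D - 1 + w + x1)) = c at hph ⊢
    have hD' : (2 : ℝ) ≤ (D : ℝ) := by exact_mod_cast hD
    have hw0 : (0 : ℝ) ≤ (w : ℝ) := Nat.cast_nonneg w
    have hx0 : (0 : ℝ) ≤ (x : ℝ) := Nat.cast_nonneg x
    have hn0 : (0 : ℝ) ≤ (n : ℝ) := Nat.cast_nonneg n
    have hxx : (x1 : ℝ) ≤ (x : ℝ) := by exact_mod_cast h1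
    -- the terms
    have ht1 := N08_term (Gev D w x j (n + 1)) (P2 (D - (n + 1)) (2 * (n + 1)))
      (2 * ((2 * (n + 1) : ℕ) : ℝ) * (2 * ((2 * (n + 1) : ℕ) : ℝ) - 1))
      ((D : ℝ) + ((n + 1 : ℕ) : ℝ) - 1) (2 * D - 2 + w + x) SC ge
      (p2N (D - (n + 1)) (2 * (n + 1))) (D + (n + 1) - 1)
      (2 * (2 * (n + 1)) * (2 * (2 * (n + 1)) - 1)) (2 * D - 1 + w + x1 - 1) hge
      (mul_nonneg (N08_Gev_nonneg D w x j (n + 1) (by omega)) hSC.le)
      (by push_cast; linarith)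
      (by
        rw [Nat.cast_sub (by omega), Nat.cast_add, Nat.cast_add, Nat.cast_sub (by omega)]
        push_cast; linarith)
      (by omega) (N08_P2 _ _ (by omega))
      (by rw [Nat.cast_mul, Nat.cast_sub (by omega)]; push_cast; ring)
      (Nat.mul_pos (by omega) (by omega))
      (by rw [Nat.cast_sub (by omega)]; push_cast; ring)
    have ht2 := N08_term (God D w x j (n + 1)) (P2 (D - (n + 1)) (2 * (n + 1) + 1))
      (2 * ((2 * (n + 1) + 1 : ℕ) : ℝ) * (2 * ((2 * (n + 1) + 1 : ℕ) : ℝ) - 1))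
      ((D : ℝ) + ((n + 1 : ℕ) : ℝ)) (2 * D - 1 + w + x) SC go
      (p2N (D - (n + 1)) (2 * (n + 1) + 1)) (D + (n + 1))
      (2 * (2 * (n + 1) + 1) * (2 * (2 * (n + 1) + 1) - 1)) (2 * D - 1 + w + x1) hgo
      (mul_nonneg (N08_God_nonneg D w x j (n + 1) (by omega)) hSC.le)
      (by push_cast; linarith)
      (by
        rw [Nat.cast_add, Nat.cast_add, Nat.cast_sub (by omega)]
        push_cast; linarith)
      (by omega) (N08_P2 _ _ (by omega))
      (by rw [Nat.cast_mul, Nat.cast_sub (by omega)]; push_cast; ring)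
      (Nat.mul_pos (by omega) (by omega))
      (by push_cast; ring)
    have hR : Rd (D - (n + 1)) (D + (n + 1)) * SC ≤
        (rbN 400 (D - (n + 1)) (D + (n + 1) - 1) : ℝ) := by
      have h := rbN_le 400 (D - (n + 1)) (D + (n + 1) - 1) (by omega)
      rwa [show D + (n + 1) - 1 + 1 = D + (n + 1) by omega] at h
    have hR0 : 0 ≤ Rd (D - (n + 1)) (D + (n + 1)) := Rd_nonneg _ _
    have hRR : Rd (D - (n + 1)) (D + (n + 1)) ≤ Rd (D - n) (D + n) :=
      (Rd_mono _ _ _ (by omega)).trans (Rd_anti _ _ _ (by omega))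
    have ht3 : (((max p0 c : ℕ) : ℝ) - (p0 : ℝ)) * Rd (D - (n + 1)) (D + (n + 1)) ≤
        (cd ((max p0 c - p0) * rbN 400 (D - (n + 1)) (D + (n + 1) - 1)) SC : ℝ) := by
      refine le_cd (by norm_num [SC]) ?_
      rw [Nat.cast_mul, Nat.cast_sub (le_max_left p0 c), mul_assoc]
      refine mul_le_mul_of_nonneg_left hR ?_
      rw [sub_nonneg]
      exact_mod_cast le_max_left p0 c
    refine ⟨hg, ?_, ?_⟩
    · rw [Nat.cast_max]
      exact le_max_of_le_right hph
    · rw [Finset.sum_Icc_succ_top (by omega)]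
      have e0 : n + 1 - 1 = n := by omega
      have e1 : D + (n + 1) = D + n + 1 := by omega
      have hkey : 0 ≤ ((p0 : ℝ) - Gh D w x j n * Ps (D + n + 1) (2 * D + w + x) * SC) *
          (Rd (D - n) (D + n) - Rd (D - (n + 1)) (D + (n + 1))) :=
        mul_nonneg (by linarith) (by linarith)
      have e2 : Ps (D + (n + 1)) (2 * D + w + x) = Ps (D + n + 1) (2 * D + w + x) := by rw [e1]
      rw [e0, e2]
      refine (N08_final _ _ _ _ _ _ _ _ _ _ _ _ _ _ ht1 ht2 ht3 i3 hkey).trans (le_of_eq ?_)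
      rw [Nat.cast_add, Nat.cast_add, Nat.cast_add]

/-- Every `x` in the cell.  With `φ_k = Gh D w x j k * Ps (D+k+1) (2D+w+x)` (true values,
nondecreasing, `φ_0 = 0`), `R_k = Rd (D-k) (D+k)` nonincreasing, `φ_k ≤ ph_k / SC` (`ph` nondecreasing)
and `R_k ≤ rbN / SC`:
`∑ (φ_k - φ_{k-1}) R_k = ∑ φ_k (R_k - R_{k+1}) ≤ ∑ ph_k (R_k - R_{k+1}) = ∑ (ph_k - ph_{k-1}) R_k`
(with `R = 0` after the last index).  Monotone factors: `(m - 2k)/m` is at most its value for `x2`
(or `1`), `1/(m-1)`, `1/m`, `1/(D-k+w+x)` are at most their values for `x1`.  Prove by induction over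
the number of steps that the three components of `dcLoop` bound `SC * Gh`, `SC * φ`, and the partial
sums (keep the Abel form in the induction, or do the Abel summation first). -/
theorem dcN_le (D w x x1 x2 j : ℕ) (inf : Bool) (hD : 2 ≤ D) (h1 : x1 ≤ x)
    (h2 : inf = false → x ≤ x2) : Dc D w x j * SC ≤ dcN D w x1 x2 inf j := by
  obtain ⟨_, i2, i3⟩ := N08_loop D w x x1 x2 j inf hD h1 h2 (D - 2) (by omega)
  have hR0 : 0 ≤ Rd (D - (D - 2)) (D + (D - 2)) := Rd_nonneg _ _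
  have hk := mul_nonneg (sub_nonneg.mpr i2) hR0
  unfold Dc dcN
  linarith

end Pool.ADM
end

section

/-! job ADN-09: soundness of `hpN`, `hcN`. -/

set_option autoImplicit false

namespace Pool.ADM

open Finset

/-- the bound of `Hw` in the loop. -/
private def N09_hw (D w x2 : ℕ) (inf : Bool) (J par k : ℕ) : ℕ :=
  cd (SC * ((D - 1 - k + (2 * k + par) + 1) * (D - 1 - k + (2 * k + par) + (D - 1 - k + w) + 1) -
      (D - 1 - k + w + 1) * (2 * (D - 1 - k + (2 * k + par)) + (D - 1 - k + w) + 1)) *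
      ((D - 1 - k + 1) * (D - 1 - k + (D - 1 - k + w) + 1)) * (D - 1 - k + (2 * k + par)) *
      frA inf (2 * D - 2 + w + x2 + J + par) (2 * k + par))
    ((D - 1 - k + (2 * k + par) + 1) * (D - 1 - k + (2 * k + par) + (D - 1 - k + w) + 1) *
      ((D - 1 - k + w + 1) * (2 * (D - 1 - k) + (D - 1 - k + w) + 1)) * (D - 1 - k) *
      frB inf (2 * D - 2 + w + x2 + J + par) * (D - 1 - k + 2 + w))

private theorem N09_frac (n n2 e : ℕ) (inf : Bool) (hn : 0 < n) (he : e ≤ n)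
    (h2 : inf = false → n ≤ n2) :
    ((n : ℝ) - e) / n ≤ (frA inf n2 e : ℝ) / frB inf n2 := by
  have hn' : (0 : ℝ) < n := by exact_mod_cast hn
  cases inf with
  | true =>
    have e1 : frA true n2 e = 1 := rfl
    have e2 : frB true n2 = 1 := rfl
    rw [e1, e2, Nat.cast_one, div_one, div_le_one hn']
    have : (0 : ℝ) ≤ e := Nat.cast_nonneg e
    linarith
  | false =>
    have h3 := h2 rfl
    have e1 : frA false n2 e = n2 - e := rfl
    have e2 : frB false n2 = n2 := rfl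
    have hn2 : (0 : ℝ) < n2 := by exact_mod_cast (by omega : 0 < n2)
    rw [e1, e2, Nat.cast_sub (by omega : e ≤ n2), div_le_div_iff₀ hn' hn2]
    have h4 : (n : ℝ) ≤ n2 := by exact_mod_cast h3
    have h5 : (0 : ℝ) ≤ e := Nat.cast_nonneg e
    nlinarith

private theorem N09_frB_pos (n2 : ℕ) (inf : Bool) (h : inf = false → 0 < n2) :
    0 < frB inf n2 := by
  cases inf with
  | true => exact Nat.one_pos
  | false => exact h rfl

private theorem N09_Hw (w x J n d e n2 : ℕ) (inf : Bool) (hd : 0 < d) (hn : 0 < n) (he : e ≤ n)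
    (h2 : inf = false → n ≤ n2) :
    Hw w x J n d e * SC ≤ ((x : ℝ) + J + 1) *
      (cd (SC * ((d + e + 1) * (d + e + (d + w) + 1) -
          (d + w + 1) * (2 * (d + e) + (d + w) + 1)) *
          ((d + 1) * (d + (d + w) + 1)) * (d + e) * frA inf n2 e)
        ((d + e + 1) * (d + e + (d + w) + 1) *
          ((d + w + 1) * (2 * d + (d + w) + 1)) * d * frB inf n2 * (d + 2 + w)) : ℕ) := by
  have hB : 0 < frB inf n2 := N09_frB_pos n2 inf fun h => lt_of_lt_of_le hn (h2 h)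
  have hF := N09_frac n n2 e inf hn he h2
  have hSC : (0 : ℝ) ≤ (SC : ℝ) := Nat.cast_nonneg _
  have hX : (0 : ℝ) ≤ (x : ℝ) + J + 1 := by positivity
  have hd' : (0 : ℝ) < d := by exact_mod_cast hd
  have hB' : (0 : ℝ) < frB inf n2 := by exact_mod_cast hB
  have hA' : (0 : ℝ) ≤ frA inf n2 e := Nat.cast_nonneg _
  have hn' : (0 : ℝ) < n := by exact_mod_cast hn
  have he' : (e : ℝ) ≤ n := by exact_mod_cast he
  set N1 : ℕ := (d + e + 1) * (d + e + (d + w) + 1) -
    (d + w + 1) * (2 * (d + e) + (d + w) + 1) with hN1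
  have hN : ((d + e + 1) * (d + e + (d + w) + 1) : ℝ) -
      (d + w + 1) * (2 * (d + e) + (d + w) + 1) ≤ (N1 : ℝ) := by
    have h3 : (d + e + 1) * (d + e + (d + w) + 1) ≤
        N1 + (d + w + 1) * (2 * (d + e) + (d + w) + 1) := by omega
    have h4 : (((d + e + 1) * (d + e + (d + w) + 1) : ℕ) : ℝ) ≤
        ((N1 + (d + w + 1) * (2 * (d + e) + (d + w) + 1) : ℕ) : ℝ) := by exact_mod_cast h3
    push_cast at h4
    linarith
  have hAp : (0 : ℝ) < (d + e + 1) * (d + e + (d + w) + 1) := by positivity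
  have hM : max 0 (1 - rho (d + e) (d + w)) ≤
      (N1 : ℝ) / ((d + e + 1) * (d + e + (d + w) + 1)) := by
    apply max_le
    · positivity
    · unfold rho
      push_cast
      rw [le_div_iff₀ hAp]
      have h5 : (1 - ((d : ℝ) + w + 1) * (2 * (d + e) + (d + w) + 1) /
          (((d : ℝ) + e + 1) * (d + e + (d + w) + 1))) * ((d + e + 1) * (d + e + (d + w) + 1)) =
          ((d + e + 1) * (d + e + (d + w) + 1) : ℝ) -
            (d + w + 1) * (2 * (d + e) + (d + w) + 1) := by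
        rw [sub_mul, one_mul, div_mul_cancel₀ _ hAp.ne']
      rw [h5]
      exact hN
  have hM0 : 0 ≤ max 0 (1 - rho (d + e) (d + w)) := le_max_left _ _
  have hF0 : 0 ≤ ((n : ℝ) - e) / n := div_nonneg (by linarith) hn'.le
  have hrho : (0 : ℝ) < rho d (d + w) := by
    unfold rho
    positivity
  have h1 : Hw w x J n d e * SC = ((x : ℝ) + J + 1) *
      (SC * max 0 (1 - rho (d + e) (d + w)) / rho d (d + w) * (((d : ℝ) + e) / d) *
        (((n : ℝ) - e) / n) / ((d : ℝ) + 2 + w)) := by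
    unfold Hw
    ring
  rw [h1]
  apply mul_le_mul_of_nonneg_left _ hX
  refine le_trans ?_ (cd_le _ _ (by positivity))
  have h6 : SC * max 0 (1 - rho (d + e) (d + w)) / rho d (d + w) * (((d : ℝ) + e) / d) *
        (((n : ℝ) - e) / n) / ((d : ℝ) + 2 + w) ≤
      SC * ((N1 : ℝ) / ((d + e + 1) * (d + e + (d + w) + 1))) / rho d (d + w) *
        (((d : ℝ) + e) / d) * ((frA inf n2 e : ℝ) / frB inf n2) / ((d : ℝ) + 2 + w) := by
    gcongr
  refine h6.trans (le_of_eq ?_)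
  unfold rho
  push_cast
  field_simp

private theorem N09_step (D w x1 x2 : ℕ) (inf : Bool) (J par k : ℕ) (s : ℕ × ℕ × ℕ) :
    hpStep D w x1 x2 inf J par k s =
      (max s.1 (N09_hw D w x2 inf J par k),
       max s.2.1 (cd (max s.1 (N09_hw D w x2 inf J par k) *
          ((D - 1 - k + (2 * k + par) - 1) * (D - 1 - k + (2 * k + par) - 2)) *
          (if inf then 1 else x2 + J + 1))
        ((2 * D - 2 + w + x1 + J + par - 1) *
          (if inf then 1 else 2 * D - 2 + w + x2 + J + par + 1 - (D - 1 - k + (2 * k + par))))),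
       s.2.2 +
        (if 2 * k + par = 0 then 0 else if 2 * k + par ≤ D - 1 - k then
          cd (N09_hw D w x2 inf J par k * (D - 1 - k + (2 * k + par) - 1) *
            (if inf then 1 else x2 + J + 1))
          ((if inf then 1 else 2 * D - 2 + w + x2 + J + par - 1) *
            (2 * (2 * k + par) * (2 * (2 * k + par) - 1))) else 0) +
        cd ((max s.2.1 (cd (max s.1 (N09_hw D w x2 inf J par k) *
          ((D - 1 - k + (2 * k + par) - 1) * (D - 1 - k + (2 * k + par) - 2)) *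
          (if inf then 1 else x2 + J + 1))
        ((2 * D - 2 + w + x1 + J + par - 1) *
          (if inf then 1 else 2 * D - 2 + w + x2 + J + par + 1 - (D - 1 - k + (2 * k + par)))))
          - s.2.1) * rbN 400 (D - 1 - k) (D - 1 - k + (2 * k + par) - 1)) SC) := rfl

private theorem N09_abel (K : ℕ) (δ R : ℕ → ℝ) (h0 : δ 0 = 0) (hδ : ∀ k ≤ K, 0 ≤ δ k)
    (hR : ∀ k, R (k + 1) ≤ R k) :
    δ K * R K ≤ ∑ k ∈ range K, (δ (k + 1) - δ k) * R k := by
  induction K with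
  | zero => simp [h0]
  | succ K ih =>
    rw [Finset.sum_range_succ]
    have h1 := ih fun k hk => hδ k (by omega)
    have h2 := mul_le_mul_of_nonneg_left (hR K) (hδ (K + 1) le_rfl)
    nlinarith

private theorem N09_hw_le (D w x x2 J par k : ℕ) (inf : Bool) (hk : k + 2 < D)
    (h2 : inf = false → x ≤ x2) :
    Hw w x J (2 * D - 2 + w + x + J + par) (D - 1 - k) (2 * k + par) * SC ≤
      ((x : ℝ) + J + 1) * (N09_hw D w x2 inf J par k : ℕ) :=
  N09_Hw w x J (2 * D - 2 + w + x + J + par) (D - 1 - k) (2 * k + par)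
    (2 * D - 2 + w + x2 + J + par) inf (by omega) (by omega) (by omega)
    (fun h => by have := h2 h; omega)

private theorem N09_Hh (D w x x1 x2 J par : ℕ) (inf : Bool)
    (h2 : inf = false → x ≤ x2) (k : ℕ) (hk : k + 2 < D) :
    Hh D w x J (2 * D - 2 + w + x + J + par) par k * SC ≤
      ((x : ℝ) + J + 1) * ((hpLoop D w x1 x2 inf J par (k + 1)).1 : ℕ) := by
  have hX : (0 : ℝ) ≤ (x : ℝ) + J + 1 := by positivity
  have hSC : (0 : ℝ) ≤ (SC : ℝ) := Nat.cast_nonneg _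
  induction k with
  | zero =>
    have h3 := N09_hw_le D w x x2 J par 0 inf hk h2
    have e1 : Hh D w x J (2 * D - 2 + w + x + J + par) par 0 =
        Hw w x J (2 * D - 2 + w + x + J + par) (D - 1 - 0) (2 * 0 + par) := by
      rw [Nat.sub_zero, Nat.mul_zero, Nat.zero_add]
      rfl
    rw [e1]
    refine h3.trans (mul_le_mul_of_nonneg_left ?_ hX)
    have h4 : N09_hw D w x2 inf J par 0 ≤ (hpLoop D w x1 x2 inf J par (0 + 1)).1 :=
      le_max_right _ _
    exact_mod_cast h4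
  | succ k ih =>
    have h3 := ih (by omega)
    have h4 := N09_hw_le D w x x2 J par (k + 1) inf hk h2
    have e1 : Hh D w x J (2 * D - 2 + w + x + J + par) par (k + 1) =
        max (Hh D w x J (2 * D - 2 + w + x + J + par) par k)
          (Hw w x J (2 * D - 2 + w + x + J + par) (D - 1 - (k + 1)) (2 * (k + 1) + par)) := rfl
    have h5 : (hpLoop D w x1 x2 inf J par (k + 1)).1 ≤
        (hpLoop D w x1 x2 inf J par (k + 1 + 1)).1 := le_max_left _ _
    have h6 : N09_hw D w x2 inf J par (k + 1) ≤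
        (hpLoop D w x1 x2 inf J par (k + 1 + 1)).1 := le_max_right _ _
    have h5' : ((hpLoop D w x1 x2 inf J par (k + 1)).1 : ℝ) ≤
        ((hpLoop D w x1 x2 inf J par (k + 1 + 1)).1 : ℝ) := by exact_mod_cast h5
    have h6' : (N09_hw D w x2 inf J par (k + 1) : ℝ) ≤
        ((hpLoop D w x1 x2 inf J par (k + 1 + 1)).1 : ℝ) := by exact_mod_cast h6
    rw [e1, max_mul_of_nonneg _ _ hSC]
    exact max_le (h3.trans (mul_le_mul_of_nonneg_left h5' hX))
      (h4.trans (mul_le_mul_of_nonneg_left h6' hX))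

/-- the true values, shifted by one -/
private noncomputable def N09_phi (D w x J par k : ℕ) : ℝ :=
  if k = 0 then 0 else
    Hh D w x J (2 * D - 2 + w + x + J + par) par (k - 1) *
      Ps (D - 2 + k + par) (2 * D - 2 + w + x + J + par)

private theorem N09_phi_le (D w x x1 x2 J par : ℕ) (inf : Bool) (h1 : x1 ≤ x)
    (h2 : inf = false → x ≤ x2) (k : ℕ) (hk : k + 1 < D) :
    N09_phi D w x J par k * SC ≤ ((hpLoop D w x1 x2 inf J par k).2.1 : ℕ) := by
  cases k with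
  | zero =>
    unfold N09_phi
    rw [if_pos rfl, zero_mul]
    exact Nat.cast_nonneg _
  | succ k =>
    have hX : (0 : ℝ) < (x : ℝ) + J + 1 := by positivity
    have hk' : k + 2 < D := by omega
    have h3 := N09_Hh D w x x1 x2 J par inf h2 k hk'
    unfold N09_phi
    rw [if_neg (Nat.succ_ne_zero k), Nat.add_sub_cancel]
    set G : ℕ := (hpLoop D w x1 x2 inf J par (k + 1)).1 with hG
    have hGle : cd (G * ((D - 1 - k + (2 * k + par) - 1) * (D - 1 - k + (2 * k + par) - 2)) *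
          (if inf then 1 else x2 + J + 1))
        ((2 * D - 2 + w + x1 + J + par - 1) *
          (if inf then 1 else 2 * D - 2 + w + x2 + J + par + 1 - (D - 1 - k + (2 * k + par)))) ≤
        (hpLoop D w x1 x2 inf J par (k + 1)).2.1 := le_max_right _ _
    refine le_trans ?_ (Nat.cast_le.2 hGle)
    have ea : D - 1 - k + (2 * k + par) = D - 1 + k + par := by omega
    have ea2 : D - 2 + (k + 1) + par = D - 1 + k + par := by omega
    rw [ea, ea2]
    set a : ℕ := D - 1 + k + par with ha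
    have ha2 : 2 ≤ a := by omega
    set n : ℕ := 2 * D - 2 + w + x + J + par with hn
    set n1 : ℕ := 2 * D - 2 + w + x1 + J + par with hn1
    set n2 : ℕ := 2 * D - 2 + w + x2 + J + par with hn2
    have hna : a + x + J ≤ n := by omega
    have hn11 : 2 ≤ n1 := by omega
    have hn1n : n1 ≤ n := by omega
    have hG0 : (0 : ℝ) ≤ (G : ℝ) := Nat.cast_nonneg _
    have ha' : (2 : ℝ) ≤ a := by exact_mod_cast ha2
    have hn' : (2 : ℝ) ≤ n1 := by exact_mod_cast hn11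
    have hn1n' : (n1 : ℝ) ≤ n := by exact_mod_cast hn1n
    have hna' : (a : ℝ) + x + J ≤ n := by exact_mod_cast hna
    have e1 : ((n1 - 1 : ℕ) : ℝ) = (n1 : ℝ) - 1 := by rw [Nat.cast_sub (by omega), Nat.cast_one]
    have e2 : ((a - 1 : ℕ) : ℝ) = (a : ℝ) - 1 := by rw [Nat.cast_sub (by omega), Nat.cast_one]
    have e3 : ((a - 2 : ℕ) : ℝ) = (a : ℝ) - 2 := by rw [Nat.cast_sub (by omega), Nat.cast_two]
    have hPs : 0 ≤ Ps a n := by
      unfold Ps
      apply div_nonneg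
      · exact mul_nonneg (by linarith) (by linarith)
      · refine mul_nonneg ?_ (by linarith)
        have : (0 : ℝ) ≤ (x : ℝ) + J := by positivity
        linarith
    -- the ratio
    have hr : ((x : ℝ) + J + 1) / ((n : ℝ) - a + 1) ≤
        ((if inf then 1 else x2 + J + 1 : ℕ) : ℝ) / ((if inf then 1 else n2 + 1 - a : ℕ) : ℝ) := by
      have hden : (0 : ℝ) < (n : ℝ) - a + 1 := by
        have : (0 : ℝ) ≤ (x : ℝ) + J := by positivity
        linarith
      cases inf with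
      | true =>
        rw [if_pos rfl, if_pos rfl, Nat.cast_one, div_one, div_le_one hden]
        linarith
      | false =>
        have h5 := h2 rfl
        rw [if_neg (by decide), if_neg (by decide)]
        have h6 : (x : ℝ) ≤ x2 := by exact_mod_cast h5
        have e4 : ((n2 + 1 - a : ℕ) : ℝ) = (n : ℝ) - a + 1 + ((x2 : ℝ) - x) := by
          have h7 : a ≤ n2 + 1 := by omega
          have h8 : n2 + x = n + x2 := by omega
          have h9 : (n2 : ℝ) + x = n + x2 := by exact_mod_cast h8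
          rw [Nat.cast_sub h7]
          push_cast
          linarith
        have e5 : ((x2 + J + 1 : ℕ) : ℝ) = (x : ℝ) + J + 1 + ((x2 : ℝ) - x) := by
          push_cast
          ring
        rw [e4, e5, div_le_div_iff₀ hden (by linarith)]
        nlinarith
    have hq : 0 < (if inf then 1 else n2 + 1 - a : ℕ) := by
      cases inf with
      | true => exact Nat.one_pos
      | false =>
        have h5 := h2 rfl
        rw [if_neg (by decide)]
        omega
    have h4 : Hh D w x J n par k * Ps a n * SC ≤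
        (G : ℝ) * (((a : ℝ) - 1) * (a - 2)) *
          (((x : ℝ) + J + 1) / ((n : ℝ) - a + 1)) / ((n : ℝ) - 1) := by
      have h5 := mul_le_mul_of_nonneg_right h3 hPs
      have h6 : Hh D w x J n par k * Ps a n * SC = Hh D w x J n par k * SC * Ps a n := by ring
      rw [h6]
      refine h5.trans (le_of_eq ?_)
      unfold Ps
      rw [div_eq_mul_inv, div_eq_mul_inv, div_eq_mul_inv, mul_inv]
      ring
    refine h4.trans ?_
    refine le_trans ?_ (cd_le _ _ (Nat.mul_pos (by omega) hq))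
    push_cast [e1, e2, e3]
    have hN0 : (0 : ℝ) ≤ ((a : ℝ) - 1) * (a - 2) := mul_nonneg (by linarith) (by linarith)
    calc (G : ℝ) * (((a : ℝ) - 1) * (a - 2)) *
          (((x : ℝ) + J + 1) / ((n : ℝ) - a + 1)) / ((n : ℝ) - 1)
        ≤ (G : ℝ) * (((a : ℝ) - 1) * (a - 2)) *
          (((if inf then 1 else x2 + J + 1 : ℕ) : ℝ) /
            ((if inf then 1 else n2 + 1 - a : ℕ) : ℝ)) / ((n : ℝ) - 1) := by
          gcongr
          linarith
      _ ≤ (G : ℝ) * (((a : ℝ) - 1) * (a - 2)) *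
          (((if inf then 1 else x2 + J + 1 : ℕ) : ℝ) /
            ((if inf then 1 else n2 + 1 - a : ℕ) : ℝ)) / ((n1 : ℝ) - 1) := by
          apply div_le_div_of_nonneg_left _ (by linarith) (by linarith)
          positivity
      _ = _ := by
          push_cast
          rw [div_eq_mul_inv, div_eq_mul_inv, div_eq_mul_inv, mul_inv]
          ring

/-- the first term of the loop -/
private def N09_fst (D w x2 : ℕ) (inf : Bool) (J par k : ℕ) : ℕ :=
  if 2 * k + par = 0 then 0 else if 2 * k + par ≤ D - 1 - k then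
    cd (N09_hw D w x2 inf J par k * (D - 1 - k + (2 * k + par) - 1) *
      (if inf then 1 else x2 + J + 1))
    ((if inf then 1 else 2 * D - 2 + w + x2 + J + par - 1) *
      (2 * (2 * k + par) * (2 * (2 * k + par) - 1))) else 0

private theorem N09_fst_le (D w x x2 J par : ℕ) (inf : Bool)
    (h2 : inf = false → x ≤ x2) (k : ℕ) (hk : k + 2 < D) :
    Hw w x J (2 * D - 2 + w + x + J + par) (D - 1 - k) (2 * k + par) *
      P2s (D - 1 - k) (2 * k + par) *
      (((D : ℝ) - 2 + k + par) / (((2 * D - 2 + w + x + J + par : ℕ) : ℝ) - 1)) * SC ≤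
      (N09_fst D w x2 inf J par k : ℕ) := by
  have h3 := N09_hw_le D w x x2 J par k inf hk h2
  unfold N09_fst P2s
  by_cases he : 2 * k + par = 0
  · rw [if_pos he, he]
    simp
  · rw [if_neg he]
    by_cases hed : 2 * k + par ≤ D - 1 - k
    · rw [if_pos hed, if_pos hed]
      have ea : D - 1 - k + (2 * k + par) = D - 1 + k + par := by omega
      rw [ea]
      set e : ℕ := 2 * k + par with hedef
      set a : ℕ := D - 1 + k + par with ha
      set n : ℕ := 2 * D - 2 + w + x + J + par with hn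
      set n2 : ℕ := 2 * D - 2 + w + x2 + J + par with hn2
      set H : ℕ := N09_hw D w x2 inf J par k with hH
      have ha2 : 2 ≤ a := by omega
      have hn11 : x + J + 2 ≤ n := by omega
      have e2 : ((a - 1 : ℕ) : ℝ) = (D : ℝ) - 2 + k + par := by
        have h5 : a - 1 + 2 = D + k + par := by omega
        have h6 : ((a - 1 : ℕ) : ℝ) + 2 = D + k + par := by exact_mod_cast h5
        linarith
      have e3 : ((2 * e - 1 : ℕ) : ℝ) = 2 * (e : ℝ) - 1 := by
        rw [Nat.cast_sub (by omega)]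
        push_cast
        ring
      have he1 : (1 : ℝ) ≤ e := by exact_mod_cast (by omega : 1 ≤ e)
      have ha' : (0 : ℝ) ≤ (D : ℝ) - 2 + k + par := by
        rw [← e2]
        exact Nat.cast_nonneg _
      have hn' : (x : ℝ) + J + 2 ≤ n := by exact_mod_cast hn11
      have hX : (0 : ℝ) ≤ (x : ℝ) + J := by positivity
      have hden : (0 : ℝ) < (n : ℝ) - 1 := by linarith
      have hr : ((x : ℝ) + J + 1) / ((n : ℝ) - 1) ≤
          ((if inf then 1 else x2 + J + 1 : ℕ) : ℝ) / ((if inf then 1 else n2 - 1 : ℕ) : ℝ) := by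
        cases inf with
        | true =>
          rw [if_pos rfl, if_pos rfl, Nat.cast_one, div_one, div_le_one hden]
          linarith
        | false =>
          have h5 := h2 rfl
          rw [if_neg (by decide), if_neg (by decide)]
          have h6 : (x : ℝ) ≤ x2 := by exact_mod_cast h5
          have e4 : ((n2 - 1 : ℕ) : ℝ) = (n : ℝ) - 1 + ((x2 : ℝ) - x) := by
            have h8 : n2 + x = n + x2 := by omega
            have h9 : (n2 : ℝ) + x = n + x2 := by exact_mod_cast h8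
            rw [Nat.cast_sub (by omega)]
            push_cast
            linarith
          have e5 : ((x2 + J + 1 : ℕ) : ℝ) = (x : ℝ) + J + 1 + ((x2 : ℝ) - x) := by
            push_cast
            ring
          rw [e4, e5, div_le_div_iff₀ hden (by linarith)]
          nlinarith
      have hq : 0 < (if inf then 1 else n2 - 1 : ℕ) := by
        cases inf with
        | true => exact Nat.one_pos
        | false =>
          have h5 := h2 rfl
          rw [if_neg (by decide)]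
          omega
      have hc : (0 : ℝ) ≤ 1 / (2 * (e : ℝ) * (2 * e - 1)) *
          (((D : ℝ) - 2 + k + par) / ((n : ℝ) - 1)) := by
        apply mul_nonneg
        · apply div_nonneg zero_le_one
          exact mul_nonneg (by linarith) (by linarith)
        · exact div_nonneg ha' hden.le
      have h4 := mul_le_mul_of_nonneg_right h3 hc
      have h5 : Hw w x J n (D - 1 - k) e * (1 / (2 * (e : ℝ) * (2 * e - 1))) *
          (((D : ℝ) - 2 + k + par) / ((n : ℝ) - 1)) * SC ≤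
          (H : ℝ) * ((D : ℝ) - 2 + k + par) * (((x : ℝ) + J + 1) / ((n : ℝ) - 1)) /
            (2 * (e : ℝ) * (2 * e - 1)) := by
        have h6 : Hw w x J n (D - 1 - k) e * (1 / (2 * (e : ℝ) * (2 * e - 1))) *
          (((D : ℝ) - 2 + k + par) / ((n : ℝ) - 1)) * SC =
          Hw w x J n (D - 1 - k) e * SC * (1 / (2 * (e : ℝ) * (2 * e - 1)) *
          (((D : ℝ) - 2 + k + par) / ((n : ℝ) - 1))) := by ring
        rw [h6]
        refine h4.trans (le_of_eq ?_)
        rw [div_eq_mul_inv, div_eq_mul_inv, div_eq_mul_inv, div_eq_mul_inv]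
        ring
      refine h5.trans ?_
      refine le_trans ?_ (cd_le _ _ (Nat.mul_pos hq (Nat.mul_pos (by omega) (by omega))))
      push_cast [e2, e3]
      have hee : (0 : ℝ) < 2 * (e : ℝ) * (2 * e - 1) := mul_pos (by linarith) (by linarith)
      calc (H : ℝ) * ((D : ℝ) - 2 + k + par) * (((x : ℝ) + J + 1) / ((n : ℝ) - 1)) /
            (2 * (e : ℝ) * (2 * e - 1))
          ≤ (H : ℝ) * ((D : ℝ) - 2 + k + par) *
            (((if inf then 1 else x2 + J + 1 : ℕ) : ℝ) /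
              ((if inf then 1 else n2 - 1 : ℕ) : ℝ)) / (2 * (e : ℝ) * (2 * e - 1)) := by
            gcongr
        _ = _ := by
            push_cast
            rw [mul_div_assoc', div_div]
    · rw [if_neg hed, if_neg hed]
      simp

private theorem N09_loop (D w x1 x2 : ℕ) (inf : Bool) (J par : ℕ) (K : ℕ) (hK : K + 2 ≤ D) :
    ∑ k ∈ range K, ((N09_fst D w x2 inf J par k : ℝ) +
      (((hpLoop D w x1 x2 inf J par (k + 1)).2.1 : ℝ) -
        ((hpLoop D w x1 x2 inf J par k).2.1 : ℝ)) * Rd (D - 1 - k) (D - 1 + k + par)) ≤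
      ((hpLoop D w x1 x2 inf J par K).2.2 : ℕ) := by
  induction K with
  | zero =>
    rw [Finset.sum_range_zero]
    exact Nat.cast_nonneg _
  | succ K ih =>
    rw [Finset.sum_range_succ]
    have h1 := ih (by omega)
    have h3 : (hpLoop D w x1 x2 inf J par (K + 1)).2.2 =
        (hpLoop D w x1 x2 inf J par K).2.2 + N09_fst D w x2 inf J par K +
        cd (((hpLoop D w x1 x2 inf J par (K + 1)).2.1 - (hpLoop D w x1 x2 inf J par K).2.1) *
          rbN 400 (D - 1 - K) (D - 1 - K + (2 * K + par) - 1)) SC := rfl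
    have h4 : (hpLoop D w x1 x2 inf J par K).2.1 ≤ (hpLoop D w x1 x2 inf J par (K + 1)).2.1 :=
      le_max_left _ _
    rw [h3]
    push_cast
    have h5 : (((hpLoop D w x1 x2 inf J par (K + 1)).2.1 : ℝ) -
        ((hpLoop D w x1 x2 inf J par K).2.1 : ℝ)) * Rd (D - 1 - K) (D - 1 + K + par) ≤
        (cd (((hpLoop D w x1 x2 inf J par (K + 1)).2.1 - (hpLoop D w x1 x2 inf J par K).2.1) *
          rbN 400 (D - 1 - K) (D - 1 - K + (2 * K + par) - 1)) SC : ℕ) := by
      apply le_cd (by unfold SC; norm_num)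
      have h6 := rbN_le 400 (D - 1 - K) (D - 1 - K + (2 * K + par) - 1) (by omega)
      have e1 : D - 1 - K + (2 * K + par) - 1 + 1 = D - 1 + K + par := by omega
      rw [e1] at h6
      have h7 : (0 : ℝ) ≤ ((hpLoop D w x1 x2 inf J par (K + 1)).2.1 : ℝ) -
        ((hpLoop D w x1 x2 inf J par K).2.1 : ℝ) := by
        have : ((hpLoop D w x1 x2 inf J par K).2.1 : ℝ) ≤
          ((hpLoop D w x1 x2 inf J par (K + 1)).2.1 : ℝ) := by exact_mod_cast h4
        linarith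
      rw [Nat.cast_mul, Nat.cast_sub h4, mul_assoc]
      exact mul_le_mul_of_nonneg_left h6 h7
    linarith

/-- As `dcN_le` (see N08).  `hw` bounds `Hw` without the factor `x + J + 1`.  Monotone factors:
`(n - e)/n`, `(x+J+1)/(n-1)`, `(x+J+1)/(n-a+1)` are at most their values for `x2` (or `1`),
`1/(n-1)` is at most its value for `x1`.  `n = 2D-2+w+x+J+par`, `a = D-1+k+par`, `d = D-1-k`,
`e = 2k+par`. -/
theorem hpN_le (D w x x1 x2 J par : ℕ) (inf : Bool) (hD : 2 ≤ D) (hp : par ≤ 1) (h1 : x1 ≤ x)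
    (h2 : inf = false → x ≤ x2) :
    Hp D w x J (2 * D - 2 + w + x + J + par) par * SC ≤ hpN D w x1 x2 inf J par := by
  have hSC : (0 : ℝ) ≤ (SC : ℝ) := Nat.cast_nonneg _
  have hloop := N09_loop D w x1 x2 inf J par (D - 2) (by omega)
  have habel := N09_abel (D - 2)
    (fun k => ((hpLoop D w x1 x2 inf J par k).2.1 : ℝ) - N09_phi D w x J par k * SC)
    (fun k => Rd (D - 1 - k) (D - 1 + k + par))
    (by
      have e1 : (hpLoop D w x1 x2 inf J par 0).2.1 = 0 := rfl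
      have e2 : N09_phi D w x J par 0 = 0 := by unfold N09_phi; rw [if_pos rfl]
      show ((hpLoop D w x1 x2 inf J par 0).2.1 : ℝ) - N09_phi D w x J par 0 * SC = 0
      rw [e1, e2]
      simp)
    (fun k hk => by
      have := N09_phi_le D w x x1 x2 J par inf h1 h2 k (by omega)
      show 0 ≤ ((hpLoop D w x1 x2 inf J par k).2.1 : ℝ) - N09_phi D w x J par k * SC
      linarith)
    (fun k => (Rd_mono _ _ _ (by omega)).trans (Rd_anti _ _ _ (by omega)))
  have hlast : 0 ≤ (fun k => ((hpLoop D w x1 x2 inf J par k).2.1 : ℝ) -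
      N09_phi D w x J par k * SC) (D - 2) *
      (fun k => Rd (D - 1 - k) (D - 1 + k + par)) (D - 2) := by
    apply mul_nonneg
    · have := N09_phi_le D w x x1 x2 J par inf h1 h2 (D - 2) (by omega)
      show 0 ≤ ((hpLoop D w x1 x2 inf J par (D - 2)).2.1 : ℝ) -
        N09_phi D w x J par (D - 2) * SC
      linarith
    · exact Rd_nonneg _ _
  have hsum := hlast.trans habel
  unfold hpN
  refine le_trans ?_ hloop
  unfold Hp
  rw [Finset.sum_mul]
  have hterm : ∀ k ∈ range (D - 2),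
      (Hw w x J (2 * D - 2 + w + x + J + par) (D - 1 - k) (2 * k + par) *
          P2s (D - 1 - k) (2 * k + par) *
          (((D : ℝ) - 2 + k + par) / (((2 * D - 2 + w + x + J + par : ℕ) : ℝ) - 1)) +
        (Hh D w x J (2 * D - 2 + w + x + J + par) par k *
            Ps (D - 1 + k + par) (2 * D - 2 + w + x + J + par) -
          (if k = 0 then 0 else Hh D w x J (2 * D - 2 + w + x + J + par) par (k - 1) *
            Ps (D - 2 + k + par) (2 * D - 2 + w + x + J + par))) *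
          Rd (D - 1 - k) (D - 1 + k + par)) * SC ≤
      ((N09_fst D w x2 inf J par k : ℝ) +
      (((hpLoop D w x1 x2 inf J par (k + 1)).2.1 : ℝ) -
        ((hpLoop D w x1 x2 inf J par k).2.1 : ℝ)) * Rd (D - 1 - k) (D - 1 + k + par)) -
      (((fun k => ((hpLoop D w x1 x2 inf J par k).2.1 : ℝ) - N09_phi D w x J par k * SC) (k + 1) -
        (fun k => ((hpLoop D w x1 x2 inf J par k).2.1 : ℝ) - N09_phi D w x J par k * SC) k) *
        (fun k => Rd (D - 1 - k) (D - 1 + k + par)) k) := by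
    intro k hk
    have hk' : k < D - 2 := Finset.mem_range.1 hk
    have h3 := N09_fst_le D w x x2 J par inf h2 k (by omega)
    have e1 : N09_phi D w x J par (k + 1) =
        Hh D w x J (2 * D - 2 + w + x + J + par) par k *
            Ps (D - 1 + k + par) (2 * D - 2 + w + x + J + par) := by
      unfold N09_phi
      rw [if_neg (Nat.succ_ne_zero k), Nat.add_sub_cancel]
      have : D - 2 + (k + 1) + par = D - 1 + k + par := by omega
      rw [this]
    have e2 : N09_phi D w x J par k =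
        (if k = 0 then 0 else Hh D w x J (2 * D - 2 + w + x + J + par) par (k - 1) *
            Ps (D - 2 + k + par) (2 * D - 2 + w + x + J + par)) := rfl
    dsimp only
    rw [← e1, ← e2]
    linarith
  refine (Finset.sum_le_sum hterm).trans ?_
  rw [Finset.sum_sub_distrib]
  linarith

theorem hcN_le (D w x x1 x2 j : ℕ) (inf : Bool) (hD : 2 ≤ D) (h1 : x1 ≤ x)
    (h2 : inf = false → x ≤ x2) : Hc D w x j * SC ≤ hcN D w x1 x2 inf j := by
  have hfi : ∀ (i : ℕ) (H : ℝ) (N : ℕ), H * SC ≤ N → fi i * H * SC ≤ (cd N i.factorial : ℕ) := by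
    intro i H N h
    apply le_cd (Nat.factorial_pos i)
    have h3 : fi i * H * SC * (i.factorial : ℝ) = H * SC := by
      unfold fi
      have : (i.factorial : ℝ) ≠ 0 := by exact_mod_cast Nat.factorial_ne_zero i
      field_simp
    rw [h3]
    exact h
  unfold Hc hcN
  push_cast
  rw [add_mul]
  have h3 := hpN_le D w x x1 x2 j 0 inf hD (by omega) h1 h2
  have h4 := hfi j _ _ h3
  rw [Nat.add_zero] at h4
  refine add_le_add h4 ?_
  by_cases hj : j = 0
  · rw [if_pos hj, if_pos hj]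
    simp
  · rw [if_neg hj, if_neg hj]
    have h5 := hpN_le D w x x1 x2 (j - 1) 1 inf hD le_rfl h1 h2
    have e1 : 2 * D - 2 + w + x + (j - 1) + 1 = 2 * D - 2 + w + x + j := by omega
    rw [e1] at h5
    exact hfi (j - 1) _ _ h5

end Pool.ADM
end

section

/-! job ADN-10: soundness of the check. -/

set_option autoImplicit false

namespace Pool.ADM

open Finset

theorem ltN_le (D w j : ℕ) (hj : 2 ≤ j) : LT D w j * SC ≤ ltN D w j := by
  unfold ltN
  have hf : (0 : ℝ) < (j.factorial : ℝ) := by exact_mod_cast Nat.factorial_pos j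
  have hd : (0 : ℝ) < (D : ℝ) + 1 + w := by positivity
  refine le_cd (by positivity) (le_of_eq ?_)
  unfold LT fi
  push_cast [Nat.cast_sub hj]
  field_simp

theorem leN_le (D w x x1 j : ℕ) (hD : 2 ≤ D) (h1 : x1 ≤ x) : LE D w x j * SC ≤ leN D w x1 j := by
  unfold LE leN
  split_ifs with h
  · simp
  · have h3 : 3 ≤ j := by omega
    have hf : (0 : ℝ) < ((j - 1).factorial : ℝ) := by exact_mod_cast Nat.factorial_pos (j - 1)
    have hd : (0 : ℝ) < (D : ℝ) + 1 + w := by positivity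
    have hD' : (2 : ℝ) ≤ D := by exact_mod_cast hD
    have hj' : (3 : ℝ) ≤ j := by exact_mod_cast h3
    have hm : (0 : ℝ) < 2 * (D : ℝ) + w + x := by positivity
    have hx : (x1 : ℝ) ≤ x := by exact_mod_cast h1
    refine le_cd (by positivity) ?_
    unfold fi
    push_cast [Nat.cast_sub hD, Nat.cast_sub h3, Nat.cast_sub (show 2 ≤ j by omega)]
    obtain ⟨N, hN⟩ : ∃ N : ℝ, N = (((j : ℝ) - 3) * D + j) * ((D : ℝ) - 2) + 2 * ((j : ℝ) - 2) :=
      ⟨_, rfl⟩
    have hN0 : 0 ≤ N := by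
      rw [hN]
      have a1 : 0 ≤ ((j : ℝ) - 3) * D := mul_nonneg (by linarith) (by linarith)
      have a2 : 0 ≤ (((j : ℝ) - 3) * D + j) * ((D : ℝ) - 2) :=
        mul_nonneg (by linarith) (by linarith)
      linarith
    have h4 : 1 / ((j - 1).factorial : ℝ) *
        ((((j : ℝ) - 3) * D + j) * ((D : ℝ) - 2) / 2 + ((j : ℝ) - 2)) /
        ((2 * (D : ℝ) + w + x) * ((D : ℝ) + 1 + w)) * SC *
        (2 * ((j - 1).factorial : ℝ) * ((2 * (D : ℝ) + w + x1) * ((D : ℝ) + 1 + w))) =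
        SC * (N * ((2 * (D : ℝ) + w + x1) / (2 * (D : ℝ) + w + x))) := by
      rw [hN]
      field_simp
    rw [h4, ← hN]
    refine mul_le_mul_of_nonneg_left ?_ (Nat.cast_nonneg _)
    have h5 : (2 * (D : ℝ) + w + x1) / (2 * (D : ℝ) + w + x) ≤ 1 := by
      rw [div_le_one hm]
      linarith
    calc N * ((2 * (D : ℝ) + w + x1) / (2 * (D : ℝ) + w + x)) ≤ N * 1 :=
          mul_le_mul_of_nonneg_left h5 hN0
      _ = N := mul_one N

theorem loN_le (D w x x1 x2 j : ℕ) (inf : Bool) (hD : 2 ≤ D) (hj : 2 ≤ j) (h1 : x1 ≤ x)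
    (h2 : inf = false → x ≤ x2) : Lo D w x j * SC ≤ loN D w x1 x2 inf j := by
  unfold Lo loN
  have a1 := ltN_le D w j hj
  have a2 := leN_le D w x x1 j hD h1
  have a3 := dcN_le D w x x1 x2 j inf hD h1 h2
  have a4 := hcN_le D w x x1 x2 j inf hD h1 h2
  push_cast
  rw [add_mul, add_mul, add_mul]
  linarith

theorem amN_le (D w x x2 j0 : ℕ) (inf : Bool) (hD : 2 ≤ D) (h2 : inf = false → x ≤ x2) :
    (amN D w x2 inf j0 : ℝ) ≤ Am D w x j0 * SC := by
  have hd : (0 : ℝ) < (D : ℝ) + 1 + w := by positivity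
  have hD' : (2 : ℝ) ≤ D := by exact_mod_cast hD
  have hm : (0 : ℝ) < 2 * (D : ℝ) + w + x := by positivity
  have hw : (0 : ℝ) ≤ w := Nat.cast_nonneg w
  have hx : (0 : ℝ) ≤ x := Nat.cast_nonneg x
  have hSC : (0 : ℝ) ≤ SC := Nat.cast_nonneg _
  have hE : (0 : ℝ) ≤ (2 * (D : ℝ) - 1 + w) * ((D : ℝ) - 2) / 2 + 1 := by
    have : 0 ≤ (2 * (D : ℝ) - 1 + w) * ((D : ℝ) - 2) := mul_nonneg (by linarith) (by linarith)
    linarith
  unfold amN Am
  split_ifs with hj hi
  · refine Nat.cast_div_le.trans (le_of_eq ?_)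
    push_cast [Nat.cast_sub (show 2 ≤ 2 * D by omega)]
    ring
  · refine Nat.cast_div_le.trans ?_
    push_cast [Nat.cast_sub hD]
    rw [div_mul_eq_mul_div]
    refine div_le_div_of_nonneg_right ?_ hd.le
    rw [mul_comm]
    refine mul_le_mul_of_nonneg_right ?_ hSC
    have : 0 ≤ ((2 * (D : ℝ) - 1 + w) * ((D : ℝ) - 2) / 2 + 1) / (2 * (D : ℝ) + w + x) :=
      div_nonneg hE hm.le
    linarith
  · have hx2 : (x : ℝ) ≤ x2 := by exact_mod_cast h2 (by simpa using hi)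
    have hm2 : (0 : ℝ) < 2 * (D : ℝ) + w + x2 := by positivity
    refine Nat.cast_div_le.trans ?_
    push_cast [Nat.cast_sub hD, Nat.cast_sub (show 1 ≤ 2 * D by omega)]
    have h3 : (SC : ℝ) * (2 * ((D : ℝ) - 2 + w) * (2 * (D : ℝ) + w + x2) +
        (2 * (D : ℝ) - 1 + w) * ((D : ℝ) - 2) + 2) /
        (2 * (2 * (D : ℝ) + w + x2) * ((D : ℝ) + 1 + w)) =
        (((D : ℝ) - 2 + w) + ((2 * (D : ℝ) - 1 + w) * ((D : ℝ) - 2) / 2 + 1) /
          (2 * (D : ℝ) + w + x2)) / ((D : ℝ) + 1 + w) * SC := by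
      field_simp
      ring
    rw [h3]
    refine mul_le_mul_of_nonneg_right (div_le_div_of_nonneg_right ?_ hd.le) hSC
    have h4 : ((2 * (D : ℝ) - 1 + w) * ((D : ℝ) - 2) / 2 + 1) / (2 * (D : ℝ) + w + x2) ≤
        ((2 * (D : ℝ) - 1 + w) * ((D : ℝ) - 2) / 2 + 1) / (2 * (D : ℝ) + w + x) :=
      div_le_div_of_nonneg_left hE hm (by linarith)
    linarith

private theorem n10_sumN (Δ w x x1 x2 j0 : ℕ) (inf : Bool) (h1 : x1 ≤ x)
    (h2 : inf = false → x ≤ x2) (I : ℕ) (hI : I + 2 ≤ Δ ∨ I = 0) :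
    (∑ i ∈ Icc 1 I, Lo (Δ - i) w x (j0 + 2 * i)) * SC ≤ sumN Δ w x1 x2 inf j0 I := by
  induction I with
  | zero => simp [sumN]
  | succ I ih =>
    have hI' : I + 1 + 2 ≤ Δ := by omega
    have h3 := ih (by omega)
    rw [Finset.sum_Icc_succ_top (by omega), add_mul]
    unfold sumN
    push_cast
    have h4 := loN_le (Δ - (I + 1)) w x x1 x2 (j0 + 2 * (I + 1)) inf (by omega) (by omega) h1 h2
    push_cast at h4
    linarith

theorem chk_sound (Δ w x x1 x2 j0 : ℕ) (inf : Bool) (hΔ : 2 ≤ Δ) (hj : j0 ≤ 1) (h1 : x1 ≤ x)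
    (h2 : inf = false → x ≤ x2) (hc : chk Δ w x1 x2 inf j0 = true) :
    1 / 500 ≤ Ft Δ w x j0 (min (Δ - 2) 6) := by
  unfold chk at hc
  have hc' := Nat.le_of_ble_eq_true hc
  have hc2 : (hcN Δ w x1 x2 inf j0 : ℝ) + sumN Δ w x1 x2 inf j0 (min (Δ - 2) 6) +
      ((SC / 500 : ℕ) : ℝ) ≤ amN Δ w x2 inf j0 := by exact_mod_cast hc'
  have a1 := amN_le Δ w x x2 j0 inf hΔ h2
  have a2 := hcN_le Δ w x x1 x2 j0 inf hΔ h1 h2
  have a3 := n10_sumN Δ w x x1 x2 j0 inf h1 h2 (min (Δ - 2) 6) (by omega)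
  have a4 : ((SC / 500 : ℕ) : ℝ) = 1 / 500 * (SC : ℝ) := by
    norm_num [SC]
  have hSC : (0 : ℝ) < SC := by norm_num [SC]
  rw [a4] at hc2
  unfold Ft
  have h3 : 1 / 500 * (SC : ℝ) ≤ (Am Δ w x j0 - Hc Δ w x j0 -
      ∑ i ∈ Icc 1 (min (Δ - 2) 6), Lo (Δ - i) w x (j0 + 2 * i)) * SC := by
    rw [sub_mul, sub_mul]
    linarith
  exact le_of_mul_le_mul_right h3 hSC

theorem chkL_sound (Δ w j0 : ℕ) (hΔ : 2 ≤ Δ) (hj : j0 ≤ 1) (l : List ℕ) (x1 : ℕ)
    (hc : chkL Δ w j0 x1 l = true) (x : ℕ) (hx : x1 ≤ x) :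
    1 / 500 ≤ Ft Δ w x j0 (min (Δ - 2) 6) := by
  induction l generalizing x1 with
  | nil =>
    unfold chkL at hc
    exact chk_sound Δ w x x1 0 j0 true hΔ hj hx (by simp) hc
  | cons x2 l ih =>
    unfold chkL at hc
    rw [Bool.and_eq_true] at hc
    rcases Nat.lt_or_ge x2 x with h | h
    · exact ih (x2 + 1) hc.2 h
    · exact chk_sound Δ w x x1 x2 j0 false hΔ hj hx (fun _ => h) hc.1

end Pool.ADM
end

section

/-! job ADN-14: `Δ ≤ 124`. -/

set_option autoImplicit false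

namespace Pool.ADM

open Finset

/-- the table of the checks. -/
private theorem N14_ex (Δ : ℕ) (h3 : 3 ≤ Δ) (hΔ : Δ ≤ 124) (j0 : ℕ) (hj : j0 ≤ 1) :
    ∃ (x1 : ℕ) (l : List ℕ), x1 ≤ 17 - (2 * Δ - 1 + j0) ∧ chkL Δ 0 j0 x1 l = true := by
  have hj' : j0 = 0 ∨ j0 = 1 := by omega
  rcases hj' with rfl | rfl
  · interval_cases Δ
    · exact ⟨12, _, by norm_num, n12_3_0⟩
    · exact ⟨10, _, by norm_num, n12_4_0⟩
    · exact ⟨8, _, by norm_num, n12_5_0⟩
    · exact ⟨6, _, by norm_num, n12_6_0⟩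
    · exact ⟨4, _, by norm_num, n12_7_0⟩
    · exact ⟨2, _, by norm_num, n12_8_0⟩
    · exact ⟨0, _, by norm_num, n12_9_0⟩
    · exact ⟨0, _, by norm_num, n12_10_0⟩
    · exact ⟨0, _, by norm_num, n12_11_0⟩
    · exact ⟨0, _, by norm_num, n12_12_0⟩
    · exact ⟨0, _, by norm_num, n12_13_0⟩
    · exact ⟨0, _, by norm_num, n12_14_0⟩
    · exact ⟨0, _, by norm_num, n12_15_0⟩
    · exact ⟨0, _, by norm_num, n12_16_0⟩
    · exact ⟨0, _, by norm_num, n12_17_0⟩
    · exact ⟨0, _, by norm_num, n12_18_0⟩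
    · exact ⟨0, _, by norm_num, n12_19_0⟩
    · exact ⟨0, _, by norm_num, n12_20_0⟩
    · exact ⟨0, _, by norm_num, n12_21_0⟩
    · exact ⟨0, _, by norm_num, n12_22_0⟩
    · exact ⟨0, _, by norm_num, n12_23_0⟩
    · exact ⟨0, _, by norm_num, n12_24_0⟩
    · exact ⟨0, _, by norm_num, n12_25_0⟩
    · exact ⟨0, _, by norm_num, n12_26_0⟩
    · exact ⟨0, _, by norm_num, n12_27_0⟩
    · exact ⟨0, _, by norm_num, n12_28_0⟩
    · exact ⟨0, _, by norm_num, n12_29_0⟩
    · exact ⟨0, _, by norm_num, n12_30_0⟩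
    · exact ⟨0, _, by norm_num, n12_31_0⟩
    · exact ⟨0, _, by norm_num, n12_32_0⟩
    · exact ⟨0, _, by norm_num, n12_33_0⟩
    · exact ⟨0, _, by norm_num, n12_34_0⟩
    · exact ⟨0, _, by norm_num, n12_35_0⟩
    · exact ⟨0, _, by norm_num, n12_36_0⟩
    · exact ⟨0, _, by norm_num, n12_37_0⟩
    · exact ⟨0, _, by norm_num, n12_38_0⟩
    · exact ⟨0, _, by norm_num, n12_39_0⟩
    · exact ⟨0, _, by norm_num, n12_40_0⟩
    · exact ⟨0, _, by norm_num, n12_41_0⟩
    · exact ⟨0, _, by norm_num, n12_42_0⟩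
    · exact ⟨0, _, by norm_num, n12_43_0⟩
    · exact ⟨0, _, by norm_num, n12_44_0⟩
    · exact ⟨0, _, by norm_num, n12_45_0⟩
    · exact ⟨0, _, by norm_num, n12_46_0⟩
    · exact ⟨0, _, by norm_num, n12_47_0⟩
    · exact ⟨0, _, by norm_num, n12_48_0⟩
    · exact ⟨0, _, by norm_num, n12_49_0⟩
    · exact ⟨0, _, by norm_num, n12_50_0⟩
    · exact ⟨0, _, by norm_num, n12_51_0⟩
    · exact ⟨0, _, by norm_num, n12_52_0⟩
    · exact ⟨0, _, by norm_num, n12_53_0⟩
    · exact ⟨0, _, by norm_num, n12_54_0⟩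
    · exact ⟨0, _, by norm_num, n12_55_0⟩
    · exact ⟨0, _, by norm_num, n12_56_0⟩
    · exact ⟨0, _, by norm_num, n12_57_0⟩
    · exact ⟨0, _, by norm_num, n12_58_0⟩
    · exact ⟨0, _, by norm_num, n12_59_0⟩
    · exact ⟨0, _, by norm_num, n12_60_0⟩
    · exact ⟨0, _, by norm_num, n12_61_0⟩
    · exact ⟨0, _, by norm_num, n12_62_0⟩
    · exact ⟨0, _, by norm_num, n12_63_0⟩
    · exact ⟨0, _, by norm_num, n12_64_0⟩
    · exact ⟨0, _, by norm_num, n12_65_0⟩
    · exact ⟨0, _, by norm_num, n12_66_0⟩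
    · exact ⟨0, _, by norm_num, n12_67_0⟩
    · exact ⟨0, _, by norm_num, n12_68_0⟩
    · exact ⟨0, _, by norm_num, n12_69_0⟩
    · exact ⟨0, _, by norm_num, n12_70_0⟩
    · exact ⟨0, _, by norm_num, n12_71_0⟩
    · exact ⟨0, _, by norm_num, n12_72_0⟩
    · exact ⟨0, _, by norm_num, n12_73_0⟩
    · exact ⟨0, _, by norm_num, n12_74_0⟩
    · exact ⟨0, _, by norm_num, n12_75_0⟩
    · exact ⟨0, _, by norm_num, n12_76_0⟩
    · exact ⟨0, _, by norm_num, n12_77_0⟩
    · exact ⟨0, _, by norm_num, n12_78_0⟩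
    · exact ⟨0, _, by norm_num, n12_79_0⟩
    · exact ⟨0, _, by norm_num, n12_80_0⟩
    · exact ⟨0, _, by norm_num, n12_81_0⟩
    · exact ⟨0, _, by norm_num, n12_82_0⟩
    · exact ⟨0, _, by norm_num, n12_83_0⟩
    · exact ⟨0, _, by norm_num, n12_84_0⟩
    · exact ⟨0, _, by norm_num, n12_85_0⟩
    · exact ⟨0, _, by norm_num, n12_86_0⟩
    · exact ⟨0, _, by norm_num, n12_87_0⟩
    · exact ⟨0, _, by norm_num, n12_88_0⟩
    · exact ⟨0, _, by norm_num, n12_89_0⟩
    · exact ⟨0, _, by norm_num, n12_90_0⟩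
    · exact ⟨0, _, by norm_num, n12_91_0⟩
    · exact ⟨0, _, by norm_num, n12_92_0⟩
    · exact ⟨0, _, by norm_num, n12_93_0⟩
    · exact ⟨0, _, by norm_num, n12_94_0⟩
    · exact ⟨0, _, by norm_num, n12_95_0⟩
    · exact ⟨0, _, by norm_num, n12_96_0⟩
    · exact ⟨0, _, by norm_num, n12_97_0⟩
    · exact ⟨0, _, by norm_num, n12_98_0⟩
    · exact ⟨0, _, by norm_num, n12_99_0⟩
    · exact ⟨0, _, by norm_num, n12_100_0⟩
    · exact ⟨0, _, by norm_num, n12_101_0⟩
    · exact ⟨0, _, by norm_num, n12_102_0⟩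
    · exact ⟨0, _, by norm_num, n12_103_0⟩
    · exact ⟨0, _, by norm_num, n12_104_0⟩
    · exact ⟨0, _, by norm_num, n12_105_0⟩
    · exact ⟨0, _, by norm_num, n12_106_0⟩
    · exact ⟨0, _, by norm_num, n12_107_0⟩
    · exact ⟨0, _, by norm_num, n12_108_0⟩
    · exact ⟨0, _, by norm_num, n12_109_0⟩
    · exact ⟨0, _, by norm_num, n12_110_0⟩
    · exact ⟨0, _, by norm_num, n12_111_0⟩
    · exact ⟨0, _, by norm_num, n12_112_0⟩
    · exact ⟨0, _, by norm_num, n12_113_0⟩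
    · exact ⟨0, _, by norm_num, n12_114_0⟩
    · exact ⟨0, _, by norm_num, n12_115_0⟩
    · exact ⟨0, _, by norm_num, n12_116_0⟩
    · exact ⟨0, _, by norm_num, n12_117_0⟩
    · exact ⟨0, _, by norm_num, n12_118_0⟩
    · exact ⟨0, _, by norm_num, n12_119_0⟩
    · exact ⟨0, _, by norm_num, n12_120_0⟩
    · exact ⟨0, _, by norm_num, n12_121_0⟩
    · exact ⟨0, _, by norm_num, n12_122_0⟩
    · exact ⟨0, _, by norm_num, n12_123_0⟩
    · exact ⟨0, _, by norm_num, n12_124_0⟩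
  · interval_cases Δ
    · exact ⟨11, _, by norm_num, n12_3_1⟩
    · exact ⟨9, _, by norm_num, n12_4_1⟩
    · exact ⟨7, _, by norm_num, n12_5_1⟩
    · exact ⟨5, _, by norm_num, n12_6_1⟩
    · exact ⟨3, _, by norm_num, n12_7_1⟩
    · exact ⟨1, _, by norm_num, n12_8_1⟩
    · exact ⟨0, _, by norm_num, n12_9_1⟩
    · exact ⟨0, _, by norm_num, n12_10_1⟩
    · exact ⟨0, _, by norm_num, n12_11_1⟩
    · exact ⟨0, _, by norm_num, n12_12_1⟩
    · exact ⟨0, _, by norm_num, n12_13_1⟩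
    · exact ⟨0, _, by norm_num, n12_14_1⟩
    · exact ⟨0, _, by norm_num, n12_15_1⟩
    · exact ⟨0, _, by norm_num, n12_16_1⟩
    · exact ⟨0, _, by norm_num, n12_17_1⟩
    · exact ⟨0, _, by norm_num, n12_18_1⟩
    · exact ⟨0, _, by norm_num, n12_19_1⟩
    · exact ⟨0, _, by norm_num, n12_20_1⟩
    · exact ⟨0, _, by norm_num, n12_21_1⟩
    · exact ⟨0, _, by norm_num, n12_22_1⟩
    · exact ⟨0, _, by norm_num, n12_23_1⟩
    · exact ⟨0, _, by norm_num, n12_24_1⟩
    · exact ⟨0, _, by norm_num, n12_25_1⟩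
    · exact ⟨0, _, by norm_num, n12_26_1⟩
    · exact ⟨0, _, by norm_num, n12_27_1⟩
    · exact ⟨0, _, by norm_num, n12_28_1⟩
    · exact ⟨0, _, by norm_num, n12_29_1⟩
    · exact ⟨0, _, by norm_num, n12_30_1⟩
    · exact ⟨0, _, by norm_num, n12_31_1⟩
    · exact ⟨0, _, by norm_num, n12_32_1⟩
    · exact ⟨0, _, by norm_num, n12_33_1⟩
    · exact ⟨0, _, by norm_num, n12_34_1⟩
    · exact ⟨0, _, by norm_num, n12_35_1⟩
    · exact ⟨0, _, by norm_num, n12_36_1⟩
    · exact ⟨0, _, by norm_num, n12_37_1⟩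
    · exact ⟨0, _, by norm_num, n12_38_1⟩
    · exact ⟨0, _, by norm_num, n12_39_1⟩
    · exact ⟨0, _, by norm_num, n12_40_1⟩
    · exact ⟨0, _, by norm_num, n12_41_1⟩
    · exact ⟨0, _, by norm_num, n12_42_1⟩
    · exact ⟨0, _, by norm_num, n12_43_1⟩
    · exact ⟨0, _, by norm_num, n12_44_1⟩
    · exact ⟨0, _, by norm_num, n12_45_1⟩
    · exact ⟨0, _, by norm_num, n12_46_1⟩
    · exact ⟨0, _, by norm_num, n12_47_1⟩
    · exact ⟨0, _, by norm_num, n12_48_1⟩
    · exact ⟨0, _, by norm_num, n12_49_1⟩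
    · exact ⟨0, _, by norm_num, n12_50_1⟩
    · exact ⟨0, _, by norm_num, n12_51_1⟩
    · exact ⟨0, _, by norm_num, n12_52_1⟩
    · exact ⟨0, _, by norm_num, n12_53_1⟩
    · exact ⟨0, _, by norm_num, n12_54_1⟩
    · exact ⟨0, _, by norm_num, n12_55_1⟩
    · exact ⟨0, _, by norm_num, n12_56_1⟩
    · exact ⟨0, _, by norm_num, n12_57_1⟩
    · exact ⟨0, _, by norm_num, n12_58_1⟩
    · exact ⟨0, _, by norm_num, n12_59_1⟩
    · exact ⟨0, _, by norm_num, n12_60_1⟩
    · exact ⟨0, _, by norm_num, n12_61_1⟩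
    · exact ⟨0, _, by norm_num, n12_62_1⟩
    · exact ⟨0, _, by norm_num, n12_63_1⟩
    · exact ⟨0, _, by norm_num, n12_64_1⟩
    · exact ⟨0, _, by norm_num, n12_65_1⟩
    · exact ⟨0, _, by norm_num, n12_66_1⟩
    · exact ⟨0, _, by norm_num, n12_67_1⟩
    · exact ⟨0, _, by norm_num, n12_68_1⟩
    · exact ⟨0, _, by norm_num, n12_69_1⟩
    · exact ⟨0, _, by norm_num, n12_70_1⟩
    · exact ⟨0, _, by norm_num, n12_71_1⟩
    · exact ⟨0, _, by norm_num, n12_72_1⟩
    · exact ⟨0, _, by norm_num, n12_73_1⟩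
    · exact ⟨0, _, by norm_num, n12_74_1⟩
    · exact ⟨0, _, by norm_num, n12_75_1⟩
    · exact ⟨0, _, by norm_num, n12_76_1⟩
    · exact ⟨0, _, by norm_num, n12_77_1⟩
    · exact ⟨0, _, by norm_num, n12_78_1⟩
    · exact ⟨0, _, by norm_num, n12_79_1⟩
    · exact ⟨0, _, by norm_num, n12_80_1⟩
    · exact ⟨0, _, by norm_num, n12_81_1⟩
    · exact ⟨0, _, by norm_num, n12_82_1⟩
    · exact ⟨0, _, by norm_num, n12_83_1⟩
    · exact ⟨0, _, by norm_num, n12_84_1⟩
    · exact ⟨0, _, by norm_num, n12_85_1⟩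
    · exact ⟨0, _, by norm_num, n12_86_1⟩
    · exact ⟨0, _, by norm_num, n12_87_1⟩
    · exact ⟨0, _, by norm_num, n12_88_1⟩
    · exact ⟨0, _, by norm_num, n12_89_1⟩
    · exact ⟨0, _, by norm_num, n12_90_1⟩
    · exact ⟨0, _, by norm_num, n12_91_1⟩
    · exact ⟨0, _, by norm_num, n12_92_1⟩
    · exact ⟨0, _, by norm_num, n12_93_1⟩
    · exact ⟨0, _, by norm_num, n12_94_1⟩
    · exact ⟨0, _, by norm_num, n12_95_1⟩
    · exact ⟨0, _, by norm_num, n12_96_1⟩
    · exact ⟨0, _, by norm_num, n12_97_1⟩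
    · exact ⟨0, _, by norm_num, n12_98_1⟩
    · exact ⟨0, _, by norm_num, n12_99_1⟩
    · exact ⟨0, _, by norm_num, n12_100_1⟩
    · exact ⟨0, _, by norm_num, n12_101_1⟩
    · exact ⟨0, _, by norm_num, n12_102_1⟩
    · exact ⟨0, _, by norm_num, n12_103_1⟩
    · exact ⟨0, _, by norm_num, n12_104_1⟩
    · exact ⟨0, _, by norm_num, n12_105_1⟩
    · exact ⟨0, _, by norm_num, n12_106_1⟩
    · exact ⟨0, _, by norm_num, n12_107_1⟩
    · exact ⟨0, _, by norm_num, n12_108_1⟩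
    · exact ⟨0, _, by norm_num, n12_109_1⟩
    · exact ⟨0, _, by norm_num, n12_110_1⟩
    · exact ⟨0, _, by norm_num, n12_111_1⟩
    · exact ⟨0, _, by norm_num, n12_112_1⟩
    · exact ⟨0, _, by norm_num, n12_113_1⟩
    · exact ⟨0, _, by norm_num, n12_114_1⟩
    · exact ⟨0, _, by norm_num, n12_115_1⟩
    · exact ⟨0, _, by norm_num, n12_116_1⟩
    · exact ⟨0, _, by norm_num, n12_117_1⟩
    · exact ⟨0, _, by norm_num, n12_118_1⟩
    · exact ⟨0, _, by norm_num, n12_119_1⟩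
    · exact ⟨0, _, by norm_num, n12_120_1⟩
    · exact ⟨0, _, by norm_num, n12_121_1⟩
    · exact ⟨0, _, by norm_num, n12_122_1⟩
    · exact ⟨0, _, by norm_num, n12_123_1⟩
    · exact ⟨0, _, by norm_num, n12_124_1⟩

/-- the tables: `chkL_sound` for every `Δ`, `j0` (theorems `n12_Δ_j0`, start `17 - (2Δ-1+j0)`). -/
theorem Ft_tab (Δ x j0 : ℕ) (h3 : 3 ≤ Δ) (hΔ : Δ ≤ 124) (hj : j0 ≤ 1)
    (hN : 17 ≤ 2 * Δ - 1 + x + j0) : 1 / 500 ≤ Ft Δ 0 x j0 (min (Δ - 2) 6) := by
  have h2 : 2 ≤ Δ := by omega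
  obtain ⟨x1, l, h4, h5⟩ := N14_ex Δ h3 hΔ j0 hj
  exact chkL_sound Δ 0 j0 h2 hj l x1 h5 x (by omega)

/-- `Lo_univ` for `i ≥ 7`: `∑_{i ≥ 7} 200 fi (j0+2i-2) ≤ 1/1000`. -/
theorem Ft_small (Δ x j0 : ℕ) (h3 : 3 ≤ Δ) (hΔ : Δ ≤ 124) (hj : j0 ≤ 1)
    (hN : 17 ≤ 2 * Δ - 1 + x + j0) : 1 / 1000 ≤ Ft Δ 0 x j0 (Δ - 2) := by
  have h := Ft_tab Δ x j0 h3 hΔ hj hN
  rcases Nat.lt_or_ge 6 (Δ - 2) with h6 | h6
  · rw [min_eq_right (by omega : 6 ≤ Δ - 2)] at h
    have hs : ∑ i ∈ Icc 1 (Δ - 2), Lo (Δ - i) 0 x (j0 + 2 * i) =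
        ∑ i ∈ Icc 1 6, Lo (Δ - i) 0 x (j0 + 2 * i) +
          ∑ i ∈ Ioc 6 (Δ - 2), Lo (Δ - i) 0 x (j0 + 2 * i) := by
      have e1 : Icc 1 (Δ - 2) = Ioc 0 (Δ - 2) := by
        ext i
        simp only [mem_Icc, mem_Ioc]
        omega
      have e2 : Icc 1 6 = Ioc 0 6 := by
        ext i
        simp only [mem_Icc, mem_Ioc]
        omega
      rw [e1, e2]
      exact (Finset.sum_Ioc_consecutive _ (Nat.zero_le 6) (by omega)).symm
    have ht : ∑ i ∈ Ioc 6 (Δ - 2), Lo (Δ - i) 0 x (j0 + 2 * i) ≤ 1 / 1000 := by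
      have hb : ∀ i ∈ Ioc 6 (Δ - 2), Lo (Δ - i) 0 x (j0 + 2 * i) ≤ 200 * (1 / 479001600) := by
        intro i hi
        rw [mem_Ioc] at hi
        refine (Lo_univ (Δ - i) x (j0 + 2 * i) (by omega) (by omega)).trans ?_
        refine mul_le_mul_of_nonneg_left ?_ (by norm_num)
        have hf : 479001600 ≤ (j0 + 2 * i - 2).factorial := by
          have h12 : Nat.factorial 12 = 479001600 := by decide
          rw [← h12]
          exact Nat.factorial_le (by omega)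
        have hf' : (479001600 : ℝ) ≤ ((j0 + 2 * i - 2).factorial : ℝ) := by exact_mod_cast hf
        unfold fi
        exact one_div_le_one_div_of_le (by norm_num) hf'
      have hs2 := Finset.sum_le_card_nsmul _ _ _ hb
      have hc : ((Ioc 6 (Δ - 2)).card : ℝ) ≤ 122 := by
        rw [Nat.card_Ioc]
        exact_mod_cast (by omega : Δ - 2 - 6 ≤ 122)
      rw [nsmul_eq_mul] at hs2
      nlinarith
    unfold Ft at h ⊢
    rw [hs]
    linarith
  · rw [min_eq_left h6] at h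
    linarith

/-- `n12_pts`, `mem_pts17`, `chk_sound`; then `Δ ≤ 8` and `min (Δ - 2) 6 = Δ - 2`. -/
theorem Ft_pts (Δ w x j0 : ℕ) (h3 : 3 ≤ Δ) (hj : j0 ≤ 1) (hw : 1 ≤ w)
    (hN : 2 * Δ - 1 + w + x + j0 = 17) : 0 ≤ Ft Δ w x j0 (Δ - 2) := by
  have h1 := mem_pts17 Δ w x j0 h3 hj hw hN
  have h2 := List.all_eq_true.1 n12_pts _ h1
  have h4 := chk_sound Δ w x x x j0 false (by omega) hj le_rfl (fun _ => le_rfl) h2
  rw [min_eq_left (by omega : Δ - 2 ≤ 6)] at h4
  linarith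

end Pool.ADM
end
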