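import Pool.Agent.Lib.MP_ad84ff_coM.M00
import Pool.Agent.Lib.MP_ad84ff_coM.N12g
import Pool.Agent.Lib.MP_ad84ff_coM.N20
import Pool.Agent.Lib.MP_ad84ff_coM.N11

section

/-! job ADN-21: Abel summation over cells. -/

set_option autoImplicit false

namespace Pool.ADM

open Finset

private theorem N21_step (D k : ℕ) (r : ℕ → ℝ) (x : ℝ) (hk : 1 ≤ k)
    (hr : ∀ c < 36, c * D < 48 * k → x ≤ r c) (J : ℕ) (hJ : J ≤ 35) :
    x ≤ ∑ c ∈ range J, (if 48 * k ≤ (c + 1) * D then r c - r (c + 1) else 0) + r J ∧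
      (J * D < 48 * k →
        ∑ c ∈ range J, (if 48 * k ≤ (c + 1) * D then r c - r (c + 1) else 0) = 0) := by
  induction J with
  | zero =>
    refine ⟨?_, fun _ => Finset.sum_range_zero _⟩
    rw [Finset.sum_range_zero, zero_add]
    exact hr 0 (by omega) (by omega)
  | succ J ih =>
    obtain ⟨h1, h2⟩ := ih (by omega)
    rw [Finset.sum_range_succ]
    by_cases h : 48 * k ≤ (J + 1) * D
    · rw [if_pos h]
      refine ⟨by linarith, fun h3 => absurd h (by omega)⟩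
    · rw [if_neg h]
      have h3 : (J + 1) * D < 48 * k := by omega
      have h4 : J * D < 48 * k := by
        have : J * D ≤ (J + 1) * D := Nat.mul_le_mul_right D (by omega)
        omega
      have h5 := h2 h4
      refine ⟨?_, fun _ => by rw [h5, add_zero]⟩
      rw [h5, add_zero, zero_add]
      exact hr (J + 1) (by omega) h3

private theorem N21_main (D n : ℕ) (hD : 0 < D) (φ R ρ r : ℕ → ℝ)
    (hφ : ∀ k < n, φ k ≤ φ (k + 1)) (hφ0 : ∀ k ≤ n, 0 ≤ φ k)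
    (hr : ∀ c < 36, ∀ k, 1 ≤ k → k ≤ n → c * D < 48 * k → R k ≤ r c)
    (hρ : ∀ k, 1 ≤ k → k ≤ n → 3 * D < 4 * k → R k ≤ ρ k)
    (hρ0 : ∀ k ≤ n + 1, 0 ≤ ρ k) (h0 : φ 0 = 0) (m : ℕ) (hm : m ≤ n) :
    ∑ k ∈ Icc 1 m, (φ k - φ (k - 1)) * R k ≤
      ∑ c ∈ range 35, φ (min m ((c + 1) * D / 48)) * (r c - r (c + 1)) +
      φ (min m (36 * D / 48)) * r 35 +
      ∑ k ∈ (Icc 1 m).filter (fun k => 3 * D < 4 * k), φ k * (ρ k - ρ (k + 1)) +
      (if 3 * D < 4 * m then φ m * ρ (m + 1) else 0) := by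
  induction m with
  | zero =>
    have e1 : Icc 1 0 = (∅ : Finset ℕ) := by decide
    rw [e1, Finset.sum_empty, Finset.filter_empty, Finset.sum_empty, if_neg (by omega)]
    have e2 : ∀ c ∈ range 35, φ (min 0 ((c + 1) * D / 48)) * (r c - r (c + 1)) = 0 := by
      intro c _
      rw [Nat.zero_min, h0, zero_mul]
    rw [Finset.sum_eq_zero e2, Nat.zero_min, h0]
    simp
  | succ m ih =>
    have h1 := ih (by omega)
    have hinc : 0 ≤ φ (m + 1) - φ m := by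
      have := hφ m (by omega)
      linarith
    rw [← Finset.insert_Icc_right_eq_Icc_add_one (by omega : 1 ≤ m + 1),
      Finset.sum_insert (by simp), Nat.add_sub_cancel, Finset.filter_insert]
    by_cases ht : 3 * D < 4 * (m + 1)
    · -- tail
      rw [if_pos ht, if_pos ht, Finset.sum_insert (by simp)]
      have e1 : ∀ c ∈ range 35, φ (min (m + 1) ((c + 1) * D / 48)) * (r c - r (c + 1)) =
          φ (min m ((c + 1) * D / 48)) * (r c - r (c + 1)) := by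
        intro c hc
        have hc' := Finset.mem_range.1 hc
        have h3 : (c + 1) * D / 48 ≤ m := by
          have h4 : (c + 1) * D ≤ 36 * D := Nat.mul_le_mul_right D (by omega)
          omega
        rw [min_eq_right h3, min_eq_right (by omega)]
      have e2 : min (m + 1) (36 * D / 48) = min m (36 * D / 48) := by
        have h3 : 36 * D / 48 ≤ m := by omega
        rw [min_eq_right h3, min_eq_right (by omega)]
      rw [Finset.sum_congr rfl e1, e2]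
      have h5 : (φ (m + 1) - φ m) * R (m + 1) ≤ (φ (m + 1) - φ m) * ρ (m + 1) :=
        mul_le_mul_of_nonneg_left (hρ (m + 1) (by omega) hm ht) hinc
      have h6 : (if 3 * D < 4 * m then φ m * ρ (m + 1) else 0) ≤ φ m * ρ (m + 1) := by
        split_ifs
        · exact le_rfl
        · exact mul_nonneg (hφ0 m (by omega)) (hρ0 (m + 1) (by omega))
      nlinarith
    · -- cells
      rw [if_neg ht, if_neg ht]
      rw [if_neg (by omega : ¬ 3 * D < 4 * m)] at h1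
      have e1 : ∀ c ∈ range 35, φ (min (m + 1) ((c + 1) * D / 48)) * (r c - r (c + 1)) =
          φ (min m ((c + 1) * D / 48)) * (r c - r (c + 1)) + (φ (m + 1) - φ m) *
            (if 48 * (m + 1) ≤ (c + 1) * D then r c - r (c + 1) else 0) := by
        intro c hc
        by_cases h3 : 48 * (m + 1) ≤ (c + 1) * D
        · rw [if_pos h3, min_eq_left (by omega : m + 1 ≤ (c + 1) * D / 48),
            min_eq_left (by omega : m ≤ (c + 1) * D / 48)]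
          ring
        · rw [if_neg h3, min_eq_right (by omega : (c + 1) * D / 48 ≤ m + 1),
            min_eq_right (by omega : (c + 1) * D / 48 ≤ m)]
          ring
      rw [Finset.sum_congr rfl e1, Finset.sum_add_distrib, ← Finset.mul_sum,
        min_eq_left (by omega : m + 1 ≤ 36 * D / 48)]
      rw [min_eq_left (by omega : m ≤ 36 * D / 48)] at h1
      have h4 := (N21_step D (m + 1) r (R (m + 1)) (by omega)
        (fun c hc h => hr c hc (m + 1) (by omega) hm h) 35 le_rfl).1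
      have h5 := mul_le_mul_of_nonneg_left h4 hinc
      nlinarith

/-- `K c = min n ⌊c D/48⌋`.  For `k` in `(K c, K (c+1)]`: `R k ≤ r c`, so
`∑_{k ≤ K 36} ≤ ∑_{c<36} r c (φ (K (c+1)) - φ (K c)) = ∑_{c<35} φ (K (c+1)) (r c - r (c+1)) +
φ (K 36) r 35`, and `φ (K (c+1)) ≤ P c`.  For `k > K 36`: `R k ≤ ρ k`, Abel summation, drop
`-φ (K 36) ρ (K 36 + 1)`.  (`φ ≥ 0`, `P ≥ 0` follow from `φ 0 = 0` and monotonicity.) -/
theorem cell_sum (D n : ℕ) (hD : 0 < D) (φ R ρ P r : ℕ → ℝ)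
    (h0 : φ 0 = 0) (hφ : ∀ k < n, φ k ≤ φ (k + 1))
    (hP : ∀ c < 36, ∀ k ≤ n, 48 * k ≤ (c + 1) * D → φ k ≤ P c)
    (hr : ∀ c < 36, ∀ k, 1 ≤ k → k ≤ n → c * D < 48 * k → R k ≤ r c)
    (hr1 : ∀ c < 35, r (c + 1) ≤ r c) (hr2 : 0 ≤ r 35)
    (hρ : ∀ k, 1 ≤ k → k ≤ n → 3 * D < 4 * k → R k ≤ ρ k)
    (hρ1 : ∀ k ≤ n, ρ (k + 1) ≤ ρ k) (hρ0 : 0 ≤ ρ (n + 1)) :
    ∑ k ∈ Icc 1 n, (φ k - φ (k - 1)) * R k ≤
      ∑ c ∈ range 35, P c * (r c - r (c + 1)) + P 35 * r 35 +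
      ∑ k ∈ (Icc 1 n).filter (fun k => 3 * D < 4 * k), φ k * (ρ k - ρ (k + 1)) +
      φ n * ρ (n + 1) := by
  have hφ0 : ∀ k ≤ n, 0 ≤ φ k := by
    intro k hk
    induction k with
    | zero => exact h0.ge
    | succ k ih => exact (ih (by omega)).trans (hφ k (by omega))
  have hρ0' : ∀ k ≤ n + 1, 0 ≤ ρ k := by
    intro k hk
    refine Nat.decreasingInduction (motive := fun j _ => 0 ≤ ρ j) (n := n + 1)
      (fun j hj h => ?_) hρ0 hk
    exact h.trans (hρ1 j (by omega))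
  have h1 := N21_main D n hD φ R ρ r hφ hφ0 hr hρ hρ0' h0 n le_rfl
  have h2 : ∑ c ∈ range 35, φ (min n ((c + 1) * D / 48)) * (r c - r (c + 1)) ≤
      ∑ c ∈ range 35, P c * (r c - r (c + 1)) := by
    refine Finset.sum_le_sum fun c hc => ?_
    have hc' := Finset.mem_range.1 hc
    have h3 := hr1 c hc'
    refine mul_le_mul_of_nonneg_right ?_ (by linarith)
    refine hP c (by omega) _ (min_le_left _ _) ?_
    have h4 : min n ((c + 1) * D / 48) ≤ (c + 1) * D / 48 := min_le_right _ _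
    omega
  have h3 : φ (min n (36 * D / 48)) * r 35 ≤ P 35 * r 35 := by
    refine mul_le_mul_of_nonneg_right ?_ hr2
    refine hP 35 (by omega) _ (min_le_left _ _) ?_
    have h4 : min n (36 * D / 48) ≤ 36 * D / 48 := min_le_right _ _
    omega
  have h4 : (if 3 * D < 4 * n then φ n * ρ (n + 1) else 0) ≤ φ n * ρ (n + 1) := by
    split_ifs
    · exact le_rfl
    · exact mul_nonneg (hφ0 n le_rfl) hρ0
  linarith

end Pool.ADM
end

section

/-! job ADN-23: the part `β = 2` of `Dc`, `D ≥ 120`, `w = 0`. -/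

set_option autoImplicit false

namespace Pool.ADM

open Finset

private theorem N23_te (n : ℕ) (hn : 1 ≤ n) :
    ∑ k ∈ Icc 1 n, 1 / (4 * (k : ℝ) * (4 * k - 1)) ≤
      1 / 12 + 1 / 22 - 1 / (4 * (4 * (n : ℝ) + 3 / 2)) := by
  induction n, hn using Nat.le_induction with
  | base => norm_num
  | succ n hn ih =>
    rw [Finset.sum_Icc_succ_top (by omega)]
    have hn' : (1 : ℝ) ≤ n := by exact_mod_cast hn
    have h1 : 1 / (4 * ((n + 1 : ℕ) : ℝ) * (4 * ((n + 1 : ℕ) : ℝ) - 1)) ≤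
        1 / (4 * (4 * (n : ℝ) + 3 / 2)) - 1 / (4 * (4 * ((n + 1 : ℕ) : ℝ) + 3 / 2)) := by
      push_cast
      rw [div_sub_div _ _ (by positivity) (by positivity), div_le_div_iff₀ (by nlinarith)
        (by positivity)]
      nlinarith
    linarith

private theorem N23_to (n : ℕ) (hn : 1 ≤ n) :
    ∑ k ∈ Icc 1 n, 1 / (2 * (2 * (k : ℝ) + 1) * (4 * k + 1)) ≤
      1 / 30 + 1 / 30 - 1 / (4 * (4 * (n : ℝ) + 7 / 2)) := by
  induction n, hn using Nat.le_induction with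
  | base => norm_num
  | succ n hn ih =>
    rw [Finset.sum_Icc_succ_top (by omega)]
    have hn' : (1 : ℝ) ≤ n := by exact_mod_cast hn
    have h1 : 1 / (2 * (2 * ((n + 1 : ℕ) : ℝ) + 1) * (4 * ((n + 1 : ℕ) : ℝ) + 1)) ≤
        1 / (4 * (4 * (n : ℝ) + 7 / 2)) - 1 / (4 * (4 * ((n + 1 : ℕ) : ℝ) + 7 / 2)) := by
      push_cast
      rw [div_sub_div _ _ (by positivity) (by positivity), div_le_div_iff₀ (by positivity)
        (by positivity)]
      nlinarith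
    linarith

private theorem N23_one (n a b : ℕ) (h : 1 ≤ a) (c : ℝ) (hc : 0 ≤ c) :
    ∑ k ∈ Icc 1 n, (if a * k + b = n + 2 then c else 0) ≤ c := by
  classical
  rw [← Finset.sum_filter]
  have h1 : ((Icc 1 n).filter fun k => a * k + b = n + 2).card ≤ 1 := by
    rw [Finset.card_le_one]
    intro i hi k hk
    have h1 := (Finset.mem_filter.1 hi).2
    have h2 := (Finset.mem_filter.1 hk).2
    have h3 : a * i = a * k := by omega
    exact Nat.eq_of_mul_eq_mul_left (by omega) h3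
  rw [Finset.sum_const, nsmul_eq_mul]
  have h2 : (((Icc 1 n).filter fun k => a * k + b = n + 2).card : ℝ) ≤ 1 := by exact_mod_cast h1
  nlinarith

/-- `∑_{k ≥ 1} 1/(4k(4k-1)) = .12716...`, plus at most one extra term (`3k = D`) -/
theorem sumP2_ev (D : ℕ) (hD : 120 ≤ D) :
    ∑ k ∈ Icc 1 (D - 2), P2 (D - k) (2 * k) ≤ 27 / 200 := by
  have h1 : ∀ k ∈ Icc 1 (D - 2), P2 (D - k) (2 * k) ≤ 1 / (4 * (k : ℝ) * (4 * k - 1)) +
      (if 3 * k + 0 = D - 2 + 2 then 1 / 25440 else 0) := by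
    intro k hk
    have hk' := Finset.mem_Icc.1 hk
    have hk1 : (1 : ℝ) ≤ k := by exact_mod_cast hk'.1
    have e1 : 1 / (2 * ((2 * k : ℕ) : ℝ) * (2 * ((2 * k : ℕ) : ℝ) - 1)) =
        1 / (4 * (k : ℝ) * (4 * k - 1)) := by
      push_cast
      congr 1
      ring
    have p0 : 0 < 4 * (k : ℝ) * (4 * k - 1) := by nlinarith
    unfold P2
    split_ifs with g1 g2 g3 g4
    · exfalso; omega
    · rw [e1]
      simp
    · have hk40 : (40 : ℝ) ≤ k := by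
        have : 40 ≤ k := by omega
        exact_mod_cast this
      have e2 : 1 / (((2 * k : ℕ) : ℝ) * (2 * ((2 * k : ℕ) : ℝ) - 1)) =
          1 / (4 * (k : ℝ) * (4 * k - 1)) + 1 / (4 * (k : ℝ) * (4 * k - 1)) := by
        push_cast
        have p1 : (4 * (k : ℝ) - 1) ≠ 0 := by
          have : 0 < 4 * (k : ℝ) - 1 := by linarith
          exact this.ne'
        have p2 : (k : ℝ) ≠ 0 := by
          have : 0 < (k : ℝ) := by linarith
          exact this.ne'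
        have p3 : (2 * (2 * (k : ℝ)) - 1) = 4 * (k : ℝ) - 1 := by ring
        rw [p3]
        field_simp
        ring
      rw [e2]
      have h3 : 1 / (4 * (k : ℝ) * (4 * k - 1)) ≤ 1 / 25440 := by
        apply one_div_le_one_div_of_le (by norm_num)
        nlinarith
      linarith
    · exfalso; omega
    · have : 0 < 1 / (4 * (k : ℝ) * (4 * k - 1)) := by positivity
      linarith
    · have : 0 < 1 / (4 * (k : ℝ) * (4 * k - 1)) := by positivity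
      linarith
  refine (Finset.sum_le_sum h1).trans ?_
  rw [Finset.sum_add_distrib]
  have h2 := N23_te (D - 2) (by omega)
  have h3 := N23_one (D - 2) 3 0 (by norm_num) (1 / 25440) (by norm_num)
  have h4 : 0 < 1 / (4 * (4 * ((D - 2 : ℕ) : ℝ) + 3 / 2)) := by positivity
  linarith

/-- `∑_{k ≥ 1} 1/(2(2k+1)(4k+1)) = .06598...`, plus at most one extra term -/
theorem sumP2_od (D : ℕ) (hD : 120 ≤ D) :
    ∑ k ∈ Icc 1 (D - 2), P2 (D - k) (2 * k + 1) ≤ 7 / 100 := by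
  have h1 : ∀ k ∈ Icc 1 (D - 2), P2 (D - k) (2 * k + 1) ≤
      1 / (2 * (2 * (k : ℝ) + 1) * (4 * k + 1)) +
      (if 3 * k + 1 = D - 2 + 2 then 1 / 10000 else 0) := by
    intro k hk
    have hk' := Finset.mem_Icc.1 hk
    have hk1 : (1 : ℝ) ≤ k := by exact_mod_cast hk'.1
    have e1 : 1 / (2 * ((2 * k + 1 : ℕ) : ℝ) * (2 * ((2 * k + 1 : ℕ) : ℝ) - 1)) =
        1 / (2 * (2 * (k : ℝ) + 1) * (4 * k + 1)) := by
      push_cast
      congr 1
      ring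
    have p0 : 0 < 2 * (2 * (k : ℝ) + 1) * (4 * k + 1) := by positivity
    unfold P2
    split_ifs with g1 g2 g3 g4
    · exfalso; omega
    · rw [e1]
      simp
    · have hk39 : (39 : ℝ) ≤ k := by
        have : 39 ≤ k := by omega
        exact_mod_cast this
      have e2 : 1 / (((2 * k + 1 : ℕ) : ℝ) * (2 * ((2 * k + 1 : ℕ) : ℝ) - 1)) =
          1 / (2 * (2 * (k : ℝ) + 1) * (4 * k + 1)) +
            1 / (2 * (2 * (k : ℝ) + 1) * (4 * k + 1)) := by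
        push_cast
        have p3 : (2 * (2 * (k : ℝ) + 1) - 1) = 4 * (k : ℝ) + 1 := by ring
        rw [p3]
        field_simp
        ring
      rw [e2]
      have h3 : 1 / (2 * (2 * (k : ℝ) + 1) * (4 * k + 1)) ≤ 1 / 10000 := by
        apply one_div_le_one_div_of_le (by norm_num)
        nlinarith
      linarith
    · exfalso; omega
    · have : 0 < 1 / (2 * (2 * (k : ℝ) + 1) * (4 * k + 1)) := by positivity
      linarith
    · have : 0 < 1 / (2 * (2 * (k : ℝ) + 1) * (4 * k + 1)) := by positivity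
      linarith
  refine (Finset.sum_le_sum h1).trans ?_
  rw [Finset.sum_add_distrib]
  have h2 := N23_to (D - 2) (by omega)
  have h3 := N23_one (D - 2) 3 1 (by norm_num) (1 / 10000) (by norm_num)
  have h4 : 0 < 1 / (4 * (4 * ((D - 2 : ℕ) : ℝ) + 7 / 2)) := by positivity
  linarith

def betQ (j : ℕ) : ℚ :=
  68 / 100 * ((4 * (j : ℚ) / 3 - 2 + 2 / 120) / (j.factorial : ℚ) * (27 / 200) +
    (if j = 2 then 0 else
      (4 * ((j : ℚ) - 1) / 3 - 2 + (j : ℚ) / 120) / ((j - 1).factorial : ℚ)) * (7 / 100))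

/-- `D (2D-s)(2s+x) ≤ (8/3 D² + 2Dx) s ≤ .68 (2D-1+x)(2D-2+x) s` for `s ≥ 2D/3` -/
private theorem N23_num (D s x : ℝ) (hD : 120 ≤ D) (hx : 0 ≤ x) (hs : 2 * D / 3 ≤ s) :
    D * ((2 * D - s) * (2 * s + x)) ≤
      68 / 100 * ((2 * D - 1 + x) * (2 * D - 2 + x)) * s := by
  have hs0 : 0 ≤ s := by linarith
  have h1 : D * ((2 * D - s) * (2 * s + x)) ≤ (8 / 3 * D ^ 2 + 2 * D * x) * s := by
    have h2 : 0 ≤ (s - 2 * D / 3) * (D * x + s * (2 * D / 3)) := by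
      apply mul_nonneg (by linarith)
      positivity
    nlinarith
  have h3 : 8 / 3 * D ^ 2 + 2 * D * x ≤ 68 / 100 * ((2 * D - 1 + x) * (2 * D - 2 + x)) := by
    have h4 : 0 ≤ (D - 120) * D := mul_nonneg (by linarith) (by linarith)
    have h5 : 0 ≤ (D - 120) * x := mul_nonneg (by linarith) hx
    have h6 : 0 ≤ x * x := mul_nonneg hx hx
    nlinarith
  exact h1.trans (mul_le_mul_of_nonneg_right h3 hs0)

private theorem N23_dev_ev (D j k : ℕ) (hD : 120 ≤ D) (hj : 2 ≤ j) (h3 : 3 * k ≤ D) :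
    0 ≤ dev (D + k) (2 * D - 1 + 0) j ∧
    dev (D + k) (2 * D - 1 + 0) j ≤
      ((4 * (j : ℝ) / 3 - 2 + 2 / 120) / (j.factorial : ℝ)) * D := by
  have hj0 : j ≠ 0 := by omega
  have hjr : (2 : ℝ) ≤ j := by exact_mod_cast hj
  have hDr : (120 : ℝ) ≤ D := by exact_mod_cast hD
  have hkr : 3 * (k : ℝ) ≤ D := by exact_mod_cast h3
  have hk0 : (0 : ℝ) ≤ k := Nat.cast_nonneg _
  have hf : (0 : ℝ) < (j.factorial : ℝ) := by exact_mod_cast Nat.factorial_pos j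
  unfold dev fi
  rw [if_neg hj0]
  refine ⟨by positivity, ?_⟩
  have e1 : ((4 * (j : ℝ) / 3 - 2 + 2 / 120) / (j.factorial : ℝ)) * D =
      ((4 * (j : ℝ) / 3 - 2 + 2 / 120) * D) * (1 / (j.factorial : ℝ)) := by ring
  rw [e1]
  apply mul_le_mul_of_nonneg_right _ (by positivity)
  have e2 : ((2 * D - 1 + 0 : ℕ) : ℝ) = 2 * (D : ℝ) - 1 := by
    have : 2 * D - 1 + 0 + 1 = 2 * D := by omega
    have h : ((2 * D - 1 + 0 : ℕ) : ℝ) + 1 = 2 * (D : ℝ) := by exact_mod_cast this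
    linarith
  rw [e2]
  push_cast
  have h4 : (j : ℝ) * k ≤ j * (D / 3) := mul_le_mul_of_nonneg_left (by linarith) (by linarith)
  have h5 : (2 : ℝ) * 120 ≤ j * D := mul_le_mul hjr hDr (by norm_num) (by linarith)
  refine max_le (max_le ?_ ?_) ?_
  · linarith
  · nlinarith
  · nlinarith

private theorem N23_dev_od (D j k : ℕ) (hD : 120 ≤ D) (hj : 2 ≤ j) (hk : k + 2 ≤ D)
    (h3 : 3 * k ≤ D) :
    0 ≤ dev (D + k + 1) (2 * D + 0) (j - 1) ∧
    dev (D + k + 1) (2 * D + 0) (j - 1) ≤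
      (if j = 2 then 0 else
        (4 * ((j : ℝ) - 1) / 3 - 2 + (j : ℝ) / 120) / ((j - 1).factorial : ℝ)) * D := by
  have hj0 : j - 1 ≠ 0 := by omega
  have hjr : (2 : ℝ) ≤ j := by exact_mod_cast hj
  have hDr : (120 : ℝ) ≤ D := by exact_mod_cast hD
  have hkr : 3 * (k : ℝ) ≤ D := by exact_mod_cast h3
  have hkr2 : (k : ℝ) + 2 ≤ D := by exact_mod_cast hk
  have hk0 : (0 : ℝ) ≤ k := Nat.cast_nonneg _
  have hf : (0 : ℝ) < ((j - 1).factorial : ℝ) := by exact_mod_cast Nat.factorial_pos (j - 1)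
  unfold dev fi
  rw [if_neg hj0]
  refine ⟨by positivity, ?_⟩
  have ej : ((j - 1 : ℕ) : ℝ) = (j : ℝ) - 1 := by
    rw [Nat.cast_sub (by omega)]
    simp
  by_cases h2 : j = 2
  · rw [if_pos h2, zero_mul]
    subst h2
    have e1 : max (max (((2 - 1 : ℕ) : ℝ) * ((D + k + 1 : ℕ) : ℝ) - (((2 * D + 0 : ℕ) : ℝ) - 1))
        (((2 - 1 : ℕ) : ℝ) - 1)) 0 = 0 := by
      apply max_eq_right
      refine max_le ?_ ?_
      · push_cast
        norm_num
        linarith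
      · norm_num
    rw [e1, zero_mul]
  · rw [if_neg h2]
    have hj3 : (3 : ℝ) ≤ j := by
      have : 3 ≤ j := by omega
      exact_mod_cast this
    have e1 : ((4 * ((j : ℝ) - 1) / 3 - 2 + (j : ℝ) / 120) / ((j - 1).factorial : ℝ)) * D =
        ((4 * ((j : ℝ) - 1) / 3 - 2 + (j : ℝ) / 120) * D) * (1 / ((j - 1).factorial : ℝ)) := by
      ring
    rw [e1]
    apply mul_le_mul_of_nonneg_right _ (by positivity)
    rw [ej]
    push_cast
    have h4 : ((j : ℝ) - 1) * k ≤ (j - 1) * (D / 3) :=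
      mul_le_mul_of_nonneg_left (by linarith) (by linarith)
    have h5 : (j : ℝ) * 120 ≤ j * D := mul_le_mul_of_nonneg_left hDr (by linarith)
    have h6 : (3 : ℝ) * D ≤ j * D := mul_le_mul_of_nonneg_right hj3 (by linarith)
    refine max_le (max_le ?_ ?_) ?_
    · linarith
    · linarith
    · linarith

private theorem N23_ev (D x j k : ℕ) (hD : 120 ≤ D) (hj : 2 ≤ j) (hk1 : 1 ≤ k) (h3 : 3 * k ≤ D) :
    Gev D 0 x j k * (((D : ℝ) + k - 1) / (2 * D - 2 + (0 : ℕ) + x)) ≤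
      68 / 100 * ((4 * (j : ℝ) / 3 - 2 + 2 / 120) / (j.factorial : ℝ)) := by
  obtain ⟨hd0, hd1⟩ := N23_dev_ev D j k hD hj h3
  have hDr : (120 : ℝ) ≤ D := by exact_mod_cast hD
  have hkr : 3 * (k : ℝ) ≤ D := by exact_mod_cast h3
  have hk1r : (1 : ℝ) ≤ k := by exact_mod_cast hk1
  have hx : (0 : ℝ) ≤ x := Nat.cast_nonneg _
  unfold Gev
  obtain ⟨v, hv⟩ : ∃ v : ℝ, v = dev (D + k) (2 * D - 1 + 0) j := ⟨_, rfl⟩
  obtain ⟨A, hA⟩ : ∃ A : ℝ, A = (4 * (j : ℝ) / 3 - 2 + 2 / 120) / (j.factorial : ℝ) := ⟨_, rfl⟩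
  rw [← hv] at hd0 hd1 ⊢
  rw [← hA] at hd1 ⊢
  rw [Nat.cast_zero, add_zero, add_zero, add_zero]
  have p1 : (0 : ℝ) < 2 * D - 1 + x := by linarith
  have p2 : (0 : ℝ) < 2 * D - 2 + x := by linarith
  have p3 : (0 : ℝ) < D - k + 1 := by linarith
  have hA0 : 0 ≤ A := by
    by_contra hcon
    push Not at hcon
    nlinarith
  have key := N23_num D (D - k + 1) x hDr hx (by linarith)
  have e1 : v * ((2 * (D : ℝ) - 1 + x) - 2 * k) / (2 * D - 1 + x) / (D - k + 1) *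
      ((D + k - 1) / (2 * D - 2 + x)) =
      v * ((((2 * (D : ℝ) - 1 + x) - 2 * k) * (D + k - 1)) /
        ((2 * D - 1 + x) * (2 * D - 2 + x) * (D - k + 1))) := by
    field_simp
  rw [e1]
  have hq0 : 0 ≤ (((2 * (D : ℝ) - 1 + x) - 2 * k) * (D + k - 1)) /
        ((2 * D - 1 + x) * (2 * D - 2 + x) * (D - k + 1)) := by
    apply div_nonneg
    · apply mul_nonneg <;> linarith
    · positivity
  refine (mul_le_mul_of_nonneg_right hd1 hq0).trans ?_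
  have e2 : A * D * ((((2 * (D : ℝ) - 1 + x) - 2 * k) * (D + k - 1)) /
        ((2 * D - 1 + x) * (2 * D - 2 + x) * (D - k + 1))) =
      A * ((D * (((2 * (D : ℝ) - 1 + x) - 2 * k) * (D + k - 1))) /
        ((2 * D - 1 + x) * (2 * D - 2 + x) * (D - k + 1))) := by
    field_simp
  rw [e2, mul_comm (68 / 100 : ℝ) A]
  apply mul_le_mul_of_nonneg_left _ hA0
  rw [div_le_iff₀ (by positivity)]
  have h6 : D * (((2 * (D : ℝ) - 1 + x) - 2 * k) * (D + k - 1)) ≤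
      D * ((2 * D - (D - k + 1)) * (2 * (D - k + 1) + x)) := by
    apply mul_le_mul_of_nonneg_left _ (by linarith)
    nlinarith
  linarith

private theorem N23_od (D x j k : ℕ) (hD : 120 ≤ D) (hj : 2 ≤ j) (hk1 : 1 ≤ k)
    (h3 : 3 * k + 1 ≤ D) :
    God D 0 x j k * (((D : ℝ) + k) / (2 * D - 1 + (0 : ℕ) + x)) ≤
      68 / 100 * (if j = 2 then 0 else
        (4 * ((j : ℝ) - 1) / 3 - 2 + (j : ℝ) / 120) / ((j - 1).factorial : ℝ)) := by
  obtain ⟨hd0, hd1⟩ := N23_dev_od D j k hD hj (by omega) (by omega)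
  have hDr : (120 : ℝ) ≤ D := by exact_mod_cast hD
  have hkr : 3 * (k : ℝ) + 1 ≤ D := by exact_mod_cast h3
  have hk1r : (1 : ℝ) ≤ k := by exact_mod_cast hk1
  have hx : (0 : ℝ) ≤ x := Nat.cast_nonneg _
  unfold God
  obtain ⟨v, hv⟩ : ∃ v : ℝ, v = dev (D + k + 1) (2 * D + 0) (j - 1) := ⟨_, rfl⟩
  obtain ⟨A, hA⟩ : ∃ A : ℝ, A = if j = 2 then 0 else
        (4 * ((j : ℝ) - 1) / 3 - 2 + (j : ℝ) / 120) / ((j - 1).factorial : ℝ) := ⟨_, rfl⟩
  rw [← hv] at hd0 hd1 ⊢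
  rw [← hA] at hd1 ⊢
  rw [Nat.cast_zero, add_zero, add_zero, add_zero]
  have p1 : (0 : ℝ) < 2 * D - 1 + x := by linarith
  have p2 : (0 : ℝ) < 2 * D + x := by linarith
  have p3 : (0 : ℝ) < D - k + 1 := by linarith
  have hA0 : 0 ≤ A := by
    by_contra hcon
    push Not at hcon
    nlinarith
  have key := N23_num D (D - k) x hDr hx (by linarith)
  have e1 : v * ((2 * (D : ℝ) - 1 + x) - 2 * k) / (2 * D + x) / (D - k + 1) *
      ((D + k) / (2 * D - 1 + x)) =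
      v * ((((2 * (D : ℝ) - 1 + x) - 2 * k) * (D + k)) /
        ((2 * D + x) * (2 * D - 1 + x) * (D - k + 1))) := by
    field_simp
  rw [e1]
  have hq0 : 0 ≤ (((2 * (D : ℝ) - 1 + x) - 2 * k) * (D + k)) /
        ((2 * D + x) * (2 * D - 1 + x) * (D - k + 1)) := by
    apply div_nonneg
    · apply mul_nonneg <;> linarith
    · positivity
  refine (mul_le_mul_of_nonneg_right hd1 hq0).trans ?_
  have e2 : A * D * ((((2 * (D : ℝ) - 1 + x) - 2 * k) * (D + k)) /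
        ((2 * D + x) * (2 * D - 1 + x) * (D - k + 1))) =
      A * ((D * (((2 * (D : ℝ) - 1 + x) - 2 * k) * (D + k))) /
        ((2 * D + x) * (2 * D - 1 + x) * (D - k + 1))) := by
    field_simp
  rw [e2, mul_comm (68 / 100 : ℝ) A]
  apply mul_le_mul_of_nonneg_left _ hA0
  rw [div_le_iff₀ (by positivity)]
  have h6 : D * (((2 * (D : ℝ) - 1 + x) - 2 * k) * (D + k)) ≤
      D * ((2 * D - (D - k)) * (2 * (D - k) + x)) := by
    apply mul_le_mul_of_nonneg_left _ (by linarith)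
    nlinarith
  have h7 : 68 / 100 * ((2 * (D : ℝ) - 1 + x) * (2 * D - 2 + x)) * (D - k) ≤
      68 / 100 * ((2 * D + x) * (2 * D - 1 + x) * (D - k + 1)) := by
    have h8 : (2 * (D : ℝ) - 1 + x) * (2 * D - 2 + x) ≤ (2 * D + x) * (2 * D - 1 + x) := by
      nlinarith
    have h9 : ((2 * (D : ℝ) - 1 + x) * (2 * D - 2 + x)) * (D - k) ≤
        ((2 * D + x) * (2 * D - 1 + x)) * (D - k + 1) :=
      mul_le_mul h8 (by linarith) (by linarith) (by positivity)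
    linarith
  linarith

private theorem N23_P2_nonneg (D e : ℕ) (he : 1 ≤ e) : 0 ≤ P2 D e := by
  have h1 : (1 : ℝ) ≤ e := by exact_mod_cast he
  have h2 : 0 ≤ 2 * (e : ℝ) - 1 := by linarith
  unfold P2
  split_ifs
  · positivity
  · positivity
  · exact le_rfl

/-- `P2 (D-k) (2k)`, `P2 (D-k) (2k+1)` vanish unless `3k ≤ D`.  With `m = 2D-1+x`:
`Gev ≤ ((j(D+k)-2D+2) fi j) (2 + x/(D-k+1))/m`, the same for `God`, and
`(2 + 1.5 x/D) (4/3) / ((2+x/D-1/D) (2+x/D-2/D)) ≤ 68/100`. -/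
theorem DcB_le (D x j : ℕ) (hD : 120 ≤ D) (hj : 2 ≤ j) : DcB D 0 x j ≤ (betQ j : ℝ) := by
  obtain ⟨A, hA⟩ : ∃ A : ℝ, A = (4 * (j : ℝ) / 3 - 2 + 2 / 120) / (j.factorial : ℝ) := ⟨_, rfl⟩
  obtain ⟨B, hB⟩ : ∃ B : ℝ, B = if j = 2 then 0 else
        (4 * ((j : ℝ) - 1) / 3 - 2 + (j : ℝ) / 120) / ((j - 1).factorial : ℝ) := ⟨_, rfl⟩
  have hjr : (2 : ℝ) ≤ j := by exact_mod_cast hj
  have hA0 : 0 ≤ A := by
    rw [hA]
    apply div_nonneg (by linarith) (Nat.cast_nonneg _)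
  have hB0 : 0 ≤ B := by
    rw [hB]
    split_ifs with h2
    · exact le_rfl
    · have hj3 : (3 : ℝ) ≤ j := by
        have : 3 ≤ j := by omega
        exact_mod_cast this
      apply div_nonneg (by linarith) (Nat.cast_nonneg _)
  have e0 : (betQ j : ℝ) = 68 / 100 * (A * (27 / 200) + B * (7 / 100)) := by
    unfold betQ
    rw [hA, hB]
    split_ifs <;> push_cast <;> ring
  have h1 : ∀ k ∈ Icc 1 (D - 2),
      Gev D 0 x j k * P2 (D - k) (2 * k) * (((D : ℝ) + k - 1) / (2 * D - 2 + (0 : ℕ) + x)) +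
      God D 0 x j k * P2 (D - k) (2 * k + 1) * (((D : ℝ) + k) / (2 * D - 1 + (0 : ℕ) + x)) ≤
      68 / 100 * A * P2 (D - k) (2 * k) + 68 / 100 * B * P2 (D - k) (2 * k + 1) := by
    intro k hk
    have hk' := Finset.mem_Icc.1 hk
    have q1 := N23_P2_nonneg (D - k) (2 * k) (by omega)
    have q2 := N23_P2_nonneg (D - k) (2 * k + 1) (by omega)
    have r1 : Gev D 0 x j k * P2 (D - k) (2 * k) *
        (((D : ℝ) + k - 1) / (2 * D - 2 + (0 : ℕ) + x)) ≤ 68 / 100 * A * P2 (D - k) (2 * k) := by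
      by_cases h3 : 3 * k ≤ D
      · have h4 := N23_ev D x j k hD hj hk'.1 h3
        rw [← hA] at h4
        calc _ = (Gev D 0 x j k * (((D : ℝ) + k - 1) / (2 * D - 2 + (0 : ℕ) + x))) *
              P2 (D - k) (2 * k) := by ring
          _ ≤ _ := mul_le_mul_of_nonneg_right h4 q1
      · have h5 : P2 (D - k) (2 * k) = 0 := by
          unfold P2
          rw [if_neg (by omega), if_neg (by omega)]
        rw [h5]
        simp
    have r2 : God D 0 x j k * P2 (D - k) (2 * k + 1) *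
        (((D : ℝ) + k) / (2 * D - 1 + (0 : ℕ) + x)) ≤ 68 / 100 * B * P2 (D - k) (2 * k + 1) := by
      by_cases h3 : 3 * k + 1 ≤ D
      · have h4 := N23_od D x j k hD hj hk'.1 h3
        rw [← hB] at h4
        calc _ = (God D 0 x j k * (((D : ℝ) + k) / (2 * D - 1 + (0 : ℕ) + x))) *
              P2 (D - k) (2 * k + 1) := by ring
          _ ≤ _ := mul_le_mul_of_nonneg_right h4 q2
      · have h5 : P2 (D - k) (2 * k + 1) = 0 := by
          unfold P2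
          rw [if_neg (by omega), if_neg (by omega)]
        rw [h5]
        simp
    linarith
  unfold DcB
  refine (Finset.sum_le_sum h1).trans ?_
  rw [Finset.sum_add_distrib, ← Finset.mul_sum, ← Finset.mul_sum, e0]
  have h2 := mul_le_mul_of_nonneg_left (sumP2_ev D hD) (by positivity : 0 ≤ 68 / 100 * A)
  have h3 := mul_le_mul_of_nonneg_left (sumP2_od D hD) (by positivity : 0 ≤ 68 / 100 * B)
  linarith

end Pool.ADM
end

section

/-! job ADN-26: the part `β = 2` of `Hp`, `D ≥ 121`, `w = 0`. -/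

set_option autoImplicit false

namespace Pool.ADM

open Finset

noncomputable def HpB (D x J par : ℕ) : ℝ :=
  ∑ k ∈ range (D - 2),
    Hw 0 x J (2 * D - 2 + 0 + x + J + par) (D - 1 - k) (2 * k + par) *
      P2s (D - 1 - k) (2 * k + par) *
      (((D : ℝ) - 2 + k + par) / (((2 * D - 2 + 0 + x + J + par : ℕ) : ℝ) - 1))

theorem Hp_split (D x J par : ℕ) (hD : 3 ≤ D) (hp : par ≤ 1) :
    Hp D 0 x J (2 * D - 2 + 0 + x + J + par) par = HpB D x J par +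
      ∑ k ∈ Icc 1 (D - 3), (phH D x J par k - phH D x J par (k - 1)) *
        Rd (D - 1 - k) (D - 1 + k + par) := by
  unfold Hp HpB
  rw [sum_add_distrib]
  congr 1
  have hr : range (D - 2) = insert 0 (Icc 1 (D - 3)) := by
    ext k
    rw [mem_range, mem_insert, mem_Icc]
    omega
  have h0 : (0 : ℕ) ∉ Icc 1 (D - 3) := by
    rw [mem_Icc]
    omega
  rw [hr, sum_insert h0]
  have h1 : (Hh D 0 x J (2 * D - 2 + 0 + x + J + par) par 0 *
      Ps (D - 1 + 0 + par) (2 * D - 2 + 0 + x + J + par) -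
      (if (0 : ℕ) = 0 then (0 : ℝ) else Hh D 0 x J (2 * D - 2 + 0 + x + J + par) par (0 - 1) *
        Ps (D - 2 + 0 + par) (2 * D - 2 + 0 + x + J + par))) *
      Rd (D - 1 - 0) (D - 1 + 0 + par) = 0 := by
    have h2 := phH_zero D x J par hD hp
    unfold phH at h2
    rw [h2, if_pos rfl, sub_zero, zero_mul]
  rw [h1, zero_add]
  refine sum_congr rfl fun k hk => ?_
  rw [mem_Icc] at hk
  have h3 : ¬ (k = 0) := by omega
  rw [if_neg h3]
  unfold phH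
  have h4 : D - 2 + k + par = D - 1 + (k - 1) + par := by omega
  rw [h4]

/-- the positive part vanishes for small `e` -/
private theorem N26_zero (d e x J n : ℕ) (h : e * (e + d) ≤ d * (d + 1)) : Hw 0 x J n d e = 0 := by
  have h1 : max 0 (1 - rho (d + e) (d + 0)) = 0 := by
    apply max_eq_left
    rw [sub_nonpos]
    unfold rho
    have hd : (0 : ℝ) ≤ d := Nat.cast_nonneg d
    have he : (0 : ℝ) ≤ e := Nat.cast_nonneg e
    have h' : (e : ℝ) * (e + d) ≤ d * (d + 1) := by exact_mod_cast h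
    rw [le_div_iff₀ (by push_cast; positivity)]
    push_cast
    nlinarith
  unfold Hw
  rw [h1]
  simp

private theorem N26_hw (d e x J n : ℕ) (hd : 1 ≤ d) (he : 1 ≤ e) (hed : e ≤ d)
    (hn : n = 2 * d + e + (x + J)) :
    Hw 0 x J n d e * (((d : ℝ) + e - 1) / ((n : ℝ) - 1)) ≤ 1 / 2 := by
  have hd' : (1 : ℝ) ≤ d := by exact_mod_cast hd
  have he' : (1 : ℝ) ≤ e := by exact_mod_cast he
  have hed' : (e : ℝ) ≤ d := by exact_mod_cast hed
  have hx : (0 : ℝ) ≤ x := Nat.cast_nonneg x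
  have hJ : (0 : ℝ) ≤ J := Nat.cast_nonneg J
  have hn' : (n : ℝ) = 2 * d + e + (x + J) := by exact_mod_cast hn
  have hm : max 0 (1 - rho (d + e) (d + 0)) ≤ 1 / 6 := by
    apply max_le (by norm_num)
    have h1 : 5 / 6 ≤ rho (d + e) (d + 0) := by
      unfold rho
      rw [le_div_iff₀ (by push_cast; positivity)]
      push_cast
      nlinarith [mul_nonneg (sub_nonneg.2 hed') (by positivity : (0 : ℝ) ≤ 8 * d + 5 * e)]
    linarith
  have hm0 : 0 ≤ max 0 (1 - rho (d + e) (d + 0)) := le_max_left _ _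
  have hr : 4 / 3 ≤ rho d (d + 0) := by
    unfold rho
    rw [le_div_iff₀ (by push_cast; positivity)]
    push_cast
    nlinarith
  have hmr : max 0 (1 - rho (d + e) (d + 0)) / rho d (d + 0) ≤ 1 / 8 := by
    rw [div_le_iff₀ (by linarith)]
    linarith
  have hmr0 : 0 ≤ max 0 (1 - rho (d + e) (d + 0)) / rho d (d + 0) := div_nonneg hm0 (by linarith)
  have h2 : ((d : ℝ) + e) / d ≤ 2 := by
    rw [div_le_iff₀ (by linarith)]
    linarith
  have h20 : 0 ≤ ((d : ℝ) + e) / d := div_nonneg (by linarith) (by linarith)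
  have h3 : ((x : ℝ) + J + 1) / n ≤ 1 := by
    rw [div_le_one (by linarith)]
    linarith
  have h30 : 0 ≤ ((x : ℝ) + J + 1) / n := div_nonneg (by linarith) (by linarith)
  have h4 : ((n : ℝ) - e) / (n - 1) ≤ 1 := by
    rw [div_le_one (by linarith)]
    linarith
  have h40 : 0 ≤ ((n : ℝ) - e) / (n - 1) := div_nonneg (by linarith) (by linarith)
  have h5 : ((d : ℝ) + e - 1) / (d + 2 + (0 : ℕ)) ≤ 2 := by
    rw [Nat.cast_zero, div_le_iff₀ (by linarith)]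
    linarith
  have h50 : 0 ≤ ((d : ℝ) + e - 1) / (d + 2 + (0 : ℕ)) :=
    div_nonneg (by linarith) (by rw [Nat.cast_zero]; linarith)
  have heq : Hw 0 x J n d e * (((d : ℝ) + e - 1) / ((n : ℝ) - 1)) =
      (max 0 (1 - rho (d + e) (d + 0)) / rho d (d + 0)) * (((d : ℝ) + e) / d) *
        (((x : ℝ) + J + 1) / n) * (((n : ℝ) - e) / (n - 1)) *
        (((d : ℝ) + e - 1) / (d + 2 + (0 : ℕ))) := by
    unfold Hw
    ring
  rw [heq]
  calc _ ≤ (1 / 8 * 2 * 1 * 1 * 2 : ℝ) := by gcongr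
    _ = 1 / 2 := by norm_num

private theorem N26_term (D x J par k : ℕ) (hD : 121 ≤ D) (hp : par ≤ 1) (hk : k < D - 2) :
    Hw 0 x J (2 * D - 2 + 0 + x + J + par) (D - 1 - k) (2 * k + par) *
      P2s (D - 1 - k) (2 * k + par) *
      (((D : ℝ) - 2 + k + par) / (((2 * D - 2 + 0 + x + J + par : ℕ) : ℝ) - 1)) ≤
      if D ≤ 5 * k ∧ 3 * k + 1 ≤ D then 4 / 5 / (D : ℝ) ^ 2 else 0 := by
  have hD' : (121 : ℝ) ≤ D := by exact_mod_cast hD
  have hc0 : (0 : ℝ) ≤ if D ≤ 5 * k ∧ 3 * k + 1 ≤ D then 4 / 5 / (D : ℝ) ^ 2 else 0 := by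
    split_ifs
    · positivity
    · exact le_rfl
  by_cases h1 : 2 * k + par ≤ D - 1 - k
  · by_cases h2 : D ≤ 5 * k
    · rw [if_pos ⟨h2, by omega⟩]
      obtain ⟨d, hd⟩ : ∃ d, D - 1 - k = d := ⟨_, rfl⟩
      obtain ⟨e, he⟩ : ∃ e, 2 * k + par = e := ⟨_, rfl⟩
      obtain ⟨n, hn⟩ : ∃ n, 2 * D - 2 + 0 + x + J + par = n := ⟨_, rfl⟩
      rw [hd, he] at h1
      rw [hd, he, hn]
      have hDd : (D : ℝ) = d + 1 + k := by
        have : D = d + 1 + k := by omega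
        exact_mod_cast this
      have hee : (e : ℝ) = 2 * k + par := by exact_mod_cast he.symm
      have hq : (D : ℝ) - 2 + k + par = d + e - 1 := by linarith
      have h3 := N26_hw d e x J n (by omega) (by omega) h1 (by omega)
      have hk' : (D : ℝ) ≤ 5 * k := by exact_mod_cast h2
      have hpar : (0 : ℝ) ≤ par := Nat.cast_nonneg par
      have he2 : 2 * (k : ℝ) ≤ e := by linarith
      have h4 : 5 / 8 * (D : ℝ) ^ 2 ≤ 2 * (e : ℝ) * (2 * e - 1) := by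
        have h5 : 4 / 5 * (D : ℝ) ≤ 2 * e := by linarith
        have h6 : 0 ≤ 4 / 5 * (D : ℝ) - 1 := by linarith
        have h7 : 4 / 5 * (D : ℝ) * (4 / 5 * D - 1) ≤ 2 * (e : ℝ) * (2 * e - 1) :=
          mul_le_mul h5 (by linarith) h6 (by linarith)
        nlinarith
      have h5 : P2s d e ≤ 8 / 5 / (D : ℝ) ^ 2 := by
        unfold P2s
        rw [if_pos h1, div_le_div_iff₀ (by nlinarith) (by positivity)]
        linarith
      have h6 : 0 ≤ P2s d e := by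
        unfold P2s
        rw [if_pos h1]
        exact div_nonneg zero_le_one (by nlinarith)
      rw [hq]
      calc Hw 0 x J n d e * P2s d e * (((d : ℝ) + e - 1) / ((n : ℝ) - 1))
          = Hw 0 x J n d e * (((d : ℝ) + e - 1) / ((n : ℝ) - 1)) * P2s d e := by ring
        _ ≤ 1 / 2 * (8 / 5 / (D : ℝ) ^ 2) := mul_le_mul h3 h5 h6 (by norm_num)
        _ = 4 / 5 / (D : ℝ) ^ 2 := by ring
    · have h3 : Hw 0 x J (2 * D - 2 + 0 + x + J + par) (D - 1 - k) (2 * k + par) = 0 := by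
        apply N26_zero
        obtain ⟨d, hd⟩ : ∃ d, D - 1 - k = d := ⟨_, rfl⟩
        rw [hd]
        have e1 : 4 * k ≤ d := by omega
        have e2 : 121 ≤ d + 1 + k := by omega
        have e3 : 2 * k + par ≤ 2 * k + 1 := by omega
        calc (2 * k + par) * (2 * k + par + d) ≤ (2 * k + 1) * (2 * k + 1 + d) :=
              Nat.mul_le_mul e3 (by omega)
          _ ≤ d * (d + 1) := by
              rcases Nat.lt_or_ge k 11 with hk11 | hk11
              · have e4 : 110 ≤ d := by omega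
                have e5 : k ≤ 10 := by omega
                nlinarith
              · nlinarith
      rw [h3, zero_mul, zero_mul]
      exact hc0
  · have h2 : P2s (D - 1 - k) (2 * k + par) = 0 := by
      unfold P2s
      rw [if_neg h1]
    rw [h2, mul_zero, zero_mul]
    exact hc0

/-- `P2s ≠ 0` only for `3k + par ≤ D - 1`, `Hw = 0` for `5k < D` (`rho (d+e) d ≥ 1`); for the others
`P2s ≤ 1.58/D²`, `Hw (a-1)/(n-1) ≤ 1/2`, at most `.142 D` terms.  (True maximum `.00012`.) -/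
theorem HpB_le (D x J par : ℕ) (hD : 121 ≤ D) (hp : par ≤ 1) : HpB D x J par ≤ 13 / 10000 := by
  have hD' : (121 : ℝ) ≤ D := by exact_mod_cast hD
  unfold HpB
  refine (sum_le_sum fun k hk => N26_term D x J par k hD hp (mem_range.1 hk)).trans ?_
  rw [← sum_filter, sum_const, nsmul_eq_mul]
  have h1 : (range (D - 2)).filter (fun k => D ≤ 5 * k ∧ 3 * k + 1 ≤ D) ⊆
      Icc ((D + 4) / 5) ((D - 1) / 3) := by
    intro k hk
    rw [mem_filter] at hk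
    rw [mem_Icc]
    omega
  have h2 := card_le_card h1
  rw [Nat.card_Icc] at h2
  have h3 : 15 * ((range (D - 2)).filter (fun k => D ≤ 5 * k ∧ 3 * k + 1 ≤ D)).card ≤
      2 * D + 15 := by omega
  have h4 : 15 * ((((range (D - 2)).filter (fun k => D ≤ 5 * k ∧ 3 * k + 1 ≤ D)).card : ℕ) : ℝ) ≤
      2 * D + 15 := by exact_mod_cast h3
  have h5 : (0 : ℝ) < (D : ℝ) ^ 2 := by positivity
  rw [mul_div_assoc', div_le_iff₀ h5]
  nlinarith

end Pool.ADM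
end

section

/-! job ADN-24: `Dc` for `D ≥ 120`, `w = 0`. -/

set_option autoImplicit false

namespace Pool.ADM

open Finset

def PQ (j c : ℕ) : ℚ :=
  gQ j (((c : ℚ) + 1) / 48) *
    ((1 + ((c : ℚ) + 1) / 48) ^ 2 / (2 * (1 - ((c : ℚ) + 1) / 48)))

def alpQ (j : ℕ) : ℚ :=
  ∑ c ∈ range 35, PQ j c * (rcQ c - rcQ (c + 1)) + PQ j 35 * rcQ 35 + 17 / 10000 * gQ j 1

private theorem N24_term (D d : ℝ) (hD : 0 < D) (hd : 2 ≤ d) :
    2 * D / d * (((d + 1) / D) ^ 4 / 34 - (d / D) ^ 4 / 34) ≤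
      8 / 34 / D ^ 3 * (d ^ 2 + 3 / 2 * d + 5 / 4) := by
  have hd0 : 0 < d := by linarith
  have e : 2 * D / d * (((d + 1) / D) ^ 4 / 34 - (d / D) ^ 4 / 34) =
      2 / 34 / D ^ 3 * (4 * d ^ 2 + 6 * d + 4 + 1 / d) := by
    field_simp
    ring
  rw [e]
  have h1 : 1 / d ≤ 1 := by
    rw [div_le_one hd0]
    linarith
  have h2 : 0 < 2 / 34 / D ^ 3 := by positivity
  have e2 : 8 / 34 / D ^ 3 * (d ^ 2 + 3 / 2 * d + 5 / 4) =
      2 / 34 / D ^ 3 * (4 * d ^ 2 + 6 * d + 5) := by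
    ring
  rw [e2]
  exact mul_le_mul_of_nonneg_left (by linarith) h2.le

private noncomputable def N24_S (y : ℝ) : ℝ := y ^ 3 / 3 + 5 / 4 * y ^ 2 + 13 / 6 * y

/-- the tail (`phD_tail`, `ρ k = ((D-k+1)/D)^4/34`, `δ = D - k`):
`(2D/δ) ((δ+1)^4 - δ^4)/(34 D^4) ≤ (8/34) (δ+1)³/(δ D³)`, `(δ+1)³/δ ≤ δ² + 3δ + 7/2`, `4δ < D`. -/
theorem tail_sum (D : ℕ) (hD : 120 ≤ D) :
    ∑ k ∈ (Icc 1 (D - 2)).filter (fun k => 3 * D < 4 * k), 2 * (D : ℝ) / ((D : ℝ) - k) *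
        ((((D : ℝ) - k + 1) / D) ^ 4 / 34 - (((D : ℝ) - (k + 1 : ℕ) + 1) / D) ^ 4 / 34) +
      (D : ℝ) * ((2 / D) ^ 4 / 34) ≤ 17 / 10000 := by
  have hD' : (120 : ℝ) ≤ D := by exact_mod_cast hD
  have hD0 : (0 : ℝ) < D := by linarith
  have hset : (Icc 1 (D - 2)).filter (fun k => 3 * D < 4 * k) = Ico (3 * D / 4 + 1) (D - 1) := by
    ext k
    simp only [Finset.mem_filter, Finset.mem_Icc, Finset.mem_Ico]
    omega
  rw [hset]
  have hterm : ∀ k ∈ Ico (3 * D / 4 + 1) (D - 1), 2 * (D : ℝ) / ((D : ℝ) - k) *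
        ((((D : ℝ) - k + 1) / D) ^ 4 / 34 - (((D : ℝ) - (k + 1 : ℕ) + 1) / D) ^ 4 / 34) ≤
      8 / 34 / (D : ℝ) ^ 3 * (N24_S ((D : ℝ) - k) - N24_S ((D : ℝ) - (k + 1 : ℕ))) := by
    intro k hk
    obtain ⟨hk1, hk2⟩ := Finset.mem_Ico.1 hk
    have hk3 : (k : ℝ) + 2 ≤ D := by exact_mod_cast (by omega : k + 2 ≤ D)
    have h1 := N24_term (D : ℝ) ((D : ℝ) - k) hD0 (by linarith)
    have e1 : (D : ℝ) - ((k + 1 : ℕ) : ℝ) + 1 = (D : ℝ) - k := by
      push_cast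
      ring
    have e2 : N24_S ((D : ℝ) - k) - N24_S ((D : ℝ) - (k + 1 : ℕ)) =
        ((D : ℝ) - k) ^ 2 + 3 / 2 * ((D : ℝ) - k) + 5 / 4 := by
      unfold N24_S
      push_cast
      ring
    rw [e1, e2]
    exact h1
  have hsum := Finset.sum_le_sum hterm
  rw [← Finset.mul_sum] at hsum
  have htel : ∑ k ∈ Ico (3 * D / 4 + 1) (D - 1),
      (N24_S ((D : ℝ) - k) - N24_S ((D : ℝ) - (k + 1 : ℕ))) =
      N24_S ((D : ℝ) - (3 * D / 4 + 1 : ℕ)) - N24_S ((D : ℝ) - (D - 1 : ℕ)) := by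
    have h1 := Finset.sum_Ico_sub (fun k : ℕ => -N24_S ((D : ℝ) - k))
      (by omega : 3 * D / 4 + 1 ≤ D - 1)
    have h2 : ∑ k ∈ Ico (3 * D / 4 + 1) (D - 1),
        (N24_S ((D : ℝ) - k) - N24_S ((D : ℝ) - (k + 1 : ℕ))) =
        ∑ k ∈ Ico (3 * D / 4 + 1) (D - 1),
          (-N24_S ((D : ℝ) - (k + 1 : ℕ)) - -N24_S ((D : ℝ) - k)) :=
      Finset.sum_congr rfl fun k _ => by ring
    rw [h2, h1]
    ring
  rw [htel] at hsum
  have e1 : (D : ℝ) - ((D - 1 : ℕ) : ℝ) = 1 := by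
    rw [Nat.cast_sub (by omega)]
    push_cast
    ring
  rw [e1] at hsum
  have hS1 : N24_S 1 = 15 / 4 := by
    unfold N24_S
    norm_num
  rw [hS1] at hsum
  obtain ⟨y, hy⟩ : ∃ y : ℝ, y = (D : ℝ) - ((3 * D / 4 + 1 : ℕ) : ℝ) := ⟨_, rfl⟩
  rw [← hy] at hsum
  have hy0 : 0 ≤ y := by
    have : ((3 * D / 4 + 1 : ℕ) : ℝ) ≤ D := by exact_mod_cast (by omega : 3 * D / 4 + 1 ≤ D)
    linarith
  have hy1 : y ≤ D / 4 := by
    have h3 : 3 * (D : ℝ) ≤ 4 * ((3 * D / 4 + 1 : ℕ) : ℝ) := by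
      exact_mod_cast (by omega : 3 * D ≤ 4 * (3 * D / 4 + 1))
    linarith
  have hSy : N24_S y ≤ (D : ℝ) ^ 3 / 192 + 5 / 64 * (D : ℝ) ^ 2 + 13 / 24 * D := by
    have h2 : y ^ 2 ≤ (D / 4 : ℝ) ^ 2 := pow_le_pow_left₀ hy0 hy1 2
    have h3 : y ^ 3 ≤ (D / 4 : ℝ) ^ 3 := pow_le_pow_left₀ hy0 hy1 3
    unfold N24_S
    have e3 : (D / 4 : ℝ) ^ 2 = (D : ℝ) ^ 2 / 16 := by ring
    have e4 : (D / 4 : ℝ) ^ 3 = (D : ℝ) ^ 3 / 64 := by ring
    rw [e3] at h2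
    rw [e4] at h3
    linarith
  have hc0 : 0 < 8 / 34 / (D : ℝ) ^ 3 := by positivity
  have e5 : (D : ℝ) * ((2 / D) ^ 4 / 34) = 8 / 34 / (D : ℝ) ^ 3 * 2 := by
    field_simp
    ring
  rw [e5]
  have h6 := mul_le_mul_of_nonneg_left hSy hc0.le
  have h7 : 8 / 34 / (D : ℝ) ^ 3 * ((D : ℝ) ^ 3 / 192 + 5 / 64 * (D : ℝ) ^ 2 + 13 / 24 * D) ≤
      17 / 10000 := by
    rw [div_mul_eq_mul_div, div_le_iff₀ (by positivity)]
    have h8 : 120 * (D : ℝ) ^ 2 ≤ (D : ℝ) ^ 3 := by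
      have : 0 ≤ ((D : ℝ) - 120) * (D : ℝ) ^ 2 := mul_nonneg (by linarith) (by positivity)
      nlinarith
    have h9 : 120 * (D : ℝ) ≤ (D : ℝ) ^ 2 := by nlinarith
    nlinarith
  have h10 : 8 / 34 / (D : ℝ) ^ 3 * (N24_S y - 15 / 4) + 8 / 34 / (D : ℝ) ^ 3 * 2 ≤
      8 / 34 / (D : ℝ) ^ 3 * N24_S y := by
    have h11 : 8 / 34 / (D : ℝ) ^ 3 * N24_S y -
        (8 / 34 / (D : ℝ) ^ 3 * (N24_S y - 15 / 4) + 8 / 34 / (D : ℝ) ^ 3 * 2) =
        8 / 34 / (D : ℝ) ^ 3 * (7 / 4) := by ring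
    have h12 : 0 ≤ 8 / 34 / (D : ℝ) ^ 3 * (7 / 4) := by positivity
    linarith
  linarith

/-- `Dc_split`, `cell_sum` with `φ = phD`, `P c = (2D/m)² PQ j c`, `r = rcQ`. -/
theorem Dc_large (D x j : ℕ) (hD : 120 ≤ D) (hj : 2 ≤ j) :
    Dc D 0 x j ≤ (2 * (D : ℝ) / (2 * (D : ℝ) - 1 + x)) ^ 2 * (alpQ j : ℝ) + (betQ j : ℝ) := by
  have hD' : (120 : ℝ) ≤ D := by exact_mod_cast hD
  have hD0 : (0 : ℝ) < D := by linarith
  obtain ⟨M, hM⟩ : ∃ M : ℝ, M = (2 * (D : ℝ) / (2 * (D : ℝ) - 1 + x)) ^ 2 := ⟨_, rfl⟩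
  have hM0 : 0 ≤ M := by
    rw [hM]
    positivity
  have hg0 : (0 : ℝ) ≤ ((gQ j 1 : ℚ) : ℝ) := by
    have h1 : (0 : ℚ) ≤ gQ j 1 := by
      unfold gQ
      refine le_trans ?_ (le_max_left _ _)
      have hj2 : (2 : ℚ) ≤ j := by exact_mod_cast hj
      exact div_nonneg (by linarith) (Nat.cast_nonneg _)
    exact_mod_cast h1
  rw [Dc_split, ← hM]
  have hB := DcB_le D x j hD hj
  have hcell := cell_sum D (D - 2) (by omega) (phD D x j) (fun k => Rd (D - k) (D + k))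
    (fun k => (((D : ℝ) - k + 1) / D) ^ 4 / 34) (fun c => M * ((PQ j c : ℚ) : ℝ))
    (fun c => ((rcQ c : ℚ) : ℝ)) (phD_zero D x j)
    (fun k hk => phD_mono D x j k (by omega))
    (by
      intro c hc k hk h
      have h1 : ((((c : ℚ) + 1) / 48 : ℚ)) < 1 := by
        have h2 : (c : ℚ) + 1 ≤ 36 := by exact_mod_cast (by omega : c + 1 ≤ 36)
        linarith
      have h3 : (k : ℝ) ≤ (((((c : ℚ) + 1) / 48 : ℚ)) : ℝ) * D := by
        have h4 : 48 * (k : ℝ) ≤ ((c : ℝ) + 1) * D := by exact_mod_cast h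
        push_cast
        linarith
      have h5 := phD_cell D x j k hD hj (by omega) (((c : ℚ) + 1) / 48) (by positivity) h1 h3
      rw [← hM] at h5
      exact h5)
    (fun c hc k hk1 hk2 h => Rd_cell D k c hD (by omega) (by omega) h)
    (fun c hc => by
      have h1 := rcQ_anti c hc
      show ((rcQ (c + 1) : ℚ) : ℝ) ≤ ((rcQ c : ℚ) : ℝ)
      exact_mod_cast h1)
    (by
      have h1 := rcQ_nonneg
      show (0 : ℝ) ≤ ((rcQ 35 : ℚ) : ℝ)
      exact_mod_cast h1)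
    (fun k hk1 hk2 h => Rd_tail D k hD (by omega) h)
    (by
      intro k hk
      have hk' : (k : ℝ) + 2 ≤ D := by exact_mod_cast (by omega : k + 2 ≤ D)
      show (((D : ℝ) - ((k + 1 : ℕ) : ℝ) + 1) / D) ^ 4 / 34 ≤ (((D : ℝ) - k + 1) / D) ^ 4 / 34
      have h1 : 0 ≤ ((D : ℝ) - ((k + 1 : ℕ) : ℝ) + 1) / D := by
        apply div_nonneg _ hD0.le
        push_cast
        linarith
      have h2 : ((D : ℝ) - ((k + 1 : ℕ) : ℝ) + 1) / D ≤ ((D : ℝ) - k + 1) / D := by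
        apply div_le_div_of_nonneg_right _ hD0.le
        push_cast
        linarith
      exact div_le_div_of_nonneg_right (pow_le_pow_left₀ h1 h2 4) (by norm_num))
    (by
      show (0 : ℝ) ≤ (((D : ℝ) - ((D - 2 + 1 : ℕ) : ℝ) + 1) / D) ^ 4 / 34
      positivity)
  have htail : ∑ k ∈ (Icc 1 (D - 2)).filter (fun k => 3 * D < 4 * k), phD D x j k *
        ((((D : ℝ) - k + 1) / D) ^ 4 / 34 - (((D : ℝ) - (k + 1 : ℕ) + 1) / D) ^ 4 / 34) +
      phD D x j (D - 2) * ((((D : ℝ) - ((D - 2 + 1 : ℕ) : ℝ) + 1) / D) ^ 4 / 34) ≤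
      M * (((gQ j 1 : ℚ) : ℝ) * (17 / 10000)) := by
    have h1 : ∀ k ∈ (Icc 1 (D - 2)).filter (fun k => 3 * D < 4 * k), phD D x j k *
        ((((D : ℝ) - k + 1) / D) ^ 4 / 34 - (((D : ℝ) - (k + 1 : ℕ) + 1) / D) ^ 4 / 34) ≤
        M * ((gQ j 1 : ℚ) : ℝ) * (2 * (D : ℝ) / ((D : ℝ) - k) *
          ((((D : ℝ) - k + 1) / D) ^ 4 / 34 -
            (((D : ℝ) - (k + 1 : ℕ) + 1) / D) ^ 4 / 34)) := by
      intro k hk
      have hk1 := (Finset.mem_Icc.1 (Finset.mem_filter.1 hk).1).2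
      have hk' : (k : ℝ) + 2 ≤ D := by exact_mod_cast (by omega : k + 2 ≤ D)
      have h2 := phD_tail D x j k hD hj (by omega)
      rw [← hM] at h2
      have h3 : 0 ≤ (((D : ℝ) - k + 1) / D) ^ 4 / 34 -
          (((D : ℝ) - (k + 1 : ℕ) + 1) / D) ^ 4 / 34 := by
        have h4 : 0 ≤ ((D : ℝ) - ((k + 1 : ℕ) : ℝ) + 1) / D := by
          apply div_nonneg _ hD0.le
          push_cast
          linarith
        have h5 : ((D : ℝ) - ((k + 1 : ℕ) : ℝ) + 1) / D ≤ ((D : ℝ) - k + 1) / D := by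
          apply div_le_div_of_nonneg_right _ hD0.le
          push_cast
          linarith
        have h6 := div_le_div_of_nonneg_right (pow_le_pow_left₀ h4 h5 4)
          (by norm_num : (0 : ℝ) ≤ 34)
        linarith
      have h7 := mul_le_mul_of_nonneg_right h2 h3
      refine h7.trans (le_of_eq ?_)
      ring
    have h2 : phD D x j (D - 2) * ((((D : ℝ) - ((D - 2 + 1 : ℕ) : ℝ) + 1) / D) ^ 4 / 34) ≤
        M * ((gQ j 1 : ℚ) : ℝ) * ((D : ℝ) * ((2 / D) ^ 4 / 34)) := by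
      have h3 := phD_tail D x j (D - 2) hD hj (by omega)
      rw [← hM] at h3
      have e1 : (D : ℝ) - ((D - 2 : ℕ) : ℝ) = 2 := by
        rw [Nat.cast_sub (by omega)]
        push_cast
        ring
      have e2 : (D : ℝ) - ((D - 2 + 1 : ℕ) : ℝ) + 1 = 2 := by
        push_cast
        linarith
      rw [e1] at h3
      rw [e2]
      have h4 : (0 : ℝ) ≤ (2 / (D : ℝ)) ^ 4 / 34 := by positivity
      refine (mul_le_mul_of_nonneg_right h3 h4).trans (le_of_eq ?_)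
      ring
    have h3 := Finset.sum_le_sum h1
    rw [← Finset.mul_sum] at h3
    have h4 := tail_sum D hD
    have h5 := mul_le_mul_of_nonneg_left h4 (mul_nonneg hM0 hg0)
    have h6 : M * ((gQ j 1 : ℚ) : ℝ) * (17 / 10000) = M * (((gQ j 1 : ℚ) : ℝ) * (17 / 10000)) := by
      ring
    rw [mul_add] at h5
    linarith
  have halp : M * ((alpQ j : ℚ) : ℝ) = ∑ c ∈ range 35, M * ((PQ j c : ℚ) : ℝ) *
        (((rcQ c : ℚ) : ℝ) - ((rcQ (c + 1) : ℚ) : ℝ)) +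
      M * ((PQ j 35 : ℚ) : ℝ) * ((rcQ 35 : ℚ) : ℝ) +
      M * (((gQ j 1 : ℚ) : ℝ) * (17 / 10000)) := by
    unfold alpQ
    push_cast
    rw [mul_add, mul_add, Finset.mul_sum]
    have e1 : ∀ c ∈ range 35, M * (((PQ j c : ℚ) : ℝ) *
        (((rcQ c : ℚ) : ℝ) - ((rcQ (c + 1) : ℚ) : ℝ))) = M * ((PQ j c : ℚ) : ℝ) *
        (((rcQ c : ℚ) : ℝ) - ((rcQ (c + 1) : ℚ) : ℝ)) := fun c _ => by ring
    rw [Finset.sum_congr rfl e1]
    ring
  rw [halp]
  have hcell' : ∑ k ∈ Icc 1 (D - 2), (phD D x j k - phD D x j (k - 1)) * Rd (D - k) (D + k) ≤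
      ∑ c ∈ range 35, M * ((PQ j c : ℚ) : ℝ) *
        (((rcQ c : ℚ) : ℝ) - ((rcQ (c + 1) : ℚ) : ℝ)) +
      M * ((PQ j 35 : ℚ) : ℝ) * ((rcQ 35 : ℚ) : ℝ) +
      ∑ k ∈ (Icc 1 (D - 2)).filter (fun k => 3 * D < 4 * k), phD D x j k *
        ((((D : ℝ) - k + 1) / D) ^ 4 / 34 - (((D : ℝ) - (k + 1 : ℕ) + 1) / D) ^ 4 / 34) +
      phD D x j (D - 2) * ((((D : ℝ) - ((D - 2 + 1 : ℕ) : ℝ) + 1) / D) ^ 4 / 34) := hcell
  linarith

/-- numerical values of `alpQ`, `betQ` for `j = 2, …, 9` -/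
def aQ (j : ℕ) : ℚ :=
  if j = 2 then 446 / 1000 else if j = 3 then 483 / 1000 else if j = 4 then 434 / 1000 else
  if j = 5 then 180 / 1000 else if j = 6 then 51 / 1000 else if j = 7 then 11 / 1000 else
  if j = 8 then 2 / 1000 else 1 / 1000

def bQ (j : ℕ) : ℚ :=
  if j = 2 then 32 / 1000 else if j = 3 then 48 / 1000 else if j = 4 then 30 / 1000 else
  if j = 5 then 11 / 1000 else if j = 6 then 3 / 1000 else 1 / 1000

/-- `decide +kernel` or `norm_num` -/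
theorem alpQ_le : ∀ j, 2 ≤ j → j ≤ 9 → alpQ j ≤ aQ j ∧ betQ j ≤ bQ j := by
  intro j h1 h2
  interval_cases j <;> decide +kernel

theorem Dc_num (D x j : ℕ) (hD : 120 ≤ D) (hj : 2 ≤ j) (hj' : j ≤ 9) :
    Dc D 0 x j ≤ (2 * (D : ℝ) / (2 * (D : ℝ) - 1 + x)) ^ 2 * (aQ j : ℝ) + (bQ j : ℝ) := by
  obtain ⟨h1, h2⟩ := alpQ_le j hj hj'
  have h3 : ((alpQ j : ℚ) : ℝ) ≤ ((aQ j : ℚ) : ℝ) := by exact_mod_cast h1
  have h4 : ((betQ j : ℚ) : ℝ) ≤ ((bQ j : ℚ) : ℝ) := by exact_mod_cast h2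
  refine (Dc_large D x j hD hj).trans (add_le_add ?_ h4)
  exact mul_le_mul_of_nonneg_left h3 (by positivity)

end Pool.ADM
end

section

/-! job ADN-27: `Hp` for `D ≥ 121`, `w = 0`. -/

set_option autoImplicit false

namespace Pool.ADM

open Finset

def PHs (c : ℕ) : ℚ :=
  hQ (((c : ℚ) + 1) / 48) * ((1 + ((c : ℚ) + 1) / 48 + 3 / 120) / (4 * (1 - ((c : ℚ) + 1) / 48)))

def PHb (c : ℕ) : ℚ :=
  hQ (((c : ℚ) + 1) / 48) * ((1 + ((c : ℚ) + 1) / 48) ^ 2 / (1 - ((c : ℚ) + 1) / 48))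

/-- `decide +kernel` or `norm_num` (values `.18857`, `1.11094`) -/
theorem PHs_sum : ∑ c ∈ range 35, PHs c * (rcQ c - rcQ (c + 1)) + PHs 35 * rcQ 35 ≤ 1887 / 10000 := by
  decide +kernel

theorem PHb_sum : ∑ c ∈ range 35, PHb c * (rcQ c - rcQ (c + 1)) + PHb 35 * rcQ 35 ≤ 1112 / 1000 := by
  decide +kernel

/-- sum of `D - k` over the tail -/
private theorem N27_sum (D : ℕ) (hD : 121 ≤ D) :
    ∑ k ∈ (Icc 1 (D - 3)).filter (fun k => 3 * D < 4 * k), ((D : ℝ) - k) ≤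
      ((D : ℝ) - 1) * ((D : ℝ) + 3) / 32 := by
  have h1 : ∑ k ∈ (Icc 1 (D - 3)).filter (fun k => 3 * D < 4 * k), ((D : ℝ) - k) ≤
      ∑ e ∈ range ((D - 1) / 4 + 1), (e : ℝ) := by
    have hinj : Set.InjOn (fun k : ℕ => D - k)
        ((Icc 1 (D - 3)).filter (fun k => 3 * D < 4 * k) : Finset ℕ) := by
      intro a ha b hb hab
      simp only [coe_filter, mem_Icc, Set.mem_ofPred_eq] at ha hb
      simp only at hab
      omega
    have h2 : ∑ k ∈ (Icc 1 (D - 3)).filter (fun k => 3 * D < 4 * k), ((D : ℝ) - k) =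
        ∑ e ∈ ((Icc 1 (D - 3)).filter (fun k => 3 * D < 4 * k)).image (fun k : ℕ => D - k),
          (e : ℝ) := by
      rw [Finset.sum_image hinj]
      refine Finset.sum_congr rfl fun k hk => ?_
      simp only [mem_filter, mem_Icc] at hk
      rw [Nat.cast_sub (by omega)]
    rw [h2]
    refine Finset.sum_le_sum_of_subset_of_nonneg ?_ fun _ _ _ => Nat.cast_nonneg _
    intro e he
    simp only [mem_image, mem_filter, mem_Icc] at he
    obtain ⟨k, ⟨⟨hk1, hk2⟩, hk3⟩, rfl⟩ := he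
    simp only [mem_range]
    omega
  have h3 : ∀ m : ℕ, ∑ e ∈ range (m + 1), (e : ℝ) = (m : ℝ) * (m + 1) / 2 := by
    intro m
    induction m with
    | zero => simp
    | succ m ih => rw [Finset.sum_range_succ, ih]; push_cast; ring
  rw [h3] at h1
  have h4 : (((D - 1) / 4 : ℕ) : ℝ) ≤ ((D : ℝ) - 1) / 4 := by
    rw [le_div_iff₀ (by norm_num : (0:ℝ) < 4)]
    have h5 : (D - 1) / 4 * 4 + 1 ≤ D := by omega
    have h6 : ((((D - 1) / 4 * 4 + 1 : ℕ)) : ℝ) ≤ (D : ℝ) := by exact_mod_cast h5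
    push_cast at h6
    linarith
  have h7 : (0 : ℝ) ≤ (((D - 1) / 4 : ℕ) : ℝ) := Nat.cast_nonneg _
  have h8 : (((D - 1) / 4 : ℕ) : ℝ) * ((((D - 1) / 4 : ℕ) : ℝ) + 1) ≤
      ((D : ℝ) - 1) / 4 * (((D : ℝ) - 1) / 4 + 1) :=
    mul_le_mul h4 (by linarith) (by linarith) (by linarith)
  linarith [h1, h8]

private theorem N27_term (D k : ℕ) (hk : k + 3 ≤ D) :
    ((((D : ℝ) - k) / ((D : ℝ) - 1)) ^ 4 / 34 - (((D : ℝ) - (k + 1 : ℕ)) / ((D : ℝ) - 1)) ^ 4 / 34)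
      ≤ 4 * ((D : ℝ) - k) ^ 3 / (34 * ((D : ℝ) - 1) ^ 4) := by
  have hk' : (k : ℝ) + 3 ≤ (D : ℝ) := by exact_mod_cast hk
  have hk0 : (0 : ℝ) ≤ k := Nat.cast_nonneg k
  have hD1 : (0 : ℝ) < (D : ℝ) - 1 := by linarith
  rw [div_pow, div_pow, div_div, div_div, ← sub_div, mul_comm (((D : ℝ) - 1) ^ 4) 34]
  refine div_le_div_of_nonneg_right ?_ (by positivity)
  push_cast
  have he : ∀ d : ℝ, 0 ≤ d → (d + 1) ^ 4 - d ^ 4 ≤ 4 * (d + 1) ^ 3 := by
    intro d hd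
    nlinarith [mul_nonneg hd hd, mul_nonneg (mul_nonneg hd hd) hd]
  have := he ((D : ℝ) - (k + 1)) (by linarith)
  rw [show (D : ℝ) - (k + 1) + 1 = (D : ℝ) - k by ring] at this
  exact this

private theorem N27_nn (D k : ℕ) (hk : k + 3 ≤ D) :
    0 ≤ ((((D : ℝ) - k) / ((D : ℝ) - 1)) ^ 4 / 34 -
      (((D : ℝ) - (k + 1 : ℕ)) / ((D : ℝ) - 1)) ^ 4 / 34) := by
  have hk' : (k : ℝ) + 3 ≤ (D : ℝ) := by exact_mod_cast hk
  have hk0 : (0 : ℝ) ≤ k := Nat.cast_nonneg k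
  have hD1 : (0 : ℝ) < (D : ℝ) - 1 := by linarith
  rw [sub_nonneg]
  push_cast
  refine div_le_div_of_nonneg_right ?_ (by norm_num)
  refine pow_le_pow_left₀ (div_nonneg (by linarith) hD1.le) ?_ 4
  exact div_le_div_of_nonneg_right (by linarith) hD1.le

/-- tails: `d = D-1-k ≥ 2`, `4 d < D`, `ρ k = ((d+1)/(D-1))^4/34`; `(d+1)³/(d(d+2)) ≤ 9/8 (d+1)`. -/
theorem tail_sumH (D : ℕ) (hD : 121 ≤ D) :
    ∑ k ∈ (Icc 1 (D - 3)).filter (fun k => 3 * D < 4 * k),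
        723 / 1000 * (D : ℝ) ^ 2 / (((D : ℝ) - 1 - k) * ((D : ℝ) + 1 - k)) *
        ((((D : ℝ) - k) / ((D : ℝ) - 1)) ^ 4 / 34 -
          (((D : ℝ) - (k + 1 : ℕ)) / ((D : ℝ) - 1)) ^ 4 / 34) +
      723 / 1000 * (D : ℝ) ^ 2 / 8 * ((2 / ((D : ℝ) - 1)) ^ 4 / 34) ≤ 4 / 1000 := by
  have hD' : (121 : ℝ) ≤ (D : ℝ) := by exact_mod_cast hD
  have hD1 : (0 : ℝ) < (D : ℝ) - 1 := by linarith
  have hb : ∀ k ∈ (Icc 1 (D - 3)).filter (fun k => 3 * D < 4 * k),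
      723 / 1000 * (D : ℝ) ^ 2 / (((D : ℝ) - 1 - k) * ((D : ℝ) + 1 - k)) *
        ((((D : ℝ) - k) / ((D : ℝ) - 1)) ^ 4 / 34 -
          (((D : ℝ) - (k + 1 : ℕ)) / ((D : ℝ) - 1)) ^ 4 / 34) ≤
      (723 / 1000 * (D : ℝ) ^ 2 * (9 / 2) / (34 * ((D : ℝ) - 1) ^ 4)) * ((D : ℝ) - k) := by
    intro k hk
    simp only [mem_filter, mem_Icc] at hk
    have hk3 : k + 3 ≤ D := by omega
    have hk' : (k : ℝ) + 3 ≤ (D : ℝ) := by exact_mod_cast hk3
    have hp1 : (0 : ℝ) < (D : ℝ) - 1 - k := by linarith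
    have hp2 : (0 : ℝ) < (D : ℝ) + 1 - k := by linarith
    refine (mul_le_mul_of_nonneg_left (N27_term D k hk3) (by positivity)).trans ?_
    obtain ⟨A, hA⟩ : ∃ A : ℝ, A = 723 / 1000 * (D : ℝ) ^ 2 := ⟨_, rfl⟩
    have hA0 : 0 ≤ A := by rw [hA]; positivity
    rw [← hA, div_mul_div_comm, div_mul_eq_mul_div, div_le_div_iff₀ (by positivity) (by positivity)]
    have hs : ((D : ℝ) - k) ^ 2 * 8 ≤ 9 * (((D : ℝ) - 1 - k) * ((D : ℝ) + 1 - k)) := by
      nlinarith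
    have hs2 : 4 * ((D : ℝ) - k) ^ 3 ≤
        9 / 2 * ((D : ℝ) - k) * (((D : ℝ) - 1 - k) * ((D : ℝ) + 1 - k)) := by
      have : (0 : ℝ) ≤ (D : ℝ) - k := by linarith
      nlinarith [mul_le_mul_of_nonneg_left hs this]
    have hc : (0 : ℝ) ≤ A * (34 * ((D : ℝ) - 1) ^ 4) := by positivity
    nlinarith [mul_le_mul_of_nonneg_left hs2 hc]
  have h1 := (Finset.sum_le_sum hb)
  rw [← Finset.mul_sum] at h1
  have h2 := mul_le_mul_of_nonneg_left (N27_sum D hD)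
    (show (0 : ℝ) ≤ 723 / 1000 * (D : ℝ) ^ 2 * (9 / 2) / (34 * ((D : ℝ) - 1) ^ 4) by positivity)
  refine (add_le_add (h1.trans h2) le_rfl).trans ?_
  obtain ⟨t, ht⟩ : ∃ t : ℝ, t = (D : ℝ) - 1 := ⟨_, rfl⟩
  have hDt : (D : ℝ) = t + 1 := by linarith
  rw [hDt]
  have ht0 : (120 : ℝ) ≤ t := by linarith
  have htp : (0 : ℝ) < t := by linarith
  rw [show t + 1 - 1 = t by ring]
  have e1 : 723 / 1000 * (t + 1) ^ 2 * (9 / 2) / (34 * t ^ 4) * (t * (t + 1 + 3) / 32) +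
      723 / 1000 * (t + 1) ^ 2 / 8 * ((2 / t) ^ 4 / 34) =
      (723 / 1000 * (t + 1) ^ 2 * (9 / 2) * t * (t + 4) / 32 + 723 / 1000 * (t + 1) ^ 2 * 2) /
        (34 * t ^ 4) := by
    field_simp
    ring
  rw [e1, div_le_iff₀ (by positivity)]
  nlinarith [mul_nonneg (mul_nonneg (mul_nonneg htp.le htp.le) htp.le) (sub_nonneg.2 ht0),
    mul_nonneg (mul_nonneg htp.le htp.le) (sub_nonneg.2 ht0), mul_nonneg htp.le (sub_nonneg.2 ht0)]

theorem tail_sumH' (D : ℕ) (hD : 121 ≤ D) :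
    ∑ k ∈ (Icc 1 (D - 3)).filter (fun k => 3 * D < 4 * k),
        40 / 7 * (D : ℝ) ^ 2 / (((D : ℝ) - 1 - k) * ((D : ℝ) - k)) *
        ((((D : ℝ) - k) / ((D : ℝ) - 1)) ^ 4 / 34 -
          (((D : ℝ) - (k + 1 : ℕ)) / ((D : ℝ) - 1)) ^ 4 / 34) +
      40 / 7 * (D : ℝ) ^ 2 / 6 * ((2 / ((D : ℝ) - 1)) ^ 4 / 34) ≤ 40 / 1000 := by
  have hD' : (121 : ℝ) ≤ (D : ℝ) := by exact_mod_cast hD
  have hD1 : (0 : ℝ) < (D : ℝ) - 1 := by linarith
  have hb : ∀ k ∈ (Icc 1 (D - 3)).filter (fun k => 3 * D < 4 * k),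
      40 / 7 * (D : ℝ) ^ 2 / (((D : ℝ) - 1 - k) * ((D : ℝ) - k)) *
        ((((D : ℝ) - k) / ((D : ℝ) - 1)) ^ 4 / 34 -
          (((D : ℝ) - (k + 1 : ℕ)) / ((D : ℝ) - 1)) ^ 4 / 34) ≤
      (40 / 7 * (D : ℝ) ^ 2 * 6 / (34 * ((D : ℝ) - 1) ^ 4)) * ((D : ℝ) - k) := by
    intro k hk
    simp only [mem_filter, mem_Icc] at hk
    have hk3 : k + 3 ≤ D := by omega
    have hk' : (k : ℝ) + 3 ≤ (D : ℝ) := by exact_mod_cast hk3
    have hp1 : (0 : ℝ) < (D : ℝ) - 1 - k := by linarith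
    have hp2 : (0 : ℝ) < (D : ℝ) - k := by linarith
    refine (mul_le_mul_of_nonneg_left (N27_term D k hk3) (by positivity)).trans ?_
    obtain ⟨A, hA⟩ : ∃ A : ℝ, A = 40 / 7 * (D : ℝ) ^ 2 := ⟨_, rfl⟩
    have hA0 : 0 ≤ A := by rw [hA]; positivity
    rw [← hA, div_mul_div_comm, div_mul_eq_mul_div, div_le_div_iff₀ (by positivity) (by positivity)]
    have hs2 : 4 * ((D : ℝ) - k) ^ 3 ≤
        6 * ((D : ℝ) - k) * (((D : ℝ) - 1 - k) * ((D : ℝ) - k)) := by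
      nlinarith [mul_nonneg (mul_nonneg hp2.le hp2.le) (show (0:ℝ) ≤ (D : ℝ) - k - 3 by linarith)]
    have hc : (0 : ℝ) ≤ A * (34 * ((D : ℝ) - 1) ^ 4) := by positivity
    nlinarith [mul_le_mul_of_nonneg_left hs2 hc]
  have h1 := (Finset.sum_le_sum hb)
  rw [← Finset.mul_sum] at h1
  have h2 := mul_le_mul_of_nonneg_left (N27_sum D hD)
    (show (0 : ℝ) ≤ 40 / 7 * (D : ℝ) ^ 2 * 6 / (34 * ((D : ℝ) - 1) ^ 4) by positivity)
  refine (add_le_add (h1.trans h2) le_rfl).trans ?_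
  obtain ⟨t, ht⟩ : ∃ t : ℝ, t = (D : ℝ) - 1 := ⟨_, rfl⟩
  have hDt : (D : ℝ) = t + 1 := by linarith
  rw [hDt]
  have ht0 : (120 : ℝ) ≤ t := by linarith
  have htp : (0 : ℝ) < t := by linarith
  rw [show t + 1 - 1 = t by ring]
  have e1 : 40 / 7 * (t + 1) ^ 2 * 6 / (34 * t ^ 4) * (t * (t + 1 + 3) / 32) +
      40 / 7 * (t + 1) ^ 2 / 6 * ((2 / t) ^ 4 / 34) =
      (40 / 7 * (t + 1) ^ 2 * 6 * t * (t + 4) / 32 + 40 / 7 * (t + 1) ^ 2 * (16 / 6)) /
        (34 * t ^ 4) := by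
    field_simp
    ring
  rw [e1, div_le_iff₀ (by positivity)]
  nlinarith [mul_nonneg (mul_nonneg (mul_nonneg htp.le htp.le) htp.le) (sub_nonneg.2 ht0),
    mul_nonneg (mul_nonneg htp.le htp.le) (sub_nonneg.2 ht0), mul_nonneg htp.le (sub_nonneg.2 ht0)]

/-- the common part of the two bounds -/
private theorem N27_main (D x J par : ℕ) (hD : 121 ≤ D) (hp : par ≤ 1) (P : ℕ → ℝ)
    (hP : ∀ c < 36, ∀ k ≤ D - 3, 48 * k ≤ (c + 1) * D → phH D x J par k ≤ P c) :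
    ∑ k ∈ Icc 1 (D - 3), (phH D x J par k - phH D x J par (k - 1)) *
        Rd (D - 1 - k) (D - 1 + k + par) ≤
      ∑ c ∈ range 35, P c * ((rcQ c : ℝ) - (rcQ (c + 1) : ℝ)) + P 35 * (rcQ 35 : ℝ) +
      ∑ k ∈ (Icc 1 (D - 3)).filter (fun k => 3 * D < 4 * k), phH D x J par k *
        ((((D : ℝ) - k) / ((D : ℝ) - 1)) ^ 4 / 34 -
          (((D : ℝ) - (k + 1 : ℕ)) / ((D : ℝ) - 1)) ^ 4 / 34) +
      phH D x J par (D - 3) * ((2 / ((D : ℝ) - 1)) ^ 4 / 34) := by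
  have hD' : (121 : ℝ) ≤ (D : ℝ) := by exact_mod_cast hD
  have hD1 : (0 : ℝ) < (D : ℝ) - 1 := by linarith
  have h0 := phH_zero D x J par (by omega) hp
  have hmono : ∀ k < D - 3, phH D x J par k ≤ phH D x J par (k + 1) := fun k hk =>
    phH_mono D x J par k hp (by omega)
  have hle : ∑ k ∈ Icc 1 (D - 3), (phH D x J par k - phH D x J par (k - 1)) *
        Rd (D - 1 - k) (D - 1 + k + par) ≤
      ∑ k ∈ Icc 1 (D - 3), (phH D x J par k - phH D x J par (k - 1)) *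
        Rd (D - 1 - k) (D - 1 + k) := by
    refine Finset.sum_le_sum fun k hk => ?_
    rw [mem_Icc] at hk
    refine mul_le_mul_of_nonneg_left (Rd_anti _ _ _ (by omega)) ?_
    have := hmono (k - 1) (by omega)
    rw [show k - 1 + 1 = k by omega] at this
    linarith
  refine hle.trans ?_
  have hc := cell_sum D (D - 3) (by omega) (phH D x J par) (fun k => Rd (D - 1 - k) (D - 1 + k))
    (fun k => (((D : ℝ) - k) / ((D : ℝ) - 1)) ^ 4 / 34) P (fun c => (rcQ c : ℝ)) h0 hmono hP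
    (by
      intro c hc k hk1 hk2 hk
      refine Rd_cell (D - 1) k c (by omega) (by omega) (by omega) ?_
      have : c * (D - 1) ≤ c * D := Nat.mul_le_mul_left _ (by omega)
      omega)
    (by
      intro c hc
      show ((rcQ (c + 1) : ℚ) : ℝ) ≤ ((rcQ c : ℚ) : ℝ)
      exact_mod_cast rcQ_anti c hc)
    (by
      show (0 : ℝ) ≤ ((rcQ 35 : ℚ) : ℝ)
      exact_mod_cast rcQ_nonneg)
    (by
      intro k hk1 hk2 hk
      have h := Rd_tail (D - 1) k (by omega) (by omega) (by omega)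
      rw [Nat.cast_sub (by omega : 1 ≤ D)] at h
      push_cast at h
      show Rd (D - 1 - k) (D - 1 + k) ≤ (((D : ℝ) - k) / ((D : ℝ) - 1)) ^ 4 / 34
      rw [show (D : ℝ) - 1 - k + 1 = (D : ℝ) - k by ring] at h
      exact h)
    (by
      intro k hk
      have h := N27_nn D k (by omega)
      show (((D : ℝ) - ((k + 1 : ℕ) : ℝ)) / ((D : ℝ) - 1)) ^ 4 / 34 ≤
        (((D : ℝ) - k) / ((D : ℝ) - 1)) ^ 4 / 34
      linarith)
    (by positivity)
  have e : ((D : ℝ) - ((D - 3 + 1 : ℕ) : ℝ)) = 2 := by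
    rw [show D - 3 + 1 = D - 2 by omega, Nat.cast_sub (by omega)]
    push_cast
    ring
  simp only [e] at hc
  exact hc

/-- `Hp_split`, `cell_sum` for `R_k = Rd (D-1-k) (D-1+k+par) ≤ Rd ((D-1)-k) ((D-1)+k)`
(`Rd_anti`), `Rd_cell`, `Rd_tail` for `D - 1`. -/
theorem Hp_sup (D x J par : ℕ) (hD : 121 ≤ D) (hp : par ≤ 1) :
    Hp D 0 x J (2 * D - 2 + 0 + x + J + par) par ≤ 194 / 1000 := by
  have hD' : (121 : ℝ) ≤ (D : ℝ) := by exact_mod_cast hD
  have hD1 : (0 : ℝ) < (D : ℝ) - 1 := by linarith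
  rw [Hp_split D x J par (by omega) hp]
  have h1 := HpB_le D x J par hD hp
  have h2 := N27_main D x J par hD hp (fun c => ((PHs c : ℚ) : ℝ)) (by
    intro c hc k hk hck
    have hκ : (k : ℝ) ≤ (((((c : ℚ) + 1) / 48 : ℚ)) : ℝ) * D := by
      have : (48 : ℝ) * k ≤ (c + 1) * D := by exact_mod_cast hck
      push_cast
      linarith
    exact phH_sup D x J par k hD hp (by omega) (((c : ℚ) + 1) / 48) (by positivity)
      (by
        have : (c : ℚ) + 1 ≤ 36 := by exact_mod_cast hc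
        linarith) hκ)
  have h3 : ∑ c ∈ range 35, ((PHs c : ℚ) : ℝ) * ((rcQ c : ℝ) - (rcQ (c + 1) : ℝ)) +
      ((PHs 35 : ℚ) : ℝ) * (rcQ 35 : ℝ) ≤ 1887 / 10000 := by
    have := PHs_sum
    have h : (((∑ c ∈ range 35, PHs c * (rcQ c - rcQ (c + 1)) + PHs 35 * rcQ 35 : ℚ)) : ℝ) ≤
        ((1887 / 10000 : ℚ) : ℝ) := by exact_mod_cast this
    push_cast at h
    exact h
  have h4 : ∑ k ∈ (Icc 1 (D - 3)).filter (fun k => 3 * D < 4 * k), phH D x J par k *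
        ((((D : ℝ) - k) / ((D : ℝ) - 1)) ^ 4 / 34 -
          (((D : ℝ) - (k + 1 : ℕ)) / ((D : ℝ) - 1)) ^ 4 / 34) ≤
      ∑ k ∈ (Icc 1 (D - 3)).filter (fun k => 3 * D < 4 * k),
        723 / 1000 * (D : ℝ) ^ 2 / (((D : ℝ) - 1 - k) * ((D : ℝ) + 1 - k)) *
        ((((D : ℝ) - k) / ((D : ℝ) - 1)) ^ 4 / 34 -
          (((D : ℝ) - (k + 1 : ℕ)) / ((D : ℝ) - 1)) ^ 4 / 34) := by
    refine Finset.sum_le_sum fun k hk => ?_
    simp only [mem_filter, mem_Icc] at hk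
    exact mul_le_mul_of_nonneg_right (phH_sup_tail D x J par k hD hp (by omega) hk.2)
      (N27_nn D k (by omega))
  have h5 : phH D x J par (D - 3) * ((2 / ((D : ℝ) - 1)) ^ 4 / 34) ≤
      723 / 1000 * (D : ℝ) ^ 2 / 8 * ((2 / ((D : ℝ) - 1)) ^ 4 / 34) := by
    refine mul_le_mul_of_nonneg_right ?_ (by positivity)
    have h := phH_sup_tail D x J par (D - 3) hD hp (by omega) (by omega)
    have e : ((D - 3 : ℕ) : ℝ) = (D : ℝ) - 3 := by
      rw [Nat.cast_sub (by omega)]; norm_num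
    rw [e, show ((D : ℝ) - 1 - ((D : ℝ) - 3)) * ((D : ℝ) + 1 - ((D : ℝ) - 3)) = 8 by ring] at h
    exact h
  have h6 := tail_sumH D hD
  linarith

theorem Hp_pre (D x J par : ℕ) (hD : 121 ≤ D) (hp : par ≤ 1) :
    Hp D 0 x J (2 * D - 2 + 0 + x + J + par) par ≤
      1152 / 1000 * (2 * ((x : ℝ) + J + 1) * D / (2 * (D : ℝ) - 3 + x + J) ^ 2) + 13 / 10000 := by
  have hD' : (121 : ℝ) ≤ (D : ℝ) := by exact_mod_cast hD
  have hD1 : (0 : ℝ) < (D : ℝ) - 1 := by linarith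
  rw [Hp_split D x J par (by omega) hp]
  have h1 := HpB_le D x J par hD hp
  obtain ⟨C, hC⟩ : ∃ C : ℝ, C = 2 * ((x : ℝ) + J + 1) * D / (2 * (D : ℝ) - 3 + x + J) ^ 2 :=
    ⟨_, rfl⟩
  have hC0 : 0 ≤ C := by rw [hC]; positivity
  have h2 := N27_main D x J par hD hp (fun c => C * ((PHb c : ℚ) : ℝ)) (by
    intro c hc k hk hck
    have hκ : (k : ℝ) ≤ (((((c : ℚ) + 1) / 48 : ℚ)) : ℝ) * D := by
      have : (48 : ℝ) * k ≤ (c + 1) * D := by exact_mod_cast hck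
      push_cast
      linarith
    have h := phH_pre D x J par k hD hp (by omega) (((c : ℚ) + 1) / 48) (by positivity)
      (by
        have : (c : ℚ) + 1 ≤ 36 := by exact_mod_cast hc
        linarith) hκ
    rw [← hC] at h
    exact h)
  have h3 : ∑ c ∈ range 35, (C * ((PHb c : ℚ) : ℝ)) * ((rcQ c : ℝ) - (rcQ (c + 1) : ℝ)) +
      (C * ((PHb 35 : ℚ) : ℝ)) * (rcQ 35 : ℝ) ≤ C * (1112 / 1000) := by
    have := PHb_sum
    have h : (((∑ c ∈ range 35, PHb c * (rcQ c - rcQ (c + 1)) + PHb 35 * rcQ 35 : ℚ)) : ℝ) ≤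
        ((1112 / 1000 : ℚ) : ℝ) := by exact_mod_cast this
    push_cast at h
    have h' := mul_le_mul_of_nonneg_left h hC0
    rw [mul_add, Finset.mul_sum] at h'
    simp only [mul_assoc]
    exact h'
  have h4 : ∑ k ∈ (Icc 1 (D - 3)).filter (fun k => 3 * D < 4 * k), phH D x J par k *
        ((((D : ℝ) - k) / ((D : ℝ) - 1)) ^ 4 / 34 -
          (((D : ℝ) - (k + 1 : ℕ)) / ((D : ℝ) - 1)) ^ 4 / 34) ≤
      C * ∑ k ∈ (Icc 1 (D - 3)).filter (fun k => 3 * D < 4 * k),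
        40 / 7 * (D : ℝ) ^ 2 / (((D : ℝ) - 1 - k) * ((D : ℝ) - k)) *
        ((((D : ℝ) - k) / ((D : ℝ) - 1)) ^ 4 / 34 -
          (((D : ℝ) - (k + 1 : ℕ)) / ((D : ℝ) - 1)) ^ 4 / 34) := by
    rw [Finset.mul_sum]
    refine Finset.sum_le_sum fun k hk => ?_
    simp only [mem_filter, mem_Icc] at hk
    rw [← mul_assoc]
    refine mul_le_mul_of_nonneg_right ?_ (N27_nn D k (by omega))
    have h := phH_pre_tail D x J par k hD hp (by omega) hk.2
    rw [← hC] at h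
    exact h
  have h5 : phH D x J par (D - 3) * ((2 / ((D : ℝ) - 1)) ^ 4 / 34) ≤
      C * (40 / 7 * (D : ℝ) ^ 2 / 6 * ((2 / ((D : ℝ) - 1)) ^ 4 / 34)) := by
    rw [← mul_assoc]
    refine mul_le_mul_of_nonneg_right ?_ (by positivity)
    have h := phH_pre_tail D x J par (D - 3) hD hp (by omega) (by omega)
    have e : ((D - 3 : ℕ) : ℝ) = (D : ℝ) - 3 := by
      rw [Nat.cast_sub (by omega)]; norm_num
    rw [← hC, e, show ((D : ℝ) - 1 - ((D : ℝ) - 3)) * ((D : ℝ) - ((D : ℝ) - 3)) = 6 by ring] at h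
    exact h
  have h6 := mul_le_mul_of_nonneg_left (tail_sumH' D hD) hC0
  rw [mul_add] at h6
  rw [← hC]
  have h7 : (0 : ℝ) ≤ C := hC0
  linarith

end Pool.ADM
end

section

/-! job ADN-28: `Δ ≥ 125`, `w = 0`. -/

set_option autoImplicit false

namespace Pool.ADM

open Finset

private theorem N28_fi0 (j : ℕ) : 0 ≤ fi j := by unfold fi; positivity

private theorem N28_LT (D j : ℕ) (hD : 121 ≤ D) (hj : 2 ≤ j) :
    LT D 0 j ≤ ((j : ℝ) - 2 + 1 / 61) * fi j := by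
  have hD' : (121 : ℝ) ≤ D := by exact_mod_cast hD
  have hj' : (2 : ℝ) ≤ j := by exact_mod_cast hj
  have hf := N28_fi0 j
  unfold LT
  push_cast
  rw [div_le_iff₀ (by linarith)]
  have h : (D : ℝ) * ((j : ℝ) - 2) + 2 ≤ ((j : ℝ) - 2 + 1 / 61) * ((D : ℝ) + 1 + 0) := by
    nlinarith
  nlinarith [mul_le_mul_of_nonneg_right h hf]

private theorem N28_LE (Δ D x j : ℕ) (u : ℝ) (hD : 121 ≤ D) (hDΔ : D ≤ Δ) (hj : 2 ≤ j)
    (hu : u = (Δ : ℝ) / (2 * Δ + x)) :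
    LE D 0 x j ≤ if j = 2 then 0 else fi (j - 1) * (((j : ℝ) - 3) / 2 * u + 1 / 161) := by
  have hD' : (121 : ℝ) ≤ D := by exact_mod_cast hD
  have hDΔ' : (D : ℝ) ≤ Δ := by exact_mod_cast hDΔ
  have hx : (0 : ℝ) ≤ x := Nat.cast_nonneg x
  have hf := N28_fi0 (j - 1)
  unfold LE
  by_cases h2 : j = 2
  · rw [if_pos (by omega), if_pos h2]
  · rw [if_neg (by omega), if_neg h2]
    have hj' : (3 : ℝ) ≤ j := by exact_mod_cast (by omega : 3 ≤ j)
    push_cast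
    have hDx : 0 < 2 * (D : ℝ) + x := by linarith
    have hΔx : 0 < 2 * (Δ : ℝ) + x := by linarith
    have h1 : (D : ℝ) / (2 * D + x) ≤ u := by
      rw [hu, div_le_div_iff₀ hDx hΔx]
      nlinarith
    have h3 : 1 / (2 * (D : ℝ) + x) ≤ 1 / 242 := one_div_le_one_div_of_le (by norm_num) (by linarith)
    have h4 : (((j : ℝ) - 3) * D + j) * ((D : ℝ) - 2) / 2 + ((j : ℝ) - 2) ≤
        (((j : ℝ) - 3) * D / 2 + 3 / 2) * ((D : ℝ) + 1 + 0) := by nlinarith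
    calc fi (j - 1) * ((((j : ℝ) - 3) * D + j) * ((D : ℝ) - 2) / 2 + ((j : ℝ) - 2)) /
          ((2 * (D : ℝ) + 0 + x) * ((D : ℝ) + 1 + 0))
        ≤ fi (j - 1) * ((((j : ℝ) - 3) * D / 2 + 3 / 2) * ((D : ℝ) + 1 + 0)) /
          ((2 * (D : ℝ) + 0 + x) * ((D : ℝ) + 1 + 0)) := by
          apply div_le_div_of_nonneg_right (mul_le_mul_of_nonneg_left h4 hf)
          positivity
      _ = fi (j - 1) * (((j : ℝ) - 3) / 2 * ((D : ℝ) / (2 * D + x)) +
            3 / 2 * (1 / (2 * (D : ℝ) + x))) := by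
          have : (D : ℝ) + 1 + 0 ≠ 0 := by linarith
          have : 2 * (D : ℝ) + 0 + x ≠ 0 := by linarith
          field_simp
          ring
      _ ≤ fi (j - 1) * (((j : ℝ) - 3) / 2 * u + 1 / 161) := by
          apply mul_le_mul_of_nonneg_left _ hf
          have := mul_le_mul_of_nonneg_left h1 (by linarith : (0 : ℝ) ≤ ((j : ℝ) - 3) / 2)
          linarith

private theorem N28_M (Δ D x : ℕ) (u : ℝ) (hD : 121 ≤ D) (hDΔ : D ≤ Δ)
    (hu : u = (Δ : ℝ) / (2 * Δ + x)) :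
    (2 * (D : ℝ) / (2 * (D : ℝ) - 1 + x)) ^ 2 ≤ 4034 / 1000 * u ^ 2 := by
  have hD' : (121 : ℝ) ≤ D := by exact_mod_cast hD
  have hDΔ' : (D : ℝ) ≤ Δ := by exact_mod_cast hDΔ
  have hx : (0 : ℝ) ≤ x := Nat.cast_nonneg x
  have hDx : 0 < 2 * (D : ℝ) - 1 + x := by linarith
  have hΔx : 0 < 2 * (Δ : ℝ) + x := by linarith
  have hΔ0 : 0 < (Δ : ℝ) := by linarith
  have hu0 : 0 < u := by rw [hu]; positivity
  have h1 : 2 * (D : ℝ) / (2 * (D : ℝ) - 1 + x) ≤ 200848 / 100000 * u := by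
    rw [hu, ← mul_div_assoc, div_le_div_iff₀ hDx hΔx]
    nlinarith [mul_nonneg hx (by linarith : (0 : ℝ) ≤ (Δ : ℝ) - D),
      mul_nonneg hx (by linarith : (0 : ℝ) ≤ (Δ : ℝ)),
      mul_nonneg (by linarith : (0 : ℝ) ≤ (Δ : ℝ)) (by linarith : (0 : ℝ) ≤ (D : ℝ) - 121)]
  have h0 : 0 ≤ 2 * (D : ℝ) / (2 * (D : ℝ) - 1 + x) := by positivity
  calc (2 * (D : ℝ) / (2 * (D : ℝ) - 1 + x)) ^ 2 ≤ (200848 / 100000 * u) ^ 2 :=
        pow_le_pow_left₀ h0 h1 2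
    _ ≤ 4034 / 1000 * u ^ 2 := by nlinarith [sq_nonneg u]

private theorem N28_Lo (Δ D x j : ℕ) (u : ℝ) (hD : 121 ≤ D) (hDΔ : D ≤ Δ) (hj : 2 ≤ j)
    (hj' : j ≤ 9) (hu : u = (Δ : ℝ) / (2 * Δ + x)) :
    Lo D 0 x j ≤ ((j : ℝ) - 2 + 1 / 61) * fi j +
      (if j = 2 then 0 else fi (j - 1) * (((j : ℝ) - 3) / 2 * u + 1 / 161)) +
      (4034 / 1000 * u ^ 2 * ((aQ j : ℚ) : ℝ) + ((bQ j : ℚ) : ℝ)) + Hc D 0 x j := by
  have h1 := N28_LT D j hD hj
  have h2 := N28_LE Δ D x j u hD hDΔ hj hu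
  have h3 := Dc_num D x j (by omega) hj hj'
  have h4 := N28_M Δ D x u hD hDΔ hu
  have h5 : (0 : ℝ) ≤ ((aQ j : ℚ) : ℝ) := by
    have : (0 : ℚ) ≤ aQ j := by
      unfold aQ
      split_ifs <;> norm_num
    exact_mod_cast this
  have h6 := mul_le_mul_of_nonneg_right h4 h5
  unfold Lo
  linarith

private theorem N28_tail (j0 n : ℕ) (hn : 5 ≤ n) :
    ∑ i ∈ Icc 5 n, 200 * fi (j0 + 2 * i - 2) ≤ 51 / 10000 := by
  have key : ∀ n, 5 ≤ n → ∑ i ∈ Icc 5 n, fi (2 * i - 2) + 1 / 89 * fi (2 * n - 2) ≤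
      90 / 89 / 40320 := by
    intro n hn
    induction n, hn using Nat.le_induction with
    | base => norm_num [fi, Nat.factorial]
    | succ n hn ih =>
      rw [Finset.sum_Icc_succ_top (by omega)]
      have e1 : 2 * (n + 1) - 2 = (2 * n - 2) + 1 + 1 := by omega
      have h1 : 90 * fi (2 * (n + 1) - 2) ≤ fi (2 * n - 2) := by
        rw [e1]
        unfold fi
        rw [Nat.factorial_succ, Nat.factorial_succ]
        have hf : (0 : ℝ) < ((2 * n - 2).factorial : ℝ) := by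
          exact_mod_cast Nat.factorial_pos _
        have h8 : (8 : ℝ) ≤ ((2 * n - 2 : ℕ) : ℝ) := by exact_mod_cast (by omega : 8 ≤ 2 * n - 2)
        push_cast
        obtain ⟨z, hz⟩ : ∃ z : ℝ, z = ((2 * n - 2 : ℕ) : ℝ) := ⟨_, rfl⟩
        rw [← hz] at h8 ⊢
        rw [mul_one_div, div_le_div_iff₀ (by positivity) hf]
        have h9 : 90 ≤ (z + 1 + 1) * (z + 1) := by nlinarith
        nlinarith [mul_le_mul_of_nonneg_right h9 hf.le]
      linarith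
  have hf : ∀ i ∈ Icc 5 n, 200 * fi (j0 + 2 * i - 2) ≤ 200 * fi (2 * i - 2) := by
    intro i hi
    rw [Finset.mem_Icc] at hi
    apply mul_le_mul_of_nonneg_left _ (by norm_num)
    unfold fi
    apply one_div_le_one_div_of_le (by exact_mod_cast Nat.factorial_pos _)
    exact_mod_cast Nat.factorial_le (by omega)
  have h1 := Finset.sum_le_sum hf
  rw [← Finset.mul_sum] at h1
  have h2 := key n hn
  have h3 := N28_fi0 (2 * n - 2)
  rw [← Finset.mul_sum] at h1 ⊢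
  linarith

private theorem N28_split (n : ℕ) (hn : 5 ≤ n) (f : ℕ → ℝ) :
    ∑ i ∈ Icc 1 n, f i = f 1 + f 2 + f 3 + f 4 + ∑ i ∈ Icc 5 n, f i := by
  have h1 : Icc 1 n = Ioc 0 n := by ext i; simp [Nat.succ_le_iff]
  have h2 : Icc 5 n = Ioc 4 n := by ext i; simp [Nat.succ_le_iff]
  have h3 : Ioc 0 4 = {1, 2, 3, 4} := by decide
  rw [h1, h2, ← Finset.sum_Ioc_consecutive f (Nat.zero_le 4) (by omega : 4 ≤ n), h3]
  congr 1
  rw [Finset.sum_insert (by decide), Finset.sum_insert (by decide), Finset.sum_insert (by decide),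
    Finset.sum_singleton]
  ring

private theorem N28_Ft (Δ x j0 : ℕ) (hΔ : 125 ≤ Δ) :
    Am Δ 0 x j0 - Hc Δ 0 x j0 - (Lo (Δ - 1) 0 x (j0 + 2) + Lo (Δ - 2) 0 x (j0 + 4) +
      Lo (Δ - 3) 0 x (j0 + 6) + Lo (Δ - 4) 0 x (j0 + 8)) - 51 / 10000 ≤ Ft Δ 0 x j0 (Δ - 2) := by
  unfold Ft
  rw [N28_split (Δ - 2) (by omega)]
  have h1 : ∑ i ∈ Icc 5 (Δ - 2), Lo (Δ - i) 0 x (j0 + 2 * i) ≤
      ∑ i ∈ Icc 5 (Δ - 2), 200 * fi (j0 + 2 * i - 2) := by
    apply Finset.sum_le_sum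
    intro i hi
    rw [Finset.mem_Icc] at hi
    exact Lo_univ (Δ - i) x (j0 + 2 * i) (by omega) (by omega)
  have h2 := N28_tail j0 (Δ - 2) (by omega)
  have e1 : j0 + 2 * 1 = j0 + 2 := rfl
  have e2 : j0 + 2 * 2 = j0 + 4 := rfl
  have e3 : j0 + 2 * 3 = j0 + 6 := rfl
  have e4 : j0 + 2 * 4 = j0 + 8 := rfl
  rw [e1, e2, e3, e4]
  linarith

private theorem N28_HcA (D x j : ℕ) (hD : 121 ≤ D) :
    Hc D 0 x j ≤ (fi j + if j = 0 then 0 else fi (j - 1)) * (194 / 1000) := by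
  unfold Hc
  have h1 := mul_le_mul_of_nonneg_left (Hp_sup D x j 0 hD (by omega)) (N28_fi0 j)
  rw [Nat.add_zero] at h1
  split_ifs with h
  · linarith
  · have h2 := mul_le_mul_of_nonneg_left (Hp_sup D x (j - 1) 1 hD le_rfl) (N28_fi0 (j - 1))
    have e : 2 * D - 2 + 0 + x + (j - 1) + 1 = 2 * D - 2 + 0 + x + j := by omega
    rw [e] at h2
    linarith

private theorem N28_HpB (Δ D x J par : ℕ) (u : ℝ) (hΔ : 125 ≤ Δ) (hD : 121 ≤ D) (hDΔ : D ≤ Δ)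
    (hp : par ≤ 1) (hJ : 2 * Δ ≤ 2 * D + J) (hu : u = (Δ : ℝ) / (2 * Δ + x)) :
    Hp D 0 x J (2 * D - 2 + 0 + x + J + par) par ≤
      23604 / 10000 * (u - 2 * u ^ 2) + 13 / 10000 + 473 / 100000 * ((J : ℝ) + 1) := by
  have hΔ' : (125 : ℝ) ≤ Δ := by exact_mod_cast hΔ
  have hD' : (121 : ℝ) ≤ D := by exact_mod_cast hD
  have hDΔ' : (D : ℝ) ≤ Δ := by exact_mod_cast hDΔ
  have hJ' : 2 * (Δ : ℝ) ≤ 2 * D + J := by exact_mod_cast hJ
  have hx : (0 : ℝ) ≤ x := Nat.cast_nonneg x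
  have hJ0 : (0 : ℝ) ≤ J := Nat.cast_nonneg J
  have h := Hp_pre D x J par hD hp
  obtain ⟨y, hy⟩ : ∃ y : ℝ, y = 2 * Δ + x := ⟨_, rfl⟩
  have hy0 : 250 ≤ y := by linarith
  have hz : 247 / 250 * y ≤ 2 * (D : ℝ) - 3 + x + J := by linarith
  have hz2 : (247 / 250 * y) ^ 2 ≤ (2 * (D : ℝ) - 3 + x + J) ^ 2 :=
    pow_le_pow_left₀ (by positivity) hz 2
  have h1 : 2 * ((x : ℝ) + J + 1) * D / (2 * (D : ℝ) - 3 + x + J) ^ 2 ≤
      2 * ((x : ℝ) + J + 1) * Δ / (247 / 250 * y) ^ 2 := by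
    have hy1 : 0 < (247 / 250 * y) ^ 2 := by positivity
    have hnn : 0 ≤ 2 * ((x : ℝ) + J + 1) := by positivity
    exact div_le_div₀ (by positivity) (mul_le_mul_of_nonneg_left hDΔ' hnn) hy1 hz2
  have h2 : 2 * ((x : ℝ) + J + 1) * Δ / (247 / 250 * y) ^ 2 =
      2 * (250 / 247) ^ 2 * ((u - 2 * u ^ 2) + ((J : ℝ) + 1) * (u ^ 2 / Δ)) := by
    rw [hu, ← hy]
    have hx' : (x : ℝ) = y - 2 * Δ := by rw [hy]; ring
    rw [hx']
    have : y ≠ 0 := by linarith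
    have : (Δ : ℝ) ≠ 0 := by linarith
    field_simp
    ring
  have hu2 : u ≤ 1 / 2 := by
    rw [hu, div_le_div_iff₀ (by linarith) (by norm_num)]
    linarith
  have hu0 : 0 ≤ u := by rw [hu]; positivity
  have h3 : u ^ 2 / Δ ≤ 1 / 500 := by
    rw [div_le_div_iff₀ (by linarith) (by norm_num)]
    nlinarith
  have h4 := mul_le_mul_of_nonneg_left h3 (by linarith : (0 : ℝ) ≤ (J : ℝ) + 1)
  have h5 : 0 ≤ u - 2 * u ^ 2 := by nlinarith
  rw [h2] at h1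
  nlinarith

private theorem N28_HcB (Δ D x j : ℕ) (u : ℝ) (hΔ : 125 ≤ Δ) (hD : 121 ≤ D) (hDΔ : D ≤ Δ)
    (hj : 1 ≤ j) (hJ : 2 * Δ ≤ 2 * D + (j - 1)) (hu : u = (Δ : ℝ) / (2 * Δ + x)) :
    Hc D 0 x j ≤ fi j * (23604 / 10000 * (u - 2 * u ^ 2) + 13 / 10000 +
        473 / 100000 * ((j : ℝ) + 1)) +
      fi (j - 1) * (23604 / 10000 * (u - 2 * u ^ 2) + 13 / 10000 + 473 / 100000 * (j : ℝ)) := by
  unfold Hc
  rw [if_neg (by omega)]
  have h1 := mul_le_mul_of_nonneg_left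
    (N28_HpB Δ D x j 0 u hΔ hD hDΔ (by omega) (by omega) hu) (N28_fi0 j)
  rw [Nat.add_zero] at h1
  have h2 := mul_le_mul_of_nonneg_left
    (N28_HpB Δ D x (j - 1) 1 u hΔ hD hDΔ le_rfl hJ hu) (N28_fi0 (j - 1))
  have e : 2 * D - 2 + 0 + x + (j - 1) + 1 = 2 * D - 2 + 0 + x + j := by omega
  have e' : ((j - 1 : ℕ) : ℝ) + 1 = j := by
    rw [Nat.cast_sub hj]; push_cast; ring
  rw [e, e'] at h2
  linarith

/-- Losses `i = 1, …, 4` (`D = Δ - i ≥ 121`, `j ≤ 9`): `Dc_num`, `Hp_sup` (for `x` large) or `Hp_pre`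
(for `x` small, for example `x ≤ Δ/2`), `Lo_univ` for `i ≥ 5`:
`∑_{i ≥ 5} 200 fi (j0+2i-2) ≤ 51/10000`.  With `ξ = x/Δ`, `u = 1/(2+ξ)`: main term
`≥ 1 - 3/126 + (1-1/36) u` (`j0 = 1`), `(2D/(2D-1+x))² ≤ 1.0085 * 4u²`; the coefficients of `Hp` sum
to at most `2.7184`.  The total is at least `.12` (`j0 = 1`, minimum near `x = Δ/2`), `.6`
(`j0 = 0`). -/
theorem Ft_large (Δ x j0 : ℕ) (hΔ : 125 ≤ Δ) (hj : j0 ≤ 1) : 1 / 1000 ≤ Ft Δ 0 x j0 (Δ - 2) := by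
  have hΔ' : (125 : ℝ) ≤ Δ := by exact_mod_cast hΔ
  have hx : (0 : ℝ) ≤ x := Nat.cast_nonneg x
  obtain ⟨u, hu⟩ : ∃ u : ℝ, u = (Δ : ℝ) / (2 * Δ + x) := ⟨_, rfl⟩
  have hu2 : u ≤ 1 / 2 := by
    rw [hu, div_le_div_iff₀ (by linarith) (by norm_num)]
    linarith
  have hu0 : 0 ≤ u := by rw [hu]; positivity
  refine le_trans ?_ (N28_Ft Δ x j0 hΔ)
  rcases Nat.eq_zero_or_pos j0 with rfl | hpos
  · simp only [Nat.zero_add]
    have L2 := N28_Lo Δ (Δ - 1) x 2 u (by omega) (by omega) le_rfl (by omega) hu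
    have L4 := N28_Lo Δ (Δ - 2) x 4 u (by omega) (by omega) (by omega) (by omega) hu
    have L6 := N28_Lo Δ (Δ - 3) x 6 u (by omega) (by omega) (by omega) (by omega) hu
    have L8 := N28_Lo Δ (Δ - 4) x 8 u (by omega) (by omega) (by omega) (by omega) hu
    have H0 := N28_HcA Δ x 0 (by omega)
    have H2 := N28_HcA (Δ - 1) x 2 (by omega)
    have H4 := N28_HcA (Δ - 2) x 4 (by omega)
    have H6 := N28_HcA (Δ - 3) x 6 (by omega)
    have H8 := N28_HcA (Δ - 4) x 8 (by omega)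
    have hA : 248 / 126 ≤ Am Δ 0 x 0 := by
      unfold Am
      rw [if_pos rfl]
      push_cast
      rw [div_le_div_iff₀ (by norm_num) (by linarith)]
      linarith
    norm_num [aQ, bQ, fi, Nat.factorial] at L2 L4 L6 L8 H0 H2 H4 H6 H8
    nlinarith
  · have h1 : j0 = 1 := by omega
    subst h1
    have L2 := N28_Lo Δ (Δ - 1) x 3 u (by omega) (by omega) (by omega) (by omega) hu
    have L4 := N28_Lo Δ (Δ - 2) x 5 u (by omega) (by omega) (by omega) (by omega) hu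
    have L6 := N28_Lo Δ (Δ - 3) x 7 u (by omega) (by omega) (by omega) (by omega) hu
    have L8 := N28_Lo Δ (Δ - 4) x 9 u (by omega) (by omega) (by omega) (by omega) hu
    have hA : 123 / 126 + 35 / 36 * u ≤ Am Δ 0 x 1 := by
      unfold Am
      rw [if_neg (by norm_num)]
      push_cast
      have hW : 0 < (Δ : ℝ) + 1 := by linarith
      have hΔx : 0 < 2 * (Δ : ℝ) + x := by linarith
      have e1 : (((Δ : ℝ) - 2 + 0) + ((2 * (Δ : ℝ) - 1 + 0) * ((Δ : ℝ) - 2) / 2 + 1) /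
          (2 * (Δ : ℝ) + 0 + x)) / ((Δ : ℝ) + 1 + 0) = ((Δ : ℝ) - 2) / (Δ + 1) +
          (((2 * (Δ : ℝ) - 1) * ((Δ : ℝ) - 2) / 2 + 1) / (Δ + 1)) * (1 / (2 * Δ + x)) := by
        rw [add_zero, add_zero, add_zero, add_zero]
        field_simp
      rw [e1]
      have e2 : u = (Δ : ℝ) * (1 / (2 * Δ + x)) := by rw [hu]; ring
      rw [e2]
      have h3 : (123 : ℝ) / 126 ≤ ((Δ : ℝ) - 2) / (Δ + 1) := by
        rw [div_le_div_iff₀ (by norm_num) hW]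
        linarith
      have h4 : 35 / 36 * (Δ : ℝ) ≤ ((2 * (Δ : ℝ) - 1) * ((Δ : ℝ) - 2) / 2 + 1) / (Δ + 1) := by
        rw [le_div_iff₀ hW]
        nlinarith
      have h5 : 0 ≤ 1 / (2 * (Δ : ℝ) + x) := by positivity
      have h6 := mul_le_mul_of_nonneg_right h4 h5
      linarith
    rcases le_total u (2 / 5) with hc | hc
    · have H0 := N28_HcA Δ x 1 (by omega)
      have H2 := N28_HcA (Δ - 1) x 3 (by omega)
      have H4 := N28_HcA (Δ - 2) x 5 (by omega)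
      have H6 := N28_HcA (Δ - 3) x 7 (by omega)
      have H8 := N28_HcA (Δ - 4) x 9 (by omega)
      norm_num [aQ, bQ, fi, Nat.factorial] at L2 L4 L6 L8 H0 H2 H4 H6 H8
      norm_num at hA ⊢
      nlinarith
    · have H0 := N28_HcB Δ Δ x 1 u hΔ (by omega) le_rfl le_rfl (by omega) hu
      have H2 := N28_HcB Δ (Δ - 1) x 3 u hΔ (by omega) (by omega) (by omega) (by omega) hu
      have H4 := N28_HcB Δ (Δ - 2) x 5 u hΔ (by omega) (by omega) (by omega) (by omega) hu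
      have H6 := N28_HcB Δ (Δ - 3) x 7 u hΔ (by omega) (by omega) (by omega) (by omega) hu
      have H8 := N28_HcB Δ (Δ - 4) x 9 u hΔ (by omega) (by omega) (by omega) (by omega) hu
      norm_num [aQ, bQ, fi, Nat.factorial] at L2 L4 L6 L8 H0 H2 H4 H6 H8
      norm_num at hA ⊢
      nlinarith

end Pool.ADM
end
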