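import Pool.Agent.Lib.MP_ad84ff_coM.M20
import Pool.Agent.Lib.MP_ad84ff_coM.M19b
import Pool.Agent.Lib.MP_ad84ff_coM.M28a
import Pool.Agent.Lib.MP_ad84ff_coM.M32
import Pool.Agent.Lib.MP_ad84ff_coM.N14
import Pool.Agent.Lib.MP_ad84ff_coM.N28
import Pool.Agent.Lib.MP_ad84ff_coM.M07
import Pool.Agent.Lib.MP_ad84ff_coM.M18
import Pool.Agent.Lib.MP_ad84ff_coM.N20

section

end

section

end

section

end

section

/-! job ADM-29: the contributions of the cores in terms of the pure core masses. -/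

set_option autoImplicit false

namespace Pool.ADM

open Finset

private theorem m29_shift (F : ℕ → ℝ) (D N : ℕ) (hD : 1 ≤ D) (h0 : ∀ i, i < D → F i = 0)
    (h1 : ∀ i, N < i → F i = 0) :
    ∑ i ∈ Icc 1 N, F i = ∑ e ∈ range (N + 1), F (D + e) := by
  have hA : ∑ i ∈ Icc 1 N, F i = ∑ i ∈ range (D + (N + 1)), F i := by
    refine Finset.sum_subset ?_ ?_
    · intro i hi
      rw [Finset.mem_Icc] at hi
      rw [Finset.mem_range]
      omega
    · intro i _ hi
      rw [Finset.mem_Icc] at hi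
      by_cases h : N < i
      · exact h1 i h
      · exact h0 i (by omega)
  rw [hA, Finset.sum_range_add, Finset.sum_eq_zero (fun i hi => h0 i (Finset.mem_range.mp hi)),
    zero_add]

private theorem m29_split (F : ℕ → ℝ) (N : ℕ) (hN : 3 ≤ N) :
    ∑ e ∈ range (N + 1), F e = F 0 + F 1 + ∑ e ∈ Icc 2 N, F e := by
  have h : range (N + 1) = insert 0 (insert 1 (Icc 2 N)) := by
    ext i
    simp only [Finset.mem_range, Finset.mem_insert, Finset.mem_Icc]
    omega
  rw [h, Finset.sum_insert (by simp), Finset.sum_insert (by simp)]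
  ring

private theorem m29_fm (j : ℕ) (hj : j ≠ 0) : fm j = (j : ℝ) * fi j := by
  unfold fm fi
  rw [if_neg hj]
  obtain ⟨i, rfl⟩ := Nat.exists_eq_succ_of_ne_zero hj
  simp only [Nat.succ_eq_add_one, Nat.add_sub_cancel]
  rw [Nat.factorial_succ]
  have h1 : ((i.factorial : ℕ) : ℝ) ≠ 0 := by exact_mod_cast i.factorial_ne_zero
  have h2 : ((i : ℝ) + 1) ≠ 0 := by positivity
  push_cast
  field_simp

private theorem m29_fi_nonneg (j : ℕ) : 0 ≤ fi j := by
  unfold fi; positivity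

private theorem m29_dev_nonneg (a M j : ℕ) : 0 ≤ dev a M j := by
  unfold dev
  split_ifs
  · exact le_rfl
  · exact mul_nonneg (le_max_right _ _) (m29_fi_nonneg j)

private theorem m29_coef (a b j : ℕ) (ha : 1 ≤ a) :
    -dev a (a + b) j ≤ ((a : ℝ) + b - 1) * fi j - a * fm j ∧ -dev a (a + b) j ≤ fi j - fm j := by
  by_cases hj : j = 0
  · subst hj
    have h1 : fm 0 = 0 := by unfold fm; simp
    have h2 : (1 : ℝ) ≤ a := by exact_mod_cast ha
    have h3 : (0 : ℝ) ≤ b := by positivity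
    have h4 := m29_fi_nonneg 0
    have h5 : dev a (a + b) 0 = 0 := by unfold dev; simp
    rw [h1, h5]
    constructor
    · have : 0 ≤ ((a : ℝ) + b - 1) * fi 0 := mul_nonneg (by linarith) h4
      linarith
    · linarith
  · have h1 := m29_fm j hj
    have h4 := m29_fi_nonneg j
    have h5 : dev a (a + b) j = max (max ((j : ℝ) * a - (((a + b : ℕ) : ℝ) - 1)) (j - 1)) 0 * fi j := by
      unfold dev; rw [if_neg hj]
    rw [h1, h5]
    constructor
    · have h6 : (j : ℝ) * a - (((a + b : ℕ) : ℝ) - 1) ≤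
          max (max ((j : ℝ) * a - (((a + b : ℕ) : ℝ) - 1)) (j - 1)) 0 :=
        le_trans (le_max_left _ _) (le_max_left _ _)
      have h7 := mul_le_mul_of_nonneg_right h6 h4
      push_cast at h7 ⊢
      nlinarith [h7]
    · have h6 : (j : ℝ) - 1 ≤
          max (max ((j : ℝ) * a - (((a + b : ℕ) : ℝ) - 1)) (j - 1)) 0 :=
        le_trans (le_max_right _ _) (le_max_left _ _)
      have h7 := mul_le_mul_of_nonneg_right h6 h4
      nlinarith [h7]

private theorem m29_big (D e w x j : ℕ) (hD : 2 ≤ D) (he : 2 ≤ e) :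
    -(zz D w x * (dev (D + e) (2 * D - 1 + w + e) j *
            ((2 * (D : ℝ) - 1 + w + x) / (2 * D - 1 + w + x + e)) *
            q1s (D + e) D (2 * D - 1 + w + x + e))) ≤
      z0 D (D + e) (D - 1 + w) x * ((((D + e : ℕ) : ℝ) + ((D - 1 + w : ℕ) : ℝ) - 1) * fi j -
          ((D + e : ℕ) : ℝ) * fm j) +
        z1 D (D + e) (D - 1 + w) x * (fi j - fm j) := by
  set a := D + e with ha
  set b := D - 1 + w with hb
  have hM : 2 * D - 1 + w + e = a + b := by omega
  have hm : 2 * D - 1 + w + x + e = a + b + x := by omega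
  rw [hM, hm]
  have hc := m29_coef a b j (by omega)
  have h0 := z0_nonneg D a b x
  have h1 := z1_nonneg D a b x
  have hd := m29_dev_nonneg a (a + b) j
  have h2 := z01_le D a b x hD
  have h3 := zall_le D a b x hD (by omega) (by omega)
  have h4 := (z_pure D b x hD (by omega)).2.2
  have hw : b - (D - 1) = w := by omega
  rw [hw] at h4
  rw [h4] at h3
  have hq : ∑ β ∈ Icc 1 a, q1 β a D * psi β a (a + b + x) = q1s a D (a + b + x) := by
    unfold q1s
    have hI : Icc 1 a = insert 1 (Icc 2 a) := by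
      ext i
      simp only [Finset.mem_insert, Finset.mem_Icc]
      omega
    rw [hI, Finset.sum_insert (by simp), (q_one a D (by omega)).1]
    ring
  rw [hq] at h3
  have hr : (2 * (D : ℝ) - 1 + w + x) / (2 * D - 1 + w + x + e) =
      ((D : ℝ) + b + x) / ((a : ℝ) + b + x) := by
    have e1 : (b : ℝ) = (D : ℝ) - 1 + w := by
      rw [hb]
      push_cast [Nat.cast_sub (by omega : 1 ≤ D)]
      ring
    have e2 : (a : ℝ) = (D : ℝ) + e := by rw [ha]; push_cast; ring
    rw [e1, e2]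
    congr 1 <;> ring
  rw [hr]
  have h5 : -(dev a (a + b) j * (z0 D a b x + z1 D a b x)) ≤
      z0 D a b x * (((a : ℝ) + b - 1) * fi j - (a : ℝ) * fm j) + z1 D a b x * (fi j - fm j) := by
    have h6 := mul_le_mul_of_nonneg_left hc.1 h0
    have h7 := mul_le_mul_of_nonneg_left hc.2 h1
    nlinarith [h6, h7]
  have h8 : dev a (a + b) j * (z0 D a b x + z1 D a b x) ≤
      dev a (a + b) j * (((D : ℝ) + b + x) / ((a : ℝ) + b + x) * q1s a D (a + b + x) * zz D w x) :=
    mul_le_mul_of_nonneg_left (h2.trans h3) hd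
  calc -(zz D w x * (dev a (a + b) j * (((D : ℝ) + b + x) / ((a : ℝ) + b + x)) *
          q1s a D (a + b + x)))
      = -(dev a (a + b) j * (((D : ℝ) + b + x) / ((a : ℝ) + b + x) * q1s a D (a + b + x) *
          zz D w x)) := by ring
    _ ≤ _ := le_trans (neg_le_neg h8) h5

/-- excess `0`: `z_pure`, coefficient `(D+1+w) Tc`; excess `1`: `z_one`, coefficient `(D+1+w) Ec`;
excess `e ≥ 2`: both coefficients are at least `-dev`, `z01_le`, `zall_le` (the term `β = 1`
vanishes, `q_one`), `z_pure`.  Classes with `a < D` or `b < D - 1` vanish (`z_zero`); `w = b-(D-1)`. -/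
theorem S1_ge (N : ℕ) (hN : 3 ≤ N) :
    ∑ w ∈ range (N + 1), ∑ x ∈ range (N + 1),
      (∑ D ∈ Icc 2 N, (if 2 * D - 1 + w + x ≤ N then zz D w x * ((D : ℝ) + 1 + w) *
          (Tc D w (N - (2 * D - 1 + w + x)) + Ec D w x (N - (2 * D - 1 + w + x))) else 0) -
       ∑ D ∈ Icc 2 N, ∑ e ∈ Icc 2 N, (if 2 * D - 1 + w + x + e ≤ N then
          zz D w x * (dev (D + e) (2 * D - 1 + w + e) (N - (2 * D - 1 + w + x + e)) *
            ((2 * (D : ℝ) - 1 + w + x) / (2 * D - 1 + w + x + e)) *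
            q1s (D + e) D (2 * D - 1 + w + x + e)) else 0)) ≤ S1 N := by
  classical
  set G : ℕ → ℕ → ℕ → ℕ → ℝ := fun D a b x => if a + b + x ≤ N then
      z0 D a b x * (((a : ℝ) + b - 1) * fi (N - (a + b + x)) - a * fm (N - (a + b + x))) +
        z1 D a b x * (fi (N - (a + b + x)) - fm (N - (a + b + x)))
    else 0 with hG
  have hS : S1 N = ∑ w ∈ range (N + 1), ∑ x ∈ range (N + 1), ∑ D ∈ Icc 2 N,
      ∑ e ∈ range (N + 1), G D (D + e) (D - 1 + w) x := by
    have h1 : S1 N = ∑ D ∈ Icc 2 N, ∑ w ∈ range (N + 1), ∑ x ∈ range (N + 1),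
        ∑ e ∈ range (N + 1), G D (D + e) (D - 1 + w) x := by
      unfold S1
      refine Finset.sum_congr rfl fun D hD => ?_
      rw [Finset.mem_Icc] at hD
      have h2 : ∑ a ∈ Icc 1 N, ∑ b ∈ Icc 1 N, ∑ x ∈ range (N + 1), G D a b x =
          ∑ e ∈ range (N + 1), ∑ w ∈ range (N + 1), ∑ x ∈ range (N + 1),
            G D (D + e) (D - 1 + w) x := by
        rw [m29_shift (fun a => ∑ b ∈ Icc 1 N, ∑ x ∈ range (N + 1), G D a b x) D N (by omega)]
        · refine Finset.sum_congr rfl fun e _ => ?_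
          rw [m29_shift (fun b => ∑ x ∈ range (N + 1), G D (D + e) b x) (D - 1) N (by omega)]
          · intro b hb
            refine Finset.sum_eq_zero fun x _ => ?_
            have hz := z_zero D (D + e) b x hD.1 (Or.inr hb)
            simp only [hG, hz.1, hz.2.1, zero_mul, add_zero, ite_self]
          · intro b hb
            refine Finset.sum_eq_zero fun x _ => ?_
            simp only [hG]
            rw [if_neg (by omega)]
        · intro a ha
          refine Finset.sum_eq_zero fun b _ => Finset.sum_eq_zero fun x _ => ?_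
          have hz := z_zero D a b x hD.1 (Or.inl ha)
          simp only [hG, hz.1, hz.2.1, zero_mul, add_zero, ite_self]
        · intro a ha
          refine Finset.sum_eq_zero fun b _ => Finset.sum_eq_zero fun x _ => ?_
          simp only [hG]
          rw [if_neg (by omega)]
      rw [h2, Finset.sum_comm]
      refine Finset.sum_congr rfl fun w _ => ?_
      rw [Finset.sum_comm]
    rw [h1, Finset.sum_comm]
    refine Finset.sum_congr rfl fun w _ => ?_
    rw [Finset.sum_comm]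
  rw [hS]
  refine Finset.sum_le_sum fun w _ => Finset.sum_le_sum fun x _ => ?_
  rw [← Finset.sum_sub_distrib]
  refine Finset.sum_le_sum fun D hD => ?_
  rw [Finset.mem_Icc] at hD
  rw [m29_split _ N hN]
  have hbig : -(∑ e ∈ Icc 2 N, (if 2 * D - 1 + w + x + e ≤ N then
          zz D w x * (dev (D + e) (2 * D - 1 + w + e) (N - (2 * D - 1 + w + x + e)) *
            ((2 * (D : ℝ) - 1 + w + x) / (2 * D - 1 + w + x + e)) *
            q1s (D + e) D (2 * D - 1 + w + x + e)) else 0)) ≤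
      ∑ e ∈ Icc 2 N, G D (D + e) (D - 1 + w) x := by
    rw [← Finset.sum_neg_distrib]
    refine Finset.sum_le_sum fun e he => ?_
    rw [Finset.mem_Icc] at he
    have hm : D + e + (D - 1 + w) + x = 2 * D - 1 + w + x + e := by omega
    simp only [hG]
    by_cases hc : 2 * D - 1 + w + x + e ≤ N
    · rw [if_pos hc, if_pos (by omega), hm]
      exact m29_big D e w x _ hD.1 he.1
    · rw [if_neg hc, if_neg (by omega)]
      simp
  have hDR : (2 : ℝ) ≤ D := by exact_mod_cast hD.1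
  have hwR : (0 : ℝ) ≤ w := by positivity
  have hxR : (0 : ℝ) ≤ x := by positivity
  have hbR : ((D - 1 + w : ℕ) : ℝ) = (D : ℝ) - 1 + w := by
    push_cast [Nat.cast_sub (by omega : 1 ≤ D)]
    ring
  have hne : ((D : ℝ) + 1 + w) ≠ 0 := by linarith
  have hne2 : (2 * (D : ℝ) + w + x) ≠ 0 := by linarith
  have hsmall : (if 2 * D - 1 + w + x ≤ N then zz D w x * ((D : ℝ) + 1 + w) *
          (Tc D w (N - (2 * D - 1 + w + x)) + Ec D w x (N - (2 * D - 1 + w + x))) else 0) =
      G D (D + 0) (D - 1 + w) x + G D (D + 1) (D - 1 + w) x := by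
    have hp := z_pure D (D - 1 + w) x hD.1 (by omega)
    have ho := z_one D (D - 1 + w) x hD.1 (by omega)
    have hw' : D - 1 + w - (D - 1) = w := by omega
    rw [hw'] at hp ho
    simp only [hG, add_zero]
    rw [hp.1, hp.2.1, ho.1, ho.2]
    have hm0 : D + (D - 1 + w) + x = 2 * D - 1 + w + x := by omega
    have hm1 : D + 1 + (D - 1 + w) + x = 2 * D + w + x := by omega
    rw [hm0, hm1, hbR]
    by_cases hc : 2 * D - 1 + w + x ≤ N
    · rw [if_pos hc, if_pos hc]
      unfold Tc Ec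
      by_cases hj : N - (2 * D - 1 + w + x) = 0
      · rw [if_neg (by omega : ¬ (2 * D + w + x ≤ N)), if_pos hj]
        field_simp
        ring
      · rw [if_pos (by omega : 2 * D + w + x ≤ N), if_neg hj]
        have hj' : N - (2 * D + w + x) = N - (2 * D - 1 + w + x) - 1 := by omega
        rw [hj']
        push_cast
        have e1 : ((D : ℝ) + 1 + ((D : ℝ) - 1 + w) + x) = 2 * D + w + x := by ring
        rw [e1]
        field_simp
        ring
    · rw [if_neg hc, if_neg hc, if_neg (by omega)]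
      simp
  rw [hsmall]
  linarith [hbig]

end Pool.ADM
end

section

/-! job ADN-30: assembly of the numerical part. -/

set_option autoImplicit false

namespace Pool.ADM

open Finset

private theorem N30_zero (Δ x j0 : ℕ) (h3 : 3 ≤ Δ) (hj : j0 ≤ 1) (hN : 17 ≤ 2 * Δ - 1 + x + j0) :
    1 / 1000 ≤ Ft Δ 0 x j0 (Δ - 2) := by
  by_cases h : Δ ≤ 124
  · exact Ft_small Δ x j0 h3 h hj hN
  · exact Ft_large Δ x j0 (by omega) hj

/-- `Δ = 2`: `Ft_two`.  `Δ ≥ 3`: if `2Δ-1+x+j0 ≥ 17` from `w = 0` (`Ft_small`, `Ft_large`) by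
`Ft_nonneg_of_le`; otherwise from `w₀ = 17 - (2Δ-1+x+j0) ≥ 1` (`Ft_pts`). -/
theorem Ft_nonneg (Δ w x j0 : ℕ) (hΔ : 2 ≤ Δ) (hj : j0 ≤ 1) (hN : 17 ≤ 2 * Δ - 1 + w + x + j0) :
    0 ≤ Ft Δ w x j0 (Δ - 2) := by
  by_cases h3 : 3 ≤ Δ
  · by_cases h : 17 ≤ 2 * Δ - 1 + x + j0
    · refine Ft_nonneg_of_le Δ 0 w x j0 hΔ hj (Nat.zero_le _) ?_
      refine le_trans ?_ (N30_zero Δ x j0 h3 hj h)
      norm_num
    · refine Ft_nonneg_of_le Δ (17 - (2 * Δ - 1 + x + j0)) w x j0 hΔ hj (by omega) ?_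
      exact Ft_pts Δ (17 - (2 * Δ - 1 + x + j0)) x j0 h3 hj (by omega) (by omega)
  · have h2 : Δ = 2 := by omega
    subst h2
    exact Ft_two w x j0 hj

theorem Ft_zero (Δ j0 : ℕ) (hj : j0 ≤ 1) (hN : 17 ≤ 2 * Δ - 1 + j0) :
    1 / 1000 ≤ Ft Δ 0 0 j0 (Δ - 2) :=
  N30_zero Δ 0 j0 (by omega) hj (by omega)

end Pool.ADM
end

section

/-! The numerical inequalities. -/

set_option autoImplicit false

namespace Pool.ADM

open Finset

theorem num_partial (Δ w x j0 k : ℕ) (hj : j0 ≤ 1) (hN : 17 ≤ 2 * Δ - 1 + w + x + j0)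
    (hk : k + 2 ≤ Δ) : 0 ≤ ∑ i ∈ range (k + 1), cc (Δ - i) w x (j0 + 2 * i) :=
  (Ft_nonneg Δ w x j0 (by omega) hj hN).trans (Ft_le Δ w x j0 k hj hk)

theorem num_zero (Δ j0 k : ℕ) (hj : j0 ≤ 1) (hN : 17 ≤ 2 * Δ - 1 + 0 + 0 + j0)
    (hk : k + 2 ≤ Δ) : 1 / 1000 ≤ ∑ i ∈ range (k + 1), cc (Δ - i) 0 0 (j0 + 2 * i) :=
  (Ft_zero Δ j0 hj (by omega)).trans (Ft_le Δ 0 0 j0 k hj hk)

end Pool.ADM
end

section

/-! job ADM-19c: `(D + 1 + w) z` is nondecreasing along the chain. -/

set_option autoImplicit false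

namespace Pool.ADM

open Finset

private theorem m19c_last (d : ℕ) (G : ℕ × ℕ × ℕ) (hG : G.1 = d) (τ : S3) :
    (∀ q ∈ τ, q.1 = d) → ∀ (f : ℕ → S3 → ℝ), (∀ h ρ, 0 ≤ f h ρ) →
    (G.2.2 : ℝ) * f d [(d + 1, sz τ + (G.2.1 + 1), lf τ + (G.2.2 - 1))] +
      ((G.2.1 - G.2.2 : ℕ) : ℝ) * f d [(d + 1, sz τ + (G.2.1 + 1), lf τ + G.2.2)] ≤
    wsum (suc 1 (τ ++ [G])) f := by
  induction τ with
  | nil =>
    intro _ f hf
    rw [List.nil_append, wsum_suc_cons]
    have h0 : 0 ≤ wsum (suc 1 []) (fun h σ => f h (glue3 G σ)) := by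
      simp only [suc, wsum, List.map_cons, List.map_nil, List.sum_cons, List.sum_nil, Nat.cast_one,
        one_mul, add_zero]
      exact hf _ _
    have e1 : sz ([] : S3) = 0 := rfl
    have e2 : lf ([] : S3) = 0 := rfl
    rw [e1, e2, hG, zero_add, zero_add, zero_add]
    linarith
  | cons F τ ih =>
    intro hτ f hf
    rw [List.cons_append, wsum_suc_cons]
    have h1 := ih (fun q hq => hτ q (List.mem_cons_of_mem _ hq)) (fun h σ => f h (glue3 F σ))
      (fun h ρ => hf _ _)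
    have hF : F.1 = d := hτ F (List.mem_cons_self ..)
    have e1 : ∀ s u, glue3 F [(d + 1, s, u)] = [(d + 1, F.2.1 + s, F.2.2 + u)] := by
      intro s u
      simp [glue3, hF]
    simp only [e1] at h1
    have e2 : sz (F :: τ) = F.2.1 + sz τ := by simp [sz]
    have e3 : lf (F :: τ) = F.2.2 + lf τ := by simp [lf]
    rw [e2, e3, add_assoc, add_assoc, add_assoc]
    have h2 := mul_nonneg (Nat.cast_nonneg (α := ℝ) F.2.2)
      (hf F.1 ((F.1 + 1, F.2.1 + 1, F.2.2 - 1) :: (τ ++ [G])))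
    have h3 := mul_nonneg (Nat.cast_nonneg (α := ℝ) (F.2.1 - F.2.2))
      (hf F.1 ((F.1 + 1, F.2.1 + 1, F.2.2) :: (τ ++ [G])))
    linarith

private theorem m19c_mem (d : ℕ) (G : ℕ × ℕ × ℕ) (hG : G.1 = d) (τ : S3) :
    (∀ q ∈ τ, q.1 = d) →
    (G.2.2, d, ([(d + 1, sz τ + (G.2.1 + 1), lf τ + (G.2.2 - 1))] : S3)) ∈ suc 1 (τ ++ [G]) ∧
    (G.2.1 - G.2.2, d, ([(d + 1, sz τ + (G.2.1 + 1), lf τ + G.2.2)] : S3)) ∈ suc 1 (τ ++ [G]) := by
  induction τ with
  | nil =>
    intro _
    subst hG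
    simp [suc, sz, lf]
  | cons F τ ih =>
    intro hτ
    obtain ⟨h1, h2⟩ := ih (fun q hq => hτ q (List.mem_cons_of_mem _ hq))
    have hF : F.1 = d := hτ F (List.mem_cons_self ..)
    have e1 : ∀ s u, glue3 F [(d + 1, s, u)] = [(d + 1, F.2.1 + s, F.2.2 + u)] := by
      intro s u
      simp [glue3, hF]
    have e2 : sz (F :: τ) = F.2.1 + sz τ := by simp [sz]
    have e3 : lf (F :: τ) = F.2.2 + lf τ := by simp [lf]
    rw [e2, e3, add_assoc, add_assoc, add_assoc, List.cons_append, suc]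
    constructor
    · refine List.mem_cons_of_mem _ (List.mem_cons_of_mem _ (List.mem_map.2 ⟨_, h1, ?_⟩))
      rw [e1]
    · refine List.mem_cons_of_mem _ (List.mem_cons_of_mem _ (List.mem_map.2 ⟨_, h2, ?_⟩))
      rw [e1]

private theorem m19c_lf_le (b : ℕ) (σ : S3) (h : Vs 1 b σ) : ∀ τ : S3, (∀ q ∈ τ, q ∈ σ) → lf τ ≤ sz τ := by
  intro τ
  induction τ with
  | nil => intro _; exact le_rfl
  | cons F τ ih =>
    intro hτ
    have h1 := ih (fun q hq => hτ q (List.mem_cons_of_mem _ hq))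
    have hF := hτ F (List.mem_cons_self ..)
    have e2 : sz (F :: τ) = F.2.1 + sz τ := by simp [sz]
    have e3 : lf (F :: τ) = F.2.2 + lf τ := by simp [lf]
    rw [e2, e3]
    have h2 : F.2.2 ≤ F.2.1 := by
      rcases Nat.lt_or_ge F.1 2 with h3 | h3
      · have h4 := (h.pos F hF).1
        have h5 := h.one F hF (by omega)
        rw [h5]
      · exact (h.big F hF h3).le
    omega

/-- the pointwise inequality -/
private theorem m19c_point (D w x : ℕ) (hD : 2 ≤ D) (pB pO : Pth) (hB : VP 1 (D - 1 + w) pB)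
    (hO : VP 1 x pO) (τ : S3) (G : ℕ × ℕ × ℕ) (hpB : hd pB = τ ++ [G]) (hAL : AL (D - 1) (hd pB)) :
    (D + 1 + w) * ((2 * D + w + x) * (2 * D + 1 + w + x)) * (ym (hd pB) 0 * Jc (dn D) pB pO) ≤
      (D + 2 + w) * D *
        (G.2.2 * (ym [(D, sz τ + (G.2.1 + 1), lf τ + (G.2.2 - 1))] 0 *
            Jc (dn (D + 1)) ((D - 1, [(D, sz τ + (G.2.1 + 1), lf τ + (G.2.2 - 1))]) :: pB) pO) +
          (G.2.1 - G.2.2) * (ym [(D, sz τ + (G.2.1 + 1), lf τ + G.2.2)] 0 *
            Jc (dn (D + 1)) ((D - 1, [(D, sz τ + (G.2.1 + 1), lf τ + G.2.2)]) :: pB) pO)) := by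
  have hvs : Vs 1 (D - 1 + w) (hd pB) := hB.vs le_rfl
  have hsz : sz (hd pB) = D - 1 + w := hvs.sum
  have hszG : sz (τ ++ [G]) = sz τ + G.2.1 := by simp [sz]
  have hlfG : lf (τ ++ [G]) = lf τ + G.2.2 := by simp [lf]
  have hlsz : lsz (τ ++ [G]) = G.2.1 := by simp [lsz]
  have hllf : llf (τ ++ [G]) = G.2.2 := by simp [llf]
  have hGm : G ∈ hd pB := by rw [hpB]; simp
  have hpos := hvs.pos G hGm
  have hGle : G.2.2 ≤ G.2.1 := by
    have := m19c_lf_le _ _ hvs [G] (by intro q hq; simp at hq; rw [hq]; exact hGm)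
    simpa [lf, sz] using this
  have hτle : lf τ ≤ sz τ := m19c_lf_le _ _ hvs τ (by intro q hq; rw [hpB]; simp [hq])
  have hlev : ∀ q ∈ τ, q.1 = D - 1 := by
    intro q hq
    exact hAL.2 q (by rw [hpB]; simp [hq])
  have hGlev : G.1 = D - 1 := hAL.2 G hGm
  have hb : sz τ + G.2.1 = D - 1 + w := by rw [← hszG, ← hpB, hsz]
  obtain ⟨m1, m2⟩ := m19c_mem (D - 1) G hGlev τ hlev
  have eD : D - 1 + 1 = D := by omega
  rw [eD, ← hpB] at m1 m2
  have eb : sz τ + (G.2.1 + 1) = D - 1 + w + 1 := by omega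
  rw [eb] at m1 m2 ⊢
  have hy : ym (hd pB) 0 = yk G.2.1 G.2.2 (D - 1 + w) (lf τ + G.2.2) 0 := by
    rw [ym, hsz, hpB, hlsz, hllf, hlfG]
  have hy1 : ∀ u, ym [(D, D - 1 + w + 1, u)] 0 = yk (D - 1 + w + 1) u (D - 1 + w + 1) u 0 := by
    intro u
    simp [ym, lsz, llf, sz, lf]
  rw [hy, hy1, hy1]
  have hyk := yk_ineq G.2.1 G.2.2 (D - 1 + w) (lf τ + G.2.2) (by omega) hGle (by omega)
    (by omega) (by omega) (by omega)
  have hT : ∀ m u, m ≠ 0 → (m, D - 1, ([(D, D - 1 + w + 1, u)] : S3)) ∈ suc 1 (hd pB) →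
      (2 * D + w + x) * (2 * D + 1 + w + x) * Jc (dn D) pB pO ≤
      (D + 2 + w) * D * Jc (dn (D + 1)) ((D - 1, [(D, D - 1 + w + 1, u)]) :: pB) pO := by
    intro m u hm hs
    have h1 := Jc_T5 D (D - 1 + w) x u pB pO hD (by omega) hB hO hAL (VP.cons hB hm hs)
    have e1 : D + (D - 1 + w) + x + 1 = 2 * D + w + x := by omega
    have e2 : D + (D - 1 + w) + x + 2 = 2 * D + 1 + w + x := by omega
    have e3 : D - 1 + w + 3 = D + 2 + w := by omega
    rw [e1, e2, e3] at h1
    calc _ ≤ _ := h1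
      _ = _ := by ring
  have e4 : D - 1 + w + 2 = D + 1 + w := by omega
  rw [e4] at hyk
  set J := Jc (dn D) pB pO with hJ
  set N := (2 * D + w + x) * (2 * D + 1 + w + x) with hN
  have t1 : G.2.2 * (N * J) ≤ G.2.2 * ((D + 2 + w) * D *
      Jc (dn (D + 1)) ((D - 1, [(D, D - 1 + w + 1, lf τ + (G.2.2 - 1))]) :: pB) pO) := by
    rcases Nat.eq_zero_or_pos G.2.2 with h0 | h0
    · rw [h0]; simp
    · exact Nat.mul_le_mul_left _ (hT _ _ (by omega) m1)
  have t2 : (G.2.1 - G.2.2) * (N * J) ≤ (G.2.1 - G.2.2) * ((D + 2 + w) * D *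
      Jc (dn (D + 1)) ((D - 1, [(D, D - 1 + w + 1, lf τ + G.2.2)]) :: pB) pO) := by
    rcases Nat.eq_zero_or_pos (G.2.1 - G.2.2) with h0 | h0
    · rw [h0]; simp
    · exact Nat.mul_le_mul_left _ (hT _ _ (by omega) m2)
  have t3 : G.2.2 * yk (D - 1 + w + 1) (lf τ + G.2.2 - 1) (D - 1 + w + 1) (lf τ + G.2.2 - 1) 0 =
      G.2.2 * yk (D - 1 + w + 1) (lf τ + (G.2.2 - 1)) (D - 1 + w + 1) (lf τ + (G.2.2 - 1)) 0 := by
    rcases Nat.eq_zero_or_pos G.2.2 with h0 | h0
    · rw [h0]; simp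
    · rw [Nat.add_sub_assoc h0]
  rw [t3] at hyk
  set Y1 := yk (D - 1 + w + 1) (lf τ + (G.2.2 - 1)) (D - 1 + w + 1) (lf τ + (G.2.2 - 1)) 0
  set Y2 := yk (D - 1 + w + 1) (lf τ + G.2.2) (D - 1 + w + 1) (lf τ + G.2.2) 0
  set Y := yk G.2.1 G.2.2 (D - 1 + w) (lf τ + G.2.2) 0
  set J1 := Jc (dn (D + 1)) ((D - 1, [(D, D - 1 + w + 1, lf τ + (G.2.2 - 1))]) :: pB) pO
  set J2 := Jc (dn (D + 1)) ((D - 1, [(D, D - 1 + w + 1, lf τ + G.2.2)]) :: pB) pO
  calc (D + 1 + w) * N * (Y * J) = ((D + 1 + w) * Y) * (N * J) := by ring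
    _ ≤ (G.2.2 * Y1 + (G.2.1 - G.2.2) * Y2) * (N * J) := Nat.mul_le_mul_right _ hyk
    _ = Y1 * (G.2.2 * (N * J)) + Y2 * ((G.2.1 - G.2.2) * (N * J)) := by ring
    _ ≤ Y1 * (G.2.2 * ((D + 2 + w) * D * J1)) + Y2 * ((G.2.1 - G.2.2) * ((D + 2 + w) * D * J2)) :=
        Nat.add_le_add (Nat.mul_le_mul_left _ t1) (Nat.mul_le_mul_left _ t2)
    _ = _ := by ring

/-- Restrict the sum over the histories `pB'` of `D + w` letters to `pB' = (D-1, B') :: pB` where
`pB` ends on level `D - 1` and the last packet is hit (then `B'` is a single packet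
`(D, b + 1, u')`); `Jc_T5` and `yk_ineq`. -/
theorem zz_mono (D w x : ℕ) (hD : 2 ≤ D) :
    ((D : ℝ) + 1 + w) * zz D w x ≤ ((D : ℝ) + 2 + w) * zz (D + 1) w x := by
  have key : ∀ pB, VP 1 (D - 1 + w) pB →
      (((D + 1 + w) * ((2 * D + w + x) * (2 * D + 1 + w + x)) : ℕ) : ℝ) * (PS 1 x fun pO =>
        (if AL (D - 1) (hd pB) then (if lf (hd pO) = 0 then (ym (hd pB) 0 : ℝ) else 0) else 0) *
        (Jc (dn D) pB pO : ℝ)) ≤
      (((D + 2 + w) * D : ℕ) : ℝ) * wsum (suc 1 (hd pB)) fun h σ => PS 1 x fun pO =>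
        (if AL D (hd ((h, σ) :: pB)) then
          (if lf (hd pO) = 0 then (ym (hd ((h, σ) :: pB)) 0 : ℝ) else 0) else 0) *
        (Jc (dn (D + 1)) ((h, σ) :: pB) pO : ℝ) := by
    intro pB hB
    have hnn : ∀ (h : ℕ) (σ : S3), 0 ≤ PS 1 x fun pO =>
        (if AL D (hd ((h, σ) :: pB)) then
          (if lf (hd pO) = 0 then (ym (hd ((h, σ) :: pB)) 0 : ℝ) else 0) else 0) *
        (Jc (dn (D + 1)) ((h, σ) :: pB) pO : ℝ) := by
      intro h σ
      refine PS_nonneg _ _ _ fun pO _ => mul_nonneg ?_ (Nat.cast_nonneg _)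
      split_ifs
      · exact Nat.cast_nonneg _
      · exact le_rfl
      · exact le_rfl
    by_cases hAL : AL (D - 1) (hd pB)
    · obtain ⟨τ, G, hτ⟩ : ∃ τ G, hd pB = τ ++ [G] := by
        rcases List.eq_nil_or_concat (hd pB) with h | ⟨τ, G, h⟩
        · exact absurd h hAL.1
        · exact ⟨τ, G, by rw [h, List.concat_eq_append]⟩
      have hGm : G ∈ hd pB := by rw [hτ]; simp
      have hlev : ∀ q ∈ τ, q.1 = D - 1 := by
        intro q hq
        exact hAL.2 q (by rw [hτ]; simp [hq])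
      have h1 := m19c_last (D - 1) G (hAL.2 G hGm) τ hlev _ hnn
      have eD : D - 1 + 1 = D := by omega
      rw [eD, ← hτ] at h1
      refine le_trans ?_ (mul_le_mul_of_nonneg_left h1 (Nat.cast_nonneg _))
      rw [mul_add (((D + 2 + w) * D : ℕ) : ℝ), ← mul_assoc (((D + 2 + w) * D : ℕ) : ℝ),
        ← mul_assoc (((D + 2 + w) * D : ℕ) : ℝ), ← PS_mul, ← PS_mul, ← PS_mul, ← PS_add]
      refine PS_mono _ _ _ _ fun pO hO => ?_
      have hp := m19c_point D w x hD pB pO hB hO τ G hτ hAL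
      have a1 : ∀ u, AL D (hd ((D - 1, ([(D, sz τ + (G.2.1 + 1), u)] : S3)) :: pB)) := by
        intro u
        constructor
        · simp [hd]
        · simp [hd]
      rw [if_pos hAL, if_pos (a1 _), if_pos (a1 _)]
      by_cases hl : lf (hd pO) = 0
      · rw [if_pos hl, if_pos hl, if_pos hl]
        have hp' : (((D + 1 + w) * ((2 * D + w + x) * (2 * D + 1 + w + x)) *
            (ym (hd pB) 0 * Jc (dn D) pB pO) : ℕ) : ℝ) ≤ _ := Nat.cast_le.2 hp
        push_cast at hp' ⊢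
        simp only [hd] at hp' ⊢
        linarith
      · rw [if_neg hl, if_neg hl, if_neg hl]
        simp
    · have h0 : (fun pO : Pth =>
        (if AL (D - 1) (hd pB) then (if lf (hd pO) = 0 then (ym (hd pB) 0 : ℝ) else 0) else 0) *
        (Jc (dn D) pB pO : ℝ)) = fun _ => (0 : ℝ) * 0 := by
        funext pO
        rw [if_neg hAL, zero_mul, zero_mul]
      rw [h0, PS_mul 1 x 0 (fun _ => 0), zero_mul, mul_zero]
      refine mul_nonneg (Nat.cast_nonneg _) ?_
      have hw : wsum (suc 1 (hd pB)) (fun _ _ => (0 : ℝ) * 0) = 0 := by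
        rw [wsum_mul (suc 1 (hd pB)) 0 (fun _ _ => 0), zero_mul]
      refine hw.symm.le.trans (wsum_mono _ _ _ fun y _ _ => ?_)
      exact (zero_mul (0 : ℝ)).le.trans (hnn _ _)
  have hsum := PS_mono 1 (D - 1 + w) _ _ key
  rw [PS_mul, PS_mul] at hsum
  have f1 := zz_formula D w x hD
  have f2 := zz_formula (D + 1) w x (by omega)
  have e1 : D + 1 - 1 + w = D - 1 + w + 1 := by omega
  have e2 : D + 1 - 1 = D := by omega
  rw [e1, e2, PS_succ] at f2
  have e3 : 2 * (D + 1) - 1 + w + x = (2 * D - 1 + w + x) + 1 + 1 := by omega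
  rw [e3, Nat.factorial_succ, Nat.factorial_succ] at f2
  rw [f1, f2]
  set S1 := PS 1 (D - 1 + w) fun pB => PS 1 x fun pO =>
        (if AL (D - 1) (hd pB) then (if lf (hd pO) = 0 then (ym (hd pB) 0 : ℝ) else 0) else 0) *
        (Jc (dn D) pB pO : ℝ) with hS1
  have hfD : (D.factorial : ℝ) = (D : ℝ) * ((D - 1).factorial : ℝ) := by
    rw [← Nat.cast_mul, Nat.mul_factorial_pred (by omega)]
  have e5 : 2 * D - 1 + w + x + 1 = 2 * D + w + x := by omega
  rw [hfD, e5]
  have hm : (0 : ℝ) < ((2 * D - 1 + w + x).factorial : ℝ) := by exact_mod_cast Nat.factorial_pos _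
  push_cast at hsum ⊢
  have hq1 : (0 : ℝ) < 2 * (D : ℝ) + w + x := by positivity
  have hq2 : (0 : ℝ) < 2 * (D : ℝ) + w + x + 1 := by positivity
  have hfp : (0 : ℝ) < ((D - 1).factorial : ℝ) := by exact_mod_cast Nat.factorial_pos _
  rw [div_mul_eq_mul_div, div_mul_eq_mul_div, mul_div_assoc', mul_div_assoc', div_le_div_iff₀ hm
    (by positivity)]
  have h9 := mul_le_mul_of_nonneg_left hsum
    (mul_nonneg hfp.le hm.le : (0 : ℝ) ≤ ((D - 1).factorial : ℝ) *
      ((2 * D - 1 + w + x).factorial : ℝ))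
  calc _ = ((D - 1).factorial : ℝ) * ((2 * D - 1 + w + x).factorial : ℝ) *
      (((D : ℝ) + 1 + w) * ((2 * D + w + x) * (2 * D + 1 + w + x)) * S1) := by ring
    _ ≤ _ := h9
    _ = _ := by ring

end Pool.ADM
end

section

end

section

/-! job ADM-30c: regrouping along the chain, for fixed `w, x`.  `y D = zz D w x * (D + 1 + w)` is
nondecreasing for `D ≥ 2` (`zz_mono`). -/

set_option autoImplicit false

namespace Pool.ADM

open Finset

private theorem m30c_abel (y c : ℕ → ℝ) (s : ℝ) : ∀ m : ℕ,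
    (∀ i < m, y (i + 1) ≤ y i) → (∀ k < m, s ≤ ∑ i ∈ range (k + 1), c i) →
    y m * (∑ i ∈ range (m + 1), c i) + s * (y 0 - y m) ≤ ∑ i ∈ range (m + 1), y i * c i
  | 0, _, _ => by simp
  | m + 1, hy, hc => by
    have ih := m30c_abel y c s m (fun i hi => hy i (by omega)) (fun k hk => hc k (by omega))
    rw [Finset.sum_range_succ (fun i => y i * c i) (m + 1), Finset.sum_range_succ c (m + 1)]
    have h1 := hy m (by omega)
    have h2 := hc m (by omega)
    nlinarith [mul_nonneg (sub_nonneg.2 h1) (sub_nonneg.2 h2)]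

/-- Abel summation from the top of the chain: `D = Δ - i`, `N = 2Δ - 1 + w + x + j0`. -/
theorem chain_nonneg (N w x : ℕ) (s : ℝ) (hs : 0 ≤ s)
    (h : ∀ Δ j0 k : ℕ, j0 ≤ 1 → 2 * Δ - 1 + w + x + j0 = N → k + 2 ≤ Δ →
      s ≤ ∑ i ∈ range (k + 1), cc (Δ - i) w x (j0 + 2 * i)) :
    ∑ D ∈ Icc 2 N, (if 2 * D - 1 + w + x ≤ N then
        zz D w x * ((D : ℝ) + 1 + w) * cc D w x (N - (2 * D - 1 + w + x)) else 0) ≥
      (if 3 + w + x ≤ N then s * (zz 2 w x * (3 + w)) else 0) := by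
  by_cases h3 : 3 + w + x ≤ N
  · rw [if_pos h3]
    obtain ⟨Δ, j0, hj0, hΔ, hN⟩ :
        ∃ Δ j0 : ℕ, j0 ≤ 1 ∧ 2 ≤ Δ ∧ 2 * Δ - 1 + w + x + j0 = N :=
      ⟨(N + 1 - w - x) / 2, (N + 1 - w - x) % 2, by omega, by omega, by omega⟩
    obtain ⟨y, hy⟩ : ∃ y : ℕ → ℝ, ∀ i, y i = zz (Δ - i) w x * (((Δ - i : ℕ) : ℝ) + 1 + w) :=
      ⟨_, fun _ => rfl⟩
    obtain ⟨c, hc⟩ : ∃ c : ℕ → ℝ, ∀ i, c i = cc (Δ - i) w x (j0 + 2 * i) := ⟨_, fun _ => rfl⟩
    have hsum : ∑ D ∈ Icc 2 N, (if 2 * D - 1 + w + x ≤ N then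
        zz D w x * ((D : ℝ) + 1 + w) * cc D w x (N - (2 * D - 1 + w + x)) else 0) =
        ∑ i ∈ range (Δ - 2 + 1), y i * c i := by
      rw [← Finset.sum_filter]
      refine Finset.sum_nbij' (fun D => Δ - D) (fun i => Δ - i) ?_ ?_ ?_ ?_ ?_
      · intro D hD
        rw [mem_filter, mem_Icc] at hD
        rw [mem_range]
        omega
      · intro i hi
        rw [mem_range] at hi
        rw [mem_filter, mem_Icc]
        omega
      · intro D hD
        rw [mem_filter, mem_Icc] at hD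
        omega
      · intro i hi
        rw [mem_range] at hi
        omega
      · intro D hD
        rw [mem_filter, mem_Icc] at hD
        have h1 : Δ - (Δ - D) = D := by omega
        have h2 : N - (2 * D - 1 + w + x) = j0 + 2 * (Δ - D) := by omega
        rw [hy, hc, h1, h2]
    rw [hsum]
    have hmono : ∀ i < Δ - 2, y (i + 1) ≤ y i := by
      intro i hi
      rw [hy, hy]
      have h1 := zz_mono (Δ - (i + 1)) w x (by omega)
      have h2 : Δ - (i + 1) + 1 = Δ - i := by omega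
      rw [h2] at h1
      have h4 : ((Δ - i : ℕ) : ℝ) = ((Δ - (i + 1) : ℕ) : ℝ) + 1 := by
        rw [← h2]
        push_cast
        ring
      rw [h4]
      linarith
    have hpart : ∀ k < Δ - 2 + 1, s ≤ ∑ i ∈ range (k + 1), c i := by
      intro k hk
      simp only [hc]
      exact h Δ j0 k hj0 hN (by omega)
    have h5 := m30c_abel y c s (Δ - 2) hmono fun k hk => hpart k (by omega)
    have h6 := hpart (Δ - 2) (by omega)
    have hy2 : y (Δ - 2) = zz 2 w x * (3 + w) := by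
      rw [hy]
      have h7 : Δ - (Δ - 2) = 2 := by omega
      rw [h7]
      push_cast
      ring
    have hy0 : 0 ≤ y (Δ - 2) := by
      rw [hy]
      exact mul_nonneg (zz_nonneg _ _ _) (by positivity)
    have hanti : ∀ m : ℕ, m ≤ Δ - 2 → y m ≤ y 0 := by
      intro m
      induction m with
      | zero => exact fun _ => le_rfl
      | succ m ih => exact fun hm => (hmono m (by omega)).trans (ih (by omega))
    have h7 : 0 ≤ s * (y 0 - y (Δ - 2)) := mul_nonneg hs (sub_nonneg.2 (hanti _ le_rfl))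
    have h8 : y (Δ - 2) * s ≤ y (Δ - 2) * ∑ i ∈ range (Δ - 2 + 1), c i :=
      mul_le_mul_of_nonneg_left h6 hy0
    rw [← hy2]
    linarith
  · rw [if_neg h3]
    refine ge_of_eq (Finset.sum_eq_zero fun D hD => ?_)
    rw [mem_Icc] at hD
    rw [if_neg]
    omega

end Pool.ADM
end

section

/-! job ADM-11d: decomposition of `(n+1) (V_{n+1} - C_{n+1})` into classes. -/

set_option autoImplicit false

namespace Pool.ADM

open Finset

private theorem m11d_sz_append (A B : S3) : sz (A ++ B) = sz A + sz B := by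
  unfold sz
  rw [List.map_append, List.sum_append]

private theorem m11d_filter_all (t : ℕ) (A : S3) (h : ∀ q ∈ A, q.1 = t) :
    ((A.filter fun q => q.1 = t).map fun q => q.2.1).sum = sz A := by
  have h1 : A.filter (fun q => q.1 = t) = A := by
    rw [List.filter_eq_self]
    intro q hq
    simpa using h q hq
  rw [h1]
  rfl

private theorem m11d_filter_none (t : ℕ) (A : S3) (h : ∀ q ∈ A, q.1 ≠ t) :
    ((A.filter fun q => q.1 = t).map fun q => q.2.1).sum = 0 := by
  have h1 : A.filter (fun q => q.1 = t) = [] := by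
    rw [List.filter_eq_nil_iff]
    intro q hq
    simpa using h q hq
  rw [h1]
  rfl

private theorem m11d_filter_le (t : ℕ) (A : S3) :
    ((A.filter fun q => q.1 = t).map fun q => q.2.1).sum ≤ sz A := by
  induction A with
  | nil => exact le_rfl
  | cons a A ih =>
    rw [List.filter_cons]
    have h2 : sz (a :: A) = a.2.1 + sz A := rfl
    split_ifs with h
    · rw [List.map_cons, List.sum_cons, h2]
      omega
    · rw [h2]
      omega

private theorem m11d_topN_split (t : ℕ) (F B O σ : S3) (h : F ++ (B ++ O) = σ) (ht : top3 σ = t) :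
    topN σ = ((F.filter fun q => q.1 = t).map fun q => q.2.1).sum +
      (((B.filter fun q => q.1 = t).map fun q => q.2.1).sum +
        ((O.filter fun q => q.1 = t).map fun q => q.2.1).sum) := by
  unfold topN
  rw [ht, ← h, List.filter_append, List.filter_append, List.map_append, List.map_append,
    List.sum_append, List.sum_append]

private theorem m11d_topN_le (σ : S3) : topN σ ≤ sz σ := m11d_filter_le _ σ

/-- the near ties at time `n + 1` -/
private theorem m11d_Vf (n : ℕ) (σ : S3) (hσ : Vs 1 (n + 1) σ) :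
    ntf (fun F B _ => ((sz F : ℝ) + sz B - 1) * ((lsz B : ℝ) * ((sz B : ℝ) + 1))) σ +
      ntf (fun _ B O => ((sz O : ℝ) + 1) * ((lsz B : ℝ) * ((sz B : ℝ) + 1))) σ ≤
      ((n : ℝ) + 1) * Vf σ := by
  unfold ntf Vf
  split_ifs with h
  · have : (0 : ℝ) ≤ (n : ℝ) := Nat.cast_nonneg _
    linarith
  · refine le_of_eq ?_
    rw [← cutS_add, ← cutS_mul]
    refine cutS_congr _ _ _ fun F V hFV => ?_
    rw [← cutS_add, ← cutS_mul]
    refine cutS_congr _ _ _ fun B O hBO => ?_
    have hs : (sz F : ℝ) + (sz B : ℝ) + (sz O : ℝ) = (n : ℝ) + 1 := by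
      have h1 := hσ.sum
      rw [← hFV, ← hBO, m11d_sz_append, m11d_sz_append] at h1
      have h2 : sz F + sz B + sz O = n + 1 := by omega
      exact_mod_cast h2
    split_ifs with h2
    · rw [← hs]
      ring
    · ring

/-- the ties at time `n` -/
private theorem m11d_Cf (n : ℕ) (σ : S3) (hσ : Vs 1 n σ) :
    ((n : ℝ) + 1 - topN σ) * Cf σ ≤ cutS σ fun F V => cutS V fun B O =>
        if AL (top3 σ) F ∧ AL (top3 σ) B then ((sz O : ℝ) + 1) * ((lsz F : ℝ) * (lsz B : ℝ)) else 0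
      := by
  unfold Cf
  rw [← cutS_mul]
  refine cutS_mono _ _ _ fun F V hFV => ?_
  rw [← cutS_mul]
  refine cutS_mono _ _ _ fun B O hBO => ?_
  split_ifs with h2
  · refine mul_le_mul_of_nonneg_right ?_ (by positivity)
    have h1 := hσ.sum
    have h3 : F ++ (B ++ O) = σ := by rw [hBO, hFV]
    have h4 := m11d_topN_split _ F B O σ h3 rfl
    rw [m11d_filter_all _ F h2.1.2, m11d_filter_all _ B h2.2.2] at h4
    rw [← h3, m11d_sz_append, m11d_sz_append] at h1
    have h5 : n + 1 ≤ sz O + 1 + topN σ := by omega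
    have h6 : (n : ℝ) + 1 ≤ (sz O : ℝ) + 1 + (topN σ : ℝ) := by exact_mod_cast h5
    linarith
  · rw [mul_zero]

/-- the near ties at time `n` -/
private theorem m11d_top (n : ℕ) (σ : S3) (hσ : Vs 1 n σ) :
    (topN σ : ℝ) * Vf σ ≤ ntf (fun F B _ => (sz F : ℝ) * ((lsz B : ℝ) * ((sz B : ℝ) + 1))) σ +
      (n : ℝ) * (if top3 σ ≤ 1 then 1 else 0) := by
  unfold ntf Vf
  split_ifs with h
  · have h1 := m11d_topN_le σ
    rw [hσ.sum] at h1
    have h2 : (topN σ : ℝ) ≤ (n : ℝ) := by exact_mod_cast h1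
    linarith
  · rw [mul_zero, add_zero, ← cutS_mul]
    refine cutS_mono _ _ _ fun F V hFV => ?_
    rw [← cutS_mul]
    refine cutS_mono _ _ _ fun B O hBO => ?_
    split_ifs with h2
    · refine mul_le_mul_of_nonneg_right ?_ (by positivity)
      have h3 : F ++ (B ++ O) = σ := by rw [hBO, hFV]
      have h4 := m11d_topN_split _ F B O σ h3 rfl
      obtain ⟨b, hb⟩ := List.exists_mem_of_ne_nil B h2.2.1
      have hanti := hσ.anti
      rw [← h3, List.pairwise_append, List.pairwise_append] at hanti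
      have hO : ∀ q ∈ O, q.1 ≠ top3 σ := by
        intro q hq
        have h5 := hanti.2.1.2.2 b hb q hq
        have h6 := h2.2.2 b hb
        omega
      have hB : ∀ q ∈ B, q.1 ≠ top3 σ := by
        intro q hq
        have h6 := h2.2.2 q hq
        omega
      rw [m11d_filter_all _ F h2.1.2, m11d_filter_none _ B hB, m11d_filter_none _ O hO] at h4
      have h5 : topN σ ≤ sz F := by omega
      exact_mod_cast h5
    · rw [mul_zero]

private theorem m11d_append (σ : S3) (hpos : ∀ F ∈ σ, 1 ≤ F.1) :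
    wsum (suc 1 σ) (fun h _ => if h = 0 then (1 : ℝ) else 0) = 1 := by
  induction σ with
  | nil => simp [suc, wsum]
  | cons F τ ih =>
    rw [wsum_suc_cons]
    have h1 : F.1 ≠ 0 := by
      have := hpos F List.mem_cons_self
      omega
    rw [if_neg h1, mul_zero, mul_zero, zero_add, zero_add]
    exact ih fun G hG => hpos G (List.mem_cons_of_mem _ hG)

/-- the all-ones states -/
private theorem m11d_ones (n : ℕ) :
    PS 1 n (fun p => if top3 (hd p) ≤ 1 then (1 : ℝ) else 0) ≤ 1 := by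
  induction n with
  | zero =>
    rw [PS_zero]
    split_ifs <;> norm_num
  | succ n ih =>
    rw [PS_succ]
    refine le_trans (PS_mono 1 n _ _ fun p hp => ?_) ih
    have hv := hp.vs le_rfl
    have h1 : wsum (suc 1 (hd p)) (fun h σ => if top3 (hd ((h, σ) :: p)) ≤ 1 then (1 : ℝ) else 0) ≤
        wsum (suc 1 (hd p)) (fun h _ => (if top3 (hd p) ≤ 1 then (1 : ℝ) else 0) *
          (if h = 0 then (1 : ℝ) else 0)) := by
      refine wsum_mono _ _ _ fun x hx hx0 => ?_
      obtain ⟨g1, _, g3, _⟩ := suc_top 1 n (hd p) hv x hx hx0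
      have e : hd ((x.2.1, x.2.2) :: p) = x.2.2 := rfl
      rw [e]
      by_cases h2 : top3 x.2.2 ≤ 1
      · rw [if_pos h2, if_pos (by omega), if_pos (by omega), one_mul]
      · rw [if_neg h2]
        split_ifs <;> norm_num
    rw [wsum_mul, m11d_append _ (fun F hF => (hv.pos F hF).1), mul_one] at h1
    exact h1

private theorem m11d_EM_ones (n : ℕ) :
    EM n (fun σ => (n : ℝ) * (if top3 σ ≤ 1 then 1 else 0)) ≤ (n : ℝ) / (n.factorial : ℝ) := by
  rw [EM_mul, EM, div_eq_mul_inv, div_eq_mul_inv]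
  refine mul_le_mul_of_nonneg_left ?_ (Nat.cast_nonneg _)
  have h1 := m11d_ones n
  have h2 : (0 : ℝ) ≤ ((n.factorial : ℝ))⁻¹ := by positivity
  calc _ ≤ 1 * ((n.factorial : ℝ))⁻¹ := mul_le_mul_of_nonneg_right h1 h2
    _ = _ := one_mul _

/-- `(n+1) Vf = ntf (…) + ntf (…)` plus the all-ones state at time `n+1`, `gen_Cf`,
`n + 1 - topN σ ≤ sz O + 1` on ties, `S1_le`, `S2_ge`. -/
theorem main_split (n : ℕ) (hn : 1 ≤ n) :
    S1 (n + 1) - S2 n - tiny n ≤ ((n : ℝ) + 1) * (EM (n + 1) Vf - EM (n + 1) Cf) := by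
  have h1 := S1_le n hn
  have h2 := S2_ge n hn
  have hn0 : (0 : ℝ) < (n : ℝ) + 1 := by positivity
  -- the near ties
  have h3 : EM (n + 1) (ntf fun F B _ => ((sz F : ℝ) + sz B - 1) *
        ((lsz B : ℝ) * ((sz B : ℝ) + 1))) +
      EM (n + 1) (ntf fun _ B O => ((sz O : ℝ) + 1) * ((lsz B : ℝ) * ((sz B : ℝ) + 1))) ≤
      ((n : ℝ) + 1) * EM (n + 1) Vf := by
    rw [← EM_add, ← EM_mul]
    exact EM_mono (n + 1) _ _ fun σ hσ => m11d_Vf n σ hσ
  -- the ties
  have h4 : ((n : ℝ) + 1) * EM (n + 1) Cf =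
      EM n (fun σ => ((n : ℝ) + 1 - topN σ) * Cf σ + topN σ * Vf σ) := by
    rw [EM_succ, mul_div_cancel₀ _ (ne_of_gt hn0)]
    exact EM_congr n _ _ fun σ hσ => gen_Cf n hn σ hσ
  have h5 : EM n (fun σ => ((n : ℝ) + 1 - topN σ) * Cf σ + topN σ * Vf σ) ≤
      EM n (fun σ => cutS σ fun F V => cutS V fun B O =>
        if AL (top3 σ) F ∧ AL (top3 σ) B then ((sz O : ℝ) + 1) * ((lsz F : ℝ) * (lsz B : ℝ))
          else 0) +
      (EM n (ntf fun F B _ => (sz F : ℝ) * ((lsz B : ℝ) * ((sz B : ℝ) + 1))) +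
        EM n (fun σ => (n : ℝ) * (if top3 σ ≤ 1 then 1 else 0))) := by
    rw [← EM_add, ← EM_add]
    exact EM_mono n _ _ fun σ hσ => add_le_add (m11d_Cf n σ hσ) (m11d_top n σ hσ)
  have h6 := m11d_EM_ones n
  have h7 : tiny n = (n : ℝ) / (n.factorial : ℝ) + (n : ℝ) ^ 3 / (n.factorial : ℝ) := by
    unfold tiny
    rw [add_div]
  rw [h7, mul_sub, h4]
  linarith

end Pool.ADM
end

section

/-! job ADM-28b: the loss by the ties in terms of the pure core masses. -/

set_option autoImplicit false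

namespace Pool.ADM

open Finset

private theorem M28b_rho_pos (a b : ℕ) : 0 < rho a b := by
  unfold rho
  positivity

private theorem M28b_q2s_nonneg (a D n : ℕ) (h : a ≤ n) : 0 ≤ q2s a D n := by
  unfold q2s
  refine Finset.sum_nonneg fun β hβ => ?_
  rw [Finset.mem_Icc] at hβ
  exact mul_nonneg (q2_nonneg β a D) (psi_nonneg β a n h (by omega))

/-- the coefficient of `Vm` -/
private noncomputable def M28b_K (n d e b x J : ℕ) : ℝ :=
  ((x : ℝ) + J + 1) * max 0 (1 - rho (d + e) b) / rho d b * (((d : ℝ) + e) / d) *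
    (((n : ℝ) - e) / n) * q2s (d + e) d n

private theorem M28b_K_nonneg (n d e b x J : ℕ) (h : d + e ≤ n) : 0 ≤ M28b_K n d e b x J := by
  unfold M28b_K
  have h1 := M28b_rho_pos d b
  have h2 : (0 : ℝ) ≤ (n : ℝ) - e := by
    have : (e : ℝ) ≤ n := by exact_mod_cast (by omega : e ≤ n)
    linarith
  have h3 := M28b_q2s_nonneg (d + e) d n h
  have h4 : (0 : ℝ) ≤ max 0 (1 - rho (d + e) b) := le_max_left _ _
  positivity

private theorem M28b_K_mono (n d e b x b' x' J : ℕ) (h : d + e ≤ n) (hb : b' ≤ b)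
    (hx : x ≤ x' + J) : M28b_K n d e b x 0 ≤ M28b_K n d e b' x' J := by
  unfold M28b_K
  have h1 := M28b_rho_pos d b
  have h1' := M28b_rho_pos d b'
  have h2 : (0 : ℝ) ≤ (n : ℝ) - e := by
    have : (e : ℝ) ≤ n := by exact_mod_cast (by omega : e ≤ n)
    linarith
  have h3 := M28b_q2s_nonneg (d + e) d n h
  have h4 : (0 : ℝ) ≤ max 0 (1 - rho (d + e) b) := le_max_left _ _
  have h4' : (0 : ℝ) ≤ max 0 (1 - rho (d + e) b') := le_max_left _ _
  have h5 : max 0 (1 - rho (d + e) b) ≤ max 0 (1 - rho (d + e) b') := by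
    apply max_le_max le_rfl
    have := rho_mono (d + e) b' b hb
    linarith
  have h6 := rho_mono d b' b hb
  have h7 : (x : ℝ) + (0 : ℕ) + 1 ≤ (x' : ℝ) + J + 1 := by
    have : (x : ℝ) ≤ ((x' + J : ℕ) : ℝ) := by exact_mod_cast hx
    push_cast at this
    simpa using this
  have h8 : ((x : ℝ) + (0 : ℕ) + 1) * max 0 (1 - rho (d + e) b) / rho d b ≤
      ((x' : ℝ) + J + 1) * max 0 (1 - rho (d + e) b') / rho d b' := by
    apply div_le_div₀
    · positivity
    · exact mul_le_mul h7 h5 h4 (by positivity)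
    · exact h1'
    · exact h6
  gcongr

/-- one class -/
private theorem M28b_class (n d e b x : ℕ) (hd : 2 ≤ d) (he : 1 ≤ e) (hb : 1 ≤ b)
    (hn : d + e + b + x = n) :
    ((x : ℝ) + 1) * max 0 (1 - rho (d + e) b) * Xm d (d + e) b x ≤
      M28b_K n d e b x 0 * Vm (d + 1) (d + 1) b x := by
  have hX := Xm_le d (d + e) b x (by omega) (by omega) hb
  have hV := Vm_carry d d b x (by omega) le_rfl hb
  have hr := M28b_rho_pos d b
  have hq : ∑ β ∈ Icc 1 (d + e), q2 β (d + e) d * psi β (d + e) (d + e + b + x) =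
      q2s (d + e) d n := by
    unfold q2s
    have hI : Icc 1 (d + e) = insert 1 (Icc 2 (d + e)) := by
      ext i
      simp only [Finset.mem_insert, Finset.mem_Icc]
      omega
    rw [hI, Finset.sum_insert (by simp), (q_one (d + e) d (by omega)).2, zero_mul, zero_add, hn]
  rw [hq] at hX
  have hn' : ((n : ℕ) : ℝ) = d + e + b + x := by
    rw [← hn]
    push_cast
    ring
  have hXV : Xm d d b x ≤ Vm (d + 1) (d + 1) b x / rho d b := by
    rw [le_div_iff₀ hr, mul_comm]
    exact hV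
  have hqs := M28b_q2s_nonneg (d + e) d n (by omega)
  have hd0 : (0 : ℝ) < d := by exact_mod_cast (by omega : 0 < d)
  have hc : (0 : ℝ) ≤ ((d : ℝ) + b + x) / (((d + e : ℕ) : ℝ) + b + x) * (((d + e : ℕ) : ℝ) / d) *
      q2s (d + e) d n := by positivity
  have h1 : Xm d (d + e) b x ≤ ((d : ℝ) + b + x) / (((d + e : ℕ) : ℝ) + b + x) *
      (((d + e : ℕ) : ℝ) / d) * q2s (d + e) d n * (Vm (d + 1) (d + 1) b x / rho d b) :=
    hX.trans (mul_le_mul_of_nonneg_left hXV hc)
  have hm : (0 : ℝ) ≤ ((x : ℝ) + 1) * max 0 (1 - rho (d + e) b) :=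
    mul_nonneg (by positivity) (le_max_left _ _)
  refine (mul_le_mul_of_nonneg_left h1 hm).trans (le_of_eq ?_)
  unfold M28b_K
  have e1 : ((d : ℝ) + b + x) / (((d + e : ℕ) : ℝ) + b + x) = ((n : ℝ) - e) / n := by
    rw [hn']
    push_cast
    congr 1
    ring
  rw [e1]
  push_cast
  ring

/-- the terms after the expansion -/
private noncomputable def M28b_G (n d e w x : ℕ) : ℝ :=
  if 2 * (d + 1) - 1 + w + x ≤ n + 1 - e then
    M28b_K n d e (d + w) x (n + 1 - e - (2 * (d + 1) - 1 + w + x)) * zz (d + 1) w x *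
      fi (n + 1 - e - (2 * (d + 1) - 1 + w + x))
  else 0

private theorem M28b_block (n d e : ℕ) (hd : 2 ≤ d) (he : 1 ≤ e) (hen : e ≤ n) :
    ∑ b ∈ Icc 1 n, ∑ x ∈ range (n + 1),
      (if d + e + b + x = n then M28b_K n d e b x 0 * Vm (d + 1) (d + 1) b x else 0) ≤
      ∑ w ∈ range (n + 1), ∑ x ∈ range (n + 1), M28b_G n d e w x := by
  by_cases h : d + e ≤ n
  · have h1 := Vm_expand (d + 1) (n + 1 - e) (by omega) (fun b x => M28b_K n d e b x 0)
      (fun b x J => M28b_K n d e b x J)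
      (fun b x b' x' hb hx _ _ ht => M28b_K_mono n d e b x b' x' _ h hb (by omega))
      (fun b x => M28b_K_nonneg n d e b x 0 h)
    have h2 : ∑ b ∈ Icc 1 n, ∑ x ∈ range (n + 1),
        (if d + e + b + x = n then M28b_K n d e b x 0 * Vm (d + 1) (d + 1) b x else 0) =
        ∑ b ∈ Icc 1 (n + 1 - e), ∑ x ∈ range (n + 1 - e + 1),
          (if d + 1 + b + x = n + 1 - e then M28b_K n d e b x 0 * Vm (d + 1) (d + 1) b x
            else 0) := by
      symm
      have h3 : ∀ b, ∑ x ∈ range (n + 1 - e + 1),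
          (if d + 1 + b + x = n + 1 - e then M28b_K n d e b x 0 * Vm (d + 1) (d + 1) b x else 0) =
          ∑ x ∈ range (n + 1),
          (if d + e + b + x = n then M28b_K n d e b x 0 * Vm (d + 1) (d + 1) b x else 0) := by
        intro b
        have h4 : ∀ x, (if d + 1 + b + x = n + 1 - e then
            M28b_K n d e b x 0 * Vm (d + 1) (d + 1) b x else 0) =
            (if d + e + b + x = n then M28b_K n d e b x 0 * Vm (d + 1) (d + 1) b x else 0) := by
          intro x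
          by_cases h5 : d + e + b + x = n
          · rw [if_pos h5, if_pos (by omega)]
          · rw [if_neg h5, if_neg (by omega)]
        simp only [h4]
        apply Finset.sum_subset
        · intro x hx
          rw [Finset.mem_range] at hx ⊢
          omega
        · intro x _ hx
          rw [Finset.mem_range] at hx
          rw [if_neg (by omega)]
      simp only [h3]
      apply Finset.sum_subset
      · intro b hb
        rw [Finset.mem_Icc] at hb ⊢
        omega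
      · intro b hb hb'
        rw [Finset.mem_Icc] at hb hb'
        refine Finset.sum_eq_zero fun x _ => ?_
        rw [if_neg (by omega)]
    rw [h2]
    refine h1.trans (le_of_eq ?_)
    have e1 : d + 1 - 1 = d := by omega
    simp only [e1]
    have h3 : ∀ w, ∑ x ∈ range (n + 1 - e + 1), M28b_G n d e w x =
        ∑ x ∈ range (n + 1), M28b_G n d e w x := by
      intro w
      apply Finset.sum_subset
      · intro x hx
        rw [Finset.mem_range] at hx ⊢
        omega
      · intro x _ hx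
        rw [Finset.mem_range] at hx
        unfold M28b_G
        rw [if_neg (by omega)]
    have h4 : ∑ w ∈ range (n + 1 - e + 1), ∑ x ∈ range (n + 1 - e + 1), M28b_G n d e w x =
        ∑ w ∈ range (n + 1), ∑ x ∈ range (n + 1), M28b_G n d e w x := by
      simp only [h3]
      apply Finset.sum_subset
      · intro x hx
        rw [Finset.mem_range] at hx ⊢
        omega
      · intro w _ hw
        rw [Finset.mem_range] at hw
        refine Finset.sum_eq_zero fun x _ => ?_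
        unfold M28b_G
        rw [if_neg (by omega)]
    rw [← h4]
    rfl
  · have h1 : ∑ b ∈ Icc 1 n, ∑ x ∈ range (n + 1),
        (if d + e + b + x = n then M28b_K n d e b x 0 * Vm (d + 1) (d + 1) b x else 0) = 0 := by
      refine Finset.sum_eq_zero fun b _ => Finset.sum_eq_zero fun x _ => ?_
      rw [if_neg (by omega)]
    have h2 : ∑ w ∈ range (n + 1), ∑ x ∈ range (n + 1), M28b_G n d e w x = 0 := by
      refine Finset.sum_eq_zero fun b _ => Finset.sum_eq_zero fun x _ => ?_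
      unfold M28b_G
      rw [if_neg (by omega)]
    rw [h1, h2]

private theorem M28b_shift (h : ℕ → ℝ) (hh : ∀ e, 0 ≤ h e) (d n : ℕ) :
    ∑ a ∈ Icc 1 n, (if d < a then h (a - d) else 0) ≤ ∑ e ∈ Icc 1 n, h e := by
  rw [← Finset.sum_filter]
  have hinj : Set.InjOn (fun a => a - d) ((Icc 1 n).filter fun a => d < a : Finset ℕ) := by
    intro a ha b hb hab
    rw [Finset.mem_coe, Finset.mem_filter] at ha hb
    have : a - d = b - d := hab
    omega
  have e1 : ∑ a ∈ (Icc 1 n).filter (fun a => d < a), h (a - d) =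
      ∑ e ∈ ((Icc 1 n).filter fun a => d < a).image (fun a => a - d), h e := by
    rw [Finset.sum_image hinj]
  rw [e1]
  refine Finset.sum_le_sum_of_subset_of_nonneg ?_ fun e _ _ => hh e
  intro e he
  rw [Finset.mem_image] at he
  obtain ⟨a, ha, rfl⟩ := he
  rw [Finset.mem_filter, Finset.mem_Icc] at ha
  rw [Finset.mem_Icc]
  omega

/-- For a class `(d, a, b, x)`, `a = d + e`, `e ≥ 1` (for `e = 0` there is no loss, `rho_pure`):
`Xm_le` (the term `β = 1` vanishes, `q_one`), `Vm_carry` for `a = d`, `Vm_expand` for `D = d + 1`,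
`t = n - e + 1`. -/
theorem S2_le (n : ℕ) (hn : 2 ≤ n) :
    S2 n ≤ ∑ w ∈ range (n + 1), ∑ x ∈ range (n + 1), ∑ D ∈ Icc 3 (n + 1),
      zz D w x * ((D : ℝ) + 1 + w) * ∑ J ∈ range (n + 1),
        if 2 * D - 1 + w + x + J ≤ n then
          fi J * Hw w x J n (D - 1) (n + 1 - (2 * D - 1 + w + x + J)) *
            q2s (D - 1 + (n + 1 - (2 * D - 1 + w + x + J))) (D - 1) n
        else 0 := by
  have hA : S2 n ≤ ∑ d ∈ Icc 2 n, ∑ e ∈ Icc 1 n, ∑ w ∈ range (n + 1), ∑ x ∈ range (n + 1),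
      M28b_G n d e w x := by
    unfold S2
    refine Finset.sum_le_sum fun d hd => ?_
    rw [Finset.mem_Icc] at hd
    have h1 : ∀ a ∈ Icc 1 n, ∑ b ∈ Icc 1 n, ∑ x ∈ range (n + 1),
        (if a + b + x = n then ((x : ℝ) + 1) * max 0 (1 - rho a b) * Xm d a b x else 0) ≤
        if d < a then ∑ b ∈ Icc 1 n, ∑ x ∈ range (n + 1),
          (if d + (a - d) + b + x = n then
            M28b_K n d (a - d) b x 0 * Vm (d + 1) (d + 1) b x else 0) else 0 := by
      intro a ha
      rw [Finset.mem_Icc] at ha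
      split_ifs with hda
      · refine Finset.sum_le_sum fun b hb => Finset.sum_le_sum fun x _ => ?_
        rw [Finset.mem_Icc] at hb
        have e1 : d + (a - d) = a := by omega
        by_cases h2 : a + b + x = n
        · rw [if_pos h2, if_pos (by omega)]
          have h3 := M28b_class n d (a - d) b x hd.1 (by omega) hb.1 (by omega)
          rw [e1] at h3
          exact h3
        · rw [if_neg h2, if_neg (by omega)]
      · apply le_of_eq
        refine Finset.sum_eq_zero fun b hb => Finset.sum_eq_zero fun x _ => ?_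
        split_ifs with h2
        · by_cases h3 : a < d ∨ b < d
          · rw [Xm_zero d a b x h3 (by omega), mul_zero]
          · have h4 : a ≤ b := by omega
            have h5 := rho_pure a b h4
            rw [max_eq_left (by linarith), mul_zero, zero_mul]
        · rfl
    refine (Finset.sum_le_sum h1).trans ?_
    refine (M28b_shift (fun e => ∑ b ∈ Icc 1 n, ∑ x ∈ range (n + 1),
      (if d + e + b + x = n then M28b_K n d e b x 0 * Vm (d + 1) (d + 1) b x else 0))
      (fun e => Finset.sum_nonneg fun b _ => Finset.sum_nonneg fun x _ => by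
        split_ifs with h2
        · exact mul_nonneg (M28b_K_nonneg n d e b x 0 (by omega)) (Vm_nonneg _ _ _ _)
        · exact le_rfl) d n).trans ?_
    refine Finset.sum_le_sum fun e he => ?_
    rw [Finset.mem_Icc] at he
    exact M28b_block n d e hd.1 he.1 he.2
  refine hA.trans (le_of_eq ?_)
  have hB : ∑ d ∈ Icc 2 n, ∑ e ∈ Icc 1 n, ∑ w ∈ range (n + 1), ∑ x ∈ range (n + 1),
      M28b_G n d e w x = ∑ w ∈ range (n + 1), ∑ x ∈ range (n + 1), ∑ d ∈ Icc 2 n, ∑ e ∈ Icc 1 n,
      M28b_G n d e w x := by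
    calc ∑ d ∈ Icc 2 n, ∑ e ∈ Icc 1 n, ∑ w ∈ range (n + 1), ∑ x ∈ range (n + 1),
          M28b_G n d e w x
        = ∑ d ∈ Icc 2 n, ∑ w ∈ range (n + 1), ∑ e ∈ Icc 1 n, ∑ x ∈ range (n + 1),
          M28b_G n d e w x := Finset.sum_congr rfl fun d _ => Finset.sum_comm
      _ = ∑ w ∈ range (n + 1), ∑ d ∈ Icc 2 n, ∑ e ∈ Icc 1 n, ∑ x ∈ range (n + 1),
          M28b_G n d e w x := Finset.sum_comm
      _ = ∑ w ∈ range (n + 1), ∑ d ∈ Icc 2 n, ∑ x ∈ range (n + 1), ∑ e ∈ Icc 1 n,
          M28b_G n d e w x := Finset.sum_congr rfl fun w _ => Finset.sum_congr rfl fun d _ =>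
            Finset.sum_comm
      _ = _ := Finset.sum_congr rfl fun w _ => Finset.sum_comm
  rw [hB]
  refine Finset.sum_congr rfl fun w _ => Finset.sum_congr rfl fun x _ => ?_
  refine Finset.sum_nbij' (fun d => d + 1) (fun D => D - 1) ?_ ?_ ?_ ?_ ?_
  · intro d hd
    rw [Finset.mem_Icc] at hd ⊢
    omega
  · intro d hd
    rw [Finset.mem_Icc] at hd ⊢
    omega
  · intro d _
    exact Nat.add_sub_cancel d 1
  · intro D hD
    rw [Finset.mem_Icc] at hD
    exact Nat.sub_add_cancel (by omega)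
  · intro d hd
    rw [Finset.mem_Icc] at hd
    rw [Finset.mul_sum]
    have e1 : d + 1 - 1 = d := by omega
    simp only [e1, M28b_G, mul_ite, mul_zero]
    rw [← Finset.sum_filter, ← Finset.sum_filter]
    refine Finset.sum_nbij' (fun e => n + 1 - e - (2 * (d + 1) - 1 + w + x))
      (fun J => n + 1 - (2 * (d + 1) - 1 + w + x + J)) ?_ ?_ ?_ ?_ ?_
    · intro e he
      rw [Finset.mem_filter, Finset.mem_Icc] at he
      rw [Finset.mem_filter, Finset.mem_range]
      omega
    · intro J hJ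
      rw [Finset.mem_filter, Finset.mem_range] at hJ
      rw [Finset.mem_filter, Finset.mem_Icc]
      omega
    · intro e he
      rw [Finset.mem_filter, Finset.mem_Icc] at he
      omega
    · intro J hJ
      rw [Finset.mem_filter, Finset.mem_range] at hJ
      omega
    · intro e he
      rw [Finset.mem_filter, Finset.mem_Icc] at he
      have e2 : n + 1 - (2 * (d + 1) - 1 + w + x + (n + 1 - e - (2 * (d + 1) - 1 + w + x))) = e := by
        omega
      rw [e2]
      generalize n + 1 - e - (2 * (d + 1) - 1 + w + x) = J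
      unfold M28b_K Hw
      have h0 : ((d : ℝ) + 2 + w) ≠ 0 := by positivity
      have e3 : (((d + 1 : ℕ) : ℝ) + 1 + w) = (d : ℝ) + 2 + w := by
        push_cast
        ring
      rw [e3]
      field_simp

end Pool.ADM
end

section

/-! job ADM-30a: regrouping along the chain, for fixed `w, x`.  `y D = zz D w x * (D + 1 + w)` is
nondecreasing for `D ≥ 2` (`zz_mono`). -/

set_option autoImplicit false

namespace Pool.ADM

open Finset

private theorem M30a_fi_nonneg (j : ℕ) : 0 ≤ fi j := by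
  unfold fi
  positivity

private theorem M30a_dev_nonneg (a M j : ℕ) : 0 ≤ dev a M j := by
  unfold dev
  split_ifs
  · exact le_rfl
  · exact mul_nonneg (le_max_right _ _) (M30a_fi_nonneg j)

private theorem M30a_q1s_nonneg (a D n : ℕ) (h : a ≤ n) : 0 ≤ q1s a D n := by
  unfold q1s
  refine sum_nonneg fun β hβ => mul_nonneg (q1_nonneg β a D) (psi_nonneg β a n h ?_)
  rw [mem_Icc] at hβ
  omega

private theorem M30a_y_nonneg (D w x : ℕ) : 0 ≤ zz D w x * ((D : ℝ) + 1 + w) :=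
  mul_nonneg (zz_nonneg D w x) (by positivity)

private theorem M30a_y_mono (w x D k : ℕ) (hD : 2 ≤ D) :
    zz D w x * ((D : ℝ) + 1 + w) ≤ zz (D + k) w x * (((D + k : ℕ) : ℝ) + 1 + w) := by
  induction k with
  | zero => simp
  | succ k ih =>
    refine ih.trans ?_
    have := zz_mono (D + k) w x (by omega)
    have h1 : (((D + (k + 1) : ℕ) : ℝ)) = ((D + k : ℕ) : ℝ) + 1 := by push_cast; ring
    rw [h1]
    rw [show D + (k + 1) = D + k + 1 from rfl]
    nlinarith [this]

private theorem M30a_Gev_nonneg (D w x j k : ℕ) (hk : k + 2 ≤ D) : 0 ≤ Gev D w x j k := by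
  unfold Gev
  have hk' : (k : ℝ) + 2 ≤ D := by exact_mod_cast hk
  have hw : (0 : ℝ) ≤ w := Nat.cast_nonneg _
  have hx : (0 : ℝ) ≤ x := Nat.cast_nonneg _
  have hk0 : (0 : ℝ) ≤ k := Nat.cast_nonneg _
  refine div_nonneg (div_nonneg (mul_nonneg (M30a_dev_nonneg _ _ _) ?_) ?_) ?_ <;> linarith

private theorem M30a_God_nonneg (D w x j k : ℕ) (hk : k + 2 ≤ D) : 0 ≤ God D w x j k := by
  unfold God
  have hk' : (k : ℝ) + 2 ≤ D := by exact_mod_cast hk
  have hw : (0 : ℝ) ≤ w := Nat.cast_nonneg _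
  have hx : (0 : ℝ) ≤ x := Nat.cast_nonneg _
  have hk0 : (0 : ℝ) ≤ k := Nat.cast_nonneg _
  refine div_nonneg (div_nonneg (mul_nonneg (M30a_dev_nonneg _ _ _) ?_) ?_) ?_ <;> linarith

/-- one regrouped term: `p = (D, par, k)` -/
private noncomputable def M30a_g (N w x : ℕ) (p : ℕ × ℕ × ℕ) : ℝ :=
  if 2 * p.1 - 1 + w + x + p.2.1 ≤ N ∧ 1 ≤ p.2.2 ∧ p.2.2 + 2 ≤ p.1 then
    zz p.1 w x * ((p.1 : ℝ) + 1 + w) *
      (if p.2.1 = 0 then
        Gev p.1 w x (N - (2 * p.1 - 1 + w + x)) p.2.2 *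
          q1s (p.1 + p.2.2) (p.1 - p.2.2) (2 * p.1 - 1 + w + x)
      else
        God p.1 w x (N - (2 * p.1 - 1 + w + x)) p.2.2 *
          q1s (p.1 + p.2.2 + 1) (p.1 - p.2.2) (2 * p.1 + w + x))
  else 0

private theorem M30a_g_nonneg (N w x : ℕ) (p : ℕ × ℕ × ℕ) : 0 ≤ M30a_g N w x p := by
  unfold M30a_g
  split_ifs with h h2
  · obtain ⟨h1, h3, h4⟩ := h
    exact mul_nonneg (M30a_y_nonneg _ _ _) (mul_nonneg (M30a_Gev_nonneg _ _ _ _ _ h4)
      (M30a_q1s_nonneg _ _ _ (by omega)))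
  · obtain ⟨h1, h3, h4⟩ := h
    exact mul_nonneg (M30a_y_nonneg _ _ _) (mul_nonneg (M30a_God_nonneg _ _ _ _ _ h4)
      (M30a_q1s_nonneg _ _ _ (by omega)))
  · exact le_rfl

/-- the term of the left side -/
private noncomputable def M30a_f (N w x : ℕ) (q : ℕ × ℕ) : ℝ :=
  if 2 * q.1 - 1 + w + x + q.2 ≤ N then
          zz q.1 w x * (dev (q.1 + q.2) (2 * q.1 - 1 + w + q.2)
              (N - (2 * q.1 - 1 + w + x + q.2)) *
            ((2 * (q.1 : ℝ) - 1 + w + x) / (2 * q.1 - 1 + w + x + q.2)) *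
            q1s (q.1 + q.2) q.1 (2 * q.1 - 1 + w + x + q.2)) else 0

/-- the reindexing -/
private def M30a_i (q : ℕ × ℕ) : ℕ × ℕ × ℕ := (q.1 + q.2 / 2, q.2 % 2, q.2 / 2)

private theorem M30a_fg (N w x D e : ℕ) (hD : 2 ≤ D) (he : 2 ≤ e)
    (h : 2 * D - 1 + w + x + e ≤ N) :
    M30a_f N w x (D, e) ≤ M30a_g N w x (M30a_i (D, e)) := by
  unfold M30a_f M30a_g M30a_i
  simp only
  rw [if_pos h]
  obtain ⟨k, par, hk, hpar, hkp⟩ : ∃ k par, e / 2 = k ∧ e % 2 = par ∧ e = 2 * k + par :=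
    ⟨_, _, rfl, rfl, (Nat.div_add_mod e 2).symm⟩
  have hp1 : par ≤ 1 := by omega
  rw [hk, hpar]
  have hc : 2 * (D + k) - 1 + w + x + par ≤ N ∧ 1 ≤ k ∧ k + 2 ≤ D + k := by omega
  rw [if_pos hc]
  have hy := M30a_y_mono w x D k hD
  have hD' : (2 : ℝ) ≤ D := by exact_mod_cast hD
  have hw : (0 : ℝ) ≤ w := Nat.cast_nonneg _
  have hx : (0 : ℝ) ≤ x := Nat.cast_nonneg _
  have hk0 : (0 : ℝ) ≤ k := Nat.cast_nonneg _
  have hd : D + k - k = D := by omega
  rw [hd]
  rcases Nat.eq_zero_or_pos par with h0 | h0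
  · subst h0
    rw [if_pos rfl]
    have hG := M30a_Gev_nonneg (D + k) w x (N - (2 * (D + k) - 1 + w + x)) k (by omega)
    have hq := M30a_q1s_nonneg (D + k + k) D (2 * (D + k) - 1 + w + x) (by omega)
    refine le_trans (le_of_eq ?_) (mul_le_mul_of_nonneg_right hy (mul_nonneg hG hq))
    unfold Gev
    have a1 : D + e = D + k + k := by omega
    have a2 : 2 * D - 1 + w + e = 2 * (D + k) - 1 + w := by omega
    have a3 : 2 * D - 1 + w + x + e = 2 * (D + k) - 1 + w + x := by omega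
    rw [a1, a2, a3, hkp]
    push_cast
    have n1 : (D : ℝ) + k - k + 1 + w ≠ 0 := by
      have : (0 : ℝ) < (D : ℝ) + k - k + 1 + w := by linarith
      exact this.ne'
    have n2 : (2 * ((D : ℝ) + k) - 1 + w + x) ≠ 0 := by
      have : (0 : ℝ) < (2 * ((D : ℝ) + k) - 1 + w + x) := by linarith
      exact this.ne'
    have n3 : (2 * (D : ℝ) - 1 + w + x + (2 * k + 0)) ≠ 0 := by
      have : (0 : ℝ) < (2 * (D : ℝ) - 1 + w + x + (2 * k + 0)) := by linarith
      exact this.ne'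
    have e1 : (2 * (D : ℝ) - 1 + w + x) / (2 * (D : ℝ) - 1 + w + x + (2 * k + 0)) =
        (2 * ((D : ℝ) + k) - 1 + w + x - 2 * k) / (2 * ((D : ℝ) + k) - 1 + w + x) := by
      rw [div_eq_div_iff n3 n2]
      ring
    have e2 : (D : ℝ) + 1 + w = (D : ℝ) + k - k + 1 + w := by ring
    rw [e1, e2]
    field_simp
  · have h1 : par = 1 := by omega
    subst h1
    rw [if_neg (by omega)]
    have hG := M30a_God_nonneg (D + k) w x (N - (2 * (D + k) - 1 + w + x)) k (by omega)
    have hq := M30a_q1s_nonneg (D + k + k + 1) D (2 * (D + k) + w + x) (by omega)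
    refine le_trans (le_of_eq ?_) (mul_le_mul_of_nonneg_right hy (mul_nonneg hG hq))
    unfold God
    have a1 : D + e = D + k + k + 1 := by omega
    have a2 : 2 * D - 1 + w + e = 2 * (D + k) + w := by omega
    have a3 : 2 * D - 1 + w + x + e = 2 * (D + k) + w + x := by omega
    have a4 : N - (2 * (D + k) - 1 + w + x) - 1 = N - (2 * (D + k) + w + x) := by omega
    rw [a1, a2, a3, a4, hkp]
    push_cast
    have n1 : (D : ℝ) + k - k + 1 + w ≠ 0 := by
      have : (0 : ℝ) < (D : ℝ) + k - k + 1 + w := by linarith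
      exact this.ne'
    have n2 : (2 * ((D : ℝ) + k) + w + x) ≠ 0 := by
      have : (0 : ℝ) < (2 * ((D : ℝ) + k) + w + x) := by linarith
      exact this.ne'
    have n3 : (2 * (D : ℝ) - 1 + w + x + (2 * k + 1)) ≠ 0 := by
      have : (0 : ℝ) < (2 * (D : ℝ) - 1 + w + x + (2 * k + 1)) := by linarith
      exact this.ne'
    have e1 : (2 * (D : ℝ) - 1 + w + x) / (2 * (D : ℝ) - 1 + w + x + (2 * k + 1)) =
        (2 * ((D : ℝ) + k) - 1 + w + x - 2 * k) / (2 * ((D : ℝ) + k) + w + x) := by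
      rw [div_eq_div_iff n3 n2]
      ring
    have e2 : (D : ℝ) + 1 + w = (D : ℝ) + k - k + 1 + w := by ring
    rw [e1, e2]
    field_simp

/-- the inner sum is bounded by `Dc` -/
private theorem M30a_inner (N w x D : ℕ) (hD : 2 ≤ D) :
    ∑ p ∈ range 2 ×ˢ range (N + 1), M30a_g N w x (D, p.1, p.2) ≤
      if 2 * D - 1 + w + x ≤ N then
        zz D w x * ((D : ℝ) + 1 + w) * Dc D w x (N - (2 * D - 1 + w + x)) else 0 := by
  split_ifs with h
  · have h1 := Dc_bound D w x (N - (2 * D - 1 + w + x)) hD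
    refine le_trans (le_of_eq ?_) (mul_le_mul_of_nonneg_left h1 (M30a_y_nonneg D w x))
    rw [sum_product, sum_range_succ, sum_range_succ, sum_range_zero, zero_add, sum_add_distrib,
      mul_add, mul_sum, mul_sum]
    have sub : ∀ par, ∑ k ∈ range (N + 1), M30a_g N w x (D, par, k) =
        ∑ k ∈ Icc 1 (D - 2), M30a_g N w x (D, par, k) := by
      intro par
      symm
      apply sum_subset
      · intro k hk
        rw [mem_Icc] at hk
        rw [mem_range]
        omega
      · intro k _ hk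
        rw [mem_Icc] at hk
        unfold M30a_g
        rw [if_neg]
        simp only
        omega
    rw [sub, sub]
    congr 1
    · apply sum_congr rfl
      intro k hk
      rw [mem_Icc] at hk
      unfold M30a_g
      simp only
      rw [if_pos (by omega), if_pos True.intro]
    · apply sum_congr rfl
      intro k hk
      rw [mem_Icc] at hk
      unfold M30a_g
      simp only
      by_cases hN : 2 * D - 1 + w + x + 1 ≤ N
      · rw [if_pos (by omega), if_neg (by omega)]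
      · rw [if_neg (by omega)]
        have : N - (2 * D - 1 + w + x) = 0 := by omega
        rw [this]
        unfold God dev
        simp
  · apply le_of_eq
    apply sum_eq_zero
    intro p _
    unfold M30a_g
    rw [if_neg]
    simp only
    omega

/-- classes `(D, e)`, `e = 2k` or `2k+1`: move `y D` up to `y (D + k)`; `Dc_bound`. -/
theorem regroup_D (N w x : ℕ) :
    ∑ D ∈ Icc 2 N, ∑ e ∈ Icc 2 N, (if 2 * D - 1 + w + x + e ≤ N then
          zz D w x * (dev (D + e) (2 * D - 1 + w + e) (N - (2 * D - 1 + w + x + e)) *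
            ((2 * (D : ℝ) - 1 + w + x) / (2 * D - 1 + w + x + e)) *
            q1s (D + e) D (2 * D - 1 + w + x + e)) else 0) ≤
      ∑ D ∈ Icc 2 N, (if 2 * D - 1 + w + x ≤ N then
        zz D w x * ((D : ℝ) + 1 + w) * Dc D w x (N - (2 * D - 1 + w + x)) else 0) := by
  classical
  set S : Finset (ℕ × ℕ) := (Icc 2 N ×ˢ Icc 2 N).filter
    (fun q => 2 * q.1 - 1 + w + x + q.2 ≤ N) with hS
  have e1 : ∑ D ∈ Icc 2 N, ∑ e ∈ Icc 2 N, (if 2 * D - 1 + w + x + e ≤ N then
          zz D w x * (dev (D + e) (2 * D - 1 + w + e) (N - (2 * D - 1 + w + x + e)) *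
            ((2 * (D : ℝ) - 1 + w + x) / (2 * D - 1 + w + x + e)) *
            q1s (D + e) D (2 * D - 1 + w + x + e)) else 0) = ∑ q ∈ S, M30a_f N w x q := by
    rw [hS, sum_filter, sum_product]
    apply sum_congr rfl
    intro D _
    apply sum_congr rfl
    intro e _
    unfold M30a_f
    simp only
    by_cases h : 2 * D - 1 + w + x + e ≤ N
    · simp only [h, if_true]
    · simp only [h, if_false]
  rw [e1]
  have e2 : ∑ q ∈ S, M30a_f N w x q ≤ ∑ q ∈ S, M30a_g N w x (M30a_i q) := by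
    apply sum_le_sum
    rintro ⟨D, e⟩ hq
    rw [hS, mem_filter, mem_product, mem_Icc, mem_Icc] at hq
    exact M30a_fg N w x D e hq.1.1.1 hq.1.2.1 hq.2
  have inj : Set.InjOn M30a_i (S : Set (ℕ × ℕ)) := by
    rintro ⟨D, e⟩ hq ⟨D', e'⟩ hq' h
    unfold M30a_i at h
    simp only [Prod.mk.injEq] at h ⊢
    omega
  have e3 : ∑ q ∈ S, M30a_g N w x (M30a_i q) = ∑ p ∈ S.image M30a_i, M30a_g N w x p :=
    (sum_image (fun a ha b hb h => inj ha hb h)).symm
  have e4 : ∑ p ∈ S.image M30a_i, M30a_g N w x p ≤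
      ∑ p ∈ Icc 2 N ×ˢ (range 2 ×ˢ range (N + 1)), M30a_g N w x p := by
    apply sum_le_sum_of_subset_of_nonneg
    · intro p hp
      rw [mem_image] at hp
      obtain ⟨⟨D, e⟩, hq, rfl⟩ := hp
      rw [hS, mem_filter, mem_product, mem_Icc, mem_Icc] at hq
      simp only at hq
      unfold M30a_i
      simp only [mem_product, mem_Icc, mem_range]
      omega
    · intro p hp _
      exact M30a_g_nonneg N w x p
  have e5 : ∑ p ∈ Icc 2 N ×ˢ (range 2 ×ˢ range (N + 1)), M30a_g N w x p ≤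
      ∑ D ∈ Icc 2 N, (if 2 * D - 1 + w + x ≤ N then
        zz D w x * ((D : ℝ) + 1 + w) * Dc D w x (N - (2 * D - 1 + w + x)) else 0) := by
    rw [sum_product]
    apply sum_le_sum
    intro D hD
    rw [mem_Icc] at hD
    exact M30a_inner N w x D hD.1
  exact (e2.trans (e3.le.trans e4)).trans e5

end Pool.ADM
end

section

/-! job ADM-30b: regrouping along the chain, for fixed `w, x`.  `y D = zz D w x * (D + 1 + w)` is
nondecreasing for `D ≥ 2` (`zz_mono`). -/

set_option autoImplicit false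

namespace Pool.ADM

open Finset

private theorem M30b_rho_nonneg (a b : ℕ) : 0 ≤ rho a b := by
  unfold rho
  positivity

private theorem M30b_Hw_nonneg (w x J n d e : ℕ) (h : e ≤ n) : 0 ≤ Hw w x J n d e := by
  unfold Hw
  have h1 : (0 : ℝ) ≤ (n : ℝ) - e := by
    have : (e : ℝ) ≤ n := by exact_mod_cast h
    linarith
  have h2 := M30b_rho_nonneg d (d + w)
  have h3 : (0 : ℝ) ≤ max 0 (1 - rho (d + e) (d + w)) := le_max_left _ _
  positivity

private theorem M30b_q2s_nonneg (a D n : ℕ) (h : a ≤ n) : 0 ≤ q2s a D n := by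
  unfold q2s
  refine sum_nonneg fun β hβ => mul_nonneg (q2_nonneg β a D) (psi_nonneg β a n h ?_)
  have h2 := (Finset.mem_Icc.mp hβ)
  omega

private theorem M30b_fi_nonneg (j : ℕ) : 0 ≤ fi j := by
  unfold fi
  positivity

private theorem M30b_y_nonneg (D w x : ℕ) : 0 ≤ zz D w x * ((D : ℝ) + 1 + w) :=
  mul_nonneg (zz_nonneg D w x) (by positivity)

private theorem M30b_y_mono (w x D k : ℕ) (hD : 2 ≤ D) :
    zz D w x * ((D : ℝ) + 1 + w) ≤ zz (D + k) w x * (((D + k : ℕ) : ℝ) + 1 + w) := by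
  induction k with
  | zero => simp
  | succ k ih =>
    refine ih.trans ?_
    have := zz_mono (D + k) w x (by omega)
    have h1 : (((D + (k + 1) : ℕ) : ℝ)) = ((D + k : ℕ) : ℝ) + 1 := by push_cast; ring
    rw [h1]
    rw [show D + (k + 1) = D + k + 1 from rfl]
    nlinarith [this]

/-- one regrouped term: `p = (D, par, k)` -/
private noncomputable def M30b_g (n w x : ℕ) (p : ℕ × ℕ × ℕ) : ℝ :=
  if 2 * p.1 - 1 + w + x + p.2.1 ≤ n + 1 ∧ p.2.2 < p.1 - 2 then
    zz p.1 w x * ((p.1 : ℝ) + 1 + w) *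
      (fi (n + 1 - (2 * p.1 - 1 + w + x) - p.2.1) *
        (Hw w x (n + 1 - (2 * p.1 - 1 + w + x) - p.2.1) n (p.1 - 1 - p.2.2) (2 * p.2.2 + p.2.1) *
          q2s (p.1 - 1 + p.2.2 + p.2.1) (p.1 - 1 - p.2.2) n))
  else 0

private theorem M30b_g_nonneg (n w x : ℕ) (p : ℕ × ℕ × ℕ) (hp : p.2.1 ≤ 1) :
    0 ≤ M30b_g n w x p := by
  unfold M30b_g
  split_ifs with h
  · obtain ⟨h1, h2⟩ := h
    refine mul_nonneg (M30b_y_nonneg _ _ _) (mul_nonneg (M30b_fi_nonneg _)
      (mul_nonneg (M30b_Hw_nonneg _ _ _ _ _ _ (by omega)) (M30b_q2s_nonneg _ _ _ (by omega))))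
  · exact le_rfl

/-- the term of the left side -/
private noncomputable def M30b_f (n w x : ℕ) (q : ℕ × ℕ) : ℝ :=
  zz q.1 w x * ((q.1 : ℝ) + 1 + w) *
    (if 2 * q.1 - 1 + w + x + q.2 ≤ n then
          fi q.2 * Hw w x q.2 n (q.1 - 1) (n + 1 - (2 * q.1 - 1 + w + x + q.2)) *
            q2s (q.1 - 1 + (n + 1 - (2 * q.1 - 1 + w + x + q.2))) (q.1 - 1) n
        else 0)

/-- the reindexing -/
private def M30b_i (n w x : ℕ) (q : ℕ × ℕ) : ℕ × ℕ × ℕ :=
  (q.1 + (n + 1 - (2 * q.1 - 1 + w + x + q.2)) / 2, (n + 1 - (2 * q.1 - 1 + w + x + q.2)) % 2,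
    (n + 1 - (2 * q.1 - 1 + w + x + q.2)) / 2)

private theorem M30b_fg (n w x D J : ℕ) (hD : 3 ≤ D) (h : 2 * D - 1 + w + x + J ≤ n) :
    M30b_f n w x (D, J) ≤ M30b_g n w x (M30b_i n w x (D, J)) := by
  unfold M30b_f M30b_g M30b_i
  simp only
  obtain ⟨e, he⟩ : ∃ e, n + 1 - (2 * D - 1 + w + x + J) = e := ⟨_, rfl⟩
  rw [he, if_pos h]
  obtain ⟨k, par, hk, hpar, hkp⟩ : ∃ k par, e / 2 = k ∧ e % 2 = par ∧ e = 2 * k + par :=
    ⟨_, _, rfl, rfl, (Nat.div_add_mod e 2).symm⟩
  have hp1 : par ≤ 1 := by omega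
  rw [hk, hpar]
  have hc : 2 * (D + k) - 1 + w + x + par ≤ n + 1 ∧ k < D + k - 2 := by omega
  rw [if_pos hc]
  have hJ : n + 1 - (2 * (D + k) - 1 + w + x) - par = J := by omega
  have hd : D + k - 1 - k = D - 1 := by omega
  have hd2 : D + k - 1 + k + par = D - 1 + e := by omega
  rw [hJ, hd, hd2, ← hkp]
  have hy := M30b_y_mono w x D k (by omega)
  have h0 : 0 ≤ fi J * (Hw w x J n (D - 1) e * q2s (D - 1 + e) (D - 1) n) :=
    mul_nonneg (M30b_fi_nonneg _) (mul_nonneg (M30b_Hw_nonneg _ _ _ _ _ _ (by omega))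
      (M30b_q2s_nonneg _ _ _ (by omega)))
  calc zz D w x * ((D : ℝ) + 1 + w) * (fi J * Hw w x J n (D - 1) e * q2s (D - 1 + e) (D - 1) n)
      = zz D w x * ((D : ℝ) + 1 + w) *
          (fi J * (Hw w x J n (D - 1) e * q2s (D - 1 + e) (D - 1) n)) := by ring
    _ ≤ _ := mul_le_mul_of_nonneg_right hy h0

/-- the inner sum is bounded by `Hc` -/
private theorem M30b_inner (n w x D : ℕ) (hD : 3 ≤ D) :
    ∑ p ∈ range 2 ×ˢ range (n + 1), M30b_g n w x (D, p.1, p.2) ≤
      if 2 * D - 1 + w + x ≤ n + 1 then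
        zz D w x * ((D : ℝ) + 1 + w) * Hc D w x (n + 1 - (2 * D - 1 + w + x)) else 0 := by
  split_ifs with h
  · obtain ⟨j, hj⟩ : ∃ j, n + 1 - (2 * D - 1 + w + x) = j := ⟨_, rfl⟩
    rw [hj]
    have hn : n = 2 * D - 2 + w + x + j := by omega
    have key : ∀ par, par ≤ 1 → par ≤ j →
        ∑ k ∈ range (n + 1), M30b_g n w x (D, par, k) ≤
          zz D w x * ((D : ℝ) + 1 + w) * (fi (j - par) * Hp D w x (j - par) n par) := by
      intro par hp hpj
      have h1 := Hp_bound D w x (j - par) n par hD hp (by omega)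
      have h2 : ∑ k ∈ range (n + 1), M30b_g n w x (D, par, k) =
          ∑ k ∈ range (D - 2), M30b_g n w x (D, par, k) := by
        symm
        apply sum_subset
        · intro k hk
          rw [mem_range] at hk ⊢
          omega
        · intro k _ hk
          rw [mem_range] at hk
          unfold M30b_g
          rw [if_neg]
          simp only
          omega
      rw [h2]
      have h3 : ∑ k ∈ range (D - 2), M30b_g n w x (D, par, k) =
          zz D w x * ((D : ℝ) + 1 + w) * (fi (j - par) *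
            ∑ k ∈ range (D - 2), Hw w x (j - par) n (D - 1 - k) (2 * k + par) *
              q2s (D - 1 + k + par) (D - 1 - k) n) := by
        rw [mul_sum, mul_sum]
        apply sum_congr rfl
        intro k hk
        rw [mem_range] at hk
        unfold M30b_g
        simp only
        rw [if_pos (by omega), hj]
      rw [h3]
      exact mul_le_mul_of_nonneg_left (mul_le_mul_of_nonneg_left h1 (M30b_fi_nonneg _))
        (M30b_y_nonneg _ _ _)
    rw [sum_product, sum_range_succ, sum_range_succ, sum_range_zero, zero_add]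
    have k0 := key 0 (by omega) (by omega)
    have hz1 : ∑ k ∈ range (n + 1), M30b_g n w x (D, 1, k) ≤ zz D w x * ((D : ℝ) + 1 + w) *
        (if j = 0 then 0 else fi (j - 1) * Hp D w x (j - 1) (2 * D - 2 + w + x + j) 1) := by
      by_cases hj0 : j = 0
      · rw [if_pos hj0, mul_zero]
        apply le_of_eq
        apply sum_eq_zero
        intro k _
        unfold M30b_g
        rw [if_neg]
        simp only
        omega
      · rw [if_neg hj0, ← hn]
        exact key 1 le_rfl (by omega)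
    unfold Hc
    rw [Nat.sub_zero] at k0
    rw [← hn] at hz1 ⊢
    rw [mul_add]
    exact add_le_add k0 hz1
  · apply le_of_eq
    apply sum_eq_zero
    intro p _
    unfold M30b_g
    rw [if_neg]
    simp only
    omega

/-- ties: `e = 2k + par`, `J = j - par`; move `y D` up to `y (D + k)`; `Hp_bound`. -/
theorem regroup_H (n w x : ℕ) :
    ∑ D ∈ Icc 3 (n + 1), zz D w x * ((D : ℝ) + 1 + w) * ∑ J ∈ range (n + 1),
        (if 2 * D - 1 + w + x + J ≤ n then
          fi J * Hw w x J n (D - 1) (n + 1 - (2 * D - 1 + w + x + J)) *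
            q2s (D - 1 + (n + 1 - (2 * D - 1 + w + x + J))) (D - 1) n
        else 0) ≤
      ∑ D ∈ Icc 2 (n + 1), (if 2 * D - 1 + w + x ≤ n + 1 then
        zz D w x * ((D : ℝ) + 1 + w) * Hc D w x (n + 1 - (2 * D - 1 + w + x)) else 0) := by
  classical
  set S : Finset (ℕ × ℕ) := (Icc 3 (n + 1) ×ˢ range (n + 1)).filter
    (fun q => 2 * q.1 - 1 + w + x + q.2 ≤ n) with hS
  have e1 : ∑ D ∈ Icc 3 (n + 1), zz D w x * ((D : ℝ) + 1 + w) * ∑ J ∈ range (n + 1),
        (if 2 * D - 1 + w + x + J ≤ n then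
          fi J * Hw w x J n (D - 1) (n + 1 - (2 * D - 1 + w + x + J)) *
            q2s (D - 1 + (n + 1 - (2 * D - 1 + w + x + J))) (D - 1) n
        else 0) = ∑ q ∈ S, M30b_f n w x q := by
    rw [hS, sum_filter, sum_product]
    apply sum_congr rfl
    intro D _
    rw [mul_sum]
    apply sum_congr rfl
    intro J _
    unfold M30b_f
    simp only
    by_cases h : 2 * D - 1 + w + x + J ≤ n
    · simp only [h, if_true]
    · simp only [h, if_false, mul_zero]
  rw [e1]
  have e2 : ∑ q ∈ S, M30b_f n w x q ≤ ∑ q ∈ S, M30b_g n w x (M30b_i n w x q) := by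
    apply sum_le_sum
    rintro ⟨D, J⟩ hq
    rw [hS, mem_filter, mem_product, mem_Icc] at hq
    exact M30b_fg n w x D J hq.1.1.1 hq.2
  have inj : Set.InjOn (M30b_i n w x) (S : Set (ℕ × ℕ)) := by
    rintro ⟨D, J⟩ hq ⟨D', J'⟩ hq' h
    rw [mem_coe, hS, mem_filter, mem_product, mem_Icc] at hq hq'
    simp only at hq hq'
    unfold M30b_i at h
    simp only [Prod.mk.injEq] at h ⊢
    omega
  have e3 : ∑ q ∈ S, M30b_g n w x (M30b_i n w x q) = ∑ p ∈ S.image (M30b_i n w x), M30b_g n w x p :=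
    (sum_image (fun a ha b hb h => inj ha hb h)).symm
  have e4 : ∑ p ∈ S.image (M30b_i n w x), M30b_g n w x p ≤
      ∑ p ∈ Icc 3 (n + 1) ×ˢ (range 2 ×ˢ range (n + 1)), M30b_g n w x p := by
    apply sum_le_sum_of_subset_of_nonneg
    · intro p hp
      rw [mem_image] at hp
      obtain ⟨⟨D, J⟩, hq, rfl⟩ := hp
      rw [hS, mem_filter, mem_product, mem_Icc] at hq
      simp only at hq
      unfold M30b_i
      simp only [mem_product, mem_Icc, mem_range]
      omega
    · intro p hp _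
      rw [mem_product, mem_product, mem_range] at hp
      exact M30b_g_nonneg n w x p (by omega)
  have e5 : ∑ p ∈ Icc 3 (n + 1) ×ˢ (range 2 ×ˢ range (n + 1)), M30b_g n w x p ≤
      ∑ D ∈ Icc 3 (n + 1), (if 2 * D - 1 + w + x ≤ n + 1 then
        zz D w x * ((D : ℝ) + 1 + w) * Hc D w x (n + 1 - (2 * D - 1 + w + x)) else 0) := by
    rw [sum_product]
    apply sum_le_sum
    intro D hD
    rw [mem_Icc] at hD
    exact M30b_inner n w x D hD.1
  have e6 : ∑ D ∈ Icc 3 (n + 1), (if 2 * D - 1 + w + x ≤ n + 1 then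
        zz D w x * ((D : ℝ) + 1 + w) * Hc D w x (n + 1 - (2 * D - 1 + w + x)) else 0) =
      ∑ D ∈ Icc 2 (n + 1), (if 2 * D - 1 + w + x ≤ n + 1 then
        zz D w x * ((D : ℝ) + 1 + w) * Hc D w x (n + 1 - (2 * D - 1 + w + x)) else 0) := by
    apply sum_subset
    · intro D hD
      rw [mem_Icc] at hD ⊢
      omega
    · intro D hD hD'
      rw [mem_Icc] at hD hD'
      have : D = 2 := by omega
      subst this
      have h0 : ∀ m y z, Hp 2 w x m y z = 0 := fun m y z => by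
        unfold Hp
        simp
      unfold Hc
      rw [h0, h0]
      simp
  rw [← e6]
  exact (e2.trans (e3.le.trans e4)).trans e5

end Pool.ADM
end

section

end

section

end

section

end

section

/-! job ADM-31: the theorem. -/

set_option autoImplicit false

namespace Pool.ADM

open Finset

private theorem m31_fact (n : ℕ) (hn : 16 ≤ n) : 500 * (n + n ^ 3) ≤ n.factorial := by
  induction n, hn using Nat.le_induction with
  | base => decide
  | succ n hn ih =>
    rw [Nat.factorial_succ]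
    have h1 : (n + 1) * (500 * (n + n ^ 3)) ≤ (n + 1) * n.factorial := Nat.mul_le_mul_left _ ih
    refine le_trans ?_ h1
    have h2 : 16 * n ≤ n * n := Nat.mul_le_mul_right _ hn
    have h3 : 16 * (n * n) ≤ n * (n * n) := Nat.mul_le_mul_right _ hn
    have h4 : 1 + (n + 1) ^ 2 ≤ n + n ^ 3 := by nlinarith
    have h5 : 500 * (n + 1 + (n + 1) ^ 3) = (n + 1) * (500 * (1 + (n + 1) ^ 2)) := by ring
    rw [h5]
    exact Nat.mul_le_mul_left _ (Nat.mul_le_mul_left _ h4)

private theorem m31_tiny (n : ℕ) (hn : 16 ≤ n) : tiny n ≤ 1 / 1000 * 2 := by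
  have h := m31_fact n hn
  have h' : (500 : ℝ) * (n + (n : ℝ) ^ 3) ≤ (n.factorial : ℝ) := by exact_mod_cast h
  have hp : (0 : ℝ) < (n.factorial : ℝ) := by exact_mod_cast n.factorial_pos
  unfold tiny
  rw [div_le_iff₀ hp]
  linarith

/-- the sum of one class `(w, x)` -/
private noncomputable def m31_T (N w x : ℕ) : ℝ :=
  ∑ D ∈ Icc 2 N, (if 2 * D - 1 + w + x ≤ N then
        zz D w x * ((D : ℝ) + 1 + w) * cc D w x (N - (2 * D - 1 + w + x)) else 0)

private theorem m31_T_nonneg (N w x : ℕ) (hN : 17 ≤ N) : 0 ≤ m31_T N w x := by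
  have h := chain_nonneg N w x 0 le_rfl (fun Δ j0 k hj he hk =>
    num_partial Δ w x j0 k hj (by omega) hk)
  unfold m31_T
  refine le_trans ?_ h
  split_ifs <;> simp

private theorem m31_T_zero (N : ℕ) (hN : 17 ≤ N) : 1 / 1000 * 2 ≤ m31_T N 0 0 := by
  have h := chain_nonneg N 0 0 (1 / 1000) (by norm_num) (fun Δ j0 k hj he hk =>
    num_zero Δ j0 k hj (by omega) hk)
  rw [if_pos (by omega), zz_two] at h
  unfold m31_T
  refine le_trans ?_ h
  norm_num

/-- `main_split`, `S1_ge`, `S2_le`, `regroup_D`, `regroup_H`, `chain_nonneg` with `num_partial`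
(`s = 0`) and `num_zero` (`s = 1/1000`, `w = x = 0`, `zz_two`); `tiny n ≤ 1/1000 * 2` for `n ≥ 16`. -/
theorem big (n : ℕ) (hn : 17 ≤ n) : EM n Cf ≤ EM n Vf := by
  obtain ⟨m, rfl⟩ : ∃ m, n = m + 1 := ⟨n - 1, by omega⟩
  have hm : 16 ≤ m := by omega
  have h1 := main_split m (by omega)
  have h2 := S1_ge (m + 1) (by omega)
  have h3 := S2_le m (by omega)
  have ht := m31_tiny m hm
  -- the bound of `S2`
  have h4 : S2 m ≤ ∑ w ∈ range (m + 1 + 1), ∑ x ∈ range (m + 1 + 1),
      ∑ D ∈ Icc 2 (m + 1), (if 2 * D - 1 + w + x ≤ m + 1 then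
        zz D w x * ((D : ℝ) + 1 + w) * Hc D w x (m + 1 - (2 * D - 1 + w + x)) else 0) := by
    have h5 : ∑ w ∈ range (m + 1 + 1), ∑ x ∈ range (m + 1 + 1),
        ∑ D ∈ Icc 2 (m + 1), (if 2 * D - 1 + w + x ≤ m + 1 then
          zz D w x * ((D : ℝ) + 1 + w) * Hc D w x (m + 1 - (2 * D - 1 + w + x)) else 0) =
        ∑ w ∈ range (m + 1), ∑ x ∈ range (m + 1),
        ∑ D ∈ Icc 2 (m + 1), (if 2 * D - 1 + w + x ≤ m + 1 then
          zz D w x * ((D : ℝ) + 1 + w) * Hc D w x (m + 1 - (2 * D - 1 + w + x)) else 0) := by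
      rw [Finset.sum_range_succ]
      have e1 : ∑ x ∈ range (m + 1 + 1), ∑ D ∈ Icc 2 (m + 1),
          (if 2 * D - 1 + (m + 1) + x ≤ m + 1 then
          zz D (m + 1) x * ((D : ℝ) + 1 + ((m + 1 : ℕ) : ℝ)) *
            Hc D (m + 1) x (m + 1 - (2 * D - 1 + (m + 1) + x)) else 0) = 0 := by
        refine Finset.sum_eq_zero fun x _ => Finset.sum_eq_zero fun D hD => ?_
        have := (Finset.mem_Icc.1 hD).1
        exact if_neg (by omega)
      rw [e1, add_zero]
      refine Finset.sum_congr rfl fun w _ => ?_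
      rw [Finset.sum_range_succ]
      have e2 : ∑ D ∈ Icc 2 (m + 1),
          (if 2 * D - 1 + w + (m + 1) ≤ m + 1 then
          zz D w (m + 1) * ((D : ℝ) + 1 + w) *
            Hc D w (m + 1) (m + 1 - (2 * D - 1 + w + (m + 1))) else 0) = 0 := by
        refine Finset.sum_eq_zero fun D hD => ?_
        have := (Finset.mem_Icc.1 hD).1
        exact if_neg (by omega)
      rw [e2, add_zero]
    rw [h5]
    refine h3.trans ?_
    exact Finset.sum_le_sum fun w _ => Finset.sum_le_sum fun x _ => regroup_H m w x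
  -- the bound of `S1`
  have h6 : ∑ w ∈ range (m + 1 + 1), ∑ x ∈ range (m + 1 + 1),
      (m31_T (m + 1) w x + ∑ D ∈ Icc 2 (m + 1), (if 2 * D - 1 + w + x ≤ m + 1 then
        zz D w x * ((D : ℝ) + 1 + w) * Hc D w x (m + 1 - (2 * D - 1 + w + x)) else 0)) ≤
      S1 (m + 1) := by
    refine le_trans ?_ h2
    refine Finset.sum_le_sum fun w _ => Finset.sum_le_sum fun x _ => ?_
    have h7 := regroup_D (m + 1) w x
    refine le_trans ?_ (sub_le_sub_left h7 _)
    unfold m31_T
    rw [← Finset.sum_add_distrib, ← Finset.sum_sub_distrib]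
    refine Finset.sum_le_sum fun D _ => ?_
    split_ifs
    · unfold cc
      apply le_of_eq
      ring
    · simp
  simp only [Finset.sum_add_distrib] at h6
  have h8 : 1 / 1000 * 2 ≤ ∑ w ∈ range (m + 1 + 1), ∑ x ∈ range (m + 1 + 1), m31_T (m + 1) w x := by
    have hnn : ∀ w x, 0 ≤ m31_T (m + 1) w x := fun w x => m31_T_nonneg _ w x hn
    calc (1 : ℝ) / 1000 * 2 ≤ m31_T (m + 1) 0 0 := m31_T_zero _ hn
      _ ≤ ∑ x ∈ range (m + 1 + 1), m31_T (m + 1) 0 x :=
          Finset.single_le_sum (f := fun x => m31_T (m + 1) 0 x) (fun x _ => hnn 0 x)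
            (Finset.mem_range.2 (by omega))
      _ ≤ ∑ w ∈ range (m + 1 + 1), ∑ x ∈ range (m + 1 + 1), m31_T (m + 1) w x :=
          Finset.single_le_sum
            (f := fun w => ∑ x ∈ range (m + 1 + 1), m31_T (m + 1) w x)
            (fun w _ => Finset.sum_nonneg fun x _ => hnn w x)
            (Finset.mem_range.2 (by omega))
  have h9 : 0 ≤ ((m : ℝ) + 1) * (EM (m + 1) Vf - EM (m + 1) Cf) := by linarith
  have h10 : (0 : ℝ) < (m : ℝ) + 1 := by positivity
  have h11 := nonneg_of_mul_nonneg_right h9 h10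
  linarith

/-- `Dp_diff`, `small`, `big`. -/
theorem increments_monotone (n : ℕ) (hn : 2 ≤ n) :
    Pool.Agent.Lib.MP_ad84ff_co.Dp n - Pool.Agent.Lib.MP_ad84ff_co.Dp (n - 1) ≤
      Pool.Agent.Lib.MP_ad84ff_co.Dp (n + 1) - Pool.Agent.Lib.MP_ad84ff_co.Dp n := by
  obtain ⟨m, rfl⟩ : ∃ m, n = m + 1 := ⟨n - 1, by omega⟩
  have hm : 1 ≤ m := by omega
  have h := Dp_diff m hm
  have hCV : EM m Cf ≤ EM m Vf := by
    rcases Nat.lt_or_ge m 17 with h1 | h1
    · exact small m hm (by omega)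
    · exact big m h1
  have h2 : 0 ≤ (EM m Vf - EM m Cf) / (((m : ℝ) + 1) * ((m : ℝ) + 2)) :=
    div_nonneg (by linarith) (by positivity)
  rw [← h] at h2
  have e : m + 1 - 1 = m := by omega
  rw [e]
  have e2 : m + 1 + 1 = m + 2 := rfl
  rw [e2]
  linarith

end Pool.ADM
end
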